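import Pool.Agent.Art.BurDef

/-!
# The Burau lemma

`lam p = (1, t, ..., t ^ (p - 1))`, `t = 1 + X`; `1` is the column vector of ones. All congruences are
modulo powers of `X` in `ℤ⟦X⟧`.

PROOFS.
`col_eq`: if `g ≡` the permutation matrix of a transitive permutation `σ` modulo `X`, `g 1 = 1` and
`g u ≡ u` modulo `X ^ k` then `u ≡ a • 1` modulo `X ^ k` for some `a`. Induction on `k`. `k = 0`: clear.
Step: modulo `X` we have `u (σ⁻¹ i) ≡ u i` (the `i`-th entry of `g u`), so the constant coefficients of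
`u` are all equal to `a₀` (transitivity), `u = a₀ 1 + X u'`; then `X (g u' - u') ≡ 0` modulo
`X ^ (k + 1)`, so `g u' ≡ u'` modulo `X ^ k`, `u' ≡ a' 1`, `u ≡ (a₀ + X a') 1`.
`row_eq`: the same for rows: `w ᵥ* g ≡ w` modulo `X ^ k` implies `w ≡ b • lam p` (constant coefficient
of `lam p` is `1` everywhere).
`pow_ne`: suppose `g ^ p ≡ 1` modulo `X ^ p`. Let `N = ∑ k in range p, g ^ k`. `g N - N = g ^ p - 1 ≡ 0`,
also `N g - N ≡ 0`. By `col_eq` every column of `N` is `≡ m j • 1`, i.e. `N a j ≡ m j` for all `a`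
(`0 < p`). The row `m` satisfies `m g ≡ m` (the row `a` of `N g ≡ N`), so `m ≡ c • lam p`. Then
`N 1 = p 1` (as `g 1 = 1`) gives `c * ∑ j, lam p j ≡ p` modulo `X ^ p`. Now
`(∑ j < p, (1 + X) ^ j) * X = (1 + X) ^ p - 1`, so the coefficient of `X ^ j` in `q = ∑ j, lam p j` is
`choose p (j + 1)` for `j < p`. Constant coefficient: `c₀ * p = p`, `c₀ = 1`. Coefficient of
`X ^ (p - 1)`: `∑ (i + j = p - 1) c_i * choose p (j + 1) = c₀` modulo `p` (all `choose p (j + 1)`,
`j + 1 < p`, are divisible by `p`: `Nat.Prime.dvd_choose_self`), but it is the coefficient of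
`X ^ (p - 1)` in the constant `p` (or `p = 1`, excluded), which is `0` as `p ≥ 2`. So `p ∣ 1`,
contradiction.
`eq_one_of_pow`: if `g ≡ 1` modulo `X`, `g ^ m ≡ 1` modulo `X ^ k`, `m ≥ 1`, then `g ≡ 1` modulo `X ^ k`.
Induction on `k`: let `g = 1 + X ^ j Y` with `1 ≤ j < k`; `g ^ m ≡ 1 + m X ^ j Y` modulo `X ^ (j + 1)`
(binomial theorem: `(1 + A) ^ m = 1 + m A + A ^ 2 * _`, `A = X ^ j Y`, `2 j ≥ j + 1`), so
`m Y ≡ 0` modulo `X`, `Y ≡ 0` modulo `X`.
-/

set_option autoImplicit false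

namespace Pool.Agent.Art

open PowerSeries Matrix

variable {p : ℕ}

private lemma trans_Bur {σ : Equiv.Perm (Fin p)} (hσ : ∀ i j, ∃ k : ℕ, (σ ^ k) i = j)
    {f : Fin p → ℤ} (hf : ∀ i, f (σ i) = f i) (i j : Fin p) : f i = f j := by
  have h1 : ∀ k : ℕ, f ((σ ^ k) i) = f i := by
    intro k
    induction k with
    | zero => rfl
    | succ k ih => rw [pow_succ', Equiv.Perm.mul_apply, hf, ih]
  obtain ⟨k, hk⟩ := hσ i j
  rw [← hk, h1]

private lemma dvd_step_Bur {k : ℕ} {f : ℤ⟦X⟧} (h : X ^ (k + 1) ∣ X * f) : X ^ k ∣ f := by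
  rw [pow_succ'] at h
  exact (mul_dvd_mul_iff_left X_ne_zero).1 h

theorem col_eq {g : Matrix (Fin p) (Fin p) ℤ⟦X⟧} {σ : Equiv.Perm (Fin p)}
    (hσ : ∀ i j, ∃ k : ℕ, (σ ^ k) i = j) (hv : g *ᵥ 1 = 1)
    (hg : ∀ i j, constantCoeff (g i j) = if i = σ j then 1 else 0) (k : ℕ)
    (u : Fin p → ℤ⟦X⟧) (hu : ∀ i, X ^ k ∣ (g *ᵥ u) i - u i) :
    ∃ a : ℤ⟦X⟧, ∀ i, X ^ k ∣ u i - a := by
  induction k generalizing u with
  | zero => exact ⟨0, fun i => by rw [pow_zero]; exact one_dvd _⟩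
  | succ k ih =>
    rcases isEmpty_or_nonempty (Fin p) with he | ⟨⟨i₀⟩⟩
    · exact ⟨0, fun i => he.elim i⟩
    have h1 : ∀ i, constantCoeff (u (σ i)) = constantCoeff (u i) := by
      intro i
      have h2 : X ∣ (g *ᵥ u) (σ i) - u (σ i) := (dvd_pow_self X (Nat.succ_ne_zero k)).trans (hu _)
      rw [X_dvd_iff, map_sub, sub_eq_zero, Matrix.mulVec, dotProduct, map_sum] at h2
      rw [← h2, Finset.sum_eq_single i]
      · rw [map_mul, hg, if_pos rfl, one_mul]
      · intro j _ hj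
        rw [map_mul, hg, if_neg (fun h => hj (σ.injective h).symm), zero_mul]
      · intro h
        exact absurd (Finset.mem_univ _) h
    have h2 : ∀ i, ∃ w, u i = C (constantCoeff (u i₀)) + X * w := by
      intro i
      have h3 : X ∣ u i - C (constantCoeff (u i₀)) := by
        rw [X_dvd_iff, map_sub, constantCoeff_C,
          trans_Bur (f := fun i => constantCoeff (u i)) hσ h1 i i₀, sub_self]
      obtain ⟨w, hw⟩ := h3
      exact ⟨w, by rw [← hw]; ring⟩
    choose u' hu' using h2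
    have h3 : ∀ i, (g *ᵥ u) i - u i = X * ((g *ᵥ u') i - u' i) := by
      intro i
      have h4 : (g *ᵥ u) i = C (constantCoeff (u i₀)) * (g *ᵥ 1) i + X * (g *ᵥ u') i := by
        simp only [Matrix.mulVec, dotProduct, Finset.mul_sum, ← Finset.sum_add_distrib]
        refine Finset.sum_congr rfl fun j _ => ?_
        rw [hu' j, Pi.one_apply]
        ring
      rw [h4, hv, hu' i, Pi.one_apply]
      ring
    obtain ⟨a, ha⟩ := ih u' fun i => by
      have h4 := hu i
      rw [h3 i] at h4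
      exact dvd_step_Bur h4
    refine ⟨C (constantCoeff (u i₀)) + X * a, fun i => ?_⟩
    have h5 : u i - (C (constantCoeff (u i₀)) + X * a) = X * (u' i - a) := by
      rw [hu' i]
      ring
    rw [h5, pow_succ']
    exact mul_dvd_mul_left X (ha i)

private lemma lam_cc_Bur (i : Fin p) : constantCoeff (lam p i) = 1 := by
  rw [lam, map_pow, map_add, map_one, constantCoeff_X, add_zero, one_pow]

theorem row_eq {g : Matrix (Fin p) (Fin p) ℤ⟦X⟧} {σ : Equiv.Perm (Fin p)}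
    (hσ : ∀ i j, ∃ k : ℕ, (σ ^ k) i = j) (hl : lam p ᵥ* g = lam p)
    (hg : ∀ i j, constantCoeff (g i j) = if i = σ j then 1 else 0) (k : ℕ)
    (u : Fin p → ℤ⟦X⟧) (hu : ∀ i, X ^ k ∣ (u ᵥ* g) i - u i) :
    ∃ a : ℤ⟦X⟧, ∀ i, X ^ k ∣ u i - a * lam p i := by
  induction k generalizing u with
  | zero => exact ⟨0, fun i => by rw [pow_zero]; exact one_dvd _⟩
  | succ k ih =>
    rcases isEmpty_or_nonempty (Fin p) with he | ⟨⟨i₀⟩⟩
    · exact ⟨0, fun i => he.elim i⟩
    have h1 : ∀ i, constantCoeff (u (σ i)) = constantCoeff (u i) := by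
      intro i
      have h2 : X ∣ (u ᵥ* g) i - u i := (dvd_pow_self X (Nat.succ_ne_zero k)).trans (hu _)
      rw [X_dvd_iff, map_sub, sub_eq_zero, Matrix.vecMul, dotProduct, map_sum] at h2
      rw [← h2, Finset.sum_eq_single (σ i)]
      · rw [map_mul, hg, if_pos rfl, mul_one]
      · intro j _ hj
        rw [map_mul, hg, if_neg hj, mul_zero]
      · intro h
        exact absurd (Finset.mem_univ _) h
    have h2 : ∀ i, ∃ w, u i = C (constantCoeff (u i₀)) * lam p i + X * w := by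
      intro i
      have h3 : X ∣ u i - C (constantCoeff (u i₀)) * lam p i := by
        rw [X_dvd_iff, map_sub, map_mul, constantCoeff_C, lam_cc_Bur, mul_one,
          trans_Bur (f := fun i => constantCoeff (u i)) hσ h1 i i₀, sub_self]
      obtain ⟨w, hw⟩ := h3
      exact ⟨w, by rw [← hw]; ring⟩
    choose u' hu' using h2
    have h3 : ∀ i, (u ᵥ* g) i - u i = X * ((u' ᵥ* g) i - u' i) := by
      intro i
      have h4 : (u ᵥ* g) i = C (constantCoeff (u i₀)) * (lam p ᵥ* g) i + X * (u' ᵥ* g) i := by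
        simp only [Matrix.vecMul, dotProduct, Finset.mul_sum, ← Finset.sum_add_distrib]
        refine Finset.sum_congr rfl fun j _ => ?_
        rw [hu' j]
        ring
      rw [h4, hl, hu' i]
      ring
    obtain ⟨a, ha⟩ := ih u' fun i => by
      have h4 := hu i
      rw [h3 i] at h4
      exact dvd_step_Bur h4
    refine ⟨C (constantCoeff (u i₀)) + X * a, fun i => ?_⟩
    have h5 : u i - (C (constantCoeff (u i₀)) + X * a) * lam p i = X * (u' i - a * lam p i) := by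
      rw [hu' i]
      ring
    rw [h5, pow_succ']
    exact mul_dvd_mul_left X (ha i)

private lemma coeff_q_Bur (p j : ℕ) :
    coeff j (∑ i ∈ Finset.range p, (1 + X : ℤ⟦X⟧) ^ i) = (p.choose (j + 1) : ℤ) := by
  have h1 := geom_sum_mul (1 + X : ℤ⟦X⟧) p
  rw [add_sub_cancel_left] at h1
  have h2 := congrArg (coeff (j + 1)) h1
  rw [coeff_succ_mul_X] at h2
  rw [h2, map_sub, coeff_one, if_neg (Nat.succ_ne_zero j), sub_zero]
  have h3 : ((1 + X : ℤ⟦X⟧)) ^ p =
      (((1 + Polynomial.X : Polynomial ℤ) ^ p : Polynomial ℤ) : ℤ⟦X⟧) := by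
    rw [Polynomial.coe_pow, Polynomial.coe_add, Polynomial.coe_one, Polynomial.coe_X]
  rw [h3, Polynomial.coeff_coe, Polynomial.coeff_one_add_X_pow]

theorem pow_ne (hp : p.Prime) {g : Matrix (Fin p) (Fin p) ℤ⟦X⟧} {σ : Equiv.Perm (Fin p)}
    (hσ : ∀ i j, ∃ k : ℕ, (σ ^ k) i = j) (hv : g *ᵥ 1 = 1) (hl : lam p ᵥ* g = lam p)
    (hg : ∀ i j, constantCoeff (g i j) = if i = σ j then 1 else 0) :
    ¬ ∀ i j, X ^ p ∣ (g ^ p - 1) i j := by
  intro h
  obtain ⟨N, hN⟩ : ∃ N : Matrix (Fin p) (Fin p) ℤ⟦X⟧, N = ∑ k ∈ Finset.range p, g ^ k := ⟨_, rfl⟩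
  have hgN : g * N - N = g ^ p - 1 := by
    have h1 := mul_geom_sum g p
    rw [← hN, sub_mul, one_mul] at h1
    exact h1
  have hNg : N * g - N = g ^ p - 1 := by
    have h1 := geom_sum_mul g p
    rw [← hN, mul_sub, mul_one] at h1
    exact h1
  have hcol : ∀ j, ∃ a : ℤ⟦X⟧, ∀ i, X ^ p ∣ N i j - a := by
    intro j
    refine col_eq hσ hv hg p (fun i => N i j) fun i => ?_
    have h1 : (g *ᵥ fun i => N i j) i - N i j = (g * N - N) i j := by
      rw [Matrix.sub_apply, Matrix.mul_apply]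
      rfl
    rw [h1, hgN]
    exact h i j
  choose m hm using hcol
  obtain ⟨a⟩ : Nonempty (Fin p) := ⟨⟨0, hp.pos⟩⟩
  obtain ⟨c, hc⟩ := row_eq hσ hl hg p m (by
    intro j
    have h1 : X ^ p ∣ (N * g - N) a j := by
      rw [hNg]
      exact h a j
    have h2 : (m ᵥ* g) j - m j = (N * g - N) a j - ∑ i, (N a i - m i) * g i j + (N a j - m j) := by
      rw [Matrix.sub_apply, Matrix.mul_apply, Matrix.vecMul, dotProduct]
      simp only [sub_mul, Finset.sum_sub_distrib]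
      ring
    rw [h2]
    exact dvd_add (dvd_sub h1 (Finset.dvd_sum fun i _ => Dvd.dvd.mul_right (hm i a) _)) (hm j a))
  have hN1 : ∀ i, ∑ j, N i j = (p : ℤ⟦X⟧) := by
    intro i
    have hk : ∀ k : ℕ, (g ^ k) *ᵥ 1 = 1 := by
      intro k
      induction k with
      | zero => rw [pow_zero, Matrix.one_mulVec]
      | succ k ih => rw [pow_succ, ← Matrix.mulVec_mulVec, hv, ih]
    have h1 : (N *ᵥ 1) i = (p : ℤ⟦X⟧) := by
      rw [hN, Matrix.sum_mulVec, Finset.sum_apply]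
      simp only [hk, Pi.one_apply, Finset.sum_const, Finset.card_range, nsmul_eq_mul, mul_one]
    rw [← h1, Matrix.mulVec, dotProduct]
    exact Finset.sum_congr rfl fun j _ => by rw [Pi.one_apply, mul_one]
  obtain ⟨q, hq⟩ : ∃ q : ℤ⟦X⟧, q = ∑ i ∈ Finset.range p, (1 + X : ℤ⟦X⟧) ^ i := ⟨_, rfl⟩
  have hlam : ∑ j, lam p j = q := by
    rw [hq, Finset.sum_range]
    rfl
  have hkey : X ^ p ∣ (p : ℤ⟦X⟧) - c * q := by
    have h1 : (p : ℤ⟦X⟧) - c * q = ∑ j, ((N a j - m j) + (m j - c * lam p j)) := by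
      rw [← hN1 a, ← hlam, Finset.mul_sum, ← Finset.sum_sub_distrib]
      exact Finset.sum_congr rfl fun j _ => by ring
    rw [h1]
    exact Finset.dvd_sum fun j _ => dvd_add (hm j a) (hc j)
  rw [X_pow_dvd_iff] at hkey
  have hp2 := hp.two_le
  have hcoef : ∀ j, coeff j ((p : ℤ⟦X⟧)) = if j = 0 then (p : ℤ) else 0 := by
    intro j
    have h1 : ((p : ℤ⟦X⟧)) = C (p : ℤ) := by
      rw [map_natCast]
    rw [h1, coeff_C]
  have h0 := hkey 0 hp.pos
  rw [map_sub, hcoef, if_pos rfl, coeff_mul, Finset.HasAntidiagonal.antidiagonal_zero,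
    Finset.sum_singleton, hq, coeff_q_Bur, zero_add, Nat.choose_one_right] at h0
  have hc0 : coeff 0 c = 1 := by
    have hp0 : (p : ℤ) ≠ 0 := by
      have := hp.pos
      omega
    have h1 : ((p : ℤ)) * (coeff 0 c - 1) = 0 := by linear_combination -h0
    rcases mul_eq_zero.1 h1 with h2 | h2
    · exact absurd h2 hp0
    · linarith
  have h1 := hkey (p - 1) (by omega)
  rw [map_sub, hcoef, if_neg (by omega), zero_sub, neg_eq_zero, coeff_mul, hq] at h1
  simp only [coeff_q_Bur] at h1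
  have hmem : ((0, p - 1) : ℕ × ℕ) ∈ Finset.HasAntidiagonal.antidiagonal (p - 1) :=
    Finset.HasAntidiagonal.mem_antidiagonal.2 (Nat.zero_add (p - 1))
  rw [← Finset.add_sum_erase _ _ hmem] at h1
  rw [Nat.sub_add_cancel hp.pos, Nat.choose_self, hc0] at h1
  have h2 : (p : ℤ) ∣ ∑ x ∈ (Finset.HasAntidiagonal.antidiagonal (p - 1)).erase (0, p - 1),
      coeff x.1 c * ((p.choose (x.2 + 1) : ℕ) : ℤ) := by
    refine Finset.dvd_sum fun x hx => Dvd.dvd.mul_left ?_ _
    rw [Finset.mem_erase, Finset.HasAntidiagonal.mem_antidiagonal] at hx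
    have h3 : x.2 + 1 < p := by
      rcases Nat.eq_zero_or_pos x.1 with h4 | h4
      · exfalso
        apply hx.1
        ext
        · exact h4
        · simpa [h4] using hx.2
      · omega
    exact_mod_cast hp.dvd_choose_self (Nat.succ_ne_zero _) h3
  have h3 : (p : ℤ) ∣ 1 := by
    have h4 : (1 : ℤ) = -(∑ x ∈ (Finset.HasAntidiagonal.antidiagonal (p - 1)).erase (0, p - 1),
        coeff x.1 c * ((p.choose (x.2 + 1) : ℕ) : ℤ)) := by
      push_cast at h1 ⊢
      linarith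
    rw [h4]
    exact (dvd_neg).2 h2
  have h4 := Int.le_of_dvd one_pos h3
  omega

private def Div_Bur {ι : Type} (k : ℕ) (M : Matrix ι ι ℤ⟦X⟧) : Prop := ∀ i j, X ^ k ∣ M i j

private lemma Div_Bur.mul {ι : Type} [Fintype ι] {k l : ℕ} {M N : Matrix ι ι ℤ⟦X⟧}
    (h : Div_Bur k M) (h' : Div_Bur l N) : Div_Bur (k + l) (M * N) := by
  intro i j
  rw [Matrix.mul_apply, pow_add]
  exact Finset.dvd_sum fun s _ => mul_dvd_mul (h i s) (h' s j)

private lemma Div_Bur.add {ι : Type} {k : ℕ} {M N : Matrix ι ι ℤ⟦X⟧}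
    (h : Div_Bur k M) (h' : Div_Bur k N) : Div_Bur k (M + N) := fun i j => dvd_add (h i j) (h' i j)

private lemma Div_Bur.mono {ι : Type} {k l : ℕ} {M : Matrix ι ι ℤ⟦X⟧} (hkl : l ≤ k)
    (h : Div_Bur k M) : Div_Bur l M := fun i j => (pow_dvd_pow X hkl).trans (h i j)

private lemma binom_Bur {ι : Type} [Fintype ι] [DecidableEq ι] {j : ℕ} (hj : 1 ≤ j)
    {A : Matrix ι ι ℤ⟦X⟧} (hA : Div_Bur j A) (m : ℕ) :
    Div_Bur (j + 1) ((1 + A) ^ m - 1 - (m : Matrix ι ι ℤ⟦X⟧) * A) := by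
  induction m with
  | zero =>
    intro a b
    rw [pow_zero, sub_self, Nat.cast_zero, zero_mul, sub_zero, Matrix.zero_apply]
    exact dvd_zero _
  | succ m ih =>
    have h1 : (1 + A) ^ (m + 1) - 1 - ((m + 1 : ℕ) : Matrix ι ι ℤ⟦X⟧) * A =
        ((1 + A) ^ m - 1 - (m : Matrix ι ι ℤ⟦X⟧) * A) * (1 + A) +
          (m : Matrix ι ι ℤ⟦X⟧) * (A * A) := by
      rw [pow_succ]
      push_cast
      noncomm_ring
    rw [h1]
    refine Div_Bur.add ?_ ?_
    · have h2 := ih.mul (l := 0) (N := 1 + A) fun i j => by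
        rw [pow_zero]
        exact one_dvd _
      rwa [add_zero] at h2
    · have h2 : Div_Bur 0 (m : Matrix ι ι ℤ⟦X⟧) := fun i j => by
        rw [pow_zero]
        exact one_dvd _
      have h3 := h2.mul (hA.mul hA)
      exact h3.mono (by omega)

theorem eq_one_of_pow {ι : Type} [Fintype ι] [DecidableEq ι] {g : Matrix ι ι ℤ⟦X⟧}
    (hg : ∀ i j, X ∣ (g - 1) i j) {m k : ℕ} (hm : m ≠ 0)
    (h : ∀ i j, X ^ k ∣ (g ^ m - 1) i j) (i j : ι) : X ^ k ∣ (g - 1) i j := by
  have key : ∀ n, n ≤ k → Div_Bur n (g - 1) := by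
    intro n
    induction n with
    | zero =>
      intro _ i j
      rw [pow_zero]
      exact one_dvd _
    | succ n ih =>
      intro hn
      rcases Nat.eq_zero_or_pos n with h0 | h0
      · subst h0
        intro i j
        rw [zero_add, pow_one]
        exact hg i j
      have h1 := ih (by omega)
      have h2 := binom_Bur h0 h1 m
      rw [add_sub_cancel] at h2
      intro i j
      have h3 : X ^ (n + 1) ∣ ((m : Matrix ι ι ℤ⟦X⟧) * (g - 1)) i j := by
        have h4 : ((m : Matrix ι ι ℤ⟦X⟧) * (g - 1)) i j = (g ^ m - 1) i j -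
            (g ^ m - 1 - (m : Matrix ι ι ℤ⟦X⟧) * (g - 1)) i j := by
          rw [Matrix.sub_apply (g ^ m - 1)]
          ring
        rw [h4]
        exact dvd_sub ((pow_dvd_pow X hn).trans (h i j)) (h2 i j)
      have h5 : ((m : Matrix ι ι ℤ⟦X⟧) * (g - 1)) i j = (m : ℤ⟦X⟧) * (g - 1) i j := by
        rw [← nsmul_eq_mul, Matrix.smul_apply, nsmul_eq_mul]
      rw [h5] at h3
      obtain ⟨y, hy⟩ := h1 i j
      rw [hy] at h3 ⊢
      have h6 : X ∣ (m : ℤ⟦X⟧) * y := by
        rw [pow_succ, mul_left_comm] at h3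
        exact (mul_dvd_mul_iff_left (pow_ne_zero n X_ne_zero)).1 h3
      rw [X_dvd_iff, map_mul, map_natCast, mul_eq_zero] at h6
      have h7 : constantCoeff y = 0 := h6.resolve_left (by exact_mod_cast hm)
      rw [pow_succ]
      exact mul_dvd_mul_left _ (X_dvd_iff.2 h7)
  exact key k le_rfl i j

end Pool.Agent.Art
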