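import Pool.Agent.Art.Defs
import Pool.Agent.HL.HierDef

/-!
# The class HierL: subgroups, extensions

PROOFS.
`hierL_of_injective`: induction on `HierL Q`, the statement for all `G` and all injective `f`.
`triv`: `G` is trivial. `tree`: `G` acts on the same tree through `f` (use `MulAction.compHom`; the
stabiliser of `v` in `G` is mapped injectively to the stabiliser in `Q`). `ext`: the homomorphism
`p.comp f`, `F.comap (p.comp f)` embeds into `F.comap p`. `union`: `H' F = (H (F.image f)).comap f`
(embeds into `H (F.image f)`; classical decidability). `loc`: a finitely generated subgroup `H` of `G`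
without nontrivial homomorphisms to `ℤ` is isomorphic to its image `H.map f`, which is finitely
generated and has no nontrivial homomorphisms to `ℤ`; by induction the statement holds for `H → H.map f`.
`hierL_ext`: induction on `HierL Q`, the statement for all `G`, `f` with `HierL f.ker`.
`triv`: `f.ker = ⊤ ≃ G`. `tree`: act through `f`; the stabiliser of `v` in `G` is mapped to the
stabiliser in `Q`, the kernel of this map embeds into `f.ker`. `ext`: `p.comp f`; the subgroup
`F.comap (p.comp f)` is mapped to `F.comap p` with kernel embedded into `f.ker`. `union`: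
`(H (F.image f)).comap f`. `loc`: for a finitely generated `H ≤ G` without nontrivial homomorphisms to
`ℤ` consider `H → H.map f` (surjective, so `H.map f` has no nontrivial homomorphisms to `ℤ`), its
kernel embeds into `f.ker`; apply the induction hypothesis.
(Use `hierL_of_injective` for all kernels; `MonoidHom.subgroupMap`, `MonoidHom.restrict`, codRestrict.)
`hierL_of_li`: constructor `loc`; the subgroups in question are `⊥`.
-/

set_option autoImplicit false

namespace Pool.Agent.Art

open Pool.Agent.HL

/-- the restriction of a homomorphism to subgroups -/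
private def Cls_cod {G Q : Type} [Group G] [Group Q] (f : G →* Q) (A : Subgroup G)
    (B : Subgroup Q) (h : ∀ g ∈ A, f g ∈ B) : A →* B :=
  (f.comp A.subtype).codRestrict B fun g => h g.1 g.2

private theorem Cls_inj {G Q : Type} [Group G] [Group Q] {f : G →* Q}
    (hf : Function.Injective f) (A : Subgroup G) (B : Subgroup Q) (h : ∀ g ∈ A, f g ∈ B) :
    Function.Injective (Cls_cod f A B h) := by
  intro a b hab
  exact Subtype.ext (hf (congrArg Subtype.val hab))

private theorem Cls_fg {G Q : Type} [Group G] [Group Q] (f : G →* Q) {H : Subgroup G}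
    (hH : H.FG) : (H.map f).FG := by
  classical
  obtain ⟨S, hS⟩ := hH
  refine ⟨S.image f, ?_⟩
  rw [Finset.coe_image, ← MonoidHom.map_closure, hS]

private theorem Cls_hom {G Q : Type} [Group G] [Group Q] (f : G →* Q) {H : Subgroup G}
    (hz : ∀ χ : H →* Multiplicative ℤ, χ = 1) (χ : H.map f →* Multiplicative ℤ) : χ = 1 := by
  ext y
  obtain ⟨x, hx, hxy⟩ := Subgroup.mem_map.1 y.2
  have h1 := hz (χ.comp (Cls_cod f H (H.map f) fun g hg => Subgroup.mem_map_of_mem f hg))
  have h2 := congrArg (fun ψ : H →* Multiplicative ℤ => ψ ⟨x, hx⟩) h1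
  have h3 : (Cls_cod f H (H.map f) fun g hg => Subgroup.mem_map_of_mem f hg) ⟨x, hx⟩ = y :=
    Subtype.ext hxy
  have h4 : χ ((Cls_cod f H (H.map f) fun g hg => Subgroup.mem_map_of_mem f hg) ⟨x, hx⟩) = 1 :=
    h2
  rw [h3] at h4
  rw [h4, MonoidHom.one_apply]

private theorem Cls_of_inj {Q : Type} [Group Q] (h : HierL Q) :
    ∀ (G : Type) [Group G] (f : G →* Q), Function.Injective f → HierL G := by
  induction h with
  | triv Q =>
    intro G _ f hf
    have : Subsingleton G := hf.subsingleton
    exact HierL.triv G
  | tree Q V T hT hadj hinv h ih =>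
    intro G _ f hf
    let _ : MulAction G V := MulAction.compHom V f
    refine HierL.tree G V T hT (fun g u v huv => hadj (f g) u v huv)
      (fun g u v huv => hinv (f g) u v huv) fun v => ?_
    exact ih v _ (Cls_cod f (MulAction.stabilizer G v) (MulAction.stabilizer Q v)
      fun g hg => hg) (Cls_inj hf _ _ _)
  | ext Q A p hA h ih =>
    intro G _ f hf
    refine HierL.ext G A (p.comp f) hA fun F hF => ?_
    exact ih F hF _ (Cls_cod f (F.comap (p.comp f)) (F.comap p) fun g hg => hg)
      (Cls_inj hf _ _ _)
  | union Q H hH h ih =>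
    intro G _ f hf
    classical
    refine HierL.union G (fun F => (H (F.image f)).comap f)
      (fun F g hg => hH _ _ (Finset.mem_image_of_mem f hg)) fun F => ?_
    exact ih (F.image f) _ (Cls_cod f ((H (F.image f)).comap f) (H (F.image f))
      fun g hg => hg) (Cls_inj hf _ _ _)
  | loc Q h ih =>
    intro G _ f hf
    refine HierL.loc G fun H hH hz => ?_
    exact ih (H.map f) (Cls_fg f hH) (Cls_hom f hz) _
      (Cls_cod f H (H.map f) fun g hg => Subgroup.mem_map_of_mem f hg) (Cls_inj hf _ _ _)

theorem hierL_of_injective {G Q : Type} [Group G] [Group Q] (f : G →* Q)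
    (hf : Function.Injective f) (h : HierL Q) : HierL G := by
  exact Cls_of_inj h G f hf

private theorem Cls_ker {G Q : Type} [Group G] [Group Q] {f : G →* Q} (hk : HierL f.ker)
    (A : Subgroup G) (B : Subgroup Q) (h : ∀ g ∈ A, f g ∈ B) :
    HierL (Cls_cod f A B h).ker := by
  refine hierL_of_injective ((A.subtype.comp (Cls_cod f A B h).ker.subtype).codRestrict f.ker
    fun g => ?_) ?_ hk
  · have h1 : Cls_cod f A B h g.1 = 1 := g.2
    exact congrArg Subtype.val h1
  · intro a b hab
    have h2 : a.1.1 = b.1.1 := congrArg (fun z : f.ker => (z : G)) hab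
    exact Subtype.ext (Subtype.ext h2)

private theorem Cls_ext {Q : Type} [Group Q] (h : HierL Q) :
    ∀ (G : Type) [Group G] (f : G →* Q), HierL f.ker → HierL G := by
  induction h with
  | triv Q =>
    intro G _ f hk
    refine hierL_of_injective ((MonoidHom.id G).codRestrict f.ker fun g => ?_) ?_ hk
    · exact Subsingleton.elim _ _
    · intro a b hab
      exact congrArg Subtype.val hab
  | tree Q V T hT hadj hinv h ih =>
    intro G _ f hk
    let _ : MulAction G V := MulAction.compHom V f
    refine HierL.tree G V T hT (fun g u v huv => hadj (f g) u v huv)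
      (fun g u v huv => hinv (f g) u v huv) fun v => ?_
    exact ih v _ (Cls_cod f (MulAction.stabilizer G v) (MulAction.stabilizer Q v)
      fun g hg => hg) (Cls_ker hk _ _ _)
  | ext Q A p hA h ih =>
    intro G _ f hk
    refine HierL.ext G A (p.comp f) hA fun F hF => ?_
    exact ih F hF _ (Cls_cod f (F.comap (p.comp f)) (F.comap p) fun g hg => hg)
      (Cls_ker hk _ _ _)
  | union Q H hH h ih =>
    intro G _ f hk
    classical
    refine HierL.union G (fun F => (H (F.image f)).comap f)
      (fun F g hg => hH _ _ (Finset.mem_image_of_mem f hg)) fun F => ?_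
    exact ih (F.image f) _ (Cls_cod f ((H (F.image f)).comap f) (H (F.image f))
      fun g hg => hg) (Cls_ker hk _ _ _)
  | loc Q h ih =>
    intro G _ f hk
    refine HierL.loc G fun H hH hz => ?_
    exact ih (H.map f) (Cls_fg f hH) (Cls_hom f hz) _
      (Cls_cod f H (H.map f) fun g hg => Subgroup.mem_map_of_mem f hg) (Cls_ker hk _ _ _)

theorem hierL_ext {G Q : Type} [Group G] [Group Q] (f : G →* Q) (hQ : HierL Q)
    (hk : HierL f.ker) : HierL G := by
  exact Cls_ext hQ G f hk

theorem hierL_of_li {G : Type} [Group G] (h : LI G) : HierL G := by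
  refine HierL.loc G fun H hH hz => ?_
  obtain rfl := h H hH hz
  exact HierL.triv _

theorem hierL_prod {G H : Type} [Group G] [Group H] (hG : HierL G) (hH : HierL H) :
    HierL (G × H) := by
  refine hierL_ext (MonoidHom.fst G H) hG ?_
  refine hierL_of_injective ((MonoidHom.snd G H).comp (MonoidHom.fst G H).ker.subtype) ?_ hH
  intro a b hab
  have ha : a.1.1 = 1 := a.2
  have hb : b.1.1 = 1 := b.2
  exact Subtype.ext (Prod.ext (ha.trans hb.symm) hab)

end Pool.Agent.Art
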