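import Pool.Agent.Art.Defs
import Pool.Agent.EH.HierDef

/-!
# Elementary amenable groups: subgroups, filtrations

PROOFS.
`ea_of_injective`: induction on `EA Q`, for all `G` and injective `f`. `fin`: `Finite.of_injective`.
`comm`: clear. `ext`: the subgroup `N.comap f` is normal, it embeds into `N`, and `G ⧸ N.comap f`
embeds into `Q ⧸ N` (`QuotientGroup.map`, injective by definition). `union`:
`H' F = (H (F.image f)).comap f` embeds into `H (F.image f)`.
`ea_quot`: induction on `m`. `m = 0`: finite. Step: let `N` be the image of `K m` in `G ⧸ K (m + 1)`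
(normal). `N` is commutative by `hc`. The quotient `(G ⧸ K (m + 1)) ⧸ N` is isomorphic to `G ⧸ K m`
(`QuotientGroup.quotientQuotientEquivQuotient`, or only an injective homomorphism to it and
`ea_of_injective`). Constructor `EA.ext`.
-/

set_option autoImplicit false

namespace Pool.Agent.Art

open Pool.Agent.EH

private theorem ea_inj_aux {Q : Type} [Group Q] (h : EA Q) :
    ∀ (G : Type) [Group G] (f : G →* Q), Function.Injective f → EA G := by
  classical
  induction h with
  | fin A =>
    intro G _ f hf
    have : Finite G := Finite.of_injective f hf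
    exact EA.fin G
  | comm A h =>
    intro G _ f hf
    exact EA.comm G fun a b => hf (by rw [map_mul, map_mul, h])
  | ext A N h h' ih ih' =>
    intro G _ f hf
    refine EA.ext G (N.comap f) (ih _ (f.subgroupComap N) ?_)
      (ih' _ (QuotientGroup.map (N.comap f) N f le_rfl) ?_)
    · intro x y hxy
      exact Subtype.ext (hf (congrArg Subtype.val hxy))
    · rw [injective_iff_map_eq_one]
      intro x hx
      induction x using QuotientGroup.induction_on with
      | H g =>
        rw [QuotientGroup.map_mk, QuotientGroup.eq_one_iff] at hx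
        exact (QuotientGroup.eq_one_iff g).2 hx
  | union A H hH h ih =>
    intro G _ f hf
    refine EA.union G (fun F => (H (F.image f)).comap f)
      (fun F g hg => hH _ _ (Finset.mem_image_of_mem f hg))
      fun F => ih _ _ (f.subgroupComap _) fun x y hxy => ?_
    exact Subtype.ext (hf (congrArg Subtype.val hxy))

theorem ea_of_injective {G Q : Type} [Group G] [Group Q] (f : G →* Q)
    (hf : Function.Injective f) (h : EA Q) : EA G :=
  ea_inj_aux h G f hf

theorem ea_quot {G : Type} [Group G] (K : ℕ → Subgroup G) [hn : ∀ k, (K k).Normal]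
    (h0 : Finite (G ⧸ K 0)) (hle : ∀ k, K (k + 1) ≤ K k)
    (hc : ∀ k, ∀ a ∈ K k, ∀ b ∈ K k, a * b * a⁻¹ * b⁻¹ ∈ K (k + 1)) (m : ℕ) :
    EA (G ⧸ K m) := by
  induction m with
  | zero => exact EA.fin _
  | succ m ih =>
    refine EA.ext _ ((K m).map (QuotientGroup.mk' (K (m + 1)))) ?_ ?_
    · refine EA.comm _ ?_
      rintro ⟨_, x, hx, rfl⟩ ⟨_, y, hy, rfl⟩
      refine Subtype.ext ?_
      have h1 := (QuotientGroup.eq_one_iff (N := K (m + 1)) _).2 (hc m x hx y hy)
      rw [QuotientGroup.mk_mul, QuotientGroup.mk_mul, QuotientGroup.mk_mul, QuotientGroup.mk_inv,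
        QuotientGroup.mk_inv, mul_inv_eq_one, mul_inv_eq_iff_eq_mul] at h1
      exact h1
    · exact ea_of_injective
        (QuotientGroup.quotientQuotientEquivQuotient (K (m + 1)) (K m) (hle m)).toMonoidHom
        (QuotientGroup.quotientQuotientEquivQuotient (K (m + 1)) (K m) (hle m)).injective ih

end Pool.Agent.Art
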