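import Pool.Agent.Art.Defs

/-!
# Locally indicable groups

PROOFS.
`exists_hom_of_fg`: `A` is a finitely generated torsion-free abelian group written multiplicatively,
`Additive A` is a free `ℤ`-module of finite rank (`Module.free_of_finite_type_torsion_free'` or
similar); if it is not trivial a coordinate of a basis is a nontrivial homomorphism.
`li_of_test`: let `H` be finitely generated without nontrivial homomorphisms to `ℤ` and `H ≠ ⊥`. Take
`f : H →* A` nontrivial, `A` commutative torsion-free. The image is finitely generated,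
torsion-free, not trivial: compose with `exists_hom_of_fg`.
`li_of_injective`: the image of a f.g. subgroup. `li_ext`: let `H` be f.g. without nontrivial
homomorphisms to `ℤ`; `H.map f` has the same property, so it is `⊥`, so `H ≤ f.ker`; as a subgroup of
`f.ker` (`H.subgroupOf f.ker`, isomorphic to `H`) it is trivial.
`li_int`: `Multiplicative ℤ` is commutative torsion-free: `li_of_test` with the inclusion.
`li_free`: a subgroup of a free group is free (`subgroupIsFreeOfIsFree`), `H ≃ FreeGroup X`; if `H` is
not trivial then `X` is nonempty (use `IsFreeGroup`), and `FreeGroup.lift (fun _ => ofAdd 1)` is not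
trivial.
`li_prod` by `li_ext`.
-/

set_option autoImplicit false

namespace Pool.Agent.Art

private theorem Li_torsionFree {A : Type} [CommGroup A]
    (htf : ∀ (a : A) (n : ℕ), n ≠ 0 → a ^ n = 1 → a = 1) : IsAddTorsionFree (Additive A) := by
  refine ⟨fun n hn x y hxy => ?_⟩
  have h1 : n • x = n • y := hxy
  have h2 : (x.toMul) ^ n = (y.toMul) ^ n := by
    have := congrArg Additive.toMul h1
    simpa using this
  have h3 : (x.toMul / y.toMul) ^ n = 1 := by
    rw [div_pow, h2, div_self']
  have h4 := htf _ n hn h3
  have h5 : x.toMul = y.toMul := div_eq_one.mp h4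
  exact Additive.toMul.injective h5

theorem exists_hom_of_fg {A : Type} [CommGroup A] [hA : Group.FG A]
    (htf : ∀ (a : A) (n : ℕ), n ≠ 0 → a ^ n = 1 → a = 1) {a : A} (ha : a ≠ 1) :
    ∃ f : A →* Multiplicative ℤ, f ≠ 1 := by
  have : IsAddTorsionFree (Additive A) := Li_torsionFree htf
  have : AddGroup.FG (Additive A) := by infer_instance
  have : Module.Finite ℤ (Additive A) := Module.Finite.iff_addGroup_fg.mpr inferInstance
  have : Module.Free ℤ (Additive A) := Module.free_of_finite_type_torsion_free'
  let b := Module.Free.chooseBasis ℤ (Additive A)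
  have hne : b.repr (Additive.ofMul a) ≠ 0 := by
    intro h
    have h0 : Additive.ofMul a = 0 := by
      simpa using h
    exact ha (by simpa using h0)
  obtain ⟨i, hi⟩ := Finsupp.ne_iff.mp hne
  refine ⟨MonoidHom.mk' (fun x => Multiplicative.ofAdd (b.repr (Additive.ofMul x) i)) ?_, ?_⟩
  · intro x y
    rw [ofMul_mul, map_add, Finsupp.add_apply, ofAdd_add]
  · intro h
    have h1 := DFunLike.congr_fun h a
    simp only [MonoidHom.mk'_apply, MonoidHom.one_apply] at h1
    apply hi
    have h2 : b.repr (Additive.ofMul a) i = 0 := by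
      simpa using h1
    simpa using h2

theorem li_of_test {G : Type} [Group G]
    (h : ∀ H : Subgroup G, H.FG → H ≠ ⊥ → ∃ (A : Type) (_ : CommGroup A) (f : H →* A),
      (∀ (a : A) (n : ℕ), n ≠ 0 → a ^ n = 1 → a = 1) ∧ f ≠ 1) : LI G := by
  intro H hH hno
  by_contra hne
  obtain ⟨A, _, f, htf, hf⟩ := h H hH hne
  have : Group.FG H := (Group.fg_iff_subgroup_fg H).2 hH
  have : Group.FG f.range := Group.fg_range f
  have hex : ∃ x : H, f x ≠ 1 := by
    by_contra hcon
    push Not at hcon
    exact hf (MonoidHom.ext hcon)
  obtain ⟨x, hx⟩ := hex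
  have htf' : ∀ (a : f.range) (n : ℕ), n ≠ 0 → a ^ n = 1 → a = 1 := by
    intro a n hn han
    apply Subtype.ext
    apply htf _ n hn
    have := congrArg Subtype.val han
    simpa using this
  have hx' : (f.rangeRestrict x) ≠ 1 := by
    intro h1
    exact hx (congrArg Subtype.val h1)
  obtain ⟨g, hg⟩ := exists_hom_of_fg htf' hx'
  apply hg
  have hz := hno (g.comp f.rangeRestrict)
  ext y
  obtain ⟨z, rfl⟩ := f.rangeRestrict_surjective y
  have := DFunLike.congr_fun hz z
  simpa using this

private theorem Li_map_eq_bot {G Q : Type} [Group G] [Group Q] (f : G →* Q) (h : LI Q)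
    (H : Subgroup G) (hH : H.FG) (hno : ∀ g : H →* Multiplicative ℤ, g = 1) :
    H.map f = ⊥ := by
  apply h
  · obtain ⟨S, hS⟩ := hH
    classical
    refine ⟨S.image f, ?_⟩
    rw [Finset.coe_image, ← MonoidHom.map_closure, hS]
  · intro g
    have hz := hno (g.comp (f.subgroupMap H))
    ext y
    obtain ⟨z, rfl⟩ := f.subgroupMap_surjective H y
    have := DFunLike.congr_fun hz z
    simpa using this

theorem li_of_injective {G Q : Type} [Group G] [Group Q] (f : G →* Q)
    (hf : Function.Injective f) (h : LI Q) : LI G := by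
  intro H hH hno
  exact (Subgroup.map_eq_bot_iff_of_injective H hf).mp (Li_map_eq_bot f h H hH hno)

theorem li_ext {G Q : Type} [Group G] [Group Q] (f : G →* Q) (hQ : LI Q)
    (hk : LI f.ker) : LI G := by
  intro H hH hno
  have h1 : H.map f = ⊥ := Li_map_eq_bot f hQ H hH hno
  have h2 : H ≤ f.ker := (Subgroup.map_eq_bot_iff H).mp h1
  have e := Subgroup.subgroupOfEquivOfLe h2
  have h3 : H.subgroupOf f.ker = ⊥ := by
    apply hk
    · rw [← Group.fg_iff_subgroup_fg]
      have : Group.FG H := (Group.fg_iff_subgroup_fg H).2 hH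
      exact Group.fg_of_surjective (f := e.symm.toMonoidHom) e.symm.surjective
    · intro g
      have hz := hno (g.comp e.symm.toMonoidHom)
      ext y
      have := DFunLike.congr_fun hz (e y)
      simpa using this
  rw [eq_bot_iff]
  intro x hx
  have h4 : (⟨x, h2 hx⟩ : f.ker) ∈ H.subgroupOf f.ker := by
    rw [Subgroup.mem_subgroupOf]
    exact hx
  rw [h3, Subgroup.mem_bot] at h4
  have := congrArg Subtype.val h4
  simpa using this

theorem li_int : LI (Multiplicative ℤ) := by
  apply li_of_test
  intro H _ hne
  refine ⟨Multiplicative ℤ, inferInstance, H.subtype, ?_, ?_⟩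
  · intro a n hn han
    have h1 : n • (Multiplicative.toAdd a) = 0 := by
      have := congrArg Multiplicative.toAdd han
      simpa using this
    have h2 : Multiplicative.toAdd a = 0 := by
      rcases smul_eq_zero.mp h1 with h | h
      · exact absurd h hn
      · exact h
    simpa using h2
  · intro h
    apply hne
    rw [eq_bot_iff]
    intro x hx
    have := DFunLike.congr_fun h (⟨x, hx⟩ : H)
    simpa using this

theorem li_free (α : Type) : LI (FreeGroup α) := by
  intro H _ hno
  have : IsFreeGroup H := subgroupIsFreeOfIsFree H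
  have hempty : IsEmpty (IsFreeGroup.Generators H) := by
    refine ⟨fun x => ?_⟩
    have h1 := hno (IsFreeGroup.lift (fun _ : IsFreeGroup.Generators H =>
      Multiplicative.ofAdd (1 : ℤ)))
    have h2 := DFunLike.congr_fun h1 (IsFreeGroup.of x)
    rw [IsFreeGroup.lift_of] at h2
    simp at h2
  have e := IsFreeGroup.toFreeGroup H
  rw [eq_bot_iff]
  intro x hx
  have h3 : e ⟨x, hx⟩ = 1 := by
    have : Unique (FreeGroup (IsFreeGroup.Generators H)) := inferInstance
    exact Subsingleton.elim _ _
  have h4 : (⟨x, hx⟩ : H) = 1 := by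
    apply e.injective
    rw [h3, map_one]
  have := congrArg Subtype.val h4
  simpa using this

end Pool.Agent.Art
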