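import Pool.Agent.Art.Defs
import Pool.Agent.HL.HierDef

/-!
# Groups with a torsion-free elementary amenable quotient

PROOF. Constructor `HierL.ext` for `QuotientGroup.mk' N`. A finite subgroup `F` of `G ⧸ N` is
trivial:
otherwise it contains an element of prime order `l` (`exists_prime_orderOf_dvd_card`), the class of
some `g` with `g ^ l ∈ N`, `g ∉ N`. So `F.comap (mk' N) = N` (as types: `F = ⊥`,
`Subgroup.comap_bot`/`MonoidHom.ker`, `QuotientGroup.ker_mk'`; transport `HierL` by rewriting).
-/

set_option autoImplicit false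

namespace Pool.Agent.Art

open Pool.Agent.HL Pool.Agent.EH

theorem hierL_of_tf {G : Type} [Group G] (N : Subgroup G) [N.Normal] (hEA : EA (G ⧸ N))
    (htf : ∀ (g : G) (l : ℕ), l.Prime → g ^ l ∈ N → g ∈ N) (hN : HierL N) : HierL G := by
  refine HierL.ext G (G ⧸ N) (QuotientGroup.mk' N) hEA fun F hF => ?_
  have hbot : F = ⊥ := by
    by_contra hne
    have hnt : Nontrivial F := (Subgroup.nontrivial_iff_ne_bot F).2 hne
    have hcard : Nat.card F ≠ 1 := Finite.one_lt_card.ne'
    obtain ⟨l, hl, hd⟩ := Nat.exists_prime_and_dvd hcard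
    have : Fact l.Prime := ⟨hl⟩
    obtain ⟨x, hx⟩ := exists_prime_orderOf_dvd_card' l hd
    obtain ⟨g, hg⟩ := QuotientGroup.mk'_surjective N (x : G ⧸ N)
    have h1 : (x : G ⧸ N) ^ l = 1 := by
      have h2 : x ^ l = 1 := by rw [← hx]; exact pow_orderOf_eq_one x
      have h3 := congrArg (Subtype.val : F → G ⧸ N) h2
      simpa using h3
    have h4 : g ^ l ∈ N := by
      rw [← QuotientGroup.eq_one_iff]
      have h5 : QuotientGroup.mk' N (g ^ l) = 1 := by rw [map_pow, hg, h1]
      exact h5
    have h6 := htf g l hl h4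
    have h7 : x = 1 := by
      apply Subtype.ext
      rw [← hg]
      exact (QuotientGroup.eq_one_iff g).2 h6
    rw [h7, orderOf_one] at hx
    exact hl.one_lt.ne hx
  subst hbot
  have h8 : (⊥ : Subgroup (G ⧸ N)).comap (QuotientGroup.mk' N) = N := by
    rw [MonoidHom.comap_bot, QuotientGroup.ker_mk']
  rw [h8]
  exact hN

end Pool.Agent.Art
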