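import Pool.Agent.Art.FrMain
import Pool.Agent.Art.Bur
import Pool.Agent.Art.Ea
import Pool.Agent.Art.Tf
import Pool.Agent.Art.Cls
import Pool.Agent.Art.Li

/-!
# The torsion-free elementary amenable quotient

PROOF (see /team-store/ARTIN.md 3.3 - 3.5). Let
`K k = {g | w g = 1 ∧ ∀ p ≤ n₀, ∀ d, ∀ m, (∀ x, act p g (d, x) = (d, m *ᵥ x)) → ∀ i j, X ^ (k + 1) ∣ (m - 1) i j}`
(by `act_trivial` a matrix `m` exists for every `d`, and it is unique as `m *ᵥ x` determines `m`).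
`K k` is a subgroup; it is normal: for `g ∈ K k` and `h` arbitrary, `h⁻¹ g h` acts on `(d, x)` as follows:
`h (d, x) = (d', n x)` with `n` invertible over `ℤ⟦X⟧` (`act_spec` for `h` and `h⁻¹`), so the matrix of
`h⁻¹ g h` at `d` is `n⁻¹ m' n` with `m'` the matrix of `g` at `d'`.
`K 0` is the kernel of `w` (`act_trivial`), the quotient is finite since the range of `w` is finite.
`hc`: `a = 1 + X ^ (k + 1) A`, `b = 1 + X ^ (k + 1) B'` have `a b ≡ b a` modulo `X ^ (2 k + 2)`,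
`2 k + 2 ≥ k + 2`, so the commutator is in `K (k + 1)`. `hle`: clear. So `G ⧸ K n₀` is elementary
amenable (`ea_quot`). TORSION: let `g ^ l ∈ K n₀`, `l` prime. If `w g = 1` then for every `d` the matrix `m`
of `g` satisfies `m ^ l ≡ 1` modulo `X ^ (n₀ + 1)` and `m ≡ 1` modulo `X` (`act_trivial`), so
`m ≡ 1` modulo `X ^ (n₀ + 1)` by `eq_one_of_pow`: `g ∈ K n₀`. If `w g ≠ 1`: `w g ^ l = 1`; take `d`, `σ`
from `Adapted`, `l ≤ n₀`, and `d'`, `π`, `m` from `act_spec`. `d' (π i) (π j) = w g (d i j) = d (σ i) (σ j)`;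
by `fr_rigid` (with the permutation `π σ⁻¹`) `π = σ`, `d' = d`. Then `g ^ l` acts on `(d, x)` by `m ^ l`, so
`m ^ l ≡ 1` modulo `X ^ (n₀ + 1)`, hence modulo `X ^ l`, contradiction to `pow_ne`.
`K n₀ ≤ ker w` is locally indicable (`li_of_injective`), so in the class (`hierL_of_li`), and
`hierL_of_tf` finishes the proof.
-/

set_option autoImplicit false

namespace Pool.Agent.Art

open Matrix Pool.Agent.HL

section aux

variable {ι : Type} [Fintype ι]

private theorem dvd_mul_l {r : PowerSeries ℤ} {A : Matrix ι ι (PowerSeries ℤ)}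
    (B : Matrix ι ι (PowerSeries ℤ)) (h : ∀ i j, r ∣ A i j) (i j : ι) : r ∣ (B * A) i j := by
  rw [Matrix.mul_apply]
  exact Finset.dvd_sum fun k _ => Dvd.dvd.mul_left (h k j) _

private theorem dvd_mul_r {r : PowerSeries ℤ} {A : Matrix ι ι (PowerSeries ℤ)}
    (B : Matrix ι ι (PowerSeries ℤ)) (h : ∀ i j, r ∣ A i j) (i j : ι) : r ∣ (A * B) i j := by
  rw [Matrix.mul_apply]
  exact Finset.dvd_sum fun k _ => Dvd.dvd.mul_right (h i k) _

private theorem dvd_mul_b {r q : PowerSeries ℤ} {A B : Matrix ι ι (PowerSeries ℤ)}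
    (hA : ∀ i j, r ∣ A i j) (hB : ∀ i j, q ∣ B i j) (i j : ι) : r * q ∣ (A * B) i j := by
  rw [Matrix.mul_apply]
  exact Finset.dvd_sum fun k _ => mul_dvd_mul (hA i k) (hB k j)

private theorem mulVec_ext [DecidableEq ι] {A B : Matrix ι ι (PowerSeries ℤ)}
    (h : ∀ x, A *ᵥ x = B *ᵥ x) : A = B := by
  ext1 i j
  have h1 := congrFun (h (Pi.single j 1)) i
  simpa using h1

end aux

namespace RD

variable {S P V : Type} [AddCommGroup V] (D : RD S P V) {M : CoxeterMatrix S}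

/-- The group element `g` acts on the frame `d` with label matrix `m`. -/
private def Lab (hM : D.Fits M) (p : ℕ) (g : Artin M) (d : D.Fr p)
    (m : Matrix (Fin p) (Fin p) (PowerSeries ℤ)) : Prop :=
  ∀ x, D.act hM p g (d, x) = (d, m *ᵥ x)

private theorem lab_unique {hM : D.Fits M} {p : ℕ} {g : Artin M} {d : D.Fr p}
    {m m' : Matrix (Fin p) (Fin p) (PowerSeries ℤ)} (h : D.Lab hM p g d m)
    (h' : D.Lab hM p g d m') : m = m' := by
  refine mulVec_ext fun x => ?_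
  have h1 := (h x).symm.trans (h' x)
  exact congrArg Prod.snd h1

private theorem lab_one (hM : D.Fits M) (p : ℕ) (d : D.Fr p) : D.Lab hM p 1 d 1 := by
  intro x
  rw [map_one, Equiv.Perm.one_apply, Matrix.one_mulVec]

private theorem lab_mul {hM : D.Fits M} {p : ℕ} {g g' : Artin M} {d : D.Fr p}
    {m m' : Matrix (Fin p) (Fin p) (PowerSeries ℤ)} (h : D.Lab hM p g d m)
    (h' : D.Lab hM p g' d m') : D.Lab hM p (g * g') d (m * m') := by
  intro x
  rw [map_mul, Equiv.Perm.mul_apply, h' x, h, Matrix.mulVec_mulVec]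

private theorem lab_pow {hM : D.Fits M} {p : ℕ} {g : Artin M} {d : D.Fr p}
    {m : Matrix (Fin p) (Fin p) (PowerSeries ℤ)} (h : D.Lab hM p g d m) (n : ℕ) :
    D.Lab hM p (g ^ n) d (m ^ n) := by
  induction n with
  | zero => rw [pow_zero, pow_zero]; exact D.lab_one hM p d
  | succ n ih => rw [pow_succ, pow_succ]; exact D.lab_mul ih h

/-- The filtration. -/
private def fil (hM : D.Fits M) (n₀ k : ℕ) : Subgroup (Artin M) where
  carrier := {g | D.w hM g = 1 ∧ ∀ p ≤ n₀, ∀ d : D.Fr p, ∃ m, D.Lab hM p g d m ∧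
    ∀ i j, PowerSeries.X ^ (k + 1) ∣ (m - 1) i j}
  one_mem' := ⟨map_one _, fun p _ d => ⟨1, D.lab_one hM p d, by simp⟩⟩
  mul_mem' := by
    rintro a b ⟨ha, ha'⟩ ⟨hb, hb'⟩
    refine ⟨by rw [map_mul, ha, hb, one_mul], fun p hp d => ?_⟩
    obtain ⟨m, h1, h2⟩ := ha' p hp d
    obtain ⟨m', h1', h2'⟩ := hb' p hp d
    refine ⟨m * m', D.lab_mul h1 h1', fun i j => ?_⟩
    have h3 : m * m' - 1 = m * (m' - 1) + (m - 1) := by
      rw [mul_sub, mul_one]; abel
    rw [h3, Matrix.add_apply]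
    exact dvd_add (dvd_mul_l m h2' i j) (h2 i j)
  inv_mem' := by
    rintro a ⟨ha, ha'⟩
    have hi : D.w hM a⁻¹ = 1 := by rw [map_inv, ha, inv_one]
    refine ⟨hi, fun p hp d => ?_⟩
    obtain ⟨m, h1, h2⟩ := ha' p hp d
    obtain ⟨m', h1', -⟩ := D.act_trivial hM p hi d
    have h4 : m' * m = 1 := by
      have h5 := D.lab_mul (hM := hM) (g := a⁻¹) (g' := a) h1' h1
      rw [inv_mul_cancel] at h5
      exact D.lab_unique h5 (D.lab_one hM p d)
    refine ⟨m', h1', fun i j => ?_⟩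
    have h3 : m' - 1 = -(m' * (m - 1)) := by
      rw [mul_sub, mul_one, h4]; abel
    rw [h3, Matrix.neg_apply, dvd_neg]
    exact dvd_mul_l m' h2 i j

private theorem mem_fil {hM : D.Fits M} {n₀ k : ℕ} {g : Artin M} :
    g ∈ D.fil hM n₀ k ↔ D.w hM g = 1 ∧ ∀ p ≤ n₀, ∀ d : D.Fr p, ∃ m, D.Lab hM p g d m ∧
      ∀ i j, PowerSeries.X ^ (k + 1) ∣ (m - 1) i j := Iff.rfl

private theorem fil_normal (hM : D.Fits M) (n₀ k : ℕ) : (D.fil hM n₀ k).Normal := by
  refine ⟨fun g hg h => ?_⟩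
  rw [mem_fil] at hg ⊢
  obtain ⟨hg, hg'⟩ := hg
  refine ⟨by rw [map_mul, map_mul, hg, mul_one, map_inv, mul_inv_cancel], fun p hp d => ?_⟩
  obtain ⟨d', -, n, hn, -⟩ := D.act_spec hM p h⁻¹ d
  obtain ⟨m, h1, h2⟩ := hg' p hp d'
  obtain ⟨d'', -, n', hn', -⟩ := D.act_spec hM p h d'
  have h3 : ∀ x, (d, x) = (d'', n' *ᵥ (n *ᵥ x)) := by
    intro x
    rw [← hn', ← hn, ← Equiv.Perm.mul_apply, ← map_mul, mul_inv_cancel, map_one,
      Equiv.Perm.one_apply]
  have h4 : d'' = d := (congrArg Prod.fst (h3 0)).symm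
  have h5 : n' * n = 1 := by
    refine mulVec_ext fun x => ?_
    rw [← Matrix.mulVec_mulVec, Matrix.one_mulVec]
    exact (congrArg Prod.snd (h3 x)).symm
  refine ⟨n' * m * n, fun x => ?_, fun i j => ?_⟩
  · rw [map_mul, map_mul, Equiv.Perm.mul_apply, Equiv.Perm.mul_apply, hn, h1, hn', h4,
      Matrix.mulVec_mulVec, Matrix.mulVec_mulVec]
  · have h6 : n' * m * n - 1 = n' * (m - 1) * n := by
      rw [mul_sub, sub_mul, mul_one, h5]
    rw [h6]
    exact dvd_mul_r n (dvd_mul_l n' h2) i j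

private theorem fil_le (hM : D.Fits M) (n₀ k : ℕ) : D.fil hM n₀ (k + 1) ≤ D.fil hM n₀ k := by
  intro g hg
  rw [mem_fil] at hg ⊢
  refine ⟨hg.1, fun p hp d => ?_⟩
  obtain ⟨m, h1, h2⟩ := hg.2 p hp d
  exact ⟨m, h1, fun i j => (pow_dvd_pow _ (by omega)).trans (h2 i j)⟩

private theorem fil_zero (hM : D.Fits M) (n₀ : ℕ) : D.fil hM n₀ 0 = (D.w hM).ker := by
  ext g
  rw [mem_fil, MonoidHom.mem_ker]
  refine ⟨fun h => h.1, fun h => ⟨h, fun p _ d => ?_⟩⟩
  obtain ⟨m, h1, h2⟩ := D.act_trivial hM p h d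
  exact ⟨m, h1, by simpa using h2⟩

private theorem fil_finite (hM : D.Fits M) (n₀ : ℕ) (hfin : Finite (D.w hM).range) :
    Finite (Artin M ⧸ D.fil hM n₀ 0) := by
  rw [fil_zero]
  exact Finite.of_equiv _ (QuotientGroup.quotientKerEquivRange (D.w hM)).symm.toEquiv

private theorem fil_comm (hM : D.Fits M) (n₀ k : ℕ) (a : Artin M) (ha : a ∈ D.fil hM n₀ k)
    (b : Artin M) (hb : b ∈ D.fil hM n₀ k) : a * b * a⁻¹ * b⁻¹ ∈ D.fil hM n₀ (k + 1) := by
  have ha' := (D.fil hM n₀ k).inv_mem ha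
  have hb' := (D.fil hM n₀ k).inv_mem hb
  rw [mem_fil] at ha hb ha' hb' ⊢
  refine ⟨by rw [map_mul, map_mul, map_mul, ha.1, hb.1, ha'.1, hb'.1]; simp, fun p hp d => ?_⟩
  obtain ⟨m, h1, h2⟩ := ha.2 p hp d
  obtain ⟨n, h3, h4⟩ := hb.2 p hp d
  obtain ⟨m', h5, -⟩ := ha'.2 p hp d
  obtain ⟨n', h6, -⟩ := hb'.2 p hp d
  refine ⟨m * n * m' * n', D.lab_mul (D.lab_mul (D.lab_mul h1 h3) h5) h6, fun i j => ?_⟩
  have e1 : m * m' = 1 := by
    have := D.lab_mul h1 h5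
    rw [mul_inv_cancel] at this
    exact D.lab_unique this (D.lab_one hM p d)
  have e2 : n * n' = 1 := by
    have := D.lab_mul h3 h6
    rw [mul_inv_cancel] at this
    exact D.lab_unique this (D.lab_one hM p d)
  have e3 : m * n * m' * n' - 1 =
      ((m - 1) * (n - 1) - (n - 1) * (m - 1)) * (m' * n') := by
    have e4 : n * m * (m' * n') = 1 := by
      rw [mul_assoc, ← mul_assoc m, e1, one_mul, e2]
    have e5 : (m - 1) * (n - 1) - (n - 1) * (m - 1) = m * n - n * m := by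
      noncomm_ring
    rw [e5, sub_mul, e4, mul_assoc (m * n)]
  rw [e3]
  refine dvd_mul_r _ (fun i j => ?_) i j
  have e6 : (PowerSeries.X : PowerSeries ℤ) ^ (k + 1 + 1) ∣
      PowerSeries.X ^ (k + 1) * PowerSeries.X ^ (k + 1) := by
    rw [← pow_add]
    exact pow_dvd_pow _ (by omega)
  rw [Matrix.sub_apply]
  exact dvd_sub (e6.trans (dvd_mul_b h2 h4 i j)) (e6.trans (dvd_mul_b h4 h2 i j))

private theorem fil_torsion (hM : D.Fits M) (n₀ : ℕ) (hC : D.Adapted hM n₀) (g : Artin M)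
    (l : ℕ) (hl : l.Prime) (hg : g ^ l ∈ D.fil hM n₀ n₀) : g ∈ D.fil hM n₀ n₀ := by
  rw [mem_fil] at hg ⊢
  by_cases hw : D.w hM g = 1
  · refine ⟨hw, fun p hp d => ?_⟩
    obtain ⟨m, h1, h2⟩ := D.act_trivial hM p hw d
    obtain ⟨m', h3, h4⟩ := hg.2 p hp d
    have h5 : m ^ l = m' := D.lab_unique (D.lab_pow h1 l) h3
    refine ⟨m, h1, fun i j => ?_⟩
    refine eq_one_of_pow h2 hl.ne_zero (k := n₀ + 1) ?_ i j
    rw [h5]
    exact h4
  · exfalso
    have hw' : D.w hM g ^ l = 1 := by rw [← map_pow]; exact hg.1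
    obtain ⟨hln, d, σ, hσ, hd⟩ := hC g l hl hw' hw
    obtain ⟨d', π, m, h1, h2, h3, h4, h5⟩ := D.act_spec hM l g d
    obtain ⟨h6, h7⟩ := D.fr_rigid d d' (π * σ⁻¹) (by
      intro i j
      rw [Equiv.Perm.mul_apply, Equiv.Perm.mul_apply, ← h2, hd]
      simp)
    have h8 : π = σ := by rw [← mul_inv_eq_one]; exact h6
    subst h8
    subst h7
    obtain ⟨m', h9, h10⟩ := hg.2 l hln d'
    have h11 : m ^ l = m' := D.lab_unique (D.lab_pow h1 l) h9
    refine pow_ne hl hσ h3 h4 h5 (fun i j => ?_)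
    rw [h11]
    exact (pow_dvd_pow _ (by omega)).trans (h10 i j)

theorem hierL_of_adapted (hM : D.Fits M) (hfin : Finite (D.w hM).range) (n₀ : ℕ)
    (hC : D.Adapted hM n₀) (hLI : LI (D.w hM).ker) : HierL (Artin M) := by
  have hn : ∀ k, (D.fil hM n₀ k).Normal := fun k => D.fil_normal hM n₀ k
  have hEA : Pool.Agent.EH.EA (Artin M ⧸ D.fil hM n₀ n₀) :=
    ea_quot (fun k => D.fil hM n₀ k) (D.fil_finite hM n₀ hfin) (fun k => D.fil_le hM n₀ k)
      (fun k => D.fil_comm hM n₀ k) n₀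
  have hle : D.fil hM n₀ n₀ ≤ (D.w hM).ker := by
    intro g hg
    rw [mem_fil] at hg
    exact (MonoidHom.mem_ker).2 hg.1
  have hLI' : LI (D.fil hM n₀ n₀) :=
    li_of_injective (Subgroup.inclusion hle) (Subgroup.inclusion_injective hle) hLI
  exact hierL_of_tf (D.fil hM n₀ n₀) hEA (fun g l hl hg => D.fil_torsion hM n₀ hC g l hl hg)
    (hierL_of_li hLI')

end RD

end Pool.Agent.Art
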