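import Pool.Agent.Art.Li

/-!
# Congruence subgroups are locally indicable

PROOF. `li_of_test`. Let `H` be a nontrivial (f.g.) subgroup of `G`, `f` injective, `f g ≡ 1` modulo `X`.
Some `f h - 1`, `h ∈ H`, is not zero, so there is a largest `k ≥ 1` such that `X ^ k` divides all entries
of all `f h - 1`, `h ∈ H` (some coefficient of some entry is nonzero: `Nat.find`). Then
`h ↦` the matrix of the coefficients of `X ^ k` of `f h - 1` is a homomorphism to the additive group
of integral matrices: `f (h h') - 1 = (f h - 1) + (f h' - 1) + (f h - 1)(f h' - 1)` and the last term is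
divisible by `X ^ (2 k)`, `2 k > k`. It is not trivial, and `Multiplicative (Matrix P P ℤ)` is
torsion-free.
-/

set_option autoImplicit false

namespace Pool.Agent.Art

open Matrix

theorem li_cong {G P : Type} [Group G] [Fintype P] [DecidableEq P]
    (f : G →* (Matrix P P (PowerSeries ℤ))ˣ) (hf : Function.Injective f)
    (h : ∀ g c b, PowerSeries.X ∣ ((f g : Matrix P P (PowerSeries ℤ)) - 1) c b) : LI G := by
  classical
  apply li_of_test
  intro H _ hne
  let Q : ℕ → Prop := fun n => ∀ g ∈ H, ∀ c b,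
    PowerSeries.X ^ n ∣ ((f g : Matrix P P (PowerSeries ℤ)) - 1) c b
  have hQ1 : Q 1 := fun g _ c b => by
    rw [pow_one]
    exact h g c b
  have hex : ∃ n, ¬ Q n := by
    obtain ⟨g', hg1'⟩ := (Subgroup.ne_bot_iff_exists_ne_one).1 hne
    obtain ⟨g, hg⟩ := g'
    have hg1 : g ≠ 1 := fun h1 => hg1' (Subtype.ext h1)
    have h1 : ((f g : Matrix P P (PowerSeries ℤ)) - 1) ≠ 0 := by
      intro h0
      apply hg1
      apply hf
      rw [map_one]
      exact Units.ext (sub_eq_zero.1 h0)
    have h2 : ∃ c b, ((f g : Matrix P P (PowerSeries ℤ)) - 1) c b ≠ 0 := by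
      by_contra hcon
      push Not at hcon
      exact h1 (Matrix.ext hcon)
    obtain ⟨c, b, hcb⟩ := h2
    have h3 : ∃ m, PowerSeries.coeff m (((f g : Matrix P P (PowerSeries ℤ)) - 1) c b) ≠ 0 := by
      by_contra hcon
      push Not at hcon
      exact hcb (PowerSeries.ext fun m => by rw [hcon m, map_zero])
    obtain ⟨m, hm⟩ := h3
    refine ⟨m + 1, fun hq => hm ?_⟩
    exact (PowerSeries.X_pow_dvd_iff.1 (hq g hg c b)) m (Nat.lt_succ_self m)
  obtain ⟨k, hk1, hk, hk'⟩ : ∃ k, 1 ≤ k ∧ Q k ∧ ¬ Q (k + 1) := by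
    have h0 := Nat.find_spec hex
    have h1 : Nat.find hex ≠ 0 := by
      intro h2
      rw [h2] at h0
      exact h0 fun g _ c b => by
        rw [pow_zero]
        exact one_dvd _
    obtain ⟨n, hn⟩ := Nat.exists_eq_succ_of_ne_zero h1
    have h2 : Q n := by
      by_contra hcon
      have h3 := Nat.find_min' hex hcon
      omega
    refine ⟨n, ?_, h2, ?_⟩
    · rcases Nat.eq_zero_or_pos n with h3 | h3
      · exfalso
        rw [hn, h3] at h0
        exact h0 hQ1
      · exact h3
    · rw [hn] at h0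
      exact h0
  have hprod : ∀ g ∈ H, ∀ g' ∈ H, ∀ c b, PowerSeries.coeff k
      ((((f g : Matrix P P (PowerSeries ℤ)) - 1) * ((f g' : Matrix P P (PowerSeries ℤ)) - 1)) c b)
        = 0 := by
    intro g hg g' hg' c b
    rw [Matrix.mul_apply, map_sum]
    refine Finset.sum_eq_zero fun j _ => ?_
    have h1 := mul_dvd_mul (hk g hg c j) (hk g' hg' j b)
    rw [← pow_add] at h1
    exact (PowerSeries.X_pow_dvd_iff.1 h1) k (by omega)
  let φ : H →* Multiplicative (Matrix P P ℤ) := MonoidHom.mk'
    (fun g => Multiplicative.ofAdd (Matrix.of fun c b =>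
      PowerSeries.coeff k (((f g : Matrix P P (PowerSeries ℤ)) - 1) c b))) (by
    intro g g'
    rw [← ofAdd_add]
    congr 1
    ext c b
    have h1 : ((f ((g * g' : H) : G) : Matrix P P (PowerSeries ℤ)) - 1) =
        ((f g : Matrix P P (PowerSeries ℤ)) - 1) + ((f g' : Matrix P P (PowerSeries ℤ)) - 1) +
        ((f g : Matrix P P (PowerSeries ℤ)) - 1) * ((f g' : Matrix P P (PowerSeries ℤ)) - 1) := by
      rw [Subgroup.coe_mul, map_mul, Units.val_mul]
      noncomm_ring
    simp only [Matrix.of_apply, Matrix.add_apply]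
    rw [h1, Matrix.add_apply, Matrix.add_apply, map_add, map_add, hprod g g.2 g' g'.2, add_zero])
  refine ⟨Multiplicative (Matrix P P ℤ), inferInstance, φ, ?_, ?_⟩
  · intro a n hn ha
    have h1 : n • a.toAdd = 0 := by
      have h2 := congrArg Multiplicative.toAdd ha
      rwa [toAdd_pow, toAdd_one] at h2
    have h3 : a.toAdd = 0 := by
      ext c b
      have h4 := congrFun (congrFun h1 c) b
      rw [Matrix.smul_apply, nsmul_eq_mul] at h4
      rcases mul_eq_zero.1 h4 with h5 | h5
      · exact absurd (Nat.cast_eq_zero.1 h5) hn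
      · exact h5
    exact Multiplicative.toAdd.injective h3
  · intro h1
    apply hk'
    intro g hg c b
    rw [PowerSeries.X_pow_dvd_iff]
    intro m hm
    rcases Nat.lt_succ_iff_lt_or_eq.1 hm with h2 | h2
    · exact (PowerSeries.X_pow_dvd_iff.1 (hk g hg c b)) m h2
    · have h3 := DFunLike.congr_fun h1 (⟨g, hg⟩ : H)
      have h4 := congrArg Multiplicative.toAdd h3
      have h5 := congrFun (congrFun h4 c) b
      rw [h2]
      exact h5

end Pool.Agent.Art
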