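import Pool.Agent.Art.Inj
import Pool.Agent.Art.LiMat
import Pool.Agent.Art.FrFin

/-!
# Root data with Lawrence-Krammer-Paris functionals: the Artin group is in the class

`li_pure`: `li_cong` for the restriction of `K.rep` to the kernel of `D.w hM` (`rep_pure`,
`rep_injective`). `hierL_of_data`: `hierL_of_adapted`.
-/

set_option autoImplicit false

namespace Pool.Agent.Art

open Matrix Pool.Agent.HL

variable {S P V : Type} [AddCommGroup V] [DecidableEq P] [Fintype P] [DecidableEq S]
  {D : RD S P V} {M : CoxeterMatrix S}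

theorem LK.li_pure (K : LK D M) (hM : D.Fits M) : LI (D.w hM).ker := by
  refine li_cong ((K.rep hM).comp (D.w hM).ker.subtype) ?_ ?_
  · exact (K.rep_injective hM).comp (Subgroup.subtype_injective _)
  · intro g c b
    exact K.rep_pure hM (MonoidHom.mem_ker.mp g.2) c b

theorem LK.hierL_of_data (K : LK D M) (hM : D.Fits M) (hfin : Finite (D.w hM).range)
    (n₀ : ℕ) (hC : D.Adapted hM n₀) : HierL (Artin M) :=
  D.hierL_of_adapted hM hfin n₀ hC (K.li_pure hM)

end Pool.Agent.Art
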