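import Pool.Agent.Art.AnLK
import Pool.Agent.Art.LiPure

/-!
# The Artin groups of type `A n` are in the class
-/

set_option autoImplicit false

namespace Pool.Agent.Art

open Matrix Pool.Agent.HL

/-- Permutations of the coordinates. -/
def anW (n : ℕ) : Equiv.Perm (Fin (n + 1)) →* (AnV n ≃ₗ[ℤ] AnV n) where
  toFun σ := LinearEquiv.funCongrLeft ℤ ℤ σ⁻¹
  map_one' := by
    ext x k
    rfl
  map_mul' σ τ := by
    apply LinearEquiv.ext
    intro x
    funext k
    change x ((σ * τ)⁻¹ k) = x (τ⁻¹ (σ⁻¹ k))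
    rw [_root_.mul_inv_rev]
    rfl

theorem anW_apply (n : ℕ) (σ : Equiv.Perm (Fin (n + 1))) (x : AnV n) (k : Fin (n + 1)) :
    anW n σ x k = x (σ⁻¹ k) := rfl

theorem anW_E (n : ℕ) (σ : Equiv.Perm (Fin (n + 1))) (i j : Fin (n + 1)) :
    anW n σ (anE n i j) = anE n (σ i) (σ j) := by
  funext k
  rw [anW_apply]
  simp only [anE, Pi.sub_apply, Pi.single_apply, Equiv.Perm.inv_eq_iff_eq]

theorem anW_inj (n : ℕ) : Function.Injective (anW n) := by
  rw [injective_iff_map_eq_one]
  intro σ h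
  apply Equiv.ext
  intro i
  have h1 := congrFun (LinearEquiv.congr_fun h (Pi.single (σ i) 1)) (σ i)
  rw [anW_apply] at h1
  have h2 : (1 : AnV n ≃ₗ[ℤ] AnV n) (Pi.single (σ i) 1) = Pi.single (σ i) 1 := rfl
  have h0 : σ⁻¹ (σ i) = i := σ.symm_apply_apply i
  rw [h2, Pi.single_eq_same, h0, Pi.single_apply] at h1
  by_contra h3
  rw [if_neg (fun h4 => h3 h4.symm)] at h1
  norm_num at h1

theorem an_rho (n : ℕ) (s : Fin n) : (anD n).rho s = anW n (anT n s) := by
  apply LinearEquiv.ext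
  intro x
  funext k
  rw [anW_apply, RD.rho_apply]
  change x k - (anB n x (anE n s.castSucc s.succ)) • (anE n s.castSucc s.succ) k = _
  rw [anB_apply, anE, dotProduct_sub]
  simp only [dotProduct_single_one, Pi.sub_apply, Pi.single_apply, smul_eq_mul]
  have h1 : (anT n s)⁻¹ = anT n s := Equiv.swap_inv _ _
  rw [h1, anT, Equiv.swap_apply_def]
  have h2 : s.castSucc ≠ s.succ := ne_of_lt Fin.castSucc_lt_succ
  by_cases c1 : k = s.castSucc
  · subst c1
    rw [if_pos rfl, if_neg h2, if_pos rfl]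
    ring
  · by_cases c2 : k = s.succ
    · subst c2
      rw [if_pos rfl, if_neg h2.symm, if_neg h2.symm, if_pos rfl]
      ring
    · rw [if_neg c1, if_neg c2, if_neg c1, if_neg c2]
      ring

theorem an_exists (n : ℕ) (g : Artin (tA n)) :
    ∃ σ : Equiv.Perm (Fin (n + 1)), (anD n).w (anD_fits n) g = anW n σ := by
  refine artin_induction (P := fun g => ∃ σ : Equiv.Perm (Fin (n + 1)),
    (anD n).w (anD_fits n) g = anW n σ) g ?_ ?_ ?_
  · exact ⟨1, by rw [map_one, map_one]⟩
  · rintro s x ⟨σ, h⟩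
    exact ⟨σ * anT n s, by rw [map_mul, map_mul, h, RD.w_gen, an_rho]⟩
  · rintro s x ⟨σ, h⟩
    exact ⟨σ * (anT n s)⁻¹, by rw [map_mul, map_mul, h, map_inv, map_inv, RD.w_gen, an_rho]⟩

theorem an_finite (n : ℕ) : Finite ((anD n).w (anD_fits n)).range := by
  have h1 : ((anD n).w (anD_fits n)).range ≤ (anW n).range := by
    rintro _ ⟨g, rfl⟩
    obtain ⟨σ, h⟩ := an_exists n g
    exact ⟨σ, h.symm⟩
  have h2 : Finite (anW n).range := Finite.of_surjective _ (anW n).rangeRestrict_surjective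
  exact Finite.of_injective _ (Subgroup.inclusion_injective h1)

theorem an_adapted (n : ℕ) : (anD n).Adapted (anD_fits n) (n + 1) := by
  classical
  intro g l hl hgl hg1
  obtain ⟨σ, hσ⟩ := an_exists n g
  rw [hσ] at hgl hg1
  have h1 : σ ^ l = 1 := by
    apply anW_inj
    rw [map_pow, hgl, map_one]
  have h2 : σ ≠ 1 := by
    rintro rfl
    exact hg1 (map_one _)
  obtain ⟨i0, hi0⟩ : ∃ i, σ i ≠ i := by
    by_contra h
    push Not at h
    exact h2 (Equiv.ext h)
  have hper : Function.IsPeriodicPt σ l i0 := by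
    rw [Function.IsPeriodicPt, Function.IsFixedPt, Equiv.Perm.iterate_eq_pow, h1]
    rfl
  have : Fact l.Prime := ⟨hl⟩
  have hmin : Function.minimalPeriod σ i0 = l := Function.minimalPeriod_eq_prime hper hi0
  have hinj : Function.Injective (fun k : Fin l => (σ ^ (k : ℕ)) i0) := by
    intro a b hab
    have h3 := Function.iterate_injOn_Iio_minimalPeriod (f := σ) (x := i0)
    apply Fin.ext
    refine h3 ?_ ?_ ?_
    · rw [Set.mem_Iio, hmin]; exact a.2
    · rw [Set.mem_Iio, hmin]; exact b.2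
    · simp only [Equiv.Perm.iterate_eq_pow]
      exact hab
  have hmul : ∀ m : ℕ, σ ^ (l * m) = 1 := fun m => by rw [pow_mul, h1, one_pow]
  let O : Finset (Fin (n + 1)) := Finset.univ.image (fun k : Fin l => (σ ^ (k : ℕ)) i0)
  have hcard : O.card = l := by
    rw [Finset.card_image_of_injective _ hinj, Finset.card_univ, Fintype.card_fin]
  have hO : ∀ x, x ∈ O ↔ ∃ k : ℕ, (σ ^ k) i0 = x := by
    intro x
    simp only [O, Finset.mem_image, Finset.mem_univ, true_and]
    constructor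
    · rintro ⟨k, hk⟩
      exact ⟨k, hk⟩
    · rintro ⟨k, hk⟩
      refine ⟨⟨k % l, Nat.mod_lt _ hl.pos⟩, ?_⟩
      rw [← hk]
      conv_rhs => rw [← Nat.mod_add_div k l, pow_add, hmul, mul_one]
  have hstab : ∀ x, σ x ∈ O ↔ x ∈ O := by
    intro x
    rw [hO, hO]
    constructor
    · rintro ⟨k, hk⟩
      refine ⟨(l - 1) + k, ?_⟩
      rw [pow_add, Equiv.Perm.mul_apply, hk, ← Equiv.Perm.mul_apply, ← pow_succ,
        Nat.sub_add_cancel hl.one_lt.le, h1]
      rfl
    · rintro ⟨k, hk⟩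
      refine ⟨k + 1, ?_⟩
      rw [pow_succ', Equiv.Perm.mul_apply, hk]
  let e : Fin l ≃o O := O.orderIsoOfFin hcard
  let τ : Equiv.Perm O := σ.subtypePerm hstab
  let π : Equiv.Perm (Fin l) := (e.toEquiv.trans τ).trans e.toEquiv.symm
  have hπ : ∀ i, ((e (π i) : O) : Fin (n + 1)) = σ (e i) := by
    intro i
    have h3 : e (π i) = τ (e i) := e.toEquiv.apply_symm_apply _
    rw [h3]
    rfl
  have hπk : ∀ (k : ℕ) (i : Fin l), ((e ((π ^ k) i) : O) : Fin (n + 1)) = (σ ^ k) (e i) := by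
    intro k
    induction k with
    | zero => intro i; rfl
    | succ k ih =>
      intro i
      rw [pow_succ', Equiv.Perm.mul_apply, hπ, ih, pow_succ', Equiv.Perm.mul_apply]
  refine ⟨?_, ⟨fun i j => anE n (e i) (e j), ?_, ?_⟩, π, ?_, ?_⟩
  · rw [← hcard]
    exact (Finset.card_le_univ O).trans (by rw [Fintype.card_fin])
  · intro i j k
    simp only [anE]
    abel
  · intro i j hij
    have h3 : (e i : Fin (n + 1)) < e j := e.strictMono hij
    exact ⟨⟨((e i : Fin (n + 1)), (e j : Fin (n + 1))), h3⟩, rfl⟩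
  · intro i j
    obtain ⟨a, ha⟩ := (hO _).1 (e i).2
    obtain ⟨b, hb⟩ := (hO _).1 (e j).2
    refine ⟨b + (l - 1) * a, ?_⟩
    apply e.injective
    apply Subtype.ext
    rw [hπk, ← ha, ← hb, ← Equiv.Perm.mul_apply, ← pow_add]
    have h4 : b + (l - 1) * a + a = b + l * a := by
      obtain ⟨m, hm⟩ : ∃ m, l = m + 1 := ⟨l - 1, (Nat.sub_add_cancel hl.one_lt.le).symm⟩
      rw [hm]
      simp only [Nat.add_sub_cancel]
      ring
    rw [h4, pow_add, hmul, mul_one]
  · intro i j
    rw [hσ, anW_E]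
    change anE n (σ (e i)) (σ (e j)) = anE n (e (π i)) (e (π j))
    rw [hπ, hπ]

/-- The Artin groups of type `A n` (braid groups) are in the class. -/
theorem hierL_tA (n : ℕ) : HierL (Artin (tA n)) :=
  (anK n).hierL_of_data (anD_fits n) (an_finite n) (n + 1) (an_adapted n)

end Pool.Agent.Art
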