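import Pool.Agent.Art.FH
import Pool.Agent.Art.AnC

/-!
# Artin groups of FC type belong to the class `HierL`
-/

set_option autoImplicit false

namespace Pool.Agent.Art

open Pool.Agent.HL

/-- The main theorem. -/
theorem hierL_artin {B : Type} {M : CoxeterMatrix B} (h : FC M) : HierL (Artin M) :=
  E8.hierL_of_FC hierL_tA h

/-- The same for the spherical types. -/
theorem hierL_artin_sph {B : Type} {M : CoxeterMatrix B} (h : Sph B M) : HierL (Artin M) :=
  hierL_sph (hierL_irr hierL_tA E8.hierL_E8 E8.hierL_F4 E8.hierL_H4) h

end Pool.Agent.Art
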