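import Pool.Agent.Art.AffB
import Pool.Agent.Art.Main

/-!
# Artin groups with spherical and affine pieces
-/

set_option autoImplicit false

namespace Pool.Agent.Art

open Pool.Agent.HL

/-- Disjoint unions of spherical Coxeter matrices and of the affine types
`A~ (n - 1)` (`tAa n`, `3 ≤ n`), `B~ (n - 1)` (`tBa n`, `4 ≤ n`), `C~ (n - 1)` (`tCa n`, `3 ≤ n`);
the argument `n` is the number of nodes. -/
inductive Euc : (B : Type) → CoxeterMatrix B → Prop
  | sph (B : Type) (M : CoxeterMatrix B) (h : Sph B M) : Euc B M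
  | affA (B : Type) (M : CoxeterMatrix B) (n : ℕ) (hn : 3 ≤ n) (e : Fin n ≃ B)
      (h : ∀ i j, M (e i) (e j) = tAa n i j) : Euc B M
  | affB (B : Type) (M : CoxeterMatrix B) (n : ℕ) (hn : 4 ≤ n) (e : Fin n ≃ B)
      (h : ∀ i j, M (e i) (e j) = tBa n i j) : Euc B M
  | affC (B : Type) (M : CoxeterMatrix B) (n : ℕ) (hn : 3 ≤ n) (e : Fin n ≃ B)
      (h : ∀ i j, M (e i) (e j) = tCa n i j) : Euc B M
  | sum (B : Type) (M : CoxeterMatrix B) (T : Set B) (h : ∀ i ∈ T, ∀ j ∉ T, M i j = 2)
      (h1 : Euc T (rst M T)) (h2 : Euc (Tᶜ : Set B) (rst M Tᶜ)) : Euc B M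

theorem hierL_euc {B : Type} {M : CoxeterMatrix B} (h : Euc B M) : HierL (Artin M) := by
  have key : ∀ {B : Type} {M : CoxeterMatrix B} {n : ℕ} {N : CoxeterMatrix (Fin n)}
      (e : Fin n ≃ B), (∀ i j, M (e i) (e j) = N i j) → HierL (Artin N) → HierL (Artin M) := by
    intro B M n N e h hN
    refine hierL_of_emb M N e.symm e.symm.injective (fun i j => ?_) hN
    rw [← h, e.apply_symm_apply, e.apply_symm_apply]
  induction h with
  | sph B M h => exact hierL_artin_sph h
  | affA B M n hn e h => exact key e h (hierL_tAa hierL_tA n hn)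
  | affB B M n hn e h => exact key e h (hierL_tBa hierL_tA n hn)
  | affC B M n hn e h => exact key e h (hierL_tCa hierL_tA n hn)
  | sum B M T h _ _ ih1 ih2 => exact hierL_sum M T h ih1 ih2

/-- Every finite set of nodes without label infinity is a disjoint union of spherical and of affine
pieces of the types `A~`, `B~`, `C~`. -/
def FCE {B : Type} (M : CoxeterMatrix B) : Prop :=
  ∀ T : Set B, T.Finite → (∀ i ∈ T, ∀ j ∈ T, M i j ≠ 0) → Euc T (rst M T)

theorem FC.fce {B : Type} {M : CoxeterMatrix B} (h : FC M) : FCE M :=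
  fun T hT hT' => Euc.sph _ _ (h T hT hT')

theorem hierL_fce {B : Type} {M : CoxeterMatrix B} (h : FCE M) : HierL (Artin M) :=
  hierL_of_pieces M fun X hX hX' => hierL_euc (h X hX hX')

end Pool.Agent.Art
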