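import Pool.Agent.Art.SDS

/-!
# Affine type `A`: `A(A~ (n - 1))` embeds into `A(B n)`
-/

set_option autoImplicit false

namespace Pool.Agent.Art

open Pool.Agent.HL

section grp

variable {G : Type*} [Group G]

/-- a chain of `n` braid generators -/
structure Ch (n : ℕ) (s : ℕ → G) : Prop where
  comm : ∀ i j, i + 1 < j → j < n → Commute (s i) (s j)
  braid : ∀ i, i + 1 < n → s i * s (i + 1) * s i = s (i + 1) * s i * s (i + 1)

/-- the product of the first `k` elements -/
def PP (s : ℕ → G) : ℕ → G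
  | 0 => 1
  | k + 1 => PP s k * s k

variable {n N : ℕ} {s : ℕ → G} {t d : G}

theorem PP_comm (h : Ch n s) : ∀ k j, k < j → j < n → Commute (PP s k) (s j) := by
  intro k
  induction k with
  | zero => intro j _ _; exact Commute.one_left _
  | succ k ih => intro j h1 h2; exact (ih j (by omega) h2).mul_left (h.comm k j h1 h2)

theorem PP_mul (h : Ch n s) :
    ∀ k i, i + 1 < k → k ≤ n → PP s k * s i = s (i + 1) * PP s k := by
  intro k
  induction k with
  | zero => intro i h1; omega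
  | succ k ih =>
    intro i h1 h2
    rcases Nat.lt_or_ge (i + 1) k with h3 | h3
    · have h4 := (h.comm i k h3 (by omega)).eq
      have h5 := ih i h3 (by omega)
      calc PP s k * s k * s i = PP s k * (s k * s i) := by group
        _ = PP s k * (s i * s k) := by rw [h4]
        _ = PP s k * s i * s k := by group
        _ = s (i + 1) * PP s k * s k := by rw [h5]
        _ = s (i + 1) * (PP s k * s k) := by group
    · obtain rfl : k = i + 1 := by omega
      have h4 := h.braid i (by omega)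
      have h5 := (PP_comm h i (i + 1) (Nat.lt_succ_self i) (by omega)).eq
      calc PP s i * s i * s (i + 1) * s i = PP s i * (s i * s (i + 1) * s i) := by group
        _ = PP s i * (s (i + 1) * s i * s (i + 1)) := by rw [h4]
        _ = PP s i * s (i + 1) * (s i * s (i + 1)) := by group
        _ = s (i + 1) * PP s i * (s i * s (i + 1)) := by rw [h5]
        _ = s (i + 1) * (PP s i * s i * s (i + 1)) := by group

theorem PP_shift (s : ℕ → G) (k : ℕ) : PP s (k + 1) = s 0 * PP (fun i => s (i + 1)) k := by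
  induction k with
  | zero => simp [PP]
  | succ k ih => rw [PP, ih, PP, mul_assoc]

theorem PP_mul_PP (h : Ch (N + 1) s) (k : ℕ) (hk : k ≤ N) :
    PP s (N + 1) * PP s k = PP (fun i => s (i + 1)) k * PP s (N + 1) := by
  induction k with
  | zero => simp [PP]
  | succ k ih =>
    have h1 := ih (by omega)
    have h2 := PP_mul h (N + 1) k (by omega) le_rfl
    calc PP s (N + 1) * (PP s k * s k) = PP s (N + 1) * PP s k * s k := by group
      _ = PP (fun i => s (i + 1)) k * (PP s (N + 1) * s k) := by rw [h1, mul_assoc]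
      _ = PP (fun i => s (i + 1)) k * s (k + 1) * PP s (N + 1) := by rw [h2, mul_assoc]

theorem PP_sq (h : Ch (N + 1) s) :
    PP s (N + 1) * PP s (N + 1) = PP (fun i => s (i + 1)) N * PP s (N + 1) * s N := by
  have h1 := PP_mul_PP h N le_rfl
  calc PP s (N + 1) * PP s (N + 1) = PP s (N + 1) * PP s N * s N := by
        conv_lhs => rw [PP, ← mul_assoc, ← PP]
    _ = _ := by rw [h1]

theorem PP_comm_of {u : G} (k : ℕ) (h : ∀ i < k, Commute u (s i)) : Commute u (PP s k) := by
  induction k with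
  | zero => exact Commute.one_right _
  | succ k ih => exact (ih fun i hi => h i (by omega)).mul_right (h k (by omega))

/-- The second power of the rotation. -/
theorem dl_two (h : Ch (N + 1) s) (ht : ∀ i, 1 ≤ i → i ≤ N → Commute t (s i))
    (h4 : t * s 0 * t * s 0 = s 0 * t * s 0 * t) (hd : d = t * PP s (N + 1)) :
    s 0 * (d * d) = d * d * s N := by
  have hW : Commute t (PP (fun i => s (i + 1)) N) :=
    PP_comm_of N fun i hi => ht (i + 1) (by omega) (by omega)
  have hs := PP_sq h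
  have hP := PP_shift s N
  obtain ⟨W, hWd⟩ : ∃ W, W = PP (fun i => s (i + 1)) N := ⟨_, rfl⟩
  rw [← hWd] at hW hs hP
  have e1 : d = t * s 0 * W := by rw [hd, hP, mul_assoc]
  rw [hP] at hs
  symm
  calc d * d * s N = t * s 0 * (W * t) * (s 0 * W) * s N := by rw [e1]; group
    _ = t * s 0 * (t * W) * (s 0 * W) * s N := by rw [hW.eq]
    _ = t * s 0 * t * (W * (s 0 * W) * s N) := by group
    _ = t * s 0 * t * (s 0 * W * (s 0 * W)) := by rw [hs]
    _ = (t * s 0 * t * s 0) * W * (s 0 * W) := by group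
    _ = (s 0 * t * s 0 * t) * W * (s 0 * W) := by rw [h4]
    _ = s 0 * t * s 0 * (t * W) * (s 0 * W) := by group
    _ = s 0 * t * s 0 * (W * t) * (s 0 * W) := by rw [hW.eq]
    _ = s 0 * (d * d) := by rw [e1]; group

theorem dl_one (h : Ch (N + 1) s) (ht : ∀ i, 1 ≤ i → i ≤ N → Commute t (s i))
    (hd : d = t * PP s (N + 1)) (i : ℕ) (hi : i < N) : d * s i = s (i + 1) * d := by
  rw [hd, mul_assoc, PP_mul h (N + 1) i (by omega) le_rfl, ← mul_assoc,
    (ht (i + 1) (by omega) (by omega)).eq, mul_assoc]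

/-- The relations of `t` from the relations of the rotation. -/
theorem comm_of_dl (h : Ch (N + 1) s) (h1 : ∀ i < N, d * s i = s (i + 1) * d)
    (ht : t = d * (PP s (N + 1))⁻¹) (i : ℕ) (hi : 1 ≤ i) (hi' : i ≤ N) : Commute t (s i) := by
  obtain ⟨i, rfl⟩ : ∃ j, i = j + 1 := ⟨i - 1, by omega⟩
  have h2 := PP_mul h (N + 1) i (by omega) le_rfl
  have h3 : (PP s (N + 1))⁻¹ * s (i + 1) = s i * (PP s (N + 1))⁻¹ := by
    rw [inv_mul_eq_iff_eq_mul, ← mul_assoc, h2, mul_inv_cancel_right]
  change t * s (i + 1) = s (i + 1) * t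
  rw [ht, mul_assoc, h3, ← mul_assoc, h1 i (by omega), mul_assoc]

theorem four_of_dl (h : Ch (N + 1) s) (h1 : ∀ i < N, d * s i = s (i + 1) * d)
    (h2 : s 0 * (d * d) = d * d * s N) (ht : t = d * (PP s (N + 1))⁻¹) :
    t * s 0 * t * s 0 = s 0 * t * s 0 * t := by
  have hW : Commute t (PP (fun i => s (i + 1)) N) :=
    PP_comm_of N fun i hi => comm_of_dl h h1 ht (i + 1) (by omega) (by omega)
  have hs := PP_sq h
  have hP := PP_shift s N
  obtain ⟨W, hWd⟩ : ∃ W, W = PP (fun i => s (i + 1)) N := ⟨_, rfl⟩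
  rw [← hWd] at hW hs hP
  have e0 : d = t * PP s (N + 1) := by rw [ht, inv_mul_cancel_right]
  have e1 : d = t * s 0 * W := by rw [e0, hP, mul_assoc]
  rw [hP] at hs
  have e2 : (t * s 0 * t * s 0) * (W * (s 0 * W)) = (s 0 * t * s 0 * t) * (W * (s 0 * W)) := by
    calc (t * s 0 * t * s 0) * (W * (s 0 * W))
        = t * s 0 * t * (s 0 * W * (s 0 * W)) := by group
      _ = t * s 0 * t * (W * (s 0 * W) * s N) := by rw [hs]
      _ = t * s 0 * (t * W) * (s 0 * W) * s N := by group
      _ = t * s 0 * (W * t) * (s 0 * W) * s N := by rw [hW.eq]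
      _ = d * d * s N := by rw [e1]; group
      _ = s 0 * (d * d) := by rw [h2]
      _ = s 0 * t * s 0 * (W * t) * (s 0 * W) := by rw [e1]; group
      _ = s 0 * t * s 0 * (t * W) * (s 0 * W) := by rw [hW.eq]
      _ = (s 0 * t * s 0 * t) * (W * (s 0 * W)) := by group
  exact mul_right_cancel e2

end grp

/-- The cycle. -/
def tAa (n : ℕ) : CoxeterMatrix (Fin n) where
  M := Matrix.of fun i j : Fin n =>
    if i = j then 1
    else if i.1 + 1 = j.1 ∨ j.1 + 1 = i.1 ∨ (i.1 = 0 ∧ j.1 + 1 = n) ∨ (j.1 = 0 ∧ i.1 + 1 = n)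
      then 3 else 2
  isSymm := by
    unfold Matrix.IsSymm
    ext i j
    simp only [Matrix.transpose_apply, Matrix.of_apply, Fin.ext_iff]
    split_ifs <;> first | rfl | omega
  diagonal := by simp
  off_diagonal := by
    intro i j h
    simp only [Matrix.of_apply]
    split_ifs <;> simp_all

theorem tAa_apply (n : ℕ) (i j : Fin n) :
    tAa n i j = if i = j then 1
    else if i.1 + 1 = j.1 ∨ j.1 + 1 = i.1 ∨ (i.1 = 0 ∧ j.1 + 1 = n) ∨ (j.1 = 0 ∧ i.1 + 1 = n)
      then 3 else 2 := rfl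

/-- The automorphism of a symmetry of the diagram. -/
theorem exists_rAut {B : Type} (M : CoxeterMatrix B) (e : Equiv.Perm B)
    (h : ∀ i j, M (e i) (e j) = M i j) :
    ∃ f : MulAut (Artin M), ∀ i, f (gen M i) = gen M (e i) := by
  have h' : ∀ i j, M (e.symm i) (e.symm j) = M i j := by
    intro i j
    rw [← h, e.apply_symm_apply, e.apply_symm_apply]
  obtain ⟨f, hf, -⟩ := exists_amap M M e e.injective h
  obtain ⟨g, hg, -⟩ := exists_amap M M e.symm e.symm.injective h'
  refine ⟨MonoidHom.toMulEquiv f g ?_ ?_, hf⟩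
  · refine hom_ext fun i => ?_
    rw [MonoidHom.comp_apply, hf, hg, e.symm_apply_apply, MonoidHom.id_apply]
  · refine hom_ext fun i => ?_
    rw [MonoidHom.comp_apply, hg, hf, e.apply_symm_apply, MonoidHom.id_apply]

/-- An element inducing a given automorphism. -/
theorem exists_conj {A : Type} [Group A] (f : MulAut A) :
    ∃ (H : Type) (_ : Group H) (i : A →* H) (d : H), Function.Injective i ∧
      ∀ a, d * i a * d⁻¹ = i (f a) := by
  refine ⟨A ⋊[zpowersHom (MulAut A) f] Multiplicative ℤ, inferInstance, SemidirectProduct.inl,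
    SemidirectProduct.inr (Multiplicative.ofAdd 1), SemidirectProduct.inl_injective, fun a => ?_⟩
  have h := SemidirectProduct.inl_aut (φ := zpowersHom (MulAut A) f)
    (Multiplicative.ofAdd (1 : ℤ)) a
  rw [zpowersHom_apply, toAdd_ofAdd, zpow_one] at h
  rw [h, map_inv]

theorem tAa_nat (n : ℕ) (i j : ℕ) (hi : i < n) (hj : j < n) :
    tAa n ⟨i, hi⟩ ⟨j, hj⟩ = if i = j then 1
    else if i + 1 = j ∨ j + 1 = i ∨ (i = 0 ∧ j + 1 = n) ∨ (j = 0 ∧ i + 1 = n)
      then 3 else 2 := by
  rw [tAa_apply]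
  simp only [Fin.ext_iff]

theorem tB_nat (n : ℕ) (i j : ℕ) (hi : i < n) (hj : j < n) :
    tB n ⟨i, hi⟩ ⟨j, hj⟩ = if i = j then 1 else if i + 1 = j ∨ j + 1 = i then
      (if i = 0 ∨ j = 0 then 4 else 3) else 2 := by
  have h : tB n ⟨i, hi⟩ ⟨j, hj⟩ = if (⟨i, hi⟩ : Fin n) = ⟨j, hj⟩ then 1 else
    if i + 1 = j ∨ j + 1 = i then (if i = 0 ∨ j = 0 then 4 else 3) else 2 := rfl
  rw [h]
  simp only [Fin.ext_iff]

/-- the sequence `t, s 0, s 1, ...` -/
def cn {H : Type*} (t : H) (s : ℕ → H) : ℕ → H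
  | 0 => t
  | k + 1 => s k

/-- the generators, `1` outside the range -/
noncomputable def gN {n : ℕ} (M : CoxeterMatrix (Fin n)) (k : ℕ) : Artin M :=
  if h : k < n then gen M ⟨k, h⟩ else 1

theorem gN_lt {n : ℕ} (M : CoxeterMatrix (Fin n)) {k : ℕ} (h : k < n) :
    gN M k = gen M ⟨k, h⟩ := dif_pos h

theorem gN_val {n : ℕ} (M : CoxeterMatrix (Fin n)) (i : Fin n) : gN M i.1 = gen M i :=
  gN_lt M i.2

theorem gN_two {n : ℕ} {M : CoxeterMatrix (Fin n)} {i j : ℕ} (hi : i < n) (hj : j < n)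
    (h : M ⟨i, hi⟩ ⟨j, hj⟩ = 2) : Commute (gN M i) (gN M j) := by
  have h2 := braid M (i := ⟨i, hi⟩) (j := ⟨j, hj⟩) (by rw [h]; norm_num)
  rw [h, alt_two, alt_two] at h2
  rw [gN_lt M hi, gN_lt M hj]
  exact h2

theorem gN_three {n : ℕ} {M : CoxeterMatrix (Fin n)} {i j : ℕ} (hi : i < n) (hj : j < n)
    (h : M ⟨i, hi⟩ ⟨j, hj⟩ = 3) :
    gN M i * gN M j * gN M i = gN M j * gN M i * gN M j := by
  have h2 := braid M (i := ⟨i, hi⟩) (j := ⟨j, hj⟩) (by rw [h]; norm_num)
  rw [h, alt_three, alt_three] at h2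
  rw [gN_lt M hi, gN_lt M hj]
  exact h2

theorem gN_four {n : ℕ} {M : CoxeterMatrix (Fin n)} {i j : ℕ} (hi : i < n) (hj : j < n)
    (h : M ⟨i, hi⟩ ⟨j, hj⟩ = 4) :
    gN M i * gN M j * gN M i * gN M j = gN M j * gN M i * gN M j * gN M i := by
  have h2 := braid M (i := ⟨i, hi⟩) (j := ⟨j, hj⟩) (by rw [h]; norm_num)
  rw [h, alt_four, alt_four] at h2
  rw [gN_lt M hi, gN_lt M hj]
  exact h2

/-- The relations have to be checked for `i < j`. -/
theorem rel_of_lt {n : ℕ} (M : CoxeterMatrix (Fin n)) {H : Type*} [Group H] (v : ℕ → H)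
    (h : ∀ i j : Fin n, i.1 < j.1 →
      alt (v i.1) (v j.1) (M i j) = alt (v j.1) (v i.1) (M i j)) (i j : Fin n)
    (_h : M i j ≠ 0) :
    alt (v i.1) (v j.1) (M i j) = alt (v j.1) (v i.1) (M i j) := by
  rcases Nat.lt_trichotomy i.1 j.1 with h1 | h1 | h1
  · exact h i j h1
  · rw [h1]
  · rw [M.symmetric]
    exact (h j i h1).symm

theorem map_PP {G H : Type*} [Group G] [Group H] (f : G →* H) {s : ℕ → G} {s' : ℕ → H} (k : ℕ)
    (h : ∀ i < k, f (s i) = s' i) : f (PP s k) = PP s' k := by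
  induction k with
  | zero => exact map_one f
  | succ k ih =>
    rw [PP, map_mul, ih fun i hi => h i (by omega), h k (by omega), PP]

/-- Homomorphisms from type `B`. -/
theorem exists_homB {H : Type} [Group H] {N : ℕ} {s : ℕ → H} {t : H} (h : Ch (N + 1) s)
    (ht : ∀ i, 1 ≤ i → i ≤ N → Commute t (s i))
    (h4 : t * s 0 * t * s 0 = s 0 * t * s 0 * t) :
    ∃ f : Artin (tB (N + 2)) →* H, ∀ k < N + 2, f (gN (tB (N + 2)) k) = cn t s k := by
  refine ⟨lift (fun i => cn t s i.1) (rel_of_lt _ _ ?_), fun k hk => ?_⟩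
  · rintro ⟨i, hi⟩ ⟨j, hj⟩ hij
    simp only at hij
    rw [tB_nat, if_neg (by omega)]
    obtain ⟨j, rfl⟩ : ∃ j', j = j' + 1 := ⟨j - 1, by omega⟩
    simp only
    rcases i with _ | i
    · change alt t (s j) _ = alt (s j) t _
      rcases j with _ | j
      · rw [if_pos (by omega), if_pos (by omega), alt_four, alt_four]
        exact h4
      · rw [if_neg (by omega), alt_two, alt_two]
        exact ht (j + 1) (by omega) (by omega)
    · change alt (s i) (s j) _ = alt (s j) (s i) _
      by_cases h5 : i + 1 = j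
      · subst h5
        rw [if_pos (by omega), if_neg (by omega), alt_three, alt_three]
        exact h.braid i (by omega)
      · rw [if_neg (by omega), alt_two, alt_two]
        exact h.comm i j (by omega) (by omega)
  · rw [gN_lt _ hk]
    exact lift_gen _ _ _

/-- Homomorphisms from the affine type `A`. -/
theorem exists_homAa {H : Type} [Group H] {N : ℕ} (hN : 1 ≤ N) {s : ℕ → H} {d w : H}
    (h : Ch (N + 1) s) (h1 : ∀ i < N, d * s i = s (i + 1) * d)
    (h2 : s 0 * (d * d) = d * d * s N) (hw : w = d * s N * d⁻¹) :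
    ∃ f : Artin (tAa (N + 2)) →* H, (∀ k < N + 1, f (gN (tAa (N + 2)) k) = s k) ∧
      f (gN (tAa (N + 2)) (N + 1)) = w := by
  have h1' : ∀ i < N, s (i + 1) = d * s i * d⁻¹ := fun i hi => by
    rw [h1 i hi, mul_inv_cancel_right]
  have h3 : s 0 = d * w * d⁻¹ := by
    rw [hw]
    calc s 0 = s 0 * (d * d) * d⁻¹ * d⁻¹ := by group
      _ = d * d * s N * d⁻¹ * d⁻¹ := by rw [h2]
      _ = _ := by group
  have hconj2 : ∀ a b g : H, a * b = b * a →
      (g * a * g⁻¹) * (g * b * g⁻¹) = (g * b * g⁻¹) * (g * a * g⁻¹) := by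
    intro a b g hab
    calc (g * a * g⁻¹) * (g * b * g⁻¹) = g * (a * b) * g⁻¹ := by group
      _ = g * (b * a) * g⁻¹ := by rw [hab]
      _ = _ := by group
  have hconj3 : ∀ a b g : H, a * b * a = b * a * b →
      (g * a * g⁻¹) * (g * b * g⁻¹) * (g * a * g⁻¹) =
        (g * b * g⁻¹) * (g * a * g⁻¹) * (g * b * g⁻¹) := by
    intro a b g hab
    calc (g * a * g⁻¹) * (g * b * g⁻¹) * (g * a * g⁻¹) = g * (a * b * a) * g⁻¹ := by group
      _ = g * (b * a * b) * g⁻¹ := by rw [hab]
      _ = _ := by group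
  -- the relations of `w`
  have r1 : ∀ i, 1 ≤ i → i < N → s i * w = w * s i := by
    intro i hi hi'
    obtain ⟨i, rfl⟩ : ∃ j, i = j + 1 := ⟨i - 1, by omega⟩
    rw [h1' i (by omega), hw]
    exact hconj2 _ _ _ (h.comm i N (by omega) (by omega)).eq
  have r2 : s N * w * s N = w * s N * w := by
    obtain ⟨M, rfl⟩ : ∃ M, N = M + 1 := ⟨N - 1, by omega⟩
    have h4 := hconj3 _ _ d (h.braid M (by omega))
    rw [← h1' M (by omega), ← hw] at h4
    exact h4
  have r3 : s 0 * w * s 0 = w * s 0 * w := by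
    have h4 := h.braid 0 (by omega)
    rw [h1' 0 (by omega)] at h4
    have h5 : d * (w * s 0 * w) * d⁻¹ = d * (s 0 * w * s 0) * d⁻¹ := by
      calc d * (w * s 0 * w) * d⁻¹ = (d * w * d⁻¹) * (d * s 0 * d⁻¹) * (d * w * d⁻¹) := by group
        _ = (d * s 0 * d⁻¹) * (d * w * d⁻¹) * (d * s 0 * d⁻¹) := by rw [← h3]; exact h4
        _ = _ := by group
    exact (mul_left_cancel (mul_right_cancel h5)).symm
  refine ⟨lift (fun i => (fun k : ℕ => if k < N + 1 then s k else w) i.1)
      (rel_of_lt _ (fun k : ℕ => if k < N + 1 then s k else w) ?_),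
    fun k hk => ?_, ?_⟩
  · rintro ⟨i, hi⟩ ⟨j, hj⟩ hij
    simp only at hij
    rw [tAa_nat, if_neg (show ¬ i = j by omega)]
    simp only
    rw [if_pos (show i < N + 1 by omega)]
    by_cases hjN : j < N + 1
    · rw [if_pos hjN]
      by_cases h5 : i + 1 = j
      · subst h5
        rw [if_pos (by omega), alt_three, alt_three]
        exact h.braid i (by omega)
      · rw [if_neg (by omega), alt_two, alt_two]
        exact h.comm i j (by omega) (by omega)
    · rw [if_neg hjN]
      obtain rfl : j = N + 1 := by omega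
      rcases Nat.eq_zero_or_pos i with rfl | hi0
      · rw [if_pos (by omega), alt_three, alt_three]
        exact r3
      · by_cases hiN : i = N
        · subst hiN
          rw [if_pos (by omega), alt_three, alt_three]
          exact r2
        · rw [if_neg (by omega), alt_two, alt_two]
          exact r1 i hi0 (by omega)
  · rw [gN_lt _ (show k < N + 2 by omega)]
    refine (lift_gen _ _ _).trans ?_
    exact if_pos hk
  · rw [gN_lt _ (show N + 1 < N + 2 by omega)]
    refine (lift_gen _ _ _).trans ?_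
    exact if_neg (by simp)

theorem hierL_tAa' (N : ℕ) (hN : 1 ≤ N) (hB : HierL (Artin (tB (N + 2)))) :
    HierL (Artin (tAa (N + 2))) := by
  -- the relations of type `B`
  obtain ⟨s, hs⟩ : ∃ s : ℕ → Artin (tB (N + 2)), s = fun i => gN (tB (N + 2)) (i + 1) := ⟨_, rfl⟩
  obtain ⟨t, ht⟩ : ∃ t : Artin (tB (N + 2)), t = gN (tB (N + 2)) 0 := ⟨_, rfl⟩
  obtain ⟨d, hd⟩ : ∃ d, d = t * PP s (N + 1) := ⟨_, rfl⟩
  have hC : Ch (N + 1) s := by
    constructor
    · intro i j hij hj
      rw [hs]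
      refine gN_two (show i + 1 < N + 2 by omega) (show j + 1 < N + 2 by omega) ?_
      rw [tB_nat, if_neg (by omega),
        if_neg (by omega)]
    · intro i hi
      rw [hs]
      refine gN_three (show i + 1 < N + 2 by omega) (show i + 1 + 1 < N + 2 by omega) ?_
      rw [tB_nat, if_neg (by omega),
        if_pos (by omega), if_neg (by omega)]
  have hT : ∀ i, 1 ≤ i → i ≤ N → Commute t (s i) := by
    intro i hi hi'
    rw [ht, hs]
    refine gN_two (show 0 < N + 2 by omega) (show i + 1 < N + 2 by omega) ?_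
    rw [tB_nat, if_neg (by omega),
      if_neg (by omega)]
  have h4 : t * s 0 * t * s 0 = s 0 * t * s 0 * t := by
    rw [ht, hs]
    refine gN_four (show 0 < N + 2 by omega) (show 0 + 1 < N + 2 by omega) ?_
    rw [tB_nat, if_neg (by omega),
      if_pos (by omega), if_pos (by omega)]
  obtain ⟨f, hf, hf'⟩ := exists_homAa hN hC (dl_one hC hT hd) (dl_two hC hT h4 hd) rfl
  -- the rotation
  obtain ⟨R, hR⟩ := exists_rAut (tAa (N + 2)) (finRotate (N + 2)) (by
    intro i j
    have hr : ∀ i : Fin (N + 2), (finRotate (N + 2) i).1 = if i.1 = N + 1 then 0 else i.1 + 1 := by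
      intro i
      rw [coe_finRotate]
      have h5 : i = Fin.last (N + 1) ↔ i.1 = N + 1 := by rw [Fin.ext_iff]; rfl
      simp only [h5]
    rw [tAa_apply, tAa_apply]
    have hi := i.2
    have hj := j.2
    have hi' := hr i
    have hj' := hr j
    obtain ⟨a, ha⟩ : ∃ a, a = (finRotate (N + 2) i).1 := ⟨_, rfl⟩
    obtain ⟨b, hb⟩ : ∃ b, b = (finRotate (N + 2) j).1 := ⟨_, rfl⟩
    simp only [Fin.ext_iff, ← ha, ← hb]
    rw [← ha] at hi'
    rw [← hb] at hj'
    split_ifs at hi' hj' <;> split_ifs <;> first | rfl | omega)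
  have hR' : ∀ k < N + 1, R (gN (tAa (N + 2)) k) = gN (tAa (N + 2)) (k + 1) := by
    intro k hk
    rw [gN_lt _ (show k < N + 2 by omega), gN_lt _ (show k + 1 < N + 2 by omega), hR]
    congr 1
    rw [Fin.ext_iff, coe_finRotate, if_neg (by rw [Fin.ext_iff]; simp only [Fin.val_last]; omega)]
  have hR0 : R (gN (tAa (N + 2)) (N + 1)) = gN (tAa (N + 2)) 0 := by
    rw [gN_lt _ (show N + 1 < N + 2 by omega), gN_lt _ (show 0 < N + 2 by omega), hR]
    congr 1
    rw [Fin.ext_iff, coe_finRotate, if_pos (by rw [Fin.ext_iff]; simp only [Fin.val_last])]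
  obtain ⟨H, _, ι, D, hι, hD⟩ := exists_conj R
  obtain ⟨s', hs'⟩ : ∃ s' : ℕ → H, s' = fun i => ι (gN (tAa (N + 2)) i) := ⟨_, rfl⟩
  have hC' : Ch (N + 1) s' := by
    constructor
    · intro i j hij hj
      rw [hs']
      refine (gN_two (M := tAa (N + 2)) (show i < N + 2 by omega)
        (show j < N + 2 by omega) ?_).map ι
      rw [tAa_nat, if_neg (by omega),
        if_neg (by omega)]
    · intro i hi
      rw [hs']
      simp only
      rw [← map_mul, ← map_mul, ← map_mul, ← map_mul]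
      refine congrArg ι (gN_three (show i < N + 2 by omega) (show i + 1 < N + 2 by omega) ?_)
      rw [tAa_nat, if_neg (by omega),
        if_pos (by omega)]
  have hDm : ∀ a, D * ι a = ι (R a) * D := fun a => by rw [← hD, inv_mul_cancel_right]
  have e1 : ∀ i < N, D * s' i = s' (i + 1) * D := by
    intro i hi
    rw [hs']
    simp only
    rw [hDm, hR' i (by omega)]
  have e2 : s' 0 * (D * D) = D * D * s' N := by
    rw [hs']
    simp only
    rw [mul_assoc D D, hDm, hR' N (by omega), ← mul_assoc D, hDm, hR0, mul_assoc]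
  obtain ⟨T, hT'⟩ : ∃ T, T = D * (PP s' (N + 1))⁻¹ := ⟨_, rfl⟩
  obtain ⟨g, hg⟩ := exists_homB hC' (comm_of_dl hC' e1 hT') (four_of_dl hC' e1 e2 hT')
  have hgs : ∀ i < N + 1, g (s i) = s' i := by
    intro i hi
    rw [hs]
    exact hg (i + 1) (by omega)
  have hgt : g t = T := by
    rw [ht]
    exact hg 0 (by omega)
  have hgd : g d = D := by
    rw [hd, map_mul, hgt, map_PP g (N + 1) hgs, hT', inv_mul_cancel_right]
  have hgf : g.comp f = ι := by
    refine hom_ext fun i => ?_
    rw [MonoidHom.comp_apply, ← gN_val]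
    by_cases hi : i.1 < N + 1
    · rw [hf i.1 hi, hgs i.1 hi, hs']
    · have h6 : i.1 = N + 1 := by have := i.2; omega
      rw [h6, hf', map_mul, map_mul, map_inv, hgd, hgs N (by omega), hs']
      simp only
      rw [hD, hR' N (by omega)]
  refine hierL_inj _ hB _ f ?_
  intro a b hab
  have h7 := congrArg g hab
  have h8 := DFunLike.congr_fun hgf
  simp only [MonoidHom.comp_apply] at h8
  rw [h8, h8] at h7
  exact hι h7

/-- The affine type `A` with `n` nodes, `3 ≤ n`. -/
theorem hierL_tAa (hA : ∀ n, HierL (Artin (tA n))) (n : ℕ) (hn : 3 ≤ n) :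
    HierL (Artin (tAa n)) := by
  obtain ⟨N, rfl⟩ : ∃ N, n = N + 2 := ⟨n - 2, by omega⟩
  exact hierL_tAa' N (by omega) (hierL_tBn hA (N + 2))

end Pool.Agent.Art
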