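import Pool.Agent.Art.AffC

/-!
# Affine type `B`: `A(B~ n)` embeds into `F ⋊ A(B n)`
-/

set_option autoImplicit false
set_option linter.unusedSimpArgs false

namespace Pool.Agent.Art

open Pool.Agent.HL

/-- An element inducing a given automorphism. -/
theorem exists_hol {A : Type} [Group A] (f : MulAut A) (hf : f * f = 1) :
    ∃ (H : Type) (_ : Group H) (i : A →* H) (d : H), Function.Injective i ∧ d * d = 1 ∧
      ∀ a, d * i a * d⁻¹ = i (f a) := by
  refine ⟨A ⋊[MonoidHom.id (MulAut A)] MulAut A, inferInstance, SemidirectProduct.inl,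
    SemidirectProduct.inr f, SemidirectProduct.inl_injective, ?_, fun a => ?_⟩
  · rw [← map_mul, hf, map_one]
  · have h := SemidirectProduct.inl_aut (φ := MonoidHom.id (MulAut A)) f a
    rw [MonoidHom.id_apply] at h
    rw [h, map_inv]

/-- A variant of `hierL_sd_gen`. -/
theorem hierL_sd_gen' {B X : Type} {M : CoxeterMatrix B} {H : Type} [Group H] {B' : Type}
    {M' : CoxeterMatrix B'} (ι : Artin M' →* H) (hι : Function.Injective ι)
    (φ : Artin M →* MulAut (FreeGroup X)) (hM : HierL (Artin M))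
    (f : Artin M' →* FreeGroup X ⋊[φ] Artin M) (f1 : FreeGroup X →* H) (f2 : Artin M →* H)
    (h : ∀ i k, f1 (φ (gen M i) (FreeGroup.of k)) =
      f2 (gen M i) * f1 (FreeGroup.of k) * (f2 (gen M i))⁻¹)
    (hf : ∀ i, f1 (f (gen M' i)).left * f2 (f (gen M' i)).right = ι (gen M' i)) :
    HierL (Artin M') := by
  let ψ : FreeGroup X ⋊[φ] Artin M →* H := SemidirectProduct.lift f1 f2 (sd_compat φ f1 f2 h)
  have h1 : ψ.comp f = ι := hom_ext hf
  refine hierL_inj _ (hierL_sdprod φ hM) _ f ?_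
  intro a b hab
  have h2 := congrArg ψ hab
  have h3 := DFunLike.congr_fun h1
  simp only [MonoidHom.comp_apply] at h3
  rw [h3, h3] at h2
  exact hι h2

section free

open FreeGroup

/-- the substitution of the generator `0` -/
def ue0 : ℕ → FreeGroup ℕ
  | 0 => of 0
  | 1 => (of 2)⁻¹ * of 1 * of 2
  | 2 => of 2
  | k + 3 => (of 2)⁻¹ * of (k + 3)

/-- the inverse substitution -/
def ue0' : ℕ → FreeGroup ℕ
  | 0 => of 0
  | 1 => of 2 * of 1 * (of 2)⁻¹
  | 2 => of 2
  | k + 3 => of 2 * of (k + 3)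

/-- the substitution of the last generator -/
def uT (m k : ℕ) : FreeGroup ℕ :=
  if k = 0 then (of 0)⁻¹ * (of m)⁻¹ * of 1 * of m * of 0
  else if k = 1 then (of 1)⁻¹ * of m * of 0 * (of m)⁻¹ * of 1
  else if k = m then (of 1)⁻¹ * of m * of 0 else of k

/-- the inverse substitution -/
def uT' (m k : ℕ) : FreeGroup ℕ :=
  if k = 0 then (of m)⁻¹ * of 1 * of m
  else if k = 1 then of m * of 0 * (of m)⁻¹
  else if k = m then of m * of 0 * (of m)⁻¹ * (of 1)⁻¹ * of m else of k

theorem exists_eAut0 : ∃ f : MulAut (FreeGroup ℕ), ∀ k, f (of k) = ue0 k := by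
  refine exists_mulAut ue0 ue0' (fun k => ?_) fun k => ?_
  · rcases k with _ | _ | _ | k <;> simp [ue0, ue0', mul_assoc]
  · rcases k with _ | _ | _ | k <;> simp [ue0, ue0', mul_assoc]

theorem exists_tAut (m : ℕ) (hm : 2 ≤ m) :
    ∃ f : MulAut (FreeGroup ℕ), ∀ k, f (of k) = uT m k := by
  have hm0 : m ≠ 0 := by omega
  have hm1 : m ≠ 1 := by omega
  refine exists_mulAut (uT m) (uT' m) (fun k => ?_) fun k => ?_
  · by_cases h0 : k = 0
    · subst h0; simp [uT, uT', hm0, hm1, mul_assoc]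
    by_cases h1 : k = 1
    · subst h1; simp [uT, uT', hm0, hm1, mul_assoc]
    by_cases h2 : k = m
    · subst h2; simp [uT, uT', hm0, hm1, mul_assoc]
    simp [uT, uT', h0, h1, h2]
  · by_cases h0 : k = 0
    · subst h0; simp [uT, uT', hm0, hm1, mul_assoc]
    by_cases h1 : k = 1
    · subst h1; simp [uT, uT', hm0, hm1, mul_assoc]
    by_cases h2 : k = m
    · subst h2; simp [uT, uT', hm0, hm1, mul_assoc]
    simp [uT, uT', h0, h1, h2]

/-- the automorphism of the generator `0` -/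
noncomputable def eA0 : MulAut (FreeGroup ℕ) := exists_eAut0.choose

theorem eA0_of (k : ℕ) : eA0 (of k) = ue0 k := exists_eAut0.choose_spec k
theorem eA0_0 : eA0 (of 0) = of 0 := eA0_of 0
theorem eA0_1 : eA0 (of 1) = (of 2)⁻¹ * of 1 * of 2 := eA0_of 1
theorem eA0_2 : eA0 (of 2) = of 2 := eA0_of 2
theorem eA0_gt {k : ℕ} (h : 2 < k) : eA0 (of k) = (of 2)⁻¹ * of k := by
  obtain ⟨k, rfl⟩ : ∃ j, k = j + 3 := ⟨k - 3, by omega⟩
  exact eA0_of (k + 3)

theorem eA0_comm {j : ℕ} (h : 2 < j) : eA0 * dAut j = dAut j * eA0 := by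
  refine mulAut_ext fun k => ?_
  rw [MulAut.mul_apply, MulAut.mul_apply]
  have e0 : dAut j (of 0) = of 0 := dAut_ne (by omega) (by omega)
  have e1 : dAut j (of 1) = of 1 := dAut_ne (by omega) (by omega)
  have e2 : dAut j (of 2) = of 2 := dAut_ne (by omega) (by omega)
  rcases k with _ | _ | _ | k
  · rw [e0, eA0_0, e0]
  · change eA0 (dAut j (of 1)) = dAut j (eA0 (of 1))
    rw [e1, eA0_1]
    simp only [_root_.map_mul, _root_.map_inv, e1, e2]
  · change eA0 (dAut j (of 2)) = dAut j (eA0 (of 2))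
    rw [e2, eA0_2, e2]
  · change eA0 (dAut j (of (k + 3))) = dAut j (eA0 (of (k + 3)))
    by_cases h3 : k + 3 = j
    · subst h3
      rw [dAut_self, eA0_gt (by omega), eA0_gt (by omega)]
      simp only [_root_.map_mul, _root_.map_inv]
      rw [e2, dAut_self]
    by_cases h4 : k + 3 = j + 1
    · rw [h4, dAut_succ, eA0_gt (by omega)]
      simp only [_root_.map_mul, _root_.map_inv]
      rw [e2, dAut_succ, eA0_gt (show 2 < j + 1 by omega), eA0_gt (show 2 < j by omega)]
      group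
    rw [dAut_ne h3 h4, eA0_gt (by omega)]
    simp only [_root_.map_mul, _root_.map_inv]
    rw [e2, dAut_ne h3 h4]

theorem eA0_braid : eA0 * dAut 2 * eA0 = dAut 2 * eA0 * dAut 2 := by
  refine mulAut_ext fun k => ?_
  simp only [MulAut.mul_apply]
  have e0 : dAut 2 (of 0) = of 0 := dAut_ne (by omega) (by omega)
  have e1 : dAut 2 (of 1) = of 1 := dAut_ne (by omega) (by omega)
  have e2 : dAut 2 (of 2) = of 3 := dAut_self 2
  have e3 : dAut 2 (of 3) = of 3 * (of 2)⁻¹ * of 3 := dAut_succ 2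
  have e4 : eA0 (of 3) = (of 2)⁻¹ * of 3 := eA0_gt (by omega)
  rcases k with _ | _ | _ | _ | k
  · rw [e0, eA0_0, e0, eA0_0]
  · change eA0 (dAut 2 (eA0 (of 1))) = dAut 2 (eA0 (dAut 2 (of 1)))
    simp only [_root_.map_mul, _root_.map_inv, e1, e2, e3, e4, eA0_1, eA0_2]
    group
  · change eA0 (dAut 2 (eA0 (of 2))) = dAut 2 (eA0 (dAut 2 (of 2)))
    simp only [_root_.map_mul, _root_.map_inv, e1, e2, e3, e4, eA0_1, eA0_2]
    group
  · change eA0 (dAut 2 (eA0 (of 3))) = dAut 2 (eA0 (dAut 2 (of 3)))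
    simp only [_root_.map_mul, _root_.map_inv, e1, e2, e3, e4, eA0_1, eA0_2]
    group
  · change eA0 (dAut 2 (eA0 (of (k + 4)))) = dAut 2 (eA0 (dAut 2 (of (k + 4))))
    have e5 : dAut 2 (of (k + 4)) = of (k + 4) := dAut_ne (by omega) (by omega)
    have e6 : eA0 (of (k + 4)) = (of 2)⁻¹ * of (k + 4) := eA0_gt (by omega)
    simp only [_root_.map_mul, _root_.map_inv, e1, e2, e3, e4, e5, e6, eA0_1, eA0_2]
    group

/-- the automorphisms of the chain -/
noncomputable def eg : ℕ → MulAut (FreeGroup ℕ)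
  | 0 => eA0
  | i + 1 => dAut (i + 2)

theorem eg_comm {i j : ℕ} (h : i + 1 < j) : eg i * eg j = eg j * eg i := by
  obtain ⟨j, rfl⟩ : ∃ j', j = j' + 1 := ⟨j - 1, by omega⟩
  rcases i with _ | i
  · exact eA0_comm (by omega)
  · exact dAut_comm (by omega)

theorem eg_braid (i : ℕ) : eg i * eg (i + 1) * eg i = eg (i + 1) * eg i * eg (i + 1) := by
  rcases i with _ | i
  · exact eA0_braid
  · exact dAut_braid (i + 2)

/-- the automorphism of the last generator -/
theorem exists_T (K : ℕ) (hK : 1 ≤ K) : ∃ T : MulAut (FreeGroup ℕ),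
    T (of 0) = (of 0)⁻¹ * (of (K + 2))⁻¹ * of 1 * of (K + 2) * of 0 ∧
    T (of 1) = (of 1)⁻¹ * of (K + 2) * of 0 * (of (K + 2))⁻¹ * of 1 ∧
    T (of (K + 2)) = (of 1)⁻¹ * of (K + 2) * of 0 ∧
    (∀ k, 2 ≤ k → k ≠ K + 2 → T (of k) = of k) ∧
    (∀ i < K, T * eg i = eg i * T) ∧ T * eg K * T * eg K = eg K * T * eg K * T := by
  obtain ⟨T, hT⟩ := exists_tAut (K + 2) (by omega)
  have h0 : T (of 0) = (of 0)⁻¹ * (of (K + 2))⁻¹ * of 1 * of (K + 2) * of 0 := by
    rw [hT]; exact if_pos rfl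
  have h1 : T (of 1) = (of 1)⁻¹ * of (K + 2) * of 0 * (of (K + 2))⁻¹ * of 1 := by
    rw [hT]; exact (if_neg (by omega)).trans (if_pos rfl)
  have h2 : T (of (K + 2)) = (of 1)⁻¹ * of (K + 2) * of 0 := by
    rw [hT, uT, if_neg (by omega), if_neg (by omega), if_pos rfl]
  have h3 : ∀ k, 2 ≤ k → k ≠ K + 2 → T (of k) = of k := by
    intro k hk hk'
    rw [hT, uT, if_neg (by omega), if_neg (by omega), if_neg hk']
  refine ⟨T, h0, h1, h2, h3, ?_, ?_⟩
  · intro i hi
    refine mulAut_ext fun k => ?_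
    rw [MulAut.mul_apply, MulAut.mul_apply]
    rcases i with _ | i
    · change T (eA0 (of k)) = eA0 (T (of k))
      have e2 : T (of 2) = of 2 := h3 2 (by omega) (by omega)
      have e4 : eA0 (of (K + 2)) = (of 2)⁻¹ * of (K + 2) := eA0_gt (by omega)
      rcases k with _ | _ | _ | k
      · simp only [_root_.map_mul, _root_.map_inv, eA0_0, eA0_1, h0, e4]
        group
      · change T (eA0 (of 1)) = eA0 (T (of 1))
        simp only [_root_.map_mul, _root_.map_inv, eA0_0, eA0_1, h1, e2, e4]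
        group
      · change T (eA0 (of 2)) = eA0 (T (of 2))
        rw [e2, eA0_2, e2]
      · change T (eA0 (of (k + 3))) = eA0 (T (of (k + 3)))
        by_cases h4 : k + 3 = K + 2
        · rw [h4]
          simp only [_root_.map_mul, _root_.map_inv, eA0_0, eA0_1, h2, e2, e4]
          group
        · rw [eA0_gt (by omega), h3 _ (by omega) h4, eA0_gt (by omega)]
          simp only [_root_.map_mul, _root_.map_inv]
          rw [e2, h3 _ (by omega) h4]
    · change T (dAut (i + 2) (of k)) = dAut (i + 2) (T (of k))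
      have e0 : dAut (i + 2) (of 0) = of 0 := dAut_ne (by omega) (by omega)
      have e1 : dAut (i + 2) (of 1) = of 1 := dAut_ne (by omega) (by omega)
      have e4 : dAut (i + 2) (of (K + 2)) = of (K + 2) := dAut_ne (by omega) (by omega)
      by_cases k0 : k = 0
      · subst k0
        simp only [_root_.map_mul, _root_.map_inv, h0, e0, e1, e4]
      by_cases k1 : k = 1
      · subst k1
        simp only [_root_.map_mul, _root_.map_inv, h1, e0, e1, e4]
      by_cases kK : k = K + 2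
      · subst kK
        simp only [_root_.map_mul, _root_.map_inv, h2, e0, e1, e4]
      rw [h3 k (by omega) kK]
      by_cases k2 : k = i + 2
      · subst k2
        rw [dAut_self, h3 _ (by omega) (by omega)]
      by_cases k3 : k = i + 2 + 1
      · subst k3
        rw [dAut_succ]
        simp only [_root_.map_mul, _root_.map_inv]
        rw [h3 (i + 2 + 1) (by omega) (by omega), h3 (i + 2) (by omega) (by omega)]
      rw [dAut_ne k2 k3, h3 k (by omega) kK]
  · obtain ⟨L, rfl⟩ : ∃ L, K = L + 1 := ⟨K - 1, by omega⟩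
    refine mulAut_ext fun k => ?_
    simp only [MulAut.mul_apply]
    change T (dAut (L + 2) (T (dAut (L + 2) (of k)))) =
      dAut (L + 2) (T (dAut (L + 2) (T (of k))))
    have e0 : dAut (L + 2) (of 0) = of 0 := dAut_ne (by omega) (by omega)
    have e1 : dAut (L + 2) (of 1) = of 1 := dAut_ne (by omega) (by omega)
    have e2 : dAut (L + 2) (of (L + 2)) = of (L + 1 + 2) := dAut_self (L + 2)
    have e3 : dAut (L + 2) (of (L + 1 + 2)) =
        of (L + 1 + 2) * (of (L + 2))⁻¹ * of (L + 1 + 2) := dAut_succ (L + 2)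
    have e4 : T (of (L + 2)) = of (L + 2) := h3 _ (by omega) (by omega)
    by_cases k0 : k = 0
    · subst k0
      simp only [_root_.map_mul, _root_.map_inv, h0, h1, h2, e0, e1, e2, e3, e4]
      group
    by_cases k1 : k = 1
    · subst k1
      simp only [_root_.map_mul, _root_.map_inv, h0, h1, h2, e0, e1, e2, e3, e4]
      group
    by_cases kK : k = L + 1 + 2
    · subst kK
      simp only [_root_.map_mul, _root_.map_inv, h0, h1, h2, e0, e1, e2, e3, e4]
      group
    by_cases kL : k = L + 2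
    · subst kL
      simp only [_root_.map_mul, _root_.map_inv, h0, h1, h2, e0, e1, e2, e3, e4]
      group
    have e5 : dAut (L + 2) (of k) = of k := dAut_ne kL kK
    rw [h3 k (by omega) kK, e5, h3 k (by omega) kK, e5, h3 k (by omega) kK]

end free

/-- The affine type `B` with `n` nodes, `4 ≤ n`: the chain `1 - 2 - ... - (n - 1)` with last label
`4`, the node `0` is joined to the node `2`. -/
def tBa (n : ℕ) : CoxeterMatrix (Fin n) where
  M := Matrix.of fun i j : Fin n =>
    if i = j then 1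
    else if (i.1 = 0 ∧ j.1 = 2) ∨ (j.1 = 0 ∧ i.1 = 2) then 3
    else if i.1 = 0 ∨ j.1 = 0 then 2
    else if i.1 + 1 = j.1 ∨ j.1 + 1 = i.1 then
      (if i.1 + 1 = n ∨ j.1 + 1 = n then 4 else 3) else 2
  isSymm := by
    unfold Matrix.IsSymm
    ext i j
    simp only [Matrix.transpose_apply, Matrix.of_apply, Fin.ext_iff]
    split_ifs <;> first | rfl | omega
  diagonal := by simp
  off_diagonal := by
    intro i j h
    simp only [Matrix.of_apply]
    split_ifs <;> simp_all

theorem tBa_nat (n : ℕ) (i j : ℕ) (hi : i < n) (hj : j < n) :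
    tBa n ⟨i, hi⟩ ⟨j, hj⟩ = if i = j then 1
    else if (i = 0 ∧ j = 2) ∨ (j = 0 ∧ i = 2) then 3
    else if i = 0 ∨ j = 0 then 2
    else if i + 1 = j ∨ j + 1 = i then
      (if i + 1 = n ∨ j + 1 = n then 4 else 3) else 2 := by
  have h : tBa n ⟨i, hi⟩ ⟨j, hj⟩ = if (⟨i, hi⟩ : Fin n) = ⟨j, hj⟩ then 1
    else if (i = 0 ∧ j = 2) ∨ (j = 0 ∧ i = 2) then 3
    else if i = 0 ∨ j = 0 then 2
    else if i + 1 = j ∨ j + 1 = i then
      (if i + 1 = n ∨ j + 1 = n then 4 else 3) else 2 := rfl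
  rw [h]
  simp only [Fin.ext_iff]

theorem tBa_val (n : ℕ) (i j : Fin n) :
    tBa n i j = if i.1 = j.1 then 1
    else if (i.1 = 0 ∧ j.1 = 2) ∨ (j.1 = 0 ∧ i.1 = 2) then 3
    else if i.1 = 0 ∨ j.1 = 0 then 2
    else if i.1 + 1 = j.1 ∨ j.1 + 1 = i.1 then
      (if i.1 + 1 = n ∨ j.1 + 1 = n then 4 else 3) else 2 :=
  tBa_nat n i.1 j.1 i.2 j.2

section grp

variable {G : Type*} [Group G] {K : ℕ} {a t u : G} {s : ℕ → G}

/-- the relations of the affine type `B` -/
structure BA (K : ℕ) (a : G) (s : ℕ → G) (u : G) : Prop where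
  ch : Ch (K + 1) s
  comm : ∀ i < K, Commute u (s i)
  four : u * s K * u * s K = s K * u * s K * u
  three : a * s 1 * a = s 1 * a * s 1
  ca : ∀ i ≤ K, i ≠ 1 → Commute a (s i)
  au : Commute a u

theorem exists_homBa (hK : 1 ≤ K) (h : BA K a s u) :
    ∃ f : Artin (tBa (K + 3)) →* G, f (gN (tBa (K + 3)) 0) = a ∧
      (∀ k ≤ K, f (gN (tBa (K + 3)) (k + 1)) = s k) ∧
      f (gN (tBa (K + 3)) (K + 2)) = u := by
  refine ⟨lift (fun i => (cn a fun k : ℕ => if k ≤ K then s k else u) i.1)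
    (rel_of_lt _ (cn a fun k : ℕ => if k ≤ K then s k else u) ?_), ?_, fun k hk => ?_, ?_⟩
  · rintro ⟨i, hi⟩ ⟨j, hj⟩ hij
    simp only at hij
    rw [tBa_nat, if_neg (show ¬ i = j by omega)]
    simp only
    obtain ⟨j, rfl⟩ : ∃ j', j = j' + 1 := ⟨j - 1, by omega⟩
    have hj' : cn a (fun k : ℕ => if k ≤ K then s k else u) (j + 1) =
      if j ≤ K then s j else u := rfl
    rw [hj']
    rcases i with _ | i
    · change alt a _ _ = alt _ a _
      by_cases hjN : j ≤ K
      · rw [if_pos hjN]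
        by_cases h1 : j = 1
        · subst h1
          rw [if_pos (by omega), alt_three, alt_three]
          exact h.three
        · rw [if_neg (by omega), if_pos (by omega), alt_two, alt_two]
          exact h.ca j hjN h1
      · rw [if_neg hjN, if_neg (by omega), if_pos (by omega), alt_two, alt_two]
        exact h.au
    · have hi' : cn a (fun k : ℕ => if k ≤ K then s k else u) (i + 1) =
        if i ≤ K then s i else u := rfl
      rw [hi', if_pos (show i ≤ K by omega)]
      by_cases hjN : j ≤ K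
      · rw [if_pos hjN]
        by_cases h5 : i + 1 = j
        · subst h5
          rw [if_neg (by omega), if_neg (by omega), if_pos (by omega), if_neg (by omega),
            alt_three, alt_three]
          exact h.ch.braid i (by omega)
        · rw [if_neg (by omega), if_neg (by omega), if_neg (by omega), alt_two, alt_two]
          exact h.ch.comm i j (by omega) (by omega)
      · rw [if_neg hjN]
        obtain rfl : j = K + 1 := by omega
        by_cases hiN : i = K
        · subst hiN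
          rw [if_neg (by omega), if_neg (by omega), if_pos (by omega), if_pos (by omega),
            alt_four, alt_four]
          exact h.four.symm
        · rw [if_neg (by omega), if_neg (by omega), if_neg (by omega), alt_two, alt_two]
          exact (h.comm i (by omega)).symm
  · rw [gN_lt _ (show 0 < K + 3 by omega)]
    exact lift_gen _ _ _
  · rw [gN_lt _ (show k + 1 < K + 3 by omega)]
    refine (lift_gen _ _ _).trans ?_
    exact if_pos hk
  · rw [gN_lt _ (show K + 2 < K + 3 by omega)]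
    refine (lift_gen _ _ _).trans ?_
    exact if_neg (by simp)

theorem BA_tBa (hK : 1 ≤ K) : BA K (gN (tBa (K + 3)) 0) (fun i => gN (tBa (K + 3)) (i + 1))
    (gN (tBa (K + 3)) (K + 2)) := by
  refine ⟨⟨?_, ?_⟩, ?_, ?_, ?_, ?_, ?_⟩
  · intro i j hij hj
    refine gN_two (show i + 1 < K + 3 by omega) (show j + 1 < K + 3 by omega) ?_
    rw [tBa_nat, if_neg (by omega), if_neg (by omega), if_neg (by omega), if_neg (by omega)]
  · intro i hi
    refine gN_three (show i + 1 < K + 3 by omega) (show i + 1 + 1 < K + 3 by omega) ?_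
    rw [tBa_nat, if_neg (by omega), if_neg (by omega), if_neg (by omega), if_pos (by omega),
      if_neg (by omega)]
  · intro i hi
    refine gN_two (show K + 2 < K + 3 by omega) (show i + 1 < K + 3 by omega) ?_
    rw [tBa_nat, if_neg (by omega), if_neg (by omega), if_neg (by omega), if_neg (by omega)]
  · refine gN_four (show K + 2 < K + 3 by omega) (show K + 1 < K + 3 by omega) ?_
    rw [tBa_nat, if_neg (by omega), if_neg (by omega), if_neg (by omega), if_pos (by omega),
      if_pos (by omega)]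
  · refine gN_three (show 0 < K + 3 by omega) (show 1 + 1 < K + 3 by omega) ?_
    rw [tBa_nat, if_neg (by omega), if_pos (by omega)]
  · intro i hi hi1
    refine gN_two (show 0 < K + 3 by omega) (show i + 1 < K + 3 by omega) ?_
    rw [tBa_nat, if_neg (by omega), if_neg (by omega), if_pos (by omega)]
  · refine gN_two (show 0 < K + 3 by omega) (show K + 2 < K + 3 by omega) ?_
    rw [tBa_nat, if_neg (by omega), if_neg (by omega), if_pos (by omega)]

theorem XB_sq (ht : t * t = 1) (k : ℕ) : XB s t k * XB s t k = 1 := by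
  induction k with
  | zero => exact ht
  | succ k ih =>
    rw [XB]
    calc s k * XB s t k * (s k)⁻¹ * (s k * XB s t k * (s k)⁻¹)
        = s k * (XB s t k * XB s t k) * (s k)⁻¹ := by group
      _ = 1 := by rw [ih]; group

theorem XB_inv (ht : t * t = 1) (k : ℕ) : (XB s t k)⁻¹ = XB s t k :=
  inv_eq_of_mul_eq_one_left (XB_sq ht k)

/-- the images of the generators of the free group -/
def yy (K : ℕ) (t : G) (s : ℕ → G) (u : G) : ℕ → G
  | 0 => UU K t s u
  | 1 => t * UU K t s u * t⁻¹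
  | k + 2 => if k ≤ K then t * XB s t (k + 1) else t

theorem yy_le {k : ℕ} (h : k ≤ K) : yy K t s u (k + 2) = t * XB s t (k + 1) := if_pos h
theorem yy_gt {k : ℕ} (h : K < k) : yy K t s u (k + 2) = t := if_neg (by omega)
theorem yy_0 : yy K t s u 0 = UU K t s u := rfl
theorem yy_1 : yy K t s u 1 = t * UU K t s u * t⁻¹ := rfl

theorem CC.compat0 (h : CC K t s u) (ht : t * t = 1) (f : FreeGroup ℕ →* G)
    (hf : ∀ k, f (FreeGroup.of k) = yy K t s u k) (k : ℕ) :
    f (eA0 (FreeGroup.of k)) = s 0 * f (FreeGroup.of k) * (s 0)⁻¹ := by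
  have e1 : XB s t 1 = s 0 * t * (s 0)⁻¹ := rfl
  have e2 : (XB s t 1)⁻¹ = XB s t 1 := XB_inv ht 1
  have e3 : s 0 * UU K t s u = UU K t s u * s 0 := (h.U_s 0 (by omega)).eq
  have ht' : t⁻¹ = t := inv_eq_of_mul_eq_one_left ht
  have hy2 : yy K t s u 2 = t * XB s t 1 := yy_le (k := 0) (by omega)
  rcases k with _ | _ | _ | k
  · rw [eA0_0, hf, yy_0, e3, mul_inv_cancel_right]
  · change f (eA0 (FreeGroup.of 1)) = s 0 * f (FreeGroup.of 1) * (s 0)⁻¹
    rw [eA0_1, map_mul, map_mul, map_inv, hf, hf, hy2, yy_1]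
    obtain ⟨U, hU⟩ : ∃ U, U = UU K t s u := ⟨_, rfl⟩
    rw [← hU] at e3 ⊢
    have e4 : U * s 0 = s 0 * U := e3.symm
    calc (t * XB s t 1)⁻¹ * (t * U * t⁻¹) * (t * XB s t 1)
        = (XB s t 1)⁻¹ * U * XB s t 1 := by group
      _ = XB s t 1 * U * (XB s t 1)⁻¹ := by rw [e2]
      _ = s 0 * t * (s 0)⁻¹ * (U * s 0) * t⁻¹ * (s 0)⁻¹ := by rw [e1]; group
      _ = s 0 * t * (s 0)⁻¹ * (s 0 * U) * t⁻¹ * (s 0)⁻¹ := by rw [e4]
      _ = s 0 * (t * U * t⁻¹) * (s 0)⁻¹ := by group
  · change f (eA0 (FreeGroup.of 2)) = s 0 * f (FreeGroup.of 2) * (s 0)⁻¹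
    have e5 := h.bb.X_conj 0 (by omega)
    change s 0 * XB s t 1 * (s 0)⁻¹ = (XB s t 1)⁻¹ * t * XB s t 1 at e5
    rw [eA0_2, hf, hy2]
    symm
    calc s 0 * (t * XB s t 1) * (s 0)⁻¹ = (s 0 * t * (s 0)⁻¹) * (s 0 * XB s t 1 * (s 0)⁻¹) := by
          group
      _ = XB s t 1 * ((XB s t 1)⁻¹ * t * XB s t 1) := by rw [← e1, e5]
      _ = t * XB s t 1 := by group
  · change f (eA0 (FreeGroup.of (k + 3))) = s 0 * f (FreeGroup.of (k + 3)) * (s 0)⁻¹
    rw [eA0_gt (by omega), map_mul, map_inv, hf, hf, hy2]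
    rcases Nat.lt_or_ge K (k + 1) with h5 | h5
    · have e6 : yy K t s u (k + 3) = t := yy_gt (k := k + 1) h5
      rw [e6, mul_inv_rev, e2, inv_mul_cancel_right, e1]
    · have e6 : yy K t s u (k + 3) = t * XB s t (k + 2) := yy_le (k := k + 1) h5
      have e7 : XB s t (k + 2) * s 0 = s 0 * XB s t (k + 2) :=
        (h.bb.X_gt 0 (k + 2) (by omega) (by omega)).eq
      have e8 : XB s t (k + 2) = s 0 * XB s t (k + 2) * (s 0)⁻¹ := by
        rw [← e7, mul_inv_cancel_right]
      rw [e6]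
      calc (t * XB s t 1)⁻¹ * (t * XB s t (k + 2)) = (XB s t 1)⁻¹ * XB s t (k + 2) := by group
        _ = (s 0 * t * (s 0)⁻¹) * XB s t (k + 2) := by rw [e2, e1]
        _ = (s 0 * t * (s 0)⁻¹) * (s 0 * XB s t (k + 2) * (s 0)⁻¹) := by rw [← e8]
        _ = _ := by group

theorem CC.compat1 (h : CC K t s u) (ht : t * t = 1) (f : FreeGroup ℕ →* G)
    (hf : ∀ k, f (FreeGroup.of k) = yy K t s u k) (m : ℕ) (hm : m + 1 ≤ K) (k : ℕ) :
    f (dAut (m + 2) (FreeGroup.of k)) = s (m + 1) * f (FreeGroup.of k) * (s (m + 1))⁻¹ := by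
  have hts : Commute t (s (m + 1)) := h.bb.comm (m + 1) (by omega) hm
  have hU : Commute (UU K t s u) (s (m + 1)) := (h.U_s (m + 1) hm).symm
  have key : ∀ v : G, Commute v (s (m + 1)) → v = s (m + 1) * v * (s (m + 1))⁻¹ := by
    intro v hv
    rw [← hv.eq, mul_inv_cancel_right]
  have ht' : s (m + 1) * t = t * s (m + 1) := hts.symm.eq
  have i1 : (XB s t (m + 1))⁻¹ = XB s t (m + 1) := XB_inv ht _
  have i2 : (XB s t (m + 2))⁻¹ = XB s t (m + 2) := XB_inv ht _
  by_cases k0 : k = 0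
  · subst k0
    rw [dAut_ne (by omega) (by omega), hf, yy_0]
    exact key _ hU
  by_cases k1 : k = 1
  · subst k1
    rw [dAut_ne (by omega) (by omega), hf, yy_1]
    exact key _ ((hts.mul_left hU).mul_left hts.inv_left)
  obtain ⟨k, rfl⟩ : ∃ j, k = j + 2 := ⟨k - 2, by omega⟩
  by_cases k2 : k = m
  · subst k2
    have e1 : yy K t s u (k + 2 + 1) = t * XB s t (k + 2) := yy_le (k := k + 1) hm
    have e2 : XB s t (k + 2) = s (k + 1) * XB s t (k + 1) * (s (k + 1))⁻¹ := rfl
    rw [dAut_self, hf, hf, e1, yy_le (by omega), e2]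
    calc t * (s (k + 1) * XB s t (k + 1) * (s (k + 1))⁻¹)
        = (t * s (k + 1)) * XB s t (k + 1) * (s (k + 1))⁻¹ := by group
      _ = (s (k + 1) * t) * XB s t (k + 1) * (s (k + 1))⁻¹ := by rw [ht']
      _ = _ := by group
  by_cases k3 : k = m + 1
  · subst k3
    have e0 : dAut (m + 2) (FreeGroup.of (m + 1 + 2)) = FreeGroup.of (m + 1 + 2) *
        (FreeGroup.of (m + 2))⁻¹ * FreeGroup.of (m + 1 + 2) := dAut_succ (m + 2)
    have e1 : yy K t s u (m + 1 + 2) = t * XB s t (m + 2) := yy_le (k := m + 1) hm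
    have e2 : yy K t s u (m + 2) = t * XB s t (m + 1) := yy_le (k := m) (by omega)
    have e3 := h.bb.X_conj (m + 1) hm
    rw [e0, map_mul, map_mul, map_inv, hf, hf, e1, e2]
    symm
    calc s (m + 1) * (t * XB s t (m + 2)) * (s (m + 1))⁻¹
        = (s (m + 1) * t) * XB s t (m + 2) * (s (m + 1))⁻¹ := by group
      _ = (t * s (m + 1)) * XB s t (m + 2) * (s (m + 1))⁻¹ := by rw [ht']
      _ = t * (s (m + 1) * XB s t (m + 1 + 1) * (s (m + 1))⁻¹) := by group
      _ = t * ((XB s t (m + 2))⁻¹ * XB s t (m + 1) * XB s t (m + 2)) := by rw [e3]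
      _ = t * (XB s t (m + 2) * (XB s t (m + 1))⁻¹ * XB s t (m + 2)) := by rw [i1, i2]
      _ = t * XB s t (m + 2) * (t * XB s t (m + 1))⁻¹ * (t * XB s t (m + 2)) := by group
  rw [dAut_ne (by omega) (by omega), hf]
  refine key _ ?_
  rcases Nat.lt_or_ge K k with h5 | h5
  · rw [yy_gt h5]
    exact hts
  · rw [yy_le h5]
    refine hts.mul_left ?_
    rcases Nat.lt_or_ge k m with h6 | h6
    · exact h.bb.X_lt (k + 1) (m + 1) (by omega) hm
    · exact h.bb.X_gt (m + 1) (k + 1) (by omega) (by omega)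

theorem CC.compatT (h : CC K t s u) (ht : t * t = 1) (T : MulAut (FreeGroup ℕ))
    (h0 : T (FreeGroup.of 0) = (FreeGroup.of 0)⁻¹ * (FreeGroup.of (K + 2))⁻¹ * FreeGroup.of 1 *
      FreeGroup.of (K + 2) * FreeGroup.of 0)
    (h1 : T (FreeGroup.of 1) = (FreeGroup.of 1)⁻¹ * FreeGroup.of (K + 2) * FreeGroup.of 0 *
      (FreeGroup.of (K + 2))⁻¹ * FreeGroup.of 1)
    (h2 : T (FreeGroup.of (K + 2)) =
      (FreeGroup.of 1)⁻¹ * FreeGroup.of (K + 2) * FreeGroup.of 0)
    (h3 : ∀ k, 2 ≤ k → k ≠ K + 2 → T (FreeGroup.of k) = FreeGroup.of k)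
    (f : FreeGroup ℕ →* G) (hf : ∀ k, f (FreeGroup.of k) = yy K t s u k) (k : ℕ) :
    f (T (FreeGroup.of k)) = u * f (FreeGroup.of k) * u⁻¹ := by
  have hk := h.key
  have hk2 := h.key2
  have hi : (XB s t (K + 1))⁻¹ = XB s t (K + 1) := XB_inv ht _
  have htu : u * t = t * u := h.tu.symm.eq
  have htu' : t⁻¹ * u⁻¹ = u⁻¹ * t⁻¹ := h.tu.inv_inv.eq
  have eK : yy K t s u (K + 2) = t * XB s t (K + 1) := yy_le le_rfl
  by_cases k0 : k = 0
  · subst k0
    rw [h0]
    simp only [map_mul, map_inv, hf]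
    rw [yy_0, yy_1, eK, hk2]
    group
  by_cases k1 : k = 1
  · subst k1
    rw [h1]
    simp only [map_mul, map_inv, hf]
    rw [yy_0, yy_1, eK]
    obtain ⟨X, hX⟩ : ∃ X, X = XB s t (K + 1) := ⟨_, rfl⟩
    obtain ⟨U, hU⟩ : ∃ U, U = UU K t s u := ⟨_, rfl⟩
    rw [← hX, ← hU] at hk2 hk
    rw [← hX] at hi
    rw [← hX, ← hU]
    symm
    calc u * (t * U * t⁻¹) * u⁻¹ = (u * t) * U * (t⁻¹ * u⁻¹) := by group
      _ = (t * u) * U * (u⁻¹ * t⁻¹) := by rw [htu, htu']
      _ = t * (u * U * u⁻¹) * t⁻¹ := by group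
      _ = t * ((U⁻¹ * X * U)⁻¹ * U * (U⁻¹ * X * U)) * t⁻¹ := by rw [hk2]
      _ = t * U⁻¹ * X⁻¹ * U * X * U * t⁻¹ := by group
      _ = t * U⁻¹ * X * U * X⁻¹ * U * t⁻¹ := by rw [hi]
      _ = _ := by group
  obtain ⟨k, rfl⟩ : ∃ j, k = j + 2 := ⟨k - 2, by omega⟩
  by_cases k2 : k = K
  · subst k2
    rw [h2]
    simp only [map_mul, map_inv, hf]
    rw [yy_0, yy_1, eK]
    obtain ⟨X, hX⟩ : ∃ X, X = XB s t (k + 1) := ⟨_, rfl⟩
    obtain ⟨U, hU⟩ : ∃ U, U = UU k t s u := ⟨_, rfl⟩
    rw [← hX, ← hU] at hk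
    rw [← hX, ← hU]
    symm
    calc u * (t * X) * u⁻¹ = (u * t) * X * u⁻¹ := by group
      _ = (t * u) * X * u⁻¹ := by rw [htu]
      _ = t * (u * X * u⁻¹) := by group
      _ = t * (U⁻¹ * X * U) := by rw [hk]
      _ = _ := by group
  rw [h3 _ (by omega) (by omega), hf]
  have h4 : Commute (yy K t s u (k + 2)) u := by
    rcases Nat.lt_or_ge K k with h5 | h5
    · rw [yy_gt h5]
      exact h.tu
    · rw [yy_le h5]
      exact h.tu.mul_left (h.X_u (k + 1) (by omega)).symm
  rw [← h4.eq, mul_inv_cancel_right]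

end grp

/-- the diagram symmetry -/
theorem exists_swapBa (K : ℕ) (hK : 1 ≤ K) : ∃ R : MulAut (Artin (tBa (K + 3))), R * R = 1 ∧
    R (gN (tBa (K + 3)) 0) = gN (tBa (K + 3)) 1 ∧ R (gN (tBa (K + 3)) 1) = gN (tBa (K + 3)) 0 ∧
    ∀ k, 2 ≤ k → k < K + 3 → R (gN (tBa (K + 3)) k) = gN (tBa (K + 3)) k := by
  let e : Equiv.Perm (Fin (K + 3)) := Equiv.swap ⟨0, by omega⟩ ⟨1, by omega⟩
  have he0 : e ⟨0, by omega⟩ = ⟨1, by omega⟩ := Equiv.swap_apply_left _ _
  have he1 : e ⟨1, by omega⟩ = ⟨0, by omega⟩ := Equiv.swap_apply_right _ _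
  have he : ∀ k (_ : 2 ≤ k) (hk : k < K + 3), e ⟨k, hk⟩ = ⟨k, hk⟩ := by
    intro k hk hk'
    refine Equiv.swap_apply_of_ne_of_ne ?_ ?_
    · rw [Ne, Fin.ext_iff]; simp only; omega
    · rw [Ne, Fin.ext_iff]; simp only; omega
  obtain ⟨R, hR⟩ := exists_rAut (tBa (K + 3)) e (by
    intro i j
    have hr : ∀ i : Fin (K + 3), (e i).1 = if i.1 = 0 then 1 else if i.1 = 1 then 0 else i.1 := by
      rintro ⟨i, hi⟩
      rcases i with _ | _ | i
      · rw [he0]
        rfl
      · change (e ⟨1, hi⟩).1 = _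
        rw [he1]
        rfl
      · rw [he (i + 2) (by omega) hi]
        simp
    have hi' := hr i
    have hj' := hr j
    rw [tBa_val, tBa_val]
    obtain ⟨a, ha⟩ : ∃ a, a = (e i).1 := ⟨_, rfl⟩
    obtain ⟨b, hb⟩ : ∃ b, b = (e j).1 := ⟨_, rfl⟩
    rw [← ha] at hi' ⊢
    rw [← hb] at hj' ⊢
    split_ifs at hi' hj' <;> split_ifs <;> first | rfl | omega)
  refine ⟨R, ?_, ?_, ?_, ?_⟩
  · have h1 : (R * R).toMonoidHom = (1 : MulAut (Artin (tBa (K + 3)))).toMonoidHom := by
      refine hom_ext fun i => ?_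
      change R (R (gen _ i)) = gen _ i
      rw [hR, hR]
      congr 1
      have h2 : (e * e) i = i := by
        rw [Equiv.swap_mul_self]
        rfl
      exact h2
    exact MulEquiv.toMonoidHom_injective h1
  · rw [gN_lt _ (show 0 < K + 3 by omega), gN_lt _ (show 1 < K + 3 by omega), hR, he0]
  · rw [gN_lt _ (show 0 < K + 3 by omega), gN_lt _ (show 1 < K + 3 by omega), hR, he1]
  · intro k hk hk'
    rw [gN_lt _ hk', hR, he k hk hk']

theorem hierL_tBa' (K : ℕ) (hK : 1 ≤ K) (hB : HierL (Artin (tB (K + 2)))) :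
    HierL (Artin (tBa (K + 3))) := by
  obtain ⟨T, h0, h1, h2, h3, hTc, hT4⟩ := exists_T K hK
  have hE : Ch (K + 1) eg := by
    constructor
    · intro i j hij hj
      exact eg_comm hij
    · intro i hi
      exact eg_braid i
  obtain ⟨φ, hφ, hφ'⟩ := exists_homR (s := eg) (u := T) hE hTc hT4
  have hA := BA_tBa hK
  -- the group with the involution
  obtain ⟨R, hR2, hR0, hR1, hR⟩ := exists_swapBa K hK
  obtain ⟨H, _, ι, t, hι, ht, hc⟩ := exists_hol R hR2
  have ht' : t⁻¹ = t := inv_eq_of_mul_eq_one_left ht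
  have hcomm : ∀ k, 2 ≤ k → k < K + 3 → Commute t (ι (gN (tBa (K + 3)) k)) := by
    intro k hk hk'
    change t * ι (gN (tBa (K + 3)) k) = ι (gN (tBa (K + 3)) k) * t
    have h4 := hc (gN (tBa (K + 3)) k)
    rw [hR k hk hk'] at h4
    rw [← h4, inv_mul_cancel_right, h4]
  obtain ⟨s, hs⟩ : ∃ s : ℕ → H, s = fun i => ι (gN (tBa (K + 3)) (i + 1)) := ⟨_, rfl⟩
  obtain ⟨a, ha⟩ : ∃ a : H, a = ι (gN (tBa (K + 3)) 0) := ⟨_, rfl⟩
  obtain ⟨u, hu⟩ : ∃ u : H, u = ι (gN (tBa (K + 3)) (K + 2)) := ⟨_, rfl⟩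
  have has : a = t * s 0 * t := by
    have h4 := hc (gN (tBa (K + 3)) 1)
    rw [hR1, ht'] at h4
    rw [ha, hs]
    exact h4.symm
  have hC : CC K t s u := by
    refine ⟨⟨⟨?_, ?_⟩, ?_, ?_⟩, ?_, ?_, ?_⟩
    · intro i j hij hj
      rw [hs]
      exact (hA.ch.comm i j hij hj).map ι
    · intro i hi
      rw [hs]
      have h4 := congrArg ι (hA.ch.braid i hi)
      simpa only [map_mul] using h4
    · intro i hi hi'
      rw [hs]
      exact hcomm (i + 1) (by omega) (by omega)
    · have h4 : a * s 0 = s 0 * a := by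
        rw [ha, hs]
        exact ((hA.ca 0 (by omega) (by omega)).map ι).eq
      calc t * s 0 * t * s 0 = a * s 0 := by rw [has]
        _ = s 0 * a := h4
        _ = s 0 * t * s 0 * t := by rw [has]; group
    · intro i hi
      rw [hs, hu]
      exact (hA.comm i hi).map ι
    · rw [hs, hu]
      have h4 := congrArg ι hA.four
      simpa only [map_mul] using h4
    · rw [hu]
      exact hcomm (K + 2) (by omega) (by omega)
  -- the homomorphism to the semidirect product
  have hφ0 : φ (gN (rB K) 0) (FreeGroup.of 2) = FreeGroup.of 2 := by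
    rw [hφ 0 (by omega)]
    exact eA0_2
  have hA' : BA K (SemidirectProduct.inl (FreeGroup.of 2) * SemidirectProduct.inr (gN (rB K) 0) :
      FreeGroup ℕ ⋊[φ] Artin (rB K)) (fun i => SemidirectProduct.inr (gN (rB K) i))
      (SemidirectProduct.inr (gN (rB K) (K + 1))) := by
    refine ⟨⟨?_, ?_⟩, ?_, ?_, ?_, ?_, ?_⟩
    · intro i j hij hj
      exact ((Ch_rB K).comm i j hij hj).map (SemidirectProduct.inr : _ →* _ ⋊[φ] _)
    · intro i hi
      have h4 := congrArg (SemidirectProduct.inr : _ →* FreeGroup ℕ ⋊[φ] Artin (rB K))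
        ((Ch_rB K).braid i hi)
      simpa only [map_mul] using h4
    · intro i hi
      exact (comm_rB K i hi).map (SemidirectProduct.inr : _ →* _ ⋊[φ] _)
    · have h4 := congrArg (SemidirectProduct.inr : _ →* FreeGroup ℕ ⋊[φ] Artin (rB K))
        (four_rB K)
      simpa only [map_mul] using h4
    · have e1 : φ (gN (rB K) 1) (FreeGroup.of 2) = FreeGroup.of 3 := by
        rw [hφ 1 hK]
        exact dAut_self 2
      have e2 : φ (gN (rB K) 0) (FreeGroup.of 3) = (FreeGroup.of 2)⁻¹ * FreeGroup.of 3 := by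
        rw [hφ 0 (by omega)]
        exact eA0_gt (by omega)
      apply SemidirectProduct.ext
      · simp [hφ0, e1, e2]
      · have h4 := (Ch_rB K).braid 0 (by omega)
        simpa using h4
    · intro i hi hi1
      have e1 : φ (gN (rB K) i) (FreeGroup.of 2) = FreeGroup.of 2 := by
        rcases i with _ | _ | i
        · exact hφ0
        · exact absurd rfl hi1
        · rw [hφ (i + 2) hi]
          change dAut (i + 1 + 2) (FreeGroup.of 2) = _
          exact dAut_ne (by omega) (by omega)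
      have e2 : gN (rB K) 0 * gN (rB K) i = gN (rB K) i * gN (rB K) 0 := by
        rcases i with _ | _ | i
        · rfl
        · exact absurd rfl hi1
        · exact ((Ch_rB K).comm 0 (i + 2) (by omega) (by omega)).eq
      change _ * _ = _ * _
      apply SemidirectProduct.ext
      · simp [e1]
      · simpa using e2
    · have e1 : φ (gN (rB K) (K + 1)) (FreeGroup.of 2) = FreeGroup.of 2 := by
        rw [hφ']
        exact h3 2 (by omega) (by omega)
      have e2 : gN (rB K) 0 * gN (rB K) (K + 1) = gN (rB K) (K + 1) * gN (rB K) 0 :=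
        (comm_rB K 0 (by omega)).symm.eq
      change _ * _ = _ * _
      apply SemidirectProduct.ext
      · simp [e1]
      · simpa using e2
  obtain ⟨f, hf0, hfs, hfu⟩ := exists_homBa hK hA'
  obtain ⟨f2, hf2, hf2'⟩ := exists_homR hC.bb.ch hC.comm hC.four
  let f1 : FreeGroup ℕ →* H := FreeGroup.lift (yy K t s u)
  have hf1 : ∀ k, f1 (FreeGroup.of k) = yy K t s u k := fun k => FreeGroup.lift_apply_of
  refine hierL_sd_gen' ι hι φ (hierL_rB K hB) f f1 f2 (fun i k => ?_) fun i => ?_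
  · rw [← gN_val]
    have hi := i.2
    rcases Nat.lt_or_ge K i.1 with h | h
    · have h5 : i.1 = K + 1 := by omega
      rw [h5, hφ', hf2', hC.compatT ht T h0 h1 h2 h3 f1 hf1]
    · rw [hφ _ h, hf2 _ h]
      obtain ⟨j, hj⟩ : ∃ j, j = i.1 := ⟨_, rfl⟩
      rw [← hj] at h ⊢
      rcases j with _ | j
      · exact hC.compat0 ht f1 hf1 k
      · exact hC.compat1 ht f1 hf1 j h k
  · rw [← gN_val]
    have hi := i.2
    obtain ⟨j, hj⟩ : ∃ j, j = i.1 := ⟨_, rfl⟩
    rw [← hj] at hi ⊢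
    rcases j with _ | j
    · have e1 : (SemidirectProduct.inl (FreeGroup.of 2) * SemidirectProduct.inr (gN (rB K) 0) :
          FreeGroup ℕ ⋊[φ] Artin (rB K)).left = FreeGroup.of 2 := by simp
      have e2 : (SemidirectProduct.inl (FreeGroup.of 2) * SemidirectProduct.inr (gN (rB K) 0) :
          FreeGroup ℕ ⋊[φ] Artin (rB K)).right = gN (rB K) 0 := by simp
      rw [hf0, e1, e2, hf1, hf2 0 (by omega), ← ha, has]
      have e3 : yy K t s u 2 = t * XB s t 1 := yy_le (k := 0) (by omega)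
      have e4 : XB s t 1 = s 0 * t * (s 0)⁻¹ := rfl
      rw [e3, e4]
      group
    · rcases Nat.lt_or_ge K j with h | h
      · obtain rfl : j = K + 1 := by omega
        rw [hfu, ← hu]
        change f1 1 * f2 (gN (rB K) (K + 1)) = u
        rw [hf2', map_one, one_mul]
      · rw [hfs j h]
        change f1 1 * f2 (gN (rB K) j) = _
        rw [hf2 j h, map_one, one_mul, hs]

/-- The affine type `B` with `n` nodes, `4 ≤ n`. -/
theorem hierL_tBa (hA : ∀ n, HierL (Artin (tA n))) (n : ℕ) (hn : 4 ≤ n) :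
    HierL (Artin (tBa n)) := by
  obtain ⟨K, rfl⟩ : ∃ K, n = K + 3 := ⟨n - 3, by omega⟩
  exact hierL_tBa' K (by omega) (hierL_tBn hA (K + 2))

end Pool.Agent.Art
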