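import Pool.Agent.Art.AffA

/-!
# Affine type `C`: `A(C~ n)` is a retract of `F (n + 1) ⋊ A(B n)`
-/

set_option autoImplicit false

namespace Pool.Agent.Art

open Pool.Agent.HL

section grp

variable {G : Type*} [Group G]

/-- the product of the first `k` elements in the reversed order -/
def PR (s : ℕ → G) : ℕ → G
  | 0 => 1
  | k + 1 => s k * PR s k

/-- the Jucys-Murphy elements -/
def JM (r : ℕ → G) (u : G) : ℕ → G
  | 0 => u
  | k + 1 => r k * JM r u k * r k

variable {K : ℕ} {s : ℕ → G} {t u : G}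

theorem Ch.rev (h : Ch (K + 1) s) : Ch (K + 1) (fun i => s (K - i)) := by
  constructor
  · intro i j hij hj
    exact (h.comm (K - j) (K - i) (by omega) (by omega)).symm
  · intro i hi
    have h1 := h.braid (K - (i + 1)) (by omega)
    have h2 : K - (i + 1) + 1 = K - i := by omega
    rw [h2] at h1
    exact h1.symm

theorem PP_rev (s : ℕ → G) (K : ℕ) : ∀ k ≤ K + 1,
    PP s (K + 1) = PP s (K + 1 - k) * PR (fun i => s (K - i)) k := by
  intro k
  induction k with
  | zero => intro _; simp [PR]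
  | succ k ih =>
    intro hk
    have h1 : K + 1 - k = K - k + 1 := by omega
    have h2 : K + 1 - (k + 1) = K - k := by omega
    rw [ih (by omega), h1, h2, PP, PR, mul_assoc]

theorem PR_rev (s : ℕ → G) (K : ℕ) : ∀ k ≤ K + 1,
    PR s (K + 1) = PP (fun i => s (K - i)) k * PR s (K + 1 - k) := by
  intro k
  induction k with
  | zero => intro _; simp [PP]
  | succ k ih =>
    intro hk
    have h1 : K + 1 - k = K - k + 1 := by omega
    have h2 : K + 1 - (k + 1) = K - k := by omega
    rw [ih (by omega), h1, h2, PP, PR, mul_assoc]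

theorem JM_eq (r : ℕ → G) (u : G) (k : ℕ) : JM r u k = PR r k * u * PP r k := by
  induction k with
  | zero => simp [JM, PR, PP]
  | succ k ih =>
    rw [JM, ih, PR, PP]
    simp only [mul_assoc]

/-- `v` commutes with the product. -/
theorem PP_comm_mid {x : ℕ → G} {v : G} {i k : ℕ} (hik : i + 2 ≤ k)
    (h1 : ∀ j < i, Commute v (x j)) (h2 : Commute v (x i * x (i + 1)))
    (h3 : ∀ j, i + 1 < j → j < k → Commute v (x j)) : Commute v (PP x k) := by
  induction k with
  | zero => omega
  | succ k ih =>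
    rcases Nat.lt_or_ge k (i + 2) with h | h
    · obtain rfl : k = i + 1 := by omega
      have h4 : PP x (i + 1 + 1) = PP x i * (x i * x (i + 1)) := by
        rw [PP, PP, mul_assoc]
      rw [h4]
      exact (PP_comm_of i h1).mul_right h2
    · exact (ih h fun j hj hj' => h3 j hj (by omega)).mul_right (h3 k (by omega) (by omega))

/-- the relations of type `B` -/
structure BB (K : ℕ) (u : G) (r : ℕ → G) : Prop where
  ch : Ch (K + 1) r
  comm : ∀ i, 1 ≤ i → i ≤ K → Commute u (r i)
  four : u * r 0 * u * r 0 = r 0 * u * r 0 * u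

variable {r : ℕ → G}

theorem BB.X_lt (h : BB K u r) : ∀ k i, k < i → i ≤ K → Commute (XB r u k) (r i) := by
  intro k
  induction k with
  | zero => intro i hi hi'; exact h.comm i hi hi'
  | succ k ih =>
    intro i hi hi'
    have h1 := h.ch.comm k i hi (by omega)
    exact (h1.mul_left (ih i (by omega) hi')).mul_left h1.inv_left

theorem BB.X_four (h : BB K u r) : ∀ k ≤ K,
    XB r u k * r k * XB r u k * r k = r k * XB r u k * r k * XB r u k := by
  intro k
  induction k with
  | zero => intro _; exact h.four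
  | succ k ih =>
    intro hk
    have h1 := conj_braid (h.ch.braid k (by omega))
    have h2 := conj_comm (a := r k) (h.X_lt k (k + 1) (Nat.lt_succ_self k) hk)
    have h3 := four_conj (r k * r (k + 1)) (ih (by omega))
    rw [h1, h2] at h3
    exact h3

theorem BB.X_gt (h : BB K u r) (i : ℕ) : ∀ k, i + 1 < k → k ≤ K + 1 →
    Commute (XB r u k) (r i) := by
  intro k hk
  induction k with
  | zero => omega
  | succ k ih =>
    intro hk'
    rcases Nat.lt_or_ge (i + 1) k with h0 | h0
    · have h1 := (h.ch.comm i k h0 (by omega)).symm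
      exact (h1.mul_left (ih h0 (by omega))).mul_left h1.inv_left
    · obtain rfl : k = i + 1 := by omega
      exact comm_conj2 (h.ch.braid i (by omega))
        (h.X_lt i (i + 1) (Nat.lt_succ_self i) (by omega))

theorem BB.X_conj (h : BB K u r) (k : ℕ) (hk : k ≤ K) :
    r k * XB r u (k + 1) * (r k)⁻¹ = (XB r u (k + 1))⁻¹ * XB r u k * XB r u (k + 1) := by
  have h := h.X_four k hk
  rw [XB]
  symm
  calc (r k * XB r u k * (r k)⁻¹)⁻¹ * XB r u k * (r k * XB r u k * (r k)⁻¹)
      = r k * (XB r u k)⁻¹ * (r k)⁻¹ * (XB r u k * r k * XB r u k * r k) * (r k)⁻¹ * (r k)⁻¹ := by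
        group
    _ = r k * (XB r u k)⁻¹ * (r k)⁻¹ * (r k * XB r u k * r k * XB r u k) * (r k)⁻¹ * (r k)⁻¹ := by
        rw [h]
    _ = r k * (r k * XB r u k * (r k)⁻¹) * (r k)⁻¹ := by group

theorem BB.X_mid (h : BB K u r) (k : ℕ) (hk : k ≤ K) :
    Commute (r k) (XB r u k * XB r u (k + 1)) := by
  have h1 := h.X_conj k hk
  have h2 : r k * XB r u k = XB r u (k + 1) * r k := by rw [XB, inv_mul_cancel_right]
  have h3 : r k * XB r u (k + 1) = (XB r u (k + 1))⁻¹ * XB r u k * XB r u (k + 1) * r k := by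
    rw [← h1, inv_mul_cancel_right]
  change r k * (XB r u k * XB r u (k + 1)) = XB r u k * XB r u (k + 1) * r k
  calc r k * (XB r u k * XB r u (k + 1)) = (r k * XB r u k) * XB r u (k + 1) := by group
    _ = XB r u (k + 1) * (r k * XB r u (k + 1)) := by rw [h2, mul_assoc]
    _ = _ := by rw [h3]; group

/-- the product of all conjugates commutes with the chain -/
theorem BB.X_all (h : BB K u r) (i : ℕ) (hi : i ≤ K) :
    Commute (r i) (PP (XB r u) (K + 2)) :=
  PP_comm_mid (by omega) (fun j hj => (h.X_lt j i hj hi).symm) (h.X_mid i hi)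
    fun j hj hj' => (h.X_gt i j hj (by omega)).symm

theorem BB.J_lt (h : BB K u r) : ∀ k i, k < i → i ≤ K → Commute (JM r u k) (r i) := by
  intro k
  induction k with
  | zero => intro i hi hi'; exact h.comm i hi hi'
  | succ k ih =>
    intro i hi hi'
    have h1 := h.ch.comm k i hi (by omega)
    exact (h1.mul_left (ih i (by omega) hi')).mul_left h1

theorem BB.J_four (h : BB K u r) : ∀ k ≤ K,
    JM r u k * r k * JM r u k * r k = r k * JM r u k * r k * JM r u k := by
  intro k
  induction k with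
  | zero => intro _; exact h.four
  | succ k ih =>
    intro hk
    have hb := h.ch.braid k (by omega)
    have hc := (h.J_lt k (k + 1) (Nat.lt_succ_self k) hk).eq
    have h4 := ih (by omega)
    obtain ⟨J, hJ⟩ : ∃ J, J = JM r u k := ⟨_, rfl⟩
    obtain ⟨a, ha⟩ : ∃ a, a = r k := ⟨_, rfl⟩
    obtain ⟨b, hbb⟩ : ∃ b, b = r (k + 1) := ⟨_, rfl⟩
    rw [JM]
    rw [← ha, ← hbb] at hb
    rw [← hJ, ← hbb] at hc
    rw [← hJ, ← ha] at h4
    rw [← hJ, ← ha, ← hbb]
    calc a * J * a * b * (a * J * a) * b = a * J * (a * b * a) * J * a * b := by group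
      _ = a * J * (b * a * b) * J * a * b := by rw [hb]
      _ = a * (J * b) * a * b * J * a * b := by group
      _ = a * (b * J) * a * b * J * a * b := by rw [hc]
      _ = a * b * J * a * (b * J) * a * b := by group
      _ = a * b * J * a * (J * b) * a * b := by rw [hc]
      _ = a * b * (J * a * J) * (b * a * b) := by group
      _ = a * b * (J * a * J) * (a * b * a) := by rw [hb]
      _ = a * b * (J * a * J * a) * b * a := by group
      _ = a * b * (a * J * a * J) * b * a := by rw [h4]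
      _ = (a * b * a) * J * a * (J * b) * a := by group
      _ = (b * a * b) * J * a * (b * J) * a := by rw [hb, hc]
      _ = b * a * (b * J) * a * b * J * a := by group
      _ = b * a * (J * b) * a * b * J * a := by rw [hc]
      _ = b * a * J * (b * a * b) * J * a := by group
      _ = b * a * J * (a * b * a) * J * a := by rw [hb]
      _ = b * (a * J * a) * b * (a * J * a) := by group

theorem BB.J_gt (h : BB K u r) (i : ℕ) : ∀ k, i + 1 < k → k ≤ K + 1 →
    Commute (JM r u k) (r i) := by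
  intro k hk
  induction k with
  | zero => omega
  | succ k ih =>
    intro hk'
    rcases Nat.lt_or_ge (i + 1) k with h0 | h0
    · have h1 := (h.ch.comm i k h0 (by omega)).symm
      exact (h1.mul_left (ih h0 (by omega))).mul_left h1
    · obtain rfl : k = i + 1 := by omega
      have hb := h.ch.braid i (by omega)
      have hc := (h.J_lt i (i + 1) (Nat.lt_succ_self i) (by omega)).eq
      change JM r u (i + 1 + 1) * r i = r i * JM r u (i + 1 + 1)
      rw [JM, JM]
      obtain ⟨J, hJ⟩ : ∃ J, J = JM r u i := ⟨_, rfl⟩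
      obtain ⟨a, ha⟩ : ∃ a, a = r i := ⟨_, rfl⟩
      obtain ⟨b, hbb⟩ : ∃ b, b = r (i + 1) := ⟨_, rfl⟩
      rw [← ha, ← hbb] at hb
      rw [← hJ, ← hbb] at hc
      rw [← hJ, ← ha, ← hbb]
      calc b * (a * J * a) * b * a = b * a * J * (a * b * a) := by group
        _ = b * a * J * (b * a * b) := by rw [hb]
        _ = b * a * (J * b) * a * b := by group
        _ = b * a * (b * J) * a * b := by rw [hc]
        _ = (b * a * b) * J * a * b := by group
        _ = (a * b * a) * J * a * b := by rw [hb]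
        _ = a * (b * (a * J * a) * b) := by group

theorem BB.J_mid (h : BB K u r) (k : ℕ) (hk : k ≤ K) :
    Commute (r k) (JM r u k * JM r u (k + 1)) := by
  have h1 := h.J_four k hk
  change r k * (JM r u k * (r k * JM r u k * r k)) = JM r u k * (r k * JM r u k * r k) * r k
  calc r k * (JM r u k * (r k * JM r u k * r k)) = (r k * JM r u k * r k * JM r u k) * r k := by
        group
    _ = (JM r u k * r k * JM r u k * r k) * r k := by rw [h1]
    _ = _ := by group

theorem BB.J_all (h : BB K u r) (i : ℕ) (hi : i ≤ K) :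
    Commute (r i) (PP (JM r u) (K + 2)) :=
  PP_comm_mid (by omega) (fun j hj => (h.J_lt j i hj hi).symm) (h.J_mid i hi)
    fun j hj hj' => (h.J_gt i j hj (by omega)).symm

theorem BB.J_u (h : BB K u r) : ∀ k ≤ K + 1, Commute u (JM r u k) := by
  intro k
  induction k with
  | zero => intro _; exact Commute.refl u
  | succ k ih =>
    intro hk
    rcases Nat.eq_zero_or_pos k with rfl | h0
    · change u * (r 0 * u * r 0) = r 0 * u * r 0 * u
      rw [← h.four]
      group
    · have h1 := h.comm k h0 (by omega)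
      exact (h1.mul_right (ih (by omega))).mul_right h1

theorem BB.J_all_u (h : BB K u r) : Commute u (PP (JM r u) (K + 2)) :=
  PP_comm_of _ fun i hi => h.J_u i (by omega)

theorem JM_comm {v : G} (k : ℕ) (hu : Commute v u) (h : ∀ i < k, Commute v (r i)) :
    Commute v (JM r u k) := by
  induction k with
  | zero => exact hu
  | succ k ih =>
    exact ((h k (by omega)).mul_right (ih fun i hi => h i (by omega))).mul_right (h k (by omega))

/-- the relations of the affine type `C` -/
structure CC (K : ℕ) (t : G) (s : ℕ → G) (u : G) : Prop where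
  bb : BB K t s
  comm : ∀ i < K, Commute u (s i)
  four : u * s K * u * s K = s K * u * s K * u
  tu : Commute t u

theorem CC.bb' (h : CC K t s u) : BB K u (fun i => s (K - i)) := by
  constructor
  · exact h.bb.ch.rev
  · intro i hi hi'
    exact h.comm (K - i) (by omega)
  · exact h.four

/-- the element of the second puncture -/
def UU (K : ℕ) (t : G) (s : ℕ → G) (u : G) : G :=
  (PP (XB s t) (K + 2))⁻¹ * (PP (JM (fun i => s (K - i)) u) (K + 2))⁻¹

theorem CC.Z_s (h : CC K t s u) (i : ℕ) (hi : i ≤ K) :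
    Commute (s i) (PP (JM (fun i => s (K - i)) u) (K + 2)) := by
  have h1 := h.bb'.J_all (K - i) (by omega)
  have h2 : K - (K - i) = i := by omega
  simp only [h2] at h1
  exact h1

theorem CC.U_s (h : CC K t s u) (i : ℕ) (hi : i ≤ K) : Commute (s i) (UU K t s u) :=
  (h.bb.X_all i hi).inv_right.mul_right (h.Z_s i hi).inv_right

theorem CC.X_u (h : CC K t s u) : ∀ k ≤ K, Commute u (XB s t k) := by
  intro k
  induction k with
  | zero => intro _; exact h.tu.symm
  | succ k ih =>
    intro hk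
    have h1 := h.comm k (by omega)
    exact (h1.mul_right (ih (by omega))).mul_right h1.inv_right

theorem CC.XU (h : CC K t s u) : Commute u (XB s t (K + 1) * UU K t s u) := by
  have h1 : XB s t (K + 1) * UU K t s u =
      (PP (XB s t) (K + 1))⁻¹ * (PP (JM (fun i => s (K - i)) u) (K + 2))⁻¹ := by
    have h2 : PP (XB s t) (K + 2) = PP (XB s t) (K + 1) * XB s t (K + 1) := rfl
    rw [UU, h2]
    group
  rw [h1]
  exact (PP_comm_of _ fun i hi => h.X_u i (by omega)).inv_right.mul_right h.bb'.J_all_u.inv_right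

theorem XB_eq_PR (s : ℕ → G) (t : G) (k : ℕ) : XB s t k = PR s k * t * (PR s k)⁻¹ := by
  induction k with
  | zero => simp [XB, PR]
  | succ k ih => rw [XB, ih, PR]; group

theorem BB.A_eq (h : BB K t s) : ∀ k ≤ K + 1,
    PP (XB s t) k * XB s t k * (PP (XB s t) k)⁻¹ = (PP s k)⁻¹ * t * PP s k := by
  intro k
  induction k with
  | zero => intro _; simp [PP, XB]
  | succ k ih =>
    intro hk
    have h1 : Commute (s k) (PP (XB s t) k) :=
      PP_comm_of k fun j hj => (h.X_lt j k hj (by omega)).symm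
    have h2 : s k * (XB s t k * XB s t (k + 1)) = XB s t k * XB s t (k + 1) * s k :=
      (h.X_mid k (by omega)).eq
    have h3 : XB s t (k + 1) = s k * XB s t k * (s k)⁻¹ := rfl
    have h4 : XB s t k * XB s t (k + 1) * (XB s t k)⁻¹ = (s k)⁻¹ * XB s t k * s k := by
      have h5 : XB s t k * XB s t (k + 1) = (s k)⁻¹ * (XB s t k * XB s t (k + 1)) * s k := by
        rw [mul_assoc, ← h2, inv_mul_cancel_left]
      rw [h5, h3]
      group
    obtain ⟨P, hP⟩ : ∃ P, P = PP (XB s t) k := ⟨_, rfl⟩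
    have h6 : PP (XB s t) (k + 1) = P * XB s t k := by rw [hP]; rfl
    rw [← hP] at h1 ih
    have h7 : P * (s k)⁻¹ = (s k)⁻¹ * P := h1.symm.inv_right.eq
    have h8 : s k * P⁻¹ = P⁻¹ * s k := h1.inv_right.eq
    have h9 : PP s (k + 1) = PP s k * s k := rfl
    rw [h6, h9]
    calc P * XB s t k * XB s t (k + 1) * (P * XB s t k)⁻¹
        = P * (XB s t k * XB s t (k + 1) * (XB s t k)⁻¹) * P⁻¹ := by group
      _ = P * ((s k)⁻¹ * XB s t k * s k) * P⁻¹ := by rw [h4]
      _ = (P * (s k)⁻¹) * XB s t k * (s k * P⁻¹) := by group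
      _ = ((s k)⁻¹ * P) * XB s t k * (P⁻¹ * s k) := by rw [h7, h8]
      _ = (s k)⁻¹ * (P * XB s t k * P⁻¹) * s k := by group
      _ = (s k)⁻¹ * ((PP s k)⁻¹ * t * PP s k) * s k := by rw [ih (by omega)]
      _ = _ := by group

/-- the relation of the second puncture -/
theorem CC.key (h : CC K t s u) :
    u * XB s t (K + 1) * u⁻¹ = (UU K t s u)⁻¹ * XB s t (K + 1) * UU K t s u := by
  have hA := h.bb.A_eq (K + 1) le_rfl
  have hD := PP_rev s K (K + 1) le_rfl
  have hC := PR_rev s K (K + 1) le_rfl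
  rw [Nat.sub_self] at hD hC
  have hD' : PP s (K + 1) = PR (fun i => s (K - i)) (K + 1) := by rw [hD]; simp [PP]
  have hC' : PR s (K + 1) = PP (fun i => s (K - i)) (K + 1) := by rw [hC]; simp [PR]
  have hM := JM_eq (fun i => s (K - i)) u (K + 1)
  rw [← hD', ← hC'] at hM
  have hX := XB_eq_PR s t (K + 1)
  have hZD : Commute (PP s (K + 1)) (PP (JM (fun i => s (K - i)) u) (K + 2)) :=
    (PP_comm_of _ fun i hi => (h.Z_s i (by omega)).symm).symm
  have hZC : Commute (PR s (K + 1)) (PP (JM (fun i => s (K - i)) u) (K + 2)) := by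
    rw [hC']
    exact (PP_comm_of _ fun i hi => (h.Z_s (K - i) (by omega)).symm).symm
  have hZu : Commute u (PP (JM (fun i => s (K - i)) u) (K + 2)) := h.bb'.J_all_u
  have hZM : Commute (JM (fun i => s (K - i)) u (K + 1))
      (PP (JM (fun i => s (K - i)) u) (K + 2)) := by
    rw [hM]
    exact (hZD.mul_left hZu).mul_left hZC
  have hZ : PP (JM (fun i => s (K - i)) u) (K + 2) =
      PP (JM (fun i => s (K - i)) u) (K + 1) * JM (fun i => s (K - i)) u (K + 1) := rfl
  have hZt : Commute t (PP (JM (fun i => s (K - i)) u) (K + 1)) := by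
    refine PP_comm_of _ fun i hi => JM_comm i h.tu fun j hj => ?_
    exact h.bb.comm (K - j) (by omega) (by omega)
  have hY : PP (XB s t) (K + 2) = PP (XB s t) (K + 1) * XB s t (K + 1) := rfl
  have hU : UU K t s u =
      (PP (XB s t) (K + 2))⁻¹ * (PP (JM (fun i => s (K - i)) u) (K + 2))⁻¹ := rfl
  obtain ⟨Z, hZ0⟩ : ∃ Z, Z = PP (JM (fun i => s (K - i)) u) (K + 2) := ⟨_, rfl⟩
  obtain ⟨Z', hZ'⟩ : ∃ Z', Z' = PP (JM (fun i => s (K - i)) u) (K + 1) := ⟨_, rfl⟩
  obtain ⟨M, hM0⟩ : ∃ M, M = JM (fun i => s (K - i)) u (K + 1) := ⟨_, rfl⟩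
  obtain ⟨D, hD0⟩ : ∃ D, D = PP s (K + 1) := ⟨_, rfl⟩
  obtain ⟨C, hC0⟩ : ∃ C, C = PR s (K + 1) := ⟨_, rfl⟩
  obtain ⟨P, hP0⟩ : ∃ P, P = PP (XB s t) (K + 1) := ⟨_, rfl⟩
  obtain ⟨X, hX0⟩ : ∃ X, X = XB s t (K + 1) := ⟨_, rfl⟩
  rw [← hZ0, ← hZ', ← hM0] at hZ
  rw [← hZ0, ← hM0] at hZM
  rw [← hZ0, ← hD0] at hZD
  rw [← hM0, ← hD0, ← hC0] at hM
  rw [← hZ'] at hZt
  rw [← hX0, ← hC0] at hX
  rw [← hP0, ← hX0, ← hD0] at hA
  rw [← hP0, ← hX0] at hY
  rw [hY, ← hZ0] at hU
  rw [hU, ← hX0]
  have e1 : Z = M * Z' := by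
    have h1 : M * Z = Z * M := hZM.eq
    have h2 : M * Z' * M = Z * M := by rw [mul_assoc, ← hZ, h1]
    exact (mul_right_cancel h2).symm
  have e2 : Z * D⁻¹ = u * C * Z' := by
    have h1 : Z * D⁻¹ = D⁻¹ * Z := hZD.symm.inv_right.eq
    rw [h1, e1, hM]
    group
  symm
  calc ((P * X)⁻¹ * Z⁻¹)⁻¹ * X * ((P * X)⁻¹ * Z⁻¹) = Z * (P * X * P⁻¹) * Z⁻¹ := by group
    _ = Z * (D⁻¹ * t * D) * Z⁻¹ := by rw [hA]
    _ = (Z * D⁻¹) * t * (Z * D⁻¹)⁻¹ := by group
    _ = (u * C * Z') * t * (u * C * Z')⁻¹ := by rw [e2]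
    _ = u * C * (Z' * t) * Z'⁻¹ * C⁻¹ * u⁻¹ := by group
    _ = u * C * (t * Z') * Z'⁻¹ * C⁻¹ * u⁻¹ := by rw [hZt.eq]
    _ = u * (C * t * C⁻¹) * u⁻¹ := by group
    _ = u * X * u⁻¹ := by rw [hX]

theorem CC.key2 (h : CC K t s u) : u * UU K t s u * u⁻¹ =
    ((UU K t s u)⁻¹ * XB s t (K + 1) * UU K t s u)⁻¹ * UU K t s u *
      ((UU K t s u)⁻¹ * XB s t (K + 1) * UU K t s u) := by
  have h1 := h.XU.eq
  have h2 := h.key
  obtain ⟨X, hX0⟩ : ∃ X, X = XB s t (K + 1) := ⟨_, rfl⟩
  obtain ⟨U, hU0⟩ : ∃ U, U = UU K t s u := ⟨_, rfl⟩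
  rw [← hX0, ← hU0] at h1
  rw [← hX0, ← hU0] at h2
  rw [← hX0, ← hU0]
  calc u * U * u⁻¹ = (u * X * u⁻¹)⁻¹ * (u * (X * U)) * u⁻¹ := by group
    _ = (U⁻¹ * X * U)⁻¹ * (X * U * u) * u⁻¹ := by rw [h1, h2]
    _ = (U⁻¹ * X * U)⁻¹ * U * (U⁻¹ * X * U) := by group

/-- the images of the generators of the free group -/
def xx (K : ℕ) (t : G) (s : ℕ → G) (u : G) (k : ℕ) : G :=
  if k ≤ K + 1 then XB s t k else if k = K + 2 then UU K t s u else 1

theorem xx_le {k : ℕ} (h : k ≤ K + 1) : xx K t s u k = XB s t k := if_pos h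
theorem xx_eq : xx K t s u (K + 2) = UU K t s u := by
  rw [xx, if_neg (by omega), if_pos rfl]
theorem xx_gt {k : ℕ} (h : K + 2 < k) : xx K t s u k = 1 := by
  rw [xx, if_neg (by omega), if_neg (by omega)]

theorem CC.compat (h : CC K t s u) (f : FreeGroup ℕ →* G)
    (hf : ∀ k, f (FreeGroup.of k) = xx K t s u k) (i : ℕ) (hi : i ≤ K) (k : ℕ) :
    f (bAut i (FreeGroup.of k)) = s i * f (FreeGroup.of k) * (s i)⁻¹ := by
  by_cases h1 : k = i
  · subst h1
    rw [bAut_self, hf, hf, xx_le (by omega), xx_le (by omega)]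
    rfl
  by_cases h2 : k = i + 1
  · subst h2
    rw [bAut_succ, map_mul, map_mul, map_inv, hf, hf, xx_le (by omega), xx_le (by omega),
      h.bb.X_conj i hi]
  rw [bAut_ne h1 h2, hf]
  have h3 : Commute (xx K t s u k) (s i) := by
    rcases Nat.lt_or_ge (K + 1) k with h4 | h4
    · rcases Nat.lt_or_ge (K + 2) k with h5 | h5
      · rw [xx_gt h5]
        exact Commute.one_left _
      · obtain rfl : k = K + 2 := by omega
        rw [xx_eq]
        exact (h.U_s i hi).symm
    · rw [xx_le h4]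
      rcases Nat.lt_or_ge k i with h5 | h5
      · exact h.bb.X_lt k i h5 hi
      · exact h.bb.X_gt i k (by omega) h4
  rw [← h3.eq, mul_inv_cancel_right]

theorem CC.compat' (h : CC K t s u) (f : FreeGroup ℕ →* G)
    (hf : ∀ k, f (FreeGroup.of k) = xx K t s u k) (k : ℕ) :
    f (bAut (K + 1) (bAut (K + 1) (FreeGroup.of k))) = u * f (FreeGroup.of k) * u⁻¹ := by
  by_cases h1 : k = K + 1
  · subst h1
    rw [bAut_self, bAut_succ, map_mul, map_mul, map_inv, hf, hf, xx_le le_rfl, xx_eq, h.key]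
  by_cases h2 : k = K + 2
  · subst h2
    have e1 : bAut (K + 1) (FreeGroup.of (K + 2)) =
        (FreeGroup.of (K + 2))⁻¹ * FreeGroup.of (K + 1) * FreeGroup.of (K + 2) :=
      bAut_succ (K + 1)
    have e2 : bAut (K + 1) (FreeGroup.of (K + 1)) = FreeGroup.of (K + 2) := bAut_self (K + 1)
    rw [e1]
    simp only [map_mul, map_inv, e1, e2, hf]
    rw [xx_le le_rfl, xx_eq, h.key2]
  rw [bAut_ne h1 h2, bAut_ne h1 h2, hf]
  have h3 : Commute (xx K t s u k) u := by
    rcases Nat.lt_or_ge (K + 1) k with h4 | h4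
    · rw [xx_gt (by omega)]
      exact Commute.one_left _
    · rw [xx_le h4]
      exact (h.X_u k (by omega)).symm
  rw [← h3.eq, mul_inv_cancel_right]

theorem sq_four {a b : G} (h : a * b * a = b * a * b) :
    b * b * a * (b * b) * a = a * (b * b) * a * (b * b) := by
  calc b * b * a * (b * b) * a = b * (b * a * b) * b * a := by group
    _ = b * (a * b * a) * b * a := by rw [h]
    _ = (b * a * b) * (a * b * a) := by group
    _ = (a * b * a) * (b * a * b) := by rw [h]
    _ = a * b * (a * b * a) * b := by group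
    _ = a * b * (b * a * b) * b := by rw [h]
    _ = a * (b * b) * a * (b * b) := by group

end grp

/-- Type `B` with the special node at the end. -/
def rB (K : ℕ) : CoxeterMatrix (Fin (K + 2)) where
  M := Matrix.of fun i j : Fin (K + 2) =>
    if i = j then 1 else if i.1 + 1 = j.1 ∨ j.1 + 1 = i.1 then
      (if i.1 = K + 1 ∨ j.1 = K + 1 then 4 else 3) else 2
  isSymm := by
    unfold Matrix.IsSymm
    ext i j
    simp only [Matrix.transpose_apply, Matrix.of_apply, Fin.ext_iff]
    split_ifs <;> first | rfl | omega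
  diagonal := by simp
  off_diagonal := by
    intro i j h
    simp only [Matrix.of_apply]
    split_ifs <;> simp_all

theorem rB_nat (K : ℕ) (i j : ℕ) (hi : i < K + 2) (hj : j < K + 2) :
    rB K ⟨i, hi⟩ ⟨j, hj⟩ = if i = j then 1 else if i + 1 = j ∨ j + 1 = i then
      (if i = K + 1 ∨ j = K + 1 then 4 else 3) else 2 := by
  have h : rB K ⟨i, hi⟩ ⟨j, hj⟩ = if (⟨i, hi⟩ : Fin (K + 2)) = ⟨j, hj⟩ then 1 else
    if i + 1 = j ∨ j + 1 = i then (if i = K + 1 ∨ j = K + 1 then 4 else 3) else 2 := rfl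
  rw [h]
  simp only [Fin.ext_iff]

theorem hierL_rB (K : ℕ) (h : HierL (Artin (tB (K + 2)))) : HierL (Artin (rB K)) := by
  refine hierL_of_emb (rB K) (tB (K + 2)) Fin.rev Fin.rev_injective ?_ h
  rintro ⟨i, hi⟩ ⟨j, hj⟩
  have h1 : ∀ (i : ℕ) (hi : i < K + 2),
      Fin.rev (⟨i, hi⟩ : Fin (K + 2)) = ⟨K + 1 - i, by omega⟩ := by
    intro i hi
    rw [Fin.ext_iff, Fin.val_rev]
    simp only
    omega
  rw [h1, h1, rB_nat, tB_nat]
  split_ifs <;> first | rfl | omega

/-- The affine type `C` with `n` nodes, `3 ≤ n`: a chain, the first and the last label are `4`. -/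
def tCa (n : ℕ) : CoxeterMatrix (Fin n) where
  M := Matrix.of fun i j : Fin n =>
    if i = j then 1 else if i.1 + 1 = j.1 ∨ j.1 + 1 = i.1 then
      (if i.1 = 0 ∨ j.1 = 0 ∨ i.1 + 1 = n ∨ j.1 + 1 = n then 4 else 3) else 2
  isSymm := by
    unfold Matrix.IsSymm
    ext i j
    simp only [Matrix.transpose_apply, Matrix.of_apply, Fin.ext_iff]
    split_ifs <;> first | rfl | omega
  diagonal := by simp
  off_diagonal := by
    intro i j h
    simp only [Matrix.of_apply]
    split_ifs <;> simp_all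

theorem tCa_nat (n : ℕ) (i j : ℕ) (hi : i < n) (hj : j < n) :
    tCa n ⟨i, hi⟩ ⟨j, hj⟩ = if i = j then 1 else if i + 1 = j ∨ j + 1 = i then
      (if i = 0 ∨ j = 0 ∨ i + 1 = n ∨ j + 1 = n then 4 else 3) else 2 := by
  have h : tCa n ⟨i, hi⟩ ⟨j, hj⟩ = if (⟨i, hi⟩ : Fin n) = ⟨j, hj⟩ then 1 else
    if i + 1 = j ∨ j + 1 = i then (if i = 0 ∨ j = 0 ∨ i + 1 = n ∨ j + 1 = n then 4 else 3)
      else 2 := rfl
  rw [h]
  simp only [Fin.ext_iff]

/-- Homomorphisms from type `B`, special node at the end. -/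
theorem exists_homR {H : Type*} [Group H] {K : ℕ} {s : ℕ → H} {u : H} (h : Ch (K + 1) s)
    (hu : ∀ i < K, Commute u (s i)) (h4 : u * s K * u * s K = s K * u * s K * u) :
    ∃ f : Artin (rB K) →* H, (∀ k ≤ K, f (gN (rB K) k) = s k) ∧
      f (gN (rB K) (K + 1)) = u := by
  refine ⟨lift (fun i => (fun k : ℕ => if k ≤ K then s k else u) i.1)
    (rel_of_lt _ (fun k : ℕ => if k ≤ K then s k else u) ?_), fun k hk => ?_, ?_⟩
  · rintro ⟨i, hi⟩ ⟨j, hj⟩ hij
    simp only at hij
    rw [rB_nat, if_neg (show ¬ i = j by omega)]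
    simp only
    rw [if_pos (show i ≤ K by omega)]
    by_cases hjN : j ≤ K
    · rw [if_pos hjN]
      by_cases h5 : i + 1 = j
      · subst h5
        rw [if_pos (by omega), if_neg (by omega), alt_three, alt_three]
        exact h.braid i (by omega)
      · rw [if_neg (by omega), alt_two, alt_two]
        exact h.comm i j (by omega) (by omega)
    · rw [if_neg hjN]
      obtain rfl : j = K + 1 := by omega
      by_cases hiN : i = K
      · subst hiN
        rw [if_pos (by omega), if_pos (by omega), alt_four, alt_four]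
        exact h4.symm
      · rw [if_neg (by omega), alt_two, alt_two]
        exact (hu i (by omega)).symm
  · rw [gN_lt _ (show k < K + 2 by omega)]
    refine (lift_gen _ _ _).trans ?_
    exact if_pos hk
  · rw [gN_lt _ (show K + 1 < K + 2 by omega)]
    refine (lift_gen _ _ _).trans ?_
    exact if_neg (by simp)

/-- Homomorphisms from the affine type `C`. -/
theorem exists_homC {H : Type*} [Group H] {K : ℕ} {s : ℕ → H} {t u : H} (h : CC K t s u) :
    ∃ f : Artin (tCa (K + 3)) →* H, f (gN (tCa (K + 3)) 0) = t ∧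
      (∀ k ≤ K, f (gN (tCa (K + 3)) (k + 1)) = s k) ∧
      f (gN (tCa (K + 3)) (K + 2)) = u := by
  refine ⟨lift (fun i => (cn t fun k : ℕ => if k ≤ K then s k else u) i.1)
    (rel_of_lt _ (cn t fun k : ℕ => if k ≤ K then s k else u) ?_), ?_, fun k hk => ?_, ?_⟩
  · rintro ⟨i, hi⟩ ⟨j, hj⟩ hij
    simp only at hij
    rw [tCa_nat, if_neg (show ¬ i = j by omega)]
    simp only
    obtain ⟨j, rfl⟩ : ∃ j', j = j' + 1 := ⟨j - 1, by omega⟩
    have hj' : cn t (fun k : ℕ => if k ≤ K then s k else u) (j + 1) =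
      if j ≤ K then s j else u := rfl
    rw [hj']
    rcases i with _ | i
    · change alt t _ _ = alt _ t _
      by_cases hjN : j ≤ K
      · rw [if_pos hjN]
        rcases j with _ | j
        · rw [if_pos (by omega), if_pos (by omega), alt_four, alt_four]
          exact h.bb.four
        · rw [if_neg (by omega), alt_two, alt_two]
          exact h.bb.comm (j + 1) (by omega) (by omega)
      · rw [if_neg hjN, if_neg (by omega), alt_two, alt_two]
        exact h.tu
    · have hi' : cn t (fun k : ℕ => if k ≤ K then s k else u) (i + 1) =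
        if i ≤ K then s i else u := rfl
      rw [hi', if_pos (show i ≤ K by omega)]
      by_cases hjN : j ≤ K
      · rw [if_pos hjN]
        by_cases h5 : i + 1 = j
        · subst h5
          rw [if_pos (by omega), if_neg (by omega), alt_three, alt_three]
          exact h.bb.ch.braid i (by omega)
        · rw [if_neg (by omega), alt_two, alt_two]
          exact h.bb.ch.comm i j (by omega) (by omega)
      · rw [if_neg hjN]
        obtain rfl : j = K + 1 := by omega
        by_cases hiN : i = K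
        · subst hiN
          rw [if_pos (by omega), if_pos (by omega), alt_four, alt_four]
          exact h.four.symm
        · rw [if_neg (by omega), alt_two, alt_two]
          exact (h.comm i (by omega)).symm
  · rw [gN_lt _ (show 0 < K + 3 by omega)]
    exact lift_gen _ _ _
  · rw [gN_lt _ (show k + 1 < K + 3 by omega)]
    refine (lift_gen _ _ _).trans ?_
    exact if_pos hk
  · rw [gN_lt _ (show K + 2 < K + 3 by omega)]
    refine (lift_gen _ _ _).trans ?_
    exact if_neg (by simp)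

theorem Ch_rB (K : ℕ) : Ch (K + 1) (gN (rB K)) := by
  constructor
  · intro i j hij hj
    refine gN_two (show i < K + 2 by omega) (show j < K + 2 by omega) ?_
    rw [rB_nat, if_neg (by omega), if_neg (by omega)]
  · intro i hi
    refine gN_three (show i < K + 2 by omega) (show i + 1 < K + 2 by omega) ?_
    rw [rB_nat, if_neg (by omega), if_pos (by omega), if_neg (by omega)]

theorem comm_rB (K : ℕ) (i : ℕ) (hi : i < K) : Commute (gN (rB K) (K + 1)) (gN (rB K) i) := by
  refine gN_two (show K + 1 < K + 2 by omega) (show i < K + 2 by omega) ?_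
  rw [rB_nat, if_neg (by omega), if_neg (by omega)]

theorem four_rB (K : ℕ) : gN (rB K) (K + 1) * gN (rB K) K * gN (rB K) (K + 1) * gN (rB K) K =
    gN (rB K) K * gN (rB K) (K + 1) * gN (rB K) K * gN (rB K) (K + 1) := by
  refine gN_four (show K + 1 < K + 2 by omega) (show K < K + 2 by omega) ?_
  rw [rB_nat, if_neg (by omega), if_pos (by omega), if_pos (by omega)]

theorem CC_tCa (K : ℕ) : CC K (gN (tCa (K + 3)) 0) (fun i => gN (tCa (K + 3)) (i + 1))
    (gN (tCa (K + 3)) (K + 2)) := by
  refine ⟨⟨⟨?_, ?_⟩, ?_, ?_⟩, ?_, ?_, ?_⟩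
  · intro i j hij hj
    refine gN_two (show i + 1 < K + 3 by omega) (show j + 1 < K + 3 by omega) ?_
    rw [tCa_nat, if_neg (by omega), if_neg (by omega)]
  · intro i hi
    refine gN_three (show i + 1 < K + 3 by omega) (show i + 1 + 1 < K + 3 by omega) ?_
    rw [tCa_nat, if_neg (by omega), if_pos (by omega), if_neg (by omega)]
  · intro i hi hi'
    refine gN_two (show 0 < K + 3 by omega) (show i + 1 < K + 3 by omega) ?_
    rw [tCa_nat, if_neg (by omega), if_neg (by omega)]
  · refine gN_four (show 0 < K + 3 by omega) (show 0 + 1 < K + 3 by omega) ?_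
    rw [tCa_nat, if_neg (by omega), if_pos (by omega), if_pos (by omega)]
  · intro i hi
    refine gN_two (show K + 2 < K + 3 by omega) (show i + 1 < K + 3 by omega) ?_
    rw [tCa_nat, if_neg (by omega), if_neg (by omega)]
  · refine gN_four (show K + 2 < K + 3 by omega) (show K + 1 < K + 3 by omega) ?_
    rw [tCa_nat, if_neg (by omega), if_pos (by omega), if_pos (by omega)]
  · refine gN_two (show 0 < K + 3 by omega) (show K + 2 < K + 3 by omega) ?_
    rw [tCa_nat, if_neg (by omega), if_neg (by omega)]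

/-- the action of `A(B n)` on the free group -/
theorem exists_phiC (K : ℕ) : ∃ φ : Artin (rB K) →* MulAut (FreeGroup ℕ),
    (∀ k ≤ K, φ (gN (rB K) k) = bAut k) ∧
      φ (gN (rB K) (K + 1)) = bAut (K + 1) * bAut (K + 1) := by
  have hC : Ch (K + 1) bAut := by
    constructor
    · intro i j hij hj
      exact bAut_comm hij
    · intro i hi
      exact bAut_braid i
  refine exists_homR hC (fun i hi => ?_) (sq_four (bAut_braid K))
  have h1 : Commute (bAut (K + 1)) (bAut i) := (bAut_comm (by omega)).symm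
  exact h1.mul_left h1

theorem hierL_tCa' (K : ℕ) (hB : HierL (Artin (tB (K + 2)))) :
    HierL (Artin (tCa (K + 3))) := by
  obtain ⟨φ, hφ, hφ'⟩ := exists_phiC K
  have hC := CC_tCa K
  obtain ⟨s, hs⟩ : ∃ s : ℕ → Artin (tCa (K + 3)), s = fun i => gN (tCa (K + 3)) (i + 1) :=
    ⟨_, rfl⟩
  obtain ⟨t, ht⟩ : ∃ t : Artin (tCa (K + 3)), t = gN (tCa (K + 3)) 0 := ⟨_, rfl⟩
  obtain ⟨u, hu⟩ : ∃ u : Artin (tCa (K + 3)), u = gN (tCa (K + 3)) (K + 2) := ⟨_, rfl⟩
  rw [← hs, ← ht, ← hu] at hC
  -- the homomorphism to the semidirect product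
  have hC' : CC K (SemidirectProduct.inl (FreeGroup.of 0) : FreeGroup ℕ ⋊[φ] Artin (rB K))
      (fun i => SemidirectProduct.inr (gN (rB K) i))
      (SemidirectProduct.inr (gN (rB K) (K + 1))) := by
    have hcom : ∀ i, 1 ≤ i → i ≤ K + 1 →
        Commute (SemidirectProduct.inl (FreeGroup.of 0) : FreeGroup ℕ ⋊[φ] Artin (rB K))
          (SemidirectProduct.inr (gN (rB K) i)) := by
      intro i hi hi'
      refine inl_inr_comm φ ?_
      rcases Nat.lt_or_ge K i with h | h
      · obtain rfl : i = K + 1 := by omega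
        rw [hφ', MulAut.mul_apply, bAut_ne (by omega) (by omega), bAut_ne (by omega) (by omega)]
      · rw [hφ i h, bAut_ne (by omega) (by omega)]
    refine ⟨⟨⟨?_, ?_⟩, ?_, ?_⟩, ?_, ?_, ?_⟩
    · intro i j hij hj
      exact ((Ch_rB K).comm i j hij hj).map (SemidirectProduct.inr : _ →* _ ⋊[φ] _)
    · intro i hi
      have h1 := (Ch_rB K).braid i hi
      have h2 := congrArg (SemidirectProduct.inr : _ →* FreeGroup ℕ ⋊[φ] Artin (rB K)) h1
      simpa only [map_mul] using h2
    · intro i hi hi'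
      exact hcom i hi (by omega)
    · have e0 : φ (gN (rB K) 0) (FreeGroup.of 0) = FreeGroup.of 1 := by
        rw [hφ 0 (by omega), bAut_self]
      have e1 : φ (gN (rB K) 0) (FreeGroup.of 1) =
          (FreeGroup.of 1)⁻¹ * FreeGroup.of 0 * FreeGroup.of 1 := by
        rw [hφ 0 (by omega), bAut_succ]
      apply SemidirectProduct.ext
      · simp [e0, e1]
        group
      · simp
    · intro i hi
      exact (comm_rB K i hi).map (SemidirectProduct.inr : _ →* _ ⋊[φ] _)
    · have h2 := congrArg (SemidirectProduct.inr : _ →* FreeGroup ℕ ⋊[φ] Artin (rB K))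
        (four_rB K)
      simpa only [map_mul] using h2
    · exact hcom (K + 1) (by omega) le_rfl
  obtain ⟨f, hf0, hfs, hfu⟩ := exists_homC hC'
  obtain ⟨f2, hf2, hf2'⟩ := exists_homR hC.bb.ch hC.comm hC.four
  let f1 : FreeGroup ℕ →* Artin (tCa (K + 3)) := FreeGroup.lift (xx K t s u)
  have hf1 : ∀ k, f1 (FreeGroup.of k) = xx K t s u k := fun k => FreeGroup.lift_apply_of
  refine hierL_sd_gen φ (hierL_rB K hB) f f1 f2 (fun i k => ?_) fun i => ?_
  · rw [← gN_val]
    have hi := i.2
    rcases Nat.lt_or_ge K i.1 with h | h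
    · have h1 : i.1 = K + 1 := by omega
      rw [h1, hφ', hf2', MulAut.mul_apply, hC.compat' f1 hf1]
    · rw [hφ _ h, hf2 _ h, hC.compat f1 hf1 _ h]
  · rw [← gN_val]
    have hi := i.2
    obtain ⟨j, hj⟩ : ∃ j, j = i.1 := ⟨_, rfl⟩
    rw [← hj] at hi ⊢
    rcases j with _ | j
    · rw [hf0, ← ht]
      change f1 (FreeGroup.of 0) * f2 1 = t
      rw [hf1, xx_le (by omega), map_one, mul_one]
      rfl
    · rcases Nat.lt_or_ge K j with h | h
      · obtain rfl : j = K + 1 := by omega
        rw [hfu, ← hu]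
        change f1 1 * f2 (gN (rB K) (K + 1)) = u
        rw [hf2', map_one, one_mul]
      · rw [hfs j h]
        change f1 1 * f2 (gN (rB K) j) = _
        rw [hf2 j h, map_one, one_mul, hs]

/-- The affine type `C` with `n` nodes, `3 ≤ n`. -/
theorem hierL_tCa (hA : ∀ n, HierL (Artin (tA n))) (n : ℕ) (hn : 3 ≤ n) :
    HierL (Artin (tCa n)) := by
  obtain ⟨K, rfl⟩ : ∃ K, n = K + 3 := ⟨n - 3, by omega⟩
  exact hierL_tCa' K (hierL_tBn hA (K + 2))

end Pool.Agent.Art
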