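import Pool.Agent.Art.Phi

/-!
# The condition (C3) follows from (C0) and (C2)

`phi s` satisfies the quadratic relation `phi s ^ 2 = (1 - x) phi s + x` on the functionals which vanish
on `a s`.
-/

set_option autoImplicit false

namespace Pool.Agent.Art

open Matrix Polynomial

section quad

variable {S P V : Type} [AddCommGroup V] [DecidableEq P] [Fintype P] (D : RD S P V)

theorem RD.phi_quad (s : S) (u : P → ℤ[X]) (h : u (D.a s) = 0) :
    (u ᵥ* D.phi s) ᵥ* D.phi s = (1 - lx) • (u ᵥ* D.phi s) + lx • u := by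
  ext1 b
  simp only [Pi.add_apply, Pi.smul_apply, smul_eq_mul]
  by_cases h0 : b = D.a s
  · subst h0
    rw [D.vecMul_phi s (u ᵥ* D.phi s), if_pos rfl, D.vecMul_phi s u, if_pos rfl, h, mul_zero,
      mul_zero, add_zero]
  · rcases D.ip_cases b (D.a s) with h1 | h1 | h1 | h1
    · exact absurd h1 h0
    · have h2 : D.ip (D.r s b) (D.a s) = 1 := by rw [D.ip_r_a h0, h1]; norm_num
      have h3 : D.r s b ≠ D.a s := D.r_ne_a h0
      rw [D.vecMul_phi s (u ᵥ* D.phi s), if_neg h0, h1, if_neg (by norm_num),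
        if_neg (by norm_num), D.vecMul_phi s u (D.r s b), if_neg h3, h2, if_neg (by norm_num),
        if_pos rfl, D.r_r]
    · rw [D.vecMul_phi s (u ᵥ* D.phi s), if_neg h0, if_pos h1, D.vecMul_phi s u, if_neg h0,
        if_pos h1]
      ring
    · have h2 : D.ip (D.r s b) (D.a s) = -1 := by rw [D.ip_r_a h0, h1]
      have h3 : D.r s b ≠ D.a s := D.r_ne_a h0
      rw [D.vecMul_phi s (u ᵥ* D.phi s), if_neg h0, h1, if_neg (by norm_num),
        if_pos rfl, D.vecMul_phi s u (D.r s b), if_neg h3, h2, if_neg (by norm_num),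
        if_neg (by norm_num), D.r_r, D.vecMul_phi s u b, if_neg h0, h1, if_neg (by norm_num),
        if_pos rfl]
      ring

variable [DecidableEq S]

/-- The functionals from (C0), (C1), (C2). -/
def LK.ofC2 (M : CoxeterMatrix S) (T : S → P → ℤ[X])
    (c0 : ∀ s t, T s (D.a t) = if s = t then 1 else 0)
    (red : ∀ s b, (T s b).eval 0 = if b = D.a s then 1 else 0)
    (c1 : ∀ s t, M s t = 2 → T s ᵥ* D.phi t = T s)
    (c2 : ∀ s t, M s t = 3 → T t ᵥ* D.phi s = T s ᵥ* D.phi t) : LK D M where
  T := T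
  c0 := c0
  red := red
  c1 := c1
  c2 := c2
  c3 s t h := by
    have hst : s ≠ t := by
      rintro rfl
      rw [M.diagonal] at h
      norm_num at h
    rw [← c2 s t h, D.phi_quad s (T t) (by rw [c0, if_neg hst.symm])]

end quad

end Pool.Agent.Art
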