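import Pool.Agent.Art.AnRD
import Pool.Agent.Art.LKQ

/-!
# The Lawrence-Krammer-Paris functionals of type `A n`

`T k (i, j) = L i k * L (k + 1) j` with `L i k = 0` (`k < i`), `1` (`k = i`), `x ^ (k - i - 1) (x - 1)`
(`i < k`).
-/

set_option autoImplicit false

namespace Pool.Agent.Art

open Matrix Polynomial

/-- One side of the functional. -/
noncomputable def anG : ℕ → ℤ[X]
  | 0 => 1
  | m + 1 => lx ^ m * (lx - 1)

/-- One side of the functional. -/
noncomputable def anL (i k : ℕ) : ℤ[X] := if i ≤ k then anG (k - i) else 0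

theorem anL_self (i : ℕ) : anL i i = 1 := by simp [anL, anG]

theorem anL_lt {i k : ℕ} (h : k < i) : anL i k = 0 := by simp [anL, not_le.mpr h]

theorem anL_succ (i : ℕ) : anL i (i + 1) = lx - 1 := by simp [anL, anG]

theorem anL_right {i k : ℕ} (h : i < k) : anL i (k + 1) = lx * anL i k := by
  obtain ⟨m, rfl⟩ : ∃ m, k = i + 1 + m := ⟨k - (i + 1), by omega⟩
  have h1 : i + 1 + m + 1 - i = m + 1 + 1 := by omega
  have h2 : i + 1 + m - i = m + 1 := by omega
  rw [anL, anL, if_pos (by omega), if_pos (by omega), h1, h2]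
  simp only [anG]
  ring

theorem anL_left {i k : ℕ} (h : i + 1 < k) : anL i k = lx * anL (i + 1) k := by
  obtain ⟨m, rfl⟩ : ∃ m, k = i + 2 + m := ⟨k - (i + 2), by omega⟩
  have h1 : i + 2 + m - i = m + 1 + 1 := by omega
  have h2 : i + 2 + m - (i + 1) = m + 1 := by omega
  rw [anL, anL, if_pos (by omega), if_pos (by omega), h1, h2]
  simp only [anG]
  ring

theorem anL_eval {i k : ℕ} (h : i ≠ k) : (anL i k).eval 0 = 0 := by
  rcases lt_or_gt_of_ne h with h | h
  · obtain ⟨m, rfl⟩ : ∃ m, k = i + 1 + m := ⟨k - (i + 1), by omega⟩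
    have h2 : i + 1 + m - i = m + 1 := by omega
    rw [anL, if_pos (by omega), h2]
    simp [anG, lx]
  · rw [anL_lt h, eval_zero]

/-- The functionals. -/
noncomputable def anF (k i j : ℕ) : ℤ[X] := anL i k * anL (k + 1) j

/-- The matrix `phi t` on functions of pairs. -/
noncomputable def anS (t : ℕ) (u : ℕ → ℕ → ℤ[X]) (i j : ℕ) : ℤ[X] :=
  if i = t ∧ j = t + 1 then 0
  else if i = t then lx * u (t + 1) j
  else if i = t + 1 then (1 - lx) * u (t + 1) j + u t j
  else if j = t then (1 - lx) * u i t + u i (t + 1)
  else if j = t + 1 then lx * u i t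
  else u i j

theorem anS_self (t : ℕ) (u : ℕ → ℕ → ℤ[X]) : anS t u t (t + 1) = 0 := by simp [anS]

theorem anS_it {t : ℕ} (u : ℕ → ℕ → ℤ[X]) {j : ℕ} (h : j ≠ t + 1) :
    anS t u t j = lx * u (t + 1) j := by simp [anS, h]

theorem anS_is (t : ℕ) (u : ℕ → ℕ → ℤ[X]) (j : ℕ) :
    anS t u (t + 1) j = (1 - lx) * u (t + 1) j + u t j := by simp [anS]

theorem anS_jt {t : ℕ} (u : ℕ → ℕ → ℤ[X]) {i : ℕ} (h : i < t) :
    anS t u i t = (1 - lx) * u i t + u i (t + 1) := by
  have h1 : i ≠ t := by omega
  have h2 : i ≠ t + 1 := by omega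
  simp [anS, h1, h2]

theorem anS_js {t : ℕ} (u : ℕ → ℕ → ℤ[X]) {i : ℕ} (h : i < t) :
    anS t u i (t + 1) = lx * u i t := by
  have h1 : i ≠ t := by omega
  have h2 : i ≠ t + 1 := by omega
  simp [anS, h1, h2]

theorem anS_no {t : ℕ} (u : ℕ → ℕ → ℤ[X]) {i j : ℕ} (h1 : i ≠ t) (h2 : i ≠ t + 1)
    (h3 : j ≠ t) (h4 : j ≠ t + 1) : anS t u i j = u i j := by
  simp [anS, h1, h2, h3, h4]

/-- Condition (C1), `s + 1 < t`. -/
theorem an_c1a {s t : ℕ} (h : s + 1 < t) {i j : ℕ} (hij : i < j) :
    anS t (anF s) i j = anF s i j := by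
  by_cases h1 : i = t
  · subst h1
    by_cases h2 : j = i + 1
    · subst h2
      rw [anS_self, anF, anL_lt (show s < i by omega), zero_mul]
    · rw [anS_it _ h2, anF, anF, anL_lt (show s < i + 1 by omega), anL_lt (show s < i by omega)]
      ring
  · by_cases h2 : i = t + 1
    · subst h2
      rw [anS_is, anF, anF, anL_lt (show s < t + 1 by omega), anL_lt (show s < t by omega)]
      ring
    · by_cases h3 : j = t
      · subst h3
        rw [anS_jt _ hij, anF, anF, anL_right h]
        ring
      · by_cases h4 : j = t + 1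
        · subst h4
          rw [anS_js _ (by omega), anF, anF, anL_right h]
          ring
        · rw [anS_no _ h1 h2 h3 h4]

/-- Condition (C1), `t + 1 < s`. -/
theorem an_c1b {s t : ℕ} (h : t + 1 < s) {i j : ℕ} (hij : i < j) :
    anS t (anF s) i j = anF s i j := by
  by_cases h1 : i = t
  · subst h1
    by_cases h2 : j = i + 1
    · subst h2
      rw [anS_self, anF, anL_lt (show i + 1 < s + 1 by omega), mul_zero]
    · rw [anS_it _ h2, anF, anF, anL_left h]
      ring
  · by_cases h2 : i = t + 1
    · subst h2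
      rw [anS_is, anF, anF, anL_left h]
      ring
    · by_cases h3 : j = t
      · subst h3
        rw [anS_jt _ hij, anF, anF, anL_lt (show j < s + 1 by omega),
          anL_lt (show j + 1 < s + 1 by omega)]
        ring
      · by_cases h4 : j = t + 1
        · subst h4
          rw [anS_js _ (by omega), anF, anF, anL_lt (show t < s + 1 by omega),
            anL_lt (show t + 1 < s + 1 by omega)]
          ring
        · rw [anS_no _ h1 h2 h3 h4]

/-- Condition (C2). -/
theorem an_c2 (s : ℕ) {i j : ℕ} (hij : i < j) :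
    anS s (anF (s + 1)) i j = anS (s + 1) (anF s) i j := by
  rcases lt_trichotomy i s with hi | hi | hi
  · rcases lt_trichotomy j s with hj | hj | hj
    · rw [anS_no _ (by omega) (by omega) (by omega) (by omega),
        anS_no _ (by omega) (by omega) (by omega) (by omega), anF, anF,
        anL_lt (show j < s + 1 + 1 by omega), anL_lt (show j < s + 1 by omega)]
      ring
    · subst hj
      rw [anS_jt _ hi, anS_no _ (by omega) (by omega) (by omega) (by omega), anF, anF, anF,
        anL_lt (show j < j + 1 + 1 by omega), anL_lt (show j + 1 < j + 1 + 1 by omega),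
        anL_lt (show j < j + 1 by omega)]
      ring
    · rcases lt_trichotomy j (s + 2) with hk | hk | hk
      · have hj' : j = s + 1 := by omega
        subst hj'
        rw [anS_js _ hi, anS_jt _ hij, anF, anF, anF, anL_lt (show s < s + 1 + 1 by omega),
          anL_self, anL_succ]
        ring
      · subst hk
        rw [anS_no _ (by omega) (by omega) (by omega) (by omega), anS_js _ (by omega), anF, anF,
          anL_self, anL_self, anL_right hi, mul_assoc]
      · rw [anS_no _ (by omega) (by omega) (by omega) (by omega),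
          anS_no _ (by omega) (by omega) (by omega) (by omega), anF, anF, anL_right hi,
          anL_left (show s + 1 + 1 < j by omega)]
        ring
  · subst hi
    rcases lt_trichotomy j (i + 2) with hk | hk | hk
    · have hj' : j = i + 1 := by omega
      subst hj'
      rw [anS_self, anS_jt _ (by omega), anF, anF, anL_self, anL_self, anL_succ]
      ring
    · subst hk
      rw [anS_it _ (by omega), anS_js _ (by omega), anF, anF, anL_self, anL_self, anL_self]
    · rw [anS_it _ (by omega), anS_no _ (by omega) (by omega) (by omega) (by omega), anF, anF,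
        anL_self, anL_self, anL_left (show i + 1 + 1 < j by omega)]
      ring
  · rcases lt_trichotomy i (s + 2) with hk | hk | hk
    · have hi' : i = s + 1 := by omega
      subst hi'
      by_cases hj : j = s + 1 + 1
      · subst hj
        rw [anS_is, anS_self, anF, anF, anL_self, anL_self, anL_succ]
        ring
      · rw [anS_is, anS_it _ hj, anF, anF, anF, anL_self, anL_succ,
          anL_lt (show s < s + 1 + 1 by omega)]
        ring
    · subst hk
      rw [anS_no _ (by omega) (by omega) (by omega) (by omega), anS_is, anF, anF, anF,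
        anL_lt (show s + 1 < s + 2 by omega), anL_lt (show s < s + 1 + 1 by omega),
        anL_lt (show s < s + 1 by omega)]
      ring
    · rw [anS_no _ (by omega) (by omega) (by omega) (by omega),
        anS_no _ (by omega) (by omega) (by omega) (by omega), anF, anF,
        anL_lt (show s + 1 < i by omega), anL_lt (show s < i by omega)]
      ring

/-- A function of pairs of numbers on the roots. -/
noncomputable def anU (n : ℕ) (U : ℕ → ℕ → ℤ[X]) (b : AnP n) : ℤ[X] := U b.1.1 b.1.2

theorem anU_phi (n : ℕ) (t : Fin n) (U : ℕ → ℕ → ℤ[X]) :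
    anU n U ᵥ* (anD n).phi t = anU n (anS t U) := by
  ext1 b
  rw [RD.vecMul_phi]
  by_cases h0 : b = (anD n).a t
  · subst h0
    rw [if_pos rfl]
    exact (anS_self t U).symm
  · rw [if_neg h0, anD_ip]
    have hr : (anD n).r t b = ⟨(anT n t b.1.1, anT n t b.1.2), anT_lt n t b h0⟩ := dif_neg h0
    rw [hr]
    obtain ⟨⟨i, j⟩, hij⟩ := b
    have hij' : (i : ℕ) < (j : ℕ) := hij
    have h' : ¬ ((i : ℕ) = t ∧ (j : ℕ) = t + 1) := by
      rintro ⟨h1, h2⟩
      exact h0 (Subtype.ext (Prod.ext (Fin.ext h1) (Fin.ext h2)))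
    have hT : ∀ k : Fin (n + 1), ((anT n t k : Fin (n + 1)) : ℕ) =
        if (k : ℕ) = t then (t : ℕ) + 1 else if (k : ℕ) = t + 1 then (t : ℕ) else k := by
      intro k
      simp only [anT, Equiv.swap_apply_def, Fin.ext_iff, Fin.val_succ, Fin.val_castSucc]
      split_ifs <;> simp
    simp only [anU, hT]
    by_cases h1 : (i : ℕ) = t
    · have h2 : (j : ℕ) ≠ t + 1 := fun h => h' ⟨h1, h⟩
      have h3 : (j : ℕ) ≠ t := by omega
      have h4 : (i : ℕ) ≠ t + 1 := by omega
      rw [h1, anS_it _ h2]
      simp [h2, h3]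
    · by_cases h2 : (i : ℕ) = t + 1
      · have h3 : (j : ℕ) ≠ t := by omega
        have h4 : (j : ℕ) ≠ t + 1 := by omega
        rw [h2, anS_is]
        simp [h3, h4]
      · by_cases h3 : (j : ℕ) = t
        · have h4 : (j : ℕ) ≠ t + 1 := by omega
          rw [h3, anS_jt _ (by omega)]
          simp [h1, h2]
        · by_cases h4 : (j : ℕ) = t + 1
          · rw [h4, anS_js _ (by omega)]
            simp [h1, h2]
          · rw [anS_no _ h1 h2 h3 h4]
            simp [h1, h2, h3, h4]

/-- The functionals of type `A n`. -/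
noncomputable def anK (n : ℕ) : LK (anD n) (tA n) :=
  LK.ofC2 (anD n) (tA n) (fun s => anU n (anF s))
    (by
      intro s t
      change anF s t (t + 1) = _
      by_cases h : s = t
      · subst h
        rw [anF, anL_self, anL_self, if_pos rfl, one_mul]
      · have h1 : s.val ≠ t.val := fun h' => h (Fin.ext h')
        rw [if_neg h, anF]
        rcases lt_or_gt_of_ne h1 with h2 | h2
        · rw [anL_lt h2, zero_mul]
        · rw [anL_lt (show t.val + 1 < s.val + 1 by omega), mul_zero])
    (by
      intro s b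
      obtain ⟨⟨i, j⟩, hij⟩ := b
      have hij' : (i : ℕ) < (j : ℕ) := hij
      change (anF s i j).eval 0 = _
      by_cases h : (⟨(i, j), hij⟩ : AnP n) = (anD n).a s
      · rw [if_pos h]
        have h1 : (i : ℕ) = s := congrArg (fun b : AnP n => (b.1.1 : ℕ)) h
        have h2 : (j : ℕ) = s + 1 := congrArg (fun b : AnP n => (b.1.2 : ℕ)) h
        rw [h1, h2, anF, anL_self, anL_self, one_mul, eval_one]
      · rw [if_neg h, anF, eval_mul]
        by_cases h1 : (i : ℕ) = s
        · have h2 : (s : ℕ) + 1 ≠ j := by
            intro h2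
            exact h (Subtype.ext (Prod.ext (Fin.ext h1) (Fin.ext h2.symm)))
          rw [anL_eval h2, mul_zero]
        · rw [anL_eval h1, zero_mul])
    (by
      intro s t h
      rw [anU_phi]
      ext1 b
      have hb : (b.1.1 : ℕ) < (b.1.2 : ℕ) := b.2
      have e : tA n s t =
        if s = t then 1 else if (s : ℕ) + 1 = t ∨ (t : ℕ) + 1 = s then 3 else 2 := rfl
      rw [e] at h
      have h1 : s ≠ t := by
        rintro rfl
        rw [if_pos rfl] at h
        norm_num at h
      have h1' : s.val ≠ t.val := fun h' => h1 (Fin.ext h')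
      rw [if_neg h1] at h
      have h2 : ¬ ((s : ℕ) + 1 = t ∨ (t : ℕ) + 1 = s) := by
        intro h2
        rw [if_pos h2] at h
        norm_num at h
      change anS t (anF s) _ _ = anF s _ _
      by_cases h3 : (s : ℕ) + 1 < t
      · exact an_c1a h3 hb
      · exact an_c1b (by omega) hb)
    (by
      intro s t h
      rw [anU_phi, anU_phi]
      ext1 b
      have hb : (b.1.1 : ℕ) < (b.1.2 : ℕ) := b.2
      have e : tA n s t =
        if s = t then 1 else if (s : ℕ) + 1 = t ∨ (t : ℕ) + 1 = s then 3 else 2 := rfl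
      rw [e] at h
      have h1 : s ≠ t := by
        rintro rfl
        rw [if_pos rfl] at h
        norm_num at h
      rw [if_neg h1] at h
      have h2 : (s : ℕ) + 1 = t ∨ (t : ℕ) + 1 = s := by
        by_contra h2
        rw [if_neg h2] at h
        norm_num at h
      change anS s (anF t) _ _ = anS t (anF s) _ _
      rcases h2 with h2 | h2
      · rw [← h2]
        exact an_c2 s hb
      · rw [← h2]
        exact (an_c2 t hb).symm)

end Pool.Agent.Art
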