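import Pool.Agent.Art.RBas

/-!
# The root data of type `A n`
-/

set_option autoImplicit false

namespace Pool.Agent.Art

open Matrix

/-- The positive roots of `A n`: pairs `i < j` in `Fin (n + 1)`. -/
abbrev AnP (n : ℕ) : Type := {b : Fin (n + 1) × Fin (n + 1) // b.1 < b.2}

/-- The lattice. -/
abbrev AnV (n : ℕ) : Type := Fin (n + 1) → ℤ

/-- The form. -/
def anB (n : ℕ) : AnV n →+ AnV n →+ ℤ :=
  AddMonoidHom.mk' (fun x => AddMonoidHom.mk' (fun y => x ⬝ᵥ y) (dotProduct_add x)) (by
    intro x y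
    ext z
    simp [add_dotProduct])

theorem anB_apply (n : ℕ) (x y : AnV n) : anB n x y = x ⬝ᵥ y := rfl

/-- The height. -/
def anH (n : ℕ) : AnV n →+ ℤ :=
  AddMonoidHom.mk' (fun x => (fun i : Fin (n + 1) => -((i : ℕ) : ℤ)) ⬝ᵥ x) (dotProduct_add _)

theorem anH_apply (n : ℕ) (x : AnV n) :
    anH n x = (fun i : Fin (n + 1) => -((i : ℕ) : ℤ)) ⬝ᵥ x := rfl

/-- The vector of a pair. -/
def anE (n : ℕ) (i j : Fin (n + 1)) : AnV n := Pi.single i 1 - Pi.single j 1

/-- The simple roots. -/
def anA (n : ℕ) (s : Fin n) : AnP n := ⟨(s.castSucc, s.succ), Fin.castSucc_lt_succ⟩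

/-- The transposition. -/
def anT (n : ℕ) (s : Fin n) : Equiv.Perm (Fin (n + 1)) := Equiv.swap s.castSucc s.succ

theorem anB_E (n : ℕ) (i j k l : Fin (n + 1)) : anB n (anE n i j) (anE n k l) =
    (if i = k then 1 else 0) - (if i = l then 1 else 0) - (if j = k then 1 else 0) +
      (if j = l then 1 else 0) := by
  rw [anB_apply, anE, anE, sub_dotProduct, dotProduct_sub, dotProduct_sub]
  simp only [single_one_dotProduct, Pi.single_apply]
  ring

theorem anH_E (n : ℕ) (i j : Fin (n + 1)) : anH n (anE n i j) = ((j : ℕ) : ℤ) - ((i : ℕ) : ℤ) := by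
  rw [anH_apply, anE, dotProduct_sub]
  simp only [dotProduct_single_one]
  ring

theorem anT_lt (n : ℕ) (s : Fin n) (b : AnP n) (h : b ≠ anA n s) :
    anT n s b.1.1 < anT n s b.1.2 := by
  obtain ⟨⟨i, j⟩, hij⟩ := b
  have h' : ¬ (i = s.castSucc ∧ j = s.succ) := by
    rintro ⟨rfl, rfl⟩
    exact h rfl
  have h1 : (i : ℕ) < (j : ℕ) := hij
  simp only [anT, Equiv.swap_apply_def]
  simp only [Fin.ext_iff, Fin.val_succ, Fin.val_castSucc] at h'
  rw [Fin.lt_def]
  simp only [Fin.ext_iff, Fin.val_succ, Fin.val_castSucc]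
  split_ifs <;> (try simp only [Fin.val_succ, Fin.val_castSucc]) <;> omega

open Classical in
/-- The reflections on positive roots. -/
def anR (n : ℕ) (s : Fin n) (b : AnP n) : AnP n :=
  if h : b = anA n s then b else ⟨(anT n s b.1.1, anT n s b.1.2), anT_lt n s b h⟩

/-- The root data of type `A n`. -/
def anD (n : ℕ) : RD (Fin n) (AnP n) (AnV n) where
  B := anB n
  h := anH n
  v b := anE n b.1.1 b.1.2
  a := anA n
  r := anR n
  symm x y := by rw [anB_apply, anB_apply, dotProduct_comm]
  norm b := by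
    obtain ⟨⟨i, j⟩, hij⟩ := b
    rw [anB_E]
    have h1 : i ≠ j := ne_of_lt hij
    simp [h1, h1.symm]
  inj := by
    rintro ⟨⟨i, j⟩, hij⟩ ⟨⟨k, l⟩, hkl⟩ h
    simp only at hij hkl h
    have h1 := congrArg (fun z => anB n z (anE n k l)) h
    simp only [anB_E] at h1
    have h3 : k ≠ l := ne_of_lt hkl
    have h4 : i ≠ j := ne_of_lt hij
    simp only [h3, h3.symm, if_true, if_false] at h1
    by_cases h5 : i = k
    · by_cases h6 : j = l
      · subst h5 h6; rfl
      · subst h5
        rw [if_pos rfl, if_neg h3, if_neg h4.symm, if_neg h6] at h1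
        norm_num at h1
    · rw [if_neg h5] at h1
      exfalso
      split_ifs at h1 <;> norm_num at h1
  inja := by
    intro s t h
    have h1 := congrArg (fun b : AnP n => (b.1.1 : ℕ)) h
    exact Fin.ext h1
  ha s := by
    rw [anH_E]
    change (((s.succ : Fin (n + 1)) : ℕ) : ℤ) - (((s.castSucc : Fin (n + 1)) : ℕ) : ℤ) = 1
    rw [Fin.val_succ, Fin.val_castSucc]
    push_cast
    ring
  hpos b := by
    obtain ⟨⟨i, j⟩, hij⟩ := b
    rw [anH_E]
    have h1 : (i : ℕ) < (j : ℕ) := hij
    simp only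
    omega
  r_self s := by rw [anR, dif_pos rfl]
  r_ne s b h := by
    obtain ⟨⟨i, j⟩, hij⟩ := b
    rw [anR, dif_neg h, anB_E]
    simp only at hij
    have h' : ¬ (i = s.castSucc ∧ j = s.succ) := by
      rintro ⟨rfl, rfl⟩
      exact h rfl
    ext x
    simp only [anA, anE, anT, Equiv.swap_apply_def, Pi.sub_apply, Pi.smul_apply, Pi.single_apply,
      smul_eq_mul]
    have e1 : (s.castSucc : Fin (n + 1)).val = s.val := rfl
    have e2 : (s.succ : Fin (n + 1)).val = s.val + 1 := Fin.val_succ s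
    have h1 : (i : ℕ) < (j : ℕ) := hij
    rw [Fin.ext_iff, Fin.ext_iff, e1, e2] at h'
    by_cases c1 : i = s.castSucc
    · subst c1
      have d1 : (s.castSucc : Fin (n + 1)) ≠ s.succ := by
        intro h; rw [Fin.ext_iff] at h; omega
      have d2 : j ≠ s.succ := by rintro rfl; omega
      have d3 : j ≠ s.castSucc := by rintro rfl; omega
      simp only [d1, d2, d3, if_true, if_false]
      split_ifs <;> norm_num
    · by_cases c2 : i = s.succ
      · subst c2
        have d1 : (s.succ : Fin (n + 1)) ≠ s.castSucc := by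
          intro h; rw [Fin.ext_iff] at h; omega
        have d2 : j ≠ s.succ := by rintro rfl; omega
        have d3 : j ≠ s.castSucc := by rintro rfl; omega
        simp only [d1, d2, d3, if_true, if_false]
        split_ifs <;> norm_num
      · by_cases c3 : j = s.castSucc
        · subst c3
          have d1 : (s.castSucc : Fin (n + 1)) ≠ s.succ := by
            intro h; rw [Fin.ext_iff] at h; omega
          simp only [d1, c1, c2, if_true, if_false]
          split_ifs <;> norm_num
        · by_cases c4 : j = s.succ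
          · subst c4
            simp only [c1, c2, c3, if_true, if_false]
            split_ifs <;> norm_num
          · simp only [c1, c2, c3, c4, if_false]
            split_ifs <;> norm_num
  bnd b c h := by
    obtain ⟨⟨i, j⟩, hij⟩ := b
    obtain ⟨⟨k, l⟩, hkl⟩ := c
    rw [anB_E]
    simp only at hij hkl ⊢
    have h' : ¬ (i = k ∧ j = l) := by
      rintro ⟨rfl, rfl⟩
      exact h rfl
    clear h
    simp only [Fin.ext_iff] at *
    split_ifs <;> omega
  desc b h := by
    obtain ⟨⟨i, j⟩, hij⟩ := b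
    simp only at hij
    have h1 : (i : ℕ) < (j : ℕ) := hij
    refine ⟨⟨i.val, by omega⟩, ?_⟩
    have h2 : ¬ ((j : ℕ) = i + 1) := by
      intro h3
      refine h ⟨i.val, by omega⟩ (Subtype.ext (Prod.ext (Fin.ext rfl) (Fin.ext ?_)))
      exact h3
    rw [anB_E]
    simp only [anA, Fin.ext_iff, Fin.val_succ, Fin.val_castSucc]
    split_ifs <;> omega

theorem anD_ip (n : ℕ) (b : AnP n) (s : Fin n) : (anD n).ip b ((anD n).a s) =
    (if b.1.1.val = s.val then 1 else 0) - (if b.1.1.val = s.val + 1 then 1 else 0) -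
      (if b.1.2.val = s.val then 1 else 0) + (if b.1.2.val = s.val + 1 then 1 else 0) := by
  change anB n (anE n b.1.1 b.1.2) (anE n s.castSucc s.succ) = _
  rw [anB_E]
  simp only [Fin.ext_iff, Fin.val_succ, Fin.val_castSucc]

theorem anD_fits (n : ℕ) : (anD n).Fits (tA n) := by
  intro s t hst
  have h1 : s.val ≠ t.val := fun h => hst (Fin.ext h)
  have e : tA n s t = if s = t then 1 else if (s : ℕ) + 1 = t ∨ (t : ℕ) + 1 = s then 3 else 2 := rfl
  rw [e, if_neg hst, anD_ip]
  change (_ ∧ (if s.val = t.val then (1 : ℤ) else 0) - (if s.val = t.val + 1 then 1 else 0) -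
    (if s.val + 1 = t.val then 1 else 0) + (if s.val + 1 = t.val + 1 then 1 else 0) = -1) ∨
    (_ ∧ (if s.val = t.val then (1 : ℤ) else 0) - (if s.val = t.val + 1 then 1 else 0) -
    (if s.val + 1 = t.val then 1 else 0) + (if s.val + 1 = t.val + 1 then 1 else 0) = 0)
  by_cases h2 : (s : ℕ) + 1 = t ∨ (t : ℕ) + 1 = s
  · left
    refine ⟨if_pos h2, ?_⟩
    split_ifs <;> omega
  · right
    refine ⟨if_neg h2, ?_⟩
    split_ifs <;> omega

end Pool.Agent.Art
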