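import Pool.Agent.Art.BurDef

/-!
# Burau blocks

The block `blk p i` is `1 + u r` with the column `u = (1 + X) e_i - e_(i+1)` and the row
`r = e_(i+1)* - e_i*`. With `u'`, `r'` the same for `i + 1`: `r u = -(2 + X)`, `r u' = 1 + X`,
`r' u = 1`, and `r_i u_j = 0` for `|i - j| ≥ 2`. All identities of this file are computations with
these scalars.
-/

set_option autoImplicit false

namespace Pool.Agent.Art

open PowerSeries Matrix

variable {p i : ℕ}

/-- the column of the rank one part of the block -/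
private noncomputable def bu (I J : Fin p) : Fin p → ℤ⟦X⟧ := Pi.single I (1 + X) - Pi.single J 1

/-- the row of the rank one part of the block -/
private noncomputable def br (I J : Fin p) : Fin p → ℤ⟦X⟧ := Pi.single J 1 - Pi.single I 1

private theorem br_dot (I J : Fin p) (w : Fin p → ℤ⟦X⟧) : br I J ⬝ᵥ w = w J - w I := by
  unfold br
  rw [sub_dotProduct, single_dotProduct, single_dotProduct, one_mul, one_mul]

private theorem dot_bu (I J : Fin p) (w : Fin p → ℤ⟦X⟧) :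
    w ⬝ᵥ bu I J = w I * (1 + X) - w J := by
  unfold bu
  rw [dotProduct_sub, dotProduct_single, dotProduct_single, mul_one]

private theorem blk_eq (h : i + 1 < p) : blk p i =
    1 + vecMulVec (bu ⟨i, by omega⟩ ⟨i + 1, h⟩) (br ⟨i, by omega⟩ ⟨i + 1, h⟩) := by
  ext1 a b
  rw [Matrix.add_apply, vecMulVec_apply, Matrix.one_apply]
  simp only [blk, Matrix.of_apply, bu, br, Pi.sub_apply, Pi.single_apply, Fin.ext_iff]
  by_cases h1 : (a : ℕ) = i
  · by_cases h2 : (b : ℕ) = i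
    · simp [h1, h2]
    · by_cases h3 : (b : ℕ) = i + 1
      · simp [h1, h3]
      · have h4 : ¬ (i = (b : ℕ)) := fun h => h2 h.symm
        simp [h1, h2, h3, h4]
  · by_cases h5 : (a : ℕ) = i + 1
    · by_cases h2 : (b : ℕ) = i
      · simp [h5, h2]
      · by_cases h3 : (b : ℕ) = i + 1
        · simp [h5, h3]
        · have h4 : ¬ (i + 1 = (b : ℕ)) := fun h => h3 h.symm
          simp [h5, h2, h3, h4]
    · simp [h1, h5]

private theorem vm_mul (a b c d : Fin p → ℤ⟦X⟧) :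
    vecMulVec a b * vecMulVec c d = (b ⬝ᵥ c) • vecMulVec a d := by
  ext1 x y
  rw [Matrix.mul_apply, Matrix.smul_apply, vecMulVec_apply, smul_eq_mul, dotProduct,
    Finset.sum_mul]
  refine Finset.sum_congr rfl fun z _ => ?_
  rw [vecMulVec_apply, vecMulVec_apply]
  ring

private theorem br_bu_self (h : i + 1 < p) :
    br (⟨i, by omega⟩ : Fin p) ⟨i + 1, h⟩ ⬝ᵥ bu ⟨i, by omega⟩ ⟨i + 1, h⟩ = -(2 + X) := by
  rw [br_dot]
  simp only [bu, Pi.sub_apply, Pi.single_apply, Fin.ext_iff]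
  simp
  ring

theorem blk_one (h : i + 1 < p) : blk p i *ᵥ 1 = 1 := by
  rw [blk_eq h, Matrix.add_mulVec, Matrix.one_mulVec]
  have h1 : vecMulVec (bu (⟨i, by omega⟩ : Fin p) ⟨i + 1, h⟩) (br ⟨i, by omega⟩ ⟨i + 1, h⟩) *ᵥ
      (1 : Fin p → ℤ⟦X⟧) = 0 := by
    funext x
    have h2 := br_dot (⟨i, by omega⟩ : Fin p) ⟨i + 1, h⟩ 1
    rw [Pi.one_apply, Pi.one_apply, sub_self, dotProduct] at h2
    rw [Matrix.mulVec, dotProduct, Pi.zero_apply]
    simp only [vecMulVec_apply, mul_assoc]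
    rw [← Finset.mul_sum, h2, mul_zero]
  rw [h1, add_zero]

theorem lam_blk (h : i + 1 < p) : lam p ᵥ* blk p i = lam p := by
  rw [blk_eq h, Matrix.vecMul_add, Matrix.vecMul_one]
  have h1 : lam p ᵥ* vecMulVec (bu (⟨i, by omega⟩ : Fin p) ⟨i + 1, h⟩)
      (br ⟨i, by omega⟩ ⟨i + 1, h⟩) = 0 := by
    funext x
    have h2 := dot_bu (⟨i, by omega⟩ : Fin p) ⟨i + 1, h⟩ (lam p)
    have h3 : lam p ⟨i, by omega⟩ * (1 + X) - lam p ⟨i + 1, h⟩ = 0 := by
      simp only [lam, pow_succ, sub_self]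
    rw [h3, dotProduct] at h2
    rw [Matrix.vecMul, dotProduct, Pi.zero_apply]
    simp only [vecMulVec_apply, ← mul_assoc]
    rw [← Finset.sum_mul, h2, zero_mul]
  rw [h1, add_zero]

theorem blk_const (h : i + 1 < p) (a b : Fin p) :
    constantCoeff (blk p i a b) = if a = swp h b then 1 else 0 := by
  unfold swp
  simp only [blk, Matrix.of_apply]
  by_cases hb1 : (b : ℕ) = i
  · have hb : b = ⟨i, by omega⟩ := Fin.ext hb1
    rw [hb, Equiv.swap_apply_left]
    by_cases h1 : (a : ℕ) = i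
    · simp [h1, Fin.ext_iff]
    · by_cases h2 : (a : ℕ) = i + 1
      · simp [h2, Fin.ext_iff]
      · have h3 : a ≠ ⟨i, by omega⟩ := fun hh => h1 (congrArg Fin.val hh)
        simp [h1, h2, h3, Fin.ext_iff]
  · by_cases hb2 : (b : ℕ) = i + 1
    · have hb : b = ⟨i + 1, h⟩ := Fin.ext hb2
      rw [hb, Equiv.swap_apply_right]
      by_cases h1 : (a : ℕ) = i
      · simp [h1, Fin.ext_iff]
      · by_cases h2 : (a : ℕ) = i + 1
        · simp [h2, Fin.ext_iff]
        · have h3 : a ≠ ⟨i + 1, h⟩ := fun hh => h2 (congrArg Fin.val hh)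
          simp [h1, h2, h3, Fin.ext_iff]
    · rw [Equiv.swap_apply_of_ne_of_ne (fun hh => hb1 (congrArg Fin.val hh))
        (fun hh => hb2 (congrArg Fin.val hh))]
      by_cases h1 : (a : ℕ) = i
      · have h3 : ¬ i = (b : ℕ) := fun hh => hb1 hh.symm
        simp [h1, hb1, hb2, h3, Fin.ext_iff]
      · by_cases h2 : (a : ℕ) = i + 1
        · have h3 : ¬ i + 1 = (b : ℕ) := fun hh => hb2 hh.symm
          simp [h2, hb1, h3, Fin.ext_iff]
        · by_cases h3 : a = b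
          · subst h3
            simp [h1, h2]
          · simp [h1, h2, h3]

theorem isUnit_blk (h : i + 1 < p) : IsUnit (blk p i) := by
  have ht : IsUnit (1 + X : ℤ⟦X⟧) := by
    rw [isUnit_iff_constantCoeff]
    simp
  obtain ⟨c, hc⟩ := ht.exists_left_inv
  set A := vecMulVec (bu (⟨i, by omega⟩ : Fin p) ⟨i + 1, h⟩) (br ⟨i, by omega⟩ ⟨i + 1, h⟩)
    with hA
  have hAA : A * A = (-(2 + X : ℤ⟦X⟧)) • A := by
    rw [hA, vm_mul, br_bu_self h]
  have hz : A + c • A + c • ((-(2 + X : ℤ⟦X⟧)) • A) = 0 := by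
    have h1 : A + c • A + c • ((-(2 + X : ℤ⟦X⟧)) • A) = (1 - c * (1 + X)) • A := by
      rw [smul_smul, sub_smul, one_smul, sub_eq_add_neg, ← neg_smul, add_assoc, ← add_smul]
      congr 2
      ring
    rw [h1, hc, sub_self, zero_smul]
  have h1 : blk p i * (1 + c • A) = 1 := by
    rw [blk_eq h, ← hA, add_mul, one_mul, mul_add, mul_one, Matrix.mul_smul, hAA]
    calc 1 + c • A + (A + c • ((-(2 + X : ℤ⟦X⟧)) • A))
        = 1 + (A + c • A + c • ((-(2 + X : ℤ⟦X⟧)) • A)) := by abel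
      _ = 1 := by rw [hz, add_zero]
  exact ⟨⟨blk p i, 1 + c • A, h1, mul_eq_one_comm.1 h1⟩, rfl⟩

private theorem br_bu_far {j : ℕ} (hi : i + 1 < p) (hj : j + 1 < p)
    (h : i + 1 < j ∨ j + 1 < i) :
    br (⟨i, by omega⟩ : Fin p) ⟨i + 1, hi⟩ ⬝ᵥ bu ⟨j, by omega⟩ ⟨j + 1, hj⟩ = 0 := by
  rw [br_dot]
  simp only [bu, Pi.sub_apply, Pi.single_apply, Fin.ext_iff]
  rw [if_neg (by omega), if_neg (by omega), if_neg (by omega), if_neg (by omega)]
  simp

theorem blk_comm {j : ℕ} (hi : i + 1 < p) (hj : j + 1 < p) (h : i + 1 < j ∨ j + 1 < i) :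
    blk p i * blk p j = blk p j * blk p i := by
  rw [blk_eq hi, blk_eq hj]
  simp only [mul_add, add_mul, mul_one, one_mul]
  rw [vm_mul, vm_mul, br_bu_far hi hj h, br_bu_far hj hi h.symm, zero_smul, zero_smul]
  abel

theorem blk_braid (h : i + 2 < p) :
    blk p i * blk p (i + 1) * blk p i = blk p (i + 1) * blk p i * blk p (i + 1) := by
  have h1 : i + 1 < p := by omega
  have h2 : i + 1 + 1 < p := by omega
  rw [blk_eq h1, blk_eq h2]
  set u := bu (⟨i, by omega⟩ : Fin p) ⟨i + 1, h1⟩ with hu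
  set r := br (⟨i, by omega⟩ : Fin p) ⟨i + 1, h1⟩ with hr
  set u' := bu (⟨i + 1, by omega⟩ : Fin p) ⟨i + 1 + 1, h2⟩ with hu'
  set r' := br (⟨i + 1, by omega⟩ : Fin p) ⟨i + 1 + 1, h2⟩ with hr'
  have e1 : r ⬝ᵥ u = -(2 + X) := br_bu_self h1
  have e2 : r' ⬝ᵥ u' = -(2 + X) := br_bu_self h2
  have e3 : r ⬝ᵥ u' = 1 + X := by
    rw [hr, hu', br_dot]
    simp only [bu, Pi.sub_apply, Pi.single_apply, Fin.ext_iff]
    simp
    try omega
  have e4 : r' ⬝ᵥ u = 1 := by
    rw [hr', hu, br_dot]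
    simp only [bu, Pi.sub_apply, Pi.single_apply, Fin.ext_iff]
    simp
    try (intro hh; omega)
  have a1 : vecMulVec u r * vecMulVec u r = (-(2 + X : ℤ⟦X⟧)) • vecMulVec u r := by
    rw [vm_mul, e1]
  have a2 : vecMulVec u' r' * vecMulVec u' r' = (-(2 + X : ℤ⟦X⟧)) • vecMulVec u' r' := by
    rw [vm_mul, e2]
  have a3 : vecMulVec u r * vecMulVec u' r' * vecMulVec u r =
      (1 + X : ℤ⟦X⟧) • vecMulVec u r := by
    rw [vm_mul, Matrix.smul_mul, vm_mul, e3, e4, one_smul]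
  have a4 : vecMulVec u' r' * vecMulVec u r * vecMulVec u' r' =
      (1 + X : ℤ⟦X⟧) • vecMulVec u' r' := by
    rw [vm_mul, Matrix.smul_mul, vm_mul, e3, e4, one_smul]
  set A := vecMulVec u r
  set B := vecMulVec u' r'
  have c1 : A + A * A + A * B * A = 0 := by
    rw [a1, a3, ← one_smul ℤ⟦X⟧ A, smul_smul, smul_smul, ← add_smul, ← add_smul]
    have : (1 + -(2 + X) * 1 + (1 + X) * 1 : ℤ⟦X⟧) = 0 := by ring
    rw [this, zero_smul]
  have c2 : B + B * B + B * A * B = 0 := by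
    rw [a2, a4, ← one_smul ℤ⟦X⟧ B, smul_smul, smul_smul, ← add_smul, ← add_smul]
    have : (1 + -(2 + X) * 1 + (1 + X) * 1 : ℤ⟦X⟧) = 0 := by ring
    rw [this, zero_smul]
  have l1 : (1 + A) * (1 + B) * (1 + A) =
      1 + A + B + A * B + B * A + (A + A * A + A * B * A) := by noncomm_ring
  have l2 : (1 + B) * (1 + A) * (1 + B) =
      1 + A + B + A * B + B * A + (B + B * B + B * A * B) := by noncomm_ring
  rw [l1, l2, c1, c2]

end Pool.Agent.Art
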