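import Pool.Agent.Art.Defs

/-!
# Burau matrices: definitions

`t = 1 + X` in `ℤ⟦X⟧`; the block `[[1 - t, t], [1, 0]]` in the rows and columns `i`, `i + 1`.
-/

set_option autoImplicit false

namespace Pool.Agent.Art

open PowerSeries Matrix

/-- The row vector `(1, t, t ^ 2, ...)`. -/
noncomputable def lam (p : ℕ) : Fin p → ℤ⟦X⟧ := fun i => (1 + X) ^ (i : ℕ)

/-- The Burau block at the positions `i`, `i + 1`. -/
noncomputable def blk (p i : ℕ) : Matrix (Fin p) (Fin p) ℤ⟦X⟧ :=
  Matrix.of fun a b =>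
    if (a : ℕ) = i then (if (b : ℕ) = i then -X else if (b : ℕ) = i + 1 then 1 + X else 0)
    else if (a : ℕ) = i + 1 then (if (b : ℕ) = i then 1 else 0)
    else if a = b then 1 else 0

/-- The transposition of the positions `i`, `i + 1`. -/
def swp {p i : ℕ} (h : i + 1 < p) : Equiv.Perm (Fin p) :=
  Equiv.swap ⟨i, by omega⟩ ⟨i + 1, h⟩

end Pool.Agent.Art
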