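import Pool.Agent.Art.FrFin

/-!
# Condition (C): regular vectors

`D.B` is positive definite, the simple roots generate the lattice `V`.
-/

set_option autoImplicit false

namespace Pool.Agent.Art

namespace RD

variable {S P V : Type} [AddCommGroup V] (D : RD S P V) {M : CoxeterMatrix S}

/-- roots, positive or negative -/
def IsRoot (x : V) : Prop := ∃ b, x = D.v b ∨ x = -D.v b

theorem isRoot_neg {x : V} (h : D.IsRoot x) : D.IsRoot (-x) := by
  obtain ⟨b, rfl | rfl⟩ := h
  · exact ⟨b, Or.inr rfl⟩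
  · exact ⟨b, Or.inl (neg_neg _)⟩

theorem isRoot_w (hM : D.Fits M) (g : Artin M) {x : V} (h : D.IsRoot x) :
    D.IsRoot (D.w hM g x) := by
  obtain ⟨b, rfl | rfl⟩ := h
  · exact ⟨_, D.w_v hM g b⟩
  · rw [map_neg]
    exact D.isRoot_neg ⟨_, D.w_v hM g b⟩

theorem B_neg_left (x y : V) : D.B (-x) y = -D.B x y := by
  rw [map_neg, AddMonoidHom.neg_apply]

theorem isRoot_norm {x : V} (h : D.IsRoot x) : D.B x x = 2 := by
  obtain ⟨b, rfl | rfl⟩ := h
  · exact D.norm b
  · rw [map_neg, map_neg, AddMonoidHom.neg_apply, neg_neg]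
    exact D.norm b

theorem isRoot_h {x : V} (h : D.IsRoot x) : D.h x ≠ 0 := by
  obtain ⟨b, rfl | rfl⟩ := h
  · have := D.hpos b
    omega
  · have := D.hpos b
    rw [map_neg]
    omega

theorem isRoot_pos {x : V} (h : D.IsRoot x) (h0 : 0 < D.h x) : ∃ b, x = D.v b := by
  obtain ⟨b, rfl | rfl⟩ := h
  · exact ⟨b, rfl⟩
  · have := D.hpos b
    rw [map_neg] at h0
    omega

/-- induction over positive roots -/
theorem root_induction {Q : P → Prop} (h1 : ∀ s, Q (D.a s))
    (h2 : ∀ s b, D.ip b (D.a s) = 1 → Q (D.r s b) → Q b) (b : P) : Q b := by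
  obtain ⟨n, hn⟩ : ∃ n : ℕ, D.h (D.v b) ≤ n := ⟨(D.h (D.v b)).toNat, Int.self_le_toNat _⟩
  induction n generalizing b with
  | zero =>
    have := D.hpos b
    omega
  | succ n ih =>
    by_cases hs : ∀ s, b ≠ D.a s
    · obtain ⟨s, h⟩ := D.desc b hs
      refine h2 s b h (ih _ ?_)
      rw [D.v_r_one h, map_sub, D.ha]
      omega
    · push Not at hs
      obtain ⟨s, rfl⟩ := hs
      exact h1 s

theorem exists_conj (hM : D.Fits M) (b : P) :
    ∃ (g : Artin M) (s : S), D.w hM g (D.v (D.a s)) = D.v b := by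
  refine D.root_induction (Q := fun b => ∃ (g : Artin M) (s : S),
    D.w hM g (D.v (D.a s)) = D.v b) (fun s => ⟨1, s, ?_⟩) (fun s b h1 h2 => ?_) b
  · rw [map_one]; rfl
  · obtain ⟨g, t, h3⟩ := h2
    refine ⟨gen M s * g, t, ?_⟩
    have h4 : b ≠ D.a s := D.ne_of_ip (by rw [h1]; norm_num)
    rw [map_mul, LinearEquiv.mul_apply, h3, D.w_gen, D.rho_v (D.r_ne_a h4), D.r_r]

theorem w_inv_w (hM : D.Fits M) (g : Artin M) (x : V) : D.w hM g⁻¹ (D.w hM g x) = x := by
  rw [← LinearEquiv.mul_apply, ← map_mul, inv_mul_cancel, map_one]; rfl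

theorem w_w_inv (hM : D.Fits M) (g : Artin M) (x : V) : D.w hM g (D.w hM g⁻¹ x) = x := by
  rw [← LinearEquiv.mul_apply, ← map_mul, mul_inv_cancel, map_one]; rfl

theorem B_w_left (hM : D.Fits M) (g : Artin M) (x y : V) :
    D.B (D.w hM g x) y = D.B x (D.w hM g⁻¹ y) := by
  rw [← D.B_w hM g x (D.w hM g⁻¹ y), w_w_inv]

/-- The roots are closed under the reflections in roots. -/
theorem isRoot_refl (hM : D.Fits M) {x y : V} (hx : D.IsRoot x) (hy : D.IsRoot y) :
    D.IsRoot (x - D.B x y • y) := by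
  have key : ∀ b, D.IsRoot (x - D.B x (D.v b) • D.v b) := by
    intro b
    obtain ⟨g, s, h⟩ := D.exists_conj hM b
    have h1 : D.IsRoot (D.w hM (g * gen M s * g⁻¹) x) := D.isRoot_w hM _ hx
    rw [map_mul, map_mul, LinearEquiv.mul_apply, LinearEquiv.mul_apply, D.w_gen, rho_apply,
      map_sub, w_w_inv, map_zsmul, h] at h1
    have h2 : D.B (D.w hM g⁻¹ x) (D.v (D.a s)) = D.B x (D.v b) := by
      rw [D.B_w_left, inv_inv, h]
    rwa [h2] at h1
  obtain ⟨b, rfl | rfl⟩ := hy
  · exact key b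
  · rw [map_neg, neg_smul_neg]
    exact key b

theorem isRoot_add (hM : D.Fits M) {x y : V} (hx : D.IsRoot x) (hy : D.IsRoot y)
    (h : D.B x y = -1) : D.IsRoot (x + y) := by
  have h1 := D.isRoot_refl hM hx hy
  rw [h, neg_one_smul, sub_neg_eq_add] at h1
  exact h1

theorem pos_of_simple {x : V} (h : ∀ s, 0 < D.B x (D.v (D.a s))) (b : P) :
    0 < D.B x (D.v b) := by
  refine D.root_induction (Q := fun b => 0 < D.B x (D.v b)) h (fun s b h1 h2 => ?_) b
  rw [D.v_r_one h1, map_sub] at h2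
  have := h s
  linarith

/-- an element of the image of the Artin group is determined on the simple roots -/
theorem w_ext (sp : Submodule.span ℤ (Set.range fun s => D.v (D.a s)) = ⊤)
    {f g : V ≃ₗ[ℤ] V} (h : ∀ s, f (D.v (D.a s)) = g (D.v (D.a s))) : f = g := by
  have h1 : f.toLinearMap = g.toLinearMap := by
    refine LinearMap.ext_on_range sp h
  exact LinearEquiv.toLinearMap_injective h1

theorem finite_isRoot [Finite P] : {x | D.IsRoot x}.Finite := by
  have h : {x | D.IsRoot x} ⊆ Set.range D.v ∪ Set.range fun b => -D.v b := by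
    rintro x ⟨b, rfl | rfl⟩
    · exact Or.inl ⟨b, rfl⟩
    · exact Or.inr ⟨b, rfl⟩
  exact ((Set.finite_range _).union (Set.finite_range _)).subset h

theorem finite_range_w [Finite P] [Finite S]
    (sp : Submodule.span ℤ (Set.range fun s => D.v (D.a s)) = ⊤) (hM : D.Fits M) :
    Finite (D.w hM).range := by
  have h1 : (Set.pi Set.univ fun _ : S => {x | D.IsRoot x}).Finite :=
    Set.Finite.pi fun _ => D.finite_isRoot
  have h2 : Finite (Set.pi Set.univ fun _ : S => {x | D.IsRoot x}) := h1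
  refine Finite.of_injective (β := (Set.pi Set.univ fun _ : S => {x | D.IsRoot x}))
    (fun f => ⟨fun s => f.1 (D.v (D.a s)), fun s _ => ?_⟩) ?_
  · obtain ⟨f, g, rfl⟩ := f
    exact D.isRoot_w hM g ⟨_, Or.inl rfl⟩
  · intro f g hfg
    apply Subtype.ext
    refine D.w_ext sp fun s => ?_
    exact congrFun (congrArg Subtype.val hfg) s

/-- no diagram automorphisms -/
def NoAut (M : CoxeterMatrix S) : Prop :=
  ∀ σ : S → S, Function.Injective σ → (∀ s t, M (σ s) (σ t) = M s t) → ∀ s, σ s = s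

theorem w_eq_one_of_fixed [Finite P] [Finite S]
    (sp : Submodule.span ℤ (Set.range fun s => D.v (D.a s)) = ⊤) (hM : D.Fits M)
    (ha : NoAut M) {u : V} (hu : ∀ b, D.B u (D.v b) ≠ 0) (g : Artin M)
    (hg : D.w hM g u = u) : D.w hM g = 1 := by
  have hfin := D.finite_range_w sp hM
  obtain ⟨⟨_, g0, rfl⟩, hmax⟩ := Finite.exists_max fun f : (D.w hM).range => D.h (f.1 u)
  have hmax' : ∀ g', D.h (D.w hM g' u) ≤ D.h (D.w hM g0 u) := fun g' => hmax ⟨_, g', rfl⟩
  obtain ⟨u', hu'⟩ : ∃ u', u' = D.w hM g0 u := ⟨_, rfl⟩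
  have hne : ∀ b, D.B u' (D.v b) ≠ 0 := by
    intro b
    rw [hu', D.B_w_left]
    rcases D.w_v hM g0⁻¹ b with h | h
    · rw [h]; exact hu _
    · rw [h, map_neg, neg_ne_zero]; exact hu _
  have hs : ∀ s, 0 < D.B u' (D.v (D.a s)) := by
    intro s
    have h1 := hmax' (gen M s * g0)
    rw [map_mul, LinearEquiv.mul_apply, ← hu', D.w_gen, rho_apply, map_sub, map_zsmul, D.ha,
      smul_eq_mul, mul_one] at h1
    have h2 := hne (D.a s)
    omega
  have hp : ∀ b, 0 < D.B u' (D.v b) := D.pos_of_simple hs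
  have hpos : ∀ g', D.w hM g' u' = u' → ∀ b, ∃ c, D.w hM g' (D.v b) = D.v c := by
    intro g' hg' b
    rcases D.w_v hM g' b with h | h
    · exact ⟨_, h⟩
    · exfalso
      have h1 := D.B_w hM g' u' (D.v b)
      rw [hg', h, map_neg] at h1
      have h2 := hp b
      have h3 := hp (D.perm hM g' b)
      omega
  obtain ⟨g1, hg1⟩ : ∃ g1, g1 = g0 * g * g0⁻¹ := ⟨_, rfl⟩
  have h1 : D.w hM g1 u' = u' := by
    rw [hg1, hu', map_mul, map_mul, LinearEquiv.mul_apply, LinearEquiv.mul_apply, D.w_inv_w, hg]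
  have h1' : D.w hM g1⁻¹ u' = u' := by
    conv_lhs => rw [← h1]
    rw [D.w_inv_w]
  have hsim : ∀ s, ∃ t, D.w hM g1 (D.v (D.a s)) = D.v (D.a t) := by
    intro s
    obtain ⟨c, hc⟩ := hpos g1 h1 (D.a s)
    by_cases hcs : ∀ t, c ≠ D.a t
    · exfalso
      obtain ⟨t, ht⟩ := D.desc c hcs
      have h2 : D.v c = D.v (D.r t c) + D.v (D.a t) := by
        rw [D.v_r_one ht, sub_add_cancel]
      obtain ⟨c1, hc1⟩ := hpos g1⁻¹ h1' (D.r t c)
      obtain ⟨c2, hc2⟩ := hpos g1⁻¹ h1' (D.a t)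
      have h3 : D.v (D.a s) = D.v c1 + D.v c2 := by
        rw [← hc1, ← hc2, ← map_add, ← h2, ← hc, D.w_inv_w]
      exact D.simple_ne s c1 c2 h3
    · push Not at hcs
      obtain ⟨t, rfl⟩ := hcs
      exact ⟨t, hc⟩
  choose σ hσ using hsim
  have hinj : Function.Injective σ := by
    intro s t hst
    have h2 := hσ s
    rw [hst, ← hσ t] at h2
    exact D.inja (D.inj ((D.w hM g1).injective h2))
  have hMσ : ∀ s t, M (σ s) (σ t) = M s t := by
    intro s t
    by_cases hst : s = t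
    · rw [hst, M.diagonal, M.diagonal]
    · have hst' : σ s ≠ σ t := fun h => hst (hinj h)
      have h2 : D.ip (D.a (σ s)) (D.a (σ t)) = D.ip (D.a s) (D.a t) := by
        unfold RD.ip
        rw [← hσ, ← hσ, D.B_w]
      rcases hM s t hst with ⟨h3, h4⟩ | ⟨h3, h4⟩ <;>
        rcases hM (σ s) (σ t) hst' with ⟨h5, h6⟩ | ⟨h5, h6⟩
      · rw [h3, h5]
      · rw [h2, h4] at h6; norm_num at h6
      · rw [h2, h4] at h6; norm_num at h6
      · rw [h3, h5]
  have hid := ha σ hinj hMσ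
  have h2 : D.w hM g1 = 1 := by
    refine D.w_ext sp fun s => ?_
    rw [hσ, hid]; rfl
  have h3 : g = g0⁻¹ * g1 * g0 := by rw [hg1]; group
  rw [h3, map_mul, map_mul, h2, mul_one, ← map_mul, inv_mul_cancel, map_one]

/-- generic vectors -/
theorem exists_generic (pd : ∀ x : V, x ≠ 0 → 0 < D.B x x) {ι : Type} (T : Finset ι)
    (y : ι → V) (hy : ∀ i ∈ T, y i ≠ 0) : ∃ x : V, ∀ i ∈ T, D.B x (y i) ≠ 0 := by
  classical
  induction T using Finset.induction_on with
  | empty => exact ⟨0, by simp⟩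
  | insert i0 T hi0 ih =>
    obtain ⟨x, hx⟩ := ih fun i hi => hy i (Finset.mem_insert_of_mem hi)
    obtain ⟨N, hN⟩ : ∃ N : ℤ, N = 1 + ∑ i ∈ insert i0 T, |D.B (y i0) (y i)| := ⟨_, rfl⟩
    have hlt : ∀ i ∈ insert i0 T, |D.B (y i0) (y i)| < N := by
      intro i hi
      have h1 := Finset.single_le_sum (f := fun i => |D.B (y i0) (y i)|)
        (fun _ _ => abs_nonneg _) hi
      omega
    have key : ∀ i ∈ insert i0 T, D.B x (y i) ≠ 0 → D.B (N • x + y i0) (y i) ≠ 0 := by
      intro i hi h1 h2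
      rw [map_add, map_zsmul, AddMonoidHom.add_apply, AddMonoidHom.smul_apply, smul_eq_mul] at h2
      have h3 := hlt i hi
      have h4 : D.B (y i0) (y i) = -(N * D.B x (y i)) := by linarith
      rw [h4, abs_neg, abs_mul] at h3
      have h5 : 1 ≤ |D.B x (y i)| := Int.one_le_abs h1
      have h6 : 0 ≤ |N| := abs_nonneg N
      have h7 : N ≤ |N| := le_abs_self N
      nlinarith
    refine ⟨N • x + y i0, fun i hi => ?_⟩
    rcases Finset.mem_insert.1 hi with rfl | h
    · by_cases h1 : D.B x (y i) = 0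
      · rw [map_add, map_zsmul, AddMonoidHom.add_apply, AddMonoidHom.smul_apply, h1, smul_zero,
          zero_add]
        exact (pd _ (hy i hi)).ne'
      · exact key i hi h1
    · exact key i hi (hx i h)

/-- elements of finite order kill a root in the mean -/
theorem exists_root_sum [Finite P] [Finite S] (pd : ∀ x : V, x ≠ 0 → 0 < D.B x x)
    (sp : Submodule.span ℤ (Set.range fun s => D.v (D.a s)) = ⊤) (hM : D.Fits M)
    (ha : NoAut M) (g : Artin M) (l : ℕ) (hl : D.w hM g ^ l = 1) (hne : D.w hM g ≠ 1) :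
    ∃ b, ∑ i ∈ Finset.range l, (D.w hM g ^ i) (D.v b) = 0 := by
  classical
  by_contra hcon
  push Not at hcon
  have := Fintype.ofFinite P
  obtain ⟨x, hx⟩ := D.exists_generic pd Finset.univ
    (fun b => ∑ i ∈ Finset.range l, (D.w hM g ^ i) (D.v b)) fun b _ => hcon b
  refine hne ?_
  have hadj : ∀ (i : ℕ) (x y : V), D.B ((D.w hM g ^ i) x) ((D.w hM g ^ i) y) = D.B x y := by
    intro i x y
    rw [← map_pow]
    exact D.B_w hM _ x y
  have hP : ∀ y, D.B (∑ i ∈ Finset.range l, (D.w hM g ^ i) x) y =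
      D.B x (∑ i ∈ Finset.range l, (D.w hM g ^ i) y) := by
    intro y
    rw [map_sum, AddMonoidHom.finsetSum_apply, map_sum]
    rcases Nat.eq_zero_or_pos l with rfl | hl0
    · simp
    refine Finset.sum_bij (fun i _ => if i = 0 then 0 else l - i) ?_ ?_ ?_ ?_
    · intro i hi
      rw [Finset.mem_range] at hi ⊢
      split_ifs <;> omega
    · intro i hi j hj hij
      rw [Finset.mem_range] at hi hj
      split_ifs at hij <;> omega
    · intro j hj
      rw [Finset.mem_range] at hj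
      refine ⟨if j = 0 then 0 else l - j, ?_, ?_⟩
      · rw [Finset.mem_range]; split_ifs <;> omega
      · split_ifs <;> omega
    · intro i hi
      rw [Finset.mem_range] at hi
      split_ifs with h0
      · rw [h0, pow_zero]; rfl
      · rw [← hadj (l - i) ((D.w hM g ^ i) x) y, ← LinearEquiv.mul_apply, ← pow_add,
          Nat.sub_add_cancel hi.le, hl]
        rfl
  refine D.w_eq_one_of_fixed sp hM ha
    (u := ∑ i ∈ Finset.range l, (D.w hM g ^ i) x) (fun b => ?_) g ?_
  · rw [hP]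
    exact hx b (Finset.mem_univ b)
  · rw [map_sum]
    rcases Nat.eq_zero_or_pos l with rfl | hl0
    · simp
    obtain ⟨m, rfl⟩ : ∃ m, l = m + 1 := ⟨l - 1, by omega⟩
    rw [Finset.sum_range_succ, Finset.sum_range_succ']
    congr 1
    · refine Finset.sum_congr rfl fun i _ => ?_
      rw [← LinearEquiv.mul_apply, ← pow_succ']
    · rw [← LinearEquiv.mul_apply, ← pow_succ', hl, pow_zero]

end RD

end Pool.Agent.Art
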