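import Pool.Agent.Art.CC1

/-!
# Condition (C): the order is small
-/

set_option autoImplicit false

namespace Pool.Agent.Art

open Polynomial

/-- An endomorphism of a torsion-free abelian group generated by `n` elements which kills a
nonzero vector in the mean over a period `l` (`l` prime) has `l ≤ n + 1`. -/
theorem prime_le {V : Type} [AddCommGroup V] {n : ℕ} (v : Fin n → V)
    (sp : Submodule.span ℤ (Set.range v) = ⊤)
    (tf : ∀ (m : ℤ) (x : V), m • x = 0 → m = 0 ∨ x = 0) (f : Module.End ℤ V) {a : V}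
    (ha : a ≠ 0) {l : ℕ} (hl : l.Prime) (h : ∑ i ∈ Finset.range l, (f ^ i) a = 0) :
    l ≤ n + 1 := by
  classical
  by_contra hcon
  have : Fact l.Prime := ⟨hl⟩
  have hdep : ¬ LinearIndependent ℤ (fun i : Fin (l - 1) => (f ^ (i : ℕ)) a) := by
    intro hli
    have h1 := linearIndependent_le_span _ hli (Set.range v) sp
    have h2 : Fintype.card (Set.range v) ≤ n := by
      have h3 := Fintype.card_range_le v
      rwa [Fintype.card_fin] at h3
    rw [Cardinal.mk_fin, Nat.cast_le] at h1
    omega
  rw [Fintype.not_linearIndependent_iff] at hdep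
  obtain ⟨c, hc, j, hj⟩ := hdep
  obtain ⟨q, hq⟩ : ∃ q : ℤ[X], q = ∑ i : Fin (l - 1), C (c i) * X ^ (i : ℕ) := ⟨_, rfl⟩
  have hqc : q.coeff j = c j := by
    rw [hq, finset_sum_coeff]
    simp only [coeff_C_mul, coeff_X_pow]
    rw [Finset.sum_eq_single j]
    · simp
    · intro i _ hij
      rw [if_neg (fun h => hij (Fin.ext h.symm)), mul_zero]
    · intro h; exact absurd (Finset.mem_univ _) h
  have hq0 : q ≠ 0 := by
    intro h0
    rw [h0, coeff_zero] at hqc
    exact hj hqc.symm
  have hqd : q.degree < (l - 1 : ℕ) := by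
    rw [hq]
    refine (degree_sum_le _ _).trans_lt ?_
    rw [Finset.sup_lt_iff (by exact WithBot.bot_lt_coe _)]
    intro i _
    refine (degree_C_mul_X_pow_le _ _).trans_lt ?_
    exact_mod_cast i.2
  have hqa : aeval f q a = 0 := by
    rw [hq, map_sum, LinearMap.sum_apply, ← hc]
    refine Finset.sum_congr rfl fun i _ => ?_
    rw [map_mul, aeval_C, map_pow, aeval_X]
    simp [Module.End.mul_apply, Module.algebraMap_end_apply]
  have hΦa : aeval f (cyclotomic l ℤ) a = 0 := by
    rw [cyclotomic_prime, map_sum, LinearMap.sum_apply, ← h]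
    refine Finset.sum_congr rfl fun i _ => ?_
    rw [map_pow, aeval_X]
  -- coprime over `ℚ`
  have hirr : Irreducible (cyclotomic l ℚ) := cyclotomic.irreducible_rat hl.pos
  have hinj : Function.Injective (Polynomial.map (algebraMap ℤ ℚ)) :=
    map_injective _ (algebraMap ℤ ℚ).injective_int
  have hcop : IsCoprime (cyclotomic l ℚ) (q.map (algebraMap ℤ ℚ)) := by
    rw [hirr.coprime_iff_not_dvd]
    intro hd
    have h1 : q.map (algebraMap ℤ ℚ) ≠ 0 := by
      intro h0
      exact hq0 (hinj (by rw [h0, Polynomial.map_zero]))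
    have h2 := degree_le_of_dvd hd h1
    rw [degree_cyclotomic, Nat.totient_prime hl,
      degree_map_eq_of_injective (algebraMap ℤ ℚ).injective_int] at h2
    exact absurd (h2.trans_lt hqd) (lt_irrefl _)
  obtain ⟨u, w, huw⟩ := hcop
  obtain ⟨⟨b1, hb1⟩, h1⟩ := IsLocalization.integerNormalization_map_to_map (nonZeroDivisors ℤ) u
  obtain ⟨⟨b2, hb2⟩, h2⟩ := IsLocalization.integerNormalization_map_to_map (nonZeroDivisors ℤ) w
  set U := IsLocalization.integerNormalization (nonZeroDivisors ℤ) u with hU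
  set W := IsLocalization.integerNormalization (nonZeroDivisors ℤ) w with hW
  simp only at h1 h2
  have hb1' : b1 ≠ 0 := nonZeroDivisors.ne_zero hb1
  have hb2' : b2 ≠ 0 := nonZeroDivisors.ne_zero hb2
  have hkey : C b2 * U * cyclotomic l ℤ + C b1 * W * q = C (b1 * b2) := by
    apply hinj
    rw [Polynomial.map_add, Polynomial.map_mul, Polynomial.map_mul, Polynomial.map_mul,
      Polynomial.map_mul, h1, h2, map_cyclotomic, map_C, map_C, map_C]
    have e1 : (b1 • u : ℚ[X]) = C ((algebraMap ℤ ℚ) b1) * u := by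
      rw [← algebraMap_smul ℚ b1 u, smul_eq_C_mul]
    have e2 : (b2 • w : ℚ[X]) = C ((algebraMap ℤ ℚ) b2) * w := by
      rw [← algebraMap_smul ℚ b2 w, smul_eq_C_mul]
    rw [e1, e2, map_mul (algebraMap ℤ ℚ), map_mul C]
    linear_combination C ((algebraMap ℤ ℚ) b1) * C ((algebraMap ℤ ℚ) b2) * huw
  have hfin := congrArg (fun p => aeval f p a) hkey
  simp only [map_add, map_mul, LinearMap.add_apply, Module.End.mul_apply, hqa, hΦa, map_zero,
    add_zero, aeval_C, Module.algebraMap_end_apply] at hfin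
  rw [← mul_smul] at hfin
  rcases tf _ _ hfin.symm with h3 | h3
  · rcases mul_eq_zero.1 h3 with h4 | h4
    · exact hb1' h4
    · exact hb2' h4
  · exact ha h3

end Pool.Agent.Art
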