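import Pool.Agent.Art.CC2

/-!
# Condition (C): frames from cyclic chains
-/

set_option autoImplicit false

namespace Pool.Agent.Art

namespace RD

variable {S P V : Type} [AddCommGroup V] (D : RD S P V) {M : CoxeterMatrix S}

/-- A frame and a cycle from a family of vectors with root differences. -/
theorem exists_frame_of (f : V ≃ₗ[ℤ] V) (l : ℕ) (hl : 0 < l) (Y : ℕ → V) (z : V) (κ k : ℕ)
    (t : ℕ) (hk : k * κ = 1 + t * l) (hper : ∀ i, Y (i % l) = Y i)
    (hroot : ∀ i j, i < j → j < l → D.IsRoot (Y j - Y i))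
    (hf : ∀ i, f (Y i) = Y (i + κ) + z) :
    ∃ (d : D.Fr l) (σ : Equiv.Perm (Fin l)), (∀ i j, ∃ k : ℕ, (σ ^ k) i = j) ∧
      ∀ i j, f (d.1 i j) = d.1 (σ i) (σ j) := by
  classical
  have : NeZero l := ⟨hl.ne'⟩
  let H : Fin l → ℤ := fun i => D.h (Y i)
  have hroot' : ∀ i j : Fin l, i ≠ j → D.IsRoot (Y j - Y i) := by
    intro i j hij
    rcases lt_or_gt_of_ne hij with h | h
    · exact hroot i j h j.2
    · have h1 := D.isRoot_neg (hroot j i h i.2)
      rwa [neg_sub] at h1
  have hinj : Function.Injective H := by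
    intro i j hij
    by_contra hne
    refine D.isRoot_h (hroot' i j hne) ?_
    rw [map_sub]
    exact sub_eq_zero.2 hij.symm
  let τ : Equiv.Perm (Fin l) := Tuple.sort H
  have hmono : StrictMono (H ∘ τ) :=
    (Tuple.monotone_sort H).strictMono_of_injective (hinj.comp τ.injective)
  let d : Fin l → Fin l → V := fun i j => Y (τ j) - Y (τ i)
  have hd : D.IsFrame l d := by
    refine ⟨fun i j k => ?_, fun i j hij => ?_⟩
    · simp only [d]; abel
    · refine D.isRoot_pos (hroot' _ _ fun h => hij.ne (τ.injective h)) ?_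
      have h1 : H (τ i) < H (τ j) := hmono hij
      rw [map_sub]
      exact sub_pos.2 h1
  let κ' : Fin l := Fin.ofNat l κ
  have hκ : ∀ i : Fin l, Y ((i + κ' : Fin l) : ℕ) = Y (i + κ) := by
    intro i
    have h1 : ((i + κ' : Fin l) : ℕ) = ((i : ℕ) + κ) % l := by
      rw [Fin.val_add]
      simp [κ', Fin.ofNat]
    rw [h1, hper]
  let σ : Equiv.Perm (Fin l) := (τ.trans (Equiv.addRight κ')).trans τ.symm
  have hσ : ∀ i, τ (σ i) = τ i + κ' := fun i => by simp [σ]
  refine ⟨⟨d, hd⟩, σ, fun i j => ?_, fun i j => ?_⟩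
  · have hσk : ∀ m : ℕ, ((τ ((σ ^ m) i) : Fin l) : ℕ) = ((τ i : ℕ) + m * κ) % l := by
      intro m
      induction m with
      | zero =>
        rw [pow_zero, Equiv.Perm.one_apply, Nat.zero_mul, Nat.add_zero,
          Nat.mod_eq_of_lt (τ i).2]
      | succ m ih =>
        rw [pow_succ', Equiv.Perm.mul_apply, hσ, Fin.val_add, ih]
        have h1 : (κ' : ℕ) = κ % l := by simp [κ', Fin.ofNat]
        rw [h1, ← Nat.add_mod]
        congr 1
        ring
    refine ⟨k * ((τ j : ℕ) + (l - (τ i : ℕ))), ?_⟩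
    apply τ.injective
    apply Fin.ext
    rw [hσk]
    have h2 : (τ i : ℕ) < l := (τ i).2
    obtain ⟨e, he⟩ : ∃ e, l = (τ i : ℕ) + e := ⟨l - τ i, by omega⟩
    have h3 : l - (τ i : ℕ) = e := by omega
    rw [h3]
    have h4 : (τ i : ℕ) + k * ((τ j : ℕ) + e) * κ = (τ j : ℕ) + l * (1 + t * ((τ j : ℕ) + e)) := by
      have h5 : k * ((τ j : ℕ) + e) * κ = (k * κ) * ((τ j : ℕ) + e) := by ring
      rw [h5, hk]
      have h6 : (1 + t * l) * ((τ j : ℕ) + e) = ((τ j : ℕ) + e) + l * (t * ((τ j : ℕ) + e)) := by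
        ring
      rw [h6]
      have h7 : l * (1 + t * ((τ j : ℕ) + e)) = l + l * (t * ((τ j : ℕ) + e)) := by ring
      rw [h7]
      omega
    rw [h4, Nat.add_mul_mod_self_left, Nat.mod_eq_of_lt (τ j).2]
  · change f (Y (τ j) - Y (τ i)) = Y (τ (σ j)) - Y (τ (σ i))
    rw [map_sub, hf, hf, hσ, hσ, hκ, hκ]
    abel

/-- sums over chains are roots -/
theorem isRoot_chain (hM : D.Fits M) (x : ℕ → V) (n : ℕ) (hr : ∀ i < n, D.IsRoot (x i))
    (h1 : ∀ i, i + 1 < n → D.B (x i) (x (i + 1)) = -1)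
    (h0 : ∀ i j, i + 1 < j → j < n → D.B (x i) (x j) = 0) (i j : ℕ) (hij : i < j) (hj : j ≤ n) :
    D.IsRoot (∑ m ∈ Finset.Ico i j, x m) := by
  induction j with
  | zero => omega
  | succ j ih =>
    rw [Finset.sum_Ico_succ_top (by omega)]
    rcases Nat.lt_or_ge i j with h | h
    · refine D.isRoot_add hM (ih h (by omega)) (hr j (by omega)) ?_
      obtain ⟨j', rfl⟩ : ∃ j', j = j' + 1 := ⟨j - 1, by omega⟩
      rw [Finset.sum_Ico_succ_top (by omega), map_add, AddMonoidHom.add_apply,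
        h1 j' (by omega), map_sum, AddMonoidHom.finsetSum_apply, Finset.sum_eq_zero, zero_add]
      intro m hm
      rw [Finset.mem_Ico] at hm
      exact h0 m (j' + 1) (by omega) (by omega)
    · have h2 : i = j := by omega
      rw [h2, Finset.Ico_self, Finset.sum_empty, zero_add]
      exact hr j (by omega)

/-- The frame of an element with a cyclic chain. -/
theorem exists_frame_cyc (hM : D.Fits M) (tf : ∀ (m : ℤ) (x : V), m • x = 0 → m = 0 ∨ x = 0)
    (g : Artin M) (l : ℕ) (hl : 0 < l) (hgl : D.w hM g ^ l = 1) (k κ t : ℕ)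
    (hk : k * κ = 1 + t * l) (b : P) (hP : ∑ i ∈ Finset.range l, (D.w hM g ^ i) (D.v b) = 0)
    (hc1 : 3 ≤ l → D.B (D.v b) ((D.w hM g ^ k) (D.v b)) = -1)
    (hc0 : ∀ m, 2 ≤ m → m + 2 ≤ l → D.B (D.v b) ((D.w hM g ^ (k * m)) (D.v b)) = 0) :
    ∃ (d : D.Fr l) (σ : Equiv.Perm (Fin l)), (∀ i j, ∃ k : ℕ, (σ ^ k) i = j) ∧
      ∀ i j, D.w hM g (d.1 i j) = d.1 (σ i) (σ j) := by
  classical
  obtain ⟨f, hf⟩ : ∃ f, f = D.w hM g := ⟨_, rfl⟩
  rw [← hf] at hgl hP hc1 hc0 ⊢
  have hB : ∀ (i : ℕ) (x y : V), D.B ((f ^ i) x) ((f ^ i) y) = D.B x y := by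
    intro i x y
    rw [hf, ← map_pow]
    exact D.B_w hM _ x y
  have hR : ∀ i, D.IsRoot ((f ^ i) (D.v b)) := by
    intro i
    rw [hf, ← map_pow]
    exact D.isRoot_w hM _ ⟨b, Or.inl rfl⟩
  have hadd : ∀ (i j : ℕ) (x : V), (f ^ (i + j)) x = (f ^ i) ((f ^ j) x) := by
    intro i j x
    rw [pow_add]; rfl
  have hlm : ∀ (m : ℕ) (x : V), (f ^ (m * l)) x = x := by
    intro m x
    rw [mul_comm, pow_mul, hgl, one_pow]; rfl
  let x : ℕ → V := fun m => (f ^ (k * m)) (D.v b)
  have hxl : ∀ m, x (m + l) = x m := by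
    intro m
    simp only [x]
    rw [mul_add, hadd, hlm]
  have hfx : ∀ m, f (x m) = x (m + κ) := by
    intro m
    simp only [x]
    rw [mul_add, hk, ← add_assoc, hadd (k * m + 1), hlm, add_comm, hadd 1, pow_one]
  -- the sum over a period
  have hQ : ∑ m ∈ Finset.range l, x m = 0 := by
    obtain ⟨Q, hQ⟩ : ∃ Q, Q = ∑ m ∈ Finset.range l, x m := ⟨_, rfl⟩
    have hsh : ∀ n, ∑ m ∈ Finset.range l, x (m + n) = Q := by
      intro n
      induction n with
      | zero => exact hQ.symm
      | succ n ih =>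
        rw [← ih]
        have h1 := Finset.sum_range_succ (fun m => x (m + n)) l
        have h2 := Finset.sum_range_succ' (fun m => x (m + n)) l
        rw [h1, add_comm l n, hxl, Nat.zero_add] at h2
        have h3 : ∀ m, x (m + 1 + n) = x (m + (n + 1)) := fun m => by congr 1; ring
        simp only [h3] at h2
        exact (add_right_cancel h2).symm
    have hfQ : f Q = Q := by
      conv_lhs => rw [hQ]
      rw [map_sum]
      simp only [hfx]
      exact hsh κ
    have hfQ' : ∀ i, (f ^ i) Q = Q := by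
      intro i
      induction i with
      | zero => rfl
      | succ i ih => rw [pow_succ', LinearEquiv.mul_apply, ih, hfQ]
    have h4 : (l : ℤ) • Q = 0 := by
      have h5 : ∑ i ∈ Finset.range l, (f ^ i) Q = (l : ℤ) • Q := by
        simp only [hfQ']
        rw [Finset.sum_const, Finset.card_range, natCast_zsmul]
      rw [← h5, hQ]
      simp only [map_sum]
      rw [Finset.sum_comm]
      refine Finset.sum_eq_zero fun m _ => ?_
      have h6 : ∀ i, (f ^ i) (x m) = (f ^ (k * m)) ((f ^ i) (D.v b)) := by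
        intro i
        simp only [x]
        rw [← hadd, ← hadd, add_comm]
      simp only [h6]
      rw [← map_sum, hP, map_zero]
    rcases tf _ _ h4 with h5 | h5
    · exact absurd h5 (by exact_mod_cast hl.ne')
    · rw [← hQ]; exact h5
  let Y : ℕ → V := fun n => ∑ m ∈ Finset.range n, x m
  have hYl : ∀ n, Y (l + n) = Y n := by
    intro n
    simp only [Y]
    rw [Finset.sum_range_add, hQ, zero_add]
    refine Finset.sum_congr rfl fun m _ => ?_
    rw [add_comm, hxl]
  have hYm : ∀ q n, Y (l * q + n) = Y n := by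
    intro q n
    induction q with
    | zero => rw [Nat.mul_zero, Nat.zero_add]
    | succ q ih =>
      rw [show l * (q + 1) + n = l + (l * q + n) by ring, hYl, ih]
  have hper : ∀ i, Y (i % l) = Y i := by
    intro i
    conv_rhs => rw [← Nat.div_add_mod i l, hYm]
  refine D.exists_frame_of f l hl Y (-Y κ) κ k t hk hper (fun i j hij hj => ?_) fun i => ?_
  · have h1 : Y j - Y i = ∑ m ∈ Finset.Ico i j, x m := by
      rw [Finset.sum_Ico_eq_sub _ hij.le]
    rw [h1]
    refine D.isRoot_chain hM x (l - 1) (fun i _ => hR _) (fun i hi => ?_)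
      (fun i j hij hj => ?_) i j hij (by omega)
    · simp only [x]
      rw [mul_add, mul_one, hadd, hB]
      exact hc1 (by omega)
    · obtain ⟨m, rfl⟩ : ∃ m, j = i + m := ⟨j - i, by omega⟩
      simp only [x]
      rw [mul_add, hadd, hB]
      exact hc0 m (by omega) (by omega)
  · simp only [Y]
    rw [map_sum]
    simp only [hfx]
    rw [add_comm i κ, Finset.sum_range_add]
    have h1 : ∀ m, x (m + κ) = x (κ + m) := fun m => by rw [add_comm]
    simp only [h1]
    abel

end RD

end Pool.Agent.Art
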