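import Pool.Agent.Art.CC3

/-!
# Condition (C) for positive definite data of rank at most `8` without diagram automorphisms
-/

set_option autoImplicit false

namespace Pool.Agent.Art

namespace RD

variable {P V : Type} [AddCommGroup V] (D : RD (Fin 8) P V) {M : CoxeterMatrix (Fin 8)}

theorem adapted8 [Finite P] (pd : ∀ x : V, x ≠ 0 → 0 < D.B x x)
    (sp : Submodule.span ℤ (Set.range fun s => D.v (D.a s)) = ⊤) (hM : D.Fits M)
    (ha : NoAut M) : D.Adapted hM 7 := by
  classical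
  intro g l hl hgl hne
  obtain ⟨b, hP⟩ := D.exists_root_sum pd sp hM ha g l hgl hne
  have tf : ∀ (m : ℤ) (x : V), m • x = 0 → m = 0 ∨ x = 0 := by
    intro m x h
    by_cases hx : x = 0
    · exact Or.inr hx
    · left
      have h1 : D.B (m • x) x = 0 := by rw [h]; simp
      rw [map_zsmul, AddMonoidHom.smul_apply, smul_eq_mul] at h1
      rcases mul_eq_zero.1 h1 with h2 | h2
      · exact h2
      · exact absurd h2 (pd x hx).ne'
  have ha0 : D.v b ≠ 0 := by
    intro h
    have h1 := D.norm b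
    rw [h] at h1
    simp at h1
  obtain ⟨f, hf⟩ : ∃ f, f = D.w hM g := ⟨_, rfl⟩
  have hpowe : ∀ (i : ℕ) (x : V), (f.toLinearMap ^ i) x = (f ^ i) x := by
    intro i x
    induction i generalizing x with
    | zero => rfl
    | succ i ih => rw [pow_succ, pow_succ, Module.End.mul_apply, ih]; rfl
  have hl9 : l ≤ 8 + 1 := by
    refine prime_le (fun s : Fin 8 => D.v (D.a s)) sp tf f.toLinearMap ha0 hl ?_
    simp only [hpowe]
    rw [hf]
    exact hP
  -- the numbers `c j`
  obtain ⟨c, hc⟩ : ∃ c : ℕ → ℤ, ∀ j, D.B (D.v b) ((f ^ j) (D.v b)) = c j :=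
    ⟨fun j => D.B (D.v b) ((f ^ j) (D.v b)), fun _ => rfl⟩
  have hB : ∀ (i : ℕ) (x y : V), D.B ((f ^ i) x) ((f ^ i) y) = D.B x y := by
    intro i x y
    rw [hf, ← map_pow]
    exact D.B_w hM _ x y
  have hadd : ∀ (i j : ℕ) (x : V), (f ^ (i + j)) x = (f ^ i) ((f ^ j) x) := by
    intro i j x
    rw [pow_add]; rfl
  have hlm : ∀ (m : ℕ) (x : V), (f ^ (m * l)) x = x := by
    intro m x
    rw [mul_comm, pow_mul, hf, hgl, one_pow]; rfl
  have hc0 : c 0 = 2 := by rw [← hc 0, pow_zero]; exact D.norm b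
  have hper : ∀ j m, c (j + m * l) = c j := by
    intro j m
    rw [← hc, ← hc, hadd, hlm]
  have hij : ∀ i j, D.B ((f ^ i) (D.v b)) ((f ^ j) (D.v b)) =
      if i ≤ j then c (j - i) else c (i - j) := by
    intro i j
    split_ifs with h
    · obtain ⟨m, rfl⟩ : ∃ m, j = i + m := ⟨j - i, by omega⟩
      rw [hadd, hB, hc, Nat.add_sub_cancel_left]
    · obtain ⟨m, rfl⟩ : ∃ m, i = j + m := ⟨i - j, by omega⟩
      rw [hadd, hB, D.symm, hc, Nat.add_sub_cancel_left]
  have hsym : ∀ i j, i + j = l → c i = c j := by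
    intro i j h
    have h1 := hij j l
    rw [if_pos (by omega)] at h1
    have h2 : l - j = i := by omega
    rw [h2] at h1
    rw [← h1, ← one_mul l, hlm, D.symm, hc]
  have hsum : ∑ j ∈ Finset.range l, c j = 0 := by
    have h1 : D.B (D.v b) (∑ i ∈ Finset.range l, (D.w hM g ^ i) (D.v b)) = 0 := by
      rw [hP, map_zero]
    rw [map_sum, ← hf] at h1
    simp only [hc] at h1
    exact h1
  -- no fixed roots
  have hnf : ∀ j, 0 < j → j < l → (f ^ j) (D.v b) ≠ D.v b := by
    intro j h0 hj h1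
    have hcop : Nat.Coprime j l := by
      rw [Nat.coprime_comm, hl.coprime_iff_not_dvd]
      intro hd
      exact absurd (Nat.le_of_dvd h0 hd) (by omega)
    obtain ⟨m, -, hm⟩ := Nat.exists_mul_mod_eq_one_of_coprime hcop hl.one_lt
    have h2 : ∀ n : ℕ, (f ^ (j * n)) (D.v b) = D.v b := by
      intro n
      induction n with
      | zero => rfl
      | succ n ih => rw [mul_add, mul_one, hadd, h1, ih]
    have h3 : f (D.v b) = D.v b := by
      have h4 := h2 m
      rw [← Nat.mod_add_div (j * m) l, hm, mul_comm l, hadd, hlm, pow_one] at h4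
      exact h4
    have h5 : ∀ i : ℕ, (f ^ i) (D.v b) = D.v b := by
      intro i
      induction i with
      | zero => rfl
      | succ i ih => rw [pow_succ, LinearEquiv.mul_apply, h3, ih]
    rw [← hf] at hP
    simp only [h5] at hP
    rw [Finset.sum_const, Finset.card_range, ← natCast_zsmul] at hP
    rcases tf _ _ hP with h6 | h6
    · exact hl.ne_zero (by exact_mod_cast h6)
    · exact ha0 h6
  have hbd : l ≠ 2 → ∀ j, 0 < j → j < l → -1 ≤ c j ∧ c j ≤ 1 := by
    intro hl2 j h0 hj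
    have h1 := D.w_v hM (g ^ j) b
    rw [map_pow, ← hf] at h1
    obtain ⟨b', hb'⟩ : ∃ b', b' = D.perm hM (g ^ j) b := ⟨_, rfl⟩
    rw [← hb'] at h1
    have hne2 : ∀ m : ℕ, l ≠ 2 → (f ^ j) (D.v b) = -D.v b → False := by
      intro _ _ h2
      have h3 : (f ^ (j + j)) (D.v b) = D.v b := by
        rw [hadd, h2, map_neg, h2, neg_neg]
      have hodd : l % 2 = 1 := Nat.odd_iff.1 (hl.odd_of_ne_two hl2)
      rcases Nat.lt_or_ge (j + j) l with h4 | h4
      · exact hnf (j + j) (by omega) h4 h3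
      · obtain ⟨e, he⟩ : ∃ e, j + j = e + 1 * l := ⟨j + j - l, by omega⟩
        rw [he, hadd, hlm] at h3
        exact hnf e (by omega) (by omega) h3
    rw [← hc]
    rcases h1 with h1 | h1
    · rw [h1]
      refine D.bnd b b' fun h2 => ?_
      exact hnf j h0 hj (by rw [h1, ← h2])
    · rw [h1, map_neg]
      have h3 := D.bnd b b' fun h2 => hne2 0 hl2 (by rw [h1, ← h2])
      omega
  have hfr : ∀ (k κ t : ℕ), k * κ = 1 + t * l →
      (3 ≤ l → c k = -1) → (∀ m, 2 ≤ m → m + 2 ≤ l → c (k * m) = 0) →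
      ∃ (d : D.Fr l) (σ : Equiv.Perm (Fin l)), (∀ i j, ∃ k : ℕ, (σ ^ k) i = j) ∧
      ∀ i j, D.w hM g (d.1 i j) = d.1 (σ i) (σ j) := by
    intro k κ t hk h1 h0
    refine D.exists_frame_cyc hM tf g l hl.pos hgl k κ t hk b hP ?_ ?_
    · rw [← hf, hc]; exact h1
    · intro m h2 h3
      rw [← hf, hc]; exact h0 m h2 h3
  refine ⟨?_, ?_⟩
  · have h2 := hl.two_le
    interval_cases l <;> first | omega | (exfalso; revert hl; norm_num)
  have h2 := hl.two_le
  interval_cases l
  · -- l = 2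
    refine hfr 1 1 0 (by norm_num) (by omega) (fun m h3 h4 => by omega)
  · -- l = 3
    have e1 := hsym 1 2 (by norm_num)
    simp only [Finset.sum_range_succ, Finset.sum_range_zero] at hsum
    refine hfr 1 1 0 (by norm_num) (fun _ => by omega) (fun m h3 h4 => by omega)
  · exact absurd hl (by norm_num)
  · -- l = 5
    have e1 := hsym 1 4 (by norm_num)
    have e2 := hsym 2 3 (by norm_num)
    have b1 := hbd (by norm_num) 1 (by norm_num) (by norm_num)
    have b2 := hbd (by norm_num) 2 (by norm_num) (by norm_num)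
    simp only [Finset.sum_range_succ, Finset.sum_range_zero] at hsum
    have hcase : (c 1 = -1 ∧ c 2 = 0) ∨ (c 1 = 0 ∧ c 2 = -1) := by omega
    rcases hcase with ⟨h3, h4⟩ | ⟨h3, h4⟩
    · refine hfr 1 1 0 (by norm_num) (fun _ => h3) (fun m h5 h6 => ?_)
      have hm : m = 2 ∨ m = 3 := by omega
      rcases hm with rfl | rfl
      · exact h4
      · rw [one_mul, ← e2, h4]
    · refine hfr 2 3 1 (by norm_num) (fun _ => h4) (fun m h5 h6 => ?_)
      have hm : m = 2 ∨ m = 3 := by omega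
      rcases hm with rfl | rfl
      · rw [show 2 * 2 = 4 by norm_num, ← e1, h3]
      · have h7 := hper 1 1
        rw [show 2 * 3 = 1 + 1 * 5 by norm_num, h7, h3]
  · exact absurd hl (by norm_num)
  · -- l = 7
    have e1 := hsym 1 6 (by norm_num)
    have e2 := hsym 2 5 (by norm_num)
    have e3 := hsym 3 4 (by norm_num)
    have b1 := hbd (by norm_num) 1 (by norm_num) (by norm_num)
    have b2 := hbd (by norm_num) 2 (by norm_num) (by norm_num)
    have b3 := hbd (by norm_num) 3 (by norm_num) (by norm_num)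
    simp only [Finset.sum_range_succ, Finset.sum_range_zero] at hsum
    have hnn : ∀ x : V, 0 ≤ D.B x x := by
      intro x
      by_cases hx : x = 0
      · rw [hx]; simp
      · exact (pd x hx).le
    have q1 := hnn (-(f ^ 0) (D.v b) - (f ^ 3) (D.v b) + (f ^ 4) (D.v b) - (f ^ 5) (D.v b) +
      (f ^ 6) (D.v b))
    have q2 := hnn (-(f ^ 0) (D.v b) - (f ^ 1) (D.v b) + (f ^ 2) (D.v b) - (f ^ 4) (D.v b) +
      (f ^ 6) (D.v b))
    have q3 := hnn (-(f ^ 0) (D.v b) - (f ^ 1) (D.v b) - (f ^ 2) (D.v b) + (f ^ 4) (D.v b) +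
      (f ^ 5) (D.v b))
    simp only [map_add, map_sub, map_neg, AddMonoidHom.add_apply, AddMonoidHom.sub_apply,
      AddMonoidHom.neg_apply, hij] at q1 q2 q3
    norm_num at q1 q2 q3
    have hcase : (c 1 = -1 ∧ c 2 = 0 ∧ c 3 = 0) ∨ (c 1 = 0 ∧ c 2 = -1 ∧ c 3 = 0) ∨
        (c 1 = 0 ∧ c 2 = 0 ∧ c 3 = -1) := by omega
    rcases hcase with ⟨h3, h4, h5⟩ | ⟨h3, h4, h5⟩ | ⟨h3, h4, h5⟩
    · refine hfr 1 1 0 (by norm_num) (fun _ => h3) (fun m h6 h7 => ?_)
      have hm : m = 2 ∨ m = 3 ∨ m = 4 ∨ m = 5 := by omega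
      rcases hm with rfl | rfl | rfl | rfl
      · exact h4
      · exact h5
      · rw [one_mul, ← e3, h5]
      · rw [one_mul, ← e2, h4]
    · refine hfr 2 4 1 (by norm_num) (fun _ => h4) (fun m h6 h7 => ?_)
      have hm : m = 2 ∨ m = 3 ∨ m = 4 ∨ m = 5 := by omega
      rcases hm with rfl | rfl | rfl | rfl
      · rw [show 2 * 2 = 4 by norm_num, ← e3, h5]
      · rw [show 2 * 3 = 6 by norm_num, ← e1, h3]
      · rw [show 2 * 4 = 1 + 1 * 7 by norm_num, hper, h3]
      · rw [show 2 * 5 = 3 + 1 * 7 by norm_num, hper, h5]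
    · refine hfr 3 5 2 (by norm_num) (fun _ => h5) (fun m h6 h7 => ?_)
      have hm : m = 2 ∨ m = 3 ∨ m = 4 ∨ m = 5 := by omega
      rcases hm with rfl | rfl | rfl | rfl
      · rw [show 3 * 2 = 6 by norm_num, ← e1, h3]
      · rw [show 3 * 3 = 2 + 1 * 7 by norm_num, hper, h4]
      · rw [show 3 * 4 = 5 + 1 * 7 by norm_num, hper, ← e2, h4]
      · rw [show 3 * 5 = 1 + 2 * 7 by norm_num, hper, h3]
  · exact absurd hl (by norm_num)
  · exact absurd hl (by norm_num)

end RD

end Pool.Agent.Art
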