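import Pool.Agent.Art.ClKap

/-!
# A path cannot have end gadgets at both ends (types `D~`, `B~`, `C~`)

PROOF. Weights: `w : B → ℝ` on a gadget `G` at `c`: `1` on both nodes if `G = {e1, e2}`, `√2` if
`G = {e}`. In both cases (kap_three, kap_four, kap_symm; note `c ∉ G`)
(a) `0 < w e` and `2 w e + kap M e c * 2 ≤ 0` for `e ∈ G`;
(b) `∑ e ∈ G, kap M c e * w e ≤ -2`  (`-1 - 1`, `-√2 * √2`).
Prove this first: `∃ w : B → ℝ, (∀ e ∈ G, 0 < w e ∧ 2 * w e + kap M e c * 2 ≤ 0) ∧
∑ e ∈ G, kap M c e * w e ≤ -2` (a constant function `w` will do). Then apply `PDef.test` to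
`x = w0` on `G0`, `w1` on `G1`, `2` on the range of `b` and `0` elsewhere, with the sets
`S = {b 0}` at `e ∈ G0`, `{b (last r)}` at `e ∈ G1`, and at `b i`
`S = (if i = 0 then G0 else {b (i - 1)}) ∪ (if i = last then G1 else {b (i + 1)})` (disjoint
union): both parts contribute at most `-2`: in the path by `kap_three`, `kap * 2 ≤ -2`.
-/

set_option autoImplicit false

noncomputable section

namespace Pool.Agent.Art

open Classical

private theorem gadget {B : Type} {M : CoxeterMatrix B} {c : B} {G : Finset B}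
    (hG : EndG M c G) (hc : c ∉ G) :
    ∃ w : ℝ, 0 < w ∧ (∀ e ∈ G, 2 * w + kap M e c * 2 ≤ 0) ∧ ∑ e ∈ G, kap M c e * w ≤ -2 := by
  rcases hG with ⟨e1, e2, h12, rfl, h1, h2⟩ | ⟨e, rfl, h1, h2⟩
  · have hc1 : c ≠ e1 := fun h => hc (by rw [h]; exact Finset.mem_insert_self _ _)
    have hc2 : c ≠ e2 := fun h => hc (by
      rw [h]; exact Finset.mem_insert_of_mem (Finset.mem_singleton_self _))
    have k1 := kap_three M hc1 h1
    have k2 := kap_three M hc2 h2
    refine ⟨1, one_pos, ?_, ?_⟩
    · intro e he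
      rw [Finset.mem_insert, Finset.mem_singleton] at he
      rcases he with rfl | rfl
      · rw [kap_symm]
        linarith
      · rw [kap_symm]
        linarith
    · rw [Finset.sum_pair h12]
      linarith
  · have hc1 : c ≠ e := fun h => hc (by rw [h]; exact Finset.mem_singleton_self _)
    have k1 := kap_four M hc1 h1 h2
    have hs : √2 * √2 = (2 : ℝ) := Real.mul_self_sqrt (by norm_num)
    have hp : 0 < √(2 : ℝ) := Real.sqrt_pos.2 (by norm_num)
    refine ⟨√2, hp, ?_, ?_⟩
    · intro e' he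
      rw [Finset.mem_singleton] at he
      rw [he, kap_symm]
      linarith
    · rw [Finset.sum_singleton]
      have := mul_le_mul_of_nonneg_right k1 hp.le
      linarith

theorem no_two_ends {B : Type} [Fintype B] {M : CoxeterMatrix B} (h : PDef M) {r : ℕ}
    (b : Fin (r + 1) → B) (hb : Function.Injective b)
    (hadj : ∀ i : Fin r, M (b i.castSucc) (b i.succ) ≠ 2) (G0 G1 : Finset B)
    (h0 : EndG M (b 0) G0) (h1 : EndG M (b (Fin.last r)) G1) (hd : Disjoint G0 G1)
    (hd0 : ∀ i, b i ∉ G0) (hd1 : ∀ i, b i ∉ G1) : False := by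
  obtain ⟨w0, hw0, ha0, hb0⟩ := gadget h0 (hd0 0)
  obtain ⟨w1, hw1, ha1, hb1⟩ := gadget h1 (hd1 _)
  let x : B → ℝ := fun v =>
    if v ∈ G0 then w0 else if v ∈ G1 then w1 else if v ∈ Set.range b then 2 else 0
  have hx0 : ∀ v ∈ G0, x v = w0 := fun v hv => if_pos hv
  have hx1 : ∀ v ∈ G1, x v = w1 := by
    intro v hv
    have h2 : v ∉ G0 := fun h3 => (Finset.disjoint_left.1 hd h3) hv
    have h3 : x v = if v ∈ G1 then w1 else if v ∈ Set.range b then 2 else 0 := if_neg h2
    rw [h3, if_pos hv]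
  have hxb : ∀ i, x (b i) = 2 := by
    intro i
    have h3 : x (b i) = if b i ∈ G1 then w1 else if b i ∈ Set.range b then 2 else 0 :=
      if_neg (hd0 i)
    rw [h3, if_neg (hd1 i), if_pos ⟨i, rfl⟩]
  have hP : ∀ i, ∃ P : Finset B, (∀ v ∈ P, v ∈ G0 ∨ ∃ j, j < i ∧ v = b j) ∧
      ∑ j ∈ P, kap M (b i) j * x j ≤ -2 := by
    intro i
    rcases Fin.eq_zero_or_eq_succ i with rfl | ⟨j, rfl⟩
    · refine ⟨G0, fun v hv => Or.inl hv, ?_⟩
      rw [Finset.sum_congr rfl fun v hv => by rw [hx0 v hv]]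
      exact hb0
    · refine ⟨{b j.castSucc}, fun v hv => Or.inr ⟨j.castSucc, Fin.castSucc_lt_succ, ?_⟩, ?_⟩
      · rw [Finset.mem_singleton] at hv
        exact hv
      · have hne : b j.castSucc ≠ b j.succ := fun h2 =>
          (Fin.castSucc_lt_succ (i := j)).ne (hb h2)
        have h3 := kap_three M hne (hadj j)
        rw [Finset.sum_singleton, hxb, kap_symm]
        linarith
  have hQ : ∀ i, ∃ P : Finset B, (∀ v ∈ P, v ∈ G1 ∨ ∃ j, i < j ∧ v = b j) ∧
      ∑ j ∈ P, kap M (b i) j * x j ≤ -2 := by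
    intro i
    rcases Fin.eq_castSucc_or_eq_last i with ⟨j, rfl⟩ | rfl
    · refine ⟨{b j.succ}, fun v hv => Or.inr ⟨j.succ, Fin.castSucc_lt_succ, ?_⟩, ?_⟩
      · rw [Finset.mem_singleton] at hv
        exact hv
      · have hne : b j.castSucc ≠ b j.succ := fun h2 =>
          (Fin.castSucc_lt_succ (i := j)).ne (hb h2)
        have h3 := kap_three M hne (hadj j)
        rw [Finset.sum_singleton, hxb]
        linarith
    · refine ⟨G1, fun v hv => Or.inl hv, ?_⟩
      rw [Finset.sum_congr rfl fun v hv => by rw [hx1 v hv]]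
      exact hb1
  refine h.test x ?_ ?_ ?_
  · intro v
    change 0 ≤ (if v ∈ G0 then w0 else if v ∈ G1 then w1 else if v ∈ Set.range b then 2 else 0)
    split_ifs
    · exact hw0.le
    · exact hw1.le
    · exact zero_le_two
    · exact le_rfl
  · intro h2
    have h3 := hxb 0
    rw [h2] at h3
    simp at h3
  · intro v hv
    by_cases hv0 : v ∈ G0
    · refine ⟨{b 0}, ?_, ?_⟩
      · rw [Finset.mem_singleton]
        rintro rfl
        exact hd0 0 hv0
      · rw [Finset.sum_singleton, hxb, hx0 v hv0]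
        exact ha0 v hv0
    by_cases hv1 : v ∈ G1
    · refine ⟨{b (Fin.last r)}, ?_, ?_⟩
      · rw [Finset.mem_singleton]
        rintro rfl
        exact hd1 _ hv1
      · rw [Finset.sum_singleton, hxb, hx1 v hv1]
        exact ha1 v hv1
    by_cases hvb : v ∈ Set.range b
    · obtain ⟨i, rfl⟩ := hvb
      obtain ⟨P, hP1, hP2⟩ := hP i
      obtain ⟨Q, hQ1, hQ2⟩ := hQ i
      have hdis : Disjoint P Q := by
        rw [Finset.disjoint_left]
        intro v hv1 hv2
        rcases hP1 v hv1 with h2 | ⟨j, hj, rfl⟩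
        · rcases hQ1 v hv2 with h3 | ⟨j', _, rfl⟩
          · exact Finset.disjoint_left.1 hd h2 h3
          · exact hd0 _ h2
        · rcases hQ1 _ hv2 with h3 | ⟨j', hj', h4⟩
          · exact hd1 _ h3
          · have h5 := hb h4
            rw [h5] at hj
            exact lt_asymm hj hj'
      refine ⟨P ∪ Q, ?_, ?_⟩
      · rw [Finset.mem_union]
        rintro (h2 | h2)
        · rcases hP1 _ h2 with h3 | ⟨j, hj, h4⟩
          · exact hd0 _ h3
          · exact hj.ne (hb h4).symm
        · rcases hQ1 _ h2 with h3 | ⟨j, hj, h4⟩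
          · exact hd1 _ h3
          · exact hj.ne (hb h4)
      · rw [Finset.sum_union hdis, hxb]
        linarith
    · exfalso
      have h3 : x v = 0 := by
        change (if v ∈ G0 then w0 else if v ∈ G1 then w1 else if v ∈ Set.range b then 2 else 0)
          = 0
        rw [if_neg hv0, if_neg hv1, if_neg hvb]
      rw [h3] at hv
      exact lt_irrefl _ hv

end Pool.Agent.Art
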