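import Pool.Agent.Art.ClFix
import Pool.Agent.Art.ClPath

/-!
# Type `A n` with one more node at an end

`Att.apply` gives all entries of `M`. Let `m = M (last) k` (`m ≠ 2`; `m ≠ 0` by `PDef.ne_zero`,
`m ≠ 1` by `M.off_diagonal`, so `m ≥ 3`).
PROOF of `attA_last` (`k = n - 1`, i.e. `k.val + 1 = n`: the chain `0 - ... - (n-1) - n`):
`m = 3`: `tA (n+1)`, `σ = 1`. `m = 4`: `tB (n+1)`, `σ = Fin.revPerm` (`0 ↦ n`, the new node first;
`Conn.B` needs `2 ≤ n + 1`). `m ≥ 5` and `n = 1`: `Conn.I (m - 2)`, `σ = 1`. `m ≥ 6`, `n ≥ 2`: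
`no_G2t` with `f = ![n-2, n-1, n]`. `m = 5`: `n = 2`: `H₃`, `σ = 1`; `n = 3`: `H₄`, `σ = 1`;
`n ≥ 4`: `no_Z5` with `f = ![n-4, n-3, n-2, n-1, n]`.
PROOF of `attA_zero` (`k.val = 0`: the chain `n - 0 - 1 - ... - (n-1)`): `m = 3`: `tA (n+1)`, `σ j =
n` for `j = 0` and `j - 1` otherwise (the inverse of `finRotate (n+1)`); `m = 4`: `tB (n+1)` with
the same `σ`. `n = 1`: as before. `m ≥ 6`, `n ≥ 2`: `no_G2t`, `f = ![1, 0, n]`; `m = 5`:
`n = 2`: `H₃`, `σ = ![1, 0, 2]`; `n = 3`: `H₄`, `σ = ![2, 1, 0, 3]`; `n ≥ 4`: `no_Z5` with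
`f = ![3, 2, 1, 0, n]`.
(Permutations of `Fin 3`, `Fin 4` for example by `Equiv.ofBijective ![1, 0, 2] (by decide)` or
products of `Equiv.swap`; for concrete `n` finish by `decide` after rewriting with `Att.apply`
and the value of `m`.)
-/

set_option autoImplicit false

noncomputable section

namespace Pool.Agent.Art

private theorem tA_ap (n : ℕ) (a b : Fin n) : tA n a b =
    if a.val = b.val then 1 else if a.val + 1 = b.val ∨ b.val + 1 = a.val then 3 else 2 := by
  change (if a = b then 1 else if (a : ℕ) + 1 = b ∨ (b : ℕ) + 1 = a then 3 else 2) = _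
  simp only [Fin.ext_iff]

private theorem tB_ap (n : ℕ) (a b : Fin n) : tB n a b =
    if a.val = b.val then 1 else if a.val + 1 = b.val ∨ b.val + 1 = a.val then
      (if a.val = 0 ∨ b.val = 0 then 4 else 3) else 2 := by
  change (if a = b then 1 else if (a : ℕ) + 1 = b ∨ (b : ℕ) + 1 = a then
    (if (a : ℕ) = 0 ∨ (b : ℕ) = 0 then 4 else 3) else 2) = _
  simp only [Fin.ext_iff]

private theorem adjA {n : ℕ} {k : Fin n} {M : CoxeterMatrix (Fin (n + 1))} (h : Att (tA n) k M)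
    (a b : ℕ) (ha : a < n) (hb : b < n) (hab : a + 1 = b ∨ b + 1 = a) :
    M ⟨a, by omega⟩ ⟨b, by omega⟩ ≠ 2 := by
  have h1 : M ⟨a, by omega⟩ ⟨b, by omega⟩ = tA n ⟨a, ha⟩ ⟨b, hb⟩ := h.old ⟨a, ha⟩ ⟨b, hb⟩
  rw [h1, tA_ap]
  dsimp only
  rw [if_neg (by omega), if_pos hab]
  decide

private theorem newA {n : ℕ} {k : Fin n} {M : CoxeterMatrix (Fin (n + 1))} (a : ℕ) (ha : a < n)
    (hk : k.val = a) : M ⟨a, by omega⟩ ⟨n, by omega⟩ = M (Fin.last n) k.castSucc := by
  subst hk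
  rw [M.symmetric]
  rfl

private theorem G2A {n : ℕ} {k : Fin n} {M : CoxeterMatrix (Fin (n + 1))} (h : Att (tA n) k M)
    (a b : ℕ) (ha : a < n) (hb : b < n) (hab : a + 1 = b ∨ b + 1 = a) (hk : k.val = b)
    (h3 : M (Fin.last n) k.castSucc ≠ 3) (h4 : M (Fin.last n) k.castSucc ≠ 4)
    (h5 : M (Fin.last n) k.castSucc ≠ 5) : False := by
  have e := newA (M := M) b hb hk
  refine no_G2t h.pd ![⟨a, by omega⟩, ⟨b, by omega⟩, ⟨n, by omega⟩] ?_ ?_ ?_ ?_ ?_ ?_
  · intro i j hij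
    fin_cases i <;> fin_cases j <;> simp [Fin.ext_iff] at hij ⊢ <;> omega
  · exact adjA h a b ha hb hab
  · change M ⟨b, _⟩ ⟨n, _⟩ ≠ 2
    rw [e]
    exact h.new
  · change M ⟨b, _⟩ ⟨n, _⟩ ≠ 3
    rwa [e]
  · change M ⟨b, _⟩ ⟨n, _⟩ ≠ 4
    rwa [e]
  · change M ⟨b, _⟩ ⟨n, _⟩ ≠ 5
    rwa [e]

private theorem Z5A {n : ℕ} {k : Fin n} {M : CoxeterMatrix (Fin (n + 1))} (h : Att (tA n) k M)
    (a b c d : ℕ) (ha : a < n) (hb : b < n) (hc : c < n) (hd : d < n)
    (hq : a + 1 = b ∧ b + 1 = c ∧ c + 1 = d ∨ b + 1 = a ∧ c + 1 = b ∧ d + 1 = c)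
    (hk : k.val = d) (h3 : M (Fin.last n) k.castSucc ≠ 3)
    (h4 : M (Fin.last n) k.castSucc ≠ 4) : False := by
  have e := newA (M := M) d hd hk
  refine no_Z5 h.pd ![⟨a, by omega⟩, ⟨b, by omega⟩, ⟨c, by omega⟩, ⟨d, by omega⟩,
    ⟨n, by omega⟩] ?_ ?_ ?_ ?_ ?_ ?_ ?_
  · intro i j hij
    fin_cases i <;> fin_cases j <;> simp [Fin.ext_iff] at hij ⊢ <;> omega
  · exact adjA h a b ha hb (by omega)
  · exact adjA h b c hb hc (by omega)
  · exact adjA h c d hc hd (by omega)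
  · change M ⟨d, _⟩ ⟨n, _⟩ ≠ 2
    rw [e]
    exact h.new
  · change M ⟨d, _⟩ ⟨n, _⟩ ≠ 3
    rwa [e]
  · change M ⟨d, _⟩ ⟨n, _⟩ ≠ 4
    rwa [e]

private theorem oneA {k : Fin 1} {M : CoxeterMatrix (Fin 2)} (h : Att (tA 1) k M)
    (h5 : 5 ≤ M (Fin.last 1) k.castSucc) : Lst M := by
  refine ⟨CoxeterMatrix.I (M (Fin.last 1) k.castSucc - 2), Conn.I _ (by omega),
    Equiv.refl _, fun i j => ?_⟩
  have h1 : CoxeterMatrix.I (M (Fin.last 1) k.castSucc - 2) i j =
    if i = j then 1 else M (Fin.last 1) k.castSucc - 2 + 2 := rfl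
  rw [h1, Nat.sub_add_cancel (by omega)]
  split_ifs with hij
  · subst hij
    exact M.diagonal _
  · have hk : k = 0 := Subsingleton.elim _ _
    subst hk
    change M i j = M 1 0
    fin_cases i <;> fin_cases j
    · exact absurd rfl hij
    · exact M.symmetric _ _
    · rfl
    · exact absurd rfl hij

private theorem mA {n : ℕ} {k : Fin n} {M : CoxeterMatrix (Fin (n + 1))} (h : Att (tA n) k M) :
    3 ≤ M (Fin.last n) k.castSucc := by
  have h0 := h.pd.ne_zero (Fin.last n) k.castSucc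
  have h1 := M.off_diagonal (Fin.last n) k.castSucc (Fin.castSucc_lt_last k).ne'
  have h2 := h.new
  omega

theorem attA_last {n : ℕ} {k : Fin n} {M : CoxeterMatrix (Fin (n + 1))} (h : Att (tA n) k M)
    (hk : k.val + 1 = n) : Lst M := by
  have hm := mA h
  by_cases h3 : M (Fin.last n) k.castSucc = 3
  · refine ⟨tA (n + 1), Conn.A _ (by omega), Equiv.refl _, fun i j => ?_⟩
    have hi := i.isLt
    have hj := j.isLt
    rw [h.apply, h3, tA_ap]
    simp only [attf, tA_ap, Equiv.refl_apply]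
    split_ifs <;> omega
  by_cases h4 : M (Fin.last n) k.castSucc = 4
  · refine ⟨tB (n + 1), Conn.B _ (by omega), Fin.revPerm, fun i j => ?_⟩
    have hi := i.isLt
    have hj := j.isLt
    rw [h.apply, h4, tB_ap]
    simp only [attf, tA_ap, Fin.revPerm_apply, Fin.val_rev]
    split_ifs <;> omega
  by_cases hn1 : n = 1
  · subst hn1
    exact oneA h (by omega)
  by_cases h5 : M (Fin.last n) k.castSucc = 5
  · by_cases hn2 : n = 2
    · subst hn2
      have hk1 : k = 1 := Fin.ext (by simpa using hk)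
      subst hk1
      refine ⟨CoxeterMatrix.H₃, Conn.H3, Equiv.refl _, fun i j => ?_⟩
      rw [h.apply, h5, Equiv.refl_apply, Equiv.refl_apply]
      revert i j
      decide
    by_cases hn3 : n = 3
    · subst hn3
      have hk1 : k = 2 := Fin.ext (by simpa using hk)
      subst hk1
      refine ⟨CoxeterMatrix.H₄, Conn.H4, Equiv.refl _, fun i j => ?_⟩
      rw [h.apply, h5, Equiv.refl_apply, Equiv.refl_apply]
      revert i j
      decide
    · exact (Z5A h (n - 4) (n - 3) (n - 2) (n - 1) (by omega) (by omega) (by omega) (by omega)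
        (by omega) (by omega) h3 h4).elim
  · exact (G2A h (n - 2) (n - 1) (by omega) (by omega) (by omega) (by omega) h3 h4 h5).elim

private theorem rot_val {n : ℕ} (i : Fin (n + 1)) :
    i.val = n ∧ (finRotate (n + 1) i).val = 0 ∨
      i.val < n ∧ (finRotate (n + 1) i).val = i.val + 1 := by
  rw [coe_finRotate]
  have hi := i.isLt
  by_cases h : i = Fin.last n
  · rw [if_pos h]
    exact Or.inl ⟨congrArg Fin.val h, rfl⟩
  · rw [if_neg h]
    have h1 : i.val ≠ n := fun h2 => h (Fin.ext h2)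
    omega

theorem attA_zero {n : ℕ} {k : Fin n} {M : CoxeterMatrix (Fin (n + 1))} (h : Att (tA n) k M)
    (hk : k.val = 0) : Lst M := by
  have hm := mA h
  have hkn := k.isLt
  by_cases h3 : M (Fin.last n) k.castSucc = 3
  · refine ⟨tA (n + 1), Conn.A _ (by omega), (finRotate (n + 1)).symm, fun i j => ?_⟩
    obtain ⟨i, rfl⟩ := (finRotate (n + 1)).surjective i
    obtain ⟨j, rfl⟩ := (finRotate (n + 1)).surjective j
    have hi := rot_val i
    have hj := rot_val j
    rw [Equiv.symm_apply_apply, Equiv.symm_apply_apply, h.apply, h3, tA_ap]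
    simp only [attf, tA_ap]
    split_ifs <;> omega
  by_cases h4 : M (Fin.last n) k.castSucc = 4
  · refine ⟨tB (n + 1), Conn.B _ (by omega), (finRotate (n + 1)).symm, fun i j => ?_⟩
    obtain ⟨i, rfl⟩ := (finRotate (n + 1)).surjective i
    obtain ⟨j, rfl⟩ := (finRotate (n + 1)).surjective j
    have hi := rot_val i
    have hj := rot_val j
    rw [Equiv.symm_apply_apply, Equiv.symm_apply_apply, h.apply, h4, tB_ap]
    simp only [attf, tA_ap]
    split_ifs <;> omega
  by_cases hn1 : n = 1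
  · subst hn1
    exact oneA h (by omega)
  by_cases h5 : M (Fin.last n) k.castSucc = 5
  · by_cases hn2 : n = 2
    · subst hn2
      have hk1 : k = 0 := Fin.ext (by simpa using hk)
      subst hk1
      refine ⟨CoxeterMatrix.H₃, Conn.H3, Equiv.swap 0 1, fun i j => ?_⟩
      rw [h.apply, h5]
      revert i j
      decide
    by_cases hn3 : n = 3
    · subst hn3
      have hk1 : k = 0 := Fin.ext (by simpa using hk)
      subst hk1
      refine ⟨CoxeterMatrix.H₄, Conn.H4, Equiv.swap 0 2, fun i j => ?_⟩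
      rw [h.apply, h5]
      revert i j
      decide
    · exact (Z5A h 3 2 1 0 (by omega) (by omega) (by omega) (by omega)
        (by omega) (by omega) h3 h4).elim
  · exact (G2A h 1 0 (by omega) (by omega) (by omega) (by omega) h3 h4 h5).elim

end Pool.Agent.Art
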