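import Pool.Agent.Art.ClFix
import Pool.Agent.Art.ClPath

/-!
# Type `A n` with one more node at an interior node

`Att.apply` gives all entries of `M`. Let `m = M (last) k ≠ 2` and `1 ≤ k ≤ n - 2`.
PROOF. (1) `m = 3`: otherwise `no_two_ends` with the path `b = ![k]` (`r = 0`), `G0 = {k-1, k+1}`
(two neighbours), `G1 = {last}` (one neighbour with label `≠ 2, 3`).
(2) `k = 1`: `D (n+1)`, `σ j = n` for `j = 0` and `j - 1` otherwise (inverse of `finRotate (n+1)`;
`tD (n+1)`: chain `1 - 2 - ... - n` and `0 - 2`; `Conn.D` needs `4 ≤ n + 1`).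
(3) `k = n - 2`: `D (n+1)`, `σ = Fin.revPerm` (`j ↦ n - j`).
(4) `k = 2`, `n ≥ 5` (`n = 4` is (3)): `n = 5`: `E₆`, `σ = ![0,5,1,2,3,4]`; `n = 6`: `E₇`,
`σ = ![0,6,1,2,3,4,5]`; `n = 7`: `E₈`, `σ = ![0,7,1,2,3,4,5,6]`; `n ≥ 8`: `no_E8t` with
`f = ![2, 3, 4, 5, 6, 7, 1, 0, last]`.
(5) `k = n - 3`, `k ≥ 3`: `n = 6`: `E₇`, `σ = ![5,6,4,3,2,1,0]`; `n = 7`: `E₈`,
`σ = ![6,7,5,4,3,2,1,0]`; `n ≥ 8`: `no_E8t` with
`f = ![k, k-1, k-2, k-3, k-4, k-5, k+1, k+2, last]`.
(6) `3 ≤ k ≤ n - 4`: `no_E7t` with `f = ![k, k-1, k-2, k-3, k+1, k+2, k+3, last]`.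
-/

set_option autoImplicit false

noncomputable section

namespace Pool.Agent.Art

private theorem tA_val {n : ℕ} (i j : Fin n) : tA n i j =
    if i = j then 1 else if (i : ℕ) + 1 = j ∨ (j : ℕ) + 1 = i then 3 else 2 := rfl

private theorem tD_val {n : ℕ} (i j : Fin n) : tD n i j =
    if i = j then 1
    else if (i : ℕ) = 0 ∧ (j : ℕ) = 2 ∨ (j : ℕ) = 0 ∧ (i : ℕ) = 2 then 3
    else if (i : ℕ) = 0 ∨ (j : ℕ) = 0 then 2
    else if (i : ℕ) + 1 = j ∨ (j : ℕ) + 1 = i then 3 else 2 := rfl

private theorem adj2 {n : ℕ} {k : Fin n} {M : CoxeterMatrix (Fin (n + 1))}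
    (h : Att (tA n) k M) {i j : Fin (n + 1)} (hi : i.val < n) (hj : j.val < n)
    (hij : i.val + 1 = j.val ∨ j.val + 1 = i.val) : M i j ≠ 2 := by
  have h1 : M i j = tA n ⟨i.val, hi⟩ ⟨j.val, hj⟩ := h.old ⟨i.val, hi⟩ ⟨j.val, hj⟩
  rw [h1, tA_val]
  have hne : (⟨i.val, hi⟩ : Fin n) ≠ ⟨j.val, hj⟩ := by
    intro h1
    have h2 := congrArg Fin.val h1
    simp only at h2
    omega
  rw [if_neg hne, if_pos hij]
  norm_num

private theorem lst_of {n : ℕ} {M N : CoxeterMatrix (Fin n)} (hN : Conn n N)
    (f g : Fin n → Fin n) (h1 : ∀ i, g (f i) = i) (h2 : ∀ i, f (g i) = i)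
    (h : ∀ i j, M (f i) (f j) = N i j) : Lst M :=
  ⟨N, hN, ⟨f, g, h1, h2⟩, h⟩

private theorem mval {n : ℕ} {k : Fin n} {M : CoxeterMatrix (Fin (n + 1))}
    (h : Att (tA n) k M) (hm : M (Fin.last n) k.castSucc = 3) (i j : Fin (n + 1)) :
    M i j = if i.val < n then
      (if j.val < n then
        (if i.val = j.val then 1 else if i.val + 1 = j.val ∨ j.val + 1 = i.val then 3 else 2)
        else (if i.val = k.val then 3 else 2))
      else (if j.val < n then (if j.val = k.val then 3 else 2) else 1) := by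
  rw [h.apply i j, hm]
  unfold attf
  by_cases h1 : i.val < n
  · rw [dif_pos h1, if_pos h1]
    by_cases h2 : j.val < n
    · rw [dif_pos h2, if_pos h2]
      change tA n ⟨i.val, h1⟩ ⟨j.val, h2⟩ = _
      rw [tA_val]
      have h3 : ((⟨i.val, h1⟩ : Fin n) = ⟨j.val, h2⟩) ↔ i.val = j.val := Fin.ext_iff
      simp only [h3]
    · rw [dif_neg h2, if_neg h2]
  · rw [dif_neg h1, if_neg h1]

private theorem key_nat (n i j a b k : ℕ) (hi : i < n + 1) (hj : j < n + 1)
    (ha : (i = 0 ∧ a = n) ∨ (i ≠ 0 ∧ a + 1 = i)) (hb : (j = 0 ∧ b = n) ∨ (j ≠ 0 ∧ b + 1 = j))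
    (hk : k = 1) (hn : 3 ≤ n) :
    (if a < n then
      (if b < n then (if a = b then 1 else if a + 1 = b ∨ b + 1 = a then 3 else 2)
        else (if a = k then 3 else 2))
      else (if b < n then (if b = k then 3 else 2) else 1)) =
    (if i = j then 1
    else if i = 0 ∧ j = 2 ∨ j = 0 ∧ i = 2 then 3
    else if i = 0 ∨ j = 0 then 2
    else if i + 1 = j ∨ j + 1 = i then 3 else 2) := by
  split_ifs <;> omega

private theorem inj_tac {n r : ℕ} {f : Fin r → Fin (n + 1)} (g : Fin r → ℕ)
    (hg : ∀ i, (f i).val = g i) (h : ∀ i j, g i = g j → i = j) : Function.Injective f := by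
  intro i j hij
  apply h
  rw [← hg, ← hg, hij]

private theorem dec_6_4 : ∀ i j : Fin 6, attf (fun a b => tA 5 a b) (2 : Fin 5) 3
    ((![0, 5, 1, 2, 3, 4] : Fin 6 → Fin 6) i) ((![0, 5, 1, 2, 3, 4] : Fin 6 → Fin 6) j) =
      CoxeterMatrix.E₆ i j := by
  decide

private theorem dec_7_4 : ∀ i j : Fin 7, attf (fun a b => tA 6 a b) (2 : Fin 6) 3
    ((![0, 6, 1, 2, 3, 4, 5] : Fin 7 → Fin 7) i) ((![0, 6, 1, 2, 3, 4, 5] : Fin 7 → Fin 7) j) =
      CoxeterMatrix.E₇ i j := by
  decide

private theorem dec_8_4 : ∀ i j : Fin 8, attf (fun a b => tA 7 a b) (2 : Fin 7) 3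
    ((![0, 7, 1, 2, 3, 4, 5, 6] : Fin 8 → Fin 8) i)
    ((![0, 7, 1, 2, 3, 4, 5, 6] : Fin 8 → Fin 8) j) =
      CoxeterMatrix.E₈ i j := by
  decide

private theorem dec_7_5 : ∀ i j : Fin 7, attf (fun a b => tA 6 a b) (3 : Fin 6) 3
    ((![5, 6, 4, 3, 2, 1, 0] : Fin 7 → Fin 7) i) ((![5, 6, 4, 3, 2, 1, 0] : Fin 7 → Fin 7) j) =
      CoxeterMatrix.E₇ i j := by
  decide

private theorem dec_8_5 : ∀ i j : Fin 8, attf (fun a b => tA 7 a b) (4 : Fin 7) 3
    ((![6, 7, 5, 4, 3, 2, 1, 0] : Fin 8 → Fin 8) i)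
    ((![6, 7, 5, 4, 3, 2, 1, 0] : Fin 8 → Fin 8) j) =
      CoxeterMatrix.E₈ i j := by
  decide

theorem attA_int {n : ℕ} {k : Fin n} {M : CoxeterMatrix (Fin (n + 1))} (h : Att (tA n) k M)
    (hk : 1 ≤ k.val) (hk' : k.val + 2 ≤ n) : Lst M := by
  have hkn := k.isLt
  have hnew := h.new
  have hsym : M k.castSucc (Fin.last n) = M (Fin.last n) k.castSucc := M.symmetric _ _
  by_cases hm : M (Fin.last n) k.castSucc = 3
  swap
  · exfalso
    refine no_two_ends h.pd (r := 0) (fun _ => k.castSucc) ?_ (fun i => i.elim0)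
      {⟨k.val - 1, by omega⟩, ⟨k.val + 1, by omega⟩} {Fin.last n} ?_ ?_ ?_ ?_ ?_
    · intro i j _
      exact Fin.ext (by omega)
    · left
      refine ⟨⟨k.val - 1, by omega⟩, ⟨k.val + 1, by omega⟩, ?_, by ext y; simp, ?_, ?_⟩
      · intro h1
        have := congrArg Fin.val h1
        simp only at this
        omega
      · exact adj2 h (show k.val < n by omega) (show k.val - 1 < n by omega)
          (Or.inr (show k.val - 1 + 1 = k.val by omega))
      · exact adj2 h (show k.val < n by omega) (show k.val + 1 < n by omega) (Or.inl rfl)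
    · right
      exact ⟨Fin.last n, rfl, by rw [hsym]; exact hnew, by rw [hsym]; exact hm⟩
    · rw [Finset.disjoint_left]
      intro e he he'
      rw [Finset.mem_singleton] at he'
      subst he'
      rw [Finset.mem_insert, Finset.mem_singleton] at he
      rcases he with he | he
      · have := congrArg Fin.val he
        simp only [Fin.val_last] at this
        omega
      · have := congrArg Fin.val he
        simp only [Fin.val_last] at this
        omega
    · intro i hi
      rw [Finset.mem_insert, Finset.mem_singleton] at hi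
      rcases hi with hi | hi
      · have := congrArg Fin.val hi
        simp only [Fin.val_castSucc] at this
        omega
      · have := congrArg Fin.val hi
        simp only [Fin.val_castSucc] at this
        omega
    · intro i hi
      rw [Finset.mem_singleton] at hi
      have := congrArg Fin.val hi
      simp only [Fin.val_last, Fin.val_castSucc] at this
      omega
  by_cases hk1 : k.val = 1
  · -- type `D (n + 1)`
    refine lst_of (Conn.D (n + 1) (by omega))
      (fun j => if j.val = 0 then Fin.last n else ⟨j.val - 1, by omega⟩)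
      (fun j => if hj : j.val = n then 0 else ⟨j.val + 1, by omega⟩) ?_ ?_ ?_
    · intro i
      by_cases h0 : i.val = 0
      · simp only [h0, if_pos, Fin.val_last, dif_pos]
        exact Fin.ext h0.symm
      · have hi := i.isLt
        simp only [if_neg h0]
        rw [dif_neg (by omega)]
        exact Fin.ext (by simp only; omega)
    · intro i
      by_cases h0 : i.val = n
      · simp only [dif_pos h0, Fin.val_zero, if_pos]
        exact Fin.ext h0.symm
      · simp only [dif_neg h0]
        rw [if_neg (by omega)]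
        exact Fin.ext (by simp only; omega)
    · intro i j
      have hi := i.isLt
      have hj := j.isLt
      have hij : (i = j) ↔ i.val = j.val := Fin.ext_iff
      rw [mval h hm, tD_val]
      simp only [hij]
      refine key_nat n i.val j.val _ _ k.val hi hj ?_ ?_ hk1 (by omega)
      · by_cases hi0 : i.val = 0
        · left
          exact ⟨hi0, by rw [if_pos hi0]; rfl⟩
        · right
          refine ⟨hi0, ?_⟩
          rw [if_neg hi0]
          simp only
          omega
      · by_cases hj0 : j.val = 0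
        · left
          exact ⟨hj0, by rw [if_pos hj0]; rfl⟩
        · right
          refine ⟨hj0, ?_⟩
          rw [if_neg hj0]
          simp only
          omega
  by_cases hk2 : k.val + 2 = n
  · -- type `D (n + 1)`
    refine lst_of (Conn.D (n + 1) (by omega)) Fin.rev Fin.rev Fin.rev_rev Fin.rev_rev ?_
    intro i j
    have hi := i.isLt
    have hj := j.isLt
    have hij : (i = j) ↔ i.val = j.val := Fin.ext_iff
    rw [mval h hm, tD_val]
    simp only [hij, Fin.val_rev]
    split_ifs <;> omega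
  by_cases hk3 : k.val = 2
  · by_cases hn8 : 8 ≤ n
    · exfalso
      refine no_E8t h.pd ![⟨2, by omega⟩, ⟨3, by omega⟩, ⟨4, by omega⟩, ⟨5, by omega⟩,
        ⟨6, by omega⟩, ⟨7, by omega⟩, ⟨1, by omega⟩, ⟨0, by omega⟩, Fin.last n]
        (inj_tac ![2, 3, 4, 5, 6, 7, 1, 0, n] ?_ ?_) ?_ ?_ ?_ ?_ ?_ ?_ ?_ ?_
      · intro i
        fin_cases i <;> rfl
      · intro i j hij
        fin_cases i <;> fin_cases j <;> first
            | rfl
            | (exfalso; simp at hij; done)
            | (exfalso; simp at hij; omega)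
      · exact adj2 h (show 2 < n by omega) (show 3 < n by omega) (Or.inl rfl)
      · exact adj2 h (show 3 < n by omega) (show 4 < n by omega) (Or.inl rfl)
      · exact adj2 h (show 4 < n by omega) (show 5 < n by omega) (Or.inl rfl)
      · exact adj2 h (show 5 < n by omega) (show 6 < n by omega) (Or.inl rfl)
      · exact adj2 h (show 6 < n by omega) (show 7 < n by omega) (Or.inl rfl)
      · exact adj2 h (show 2 < n by omega) (show 1 < n by omega) (Or.inr rfl)
      · exact adj2 h (show 1 < n by omega) (show 0 < n by omega) (Or.inr rfl)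
      · have e : (⟨2, by omega⟩ : Fin (n + 1)) = k.castSucc :=
          Fin.ext (by simp only [Fin.val_castSucc]; omega)
        change M ⟨2, _⟩ (Fin.last n) ≠ 2
        rw [e, hsym]
        exact hnew
    · have hap := h.apply
      rw [hm] at hap
      obtain ⟨k, hk''⟩ := k
      simp only at hk3 hk2
      subst hk3
      have hn4 : n = 5 ∨ n = 6 ∨ n = 7 := by omega
      rcases hn4 with rfl | rfl | rfl
      · exact lst_of Conn.E6 ![0, 5, 1, 2, 3, 4] ![0, 2, 3, 4, 5, 1] (by decide)
          (by decide) (fun i j => by rw [hap]; exact dec_6_4 i j)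
      · exact lst_of Conn.E7 ![0, 6, 1, 2, 3, 4, 5] ![0, 2, 3, 4, 5, 6, 1] (by decide)
          (by decide) (fun i j => by rw [hap]; exact dec_7_4 i j)
      · exact lst_of Conn.E8 ![0, 7, 1, 2, 3, 4, 5, 6] ![0, 2, 3, 4, 5, 6, 7, 1] (by decide)
          (by decide) (fun i j => by rw [hap]; exact dec_8_4 i j)
  by_cases hk4 : k.val + 3 = n
  · by_cases hn8 : 8 ≤ n
    · exfalso
      refine no_E8t h.pd ![k.castSucc, ⟨k.val - 1, by omega⟩, ⟨k.val - 2, by omega⟩,
        ⟨k.val - 3, by omega⟩, ⟨k.val - 4, by omega⟩, ⟨k.val - 5, by omega⟩,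
        ⟨k.val + 1, by omega⟩, ⟨k.val + 2, by omega⟩, Fin.last n]
        (inj_tac ![k.val, k.val - 1, k.val - 2, k.val - 3, k.val - 4, k.val - 5, k.val + 1,
          k.val + 2, n] ?_ ?_) ?_ ?_ ?_ ?_ ?_ ?_ ?_ ?_
      · intro i
        fin_cases i <;> rfl
      · intro i j hij
        fin_cases i <;> fin_cases j <;> first
            | rfl
            | (exfalso; simp at hij; done)
            | (exfalso; simp at hij; omega)
      · exact adj2 h (show k.val < n by omega) (show k.val - 1 < n by omega)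
          (Or.inr (show k.val - 1 + 1 = k.val by omega))
      · exact adj2 h (show k.val - 1 < n by omega) (show k.val - 2 < n by omega)
          (Or.inr (show k.val - 2 + 1 = k.val - 1 by omega))
      · exact adj2 h (show k.val - 2 < n by omega) (show k.val - 3 < n by omega)
          (Or.inr (show k.val - 3 + 1 = k.val - 2 by omega))
      · exact adj2 h (show k.val - 3 < n by omega) (show k.val - 4 < n by omega)
          (Or.inr (show k.val - 4 + 1 = k.val - 3 by omega))
      · exact adj2 h (show k.val - 4 < n by omega) (show k.val - 5 < n by omega)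
          (Or.inr (show k.val - 5 + 1 = k.val - 4 by omega))
      · exact adj2 h (show k.val < n by omega) (show k.val + 1 < n by omega) (Or.inl rfl)
      · exact adj2 h (show k.val + 1 < n by omega) (show k.val + 2 < n by omega) (Or.inl rfl)
      · change M k.castSucc (Fin.last n) ≠ 2
        rw [hsym]
        exact hnew
    · have hap := h.apply
      rw [hm] at hap
      obtain ⟨k, hk''⟩ := k
      simp only at hk4 hk3 hk1
      have hn4 : k = 3 ∨ k = 4 := by omega
      rcases hn4 with rfl | rfl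
      · subst hk4
        exact lst_of Conn.E7 ![5, 6, 4, 3, 2, 1, 0] ![6, 5, 4, 3, 2, 0, 1] (by decide)
          (by decide) (fun i j => by rw [hap]; exact dec_7_5 i j)
      · subst hk4
        exact lst_of Conn.E8 ![6, 7, 5, 4, 3, 2, 1, 0] ![7, 6, 5, 4, 3, 2, 0, 1] (by decide)
          (by decide) (fun i j => by rw [hap]; exact dec_8_5 i j)
  exfalso
  refine no_E7t h.pd ![k.castSucc, ⟨k.val - 1, by omega⟩, ⟨k.val - 2, by omega⟩,
    ⟨k.val - 3, by omega⟩, ⟨k.val + 1, by omega⟩, ⟨k.val + 2, by omega⟩, ⟨k.val + 3, by omega⟩,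
    Fin.last n]
    (inj_tac ![k.val, k.val - 1, k.val - 2, k.val - 3, k.val + 1, k.val + 2, k.val + 3, n]
      ?_ ?_) ?_ ?_ ?_ ?_ ?_ ?_ ?_
  · intro i
    fin_cases i <;> rfl
  · intro i j hij
    fin_cases i <;> fin_cases j <;> first
        | rfl
        | (exfalso; simp at hij; done)
        | (exfalso; simp at hij; omega)
  · exact adj2 h (show k.val < n by omega) (show k.val - 1 < n by omega)
      (Or.inr (show k.val - 1 + 1 = k.val by omega))
  · exact adj2 h (show k.val - 1 < n by omega) (show k.val - 2 < n by omega)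
      (Or.inr (show k.val - 2 + 1 = k.val - 1 by omega))
  · exact adj2 h (show k.val - 2 < n by omega) (show k.val - 3 < n by omega)
      (Or.inr (show k.val - 3 + 1 = k.val - 2 by omega))
  · exact adj2 h (show k.val < n by omega) (show k.val + 1 < n by omega) (Or.inl rfl)
  · exact adj2 h (show k.val + 1 < n by omega) (show k.val + 2 < n by omega) (Or.inl rfl)
  · exact adj2 h (show k.val + 2 < n by omega) (show k.val + 3 < n by omega) (Or.inl rfl)
  · change M k.castSucc (Fin.last n) ≠ 2
    rw [hsym]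
    exact hnew

end Pool.Agent.Art
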