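import Pool.Agent.Art.ClFix
import Pool.Agent.Art.ClPath

/-!
# Type `B n` with one more node

`tB n`: the chain `0 = 1 - 2 - ... - (n-1)`, label `4` between `0` and `1`. `Att.apply` gives all
entries of `M`. Let `m = M (last) k ≠ 2`.
PROOF. (1) `k ≥ 1`, `m ≠ 3`: `no_two_ends`: path `b i = i + 1`, `i ≤ k - 1` (from `1` to `k`,
`r = k - 1`), `G0 = {0}`, `G1 = {last}` (both with a label `≠ 2, 3`).
(2) `k = 0`, `m ≠ 3`: `no_two_ends`: path `b = ![0]`, `G0 = {1}`, `G1 = {last}`.
(3) `m = 3`, `k = n - 1`: `B (n+1)`, `σ = 1`.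
(4) `m = 3`, `1 ≤ k ≤ n - 2`: `no_two_ends`: the path of (1), `G0 = {0}`, `G1 = {k+1, last}`.
(5) `m = 3`, `k = 0`: `n = 2`: `B 3`, `σ = ![1, 0, 2]`; `n = 3`: `F₄`, `σ = ![3, 0, 1, 2]`;
`n ≥ 4`: `no_F4t` with `f = ![3, 2, 1, 0, last]`.
-/

set_option autoImplicit false

noncomputable section

namespace Pool.Agent.Art

private theorem appB {n : ℕ} {k : Fin n} {M : CoxeterMatrix (Fin (n + 1))}
    (h : Att (tB n) k M) (a b : ℕ) (ha : a < n + 1) (hb : b < n + 1) :
    M ⟨a, ha⟩ ⟨b, hb⟩ = if a < n then
      (if b < n then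
        (if a = b then 1 else if a + 1 = b ∨ b + 1 = a then
          (if a = 0 ∨ b = 0 then 4 else 3) else 2)
        else (if a = k.val then M (Fin.last n) k.castSucc else 2))
      else (if b < n then (if b = k.val then M (Fin.last n) k.castSucc else 2) else 1) := by
  rw [h.apply ⟨a, ha⟩ ⟨b, hb⟩]
  unfold attf
  by_cases hi : a < n
  · rw [dif_pos hi, if_pos hi]
    by_cases hj : b < n
    · rw [dif_pos hj, if_pos hj]
      change (if (⟨a, hi⟩ : Fin n) = ⟨b, hj⟩ then 1 else
        if a + 1 = b ∨ b + 1 = a then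
          (if a = 0 ∨ b = 0 then 4 else 3) else 2) = _
      simp only [Fin.mk.injEq]
    · rw [dif_neg hj, if_neg hj]
  · rw [dif_neg hi, if_neg hi]

theorem attB {n : ℕ} {k : Fin n} {M : CoxeterMatrix (Fin (n + 1))} (hn : 2 ≤ n)
    (h : Att (tB n) k M) : Lst M := by
  have app := appB h
  have hm2 : M (Fin.last n) k.castSucc ≠ 2 := h.new
  have hpd := h.pd
  obtain ⟨k, hk⟩ := k
  generalize M (Fin.last n) (Fin.castSucc ⟨k, hk⟩) = m at app hm2
  simp only at app
  clear h
  -- the path from `1` to `k`
  have hpath : ∀ i : Fin (k - 1), M ⟨i.val + 1, by have := i.isLt; omega⟩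
      ⟨i.val + 1 + 1, by have := i.isLt; omega⟩ ≠ 2 := by
    intro i
    have := i.isLt
    rw [app]
    split_ifs <;> omega
  by_cases hm3 : m = 3
  · by_cases hk0 : k = 0
    · rcases Nat.lt_or_ge n 4 with hn4 | hn4
      · have hn23 : n = 2 ∨ n = 3 := by omega
        subst hk0
        subst hm3
        rcases hn23 with rfl | rfl
        · refine ⟨tB 3, Conn.B 3 (by norm_num), Equiv.swap 0 1, ?_⟩
          intro i j
          have h1 : ∀ i j : Fin 3, (if i.val < 2 then
              (if j.val < 2 then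
                (if i.val = j.val then 1 else if i.val + 1 = j.val ∨ j.val + 1 = i.val then
                  (if i.val = 0 ∨ j.val = 0 then 4 else 3) else 2)
                else (if i.val = 0 then 3 else 2))
              else (if j.val < 2 then (if j.val = 0 then 3 else 2) else 1)) =
              tB 3 (Equiv.swap 0 1 i) (Equiv.swap 0 1 j) := by decide
          have h2 := app (Equiv.swap 0 1 i : Fin 3).val (Equiv.swap 0 1 j : Fin 3).val
            (Fin.isLt _) (Fin.isLt _)
          rw [h1 (Equiv.swap 0 1 i) (Equiv.swap 0 1 j), Equiv.swap_apply_self,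
            Equiv.swap_apply_self] at h2
          exact h2
        · refine ⟨CoxeterMatrix.F₄, Conn.F4, ⟨![3, 0, 1, 2], ![1, 2, 3, 0], by decide,
            by decide⟩, ?_⟩
          intro i j
          have h1 : ∀ i j : Fin 4, (if i.val < 3 then
              (if j.val < 3 then
                (if i.val = j.val then 1 else if i.val + 1 = j.val ∨ j.val + 1 = i.val then
                  (if i.val = 0 ∨ j.val = 0 then 4 else 3) else 2)
                else (if i.val = 0 then 3 else 2))
              else (if j.val < 3 then (if j.val = 0 then 3 else 2) else 1)) =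
              CoxeterMatrix.F₄ (![1, 2, 3, 0] i) (![1, 2, 3, 0] j) := by decide
          have h3 : ∀ i : Fin 4, ![1, 2, 3, 0] (![3, 0, 1, 2] i : Fin 4) = i := by decide
          have h2 := app (![3, 0, 1, 2] i : Fin 4).val (![3, 0, 1, 2] j : Fin 4).val
            (Fin.isLt _) (Fin.isLt _)
          rw [h1 (![3, 0, 1, 2] i) (![3, 0, 1, 2] j), h3, h3] at h2
          exact h2
      · exfalso
        have e1 : M ⟨3, by omega⟩ ⟨2, by omega⟩ ≠ 2 := by rw [app]; split_ifs <;> omega
        have e2 : M ⟨2, by omega⟩ ⟨1, by omega⟩ ≠ 2 := by rw [app]; split_ifs <;> omega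
        have e3 : M ⟨1, by omega⟩ ⟨0, by omega⟩ ≠ 2 := by rw [app]; split_ifs <;> omega
        have e3' : M ⟨1, by omega⟩ ⟨0, by omega⟩ ≠ 3 := by rw [app]; split_ifs <;> omega
        have e4 : M ⟨0, by omega⟩ ⟨n, by omega⟩ ≠ 2 := by rw [app]; split_ifs <;> omega
        refine no_F4t hpd ![⟨3, by omega⟩, ⟨2, by omega⟩, ⟨1, by omega⟩, ⟨0, by omega⟩,
          ⟨n, by omega⟩] ?_ e1 e2 e3 e3' e4
        have hinj : Function.Injective ![3, 2, 1, 0, n] := by
          intro i j hij
          fin_cases i <;> fin_cases j <;> first | rfl | (simp at hij <;> omega)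
        intro i j hij
        apply hinj
        have := congrArg Fin.val hij
        fin_cases i <;> fin_cases j <;> first | rfl | exact this
    · rcases Nat.lt_or_ge (k + 1) n with hk1 | hk1
      · exfalso
        have e1 : M ⟨1, by omega⟩ ⟨0, by omega⟩ ≠ 2 := by rw [app]; split_ifs <;> omega
        have e1' : M ⟨1, by omega⟩ ⟨0, by omega⟩ ≠ 3 := by rw [app]; split_ifs <;> omega
        have e2 : M ⟨k - 1 + 1, by omega⟩ ⟨k + 1, by omega⟩ ≠ 2 := by
          rw [app]; split_ifs <;> omega
        have e3 : M ⟨k - 1 + 1, by omega⟩ ⟨n, by omega⟩ ≠ 2 := by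
          rw [app]; split_ifs <;> omega
        refine no_two_ends hpd (r := k - 1)
          (fun i => ⟨i.val + 1, by have := i.isLt; omega⟩) ?_ hpath
          {(⟨0, by omega⟩ : Fin (n + 1))}
          {(⟨k + 1, by omega⟩ : Fin (n + 1)), ⟨n, by omega⟩} ?_ ?_ ?_ ?_ ?_
        · intro i j hij
          have := congrArg Fin.val hij
          simp only at this
          exact Fin.ext (by omega)
        · exact Or.inr ⟨_, rfl, e1, e1'⟩
        · refine Or.inl ⟨⟨k + 1, by omega⟩, ⟨n, by omega⟩, ?_, by ext x; simp, e2, e3⟩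
          intro hc
          have := congrArg Fin.val hc
          simp only at this
          omega
        · rw [Finset.disjoint_singleton_left]
          simp only [Finset.mem_insert, Finset.mem_singleton, Fin.ext_iff]
          omega
        · intro i
          simp only [Finset.mem_singleton, Fin.ext_iff]
          omega
        · intro i
          have := i.isLt
          simp only [Finset.mem_insert, Finset.mem_singleton, Fin.ext_iff]
          omega
      · refine ⟨tB (n + 1), Conn.B (n + 1) (by omega), Equiv.refl _, ?_⟩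
        rintro ⟨i, hi⟩ ⟨j, hj⟩
        change M ⟨i, hi⟩ ⟨j, hj⟩ = (if (⟨i, hi⟩ : Fin (n + 1)) = ⟨j, hj⟩ then 1 else
          if i + 1 = j ∨ j + 1 = i then
            (if i = 0 ∨ j = 0 then 4 else 3) else 2)
        rw [app]
        simp only [Fin.mk.injEq]
        split_ifs <;> omega
  · exfalso
    by_cases hk0 : k = 0
    · have e1 : M ⟨0, by omega⟩ ⟨1, by omega⟩ ≠ 2 := by rw [app]; split_ifs <;> omega
      have e1' : M ⟨0, by omega⟩ ⟨1, by omega⟩ ≠ 3 := by rw [app]; split_ifs <;> omega
      have e2 : M ⟨0, by omega⟩ ⟨n, by omega⟩ ≠ 2 := by rw [app]; split_ifs <;> omega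
      have e2' : M ⟨0, by omega⟩ ⟨n, by omega⟩ ≠ 3 := by rw [app]; split_ifs <;> omega
      refine no_two_ends hpd (r := 0)
        (fun _ => ⟨0, by omega⟩) ?_ (fun i => absurd i.isLt (by omega))
        {(⟨1, by omega⟩ : Fin (n + 1))}
        {(⟨n, by omega⟩ : Fin (n + 1))} (Or.inr ⟨_, rfl, e1, e1'⟩)
        (Or.inr ⟨_, rfl, e2, e2'⟩) ?_ ?_ ?_
      · intro i j _
        exact Fin.ext (by have := i.isLt; have := j.isLt; omega)
      · rw [Finset.disjoint_singleton_left]
        simp only [Finset.mem_singleton, Fin.ext_iff]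
        omega
      · intro i
        simp only [Finset.mem_singleton, Fin.ext_iff]
        omega
      · intro i
        simp only [Finset.mem_singleton, Fin.ext_iff]
        omega
    · have e1 : M ⟨1, by omega⟩ ⟨0, by omega⟩ ≠ 2 := by rw [app]; split_ifs <;> omega
      have e1' : M ⟨1, by omega⟩ ⟨0, by omega⟩ ≠ 3 := by rw [app]; split_ifs <;> omega
      have e2 : M ⟨k - 1 + 1, by omega⟩ ⟨n, by omega⟩ ≠ 2 := by
        rw [app]; split_ifs <;> omega
      have e2' : M ⟨k - 1 + 1, by omega⟩ ⟨n, by omega⟩ ≠ 3 := by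
        rw [app]; split_ifs <;> omega
      refine no_two_ends hpd (r := k - 1)
        (fun i => ⟨i.val + 1, by have := i.isLt; omega⟩) ?_ hpath
        {(⟨0, by omega⟩ : Fin (n + 1))}
        {(⟨n, by omega⟩ : Fin (n + 1))} (Or.inr ⟨_, rfl, e1, e1'⟩)
        (Or.inr ⟨_, rfl, e2, e2'⟩) ?_ ?_ ?_
      · intro i j hij
        have := congrArg Fin.val hij
        simp only at this
        exact Fin.ext (by omega)
      · rw [Finset.disjoint_singleton_left]
        simp only [Finset.mem_singleton, Fin.ext_iff]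
        omega
      · intro i
        simp only [Finset.mem_singleton, Fin.ext_iff]
        omega
      · intro i
        have := i.isLt
        simp only [Finset.mem_singleton, Fin.ext_iff]
        omega

end Pool.Agent.Art
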