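import Pool.Agent.Art.ClFix
import Pool.Agent.Art.ClPath

/-!
# Type `D n` with one more node

`tD n`: the chain `1 - 2 - ... - (n-1)` and `0 - 2`. `Att.apply` gives all entries of `M`. Let
`m = M (last) k ≠ 2`.
PROOF. (1) `k ≥ 2`, `m ≠ 3`: `no_two_ends`: path `b i = i + 2`, `i ≤ k - 2` (from `2` to `k`),
`G0 = {0, 1}`, `G1 = {last}`.
(2) `k ≤ 1`, `m ≠ 3`: `no_two_ends`: path `b = ![k, 2]`, `G0 = {last}`, `G1 = {1 - k, 3}`.
(3) `m = 3`, `k = n - 1`: `D (n+1)`, `σ = 1`.
(4) `m = 3`, `2 ≤ k ≤ n - 2`: `no_two_ends`: the path of (1), `G0 = {0, 1}`, `G1 = {k+1, last}`.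
(5) `m = 3`, `k ≤ 1`. `n = 4`: `D 5`, `σ = ![1, 3, 2, 0, 4]` for `k = 0`, `![0, 3, 2, 1, 4]` for
`k = 1`. `n = 5`: `E₆`, `σ = ![5, 1, 0, 2, 3, 4]` (`k = 0`), `![5, 0, 1, 2, 3, 4]` (`k = 1`).
`n = 6`: `E₇`, `![6, 1, 0, 2, 3, 4, 5]`, `![6, 0, 1, 2, 3, 4, 5]`. `n = 7`: `E₈`,
`![7, 1, 0, 2, 3, 4, 5, 6]`, `![7, 0, 1, 2, 3, 4, 5, 6]`. `n ≥ 8`: `no_E8t` with
`f = ![2, 3, 4, 5, 6, 7, k, last, 1 - k]`.
-/

set_option autoImplicit false

noncomputable section

namespace Pool.Agent.Art

private theorem tD_val {n : ℕ} (i j : Fin n) : tD n i j =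
    if i = j then 1
    else if (i : ℕ) = 0 ∧ (j : ℕ) = 2 ∨ (j : ℕ) = 0 ∧ (i : ℕ) = 2 then 3
    else if (i : ℕ) = 0 ∨ (j : ℕ) = 0 then 2
    else if (i : ℕ) + 1 = j ∨ (j : ℕ) + 1 = i then 3 else 2 := rfl

private theorem old' {n : ℕ} {k : Fin n} {M : CoxeterMatrix (Fin (n + 1))}
    (h : Att (tD n) k M) {i j : Fin (n + 1)} (hi : i.val < n) (hj : j.val < n) :
    M i j = tD n ⟨i.val, hi⟩ ⟨j.val, hj⟩ :=
  h.old ⟨i.val, hi⟩ ⟨j.val, hj⟩

private theorem adj3 {n : ℕ} {k : Fin n} {M : CoxeterMatrix (Fin (n + 1))}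
    (h : Att (tD n) k M) {i j : Fin (n + 1)} (hi : i.val < n) (hj : j.val < n)
    (hij : (i.val = 0 ∧ j.val = 2) ∨ (j.val = 0 ∧ i.val = 2) ∨
      (1 ≤ i.val ∧ i.val + 1 = j.val) ∨ (1 ≤ j.val ∧ j.val + 1 = i.val)) : M i j = 3 := by
  rw [old' h hi hj, tD_val]
  have hne : (⟨i.val, hi⟩ : Fin n) ≠ ⟨j.val, hj⟩ := by
    intro h1
    have h2 := congrArg Fin.val h1
    simp only at h2
    omega
  rw [if_neg hne]
  simp only
  split_ifs <;> omega

private theorem adj2 {n : ℕ} {k : Fin n} {M : CoxeterMatrix (Fin (n + 1))}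
    (h : Att (tD n) k M) {i j : Fin (n + 1)} (hi : i.val < n) (hj : j.val < n)
    (hij : (i.val = 0 ∧ j.val = 2) ∨ (j.val = 0 ∧ i.val = 2) ∨
      (1 ≤ i.val ∧ i.val + 1 = j.val) ∨ (1 ≤ j.val ∧ j.val + 1 = i.val)) : M i j ≠ 2 := by
  rw [adj3 h hi hj hij]
  norm_num

/-- the path from `2` to `k` with the gadget `{0, 1}` at `2` -/
private theorem no_end {n : ℕ} {k : Fin n} {M : CoxeterMatrix (Fin (n + 1))} (hn : 4 ≤ n)
    (h : Att (tD n) k M) (hk : 2 ≤ k.val) (G1 : Finset (Fin (n + 1)))
    (h1 : EndG M k.castSucc G1) (hG : ∀ e ∈ G1, k.val < e.val) : False := by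
  have hkn := k.isLt
  have hlt : ∀ i : Fin (k.val - 2 + 1), i.val + 2 < n + 1 := fun i => by
    have := i.isLt
    omega
  have hb2 : (⟨(0 : Fin (k.val - 2 + 1)).val + 2, hlt 0⟩ : Fin (n + 1)) = ⟨2, by omega⟩ := rfl
  refine no_two_ends h.pd (r := k.val - 2) (fun i => ⟨i.val + 2, hlt i⟩) ?_ ?_
    {⟨0, by omega⟩, ⟨1, by omega⟩} G1 ?_ ?_ ?_ ?_ ?_
  · intro i j hij
    have h2 := congrArg Fin.val hij
    simp only at h2
    exact Fin.ext (by omega)
  · intro i
    have hi := i.isLt
    refine adj2 h (show i.val + 2 < n by omega) (show i.val + 1 + 2 < n by omega) ?_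
    change (i.val + 2 = 0 ∧ i.val + 1 + 2 = 2) ∨ (i.val + 1 + 2 = 0 ∧ i.val + 2 = 2) ∨
      (1 ≤ i.val + 2 ∧ i.val + 2 + 1 = i.val + 1 + 2) ∨
      (1 ≤ i.val + 1 + 2 ∧ i.val + 1 + 2 + 1 = i.val + 2)
    omega
  · left
    refine ⟨⟨0, by omega⟩, ⟨1, by omega⟩, ?_, by ext y; simp, ?_, ?_⟩
    · intro h2
      have := congrArg Fin.val h2
      simp only at this
      omega
    · exact adj2 h (by simp only [Fin.val_zero]; omega) (by simp only; omega)
        (Or.inr (Or.inl ⟨rfl, rfl⟩))
    · exact adj2 h (by simp only [Fin.val_zero]; omega) (by simp only; omega)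
        (Or.inr (Or.inr (Or.inr ⟨le_rfl, rfl⟩)))
  · have h2 : (⟨(Fin.last (k.val - 2)).val + 2, hlt _⟩ : Fin (n + 1)) = k.castSucc :=
      Fin.ext (by simp only [Fin.val_last, Fin.val_castSucc]; omega)
    rw [h2]
    exact h1
  · rw [Finset.disjoint_left]
    intro e he he'
    have h2 := hG e he'
    rw [Finset.mem_insert, Finset.mem_singleton] at he
    rcases he with rfl | rfl
    · simp only at h2
      omega
    · simp only at h2
      omega
  · intro i hi
    rw [Finset.mem_insert, Finset.mem_singleton] at hi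
    rcases hi with hi | hi
    · have := congrArg Fin.val hi
      simp only at this
      omega
    · have := congrArg Fin.val hi
      simp only at this
      omega
  · intro i hi
    have h2 := hG _ hi
    have h3 := i.isLt
    simp only at h2
    omega

private theorem lst_of {n : ℕ} {M N : CoxeterMatrix (Fin n)} (hN : Conn n N)
    (f g : Fin n → Fin n) (h1 : ∀ i, g (f i) = i) (h2 : ∀ i, f (g i) = i)
    (h : ∀ i j, M (f i) (f j) = N i j) : Lst M :=
  ⟨N, hN, ⟨f, g, h1, h2⟩, h⟩

private theorem dec_4_0 : ∀ i j : Fin 5, attf (fun a b => tD 4 a b) (0 : Fin 4) 3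
    ((![1, 3, 2, 0, 4] : Fin 5 → Fin 5) i) ((![1, 3, 2, 0, 4] : Fin 5 → Fin 5) j) =
      (tD 5) i j := by
  decide

private theorem dec_4_1 : ∀ i j : Fin 5, attf (fun a b => tD 4 a b) (1 : Fin 4) 3
    ((![0, 3, 2, 1, 4] : Fin 5 → Fin 5) i) ((![0, 3, 2, 1, 4] : Fin 5 → Fin 5) j) =
      (tD 5) i j := by
  decide

private theorem dec_5_0 : ∀ i j : Fin 6, attf (fun a b => tD 5 a b) (0 : Fin 5) 3
    ((![5, 1, 0, 2, 3, 4] : Fin 6 → Fin 6) i) ((![5, 1, 0, 2, 3, 4] : Fin 6 → Fin 6) j) =
      CoxeterMatrix.E₆ i j := by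
  decide

private theorem dec_5_1 : ∀ i j : Fin 6, attf (fun a b => tD 5 a b) (1 : Fin 5) 3
    ((![5, 0, 1, 2, 3, 4] : Fin 6 → Fin 6) i) ((![5, 0, 1, 2, 3, 4] : Fin 6 → Fin 6) j) =
      CoxeterMatrix.E₆ i j := by
  decide

private theorem dec_6_0 : ∀ i j : Fin 7, attf (fun a b => tD 6 a b) (0 : Fin 6) 3
    ((![6, 1, 0, 2, 3, 4, 5] : Fin 7 → Fin 7) i) ((![6, 1, 0, 2, 3, 4, 5] : Fin 7 → Fin 7) j) =
      CoxeterMatrix.E₇ i j := by
  decide

private theorem dec_6_1 : ∀ i j : Fin 7, attf (fun a b => tD 6 a b) (1 : Fin 6) 3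
    ((![6, 0, 1, 2, 3, 4, 5] : Fin 7 → Fin 7) i) ((![6, 0, 1, 2, 3, 4, 5] : Fin 7 → Fin 7) j) =
      CoxeterMatrix.E₇ i j := by
  decide

private theorem dec_7_0 : ∀ i j : Fin 8, attf (fun a b => tD 7 a b) (0 : Fin 7) 3
    ((![7, 1, 0, 2, 3, 4, 5, 6] : Fin 8 → Fin 8) i)
    ((![7, 1, 0, 2, 3, 4, 5, 6] : Fin 8 → Fin 8) j) =
      CoxeterMatrix.E₈ i j := by
  decide

private theorem dec_7_1 : ∀ i j : Fin 8, attf (fun a b => tD 7 a b) (1 : Fin 7) 3
    ((![7, 0, 1, 2, 3, 4, 5, 6] : Fin 8 → Fin 8) i)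
    ((![7, 0, 1, 2, 3, 4, 5, 6] : Fin 8 → Fin 8) j) =
      CoxeterMatrix.E₈ i j := by
  decide

theorem attD {n : ℕ} {k : Fin n} {M : CoxeterMatrix (Fin (n + 1))} (hn : 4 ≤ n)
    (h : Att (tD n) k M) : Lst M := by
  have hkn := k.isLt
  have hnew := h.new
  have hsym : M k.castSucc (Fin.last n) = M (Fin.last n) k.castSucc := M.symmetric _ _
  by_cases hm : M (Fin.last n) k.castSucc = 3
  · by_cases hk : 2 ≤ k.val
    · by_cases hk1 : k.val = n - 1
      · -- type `D (n + 1)`
        refine lst_of (Conn.D (n + 1) (by omega)) id id (fun _ => rfl) (fun _ => rfl) ?_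
        intro i j
        rw [id, id, h.apply i j, hm, tD_val]
        unfold attf
        have hi := i.isLt
        have hj := j.isLt
        have hij : (i = j) ↔ i.val = j.val := Fin.ext_iff
        simp only [hij]
        by_cases h1 : i.val < n
        · rw [dif_pos h1]
          by_cases h2 : j.val < n
          · rw [dif_pos h2, tD_val]
            have h3 : ((⟨i.val, h1⟩ : Fin n) = ⟨j.val, h2⟩) ↔ i.val = j.val := Fin.ext_iff
            simp only [h3]
          · rw [dif_neg h2]
            split_ifs <;> omega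
        · rw [dif_neg h1]
          split_ifs <;> omega
      · -- two gadgets
        exfalso
        refine no_end hn h hk {⟨k.val + 1, by omega⟩, Fin.last n} ?_ ?_
        · left
          refine ⟨⟨k.val + 1, by omega⟩, Fin.last n, ?_, by ext y; simp, ?_, ?_⟩
          · intro h1
            have := congrArg Fin.val h1
            simp only [Fin.val_last] at this
            omega
          · exact adj2 h (by simp only [Fin.val_castSucc]; omega) (by simp only; omega)
              (Or.inr (Or.inr (Or.inl ⟨by simp only [Fin.val_castSucc]; omega, rfl⟩)))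
          · rw [hsym]
            exact hnew
        · intro e he
          rw [Finset.mem_insert, Finset.mem_singleton] at he
          rcases he with rfl | rfl
          · simp only
            omega
          · simp only [Fin.val_last]
            omega
    · -- `k ≤ 1`
      by_cases hn8 : 8 ≤ n
      · exfalso
        have hl : ∀ i, i ≤ 7 → i < n + 1 := fun i hi => by omega
        refine no_E8t h.pd ![⟨2, hl 2 (by norm_num)⟩, ⟨3, hl 3 (by norm_num)⟩,
          ⟨4, hl 4 (by norm_num)⟩, ⟨5, hl 5 (by norm_num)⟩, ⟨6, hl 6 (by norm_num)⟩,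
          ⟨7, hl 7 (by norm_num)⟩, k.castSucc, Fin.last n, ⟨1 - k.val, hl _ (by omega)⟩]
          ?_ ?_ ?_ ?_ ?_ ?_ ?_ ?_ ?_
        · intro i j hij
          have h1 := congrArg Fin.val hij
          fin_cases i <;> fin_cases j <;> first
            | rfl
            | (exfalso; simp at h1; done)
            | (exfalso; simp at h1; omega)
        · exact adj2 h (show 2 < n by omega) (show 3 < n by omega)
            (Or.inr (Or.inr (Or.inl ⟨show 1 ≤ 2 by omega, rfl⟩)))
        · exact adj2 h (show 3 < n by omega) (show 4 < n by omega)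
            (Or.inr (Or.inr (Or.inl ⟨show 1 ≤ 3 by omega, rfl⟩)))
        · exact adj2 h (show 4 < n by omega) (show 5 < n by omega)
            (Or.inr (Or.inr (Or.inl ⟨show 1 ≤ 4 by omega, rfl⟩)))
        · exact adj2 h (show 5 < n by omega) (show 6 < n by omega)
            (Or.inr (Or.inr (Or.inl ⟨show 1 ≤ 5 by omega, rfl⟩)))
        · exact adj2 h (show 6 < n by omega) (show 7 < n by omega)
            (Or.inr (Or.inr (Or.inl ⟨show 1 ≤ 6 by omega, rfl⟩)))
        · refine adj2 h (show 2 < n by omega) (show k.val < n by omega) ?_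
          change (2 = 0 ∧ k.val = 2) ∨ (k.val = 0 ∧ 2 = 2) ∨ (1 ≤ 2 ∧ 2 + 1 = k.val) ∨
            (1 ≤ k.val ∧ k.val + 1 = 2)
          omega
        · change M k.castSucc (Fin.last n) ≠ 2
          rw [hsym]
          exact hnew
        · refine adj2 h (show 2 < n by omega) (show 1 - k.val < n by omega) ?_
          change (2 = 0 ∧ 1 - k.val = 2) ∨ (1 - k.val = 0 ∧ 2 = 2) ∨ (1 ≤ 2 ∧ 2 + 1 = 1 - k.val) ∨
            (1 ≤ 1 - k.val ∧ 1 - k.val + 1 = 2)
          omega
      · have hap := h.apply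
        rw [hm] at hap
        obtain ⟨k, hk'⟩ := k
        simp only at hk hkn
        have hn4 : n = 4 ∨ n = 5 ∨ n = 6 ∨ n = 7 := by omega
        have hk01 : k = 0 ∨ k = 1 := by omega
        rcases hn4 with rfl | rfl | rfl | rfl
        · rcases hk01 with rfl | rfl
          · exact lst_of (Conn.D 5 (by norm_num)) ![1, 3, 2, 0, 4] ![3, 0, 2, 1, 4] (by decide)
              (by decide) (fun i j => by rw [hap]; exact dec_4_0 i j)
          · exact lst_of (Conn.D 5 (by norm_num)) ![0, 3, 2, 1, 4] ![0, 3, 2, 1, 4] (by decide)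
              (by decide) (fun i j => by rw [hap]; exact dec_4_1 i j)
        · rcases hk01 with rfl | rfl
          · exact lst_of Conn.E6 ![5, 1, 0, 2, 3, 4] ![2, 1, 3, 4, 5, 0] (by decide)
              (by decide) (fun i j => by rw [hap]; exact dec_5_0 i j)
          · exact lst_of Conn.E6 ![5, 0, 1, 2, 3, 4] ![1, 2, 3, 4, 5, 0] (by decide)
              (by decide) (fun i j => by rw [hap]; exact dec_5_1 i j)
        · rcases hk01 with rfl | rfl
          · exact lst_of Conn.E7 ![6, 1, 0, 2, 3, 4, 5] ![2, 1, 3, 4, 5, 6, 0] (by decide)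
              (by decide) (fun i j => by rw [hap]; exact dec_6_0 i j)
          · exact lst_of Conn.E7 ![6, 0, 1, 2, 3, 4, 5] ![1, 2, 3, 4, 5, 6, 0] (by decide)
              (by decide) (fun i j => by rw [hap]; exact dec_6_1 i j)
        · rcases hk01 with rfl | rfl
          · exact lst_of Conn.E8 ![7, 1, 0, 2, 3, 4, 5, 6] ![2, 1, 3, 4, 5, 6, 7, 0] (by decide)
              (by decide) (fun i j => by rw [hap]; exact dec_7_0 i j)
          · exact lst_of Conn.E8 ![7, 0, 1, 2, 3, 4, 5, 6] ![1, 2, 3, 4, 5, 6, 7, 0] (by decide)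
              (by decide) (fun i j => by rw [hap]; exact dec_7_1 i j)
  · exfalso
    by_cases hk : 2 ≤ k.val
    · refine no_end hn h hk {Fin.last n} ?_ ?_
      · right
        refine ⟨Fin.last n, rfl, ?_, ?_⟩
        · rw [hsym]
          exact hnew
        · rw [hsym]
          exact hm
      · intro e he
        rw [Finset.mem_singleton] at he
        subst he
        simp only [Fin.val_last]
        omega
    · have hl : ∀ i, i ≤ 4 → i < n + 1 := fun i hi => by omega
      refine no_two_ends h.pd (r := 1) ![k.castSucc, ⟨2, hl 2 (by norm_num)⟩] ?_ ?_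
        {Fin.last n} {⟨1 - k.val, hl _ (by omega)⟩, ⟨3, hl 3 (by norm_num)⟩} ?_ ?_ ?_ ?_ ?_
      · intro i j hij
        have h1 := congrArg Fin.val hij
        fin_cases i <;> fin_cases j <;> first
            | rfl
            | (exfalso; simp at h1; done)
            | (exfalso; simp at h1; omega)
      · intro i
        fin_cases i
        refine adj2 h (show k.val < n by omega) (show 2 < n by omega) ?_
        change (k.val = 0 ∧ 2 = 2) ∨ (2 = 0 ∧ k.val = 2) ∨ (1 ≤ k.val ∧ k.val + 1 = 2) ∨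
            (1 ≤ 2 ∧ 2 + 1 = k.val)
        omega
      · right
        refine ⟨Fin.last n, rfl, ?_, ?_⟩
        · change M k.castSucc (Fin.last n) ≠ 2
          rw [hsym]
          exact hnew
        · change M k.castSucc (Fin.last n) ≠ 3
          rw [hsym]
          exact hm
      · left
        refine ⟨⟨1 - k.val, hl _ (by omega)⟩, ⟨3, hl 3 (by norm_num)⟩, ?_, by ext y; simp,
          ?_, ?_⟩
        · intro h1
          have := congrArg Fin.val h1
          simp only at this
          omega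
        · refine adj2 h (show 2 < n by omega) (show 1 - k.val < n by omega) ?_
          change (2 = 0 ∧ 1 - k.val = 2) ∨ (1 - k.val = 0 ∧ 2 = 2) ∨ (1 ≤ 2 ∧ 2 + 1 = 1 - k.val) ∨
            (1 ≤ 1 - k.val ∧ 1 - k.val + 1 = 2)
          omega
        · exact adj2 h (show 2 < n by omega) (show 3 < n by omega)
            (Or.inr (Or.inr (Or.inl ⟨show 1 ≤ 2 by omega, rfl⟩)))
      · rw [Finset.disjoint_left]
        intro e he he'
        rw [Finset.mem_singleton] at he
        subst he
        rw [Finset.mem_insert, Finset.mem_singleton] at he'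
        rcases he' with he' | he'
        · have := congrArg Fin.val he'
          simp only [Fin.val_last] at this
          omega
        · have := congrArg Fin.val he'
          simp only [Fin.val_last] at this
          omega
      · intro i hi
        rw [Finset.mem_singleton] at hi
        have h1 := congrArg Fin.val hi
        fin_cases i
        · simp at h1
          omega
        · simp at h1
          omega
      · intro i hi
        rw [Finset.mem_insert, Finset.mem_singleton] at hi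
        rcases hi with hi | hi
        · have h1 := congrArg Fin.val hi
          fin_cases i
          · simp at h1
            omega
          · simp at h1
            omega
        · have h1 := congrArg Fin.val hi
          fin_cases i
          · simp at h1
            omega
          · simp at h1

end Pool.Agent.Art
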