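import Pool.Agent.Art.ClFix
import Pool.Agent.Art.ClPath

/-!
# Types `E6`, `E7`, `E8` with one more node

`E_n` (`n = 6, 7, 8`): the chain `0 - 2 - 3 - 4 - ... - (n-1)` and `1 - 3`. `Att.apply` gives all
entries of `M`. Let `m = M (last) k ≠ 2`, `l = last`.
PROOF. (1) `m ≠ 3`: `no_two_ends` with `G0 = {l}` at `k`, the path from `k` to `3`, and as `G1` two
neighbours of `3` which are not on the path. `k = 0`: path `0, 2, 3`, `G1 = {1, 4}`; `k = 1`: `1, 3`,
`{2, 4}`; `k = 2`: `2, 3`, `{1, 4}`; `k = 3`: `3`, `{1, 4}`; `k ≥ 4`: `k, k-1, ..., 3`, `{1, 2}`.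
(2) `m = 3`, `k = 3`: path `3`, `G0 = {1, 2}`, `G1 = {4, l}`. `m = 3`, `k = 2`: path `2, 3`,
`G0 = {0, l}`, `G1 = {1, 4}`. `m = 3`, `4 ≤ k ≤ n - 2`: path `3, ..., k`, `G0 = {1, 2}`,
`G1 = {k+1, l}`.
(3) `m = 3`, `k = 1`: `no_E6t`, `f = ![3, 1, l, 2, 0, 4, 5]`.
(4) `m = 3`, `k = 0`: `n = 6`: `E₇`, `σ = ![5, 1, 4, 3, 2, 0, 6]`; `n ≥ 7`: `no_E7t` with
`f = ![3, 2, 0, l, 4, 5, 6, 1]`.
(5) `m = 3`, `k = n - 1`: `n = 6`: `E₇`, `σ = 1`; `n = 7`: `E₈`, `σ = 1`; `n = 8`: `no_E8t` with
`f = ![3, 4, 5, 6, 7, l, 2, 0, 1]`.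
-/

set_option autoImplicit false

noncomputable section

namespace Pool.Agent.Art

private theorem ClE_v1 {B : Type} [Fintype B] {M : CoxeterMatrix B} (h : PDef M) {r : ℕ}
    (b : Fin (r + 1) → B) (hb : Function.Injective b)
    (hadj : ∀ i : Fin r, M (b i.castSucc) (b i.succ) ≠ 2) (l x y : B)
    (h1 : M (b 0) l ≠ 2) (h2 : M (b 0) l ≠ 3) (h3 : M (b (Fin.last r)) x ≠ 2)
    (h4 : M (b (Fin.last r)) y ≠ 2) (hxy : x ≠ y) (hlx : l ≠ x) (hly : l ≠ y)
    (hbl : ∀ i, b i ≠ l) (hbx : ∀ i, b i ≠ x) (hby : ∀ i, b i ≠ y) : False := by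
  classical
  refine no_two_ends h b hb hadj {l} {x, y} (Or.inr ⟨l, rfl, h1, h2⟩)
    (Or.inl ⟨x, y, hxy, rfl, h3, h4⟩) ?_ ?_ ?_
  · simp only [Finset.disjoint_singleton_left, Finset.mem_insert, Finset.mem_singleton, not_or]
    exact ⟨hlx, hly⟩
  · intro i
    rw [Finset.mem_singleton]
    exact hbl i
  · intro i
    simp only [Finset.mem_insert, Finset.mem_singleton, not_or]
    exact ⟨hbx i, hby i⟩

private theorem ClE_v2 {B : Type} [Fintype B] {M : CoxeterMatrix B} (h : PDef M) {r : ℕ}
    (b : Fin (r + 1) → B) (hb : Function.Injective b)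
    (hadj : ∀ i : Fin r, M (b i.castSucc) (b i.succ) ≠ 2) (x y z w : B)
    (h1 : M (b 0) x ≠ 2) (h2 : M (b 0) y ≠ 2) (h3 : M (b (Fin.last r)) z ≠ 2)
    (h4 : M (b (Fin.last r)) w ≠ 2) (hxy : x ≠ y) (hzw : z ≠ w) (hxz : x ≠ z) (hxw : x ≠ w)
    (hyz : y ≠ z) (hyw : y ≠ w) (hbx : ∀ i, b i ≠ x) (hby : ∀ i, b i ≠ y)
    (hbz : ∀ i, b i ≠ z) (hbw : ∀ i, b i ≠ w) : False := by
  classical
  refine no_two_ends h b hb hadj {x, y} {z, w} (Or.inl ⟨x, y, hxy, rfl, h1, h2⟩)
    (Or.inl ⟨z, w, hzw, rfl, h3, h4⟩) ?_ ?_ ?_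
  · simp only [Finset.disjoint_insert_left, Finset.disjoint_singleton_left, Finset.mem_insert,
      Finset.mem_singleton, not_or]
    exact ⟨⟨hxz, hxw⟩, hyz, hyw⟩
  · intro i
    simp only [Finset.mem_insert, Finset.mem_singleton, not_or]
    exact ⟨hbx i, hby i⟩
  · intro i
    simp only [Finset.mem_insert, Finset.mem_singleton, not_or]
    exact ⟨hbz i, hbw i⟩

private theorem ClE_sym {n : ℕ} {N : CoxeterMatrix (Fin n)} {k : Fin n}
    {M : CoxeterMatrix (Fin (n + 1))} (h : Att N k M) : M k.castSucc (Fin.last n) ≠ 2 := by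
  rw [M.symmetric]
  exact h.new

private theorem ClE_sym3 {n : ℕ} {k : Fin n} {M : CoxeterMatrix (Fin (n + 1))}
    (h : M (Fin.last n) k.castSucc ≠ 3) : M k.castSucc (Fin.last n) ≠ 3 := by
  rw [M.symmetric]
  exact h

private theorem ClE_6_0 {M : CoxeterMatrix (Fin (6 + 1))}
    (h : Att CoxeterMatrix.E₆ 0 M) : Lst M := by
  by_cases hm : M (Fin.last 6) (0 : Fin 6).castSucc = 3
  · refine ⟨CoxeterMatrix.E₇, Conn.E7, ⟨![5, 1, 4, 3, 2, 0, 6], ![5, 1, 4, 3, 2, 0, 6],
      by decide, by decide⟩, ?_⟩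
    intro i j
    rw [h.apply, hm]
    revert i j
    decide
  · exfalso
    refine ClE_v1 h.pd (![0, 2, 3] : Fin 3 → Fin 7) (by decide) ?_ 6 1 4
      (ClE_sym h) (ClE_sym3 hm) ((h.old 3 1).trans_ne (by decide))
      ((h.old 3 4).trans_ne (by decide)) (by decide) (by decide) (by decide)
      (by decide) (by decide) (by decide)
    intro i
    fin_cases i
    · exact ((h.old 0 2).trans_ne (by decide))
    · exact ((h.old 2 3).trans_ne (by decide))

private theorem ClE_6_1 {M : CoxeterMatrix (Fin (6 + 1))}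
    (h : Att CoxeterMatrix.E₆ 1 M) : Lst M := by
  by_cases hm : M (Fin.last 6) (1 : Fin 6).castSucc = 3
  · exfalso
    exact no_E6t h.pd ![3, 1, 6, 2, 0, 4, 5] (by decide)
      ((h.old 3 1).trans_ne (by decide))
      (ClE_sym h)
      ((h.old 3 2).trans_ne (by decide))
      ((h.old 2 0).trans_ne (by decide))
      ((h.old 3 4).trans_ne (by decide))
      ((h.old 4 5).trans_ne (by decide))
  · exfalso
    refine ClE_v1 h.pd (![1, 3] : Fin 2 → Fin 7) (by decide) ?_ 6 2 4
      (ClE_sym h) (ClE_sym3 hm) ((h.old 3 2).trans_ne (by decide))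
      ((h.old 3 4).trans_ne (by decide)) (by decide) (by decide) (by decide)
      (by decide) (by decide) (by decide)
    intro i
    fin_cases i
    · exact ((h.old 1 3).trans_ne (by decide))

private theorem ClE_6_2 {M : CoxeterMatrix (Fin (6 + 1))}
    (h : Att CoxeterMatrix.E₆ 2 M) : Lst M := by
  by_cases hm : M (Fin.last 6) (2 : Fin 6).castSucc = 3
  · exfalso
    refine ClE_v2 h.pd (![2, 3] : Fin 2 → Fin 7) (by decide) ?_ 0 6 1 4
      ((h.old 2 0).trans_ne (by decide)) (ClE_sym h)
      ((h.old 3 1).trans_ne (by decide)) ((h.old 3 4).trans_ne (by decide))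
      (by decide) (by decide) (by decide) (by decide) (by decide) (by decide)
      (by decide) (by decide) (by decide) (by decide)
    intro i
    fin_cases i
    · exact ((h.old 2 3).trans_ne (by decide))
  · exfalso
    refine ClE_v1 h.pd (![2, 3] : Fin 2 → Fin 7) (by decide) ?_ 6 1 4
      (ClE_sym h) (ClE_sym3 hm) ((h.old 3 1).trans_ne (by decide))
      ((h.old 3 4).trans_ne (by decide)) (by decide) (by decide) (by decide)
      (by decide) (by decide) (by decide)
    intro i
    fin_cases i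
    · exact ((h.old 2 3).trans_ne (by decide))

private theorem ClE_6_3 {M : CoxeterMatrix (Fin (6 + 1))}
    (h : Att CoxeterMatrix.E₆ 3 M) : Lst M := by
  by_cases hm : M (Fin.last 6) (3 : Fin 6).castSucc = 3
  · exfalso
    refine ClE_v2 h.pd (![3] : Fin 1 → Fin 7) (by decide) ?_ 1 2 4 6
      ((h.old 3 1).trans_ne (by decide)) ((h.old 3 2).trans_ne (by decide))
      ((h.old 3 4).trans_ne (by decide)) (ClE_sym h)
      (by decide) (by decide) (by decide) (by decide) (by decide) (by decide)
      (by decide) (by decide) (by decide) (by decide)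
    intro i
    exact i.elim0
  · exfalso
    refine ClE_v1 h.pd (![3] : Fin 1 → Fin 7) (by decide) ?_ 6 1 4
      (ClE_sym h) (ClE_sym3 hm) ((h.old 3 1).trans_ne (by decide))
      ((h.old 3 4).trans_ne (by decide)) (by decide) (by decide) (by decide)
      (by decide) (by decide) (by decide)
    intro i
    exact i.elim0

private theorem ClE_6_4 {M : CoxeterMatrix (Fin (6 + 1))}
    (h : Att CoxeterMatrix.E₆ 4 M) : Lst M := by
  by_cases hm : M (Fin.last 6) (4 : Fin 6).castSucc = 3
  · exfalso
    refine ClE_v2 h.pd (![3, 4] : Fin 2 → Fin 7) (by decide) ?_ 1 2 5 6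
      ((h.old 3 1).trans_ne (by decide)) ((h.old 3 2).trans_ne (by decide))
      ((h.old 4 5).trans_ne (by decide)) (ClE_sym h)
      (by decide) (by decide) (by decide) (by decide) (by decide) (by decide)
      (by decide) (by decide) (by decide) (by decide)
    intro i
    fin_cases i
    · exact ((h.old 3 4).trans_ne (by decide))
  · exfalso
    refine ClE_v1 h.pd (![4, 3] : Fin 2 → Fin 7) (by decide) ?_ 6 1 2
      (ClE_sym h) (ClE_sym3 hm) ((h.old 3 1).trans_ne (by decide))
      ((h.old 3 2).trans_ne (by decide)) (by decide) (by decide) (by decide)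
      (by decide) (by decide) (by decide)
    intro i
    fin_cases i
    · exact ((h.old 4 3).trans_ne (by decide))

private theorem ClE_6_5 {M : CoxeterMatrix (Fin (6 + 1))}
    (h : Att CoxeterMatrix.E₆ 5 M) : Lst M := by
  by_cases hm : M (Fin.last 6) (5 : Fin 6).castSucc = 3
  · refine ⟨CoxeterMatrix.E₇, Conn.E7, ⟨![0, 1, 2, 3, 4, 5, 6], ![0, 1, 2, 3, 4, 5, 6],
      by decide, by decide⟩, ?_⟩
    intro i j
    rw [h.apply, hm]
    revert i j
    decide
  · exfalso
    refine ClE_v1 h.pd (![5, 4, 3] : Fin 3 → Fin 7) (by decide) ?_ 6 1 2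
      (ClE_sym h) (ClE_sym3 hm) ((h.old 3 1).trans_ne (by decide))
      ((h.old 3 2).trans_ne (by decide)) (by decide) (by decide) (by decide)
      (by decide) (by decide) (by decide)
    intro i
    fin_cases i
    · exact ((h.old 5 4).trans_ne (by decide))
    · exact ((h.old 4 3).trans_ne (by decide))

private theorem ClE_7_0 {M : CoxeterMatrix (Fin (7 + 1))}
    (h : Att CoxeterMatrix.E₇ 0 M) : Lst M := by
  by_cases hm : M (Fin.last 7) (0 : Fin 7).castSucc = 3
  · exfalso
    exact no_E7t h.pd ![3, 2, 0, 7, 4, 5, 6, 1] (by decide)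
      ((h.old 3 2).trans_ne (by decide))
      ((h.old 2 0).trans_ne (by decide))
      (ClE_sym h)
      ((h.old 3 4).trans_ne (by decide))
      ((h.old 4 5).trans_ne (by decide))
      ((h.old 5 6).trans_ne (by decide))
      ((h.old 3 1).trans_ne (by decide))
  · exfalso
    refine ClE_v1 h.pd (![0, 2, 3] : Fin 3 → Fin 8) (by decide) ?_ 7 1 4
      (ClE_sym h) (ClE_sym3 hm) ((h.old 3 1).trans_ne (by decide))
      ((h.old 3 4).trans_ne (by decide)) (by decide) (by decide) (by decide)
      (by decide) (by decide) (by decide)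
    intro i
    fin_cases i
    · exact ((h.old 0 2).trans_ne (by decide))
    · exact ((h.old 2 3).trans_ne (by decide))

private theorem ClE_7_1 {M : CoxeterMatrix (Fin (7 + 1))}
    (h : Att CoxeterMatrix.E₇ 1 M) : Lst M := by
  by_cases hm : M (Fin.last 7) (1 : Fin 7).castSucc = 3
  · exfalso
    exact no_E6t h.pd ![3, 1, 7, 2, 0, 4, 5] (by decide)
      ((h.old 3 1).trans_ne (by decide))
      (ClE_sym h)
      ((h.old 3 2).trans_ne (by decide))
      ((h.old 2 0).trans_ne (by decide))
      ((h.old 3 4).trans_ne (by decide))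
      ((h.old 4 5).trans_ne (by decide))
  · exfalso
    refine ClE_v1 h.pd (![1, 3] : Fin 2 → Fin 8) (by decide) ?_ 7 2 4
      (ClE_sym h) (ClE_sym3 hm) ((h.old 3 2).trans_ne (by decide))
      ((h.old 3 4).trans_ne (by decide)) (by decide) (by decide) (by decide)
      (by decide) (by decide) (by decide)
    intro i
    fin_cases i
    · exact ((h.old 1 3).trans_ne (by decide))

private theorem ClE_7_2 {M : CoxeterMatrix (Fin (7 + 1))}
    (h : Att CoxeterMatrix.E₇ 2 M) : Lst M := by
  by_cases hm : M (Fin.last 7) (2 : Fin 7).castSucc = 3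
  · exfalso
    refine ClE_v2 h.pd (![2, 3] : Fin 2 → Fin 8) (by decide) ?_ 0 7 1 4
      ((h.old 2 0).trans_ne (by decide)) (ClE_sym h)
      ((h.old 3 1).trans_ne (by decide)) ((h.old 3 4).trans_ne (by decide))
      (by decide) (by decide) (by decide) (by decide) (by decide) (by decide)
      (by decide) (by decide) (by decide) (by decide)
    intro i
    fin_cases i
    · exact ((h.old 2 3).trans_ne (by decide))
  · exfalso
    refine ClE_v1 h.pd (![2, 3] : Fin 2 → Fin 8) (by decide) ?_ 7 1 4
      (ClE_sym h) (ClE_sym3 hm) ((h.old 3 1).trans_ne (by decide))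
      ((h.old 3 4).trans_ne (by decide)) (by decide) (by decide) (by decide)
      (by decide) (by decide) (by decide)
    intro i
    fin_cases i
    · exact ((h.old 2 3).trans_ne (by decide))

private theorem ClE_7_3 {M : CoxeterMatrix (Fin (7 + 1))}
    (h : Att CoxeterMatrix.E₇ 3 M) : Lst M := by
  by_cases hm : M (Fin.last 7) (3 : Fin 7).castSucc = 3
  · exfalso
    refine ClE_v2 h.pd (![3] : Fin 1 → Fin 8) (by decide) ?_ 1 2 4 7
      ((h.old 3 1).trans_ne (by decide)) ((h.old 3 2).trans_ne (by decide))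
      ((h.old 3 4).trans_ne (by decide)) (ClE_sym h)
      (by decide) (by decide) (by decide) (by decide) (by decide) (by decide)
      (by decide) (by decide) (by decide) (by decide)
    intro i
    exact i.elim0
  · exfalso
    refine ClE_v1 h.pd (![3] : Fin 1 → Fin 8) (by decide) ?_ 7 1 4
      (ClE_sym h) (ClE_sym3 hm) ((h.old 3 1).trans_ne (by decide))
      ((h.old 3 4).trans_ne (by decide)) (by decide) (by decide) (by decide)
      (by decide) (by decide) (by decide)
    intro i
    exact i.elim0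

private theorem ClE_7_4 {M : CoxeterMatrix (Fin (7 + 1))}
    (h : Att CoxeterMatrix.E₇ 4 M) : Lst M := by
  by_cases hm : M (Fin.last 7) (4 : Fin 7).castSucc = 3
  · exfalso
    refine ClE_v2 h.pd (![3, 4] : Fin 2 → Fin 8) (by decide) ?_ 1 2 5 7
      ((h.old 3 1).trans_ne (by decide)) ((h.old 3 2).trans_ne (by decide))
      ((h.old 4 5).trans_ne (by decide)) (ClE_sym h)
      (by decide) (by decide) (by decide) (by decide) (by decide) (by decide)
      (by decide) (by decide) (by decide) (by decide)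
    intro i
    fin_cases i
    · exact ((h.old 3 4).trans_ne (by decide))
  · exfalso
    refine ClE_v1 h.pd (![4, 3] : Fin 2 → Fin 8) (by decide) ?_ 7 1 2
      (ClE_sym h) (ClE_sym3 hm) ((h.old 3 1).trans_ne (by decide))
      ((h.old 3 2).trans_ne (by decide)) (by decide) (by decide) (by decide)
      (by decide) (by decide) (by decide)
    intro i
    fin_cases i
    · exact ((h.old 4 3).trans_ne (by decide))

private theorem ClE_7_5 {M : CoxeterMatrix (Fin (7 + 1))}
    (h : Att CoxeterMatrix.E₇ 5 M) : Lst M := by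
  by_cases hm : M (Fin.last 7) (5 : Fin 7).castSucc = 3
  · exfalso
    refine ClE_v2 h.pd (![3, 4, 5] : Fin 3 → Fin 8) (by decide) ?_ 1 2 6 7
      ((h.old 3 1).trans_ne (by decide)) ((h.old 3 2).trans_ne (by decide))
      ((h.old 5 6).trans_ne (by decide)) (ClE_sym h)
      (by decide) (by decide) (by decide) (by decide) (by decide) (by decide)
      (by decide) (by decide) (by decide) (by decide)
    intro i
    fin_cases i
    · exact ((h.old 3 4).trans_ne (by decide))
    · exact ((h.old 4 5).trans_ne (by decide))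
  · exfalso
    refine ClE_v1 h.pd (![5, 4, 3] : Fin 3 → Fin 8) (by decide) ?_ 7 1 2
      (ClE_sym h) (ClE_sym3 hm) ((h.old 3 1).trans_ne (by decide))
      ((h.old 3 2).trans_ne (by decide)) (by decide) (by decide) (by decide)
      (by decide) (by decide) (by decide)
    intro i
    fin_cases i
    · exact ((h.old 5 4).trans_ne (by decide))
    · exact ((h.old 4 3).trans_ne (by decide))

private theorem ClE_7_6 {M : CoxeterMatrix (Fin (7 + 1))}
    (h : Att CoxeterMatrix.E₇ 6 M) : Lst M := by
  by_cases hm : M (Fin.last 7) (6 : Fin 7).castSucc = 3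
  · refine ⟨CoxeterMatrix.E₈, Conn.E8, ⟨![0, 1, 2, 3, 4, 5, 6, 7], ![0, 1, 2, 3, 4, 5, 6, 7],
      by decide, by decide⟩, ?_⟩
    intro i j
    rw [h.apply, hm]
    revert i j
    decide
  · exfalso
    refine ClE_v1 h.pd (![6, 5, 4, 3] : Fin 4 → Fin 8) (by decide) ?_ 7 1 2
      (ClE_sym h) (ClE_sym3 hm) ((h.old 3 1).trans_ne (by decide))
      ((h.old 3 2).trans_ne (by decide)) (by decide) (by decide) (by decide)
      (by decide) (by decide) (by decide)
    intro i
    fin_cases i
    · exact ((h.old 6 5).trans_ne (by decide))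
    · exact ((h.old 5 4).trans_ne (by decide))
    · exact ((h.old 4 3).trans_ne (by decide))

private theorem ClE_8_0 {M : CoxeterMatrix (Fin (8 + 1))}
    (h : Att CoxeterMatrix.E₈ 0 M) : Lst M := by
  by_cases hm : M (Fin.last 8) (0 : Fin 8).castSucc = 3
  · exfalso
    exact no_E7t h.pd ![3, 2, 0, 8, 4, 5, 6, 1] (by decide)
      ((h.old 3 2).trans_ne (by decide))
      ((h.old 2 0).trans_ne (by decide))
      (ClE_sym h)
      ((h.old 3 4).trans_ne (by decide))
      ((h.old 4 5).trans_ne (by decide))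
      ((h.old 5 6).trans_ne (by decide))
      ((h.old 3 1).trans_ne (by decide))
  · exfalso
    refine ClE_v1 h.pd (![0, 2, 3] : Fin 3 → Fin 9) (by decide) ?_ 8 1 4
      (ClE_sym h) (ClE_sym3 hm) ((h.old 3 1).trans_ne (by decide))
      ((h.old 3 4).trans_ne (by decide)) (by decide) (by decide) (by decide)
      (by decide) (by decide) (by decide)
    intro i
    fin_cases i
    · exact ((h.old 0 2).trans_ne (by decide))
    · exact ((h.old 2 3).trans_ne (by decide))

private theorem ClE_8_1 {M : CoxeterMatrix (Fin (8 + 1))}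
    (h : Att CoxeterMatrix.E₈ 1 M) : Lst M := by
  by_cases hm : M (Fin.last 8) (1 : Fin 8).castSucc = 3
  · exfalso
    exact no_E6t h.pd ![3, 1, 8, 2, 0, 4, 5] (by decide)
      ((h.old 3 1).trans_ne (by decide))
      (ClE_sym h)
      ((h.old 3 2).trans_ne (by decide))
      ((h.old 2 0).trans_ne (by decide))
      ((h.old 3 4).trans_ne (by decide))
      ((h.old 4 5).trans_ne (by decide))
  · exfalso
    refine ClE_v1 h.pd (![1, 3] : Fin 2 → Fin 9) (by decide) ?_ 8 2 4
      (ClE_sym h) (ClE_sym3 hm) ((h.old 3 2).trans_ne (by decide))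
      ((h.old 3 4).trans_ne (by decide)) (by decide) (by decide) (by decide)
      (by decide) (by decide) (by decide)
    intro i
    fin_cases i
    · exact ((h.old 1 3).trans_ne (by decide))

private theorem ClE_8_2 {M : CoxeterMatrix (Fin (8 + 1))}
    (h : Att CoxeterMatrix.E₈ 2 M) : Lst M := by
  by_cases hm : M (Fin.last 8) (2 : Fin 8).castSucc = 3
  · exfalso
    refine ClE_v2 h.pd (![2, 3] : Fin 2 → Fin 9) (by decide) ?_ 0 8 1 4
      ((h.old 2 0).trans_ne (by decide)) (ClE_sym h)
      ((h.old 3 1).trans_ne (by decide)) ((h.old 3 4).trans_ne (by decide))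
      (by decide) (by decide) (by decide) (by decide) (by decide) (by decide)
      (by decide) (by decide) (by decide) (by decide)
    intro i
    fin_cases i
    · exact ((h.old 2 3).trans_ne (by decide))
  · exfalso
    refine ClE_v1 h.pd (![2, 3] : Fin 2 → Fin 9) (by decide) ?_ 8 1 4
      (ClE_sym h) (ClE_sym3 hm) ((h.old 3 1).trans_ne (by decide))
      ((h.old 3 4).trans_ne (by decide)) (by decide) (by decide) (by decide)
      (by decide) (by decide) (by decide)
    intro i
    fin_cases i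
    · exact ((h.old 2 3).trans_ne (by decide))

private theorem ClE_8_3 {M : CoxeterMatrix (Fin (8 + 1))}
    (h : Att CoxeterMatrix.E₈ 3 M) : Lst M := by
  by_cases hm : M (Fin.last 8) (3 : Fin 8).castSucc = 3
  · exfalso
    refine ClE_v2 h.pd (![3] : Fin 1 → Fin 9) (by decide) ?_ 1 2 4 8
      ((h.old 3 1).trans_ne (by decide)) ((h.old 3 2).trans_ne (by decide))
      ((h.old 3 4).trans_ne (by decide)) (ClE_sym h)
      (by decide) (by decide) (by decide) (by decide) (by decide) (by decide)
      (by decide) (by decide) (by decide) (by decide)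
    intro i
    exact i.elim0
  · exfalso
    refine ClE_v1 h.pd (![3] : Fin 1 → Fin 9) (by decide) ?_ 8 1 4
      (ClE_sym h) (ClE_sym3 hm) ((h.old 3 1).trans_ne (by decide))
      ((h.old 3 4).trans_ne (by decide)) (by decide) (by decide) (by decide)
      (by decide) (by decide) (by decide)
    intro i
    exact i.elim0

private theorem ClE_8_4 {M : CoxeterMatrix (Fin (8 + 1))}
    (h : Att CoxeterMatrix.E₈ 4 M) : Lst M := by
  by_cases hm : M (Fin.last 8) (4 : Fin 8).castSucc = 3
  · exfalso
    refine ClE_v2 h.pd (![3, 4] : Fin 2 → Fin 9) (by decide) ?_ 1 2 5 8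
      ((h.old 3 1).trans_ne (by decide)) ((h.old 3 2).trans_ne (by decide))
      ((h.old 4 5).trans_ne (by decide)) (ClE_sym h)
      (by decide) (by decide) (by decide) (by decide) (by decide) (by decide)
      (by decide) (by decide) (by decide) (by decide)
    intro i
    fin_cases i
    · exact ((h.old 3 4).trans_ne (by decide))
  · exfalso
    refine ClE_v1 h.pd (![4, 3] : Fin 2 → Fin 9) (by decide) ?_ 8 1 2
      (ClE_sym h) (ClE_sym3 hm) ((h.old 3 1).trans_ne (by decide))
      ((h.old 3 2).trans_ne (by decide)) (by decide) (by decide) (by decide)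
      (by decide) (by decide) (by decide)
    intro i
    fin_cases i
    · exact ((h.old 4 3).trans_ne (by decide))

private theorem ClE_8_5 {M : CoxeterMatrix (Fin (8 + 1))}
    (h : Att CoxeterMatrix.E₈ 5 M) : Lst M := by
  by_cases hm : M (Fin.last 8) (5 : Fin 8).castSucc = 3
  · exfalso
    refine ClE_v2 h.pd (![3, 4, 5] : Fin 3 → Fin 9) (by decide) ?_ 1 2 6 8
      ((h.old 3 1).trans_ne (by decide)) ((h.old 3 2).trans_ne (by decide))
      ((h.old 5 6).trans_ne (by decide)) (ClE_sym h)
      (by decide) (by decide) (by decide) (by decide) (by decide) (by decide)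
      (by decide) (by decide) (by decide) (by decide)
    intro i
    fin_cases i
    · exact ((h.old 3 4).trans_ne (by decide))
    · exact ((h.old 4 5).trans_ne (by decide))
  · exfalso
    refine ClE_v1 h.pd (![5, 4, 3] : Fin 3 → Fin 9) (by decide) ?_ 8 1 2
      (ClE_sym h) (ClE_sym3 hm) ((h.old 3 1).trans_ne (by decide))
      ((h.old 3 2).trans_ne (by decide)) (by decide) (by decide) (by decide)
      (by decide) (by decide) (by decide)
    intro i
    fin_cases i
    · exact ((h.old 5 4).trans_ne (by decide))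
    · exact ((h.old 4 3).trans_ne (by decide))

private theorem ClE_8_6 {M : CoxeterMatrix (Fin (8 + 1))}
    (h : Att CoxeterMatrix.E₈ 6 M) : Lst M := by
  by_cases hm : M (Fin.last 8) (6 : Fin 8).castSucc = 3
  · exfalso
    refine ClE_v2 h.pd (![3, 4, 5, 6] : Fin 4 → Fin 9) (by decide) ?_ 1 2 7 8
      ((h.old 3 1).trans_ne (by decide)) ((h.old 3 2).trans_ne (by decide))
      ((h.old 6 7).trans_ne (by decide)) (ClE_sym h)
      (by decide) (by decide) (by decide) (by decide) (by decide) (by decide)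
      (by decide) (by decide) (by decide) (by decide)
    intro i
    fin_cases i
    · exact ((h.old 3 4).trans_ne (by decide))
    · exact ((h.old 4 5).trans_ne (by decide))
    · exact ((h.old 5 6).trans_ne (by decide))
  · exfalso
    refine ClE_v1 h.pd (![6, 5, 4, 3] : Fin 4 → Fin 9) (by decide) ?_ 8 1 2
      (ClE_sym h) (ClE_sym3 hm) ((h.old 3 1).trans_ne (by decide))
      ((h.old 3 2).trans_ne (by decide)) (by decide) (by decide) (by decide)
      (by decide) (by decide) (by decide)
    intro i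
    fin_cases i
    · exact ((h.old 6 5).trans_ne (by decide))
    · exact ((h.old 5 4).trans_ne (by decide))
    · exact ((h.old 4 3).trans_ne (by decide))

private theorem ClE_8_7 {M : CoxeterMatrix (Fin (8 + 1))}
    (h : Att CoxeterMatrix.E₈ 7 M) : Lst M := by
  by_cases hm : M (Fin.last 8) (7 : Fin 8).castSucc = 3
  · exfalso
    exact no_E8t h.pd ![3, 4, 5, 6, 7, 8, 2, 0, 1] (by decide)
      ((h.old 3 4).trans_ne (by decide))
      ((h.old 4 5).trans_ne (by decide))
      ((h.old 5 6).trans_ne (by decide))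
      ((h.old 6 7).trans_ne (by decide))
      (ClE_sym h)
      ((h.old 3 2).trans_ne (by decide))
      ((h.old 2 0).trans_ne (by decide))
      ((h.old 3 1).trans_ne (by decide))
  · exfalso
    refine ClE_v1 h.pd (![7, 6, 5, 4, 3] : Fin 5 → Fin 9) (by decide) ?_ 8 1 2
      (ClE_sym h) (ClE_sym3 hm) ((h.old 3 1).trans_ne (by decide))
      ((h.old 3 2).trans_ne (by decide)) (by decide) (by decide) (by decide)
      (by decide) (by decide) (by decide)
    intro i
    fin_cases i
    · exact ((h.old 7 6).trans_ne (by decide))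
    · exact ((h.old 6 5).trans_ne (by decide))
    · exact ((h.old 5 4).trans_ne (by decide))
    · exact ((h.old 4 3).trans_ne (by decide))

theorem attE6 {k : Fin 6} {M : CoxeterMatrix (Fin (6 + 1))} (h : Att CoxeterMatrix.E₆ k M) :
    Lst M := by
  fin_cases k
  · exact ClE_6_0 h
  · exact ClE_6_1 h
  · exact ClE_6_2 h
  · exact ClE_6_3 h
  · exact ClE_6_4 h
  · exact ClE_6_5 h

theorem attE7 {k : Fin 7} {M : CoxeterMatrix (Fin (7 + 1))} (h : Att CoxeterMatrix.E₇ k M) :
    Lst M := by
  fin_cases k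
  · exact ClE_7_0 h
  · exact ClE_7_1 h
  · exact ClE_7_2 h
  · exact ClE_7_3 h
  · exact ClE_7_4 h
  · exact ClE_7_5 h
  · exact ClE_7_6 h

theorem attE8 {k : Fin 8} {M : CoxeterMatrix (Fin (8 + 1))} (h : Att CoxeterMatrix.E₈ k M) :
    Lst M := by
  fin_cases k
  · exact ClE_8_0 h
  · exact ClE_8_1 h
  · exact ClE_8_2 h
  · exact ClE_8_3 h
  · exact ClE_8_4 h
  · exact ClE_8_5 h
  · exact ClE_8_6 h
  · exact ClE_8_7 h

end Pool.Agent.Art
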