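import Pool.Agent.Art.ClFix
import Pool.Agent.Art.ClPath

/-!
# Types `F4`, `H3`, `H4`, `I2(m)` with one more node

`Att.apply` gives all entries of `M`. Let `m = M (last) k ≠ 2`, `l = last`.
PROOF. `F₄` (`0 - 1 = 2 - 3`): never. `k = 0`: `no_F4t`, `f = ![l, 0, 1, 2, 3]`; `k = 3`:
`f = ![l, 3, 2, 1, 0]`; `k = 1`: `no_two_ends`, path `1`, `G0 = {0, l}`, `G1 = {2}`; `k = 2`: path
`2`, `G0 = {3, l}`, `G1 = {1}`.
`H₃` (`0 - 1 -5- 2`): `k = 0`, `m = 3`: `H₄`, `σ = ![3, 0, 1, 2]`; `k = 0`, `m ≠ 3`: path `0, 1`,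
`G0 = {l}`, `G1 = {2}`; `k = 1`: path `1`, `G0 = {0, l}`, `G1 = {2}`; `k = 2`: `no_Z4`,
`f = ![0, 1, 2, l]`.
`H₄` (`0 - 1 - 2 -5- 3`): never. `k = 0`: `no_Z5`, `f = ![l, 0, 1, 2, 3]`; `k = 1`: path `1, 2`,
`G0 = {0, l}`, `G1 = {3}`; `k = 2`: path `2`, `G0 = {1, l}`, `G1 = {3}`; `k = 3`: `no_Z4`,
`f = ![1, 2, 3, l]`.
`I q` (label `q + 2 ≥ 5` between `0` and `1`), `k' = 1 - k`: `q ≥ 4`: `no_G2t`, `f = ![l, k, k']`;
`q = 3`, `m = 3`: `H₃`, `σ = ![2, 0, 1]` (`k = 0`), `![2, 1, 0]` (`k = 1`); `q = 3`, `m ≠ 3`: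
`no_two_ends`, path `k`, `G0 = {l}`, `G1 = {k'}`.
-/

set_option autoImplicit false

noncomputable section

namespace Pool.Agent.Art

private theorem clf_lst {n : ℕ} {M N : CoxeterMatrix (Fin n)} (hN : Conn n N)
    (f g : Fin n → Fin n) (h1 : ∀ i, g (f i) = i) (h2 : ∀ i, f (g i) = i)
    (h : ∀ i j, M (f i) (f j) = N i j) : Lst M :=
  ⟨N, hN, ⟨f, g, h1, h2⟩, h⟩

private theorem clf_two {n : ℕ} {M : CoxeterMatrix (Fin n)} {c e1 e2 : Fin n} (he : e1 ≠ e2)
    (h1 : M c e1 ≠ 2) (h2 : M c e2 ≠ 2) : EndG M c {e1, e2} :=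
  Or.inl ⟨e1, e2, he, by ext y; simp, h1, h2⟩

private theorem clf_one {n : ℕ} {M : CoxeterMatrix (Fin n)} {c e : Fin n}
    (h1 : M c e ≠ 2) (h2 : M c e ≠ 3) : EndG M c {e} :=
  Or.inr ⟨e, rfl, h1, h2⟩

/-- a path with one node -/
private theorem clf_p1 {n : ℕ} {M : CoxeterMatrix (Fin n)} (h : PDef M) (c : Fin n)
    (G0 G1 : Finset (Fin n)) (h0 : EndG M c G0) (h1 : EndG M c G1) (hd : Disjoint G0 G1)
    (c0 : c ∉ G0) (c1 : c ∉ G1) : False :=
  no_two_ends h (r := 0) ![c] (fun i j _ => by omega) (fun i => i.elim0) G0 G1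
    h0 h1 hd (fun i => by fin_cases i; exact c0) (fun i => by fin_cases i; exact c1)

/-- a path with two nodes -/
private theorem clf_p2 {n : ℕ} {M : CoxeterMatrix (Fin n)} (h : PDef M) (c c' : Fin n)
    (hc : c ≠ c') (hm : M c c' ≠ 2)
    (G0 G1 : Finset (Fin n)) (h0 : EndG M c G0) (h1 : EndG M c' G1) (hd : Disjoint G0 G1)
    (c0 : c ∉ G0) (c0' : c' ∉ G0) (c1 : c ∉ G1) (c1' : c' ∉ G1) : False := by
  refine no_two_ends h (r := 1) ![c, c'] ?_ ?_ G0 G1 h0 h1 hd ?_ ?_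
  · intro i j hij
    fin_cases i <;> fin_cases j
    · rfl
    · exact absurd hij hc
    · exact absurd hij.symm hc
    · rfl
  · intro i
    fin_cases i
    exact hm
  · intro i
    fin_cases i
    · exact c0
    · exact c0'
  · intro i
    fin_cases i
    · exact c1
    · exact c1'

private theorem clf_ne {a b c : ℕ} (h : a = b) (hb : b ≠ c) : a ≠ c := by
  rw [h]
  exact hb

theorem attF4 {k : Fin 4} {M : CoxeterMatrix (Fin (4 + 1))} (h : Att CoxeterMatrix.F₄ k M) :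
    Lst M := by
  exfalso
  have hnew := h.new
  have hnew' := h.new
  rw [M.symmetric] at hnew'
  have e01 : M (0 : Fin 5) (1 : Fin 5) = 3 := h.old 0 1
  have e10 : M (1 : Fin 5) (0 : Fin 5) = 3 := h.old 1 0
  have e12 : M (1 : Fin 5) (2 : Fin 5) = 4 := h.old 1 2
  have e21 : M (2 : Fin 5) (1 : Fin 5) = 4 := h.old 2 1
  have e23 : M (2 : Fin 5) (3 : Fin 5) = 3 := h.old 2 3
  have e32 : M (3 : Fin 5) (2 : Fin 5) = 3 := h.old 3 2
  fin_cases k
  · exact no_F4t h.pd ![4, 0, 1, 2, 3] (by decide) hnew (clf_ne e01 (by norm_num))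
      (clf_ne e12 (by norm_num)) (clf_ne e12 (by norm_num)) (clf_ne e23 (by norm_num))
  · exact clf_p1 h.pd 1 {0, 4} {2} (clf_two (by decide) (clf_ne e10 (by norm_num)) hnew')
      (clf_one (clf_ne e12 (by norm_num)) (clf_ne e12 (by norm_num))) (by decide) (by decide)
      (by decide)
  · exact clf_p1 h.pd 2 {3, 4} {1} (clf_two (by decide) (clf_ne e23 (by norm_num)) hnew')
      (clf_one (clf_ne e21 (by norm_num)) (clf_ne e21 (by norm_num))) (by decide) (by decide)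
      (by decide)
  · exact no_F4t h.pd ![4, 3, 2, 1, 0] (by decide) hnew (clf_ne e32 (by norm_num))
      (clf_ne e21 (by norm_num)) (clf_ne e21 (by norm_num)) (clf_ne e10 (by norm_num))

private theorem dec_H3 : ∀ i j : Fin 4, attf (fun a b => CoxeterMatrix.H₃ a b) (0 : Fin 3) 3
    ((![3, 0, 1, 2] : Fin 4 → Fin 4) i) ((![3, 0, 1, 2] : Fin 4 → Fin 4) j) =
      CoxeterMatrix.H₄ i j := by
  decide

theorem attH3 {k : Fin 3} {M : CoxeterMatrix (Fin (3 + 1))} (h : Att CoxeterMatrix.H₃ k M) :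
    Lst M := by
  have hnew := h.new
  have hnew' := h.new
  rw [M.symmetric] at hnew'
  have hap := h.apply
  have e01 : M (0 : Fin 4) (1 : Fin 4) = 3 := h.old 0 1
  have e10 : M (1 : Fin 4) (0 : Fin 4) = 3 := h.old 1 0
  have e12 : M (1 : Fin 4) (2 : Fin 4) = 5 := h.old 1 2
  fin_cases k
  · by_cases hm : M (Fin.last 3) (0 : Fin 3).castSucc = 3
    · refine clf_lst Conn.H4 ![3, 0, 1, 2] ![1, 2, 3, 0] (by decide) (by decide) fun i j => ?_
      have h1 := hap ((![3, 0, 1, 2] : Fin 4 → Fin 4) i) ((![3, 0, 1, 2] : Fin 4 → Fin 4) j)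
      have h2 : M (Fin.last 3) ((⟨0, by norm_num⟩ : Fin 3)).castSucc = 3 := hm
      refine h1.trans ?_
      change attf (fun a b => CoxeterMatrix.H₃ a b) (0 : Fin 3)
        (M (Fin.last 3) ((⟨0, by norm_num⟩ : Fin 3)).castSucc)
        ((![3, 0, 1, 2] : Fin 4 → Fin 4) i) ((![3, 0, 1, 2] : Fin 4 → Fin 4) j) = _
      rw [h2]
      exact dec_H3 i j
    · exfalso
      have hm' : M (0 : Fin 3).castSucc (Fin.last 3) ≠ 3 := by
        rw [M.symmetric]
        exact hm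
      exact clf_p2 h.pd 0 1 (by decide) (clf_ne e01 (by norm_num)) {3} {2}
        (clf_one hnew' hm') (clf_one (clf_ne e12 (by norm_num)) (clf_ne e12 (by norm_num)))
        (by decide) (by decide) (by decide) (by decide) (by decide)
  · exfalso
    exact clf_p1 h.pd 1 {0, 3} {2} (clf_two (by decide) (clf_ne e10 (by norm_num)) hnew')
      (clf_one (clf_ne e12 (by norm_num)) (clf_ne e12 (by norm_num))) (by decide) (by decide)
      (by decide)
  · exfalso
    exact no_Z4 h.pd ![0, 1, 2, 3] (by decide) (clf_ne e01 (by norm_num))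
      (clf_ne e12 (by norm_num)) (clf_ne e12 (by norm_num)) (clf_ne e12 (by norm_num)) hnew'

theorem attH4 {k : Fin 4} {M : CoxeterMatrix (Fin (4 + 1))} (h : Att CoxeterMatrix.H₄ k M) :
    Lst M := by
  exfalso
  have hnew := h.new
  have hnew' := h.new
  rw [M.symmetric] at hnew'
  have e01 : M (0 : Fin 5) (1 : Fin 5) = 3 := h.old 0 1
  have e10 : M (1 : Fin 5) (0 : Fin 5) = 3 := h.old 1 0
  have e12 : M (1 : Fin 5) (2 : Fin 5) = 3 := h.old 1 2
  have e21 : M (2 : Fin 5) (1 : Fin 5) = 3 := h.old 2 1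
  have e23 : M (2 : Fin 5) (3 : Fin 5) = 5 := h.old 2 3
  fin_cases k
  · exact no_Z5 h.pd ![4, 0, 1, 2, 3] (by decide) hnew (clf_ne e01 (by norm_num))
      (clf_ne e12 (by norm_num)) (clf_ne e23 (by norm_num)) (clf_ne e23 (by norm_num))
      (clf_ne e23 (by norm_num))
  · exact clf_p2 h.pd 1 2 (by decide) (clf_ne e12 (by norm_num)) {0, 4} {3}
      (clf_two (by decide) (clf_ne e10 (by norm_num)) hnew')
      (clf_one (clf_ne e23 (by norm_num)) (clf_ne e23 (by norm_num))) (by decide) (by decide)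
      (by decide) (by decide) (by decide)
  · exact clf_p1 h.pd 2 {1, 4} {3} (clf_two (by decide) (clf_ne e21 (by norm_num)) hnew')
      (clf_one (clf_ne e23 (by norm_num)) (clf_ne e23 (by norm_num))) (by decide) (by decide)
      (by decide)
  · exact no_Z4 h.pd ![1, 2, 3, 4] (by decide) (clf_ne e12 (by norm_num))
      (clf_ne e23 (by norm_num)) (clf_ne e23 (by norm_num)) (clf_ne e23 (by norm_num)) hnew'

private theorem dec_I0 : ∀ i j : Fin 3, attf (fun a b => CoxeterMatrix.I 3 a b) (0 : Fin 2) 3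
    ((![2, 0, 1] : Fin 3 → Fin 3) i) ((![2, 0, 1] : Fin 3 → Fin 3) j) =
      CoxeterMatrix.H₃ i j := by
  decide

private theorem dec_I1 : ∀ i j : Fin 3, attf (fun a b => CoxeterMatrix.I 3 a b) (1 : Fin 2) 3
    ((![2, 1, 0] : Fin 3 → Fin 3) i) ((![2, 1, 0] : Fin 3 → Fin 3) j) =
      CoxeterMatrix.H₃ i j := by
  decide

theorem attI {q : ℕ} (hq : 3 ≤ q) {k : Fin 2} {M : CoxeterMatrix (Fin (2 + 1))}
    (h : Att (CoxeterMatrix.I q) k M) : Lst M := by
  have hnew := h.new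
  have hnew' := h.new
  rw [M.symmetric] at hnew'
  have hap := h.apply
  have e01 : M (0 : Fin 3) (1 : Fin 3) = q + 2 := h.old 0 1
  have e10 : M (1 : Fin 3) (0 : Fin 3) = q + 2 := h.old 1 0
  by_cases hq4 : 4 ≤ q
  · exfalso
    fin_cases k
    · exact no_G2t h.pd ![2, 0, 1] (by decide) hnew (clf_ne e01 (by omega))
        (clf_ne e01 (by omega)) (clf_ne e01 (by omega)) (clf_ne e01 (by omega))
    · exact no_G2t h.pd ![2, 1, 0] (by decide) hnew (clf_ne e10 (by omega))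
        (clf_ne e10 (by omega)) (clf_ne e10 (by omega)) (clf_ne e10 (by omega))
  · obtain rfl : q = 3 := by omega
    fin_cases k
    · by_cases hm : M (Fin.last 2) (0 : Fin 2).castSucc = 3
      · refine clf_lst Conn.H3 ![2, 0, 1] ![1, 2, 0] (by decide) (by decide) fun i j => ?_
        have h2 : M (Fin.last 2) ((⟨0, by norm_num⟩ : Fin 2)).castSucc = 3 := hm
        refine (hap ((![2, 0, 1] : Fin 3 → Fin 3) i) ((![2, 0, 1] : Fin 3 → Fin 3) j)).trans ?_
        change attf (fun a b => CoxeterMatrix.I 3 a b) (0 : Fin 2)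
          (M (Fin.last 2) ((⟨0, by norm_num⟩ : Fin 2)).castSucc)
          ((![2, 0, 1] : Fin 3 → Fin 3) i) ((![2, 0, 1] : Fin 3 → Fin 3) j) = _
        rw [h2]
        exact dec_I0 i j
      · exfalso
        have hm' : M (0 : Fin 2).castSucc (Fin.last 2) ≠ 3 := by
          rw [M.symmetric]
          exact hm
        exact clf_p1 h.pd 0 {2} {1} (clf_one hnew' hm')
          (clf_one (clf_ne e01 (by norm_num)) (clf_ne e01 (by norm_num))) (by decide)
          (by decide) (by decide)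
    · by_cases hm : M (Fin.last 2) (1 : Fin 2).castSucc = 3
      · refine clf_lst Conn.H3 ![2, 1, 0] ![2, 1, 0] (by decide) (by decide) fun i j => ?_
        have h2 : M (Fin.last 2) ((⟨1, by norm_num⟩ : Fin 2)).castSucc = 3 := hm
        refine (hap ((![2, 1, 0] : Fin 3 → Fin 3) i) ((![2, 1, 0] : Fin 3 → Fin 3) j)).trans ?_
        change attf (fun a b => CoxeterMatrix.I 3 a b) (1 : Fin 2)
          (M (Fin.last 2) ((⟨1, by norm_num⟩ : Fin 2)).castSucc)
          ((![2, 1, 0] : Fin 3 → Fin 3) i) ((![2, 1, 0] : Fin 3 → Fin 3) j) = _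
        rw [h2]
        exact dec_I1 i j
      · exfalso
        have hm' : M (1 : Fin 2).castSucc (Fin.last 2) ≠ 3 := by
          rw [M.symmetric]
          exact hm
        exact clf_p1 h.pd 1 {2} {0} (clf_one hnew' hm')
          (clf_one (clf_ne e10 (by norm_num)) (clf_ne e10 (by norm_num))) (by decide)
          (by decide) (by decide)

end Pool.Agent.Art
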