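import Pool.Agent.Art.ClAe
import Pool.Agent.Art.ClAi
import Pool.Agent.Art.ClB
import Pool.Agent.Art.ClD
import Pool.Agent.Art.ClE
import Pool.Agent.Art.ClF

/-!
# Connected positive definite Coxeter matrices

PROOFS. `att`: cases on `hN`; type `A`: `attA_zero` if `k = 0`, `attA_last` if `k = n - 1`,
`attA_int` otherwise; the other types directly.
`exists_leaf`: apply `h` to the constant function `1`: `0 < ∑ i, ∑ j, kap M i j`, so
`0 < ∑ j, kap M i j` for some `i`; the term `j = i` is `2`, the terms with `j` adjacent to `i` are
`≤ -1` (`kap_three`), the other terms `≤ 0` (`kap_nonpos`): fewer than two neighbours.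
`conn_type`: induction on `n`. `n = 0`: one node, `tA 1`, any equivalence (`M i i = 1`). Step
`n + 1`: `card B = n + 2`. Let `v` be a leaf; the degree of `v` is not `0` since `cg M` is
connected and `B` has at least two elements (`SimpleGraph.Connected.preconnected`,
`Preconnected.degree_pos_of_nontrivial` or similar), so it is `1`: there is a unique neighbour `u`
of `v`. By `SimpleGraph.Connected.induce_compl_singleton_of_degree_eq_one` the induced graph on
`{v}ᶜ` is connected, it is `cg (rst M {v}ᶜ)` (adjacency is the same), and `rst M {v}ᶜ` is positive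
definite (`PDef.comap`), so by induction it is `N` with `Conn (n+1) N` via `e : Fin (n+1) ≃ {v}ᶜ`.
Let `e' : Fin (n+2) ≃ B`, `e' i.castSucc = e i`, `e' last = v`, and `M' = M.reindex e'.symm`
(`CoxeterMatrix.reindex_apply`: `M' i j = M (e' i) (e' j)`). Then `Att N k M'` with `e k = u`:
`pd` by `PDef.comap`. `att` gives `Lst M'`: `N'` and `σ`; take `σ.trans e'`.
-/

set_option autoImplicit false

noncomputable section

namespace Pool.Agent.Art

open Classical

theorem att {n : ℕ} {N : CoxeterMatrix (Fin n)} (hN : Conn n N) {k : Fin n}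
    {M : CoxeterMatrix (Fin (n + 1))} (h : Att N k M) : Lst M := by
  cases hN with
  | A _ hn =>
    by_cases h0 : k.val = 0
    · exact attA_zero h h0
    · by_cases h1 : k.val + 1 = n
      · exact attA_last h h1
      · exact attA_int h (by omega) (by have := k.isLt; omega)
  | B _ hn => exact attB hn h
  | D _ hn => exact attD hn h
  | E6 => exact attE6 h
  | E7 => exact attE7 h
  | E8 => exact attE8 h
  | F4 => exact attF4 h
  | H3 => exact attH3 h
  | H4 => exact attH4 h
  | I m hm => exact attI hm h

theorem exists_leaf {B : Type} [Fintype B] [Nonempty B] {M : CoxeterMatrix B} (h : PDef M) :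
    ∃ v : B, ((Finset.univ : Finset B).filter fun w => (cg M).Adj v w).card ≤ 1 := by
  by_contra hcon
  push Not at hcon
  have h1 : (fun _ : B => (1 : ℝ)) ≠ 0 := by
    intro h2
    have := congrFun h2 (Classical.arbitrary B)
    simp at this
  have h2 := h _ h1
  have h3 : ∀ i, ∑ j, kap M i j ≤ 0 := by
    intro i
    have h4 : ∑ j, kap M i j ≤
        ∑ j, ((if i = j then (2 : ℝ) else 0) + if (cg M).Adj i j then (-1 : ℝ) else 0) := by
      refine Finset.sum_le_sum fun j _ => ?_
      by_cases h5 : i = j
      · subst h5
        rw [if_pos rfl, if_neg (fun h6 => h6.1 rfl), kap_self']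
        norm_num
      · rw [if_neg h5]
        by_cases h6 : M i j = 2
        · rw [if_neg (fun h7 => h7.2 h6)]
          simpa using kap_nonpos M h5
        · have h7 : (cg M).Adj i j := ⟨h5, h6⟩
          rw [if_pos h7, zero_add]
          exact kap_three M h5 h6
    refine h4.trans ?_
    rw [Finset.sum_add_distrib, Finset.sum_ite_eq, if_pos (Finset.mem_univ i), ← Finset.sum_filter,
      Finset.sum_const, nsmul_eq_mul]
    have h8 : (2 : ℝ) ≤ ((Finset.univ : Finset B).filter fun w => (cg M).Adj i w).card := by
      exact_mod_cast hcon i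
    linarith
  have h9 : ∑ i, ∑ j, (1 : ℝ) * 1 * kap M i j ≤ 0 := by
    simp only [one_mul]
    exact Finset.sum_nonpos fun i _ => h3 i
  exact absurd h2 (not_lt.2 h9)

theorem conn_type (n : ℕ) : ∀ (B : Type) [Fintype B] (M : CoxeterMatrix B),
    Fintype.card B = n + 1 → PDef M → (cg M).Connected →
    ∃ N : CoxeterMatrix (Fin (n + 1)), Conn (n + 1) N ∧
      ∃ e : Fin (n + 1) ≃ B, ∀ i j, M (e i) (e j) = N i j := by
  induction n with
  | zero =>
    intro B _ M hc hp hconn
    refine ⟨tA 1, Conn.A 1 le_rfl, (Fintype.equivFinOfCardEq hc).symm, fun i j => ?_⟩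
    have hij : i = j := Fin.ext (by omega)
    rw [hij, M.diagonal]
    exact ((tA 1).diagonal j).symm
  | succ n ih =>
    intro B _ M hc hp hconn
    have : Nontrivial B := Fintype.one_lt_card_iff_nontrivial.1 (by omega)
    obtain ⟨v, hv⟩ := exists_leaf hp
    have hdeg : (cg M).degree v = 1 := by
      have h1 := hconn.preconnected.degree_pos_of_nontrivial v
      have h2 : (cg M).degree v =
          ((Finset.univ : Finset B).filter fun w => (cg M).Adj v w).card := by
        rw [← SimpleGraph.card_neighborFinset_eq_degree, SimpleGraph.neighborFinset_eq_filter]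
      omega
    obtain ⟨u, hu, hu1⟩ := SimpleGraph.degree_eq_one_iff_existsUnique_adj.1 hdeg
    have hconn' := hconn.induce_compl_singleton_of_degree_eq_one hdeg
    have hg : cg (rst M ({v}ᶜ : Set B)) = (cg M).induce ({v}ᶜ : Set B) := by
      ext a b
      constructor
      · intro h
        exact ⟨fun h' => h.1 (Subtype.ext h'), h.2⟩
      · intro h
        exact ⟨fun h' => h.1 (congrArg Subtype.val h'), h.2⟩
    have hc' : Fintype.card ↥({v}ᶜ : Set B) = n + 1 := by
      rw [Fintype.card_compl_set, hc, Fintype.card_unique]
      rfl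
    obtain ⟨N, hN, e, he⟩ := ih ↥({v}ᶜ : Set B) (rst M ({v}ᶜ : Set B)) hc'
      (hp.comap Subtype.val Subtype.val_injective fun i j => rfl) (by rw [hg]; exact hconn')
    have hne : ∀ i, (e i : B) ≠ v := fun i => (e i).2
    let f : Fin (n + 1 + 1) → B := Fin.lastCases v (fun i => (e i : B))
    have f1 : f (Fin.last (n + 1)) = v := by simp [f]
    have f2 : ∀ i : Fin (n + 1), f i.castSucc = e i := by intro i; simp [f]
    have hinj : Function.Injective f := by
      intro i j
      refine Fin.lastCases ?_ (fun i => ?_) i
      · refine Fin.lastCases ?_ (fun j => ?_) j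
        · intro _; rfl
        · rw [f1, f2]
          intro h
          exact absurd h.symm (hne j)
      · refine Fin.lastCases ?_ (fun j => ?_) j
        · rw [f1, f2]
          intro h
          exact absurd h (hne i)
        · rw [f2, f2]
          intro h
          rw [e.injective (Subtype.ext h)]
    have hbij : Function.Bijective f :=
      (Fintype.bijective_iff_injective_and_card f).2 ⟨hinj, by rw [Fintype.card_fin, hc]⟩
    let e' : Fin (n + 1 + 1) ≃ B := Equiv.ofBijective f hbij
    have e1 : ∀ i, e' i = f i := fun i => rfl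
    have hM' : ∀ i j, M.reindex e'.symm i j = M (e' i) (e' j) := fun i j => rfl
    have huv : u ≠ v := fun h => hu.1 h.symm
    obtain ⟨k, hk⟩ := e.surjective ⟨u, huv⟩
    have hk' : (e k : B) = u := by rw [hk]
    have hatt : Att N k (M.reindex e'.symm) := by
      refine ⟨hp.comap e' e'.injective fun i j => rfl, fun i j => ?_, ?_, fun i hi => ?_⟩
      · rw [hM', e1, e1, f2, f2, ← he]
        rfl
      · rw [hM', e1, e1, f1, f2, hk']
        exact hu.2
      · rw [hM', e1, e1, f1, f2]
        by_contra h1
        have h2 : (cg M).Adj v (e i) := ⟨(hne i).symm, h1⟩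
        have h3 := hu1 _ h2
        apply hi
        apply e.injective
        rw [hk]
        exact Subtype.ext h3
    obtain ⟨N', hN', σ, hσ⟩ := att hN hatt
    exact ⟨N', hN', σ.trans e', fun i j => hσ i j⟩

end Pool.Agent.Art
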