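import Pool.Agent.Art.VSimp

/-!
# Classification of the finite Coxeter groups: definitions

Everything in this file is proved.
-/

set_option autoImplicit false

noncomputable section

namespace Pool.Agent.Art

open Classical

/-- The form of the Coxeter matrix is positive definite (`kap M i j` is twice the form). -/
def PDef {B : Type} [Fintype B] (M : CoxeterMatrix B) : Prop :=
  ∀ x : B → ℝ, x ≠ 0 → 0 < ∑ i, ∑ j, x i * x j * kap M i j

/-- The connected spherical types, without repetitions. -/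
inductive Conn : (n : ℕ) → CoxeterMatrix (Fin n) → Prop
  | A (n : ℕ) (h : 1 ≤ n) : Conn n (tA n)
  | B (n : ℕ) (h : 2 ≤ n) : Conn n (tB n)
  | D (n : ℕ) (h : 4 ≤ n) : Conn n (tD n)
  | E6 : Conn 6 CoxeterMatrix.E₆
  | E7 : Conn 7 CoxeterMatrix.E₇
  | E8 : Conn 8 CoxeterMatrix.E₈
  | F4 : Conn 4 CoxeterMatrix.F₄
  | H3 : Conn 3 CoxeterMatrix.H₃
  | H4 : Conn 4 CoxeterMatrix.H₄
  | I (m : ℕ) (h : 3 ≤ m) : Conn 2 (CoxeterMatrix.I m)

theorem Conn.irr {n : ℕ} {N : CoxeterMatrix (Fin n)} (h : Conn n N) : Irr n N := by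
  cases h with
  | A => exact Irr.A n
  | B => exact Irr.B n
  | D => exact Irr.D n
  | E6 => exact Irr.E6
  | E7 => exact Irr.E7
  | E8 => exact Irr.E8
  | F4 => exact Irr.F4
  | H3 => exact Irr.H3
  | H4 => exact Irr.H4
  | I m => exact Irr.I m

/-- The Coxeter graph. -/
def cg {B : Type} (M : CoxeterMatrix B) : SimpleGraph B where
  Adj i j := i ≠ j ∧ M i j ≠ 2
  symm := ⟨fun i j h => ⟨h.1.symm, by rw [M.symmetric]; exact h.2⟩⟩
  loopless := ⟨fun i h => h.1 rfl⟩

/-- An end gadget at the node `c`: two neighbours or one neighbour with label at least `4`. -/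
def EndG {B : Type} (M : CoxeterMatrix B) (c : B) (G : Finset B) : Prop :=
  (∃ e1 e2, e1 ≠ e2 ∧ G = {e1, e2} ∧ M c e1 ≠ 2 ∧ M c e2 ≠ 2) ∨
    ∃ e, G = {e} ∧ M c e ≠ 2 ∧ M c e ≠ 3

/-- `M` is `N` with one more node, joined to the node `k`. -/
structure Att {n : ℕ} (N : CoxeterMatrix (Fin n)) (k : Fin n) (M : CoxeterMatrix (Fin (n + 1))) :
    Prop where
  pd : PDef M
  old : ∀ i j : Fin n, M i.castSucc j.castSucc = N i j
  new : M (Fin.last n) k.castSucc ≠ 2
  two : ∀ i : Fin n, i ≠ k → M (Fin.last n) i.castSucc = 2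

/-- `M` is one of the connected spherical types, up to a permutation of the nodes. -/
def Lst {n : ℕ} (M : CoxeterMatrix (Fin n)) : Prop :=
  ∃ N, Conn n N ∧ ∃ σ : Fin n ≃ Fin n, ∀ i j, M (σ i) (σ j) = N i j

/-- `N` with one more node, joined to `k` with label `m`. -/
def attf {n : ℕ} (N : Fin n → Fin n → ℕ) (k : Fin n) (m : ℕ) (i j : Fin (n + 1)) : ℕ :=
  if hi : i.val < n then
    (if hj : j.val < n then N ⟨i.val, hi⟩ ⟨j.val, hj⟩ else (if i.val = k.val then m else 2))
  else (if j.val < n then (if j.val = k.val then m else 2) else 1)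

theorem Att.apply {n : ℕ} {N : CoxeterMatrix (Fin n)} {k : Fin n} {M : CoxeterMatrix (Fin (n + 1))}
    (h : Att N k M) (i j : Fin (n + 1)) :
    M i j = attf (fun a b => N a b) k (M (Fin.last n) k.castSucc) i j := by
  unfold attf
  have hlast : ∀ i : Fin (n + 1), ¬ i.val < n → i = Fin.last n := fun i hi =>
    Fin.ext (by have := i.isLt; simp only [Fin.val_last]; omega)
  by_cases hi : i.val < n
  · rw [dif_pos hi]
    by_cases hj : j.val < n
    · rw [dif_pos hj]
      exact h.old ⟨i.val, hi⟩ ⟨j.val, hj⟩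
    · rw [dif_neg hj, hlast j hj]
      split_ifs with h1
      · have : i = k.castSucc := Fin.ext h1
        rw [this, M.symmetric]
      · rw [M.symmetric]
        exact h.two ⟨i.val, hi⟩ fun h2 => h1 (congrArg Fin.val h2)
  · rw [dif_neg hi, hlast i hi]
    split_ifs with hj h1
    · have : j = k.castSucc := Fin.ext h1
      rw [this]
    · exact h.two ⟨j.val, hj⟩ fun h2 => h1 (congrArg Fin.val h2)
    · rw [hlast j hj]
      exact M.diagonal _

end Pool.Agent.Art
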