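import Pool.Agent.Art.ClGL

/-!
# The affine diagrams `E~6`, `E~7`, `E~8`, `F~4`, `G~2` and two hyperbolic ones

PROOFS. The first five from `PDef.gl` with explicit `a`, `d`, `E : Fin r → Fin r → ℕ` (all the
numerical hypotheses by `decide`; for `hE` use `fin_cases` or a case distinction on the edges, and
`M.symmetric` for the reversed edges). `E i j = 1` on all edges and `d = 1` except:
`E6t`: center `0`, arms `0-1-2`, `0-3-4`, `0-5-6`: `a = 3, 2, 1, 2, 1, 2, 1`.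
`E7t`: center `0`, arms `0-1-2-3`, `0-4-5-6`, `0-7`: `a = 4, 3, 2, 1, 3, 2, 1, 2`.
`E8t`: center `0`, arms `0-1-2-3-4-5`, `0-6-7`, `0-8`: `a = 6, 5, 4, 3, 2, 1, 4, 2, 3`.
`F4t`: chain `0-1-2=3-4`: `a = 1, 2, 3, 4, 2`, `E 2 3 = 1`, `E 3 2 = 2`, `d = 2, 2, 2, 1, 1`.
`G2t`: chain `0-1≡2`: `a = 1, 2, 3`, `E 1 2 = 1`, `E 2 1 = 3`, `d = 3, 3, 1`.
`Z4`, `Z5` (label at least `5`: `kap ≤ -8/5`) from `PDef.test` with `x` supported on the range of
`f`: `Z4`: `x = 1, 2, 2, 1` (`2 - 2 ≤ 0`, `4 - 1 - 16/5 ≤ 0`); `Z5`: `x = 1, 2, 3, 4, 16/5`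
(`2 - 2`, `4 - 1 - 3`, `6 - 2 - 4`, `8 - 3 - (8/5)(16/5) = -3/25`, `32/5 - (8/5) 4 = 0`).
-/

set_option autoImplicit false

noncomputable section

namespace Pool.Agent.Art

open Classical

variable {B : Type} [Fintype B] {M : CoxeterMatrix B}

private theorem gl_sl (h : PDef M) {r : ℕ} (f : Fin r → B) (hf : Function.Injective f)
    (a : Fin r → ℕ) (L : List (Fin r × Fin r)) (hL : ∀ e ∈ L, M (f e.1) (f e.2) ≠ 2)
    (ha : ∃ i, a i ≠ 0) (hE0 : ∀ i, (i, i) ∉ L)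
    (ht : ∀ i, a i ≠ 0 →
      2 * a i ≤ ∑ j, (if ((i, j) ∈ L ∨ (j, i) ∈ L : Prop) then 1 else 0) * a j) : False := by
  refine h.gl f hf a (fun _ => 1)
    (fun i j => if ((i, j) ∈ L ∨ (j, i) ∈ L : Prop) then 1 else 0) ha
    (fun _ => one_ne_zero) ?_ ?_ ?_ ht
  · intro i j
    simp only [or_comm]
  · intro i
    simp [hE0 i]
  · intro i j hij
    left
    have hor : (i, j) ∈ L ∨ (j, i) ∈ L := by
      by_contra hc
      simp only [if_neg hc, ne_eq, not_true_eq_false] at hij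
    refine ⟨?_, ?_⟩
    · simp only [if_pos hor, if_pos hor.symm]
    · rcases hor with h1 | h1
      · exact hL _ h1
      · rw [M.symmetric]
        exact hL _ h1

private theorem test_fin (h : PDef M) {r : ℕ} (f : Fin r → B) (hf : Function.Injective f)
    (y : Fin r → ℝ) (hy : ∀ i, 0 ≤ y i) (hy0 : ∃ i, y i ≠ 0)
    (ht : ∀ i, ∃ S : Finset (Fin r), i ∉ S ∧ 2 * y i + ∑ j ∈ S, kap M (f i) (f j) * y j ≤ 0) :
    False := by
  refine h.test (Function.extend f y 0) ?_ ?_ ?_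
  · intro b
    by_cases hb : ∃ i, f i = b
    · obtain ⟨i, rfl⟩ := hb
      rw [hf.extend_apply]
      exact hy i
    · rw [Function.extend_apply' _ _ _ hb]
      exact le_refl (0 : ℝ)
  · intro h0
    obtain ⟨i, hi⟩ := hy0
    apply hi
    have h1 := congrFun h0 (f i)
    rw [hf.extend_apply] at h1
    exact h1
  · intro b hb0
    by_cases hb : ∃ i, f i = b
    · obtain ⟨i, rfl⟩ := hb
      obtain ⟨S, hiS, hS⟩ := ht i
      refine ⟨S.map ⟨f, hf⟩, ?_, ?_⟩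
      · intro hc
        rw [Finset.mem_map] at hc
        obtain ⟨j, hj, hji⟩ := hc
        exact hiS (hf hji ▸ hj)
      · rw [hf.extend_apply, Finset.sum_map]
        simp only [Function.Embedding.coeFn_mk, hf.extend_apply]
        exact hS
    · rw [Function.extend_apply' _ _ _ hb] at hb0
      exact absurd hb0 (lt_irrefl (0 : ℝ))

theorem no_E6t (h : PDef M) (f : Fin 7 → B) (hf : Function.Injective f)
    (e1 : M (f 0) (f 1) ≠ 2) (e2 : M (f 1) (f 2) ≠ 2) (e3 : M (f 0) (f 3) ≠ 2)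
    (e4 : M (f 3) (f 4) ≠ 2) (e5 : M (f 0) (f 5) ≠ 2) (e6 : M (f 5) (f 6) ≠ 2) : False := by
  exact gl_sl h f hf ![3, 2, 1, 2, 1, 2, 1] [(0, 1), (1, 2), (0, 3), (3, 4), (0, 5), (5, 6)]
    (by simp [e1, e2, e3, e4, e5, e6]) ⟨0, by decide⟩ (by decide) (by decide)

theorem no_E7t (h : PDef M) (f : Fin 8 → B) (hf : Function.Injective f)
    (e1 : M (f 0) (f 1) ≠ 2) (e2 : M (f 1) (f 2) ≠ 2) (e3 : M (f 2) (f 3) ≠ 2)
    (e4 : M (f 0) (f 4) ≠ 2) (e5 : M (f 4) (f 5) ≠ 2) (e6 : M (f 5) (f 6) ≠ 2)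
    (e7 : M (f 0) (f 7) ≠ 2) : False := by
  exact gl_sl h f hf ![4, 3, 2, 1, 3, 2, 1, 2]
    [(0, 1), (1, 2), (2, 3), (0, 4), (4, 5), (5, 6), (0, 7)]
    (by simp [e1, e2, e3, e4, e5, e6, e7]) ⟨0, by decide⟩ (by decide) (by decide)

theorem no_E8t (h : PDef M) (f : Fin 9 → B) (hf : Function.Injective f)
    (e1 : M (f 0) (f 1) ≠ 2) (e2 : M (f 1) (f 2) ≠ 2) (e3 : M (f 2) (f 3) ≠ 2)
    (e4 : M (f 3) (f 4) ≠ 2) (e5 : M (f 4) (f 5) ≠ 2) (e6 : M (f 0) (f 6) ≠ 2)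
    (e7 : M (f 6) (f 7) ≠ 2) (e8 : M (f 0) (f 8) ≠ 2) : False := by
  exact gl_sl h f hf ![6, 5, 4, 3, 2, 1, 4, 2, 3]
    [(0, 1), (1, 2), (2, 3), (3, 4), (4, 5), (0, 6), (6, 7), (0, 8)]
    (by simp [e1, e2, e3, e4, e5, e6, e7, e8]) ⟨0, by decide⟩ (by decide) (by decide)

theorem no_F4t (h : PDef M) (f : Fin 5 → B) (hf : Function.Injective f)
    (e1 : M (f 0) (f 1) ≠ 2) (e2 : M (f 1) (f 2) ≠ 2) (e3 : M (f 2) (f 3) ≠ 2)
    (e3' : M (f 2) (f 3) ≠ 3) (e4 : M (f 3) (f 4) ≠ 2) : False := by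
  have e1' := e1
  have e2' := e2
  have e3s := e3
  have e3s' := e3'
  have e4' := e4
  rw [M.symmetric] at e1' e2' e3s e3s' e4'
  refine h.gl f hf ![1, 2, 3, 4, 2] ![2, 2, 2, 1, 1]
    ![![0, 1, 0, 0, 0], ![1, 0, 1, 0, 0], ![0, 1, 0, 1, 0], ![0, 0, 2, 0, 1], ![0, 0, 0, 1, 0]]
    ⟨0, by decide⟩ (by decide) (by decide) (by decide) ?_ (by decide)
  intro i j hij
  fin_cases i <;> fin_cases j <;> simp_all

theorem no_G2t (h : PDef M) (f : Fin 3 → B) (hf : Function.Injective f)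
    (e1 : M (f 0) (f 1) ≠ 2) (e2 : M (f 1) (f 2) ≠ 2) (e3 : M (f 1) (f 2) ≠ 3)
    (e4 : M (f 1) (f 2) ≠ 4) (e5 : M (f 1) (f 2) ≠ 5) : False := by
  have e1' := e1
  have e2' := e2
  have e3' := e3
  have e4' := e4
  have e5' := e5
  rw [M.symmetric] at e1' e2' e3' e4' e5'
  refine h.gl f hf ![1, 2, 3] ![3, 3, 1] ![![0, 1, 0], ![1, 0, 1], ![0, 3, 0]]
    ⟨0, by decide⟩ (by decide) (by decide) (by decide) ?_ (by decide)
  intro i j hij
  fin_cases i <;> fin_cases j <;> simp_all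

theorem no_Z4 (h : PDef M) (f : Fin 4 → B) (hf : Function.Injective f)
    (e1 : M (f 0) (f 1) ≠ 2) (e2 : M (f 1) (f 2) ≠ 2) (e3 : M (f 1) (f 2) ≠ 3)
    (e4 : M (f 1) (f 2) ≠ 4) (e5 : M (f 2) (f 3) ≠ 2) : False := by
  have k01 : kap M (f 0) (f 1) ≤ -1 := kap_three M (hf.ne (by decide)) e1
  have k12 : kap M (f 1) (f 2) ≤ -(8 / 5) := kap_five M (hf.ne (by decide)) e2 e3 e4
  have k23 : kap M (f 2) (f 3) ≤ -1 := kap_three M (hf.ne (by decide)) e5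
  have k10 := k01
  have k21 := k12
  have k32 := k23
  rw [kap_symm] at k10 k21 k32
  refine test_fin h f hf ![1, 2, 2, 1] ?_ ⟨0, by simp⟩ ?_
  · intro i
    fin_cases i <;> simp
  · intro i
    fin_cases i
    · refine ⟨{1}, by decide, ?_⟩
      simp
      linarith
    · refine ⟨{0, 2}, by decide, ?_⟩
      rw [Finset.sum_pair (by decide)]
      simp
      linarith
    · refine ⟨{1, 3}, by decide, ?_⟩
      rw [Finset.sum_pair (by decide)]
      simp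
      linarith
    · refine ⟨{2}, by decide, ?_⟩
      simp
      linarith

theorem no_Z5 (h : PDef M) (f : Fin 5 → B) (hf : Function.Injective f)
    (e1 : M (f 0) (f 1) ≠ 2) (e2 : M (f 1) (f 2) ≠ 2) (e3 : M (f 2) (f 3) ≠ 2)
    (e4 : M (f 3) (f 4) ≠ 2) (e5 : M (f 3) (f 4) ≠ 3) (e6 : M (f 3) (f 4) ≠ 4) : False := by
  have k01 : kap M (f 0) (f 1) ≤ -1 := kap_three M (hf.ne (by decide)) e1
  have k12 : kap M (f 1) (f 2) ≤ -1 := kap_three M (hf.ne (by decide)) e2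
  have k23 : kap M (f 2) (f 3) ≤ -1 := kap_three M (hf.ne (by decide)) e3
  have k34 : kap M (f 3) (f 4) ≤ -(8 / 5) := kap_five M (hf.ne (by decide)) e4 e5 e6
  have k10 := k01
  have k21 := k12
  have k32 := k23
  have k43 := k34
  rw [kap_symm] at k10 k21 k32 k43
  refine test_fin h f hf ![1, 2, 3, 4, 16 / 5] ?_ ⟨0, by simp⟩ ?_
  · intro i
    fin_cases i <;> simp <;> norm_num
  · intro i
    fin_cases i
    · refine ⟨{1}, by decide, ?_⟩
      simp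
      linarith
    · refine ⟨{0, 2}, by decide, ?_⟩
      rw [Finset.sum_pair (by decide)]
      simp
      linarith
    · refine ⟨{1, 3}, by decide, ?_⟩
      rw [Finset.sum_pair (by decide)]
      simp
      linarith
    · refine ⟨{2, 4}, by decide, ?_⟩
      rw [Finset.sum_pair (by decide)]
      simp
      linarith
    · refine ⟨{3}, by decide, ?_⟩
      simp
      linarith

end Pool.Agent.Art
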