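import Pool.Agent.Art.ClKap

/-!
# A test with natural numbers

PROOF. `E i j` plays the role of `- a_ij` of a symmetrizable Cartan matrix, `d i * E i j = d j * E j
i`. Apply `PDef.test` to `x b = a i * √(d i)` if `b = f i`, `x b = 0` if `b` is not in the range of
`f` (`Function.extend f (fun i => (a i : ℝ) * √(d i)) 0`), with `S = (univ.filter (· ≠ i)).image f`
at the point `f i` (or `(univ.erase i).map ⟨f, hf⟩`). For `i ≠ j` one has
`kap M (f i) (f j) ≤ - √(E i j * E j i)`: if `E i j = 0` then `E j i = 0` (`d j ≠ 0`) and this is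
`kap_nonpos`; otherwise the product is `1`, `2` or `3` and this is `kap_three`, `kap_four` or
`kap_six`. And `√(E i j * E j i) * √(d j) = E i j * √(d i)` as
`E i j * E j i * d j = E i j * E i j * d i` (both sides nonnegative, compare the squares). So
`2 x i + ∑ kap * x ≤ √(d i) * (2 a i - ∑ j ≠ i, E i j * a j) ≤ 0`, by `E i i = 0` and `ht`.
-/

set_option autoImplicit false

noncomputable section

namespace Pool.Agent.Art

open Classical

/-- `√(E_ij E_ji) √d_j = E_ij √d_i` -/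
private theorem sqrt_ClGL {e e' d d' : ℕ} (h : d * e = d' * e') :
    √((e : ℝ) * e') * √(d' : ℝ) = e * √(d : ℝ) := by
  have h1 : (d : ℝ) * e = d' * e' := by exact_mod_cast h
  have he : (0 : ℝ) ≤ e := Nat.cast_nonneg e
  have he' : (0 : ℝ) ≤ e' := Nat.cast_nonneg e'
  rw [← Real.sqrt_mul (mul_nonneg he he')]
  have h2 : (e : ℝ) * e' * d' = (e : ℝ) ^ 2 * d := by
    calc (e : ℝ) * e' * d' = e * (d' * e') := by ring
      _ = (e : ℝ) ^ 2 * d := by rw [← h1]; ring
  rw [h2, Real.sqrt_mul (sq_nonneg _), Real.sqrt_sq he]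

theorem PDef.gl {B : Type} [Fintype B] {M : CoxeterMatrix B} (h : PDef M) {r : ℕ}
    (f : Fin r → B) (hf : Function.Injective f) (a d : Fin r → ℕ) (E : Fin r → Fin r → ℕ)
    (ha : ∃ i, a i ≠ 0) (hd : ∀ i, d i ≠ 0) (hdE : ∀ i j, d i * E i j = d j * E j i)
    (hE0 : ∀ i, E i i = 0)
    (hE : ∀ i j, E i j ≠ 0 → (E i j * E j i = 1 ∧ M (f i) (f j) ≠ 2) ∨
      (E i j * E j i = 2 ∧ M (f i) (f j) ≠ 2 ∧ M (f i) (f j) ≠ 3) ∨
      (E i j * E j i = 3 ∧ M (f i) (f j) ≠ 2 ∧ M (f i) (f j) ≠ 3 ∧ M (f i) (f j) ≠ 4 ∧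
        M (f i) (f j) ≠ 5))
    (ht : ∀ i, a i ≠ 0 → 2 * a i ≤ ∑ j, E i j * a j) : False := by
  let x : B → ℝ := Function.extend f (fun i => (a i : ℝ) * √(d i : ℝ)) 0
  have hx : ∀ i, x (f i) = (a i : ℝ) * √(d i : ℝ) := fun i => hf.extend_apply _ _ i
  have hx' : ∀ b, (¬ ∃ i, f i = b) → x b = 0 := fun b hb => Function.extend_apply' _ _ _ hb
  have hk : ∀ i j, i ≠ j → kap M (f i) (f j) ≤ -√((E i j : ℝ) * E j i) := by
    intro i j hij
    have hne : f i ≠ f j := fun h1 => hij (hf h1)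
    by_cases h0 : E i j = 0
    · rw [h0, Nat.cast_zero, zero_mul, Real.sqrt_zero, neg_zero]
      exact kap_nonpos M hne
    · have hc : ((E i j : ℝ) * E j i) = ((E i j * E j i : ℕ) : ℝ) := by push_cast; ring
      rw [hc]
      rcases hE i j h0 with ⟨h1, h2⟩ | ⟨h1, h2, h3⟩ | ⟨h1, h2, h3, h4, h5⟩
      · rw [h1, Nat.cast_one, Real.sqrt_one]
        exact kap_three M hne h2
      · rw [h1, Nat.cast_ofNat]
        exact kap_four M hne h2 h3
      · rw [h1, Nat.cast_ofNat]
        exact kap_six M hne h2 h3 h4 h5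
  refine h.test x ?_ ?_ ?_
  · intro b
    by_cases hb : ∃ i, f i = b
    · obtain ⟨i, rfl⟩ := hb
      rw [hx]
      positivity
    · rw [hx' b hb]
  · intro h0
    obtain ⟨i, hi⟩ := ha
    have h1 : x (f i) = 0 := by rw [h0]; rfl
    rw [hx] at h1
    have h2 : (0 : ℝ) < a i := by exact_mod_cast Nat.pos_of_ne_zero hi
    have h3 : (0 : ℝ) < d i := by exact_mod_cast Nat.pos_of_ne_zero (hd i)
    have h4 : 0 < (a i : ℝ) * √(d i : ℝ) := by positivity
    exact absurd h1 h4.ne'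
  · intro b hb
    have hex : ∃ i, f i = b := by
      by_contra hc
      rw [hx' b hc] at hb
      exact lt_irrefl _ hb
    obtain ⟨i, rfl⟩ := hex
    have hai : a i ≠ 0 := by
      intro h1
      rw [hx, h1, Nat.cast_zero, zero_mul] at hb
      exact lt_irrefl _ hb
    refine ⟨(Finset.univ.erase i).map ⟨f, hf⟩, ?_, ?_⟩
    · intro h1
      obtain ⟨j, hj, hj'⟩ := Finset.mem_map.1 h1
      exact (Finset.mem_erase.1 hj).1 (hf hj')
    · rw [Finset.sum_map, hx]
      have h1 : ∀ j ∈ Finset.univ.erase i, kap M (f i) ((⟨f, hf⟩ : Fin r ↪ B) j) *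
          x ((⟨f, hf⟩ : Fin r ↪ B) j) ≤ -((E i j : ℝ) * a j * √(d i : ℝ)) := by
        intro j hj
        have hij : i ≠ j := (Finset.mem_erase.1 hj).1.symm
        change kap M (f i) (f j) * x (f j) ≤ _
        rw [hx]
        have h2 : 0 ≤ (a j : ℝ) * √(d j : ℝ) := by positivity
        calc kap M (f i) (f j) * ((a j : ℝ) * √(d j : ℝ))
            ≤ -√((E i j : ℝ) * E j i) * ((a j : ℝ) * √(d j : ℝ)) :=
              mul_le_mul_of_nonneg_right (hk i j hij) h2
          _ = -((√((E i j : ℝ) * E j i) * √(d j : ℝ)) * a j) := by ring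
          _ = -((E i j : ℝ) * a j * √(d i : ℝ)) := by
              rw [sqrt_ClGL (hdE i j)]
              ring
      have h2 := Finset.sum_le_sum h1
      have h3 : ∑ j ∈ Finset.univ.erase i, -((E i j : ℝ) * a j * √(d i : ℝ)) =
          -((∑ j, (E i j : ℝ) * a j) * √(d i : ℝ)) := by
        rw [Finset.sum_neg_distrib, ← Finset.sum_mul]
        congr 2
        rw [← Finset.sum_erase_add _ _ (Finset.mem_univ i), hE0, Nat.cast_zero, zero_mul,
          add_zero]
      rw [h3] at h2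
      have h4 : (2 : ℝ) * a i ≤ ∑ j, (E i j : ℝ) * a j := by
        have h5 := ht i hai
        exact_mod_cast h5
      have h5 : (2 : ℝ) * a i * √(d i : ℝ) ≤ (∑ j, (E i j : ℝ) * a j) * √(d i : ℝ) :=
        mul_le_mul_of_nonneg_right h4 (Real.sqrt_nonneg _)
      linarith

end Pool.Agent.Art
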