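import Pool.Agent.Art.ClDef

/-!
# Bounds for the form, the test lemma

PROOFS. `kap M i j = if i = j then 2 else if M i j = 0 then -2 else -2 cos(π / M i j)` (VGeo), and
`M i j ≠ 1` for `i ≠ j` (`M.off_diagonal`). For `m ≥ m0 ≥ 2` one has `cos (π/m) ≥ cos (π/m0)`
(`Real.cos_le_cos_of_nonneg_of_le_pi`, `π/m ≤ π/m0`).
`cos (π/3) = 1/2`, `cos (π/4) = √2/2`, `cos (π/5) = (1 + √5)/4 ≥ 4/5` (as `√5 ≥ 11/5`),
`cos (π/6) = √3/2` (Mathlib: `Real.cos_pi_div_three`, `..._four`, `..._five`, `..._six`). The case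
`M i j = 0` gives `-2`, which is smaller.
`PDef.ne_zero`: if `M i j = 0` then `i ≠ j` (diagonal is `1`), and `x = e_i + e_j` gives
`2 + 2 - 2 - 2 = 0`. (Or apply `PDef.test` with `x = Pi.single i 1 + Pi.single j 1`.)
`PDef.test`: `∑ i, ∑ j, x i * x j * kap i j = ∑ i, x i * (∑ j, kap i j * x j)`, and every
summand is `≤ 0`: clear if `x i = 0`; if `x i > 0` then
`∑ j, kap i j * x j = 2 x i + ∑ j ≠ i, kap i j * x j ≤ 2 x i + ∑ j ∈ S, kap i j * x j ≤ 0` as all
terms `kap i j * x j`, `j ≠ i`, are `≤ 0` and `S ⊆ univ.erase i`.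
`PDef.comap`: for `x : B' → ℝ` let `y = Function.extend f x 0`, then `y ≠ 0` and the sum over `B`
is a sum over `Finset.univ.image f` (`Finset.sum_subset`, `Finset.sum_image`/`Finset.sum_map`);
`kap M (f i) (f j) = kap M' i j` because `f i = f j ↔ i = j`.
-/

set_option autoImplicit false

noncomputable section

namespace Pool.Agent.Art

open Classical

section bounds

variable {B : Type} (M : CoxeterMatrix B)

theorem kap_self' (i : B) : kap M i i = 2 := by
  unfold kap
  rw [if_pos rfl]

theorem kap_symm (i j : B) : kap M i j = kap M j i := by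
  unfold kap
  rw [M.symmetric i j]
  by_cases h : i = j
  · rw [if_pos h, if_pos h.symm]
  · rw [if_neg h, if_neg (Ne.symm h)]

private theorem kap_le {i j : B} (h : i ≠ j) (m : ℕ) (hm : 1 ≤ m) (h1 : M i j = 0 ∨ m ≤ M i j) :
    kap M i j ≤ -2 * Real.cos (Real.pi / m) := by
  unfold kap
  rw [if_neg h]
  split_ifs with h2
  · have h3 := Real.cos_le_one (Real.pi / m)
    linarith
  · have h3 : m ≤ M i j := h1.resolve_left h2
    have h4 : (1 : ℝ) ≤ m := by exact_mod_cast hm
    have h5 : (m : ℝ) ≤ (M i j : ℝ) := by exact_mod_cast h3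
    have h6 : Real.cos (Real.pi / m) ≤ Real.cos (Real.pi / (M i j : ℝ)) := by
      apply Real.cos_le_cos_of_nonneg_of_le_pi
      · exact div_nonneg Real.pi_pos.le (by linarith)
      · exact div_le_self Real.pi_pos.le h4
      · exact div_le_div_of_nonneg_left Real.pi_pos.le (by linarith) h5
    linarith

theorem kap_nonpos {i j : B} (h : i ≠ j) : kap M i j ≤ 0 := by
  have h1 := M.off_diagonal i j h
  have h2 := kap_le M h 2 (by norm_num) (by omega)
  rw [show (((2 : ℕ) : ℝ)) = 2 by norm_num, Real.cos_pi_div_two] at h2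
  linarith

theorem kap_three {i j : B} (h : i ≠ j) (h2 : M i j ≠ 2) : kap M i j ≤ -1 := by
  have h1 := M.off_diagonal i j h
  have h3 := kap_le M h 3 (by norm_num) (by omega)
  rw [show (((3 : ℕ) : ℝ)) = 3 by norm_num, Real.cos_pi_div_three] at h3
  linarith

theorem kap_four {i j : B} (h : i ≠ j) (h2 : M i j ≠ 2) (h3 : M i j ≠ 3) :
    kap M i j ≤ -√2 := by
  have h1 := M.off_diagonal i j h
  have h4 := kap_le M h 4 (by norm_num) (by omega)
  rw [show (((4 : ℕ) : ℝ)) = 4 by norm_num, Real.cos_pi_div_four] at h4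
  linarith

theorem kap_five {i j : B} (h : i ≠ j) (h2 : M i j ≠ 2) (h3 : M i j ≠ 3) (h4 : M i j ≠ 4) :
    kap M i j ≤ -(8 / 5) := by
  have h1 := M.off_diagonal i j h
  have h5 := kap_le M h 5 (by norm_num) (by omega)
  rw [show (((5 : ℕ) : ℝ)) = 5 by norm_num, Real.cos_pi_div_five] at h5
  have h6 : (11 / 5 : ℝ) ≤ √5 := by
    apply Real.le_sqrt_of_sq_le
    norm_num
  linarith

theorem kap_six {i j : B} (h : i ≠ j) (h2 : M i j ≠ 2) (h3 : M i j ≠ 3) (h4 : M i j ≠ 4)
    (h5 : M i j ≠ 5) : kap M i j ≤ -√3 := by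
  have h1 := M.off_diagonal i j h
  have h6 := kap_le M h 6 (by norm_num) (by omega)
  rw [show (((6 : ℕ) : ℝ)) = 6 by norm_num, Real.cos_pi_div_six] at h6
  linarith

end bounds

variable {B : Type} [Fintype B] {M : CoxeterMatrix B}

/-- The test for matrices which are not positive definite. -/
theorem PDef.test (h : PDef M) (x : B → ℝ) (h0 : ∀ i, 0 ≤ x i) (hx : x ≠ 0)
    (ht : ∀ i, 0 < x i → ∃ S : Finset B, i ∉ S ∧ 2 * x i + ∑ j ∈ S, kap M i j * x j ≤ 0) :
    False := by
  refine absurd (h x hx) (not_lt.2 (Finset.sum_nonpos fun i _ => ?_))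
  rcases (h0 i).eq_or_lt with h1 | h1
  · rw [← h1]
    simp
  · obtain ⟨S, hS, h2⟩ := ht i h1
    have h3 : ∑ j, x i * x j * kap M i j = x i * ∑ j, kap M i j * x j := by
      rw [Finset.mul_sum]
      exact Finset.sum_congr rfl fun j _ => by ring
    rw [h3]
    refine mul_nonpos_of_nonneg_of_nonpos h1.le (le_trans ?_ h2)
    rw [← Finset.add_sum_erase Finset.univ (fun j => kap M i j * x j) (Finset.mem_univ i),
      kap_self']
    have h4 : S ⊆ Finset.univ.erase i := fun j hj =>
      Finset.mem_erase.2 ⟨fun h => hS (h ▸ hj), Finset.mem_univ _⟩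
    rw [← Finset.sum_sdiff h4]
    have h5 : ∑ j ∈ Finset.univ.erase i \ S, kap M i j * x j ≤ 0 := by
      refine Finset.sum_nonpos fun j hj => ?_
      have h6 : j ≠ i := (Finset.mem_erase.1 (Finset.mem_sdiff.1 hj).1).1
      exact mul_nonpos_of_nonpos_of_nonneg (kap_nonpos M h6.symm) (h0 j)
    linarith

theorem PDef.ne_zero (h : PDef M) (i j : B) : M i j ≠ 0 := by
  intro hM
  have hij : i ≠ j := by
    rintro rfl
    rw [M.diagonal] at hM
    exact one_ne_zero hM
  have hk : kap M i j = -2 := by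
    unfold kap
    rw [if_neg hij, if_pos hM]
  have hk' : kap M j i = -2 := by rw [kap_symm, hk]
  refine h.test (fun l => if l = i ∨ l = j then 1 else 0) ?_ ?_ ?_
  · intro l
    split_ifs
    · exact zero_le_one
    · exact le_rfl
  · intro h1
    have h2 := congrFun h1 i
    simp at h2
  · intro l hl
    split_ifs at hl with h1
    · rcases h1 with rfl | rfl
      · refine ⟨{j}, ?_, ?_⟩
        · rw [Finset.mem_singleton]
          exact hij
        · rw [Finset.sum_singleton, hk]
          simp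
      · refine ⟨{i}, ?_, ?_⟩
        · rw [Finset.mem_singleton]
          exact hij.symm
        · rw [Finset.sum_singleton, hk']
          simp
    · exact absurd hl (lt_irrefl _)

theorem PDef.comap (h : PDef M) {B' : Type} [Fintype B'] {M' : CoxeterMatrix B'} (f : B' → B)
    (hf : Function.Injective f) (hM : ∀ i j, M (f i) (f j) = M' i j) : PDef M' := by
  intro x hx
  have hk : ∀ i j, kap M' i j = kap M (f i) (f j) := by
    intro i j
    unfold kap
    rw [hM]
    by_cases h1 : i = j
    · rw [if_pos h1, if_pos (congrArg f h1)]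
    · rw [if_neg h1, if_neg fun h2 => h1 (hf h2)]
  have hy1 : ∀ i, Function.extend f x (0 : B → ℝ) (f i) = x i := fun i => hf.extend_apply x 0 i
  have hy2 : ∀ b, b ∉ Set.range f → Function.extend f x (0 : B → ℝ) b = 0 := fun b hb =>
    Function.extend_apply' x (0 : B → ℝ) b fun ⟨a, ha⟩ => hb ⟨a, ha⟩
  have hy : Function.extend f x (0 : B → ℝ) ≠ 0 := by
    intro h1
    apply hx
    funext i
    rw [← hy1 i, h1]
    rfl
  have h1 := h _ hy
  have h2 : ∑ i, ∑ j, x i * x j * kap M' i j =
      ∑ i, ∑ j, Function.extend f x (0 : B → ℝ) i *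
        Function.extend f x (0 : B → ℝ) j * kap M i j := by
    refine Fintype.sum_of_injective f hf _ _ ?_ ?_
    · intro b hb
      refine Finset.sum_eq_zero fun j _ => ?_
      rw [hy2 b hb, zero_mul, zero_mul]
    · intro i
      refine Fintype.sum_of_injective f hf _ _ ?_ ?_
      · intro b hb
        rw [hy2 b hb, mul_zero, zero_mul]
      · intro j
        rw [hy1, hy1, hk]
  rw [h2]
  exact h1

end Pool.Agent.Art
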