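import Pool.Agent.Art.ClKap

/-!
# The form of a finite Coxeter group is positive definite

PROOF. `V = B →₀ ℝ`, `geo M : W → GL(V)` with `geo (sr i) = rfn M i = r_i` (VSimp, VGeo),
`r_i v = v - frm M i v • e_i`, `e_i = single i 1`, `frm M i e_j = kap M i j`. For `u v : V` put
`ip u v = ∑ g : W, ∑ b : B, (geo g u) b * (geo g v) b`. It is bilinear, symmetric, `ip u u > 0`
for `u ≠ 0` (the term `g = 1` is positive, the others are nonnegative), and
`ip (geo h u) (geo h v) = ip u v` (reindex by `g ↦ g * h`, `Fintype.sum_equiv` or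
`Equiv.sum_comp (Equiv.mulRight h)`).
Put `d i = ip e_i e_i > 0`. From `r_i e_i = - e_i`:
`ip e_i v = ip (r_i e_i) (r_i v) = - ip e_i v + frm M i v * d i`, so
(1) `2 * ip e_i v = frm M i v * d i`. In particular `2 * ip e_i e_j = kap M i j * d i`, and by the
symmetry of `ip` and of `kap`: (2) `kap M i j * d i = kap M i j * d j`.
Given `x : B → ℝ`, `x ≠ 0`, let `u = ∑ i, (x i / √(d i)) • e_i ≠ 0`. Then
`0 < 2 * ip u u = ∑ i, ∑ j, (x i / √(d i)) * (x j / √(d j)) * (kap M i j * d i)`
`= ∑ i, ∑ j, x i * x j * kap M i j`: by (2) either `kap M i j = 0` or `d i = d j`, and then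
`√(d i) * √(d j) = d i`.
-/

set_option autoImplicit false

noncomputable section

namespace Pool.Agent.Art

open Classical

section form

variable {B : Type} [Fintype B] (M : CoxeterMatrix B) [Fintype M.Group]

/-- The invariant form, as a linear form in the first argument. -/
private def ipL (v : B →₀ ℝ) : (B →₀ ℝ) →ₗ[ℝ] ℝ where
  toFun u := ∑ g : M.Group, ∑ b : B, (geo M g u) b * (geo M g v) b
  map_add' u w := by simp [add_mul, Finset.sum_add_distrib]
  map_smul' c u := by simp [Finset.mul_sum, mul_assoc]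

private theorem ipL_comm (u v : B →₀ ℝ) : ipL M v u = ipL M u v :=
  Finset.sum_congr rfl fun _ _ => Finset.sum_congr rfl fun _ _ => mul_comm _ _

private theorem ipL_inv (h : M.Group) (u v : B →₀ ℝ) :
    ipL M (geo M h v) (geo M h u) = ipL M v u := by
  have h1 : ∀ (g : M.Group) (w : B →₀ ℝ), geo M g (geo M h w) = geo M (g * h) w := by
    intro g w
    rw [map_mul]
    rfl
  change ∑ g : M.Group, ∑ b : B, (geo M g (geo M h u)) b * (geo M g (geo M h v)) b = _
  simp only [h1]
  exact Equiv.sum_comp (Equiv.mulRight h) fun g => ∑ b : B, (geo M g u) b * (geo M g v) b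

private theorem ipL_pos {u : B →₀ ℝ} (hu : u ≠ 0) : 0 < ipL M u u := by
  have h0 : ∀ g : M.Group, 0 ≤ ∑ b : B, (geo M g u) b * (geo M g u) b :=
    fun g => Finset.sum_nonneg fun b _ => mul_self_nonneg _
  refine lt_of_lt_of_le ?_ (Finset.single_le_sum (fun g _ => h0 g) (Finset.mem_univ (1 : M.Group)))
  rw [map_one]
  obtain ⟨b, hb⟩ : ∃ b, u b ≠ 0 := by
    by_contra hcon
    push Not at hcon
    exact hu (Finsupp.ext hcon)
  exact Finset.sum_pos' (fun b _ => mul_self_nonneg _)
    ⟨b, Finset.mem_univ _, mul_self_pos.2 hb⟩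

private theorem ipL_two (i : B) (v : B →₀ ℝ) : 2 * ipL M v (Finsupp.single i 1) =
    frm M i v * ipL M (Finsupp.single i 1) (Finsupp.single i 1) := by
  have h1 := ipL_inv M (sr M i) (Finsupp.single i 1) v
  rw [geo_sr] at h1
  have h2 : rfn M i (Finsupp.single i 1) = -Finsupp.single i 1 := by
    unfold rfn
    exact Module.reflection_apply_self (frm_self M i)
  have h3 : rfn M i v = v - frm M i v • Finsupp.single i 1 := by
    unfold rfn
    rw [Module.reflection_apply]
  rw [h2, map_neg, ipL_comm, h3, map_sub, map_smul, smul_eq_mul, ipL_comm M v] at h1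
  linarith

private theorem frm_apply (i : B) (v : B →₀ ℝ) : frm M i v = ∑ j, v j * kap M i j := by
  unfold frm
  rw [Finsupp.linearCombination_apply]
  exact Finsupp.sum_fintype v _ fun j => zero_smul _ _

end form

theorem pd_of_finite {B : Type} [Fintype B] (M : CoxeterMatrix B) (h : Finite M.Group) :
    PDef M := by
  have : Fintype M.Group := Fintype.ofFinite _
  intro x hx
  set d : B → ℝ := fun i => ipL M (Finsupp.single i 1) (Finsupp.single i 1) with hd
  have hd0 : ∀ i, 0 < d i := fun i => ipL_pos M (Finsupp.single_ne_zero.2 one_ne_zero)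
  have hs0 : ∀ i, √(d i) ≠ 0 := fun i => (Real.sqrt_pos.2 (hd0 i)).ne'
  have hdd : ∀ i j, kap M i j * d i = kap M i j * d j := by
    intro i j
    have h1 := ipL_two M i (Finsupp.single j 1)
    have h2 := ipL_two M j (Finsupp.single i 1)
    rw [frm_single] at h1 h2
    rw [ipL_comm] at h1
    rw [kap_symm M j i] at h2
    exact h1.symm.trans h2
  set u : B →₀ ℝ := Finsupp.equivFunOnFinite.symm fun i => x i / √(d i) with hu
  have hui : ∀ i, u i = x i / √(d i) := fun i => rfl
  have hu0 : u ≠ 0 := by
    intro h0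
    apply hx
    funext i
    have h1 := hui i
    rw [h0, Finsupp.zero_apply] at h1
    have h2 := (div_eq_zero_iff.1 h1.symm).resolve_right (hs0 i)
    exact h2
  have h1 := ipL_pos M hu0
  have h2 : 2 * ipL M u u = ∑ i, ∑ j, x i * x j * kap M i j := by
    have h3 : ipL M u u = ∑ i, u i * ipL M u (Finsupp.single i 1) := by
      have e := congrArg (ipL M u) (Finsupp.univ_sum_single u)
      rw [map_sum] at e
      rw [← e]
      refine Finset.sum_congr rfl fun i _ => ?_
      rw [← Finsupp.smul_single_one, map_smul, smul_eq_mul]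
    rw [h3, Finset.mul_sum]
    refine Finset.sum_congr rfl fun i _ => ?_
    have h4 : 2 * (u i * ipL M u (Finsupp.single i 1)) =
        u i * (2 * ipL M u (Finsupp.single i 1)) := by ring
    rw [h4, ipL_two, frm_apply, Finset.sum_mul, Finset.mul_sum]
    refine Finset.sum_congr rfl fun j _ => ?_
    change u i * (u j * kap M i j * d i) = x i * x j * kap M i j
    by_cases h5 : kap M i j = 0
    · rw [h5]
      ring
    · have h6 : d i = d j := mul_left_cancel₀ h5 (hdd i j)
      have h7 : √(d i) * √(d i) = d i := Real.mul_self_sqrt (hd0 i).le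
      rw [hui, hui, ← h6]
      have h9 : x i / √(d i) * (x j / √(d i) * kap M i j * d i) =
          x i * x j * kap M i j * (d i / (√(d i) * √(d i))) := by ring
      rw [h9, h7, div_self (hd0 i).ne', mul_one]
  linarith

end Pool.Agent.Art
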