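import Pool.Agent.Art.ClConn
import Pool.Agent.Art.ClPD

/-!
# Finite Coxeter groups are of spherical type

PROOF of `sph_of_pd`: induction on `n`. If `B` is empty: `Sph.empty`. Otherwise let `b : B`,
`C = ((cg M).connectedComponentMk b).supp`. If `C = Set.univ` then `cg M` is connected, and
`conn_type` (with `n = card B - 1`) and `Sph.irr` finish the proof (`Conn.irr`). Otherwise
`M i j = 2` for `i ∈ C`, `j ∉ C` (not adjacent, `i ≠ j`), both `C` and `Cᶜ` have fewer than
`card B` elements (`b ∈ C`), the restrictions are positive definite (`PDef.comap` with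
`Subtype.val`), so `Sph.sum` applies.
`sph_of_finite`: `pd_of_finite` and `sph_of_pd`.
`fc_of_finite`: `T` finite, `Fintype T` from `hT`; apply `sph_of_finite` to `rst M T`.
-/

set_option autoImplicit false

noncomputable section

namespace Pool.Agent.Art

open Classical

private theorem pd_rst {B : Type} [Fintype B] {M : CoxeterMatrix B} (hp : PDef M) (T : Set B)
    [Fintype T] : PDef (rst M T) :=
  hp.comap (fun i : T => (i : B)) Subtype.val_injective fun _ _ => rfl

private theorem card_lt {B : Type} [Fintype B] (T : Set B) [Fintype T] {x : B} (hx : x ∉ T) :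
    Fintype.card T < Fintype.card B := by
  refine Fintype.card_lt_of_injective_of_notMem (fun i : T => (i : B)) Subtype.val_injective
    (b := x) ?_
  rintro ⟨y, rfl⟩
  exact hx y.2

theorem sph_of_pd (n : ℕ) : ∀ (B : Type) [Fintype B] (M : CoxeterMatrix B),
    Fintype.card B ≤ n → PDef M → Sph B M := by
  induction n with
  | zero =>
    intro B _ M hc _
    have : IsEmpty B := Fintype.card_eq_zero_iff.1 (Nat.le_zero.1 hc)
    exact Sph.empty B M
  | succ n ih =>
    intro B _ M hc hp
    rcases isEmpty_or_nonempty B with hem | hne
    · exact Sph.empty B M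
    obtain ⟨b⟩ := hne
    by_cases hC : ∀ x, (cg M).connectedComponentMk x = (cg M).connectedComponentMk b
    · have : Nonempty B := ⟨b⟩
      have hconn : (cg M).Connected := by
        refine SimpleGraph.Connected.mk fun x y => ?_
        exact SimpleGraph.ConnectedComponent.exact ((hC x).trans (hC y).symm)
      have hpos : 0 < Fintype.card B := Fintype.card_pos
      obtain ⟨m, hm⟩ : ∃ m, Fintype.card B = m + 1 := ⟨Fintype.card B - 1, by omega⟩
      obtain ⟨N, hN, e, he⟩ := conn_type m B M hm hp hconn
      exact Sph.irr B M _ N hN.irr e he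
    · push Not at hC
      obtain ⟨x, hx⟩ := hC
      let C : Set B := {y | (cg M).connectedComponentMk y = (cg M).connectedComponentMk b}
      have hxC : x ∉ C := hx
      have hbC : b ∉ Cᶜ := fun h => h rfl
      have : Fintype C := Fintype.ofFinite C
      have : Fintype (Cᶜ : Set B) := Fintype.ofFinite _
      have h1 := card_lt C hxC
      have h2 := card_lt Cᶜ hbC
      refine Sph.sum B M C ?_ ?_ ?_
      · intro i hi j hj
        by_contra hne
        apply hj
        have hij : (cg M).Adj j i := by
          refine ⟨?_, ?_⟩
          · rintro rfl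
            exact hj hi
          · rw [M.symmetric]
            exact hne
        exact (SimpleGraph.ConnectedComponent.sound hij.reachable).trans hi
      · exact ih C (rst M C) (by omega) (pd_rst hp C)
      · exact ih (Cᶜ : Set B) (rst M Cᶜ) (by omega) (pd_rst hp Cᶜ)

/-- The classification of the finite Coxeter groups. -/
theorem sph_of_finite {B : Type} [Finite B] (M : CoxeterMatrix B) (h : Finite M.Group) :
    Sph B M := by
  have : Fintype B := Fintype.ofFinite B
  exact sph_of_pd (Fintype.card B) B M le_rfl (pd_of_finite M h)

theorem fc_of_finite {B : Type} (M : CoxeterMatrix B)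
    (h : ∀ T : Set B, T.Finite → (∀ i ∈ T, ∀ j ∈ T, M i j ≠ 0) → Finite (rst M T).Group) :
    FC M := by
  intro T hT h0
  have : Finite T := hT
  exact sph_of_finite (rst M T) (h T hT h0)

end Pool.Agent.Art
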