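import Mathlib

/-!
# Artin groups: definitions

The paper proof is /team-store/ARTIN.md. Everything in this file is proved.
-/

set_option autoImplicit false

namespace Pool.Agent.Art

/-- The alternating product `a * b * a * ...` with `m` factors. -/
def alt {G : Type*} [Monoid G] : G → G → ℕ → G
  | _, _, 0 => 1
  | a, b, m + 1 => a * alt b a m

@[simp] theorem alt_zero {G : Type*} [Monoid G] (a b : G) : alt a b 0 = 1 := rfl

theorem alt_succ {G : Type*} [Monoid G] (a b : G) (m : ℕ) : alt a b (m + 1) = a * alt b a m := rfl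

@[simp] theorem alt_one {G : Type*} [Monoid G] (a b : G) : alt a b 1 = a := by
  simp [alt]

theorem alt_two {G : Type*} [Monoid G] (a b : G) : alt a b 2 = a * b := by
  simp [alt]

theorem alt_three {G : Type*} [Monoid G] (a b : G) : alt a b 3 = a * b * a := by
  simp [alt, mul_assoc]

theorem map_alt {G H F : Type*} [Monoid G] [Monoid H] [FunLike F G H] [MonoidHomClass F G H]
    (f : F) (m : ℕ) : ∀ a b : G, f (alt a b m) = alt (f a) (f b) m := by
  induction m with
  | zero => intro a b; simp
  | succ m ih => intro a b; rw [alt_succ, map_mul, ih, alt_succ]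

section artin

variable {B : Type}

/-- The braid relations of the Coxeter matrix `M` (entry `0` = no relation). -/
def rels (M : CoxeterMatrix B) : Set (FreeGroup B) :=
  {r | ∃ i j, M i j ≠ 0 ∧ r = alt (FreeGroup.of i) (FreeGroup.of j) (M i j) *
    (alt (FreeGroup.of j) (FreeGroup.of i) (M i j))⁻¹}

/-- The Artin group of the Coxeter matrix `M`. -/
abbrev Artin (M : CoxeterMatrix B) : Type := PresentedGroup (rels M)

variable (M : CoxeterMatrix B)

/-- The standard generators. -/
def gen (i : B) : Artin M := PresentedGroup.of i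

theorem braid {i j : B} (h : M i j ≠ 0) :
    alt (gen M i) (gen M j) (M i j) = alt (gen M j) (gen M i) (M i j) := by
  have h1 : (PresentedGroup.mk (rels M)) (alt (FreeGroup.of i) (FreeGroup.of j) (M i j) *
      (alt (FreeGroup.of j) (FreeGroup.of i) (M i j))⁻¹) = 1 :=
    PresentedGroup.one_of_mem ⟨i, j, h, rfl⟩
  rw [map_mul, map_inv, mul_inv_eq_one, map_alt, map_alt] at h1
  exact h1

variable {M}

/-- Homomorphisms from the Artin group. -/
def lift {G : Type*} [Group G] (f : B → G)
    (h : ∀ i j, M i j ≠ 0 → alt (f i) (f j) (M i j) = alt (f j) (f i) (M i j)) : Artin M →* G :=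
  PresentedGroup.toGroup (f := f) (by
    rintro r ⟨i, j, h0, rfl⟩
    rw [map_mul, map_inv, mul_inv_eq_one, map_alt, map_alt, FreeGroup.lift_apply_of,
      FreeGroup.lift_apply_of]
    exact h i j h0)

@[simp] theorem lift_gen {G : Type*} [Group G] (f : B → G)
    (h : ∀ i j, M i j ≠ 0 → alt (f i) (f j) (M i j) = alt (f j) (f i) (M i j)) (i : B) :
    lift f h (gen M i) = f i :=
  PresentedGroup.toGroup.of _

variable (M) in
theorem closure_gen : Subgroup.closure (Set.range (gen M) : Set (Artin M)) = ⊤ :=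
  PresentedGroup.closure_range_of (rels M)

theorem hom_ext {G : Type*} [Group G] {f g : Artin M →* G}
    (h : ∀ i, f (gen M i) = g (gen M i)) : f = g :=
  PresentedGroup.ext h

theorem artin_induction {P : Artin M → Prop} (g : Artin M) (h1 : P 1)
    (hmul : ∀ (i : B) (x : Artin M), P x → P (x * gen M i))
    (hinv : ∀ (i : B) (x : Artin M), P x → P (x * (gen M i)⁻¹)) : P g := by
  have hg : g ∈ Subgroup.closure (Set.range (gen M)) := by rw [closure_gen]; trivial
  induction hg using Subgroup.closure_induction_right with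
  | one => exact h1
  | mul_right x _ y hy ih => obtain ⟨i, rfl⟩ := hy; exact hmul i x ih
  | mul_inv_cancel x _ y hy ih => obtain ⟨i, rfl⟩ := hy; exact hinv i x ih

end artin

/-- Locally indicable groups. -/
def LI (G : Type) [Group G] : Prop :=
  ∀ H : Subgroup G, H.FG → (∀ f : H →* Multiplicative ℤ, f = 1) → H = ⊥

section types

/-- The restriction of a Coxeter matrix to a set of nodes. -/
def rst {B : Type} (M : CoxeterMatrix B) (T : Set B) : CoxeterMatrix T where
  M := Matrix.of fun i j => M i j
  isSymm := by ext i j; exact M.symmetric j i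
  diagonal i := M.diagonal i
  off_diagonal i j h := M.off_diagonal i j fun h' => h (Subtype.ext h')

@[simp] theorem rst_apply {B : Type} (M : CoxeterMatrix B) (T : Set B) (i j : T) :
    rst M T i j = M i j := rfl

/-- Type `A n`: the chain `0 - 1 - ... - (n - 1)`. -/
def tA (n : ℕ) : CoxeterMatrix (Fin n) where
  M := Matrix.of fun i j : Fin n =>
    if i = j then 1 else if (i : ℕ) + 1 = j ∨ (j : ℕ) + 1 = i then 3 else 2
  isSymm := by unfold Matrix.IsSymm; aesop
  diagonal := by simp
  off_diagonal := by aesop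

/-- Type `B n`: the chain `0 = 1 - 2 - ... - (n - 1)`, the first edge has label `4`. -/
def tB (n : ℕ) : CoxeterMatrix (Fin n) where
  M := Matrix.of fun i j : Fin n =>
    if i = j then 1 else if (i : ℕ) + 1 = j ∨ (j : ℕ) + 1 = i then
      (if (i : ℕ) = 0 ∨ (j : ℕ) = 0 then 4 else 3) else 2
  isSymm := by unfold Matrix.IsSymm; aesop
  diagonal := by simp
  off_diagonal := by aesop

/-- Type `D n`: the chain `1 - 2 - ... - (n - 1)`, and the node `0` is joined to the node `2`. -/
def tD (n : ℕ) : CoxeterMatrix (Fin n) where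
  M := Matrix.of fun i j : Fin n =>
    if i = j then 1
    else if (i : ℕ) = 0 ∧ (j : ℕ) = 2 ∨ (j : ℕ) = 0 ∧ (i : ℕ) = 2 then 3
    else if (i : ℕ) = 0 ∨ (j : ℕ) = 0 then 2
    else if (i : ℕ) + 1 = j ∨ (j : ℕ) + 1 = i then 3 else 2
  isSymm := by
    unfold Matrix.IsSymm
    ext i j
    simp only [Matrix.transpose_apply, Matrix.of_apply]
    split_ifs <;> first | rfl | omega
  diagonal := by simp
  off_diagonal := by
    intro i j h
    simp only [Matrix.of_apply]
    split_ifs <;> simp_all

/-- The irreducible types. `I m` is the dihedral type with label `m + 2`. -/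
inductive Irr : (n : ℕ) → CoxeterMatrix (Fin n) → Prop
  | A (n : ℕ) : Irr n (tA n)
  | B (n : ℕ) : Irr n (tB n)
  | D (n : ℕ) : Irr n (tD n)
  | E6 : Irr 6 CoxeterMatrix.E₆
  | E7 : Irr 7 CoxeterMatrix.E₇
  | E8 : Irr 8 CoxeterMatrix.E₈
  | F4 : Irr 4 CoxeterMatrix.F₄
  | H3 : Irr 3 CoxeterMatrix.H₃
  | H4 : Irr 4 CoxeterMatrix.H₄
  | I (m : ℕ) : Irr 2 (CoxeterMatrix.I m)

/-- The spherical Coxeter matrices: disjoint unions of the irreducible types. -/
inductive Sph : (B : Type) → CoxeterMatrix B → Prop
  | empty (B : Type) (M : CoxeterMatrix B) [IsEmpty B] : Sph B M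
  | irr (B : Type) (M : CoxeterMatrix B) (n : ℕ) (N : CoxeterMatrix (Fin n)) (hN : Irr n N)
      (e : Fin n ≃ B) (h : ∀ i j, M (e i) (e j) = N i j) : Sph B M
  | sum (B : Type) (M : CoxeterMatrix B) (T : Set B) (h : ∀ i ∈ T, ∀ j ∉ T, M i j = 2)
      (h1 : Sph T (rst M T)) (h2 : Sph (Tᶜ : Set B) (rst M Tᶜ)) : Sph B M

/-- Coxeter matrices of FC type: every finite set of nodes without label infinity (`0`) is
spherical. -/
def FC {B : Type} (M : CoxeterMatrix B) : Prop :=
  ∀ T : Set B, T.Finite → (∀ i ∈ T, ∀ j ∈ T, M i j ≠ 0) → Sph T (rst M T)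

end types

end Pool.Agent.Art
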