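import Pool.Agent.Art.RBas

/-!
# The degenerate matrices phi

PROOFS. `vecMul_phi`: only the rows `c = b` and `c = r s b` contribute to the column `b` of `phi s`
(`r s b ≠ b` if `ip ≠ 0`).
`phi_comm`, `phi_braid`: two matrices are equal if all products `u ᵥ* A`, `u ᵥ* B` are equal; compute
`(u ᵥ* phi s ᵥ* phi t) b` with `vecMul_phi` by cases on `ip b (a s)`, `ip b (a t)`.
Label 2 (`ip (a s) (a t) = 0`): `ip (r s b) (a t) = ip b (a t)` (`ip_r_left`), `r s (r t b) = r t (r s b)`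
(by `v` and `inj`). Label 3 (`ip (a s) (a t) = -1`): `ip (r s b) (a t) = ip b (a t) + ip b (a s)` for
`b ≠ a s`. The pairs `(ip b (a s), ip b (a t))` which occur for `b ≠ a s, a t`:
`(0,0), (0,±1), (±1,0), (1,-1), (-1,1), (-1,-1)` and `(1,1)` only for `b = r s (a t) = r t (a s)`
(because `ip b (a s) + ip b (a t) = 2` is the inner product with the root `r s (a t)`, `bnd`). For
`(-1,-1)`: `r s b` has inner products `(1, -2)`?? No: `ip (r s b) (a t) = -2` is excluded by `bnd`, so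
`(-1,-1)` does not occur. The values `ip ∈ {-1, 0, 1}` leave: `(0,0)`, `(0,1)`, `(1,0)`, `(0,-1)`, `(-1,0)`,
`(1,-1)`, `(-1,1)`, the root `r s (a t)` with `(1,1)`, and `a s`, `a t`. In each case both sides are the
same combination, e.g. `(0,-1)`, `u' = ` coordinates: `b, r t b, r s (r t b)`.
Relations used: `x * 1 = (1 - x) * x + x * x` etc. (`ring`).
`phi_col_*`: columns.
-/

set_option autoImplicit false

namespace Pool.Agent.Art

open Matrix Polynomial

namespace RD

variable {S P V : Type} [AddCommGroup V] [DecidableEq P] [Fintype P] (D : RD S P V)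

theorem vecMul_phi (s : S) (u : P → ℤ[X]) (b : P) : (u ᵥ* D.phi s) b =
    if b = D.a s then 0
    else if D.ip b (D.a s) = 0 then u b
    else if D.ip b (D.a s) = 1 then lx * u (D.r s b)
    else (1 - lx) * u b + u (D.r s b) := by
  unfold Matrix.vecMul dotProduct RD.phi
  simp only [Matrix.of_apply]
  split_ifs with h1 h2 h3
  · simp
  · simp
  · simp [mul_comm]
  · simp [mul_add, Finset.sum_add_distrib, mul_comm]

private theorem vm_self_Phi (s : S) (u : P → ℤ[X]) : (u ᵥ* D.phi s) (D.a s) = 0 := by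
  rw [vecMul_phi, if_pos rfl]

private theorem vm_zero_Phi {s : S} (u : P → ℤ[X]) {b : P} (h : D.ip b (D.a s) = 0) :
    (u ᵥ* D.phi s) b = u b := by
  rw [vecMul_phi, if_neg (D.ne_of_ip (by rw [h]; norm_num)), if_pos h]

private theorem vm_one_Phi {s : S} (u : P → ℤ[X]) {b : P} (h : D.ip b (D.a s) = 1) :
    (u ᵥ* D.phi s) b = lx * u (D.r s b) := by
  rw [vecMul_phi, if_neg (D.ne_of_ip (by rw [h]; norm_num)), if_neg (by rw [h]; norm_num),
    if_pos h]

private theorem vm_neg_Phi {s : S} (u : P → ℤ[X]) {b : P} (h : D.ip b (D.a s) = -1) :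
    (u ᵥ* D.phi s) b = (1 - lx) * u b + u (D.r s b) := by
  rw [vecMul_phi, if_neg (D.ne_of_ip (by rw [h]; norm_num)), if_neg (by rw [h]; norm_num),
    if_neg (by rw [h]; norm_num)]

private theorem ext_vm_Phi {A B : Matrix P P ℤ[X]}
    (h : ∀ u : P → ℤ[X], ∀ b, (u ᵥ* A) b = (u ᵥ* B) b) : A = B := by
  ext1 i j
  have h1 := h (Pi.single i 1) j
  simpa using h1

theorem phi_comm {s t : S} (h : D.ip (D.a s) (D.a t) = 0) :
    D.phi s * D.phi t = D.phi t * D.phi s := by
  have h' : D.ip (D.a t) (D.a s) = 0 := by rw [D.ip_comm, h]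
  refine ext_vm_Phi fun u b => ?_
  rw [← Matrix.vecMul_vecMul, ← Matrix.vecMul_vecMul]
  by_cases hs : b = D.a s
  · subst hs
    rw [vm_self_Phi, D.vm_zero_Phi _ h, vm_self_Phi]
  by_cases ht : b = D.a t
  · subst ht
    rw [vm_self_Phi, D.vm_zero_Phi _ h', vm_self_Phi]
  have hst : D.r t b ≠ D.a s := by
    intro h1
    apply hs
    rw [← D.r_r t b, h1, D.r_zero h]
  have hts : D.r s b ≠ D.a t := by
    intro h1
    apply ht
    rw [← D.r_r s b, h1, D.r_zero h']
  have e1 : D.ip (D.r t b) (D.a s) = D.ip b (D.a s) := by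
    rw [D.ip_r_left ht, h']
    ring
  have e2 : D.ip (D.r s b) (D.a t) = D.ip b (D.a t) := by
    rw [D.ip_r_left hs, h]
    ring
  have e3 : D.r s (D.r t b) = D.r t (D.r s b) := by
    apply D.inj
    rw [← D.rho_v hst, ← D.rho_v ht, ← D.rho_v hts, ← D.rho_v hs]
    have h1 : D.B (D.v (D.a s)) (D.v (D.a t)) = 0 := h
    have h2 : D.B (D.v (D.a t)) (D.v (D.a s)) = 0 := h'
    simp only [rho_apply, map_sub, map_zsmul, AddMonoidHom.sub_apply, AddMonoidHom.smul_apply,
      h1, h2]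
    module
  simp only [vecMul_phi, if_neg hs, if_neg ht, if_neg hst, if_neg hts, e1, e2, e3]
  split_ifs <;> ring

theorem r_a_comm {s t : S} (h : D.ip (D.a s) (D.a t) = -1) :
    D.r s (D.a t) = D.r t (D.a s) := by
  apply D.inj
  have h' : D.ip (D.a t) (D.a s) = -1 := by rw [D.ip_comm, h]
  rw [D.v_r_neg h, D.v_r_neg h', add_comm]

private theorem ip_gam_Phi {s t : S} (h : D.ip (D.a s) (D.a t) = -1) :
    D.ip (D.r s (D.a t)) (D.a t) = 1 := by
  have h' : D.ip (D.a t) (D.a s) = -1 := by rw [D.ip_comm, h]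
  rw [D.ip_r_left (D.ne_of_ip (by rw [h']; norm_num)), D.ip_self, h, h']
  norm_num

/-- one half of the braid relation for the roots `b` with given inner products -/
private theorem braid_zero_Phi {s t : S} (h : D.ip (D.a s) (D.a t) = -1) (u : P → ℤ[X]) {b : P}
    (hx : D.ip b (D.a s) = 0) (ht : b ≠ D.a t) :
    (((u ᵥ* D.phi s) ᵥ* D.phi t) ᵥ* D.phi s) b = (((u ᵥ* D.phi t) ᵥ* D.phi s) ᵥ* D.phi t) b := by
  have h' : D.ip (D.a t) (D.a s) = -1 := by rw [D.ip_comm, h]
  have e1 : D.ip (D.r t b) (D.a s) = D.ip b (D.a t) := by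
    rw [D.ip_r_left ht, h', hx]
    ring
  have e2 : D.ip (D.r t b) (D.a t) = -D.ip b (D.a t) := D.ip_r_a ht
  rw [D.vm_zero_Phi _ hx]
  rcases D.ip_cases b (D.a t) with h1 | h1 | h1 | h1
  · exact absurd h1 ht
  · rw [h1] at e1 e2
    have hne : D.r t b ≠ D.a s := D.ne_of_ip (by rw [e1]; norm_num)
    have e3 : D.ip (D.r s (D.r t b)) (D.a t) = 0 := by
      rw [D.ip_r_left hne, h, e1, e2]
      norm_num
    rw [neg_neg] at e2
    rw [D.vm_neg_Phi _ h1, D.vm_zero_Phi _ hx, D.vm_neg_Phi _ e1, D.vm_neg_Phi _ h1,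
      D.vm_zero_Phi _ hx, D.vm_neg_Phi _ e1, D.vm_neg_Phi _ h1, D.vm_one_Phi _ e2, D.r_r,
      D.vm_zero_Phi _ e3]
    ring
  · rw [D.vm_zero_Phi _ h1, D.vm_zero_Phi _ hx, D.vm_zero_Phi _ h1, D.vm_zero_Phi _ hx,
      D.vm_zero_Phi _ h1]
  · rw [h1] at e1 e2
    have hne : D.r t b ≠ D.a s := D.ne_of_ip (by rw [e1]; norm_num)
    have e3 : D.ip (D.r s (D.r t b)) (D.a t) = 0 := by
      rw [D.ip_r_left hne, h, e1, e2]
      norm_num
    rw [D.vm_one_Phi _ h1, D.vm_one_Phi _ e1, D.vm_one_Phi _ h1, D.vm_one_Phi _ e1,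
      D.vm_zero_Phi _ e3]

private theorem braid_pn_Phi {s t : S} (h : D.ip (D.a s) (D.a t) = -1) (u : P → ℤ[X]) {b : P}
    (hx : D.ip b (D.a s) = 1) (hy : D.ip b (D.a t) = -1) :
    (((u ᵥ* D.phi s) ᵥ* D.phi t) ᵥ* D.phi s) b = (((u ᵥ* D.phi t) ᵥ* D.phi s) ᵥ* D.phi t) b := by
  have h' : D.ip (D.a t) (D.a s) = -1 := by rw [D.ip_comm, h]
  have hs : b ≠ D.a s := D.ne_of_ip (by rw [hx]; norm_num)
  have ht : b ≠ D.a t := D.ne_of_ip (by rw [hy]; norm_num)
  have e1 : D.ip (D.r s b) (D.a s) = -1 := by rw [D.ip_r_a hs, hx]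
  have e2 : D.ip (D.r s b) (D.a t) = 0 := by
    rw [D.ip_r_left hs, h, hx, hy]
    norm_num
  have e3 : D.ip (D.r t b) (D.a t) = 1 := by
    rw [D.ip_r_a ht, hy]
    norm_num
  have e4 : D.ip (D.r t b) (D.a s) = 0 := by
    rw [D.ip_r_left ht, h', hx, hy]
    norm_num
  rw [D.vm_one_Phi _ hx, D.vm_zero_Phi _ e2, D.vm_neg_Phi _ e1, D.r_r, D.vm_neg_Phi _ hy,
    D.vm_one_Phi _ hx, D.vm_zero_Phi _ e2, D.vm_zero_Phi _ e4, D.vm_one_Phi _ e3, D.r_r]
  ring

private theorem braid_self_Phi {s t : S} (h : D.ip (D.a s) (D.a t) = -1) (u : P → ℤ[X]) :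
    (((u ᵥ* D.phi s) ᵥ* D.phi t) ᵥ* D.phi s) (D.a s) =
      (((u ᵥ* D.phi t) ᵥ* D.phi s) ᵥ* D.phi t) (D.a s) := by
  have h' : D.ip (D.a t) (D.a s) = -1 := by rw [D.ip_comm, h]
  rw [vm_self_Phi, D.vm_neg_Phi _ h, vm_self_Phi, D.vm_one_Phi _ (D.ip_gam_Phi h'),
    ← D.r_a_comm h, D.r_r, vm_self_Phi, mul_zero, mul_zero, add_zero]

theorem phi_braid {s t : S} (h : D.ip (D.a s) (D.a t) = -1) :
    D.phi s * D.phi t * D.phi s = D.phi t * D.phi s * D.phi t := by
  have h' : D.ip (D.a t) (D.a s) = -1 := by rw [D.ip_comm, h]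
  refine ext_vm_Phi fun u b => ?_
  simp only [← Matrix.vecMul_vecMul]
  by_cases hs : b = D.a s
  · subst hs
    exact D.braid_self_Phi h u
  by_cases ht : b = D.a t
  · subst ht
    exact (D.braid_self_Phi h' u).symm
  rcases D.ip_cases b (D.a s) with h1 | h1 | h1 | h1
  · exact absurd h1 hs
  · rcases D.ip_cases b (D.a t) with h2 | h2 | h2 | h2
    · exact absurd h2 ht
    · exfalso
      have e : D.ip (D.r s b) (D.a t) = -2 := by
        rw [D.ip_r_left hs, h, h1, h2]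
        norm_num
      rcases D.ip_cases (D.r s b) (D.a t) with h3 | h3 | h3 | h3
      · rw [h3, D.ip_self] at e
        omega
      all_goals omega
    · exact (D.braid_zero_Phi h' u h2 hs).symm
    · exact (D.braid_pn_Phi h' u h2 h1).symm
  · exact D.braid_zero_Phi h u h1 ht
  · rcases D.ip_cases b (D.a t) with h2 | h2 | h2 | h2
    · exact absurd h2 ht
    · exact D.braid_pn_Phi h u h1 h2
    · exact (D.braid_zero_Phi h' u h2 hs).symm
    · have e1 : D.r s b = D.a t := by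
        have e : D.ip (D.r s b) (D.a t) = 2 := by
          rw [D.ip_r_left hs, h, h1, h2]
          norm_num
        rcases D.ip_cases (D.r s b) (D.a t) with h3 | h3 | h3 | h3
        · exact h3
        all_goals omega
      have e2 : D.r t b = D.a s := by
        have e : D.ip (D.r t b) (D.a s) = 2 := by
          rw [D.ip_r_left ht, h', h1, h2]
          norm_num
        rcases D.ip_cases (D.r t b) (D.a s) with h3 | h3 | h3 | h3
        · exact h3
        all_goals omega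
      rw [D.vm_one_Phi _ h1, D.vm_one_Phi _ h2, e1, e2, vm_self_Phi, vm_self_Phi]

theorem phi_col_self (s : S) : D.phi s *ᵥ Pi.single (D.a s) 1 = 0 := by
  funext c
  simp [Matrix.mulVec_single_one, RD.phi, Matrix.col]

private theorem col_Phi (s : S) (b c : P) : (D.phi s *ᵥ Pi.single b 1) c = D.phi s c b := by
  simp [Matrix.mulVec_single_one, Matrix.col]

theorem phi_col_two {s t : S} (h : D.ip (D.a s) (D.a t) = 0) :
    D.phi s *ᵥ Pi.single (D.a t) 1 = Pi.single (D.a t) 1 := by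
  have h' : D.ip (D.a t) (D.a s) = 0 := by rw [D.ip_comm, h]
  funext c
  rw [col_Phi]
  unfold RD.phi
  rw [Matrix.of_apply, if_neg (D.ne_of_ip (by rw [h']; norm_num)), if_pos h', Pi.single_apply]

theorem phi_col_three {s t : S} (h : D.ip (D.a s) (D.a t) = -1) :
    D.phi s *ᵥ Pi.single (D.a t) 1 =
      (1 - lx) • Pi.single (D.a t) 1 + Pi.single (D.r s (D.a t)) 1 := by
  have h' : D.ip (D.a t) (D.a s) = -1 := by rw [D.ip_comm, h]
  funext c
  rw [col_Phi]
  unfold RD.phi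
  rw [Matrix.of_apply, if_neg (D.ne_of_ip (by rw [h']; norm_num)), if_neg (by rw [h']; norm_num),
    if_neg (by rw [h']; norm_num), Pi.add_apply, Pi.smul_apply, Pi.single_apply, Pi.single_apply,
    smul_eq_mul]
  split_ifs <;> simp

private theorem phi_col_one_Phi {s : S} {b : P} (h : D.ip b (D.a s) = 1) :
    D.phi s *ᵥ Pi.single b 1 = lx • Pi.single (D.r s b) 1 := by
  funext c
  rw [col_Phi]
  unfold RD.phi
  rw [Matrix.of_apply, if_neg (D.ne_of_ip (by rw [h]; norm_num)), if_neg (by rw [h]; norm_num),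
    if_pos h, Pi.smul_apply, Pi.single_apply, smul_eq_mul]
  split_ifs <;> simp

theorem phi_phi_col {s t : S} (h : D.ip (D.a s) (D.a t) = -1) :
    D.phi s *ᵥ (D.phi t *ᵥ Pi.single (D.a s) 1) = lx • Pi.single (D.a t) 1 := by
  have h' : D.ip (D.a t) (D.a s) = -1 := by rw [D.ip_comm, h]
  rw [D.phi_col_three h', Matrix.mulVec_add, Matrix.mulVec_smul, phi_col_self, smul_zero, zero_add,
    D.phi_col_one_Phi (D.ip_gam_Phi h'), ← D.r_a_comm h, D.r_r]

end RD

end Pool.Agent.Art
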