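import Pool.Agent.Art.OfTab
import Pool.Agent.Art.Phi

/-!
# From tables to Lawrence-Krammer-Paris functionals

PROOF. `evp l = ∑ l_i * lx ^ i` (`lx = 1 + X`) is compatible with `padd`, `pneg`, `pmx`, `pmix`
(`evp (pmix a b) = (1 - lx) * evp a + evp b`); `pz a = true` implies `evp a = 0`; `peq a b = true` implies
`evp a = evp b`; `(evp a).eval 0 = a.sum` (`lx.eval 0 = 1`).
`exists_lk`: `T s b = evp (tt s b)`. `c0`, `red` from `okT0`. The conditions `c1`, `c2`, `c3` are checked
entry by entry with the formula for `u ᵥ* phi s` (`RD.vecMul_phi`):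
`(T s ᵥ* phi u) b = evp (vt s u b)`, `(T s ᵥ* phi u ᵥ* phi s) b = evp (vvt s u b)`, where
`ip b (a s) = ips b s` (`IsData`; `form` of the lists: see `OfTab.lean`, prove a lemma
`ip_eq : D.ip b (D.a s) = t.ips b s` first, from `okLen`, `okS`, `okC`: `ips` is the `dot` of two lists of
length `n`), `D.r s b = rr s b`, `a s = s`. `Fits`: `ip (a s) (a u) = cc s u`.
The Boolean checks over `List.range` are turned into statements `∀ i < n, ...` by `List.all_eq_true`,
`List.mem_range`, `beq_iff_eq`, `decide_eq_true_eq`, `Bool.and_eq_true`, `Bool.or_eq_true`.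
-/

set_option autoImplicit false

namespace Pool.Agent.Art

open Matrix Polynomial

/-- The polynomial of a list, in the parameter `lx`. -/
noncomputable def evp : List ℤ → ℤ[X]
  | [] => 0
  | c :: l => C c + lx * evp l

private theorem evp_padd_LkTab (a b : List ℤ) : evp (padd a b) = evp a + evp b := by
  induction a generalizing b with
  | nil => simp [padd, evp]
  | cons x a ih =>
    cases b with
    | nil => simp [padd, evp]
    | cons y b =>
      simp only [padd, evp, ih, map_add]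
      ring

private theorem evp_pneg_LkTab (a : List ℤ) : evp (pneg a) = -evp a := by
  unfold pneg
  induction a with
  | nil => simp [evp]
  | cons x a ih =>
    simp only [List.map_cons, evp, ih, map_neg]
    ring

private theorem evp_pmx_LkTab (a : List ℤ) : evp (pmx a) = lx * evp a := by
  simp [pmx, evp]

private theorem evp_pmix_LkTab (a b : List ℤ) :
    evp (pmix a b) = (1 - lx) * evp a + evp b := by
  unfold pmix
  rw [evp_padd_LkTab, evp_padd_LkTab, evp_pneg_LkTab, evp_pmx_LkTab]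
  ring

private theorem evp_pz_LkTab (a : List ℤ) (h : pz a = true) : evp a = 0 := by
  unfold pz at h
  induction a with
  | nil => simp [evp]
  | cons x a ih =>
    simp only [List.all_cons, Bool.and_eq_true, beq_iff_eq] at h
    simp [evp, h.1, ih h.2]

private theorem evp_peq_LkTab {a b : List ℤ} (h : peq a b = true) : evp a = evp b := by
  have h1 := evp_pz_LkTab _ h
  rw [evp_padd_LkTab, evp_pneg_LkTab] at h1
  exact sub_eq_zero.1 (by rw [sub_eq_add_neg]; exact h1)

private theorem eval_evp_LkTab (a : List ℤ) : (evp a).eval 0 = a.sum := by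
  induction a with
  | nil => simp [evp]
  | cons x a ih => simp [evp, ih, lx]

private theorem dot_eq_LkTab : ∀ (n : ℕ) (a b : List ℤ), a.length = n → b.length = n →
    dot a b = ∑ i : Fin n, a.getD i 0 * b.getD i 0
  | 0, a, b, ha, _ => by
    have h : a = [] := List.length_eq_zero_iff.1 ha
    subst h
    simp [dot]
  | n + 1, [], b, ha, _ => by simp at ha
  | n + 1, x :: a, [], _, hb => by simp at hb
  | n + 1, x :: a, y :: b, ha, hb => by
    rw [dot, dot_eq_LkTab n a b (by simpa using ha) (by simpa using hb), Fin.sum_univ_succ]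
    simp

private theorem getD_mem_LkTab {α : Type*} (l : List α) (i : ℕ) (d : α) (h : i < l.length) :
    l.getD i d ∈ l := by
  rw [List.getD_eq_getElem _ _ h]
  exact List.getElem_mem h

/-- what the checks say -/
private theorem len_LkTab (t : Tab) (ht : t.Ok) :
    (∀ b < t.N, (t.v.getD b []).length = t.n) ∧ (∀ s < t.n, (t.C.getD s []).length = t.n) ∧
      t.n ≤ t.N := by
  have h := ht.1
  unfold Tab.okLen at h
  simp only [Bool.and_eq_true, beq_iff_eq, List.all_eq_true, decide_eq_true_eq] at h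
  obtain ⟨⟨⟨⟨h1, h2⟩, h3⟩, h4⟩, h5⟩ := h
  refine ⟨fun b hb => h4 _ (getD_mem_LkTab _ _ _ (by rw [h3]; exact hb)),
    fun s hs => h2 _ (getD_mem_LkTab _ _ _ (by rw [h1]; exact hs)), h5⟩

private theorem symC_LkTab (t : Tab) (ht : t.Ok) : ∀ i < t.n, ∀ j < t.n,
    t.cc i j = t.cc j i := by
  have h := ht.2.1
  unfold Tab.okC at h
  simp only [List.all_eq_true, List.mem_range, Bool.and_eq_true, beq_iff_eq] at h
  exact fun i hi j hj => (h i hi j hj).1

private theorem simp_LkTab (t : Tab) (ht : t.Ok) : ∀ i < t.n, ∀ j < t.n,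
    t.vv i j = if i = j then 1 else 0 := by
  have h := ht.2.2.1
  unfold Tab.okS at h
  simp only [List.all_eq_true, List.mem_range, beq_iff_eq] at h
  exact h

variable {t : Tab} {D : RD (Fin t.n) (Fin t.N) (Fin t.n → ℤ)}

private theorem ip_form_LkTab (ht : t.Ok) (hD : t.IsData D) (b : Fin t.N) (s : Fin t.n) :
    D.ip b (D.a s) = ∑ i : Fin t.n, t.vv b i * t.cc i s := by
  obtain ⟨h1, -, h3, h4, -⟩ := hD
  unfold RD.ip
  rw [h1, Tab.form_apply]
  refine Finset.sum_congr rfl fun i _ => ?_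
  rw [Finset.sum_eq_single s]
  · rw [h3, h3, h4, simp_LkTab t ht s s.2 s s.2, if_pos rfl, mul_one]
  · intro j _ hj
    rw [h3 (D.a s) j, h4, simp_LkTab t ht s s.2 j j.2, if_neg, mul_zero]
    intro h
    exact hj (Fin.ext h).symm
  · intro h
    exact absurd (Finset.mem_univ _) h

private theorem ip_eq_LkTab (ht : t.Ok) (hD : t.IsData D) (b : Fin t.N) (s : Fin t.n) :
    D.ip b (D.a s) = t.ips b s := by
  rw [ip_form_LkTab ht hD]
  unfold Tab.ips
  obtain ⟨l1, l2, -⟩ := len_LkTab t ht
  rw [dot_eq_LkTab t.n _ _ (l1 b b.2) (l2 s s.2)]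
  refine Finset.sum_congr rfl fun i _ => ?_
  rw [symC_LkTab t ht i i.2 s s.2]
  rfl

private theorem fit_LkTab (ht : t.Ok) (hD : t.IsData D) (s u : Fin t.n) :
    D.ip (D.a s) (D.a u) = t.cc s u := by
  rw [ip_form_LkTab ht hD, Finset.sum_eq_single s]
  · rw [hD.2.2.2.1 s, simp_LkTab t ht s s.2 s s.2, if_pos rfl, one_mul]
  · intro j _ hj
    rw [hD.2.2.2.1 s, simp_LkTab t ht s s.2 j j.2, if_neg, zero_mul]
    intro h
    exact hj (Fin.ext h).symm
  · intro h
    exact absurd (Finset.mem_univ _) h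

private theorem eq_a_LkTab (hD : t.IsData D) (b : Fin t.N) (s : Fin t.n) :
    b = D.a s ↔ (b : ℕ) = s := by
  rw [← hD.2.2.2.1 s]
  exact Fin.ext_iff

private theorem vt_LkTab (ht : t.Ok) (hD : t.IsData D) (s u : Fin t.n) (b : Fin t.N) :
    ((fun b : Fin t.N => evp (t.tt s b)) ᵥ* D.phi u) b = evp (t.vt s u b) := by
  rw [RD.vecMul_phi]
  unfold Tab.vt
  simp only [eq_a_LkTab hD, ip_eq_LkTab ht hD, hD.2.2.2.2]
  split_ifs
  · rfl
  · rfl
  · rw [evp_pmx_LkTab]
  · rw [evp_pmix_LkTab]

private theorem vvt_LkTab (ht : t.Ok) (hD : t.IsData D) (s u : Fin t.n) (b : Fin t.N) :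
    (((fun b : Fin t.N => evp (t.tt s b)) ᵥ* D.phi u) ᵥ* D.phi s) b = evp (t.vvt s u b) := by
  rw [RD.vecMul_phi]
  unfold Tab.vvt
  simp only [eq_a_LkTab hD, ip_eq_LkTab ht hD, vt_LkTab ht hD, hD.2.2.2.2]
  split_ifs
  · rfl
  · rfl
  · rw [evp_pmx_LkTab]
  · rw [evp_pmix_LkTab]

theorem Tab.exists_lk (t : Tab) (ht : t.Ok) {D : RD (Fin t.n) (Fin t.N) (Fin t.n → ℤ)}
    (hD : t.IsData D) (M : CoxeterMatrix (Fin t.n))
    (hM : ∀ i j, i ≠ j → (M i j = 3 ∧ t.cc i j = -1) ∨ (M i j = 2 ∧ t.cc i j = 0)) :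
    D.Fits M ∧ ∃ K : LK D M, ∀ s b, K.T s b = evp (t.tt s b) := by
  have hne : ∀ s u : Fin t.n, (M s u = 2 ∨ M s u = 3) → s ≠ u := by
    rintro s u h rfl
    rw [M.diagonal] at h
    omega
  have h0 := ht.2.2.2.2.2.1
  unfold Tab.okT0 at h0
  simp only [List.all_eq_true, List.mem_range, Bool.and_eq_true, beq_iff_eq] at h0
  have hT := ht.2.2.2.2.2.2
  unfold Tab.okT at hT
  simp only [List.all_eq_true, List.mem_range] at hT
  refine ⟨fun s u hsu => ?_, ⟨fun s b => evp (t.tt s b), ?_, ?_, ?_, ?_, ?_⟩, fun s b => rfl⟩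
  · rw [fit_LkTab ht hD]
    exact hM s u hsu
  · intro s u
    have h1 := (h0 s s.2).1 u u.2
    have h2 := evp_peq_LkTab h1
    have h3 : ((D.a u : Fin t.N) : ℕ) = u := hD.2.2.2.1 u
    rw [h3, h2]
    by_cases h : s = u
    · subst h
      simp [evp]
    · have h' : (s : ℕ) ≠ u := fun h4 => h (Fin.ext h4)
      simp [evp, h, h']
  · intro s b
    rw [eval_evp_LkTab, (h0 s s.2).2 b b.2]
    by_cases h : b = D.a s
    · rw [if_pos h, if_pos ((eq_a_LkTab hD b s).1 h)]
    · rw [if_neg h, if_neg fun h4 => h ((eq_a_LkTab hD b s).2 h4)]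
  · intro s u hM2
    funext b
    rw [vt_LkTab ht hD]
    have hsu := hne s u (Or.inl hM2)
    have hc : t.cc s u = 0 := by
      rcases hM s u hsu with h | h
      · omega
      · exact h.2
    have h1 := hT s s.2 u u.2
    rw [if_neg fun h4 => hsu (Fin.ext h4).symm, if_pos hc] at h1
    simp only [List.all_eq_true, List.mem_range] at h1
    exact evp_peq_LkTab (h1 b b.2)
  · intro s u hM3
    funext b
    rw [vt_LkTab ht hD, vt_LkTab ht hD]
    have hsu := hne s u (Or.inr hM3)
    have hc : t.cc s u ≠ 0 := by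
      rcases hM s u hsu with h | h
      · omega
      · omega
    have h1 := hT s s.2 u u.2
    rw [if_neg fun h4 => hsu (Fin.ext h4).symm, if_neg hc] at h1
    simp only [List.all_eq_true, List.mem_range, Bool.and_eq_true] at h1
    exact evp_peq_LkTab (h1 b b.2).1
  · intro s u hM3
    funext b
    rw [vvt_LkTab ht hD, Pi.add_apply, Pi.smul_apply, Pi.smul_apply, vt_LkTab ht hD, smul_eq_mul,
      smul_eq_mul]
    have hsu := hne s u (Or.inr hM3)
    have hc : t.cc s u ≠ 0 := by
      rcases hM s u hsu with h | h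
      · omega
      · omega
    have h1 := hT s s.2 u u.2
    rw [if_neg fun h4 => hsu (Fin.ext h4).symm, if_neg hc] at h1
    simp only [List.all_eq_true, List.mem_range, Bool.and_eq_true] at h1
    rw [evp_peq_LkTab (h1 b b.2).2, evp_pmix_LkTab, evp_pmx_LkTab]

end Pool.Agent.Art
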