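import Pool.Agent.Art.OkE8
import Pool.Agent.Art.LkTab
import Pool.Agent.Art.CC4
import Pool.Agent.Art.LiPure

/-!
# The Artin group of type `E8`
-/

set_option autoImplicit false

namespace Pool.Agent.Art

open Pool.Agent.HL

/-- The form of type `E8` is positive definite. -/
theorem pdE8 (x : Fin 8 → ℤ) (hx : x ≠ 0) : 0 < tabE8.form x x := by
  have h : 60 * tabE8.form x x = 30 * (2 * x 0 - x 2) ^ 2 + 30 * (2 * x 1 - x 3) ^ 2 +
      10 * (3 * x 2 - 2 * x 3) ^ 2 + 2 * (5 * x 3 - 6 * x 4) ^ 2 + 3 * (4 * x 4 - 5 * x 5) ^ 2 +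
      5 * (3 * x 5 - 4 * x 6) ^ 2 + 10 * (2 * x 6 - 3 * x 7) ^ 2 + 30 * x 7 ^ 2 := by
    rw [tabE8.form_apply]
    have h1 : ∀ y : Fin 8 → ℤ, (∑ i : Fin 8, ∑ j : Fin 8, y i * tabE8.cc i j * y j) =
        ∑ i : Fin 8, ∑ j : Fin 8, y i * (![![2, 0, -1, 0, 0, 0, 0, 0], ![0, 2, 0, -1, 0, 0, 0, 0],
          ![-1, 0, 2, -1, 0, 0, 0, 0], ![0, -1, -1, 2, -1, 0, 0, 0], ![0, 0, 0, -1, 2, -1, 0, 0],
          ![0, 0, 0, 0, -1, 2, -1, 0], ![0, 0, 0, 0, 0, -1, 2, -1],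
          ![0, 0, 0, 0, 0, 0, -1, 2]] i j : ℤ) * y j := by
      intro y
      refine Finset.sum_congr rfl fun i _ => Finset.sum_congr rfl fun j _ => ?_
      congr 2
      revert i j
      decide
    refine (congrArg (60 * ·) (h1 x)).trans ?_
    simp only [Fin.sum_univ_eight]
    simp
    ring
  by_contra hn
  have h0 : 60 * tabE8.form x x ≤ 0 := by linarith [not_lt.1 hn]
  rw [h] at h0
  have q0 := sq_nonneg (2 * x 0 - x 2)
  have q1 := sq_nonneg (2 * x 1 - x 3)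
  have q2 := sq_nonneg (3 * x 2 - 2 * x 3)
  have q3 := sq_nonneg (5 * x 3 - 6 * x 4)
  have q4 := sq_nonneg (4 * x 4 - 5 * x 5)
  have q5 := sq_nonneg (3 * x 5 - 4 * x 6)
  have q6 := sq_nonneg (2 * x 6 - 3 * x 7)
  have q7 := sq_nonneg (x 7)
  have e0 := pow_eq_zero_iff (two_ne_zero) |>.1
    (le_antisymm (by linarith : (2 * x 0 - x 2) ^ 2 ≤ 0) q0)
  have e1 := pow_eq_zero_iff (two_ne_zero) |>.1
    (le_antisymm (by linarith : (2 * x 1 - x 3) ^ 2 ≤ 0) q1)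
  have e2 := pow_eq_zero_iff (two_ne_zero) |>.1
    (le_antisymm (by linarith : (3 * x 2 - 2 * x 3) ^ 2 ≤ 0) q2)
  have e3 := pow_eq_zero_iff (two_ne_zero) |>.1
    (le_antisymm (by linarith : (5 * x 3 - 6 * x 4) ^ 2 ≤ 0) q3)
  have e4 := pow_eq_zero_iff (two_ne_zero) |>.1
    (le_antisymm (by linarith : (4 * x 4 - 5 * x 5) ^ 2 ≤ 0) q4)
  have e5 := pow_eq_zero_iff (two_ne_zero) |>.1
    (le_antisymm (by linarith : (3 * x 5 - 4 * x 6) ^ 2 ≤ 0) q5)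
  have e6 := pow_eq_zero_iff (two_ne_zero) |>.1
    (le_antisymm (by linarith : (2 * x 6 - 3 * x 7) ^ 2 ≤ 0) q6)
  have e7 := pow_eq_zero_iff (two_ne_zero) |>.1
    (le_antisymm (by linarith : (x 7) ^ 2 ≤ 0) q7)
  refine hx (funext fun i => ?_)
  fin_cases i <;> simp only [Pi.zero_apply] <;> simp <;> omega

/-- The diagram of type `E8` has no automorphisms. -/
theorem noAutE8 : RD.NoAut CoxeterMatrix.E₈ := by
  intro σ hσ h
  have h1 : ∀ a b c d : Fin 8, CoxeterMatrix.E₈ a b = 3 → CoxeterMatrix.E₈ a c = 3 →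
      CoxeterMatrix.E₈ a d = 3 → b ≠ c → b ≠ d → c ≠ d → a = 3 := by decide
  have h2 : ∀ d e f : Fin 8, (CoxeterMatrix.E₈ 3 d = 3 ∧ CoxeterMatrix.E₈ d e = 3 ∧ e ≠ 3 ∧
      CoxeterMatrix.E₈ e f = 3 ∧ f ≠ d) → d = 4 ∧ e = 5 ∧ f = 6 := by decide
  have h5 : ∀ g : Fin 8, CoxeterMatrix.E₈ 6 g = 3 → g ≠ 5 → g = 7 := by decide
  have h3 : ∀ c z : Fin 8, CoxeterMatrix.E₈ 3 c = 3 → c ≠ 4 → CoxeterMatrix.E₈ c z = 3 →
      z ≠ 3 → c = 2 ∧ z = 0 := by decide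
  have h4 : ∀ b : Fin 8, CoxeterMatrix.E₈ 3 b = 3 → b ≠ 4 → b ≠ 2 → b = 1 := by decide
  have e3 : σ 3 = 3 := h1 _ (σ 1) (σ 2) (σ 4) (by rw [h]; decide) (by rw [h]; decide)
    (by rw [h]; decide) (hσ.ne (by decide)) (hσ.ne (by decide)) (hσ.ne (by decide))
  obtain ⟨e4, e5, e6⟩ := h2 (σ 4) (σ 5) (σ 6) ⟨by rw [← e3, h]; decide,
    by rw [h]; decide, by rw [← e3]; exact hσ.ne (by decide), by rw [h]; decide,
    hσ.ne (by decide)⟩
  have e7 := h5 (σ 7) (by rw [← e6, h]; decide) (by rw [← e5]; exact hσ.ne (by decide))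
  obtain ⟨e2, e0⟩ := h3 (σ 2) (σ 0) (by rw [← e3, h]; decide)
    (by rw [← e4]; exact hσ.ne (by decide)) (by rw [h]; decide)
    (by rw [← e3]; exact hσ.ne (by decide))
  have e1 := h4 (σ 1) (by rw [← e3, h]; decide) (by rw [← e4]; exact hσ.ne (by decide))
    (by rw [← e2]; exact hσ.ne (by decide))
  intro s
  fin_cases s
  · exact e0
  · exact e1
  · exact e2
  · exact e3
  · exact e4
  · exact e5
  · exact e6
  · exact e7

theorem cc_E8 : ∀ i j : Fin 8, i ≠ j → (CoxeterMatrix.E₈ i j = 3 ∧ tabE8.cc i j = -1) ∨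
    (CoxeterMatrix.E₈ i j = 2 ∧ tabE8.cc i j = 0) := by
  decide

theorem vv_E8 : ∀ s i : Fin 8, tabE8.vv s i = if i = s then 1 else 0 := by
  decide

theorem hierL_E8 : HierL (Artin CoxeterMatrix.E₈) := by
  obtain ⟨D, hD⟩ := tabE8.exists_rd okE8
  obtain ⟨hM, K, -⟩ := tabE8.exists_lk okE8 hD CoxeterMatrix.E₈ cc_E8
  have hsp : Submodule.span ℤ (Set.range fun s => D.v (D.a s)) = ⊤ := by
    have h1 : (fun s => D.v (D.a s)) = fun s => (Pi.basisFun ℤ (Fin tabE8.n)) s := by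
      funext s
      funext i
      rw [hD.2.2.1 (D.a s) i, hD.2.2.2.1 s, Pi.basisFun_apply, Pi.single_apply]
      exact vv_E8 s i
    rw [h1]
    exact (Pi.basisFun ℤ (Fin tabE8.n)).span_eq
  have hpd : ∀ x : Fin 8 → ℤ, x ≠ 0 → 0 < D.B x x := by
    intro x hx
    rw [hD.1]
    exact pdE8 x hx
  exact K.hierL_of_data hM (D.finite_range_w hsp hM) 7
    (RD.adapted8 D hpd hsp hM noAutE8)

end Pool.Agent.Art
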