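import Pool.Agent.Art.E8N
import Pool.Agent.Art.LiPure

/-!
# The Lawrence-Krammer-Paris datum of type `E8`

The equations between the polynomials `T s b` (in `x`) are checked at `x = 256`; this is enough
because all coefficients are small.
-/

set_option autoImplicit false

namespace Pool.Agent.Art.E8

open Polynomial Matrix

/-- bounded coefficients -/
def Bd (K : ℤ) (p : ℤ[X]) : Prop := ∀ i, |p.coeff i| ≤ K

theorem Bd.mono {K K' : ℤ} {p : ℤ[X]} (h : Bd K p) (hK : K ≤ K') : Bd K' p :=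
  fun i => (h i).trans hK

theorem Bd.zero : Bd 0 0 := fun i => by simp

theorem Bd.add {K K' : ℤ} {p q : ℤ[X]} (h : Bd K p) (h' : Bd K' q) : Bd (K + K') (p + q) :=
  fun i => by
    rw [coeff_add]
    exact (abs_add_le _ _).trans (add_le_add (h i) (h' i))

theorem Bd.neg {K : ℤ} {p : ℤ[X]} (h : Bd K p) : Bd K (-p) := fun i => by
  rw [coeff_neg, abs_neg]
  exact h i

theorem Bd.sub {K K' : ℤ} {p q : ℤ[X]} (h : Bd K p) (h' : Bd K' q) : Bd (K + K') (p - q) := by
  rw [sub_eq_add_neg]
  exact h.add h'.neg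

theorem Bd.nonneg {K : ℤ} {p : ℤ[X]} (h : Bd K p) : 0 ≤ K := (abs_nonneg _).trans (h 0)

theorem Bd.X_mul {K : ℤ} {p : ℤ[X]} (h : Bd K p) : Bd K (X * p) := by
  intro i
  cases i with
  | zero => rw [coeff_X_mul_zero, abs_zero]; exact h.nonneg
  | succ i => rw [coeff_X_mul]; exact h i

theorem Bd.omx {K : ℤ} {p : ℤ[X]} (h : Bd K p) : Bd (K + K) ((1 - X) * p) := by
  rw [sub_mul, one_mul]
  exact h.sub h.X_mul

/-- a polynomial with small coefficients which vanishes at `256` is zero -/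
theorem eq_zero_of_eval {p : ℤ[X]} (h : Bd 100 p) (h0 : p.eval 256 = 0) : p = 0 := by
  obtain ⟨n, hn⟩ : ∃ n, p.natDegree ≤ n := ⟨_, le_rfl⟩
  induction n generalizing p with
  | zero =>
    have h1 := eq_C_of_natDegree_le_zero hn
    rw [h1, eval_C] at h0
    rw [h1, h0, C_0]
  | succ n ih =>
    have h1 := divX_mul_X_add p
    have h2 : p.eval 256 = (divX p).eval 256 * 256 + p.coeff 0 := by
      conv_lhs => rw [← h1]
      rw [eval_add, eval_mul, eval_X, eval_C]
    have h3 := abs_le.1 (h 0)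
    have h4 : p.coeff 0 = 0 := by omega
    have h5 : (divX p).eval 256 = 0 := by omega
    have h6 : divX p = 0 := by
      refine ih ?_ h5 ?_
      · intro i
        rw [coeff_divX]
        exact h _
      · rw [natDegree_divX_eq_natDegree_tsub_one]
        omega
    rw [← h1, h6, h4, zero_mul, C_0, add_zero]

theorem eq_of_eval {K K' : ℤ} {p q : ℤ[X]} (h : Bd K p) (h' : Bd K' q) (hK : K + K' ≤ 100)
    (h0 : p.eval 256 = q.eval 256) : p = q := by
  rw [← sub_eq_zero]
  refine eq_zero_of_eval ((h.sub h').mono hK) ?_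
  rw [eval_sub, h0, sub_self]

/-- the polynomial of a number -/
noncomputable def dec : ℕ → ℤ → ℤ[X]
  | 0, _ => 0
  | n + 1, z => C (rem z) + X * dec n (quo z)

theorem dec_spec (n : ℕ) : ∀ z, okd n z = true → Bd 3 (dec n z) ∧ (dec n z).eval 256 = z ∧
    (dec n z).eval 1 = sd n z := by
  induction n with
  | zero =>
    intro z h
    have h1 : z = 0 := by simpa [okd] using h
    refine ⟨Bd.zero.mono (by norm_num), ?_, ?_⟩
    · rw [dec, eval_zero, h1]
    · rw [dec, eval_zero, sd]
  | succ n ih =>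
    intro z h
    simp only [okd, Bool.and_eq_true, decide_eq_true_eq] at h
    obtain ⟨⟨h1, h2⟩, h3⟩ := h
    obtain ⟨h4, h5, h6⟩ := ih _ h3
    refine ⟨?_, ?_, ?_⟩
    · intro i
      rw [dec, coeff_add]
      cases i with
      | zero =>
        rw [coeff_C_zero, coeff_X_mul_zero, add_zero]
        exact abs_le.2 ⟨h1, h2⟩
      | succ i =>
        rw [coeff_C_succ, coeff_X_mul, zero_add]
        exact h4 i
    · rw [dec, eval_add, eval_mul, eval_C, eval_X, h5]
      unfold rem quo
      omega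
    · rw [dec, eval_add, eval_mul, eval_C, eval_X, h6, one_mul, sd]

/-- the polynomials in `x` -/
noncomputable def tp (s : Fin 8) (b : Fin 120) : ℤ[X] := dec 31 (N s b)

theorem tp_bd (s : Fin 8) (b : Fin 120) : Bd 3 (tp s b) := (dec_spec 31 _ (t_okd s b)).1

theorem tp_eval (s : Fin 8) (b : Fin 120) : (tp s b).eval 256 = N s b :=
  (dec_spec 31 _ (t_okd s b)).2.1

theorem tp_eval1 (s : Fin 8) (b : Fin 120) : (tp s b).eval 1 = if b = aF s then 1 else 0 := by
  rw [tp, (dec_spec 31 _ (t_okd s b)).2.2, t_sd]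

/-- the action on functionals -/
noncomputable def Fp (t : Fin 8) (u : Fin 120 → ℤ[X]) (b : Fin 120) : ℤ[X] :=
  if b = aF t then 0
  else if L (vF b) t = 0 then u b
  else if L (vF b) t = 1 then X * u (rF t b)
  else (1 - X) * u b + u (rF t b)

theorem Fp_bd {K : ℤ} (t : Fin 8) {u : Fin 120 → ℤ[X]} (h : ∀ b, Bd K (u b)) (b : Fin 120) :
    Bd (3 * K) (Fp t u b) := by
  have hK := (h 0).nonneg
  unfold Fp
  split_ifs
  · exact Bd.zero.mono (by omega)
  · exact (h b).mono (by omega)
  · exact ((h _).X_mul).mono (by omega)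
  · exact (((h b).omx).add (h _)).mono (by omega)

theorem Fp_eval (t : Fin 8) {u : Fin 120 → ℤ[X]} {z : Fin 120 → ℤ}
    (h : ∀ b, (u b).eval 256 = z b) (b : Fin 120) : (Fp t u b).eval 256 = Fz t z b := by
  unfold Fp Fz
  split_ifs
  · exact eval_zero
  · exact h b
  · rw [eval_mul, eval_X, h]
  · rw [eval_add, eval_mul, eval_sub, eval_one, eval_X, h, h]

theorem tp_c0 (s t : Fin 8) : tp s (aF t) = if s = t then 1 else 0 := by
  refine eq_of_eval (tp_bd s _) (K' := 1) ?_ (by norm_num) ?_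
  · intro i
    split_ifs
    · rw [coeff_one]
      split_ifs <;> simp
    · simp
  · rw [tp_eval, t_c0]
    split_ifs <;> simp

theorem tp_c1 (s t : Fin 8) (h : CoxeterMatrix.E₈ s t = 2) (b : Fin 120) :
    Fp t (tp s) b = tp s b := by
  refine eq_of_eval (Fp_bd t (tp_bd s) b) (tp_bd s b) (by norm_num) ?_
  rw [Fp_eval t (tp_eval s), tp_eval, t_c1 s t h]

theorem tp_c2 (s t : Fin 8) (h : CoxeterMatrix.E₈ s t = 3) (b : Fin 120) :
    Fp s (tp t) b = Fp t (tp s) b := by
  refine eq_of_eval (Fp_bd s (tp_bd t) b) (Fp_bd t (tp_bd s) b) (by norm_num) ?_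
  rw [Fp_eval t (tp_eval s), Fp_eval s (tp_eval t), t_c2 s t h]

theorem tp_c3 (s t : Fin 8) (h : CoxeterMatrix.E₈ s t = 3) (b : Fin 120) :
    Fp s (Fp t (tp s)) b = (1 - X) * Fp t (tp s) b + X * tp t b := by
  refine eq_of_eval (Fp_bd s (Fp_bd t (tp_bd s)) b)
    (((Fp_bd t (tp_bd s) b).omx).add ((tp_bd t b).X_mul)) (by norm_num) ?_
  rw [Fp_eval s (Fp_eval t (tp_eval s)), t_c3 s t h, eval_add, eval_mul, eval_mul, eval_sub,
    eval_one, eval_X, Fp_eval t (tp_eval s), tp_eval]

/-- the substitution `x = 1 + X` -/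
noncomputable def sub : ℤ[X] →+* ℤ[X] := compRingHom lx

theorem sub_X : sub X = lx := by
  rw [sub, coe_compRingHom_apply, X_comp]

/-- the functionals -/
noncomputable def T (s : Fin 8) (b : Fin 120) : ℤ[X] := sub (tp s b)

theorem vm_sub (t : Fin 8) (u : Fin 120 → ℤ[X]) :
    (fun b => sub (u b)) ᵥ* D.phi t = fun b => sub (Fp t u b) := by
  funext b
  rw [D.vecMul_phi]
  have h1 : D.ip b (D.a t) = L (vF b) t := ip_simple b t
  rw [h1]
  unfold Fp
  change (if b = aF t then 0 else if L (vF b) t = 0 then sub (u b) else if L (vF b) t = 1 then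
    lx * sub (u (rF t b)) else (1 - lx) * sub (u b) + sub (u (rF t b))) = _
  split_ifs
  · rw [map_zero]
  · rfl
  · rw [map_mul, sub_X]
  · rw [map_add, map_mul, map_sub, map_one, sub_X]

/-- The datum of type `E8`. -/
noncomputable def K : LK D CoxeterMatrix.E₈ where
  T := T
  c0 := fun s t => by
    change sub (tp s (aF t)) = _
    rw [tp_c0]
    split_ifs
    · exact map_one _
    · exact map_zero _
  red := fun s b => by
    change (sub (tp s b)).eval 0 = if b = aF s then 1 else 0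
    rw [sub, coe_compRingHom_apply, eval_comp]
    have h : (lx : ℤ[X]).eval 0 = 1 := by simp [lx]
    rw [h, tp_eval1]
  c1 := fun s t h => by
    have h1 := vm_sub t (tp s)
    change (fun b => sub (tp s b)) ᵥ* D.phi t = fun b => sub (tp s b)
    rw [h1]
    funext b
    rw [tp_c1 s t h]
  c2 := fun s t h => by
    change (fun b => sub (tp t b)) ᵥ* D.phi s = (fun b => sub (tp s b)) ᵥ* D.phi t
    rw [vm_sub, vm_sub]
    funext b
    rw [tp_c2 s t h]
  c3 := fun s t h => by
    change ((fun b => sub (tp s b)) ᵥ* D.phi t) ᵥ* D.phi s =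
      (1 - lx) • ((fun b => sub (tp s b)) ᵥ* D.phi t) + lx • fun b => sub (tp t b)
    rw [vm_sub, vm_sub]
    funext b
    rw [tp_c3 s t h, Pi.add_apply, Pi.smul_apply, Pi.smul_apply, smul_eq_mul, smul_eq_mul,
      map_add, map_mul, map_mul, map_sub, map_one, sub_X]

theorem hierL_E8 : Pool.Agent.HL.HierL (Artin CoxeterMatrix.E₈) :=
  K.hierL_of_data fits hfin 7 adapted

end Pool.Agent.Art.E8
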