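import Pool.Agent.Art.E8T

/-!
# The root datum of type `E8`
-/

set_option autoImplicit false

namespace Pool.Agent.Art.E8

/-- the form -/
def form : (Fin 8 → ℤ) →+ (Fin 8 → ℤ) →+ ℤ :=
  AddMonoidHom.mk' (fun x => AddMonoidHom.mk' (fun y => ∑ s, L x s * y s) (by
    intro y z
    rw [← Finset.sum_add_distrib]
    exact Finset.sum_congr rfl fun s _ => mul_add _ _ _)) (by
    intro x y
    ext z
    simp only [AddMonoidHom.mk'_apply, AddMonoidHom.add_apply, L, Fin.sum_univ_eight, Pi.add_apply]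
    simp
    ring)

theorem form_apply (x y : Fin 8 → ℤ) : form x y = ∑ s, L x s * y s := rfl

theorem form_symm (x y : Fin 8 → ℤ) : form x y = form y x := by
  rw [form_apply, form_apply]
  simp only [L, Fin.sum_univ_eight]
  simp
  ring

theorem form_sq (x : Fin 8 → ℤ) : 60 * form x x =
    30 * (2 * x 7 - x 6) ^ 2 + 10 * (3 * x 6 - 2 * x 5) ^ 2 + 5 * (4 * x 5 - 3 * x 4) ^ 2 +
      3 * (5 * x 4 - 4 * x 3) ^ 2 + 30 * (2 * x 0 - x 2) ^ 2 + 10 * (3 * x 2 - 2 * x 3) ^ 2 +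
      30 * (2 * x 1 - x 3) ^ 2 + 2 * x 3 ^ 2 := by
  rw [form_apply]
  simp only [L, Fin.sum_univ_eight]
  simp
  ring

theorem form_pd (x : Fin 8 → ℤ) (hx : x ≠ 0) : 0 < form x x := by
  by_contra hcon
  have h := form_sq x
  have h1 := sq_nonneg (2 * x 7 - x 6)
  have h2 := sq_nonneg (3 * x 6 - 2 * x 5)
  have h3 := sq_nonneg (4 * x 5 - 3 * x 4)
  have h4 := sq_nonneg (5 * x 4 - 4 * x 3)
  have h5 := sq_nonneg (2 * x 0 - x 2)
  have h6 := sq_nonneg (3 * x 2 - 2 * x 3)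
  have h7 := sq_nonneg (2 * x 1 - x 3)
  have h8 := sq_nonneg (x 3)
  have e1 : (2 * x 7 - x 6) ^ 2 = 0 := by linarith
  have e2 : (3 * x 6 - 2 * x 5) ^ 2 = 0 := by linarith
  have e3 : (4 * x 5 - 3 * x 4) ^ 2 = 0 := by linarith
  have e4 : (5 * x 4 - 4 * x 3) ^ 2 = 0 := by linarith
  have e5 : (2 * x 0 - x 2) ^ 2 = 0 := by linarith
  have e6 : (3 * x 2 - 2 * x 3) ^ 2 = 0 := by linarith
  have e7 : (2 * x 1 - x 3) ^ 2 = 0 := by linarith
  have e8 : x 3 ^ 2 = 0 := by linarith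
  rw [sq_eq_zero_iff] at e1 e2 e3 e4 e5 e6 e7 e8
  apply hx
  funext i
  change x i = 0
  fin_cases i
  · change x 0 = 0; omega
  · change x 1 = 0; omega
  · change x 2 = 0; omega
  · change x 3 = 0; omega
  · change x 4 = 0; omega
  · change x 5 = 0; omega
  · change x 6 = 0; omega
  · change x 7 = 0; omega

theorem v_simple (s : Fin 8) : vF (aF s) = Pi.single s 1 := by
  funext t
  rw [t_simple, Pi.single_apply]

theorem form_simple (x : Fin 8 → ℤ) (s : Fin 8) : form x (vF (aF s)) = L x s := by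
  rw [form_apply, v_simple, Finset.sum_eq_single s]
  · rw [Pi.single_eq_same, mul_one]
  · intro t _ h
    rw [Pi.single_eq_of_ne h, mul_zero]
  · intro h
    exact absurd (Finset.mem_univ s) h

/-- the height -/
def ht : (Fin 8 → ℤ) →+ ℤ :=
  AddMonoidHom.mk' (fun x => ∑ s, x s) fun _ _ => Finset.sum_add_distrib

theorem v_inj : Function.Injective vF := by
  intro b c h
  refine t_inj b c fun s => ?_
  have h1 := congrFun h s
  exact Int.ofNat.inj h1

theorem r_ne (s : Fin 8) (b : Fin 120) (h : b ≠ aF s) :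
    vF (rF s b) = vF b - form (vF b) (vF (aF s)) • vF (aF s) := by
  funext t
  rw [t_ne s b h t, form_simple, Pi.sub_apply, Pi.smul_apply, t_simple, smul_eq_mul]

theorem bnd (b c : Fin 120) (h : b ≠ c) :
    -1 ≤ form (vF b) (vF c) ∧ form (vF b) (vF c) ≤ 1 := by
  have hb : form (vF b) (vF b) = 2 := t_norm b
  have hc : form (vF c) (vF c) = 2 := t_norm c
  have h1 : vF b - vF c ≠ 0 := fun h1 => h (v_inj (sub_eq_zero.1 h1))
  have h2 : vF b + vF c ≠ 0 := by
    intro h2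
    have h3 := congrArg ht h2
    rw [map_add, map_zero] at h3
    have h4 : 1 ≤ ht (vF b) := t_pos b
    have h5 : 1 ≤ ht (vF c) := t_pos c
    omega
  have h3 := form_pd _ h1
  have h4 := form_pd _ h2
  simp only [map_add, map_sub, AddMonoidHom.add_apply, AddMonoidHom.sub_apply, hb, hc,
    form_symm (vF c) (vF b)] at h3 h4
  constructor <;> omega

/-- The root datum `E8`. -/
def D : RD (Fin 8) (Fin 120) (Fin 8 → ℤ) where
  B := form
  h := ht
  v := vF
  a := aF
  r := rF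
  symm := form_symm
  norm := t_norm
  inj := v_inj
  inja := fun s t h => by
    have h2 : (aF s).1 = (aF t).1 := congrArg Fin.val h
    exact Fin.ext h2
  ha := fun s => by
    change ∑ t, vF (aF s) t = 1
    rw [v_simple]
    simp
  hpos := t_pos
  r_self := fun s => Fin.ext (t_self s)
  r_ne := r_ne
  bnd := bnd
  desc := fun b h => by
    obtain ⟨s, hs⟩ := t_desc b h
    exact ⟨s, by rw [form_simple, hs]⟩

theorem ip_simple (b : Fin 120) (s : Fin 8) : D.ip b (D.a s) = L (vF b) s := form_simple _ _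

theorem fits : D.Fits CoxeterMatrix.E₈ := by
  intro s t h
  rw [ip_simple]
  revert s t h
  decide +kernel

theorem span_simple : Submodule.span ℤ (Set.range fun s => D.v (D.a s)) = ⊤ := by
  have h : (fun s => D.v (D.a s)) = Pi.basisFun ℤ (Fin 8) := by
    funext s
    rw [Pi.basisFun_apply]
    exact v_simple s
  rw [h]
  exact (Pi.basisFun ℤ (Fin 8)).span_eq

private theorem na1 : ∀ x y z w : Fin 8, y ≠ z → y ≠ w → z ≠ w → CoxeterMatrix.E₈ x y = 3 →
    CoxeterMatrix.E₈ x z = 3 → CoxeterMatrix.E₈ x w = 3 → x = 3 := by decide +kernel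

private theorem na2 : ∀ y z w u : Fin 8, (CoxeterMatrix.E₈ 3 y = 3 ∧ CoxeterMatrix.E₈ y z = 3 ∧
    z ≠ 3 ∧ CoxeterMatrix.E₈ z w = 3 ∧ w ≠ y ∧ CoxeterMatrix.E₈ w u = 3 ∧ u ≠ z) →
    (y = 4 ∧ z = 5 ∧ w = 6 ∧ u = 7) := by decide +kernel

private theorem na3 : ∀ y z : Fin 8, CoxeterMatrix.E₈ 3 y = 3 → y ≠ 4 →
    CoxeterMatrix.E₈ y z = 3 → z ≠ 3 → y = 2 ∧ z = 0 := by decide +kernel

private theorem na4 : ∀ y : Fin 8, CoxeterMatrix.E₈ 3 y = 3 → y ≠ 4 → y ≠ 2 → y = 1 := by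
  decide +kernel

theorem noAut : RD.NoAut CoxeterMatrix.E₈ := by
  intro σ hinj hM
  have hne : ∀ s t : Fin 8, s ≠ t → σ s ≠ σ t := fun s t h h' => h (hinj h')
  have h3 : ∀ s t : Fin 8, CoxeterMatrix.E₈ s t = 3 → CoxeterMatrix.E₈ (σ s) (σ t) = 3 :=
    fun s t h => (hM s t).trans h
  have e3 : σ 3 = 3 := na1 (σ 3) (σ 1) (σ 2) (σ 4) (hne _ _ (by decide)) (hne _ _ (by decide))
    (hne _ _ (by decide)) (h3 _ _ (by decide)) (h3 _ _ (by decide)) (h3 _ _ (by decide))
  have h3' : ∀ t : Fin 8, CoxeterMatrix.E₈ 3 t = 3 → CoxeterMatrix.E₈ 3 (σ t) = 3 := by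
    intro t ht
    have := h3 3 t ht
    rwa [e3] at this
  obtain ⟨e4, e5, e6, e7⟩ := na2 (σ 4) (σ 5) (σ 6) (σ 7) ⟨h3' _ (by decide),
    h3 _ _ (by decide), by rw [← e3]; exact hne _ _ (by decide), h3 _ _ (by decide),
    hne _ _ (by decide), h3 _ _ (by decide), hne _ _ (by decide)⟩
  obtain ⟨e2, e0⟩ := na3 (σ 2) (σ 0) (h3' _ (by decide)) (by rw [← e4]; exact hne _ _ (by decide))
    (h3 _ _ (by decide)) (by rw [← e3]; exact hne _ _ (by decide))
  have e1 : σ 1 = 1 := na4 (σ 1) (h3' _ (by decide)) (by rw [← e4]; exact hne _ _ (by decide))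
    (by rw [← e2]; exact hne _ _ (by decide))
  intro s
  fin_cases s
  · exact e0
  · exact e1
  · exact e2
  · exact e3
  · exact e4
  · exact e5
  · exact e6
  · exact e7

theorem adapted : D.Adapted fits 7 :=
  D.adapted8 form_pd span_simple fits noAut

theorem hfin : Finite (D.w fits).range := D.finite_range_w span_simple fits

end Pool.Agent.Art.E8
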