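import Pool.Agent.Art.RBas

/-!
# The homomorphisms from the Artin group to the automorphisms of the lattice and to the
permutations of the positive roots

PROOFS. `rho_braid`: computation. The reflection in a simple root `a s` maps `± v b` to
`± v (r s b)`, and `b` is determined by `± v b` (heights), so `perm_braid` follows from `rho_braid`.
`perm_of_w`: `w g (v b) = ± v (perm g b)`; if `w g = 1` then `perm g b = b`.
-/

set_option autoImplicit false

namespace Pool.Agent.Art

namespace RD

variable {S P V : Type} [AddCommGroup V] (D : RD S P V) {M : CoxeterMatrix S}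

/-- `x` is `v b` up to the sign -/
private def Up (x : V) (b : P) : Prop := x = D.v b ∨ x = -D.v b

private theorem up_self (b : P) : D.Up (D.v b) b := Or.inl rfl

private theorem up_neg {x : V} {b : P} (h : D.Up x b) : D.Up (-x) b := by
  rcases h with h | h
  · exact Or.inr (by rw [h])
  · exact Or.inl (by rw [h, neg_neg])

private theorem up_unique {x : V} {b c : P} (h : D.Up x b) (h' : D.Up x c) : b = c := by
  have key : ∀ b c : P, D.v b ≠ -D.v c := by
    intro b c e
    have h1 := congrArg D.h e
    rw [map_neg] at h1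
    have h2 := D.hpos b
    have h3 := D.hpos c
    omega
  rcases h with h | h <;> rcases h' with h' | h'
  · exact D.inj (h.symm.trans h')
  · exact absurd (h.symm.trans h') (key b c)
  · exact absurd (h'.symm.trans h) (key c b)
  · exact D.inj (neg_injective (h.symm.trans h'))

private theorem up_rho (s : S) {x : V} {b : P} (h : D.Up x b) : D.Up (D.rho s x) (D.r s b) := by
  have key : D.Up (D.rho s (D.v b)) (D.r s b) := by
    by_cases hb : b = D.a s
    · rw [hb, D.r_self, D.rho_self]
      exact Or.inr rfl
    · rw [D.rho_v hb]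
      exact Or.inl rfl
  rcases h with h | h
  · rw [h]
    exact key
  · rw [h, map_neg]
    exact D.up_neg key

theorem rho_braid (hM : D.Fits M) (s t : S) (_h : M s t ≠ 0) :
    alt (D.rho s) (D.rho t) (M s t) = alt (D.rho t) (D.rho s) (M s t) := by
  by_cases hst : s = t
  · rw [hst]
  · have h1 : D.B (D.v (D.a s)) (D.v (D.a s)) = 2 := D.norm _
    have h2 : D.B (D.v (D.a t)) (D.v (D.a t)) = 2 := D.norm _
    rcases hM s t hst with ⟨h3, h4⟩ | ⟨h3, h4⟩
    · have h5 : D.B (D.v (D.a s)) (D.v (D.a t)) = -1 := h4
      have h6 : D.B (D.v (D.a t)) (D.v (D.a s)) = -1 := (D.symm _ _).trans h4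
      rw [h3, alt_three, alt_three]
      refine LinearEquiv.ext fun y => ?_
      simp only [LinearEquiv.mul_apply, rho_apply, map_sub, map_zsmul,
        h1, h2, h5, h6]
      module
    · have h5 : D.B (D.v (D.a s)) (D.v (D.a t)) = 0 := h4
      have h6 : D.B (D.v (D.a t)) (D.v (D.a s)) = 0 := (D.symm _ _).trans h4
      rw [h3, alt_two, alt_two]
      refine LinearEquiv.ext fun y => ?_
      simp only [LinearEquiv.mul_apply, rho_apply, map_sub, map_zsmul,
        h5, h6]
      module

/-- The action of the Artin group on the lattice. -/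
noncomputable def w (hM : D.Fits M) : Artin M →* (V ≃ₗ[ℤ] V) := lift D.rho (D.rho_braid hM)

theorem w_gen (hM : D.Fits M) (s : S) : D.w hM (gen M s) = D.rho s := lift_gen _ _ s

/-- The permutation `r s`. -/
def rp (s : S) : Equiv.Perm P := ⟨D.r s, D.r s, D.r_r s, D.r_r s⟩

private theorem up_alt (m : ℕ) : ∀ (s t : S) {x : V} {b : P}, D.Up x b →
    D.Up (alt (D.rho s) (D.rho t) m x) (alt (D.rp s) (D.rp t) m b) := by
  induction m with
  | zero => intro s t x b h; exact h
  | succ m ih =>
    intro s t x b h
    exact D.up_rho s (ih t s h)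

theorem perm_braid (hM : D.Fits M) (s t : S) (_h : M s t ≠ 0) :
    alt (D.rp s) (D.rp t) (M s t) = alt (D.rp t) (D.rp s) (M s t) := by
  refine Equiv.ext fun b => ?_
  have h1 := D.up_alt (M s t) s t (D.up_self b)
  have h2 := D.up_alt (M s t) t s (D.up_self b)
  rw [D.rho_braid hM s t _h] at h1
  exact D.up_unique h1 h2

/-- The action of the Artin group on the positive roots. -/
noncomputable def perm (hM : D.Fits M) : Artin M →* Equiv.Perm P := lift D.rp (D.perm_braid hM)

theorem perm_gen (hM : D.Fits M) (s : S) : D.perm hM (gen M s) = D.rp s := lift_gen _ _ s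

private theorem rho_inv (s : S) : (D.rho s)⁻¹ = D.rho s := by
  rw [inv_eq_iff_mul_eq_one]
  refine LinearEquiv.ext fun y => ?_
  exact D.rho_rho s y

private theorem rp_inv (s : S) : (D.rp s)⁻¹ = D.rp s := by
  rw [inv_eq_iff_mul_eq_one]
  refine Equiv.ext fun b => ?_
  exact D.r_r s b

private theorem up_w (hM : D.Fits M) (g : Artin M) :
    ∀ {x : V} {b : P}, D.Up x b → D.Up (D.w hM g x) (D.perm hM g b) := by
  refine artin_induction (P := fun g => ∀ {x : V} {b : P}, D.Up x b →
    D.Up (D.w hM g x) (D.perm hM g b)) g ?_ ?_ ?_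
  · intro x b h
    rw [map_one, map_one]
    exact h
  · intro s g ih x b h
    rw [map_mul, map_mul, w_gen, perm_gen]
    exact ih (D.up_rho s h)
  · intro s g ih x b h
    rw [map_mul, map_mul, map_inv, map_inv, w_gen, perm_gen, rho_inv, rp_inv]
    exact ih (D.up_rho s h)

theorem w_v (hM : D.Fits M) (g : Artin M) (b : P) :
    D.w hM g (D.v b) = D.v (D.perm hM g b) ∨ D.w hM g (D.v b) = -D.v (D.perm hM g b) :=
  D.up_w hM g (D.up_self b)

theorem perm_of_w (hM : D.Fits M) {g : Artin M} (hg : D.w hM g = 1) : D.perm hM g = 1 := by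
  refine Equiv.ext fun b => ?_
  have h1 := D.up_w hM g (D.up_self b)
  rw [hg] at h1
  exact (D.up_unique (D.up_self b) h1).symm

theorem B_w (hM : D.Fits M) (g : Artin M) (x y : V) :
    D.B (D.w hM g x) (D.w hM g y) = D.B x y := by
  revert x y
  refine artin_induction (P := fun g => ∀ x y, D.B (D.w hM g x) (D.w hM g y) = D.B x y) g
    ?_ ?_ ?_
  · intro x y
    rw [map_one]
    rfl
  · intro s g ih x y
    rw [map_mul, w_gen]
    exact (ih _ _).trans (D.B_rho s x y)
  · intro s g ih x y
    rw [map_mul, map_inv, w_gen, rho_inv]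
    exact (ih _ _).trans (D.B_rho s x y)

end RD

end Pool.Agent.Art
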