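import Pool.Agent.Art.OfTab
import Pool.Agent.Art.WHom

/-!
# The reflection group of a table is finite

PROOF. The set `R = {v b} ∪ {-v b}` of all roots is finite (`P = Fin N`) and is mapped to itself by every
`rho s` (`RD.rho_root` in `RBas.lean`), so by the whole closure. The simple roots `v (a s) = Pi.single s 1`
(`IsData`, `okS`) generate `Fin n → ℤ`, so an element of the closure is determined by the images of
the simple roots: an injective map of the closure to the finite type of functions `Fin n → R`.
`finite_w`: the range of `D.w hM` is contained in this closure (the image of the generators: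
`MonoidHom.range_eq_map`, `closure_gen`, `MonoidHom.map_closure`, `w_gen`).
-/

set_option autoImplicit false

namespace Pool.Agent.Art

/-- The set of all roots. -/
private def allRoots {n N : ℕ} (D : RD (Fin n) (Fin N) (Fin n → ℤ)) : Set (Fin n → ℤ) :=
  Set.range D.v ∪ Set.range fun b => -D.v b

private theorem allRoots_finite {n N : ℕ} (D : RD (Fin n) (Fin N) (Fin n → ℤ)) :
    (allRoots D).Finite := (Set.finite_range _).union (Set.finite_range _)

private theorem allRoots_neg {n N : ℕ} (D : RD (Fin n) (Fin N) (Fin n → ℤ)) {x : Fin n → ℤ}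
    (hx : x ∈ allRoots D) : -x ∈ allRoots D := by
  rcases hx with ⟨b, rfl⟩ | ⟨b, rfl⟩
  · exact Or.inr ⟨b, rfl⟩
  · exact Or.inl ⟨b, by simp⟩

private theorem allRoots_rho {n N : ℕ} (D : RD (Fin n) (Fin N) (Fin n → ℤ)) (s : Fin n)
    {x : Fin n → ℤ} (hx : x ∈ allRoots D) : D.rho s x ∈ allRoots D := by
  have key : ∀ b, D.rho s (D.v b) ∈ allRoots D := by
    intro b
    rcases D.rho_root s b with ⟨c, hc⟩ | ⟨c, hc⟩
    · exact Or.inl ⟨c, hc.symm⟩
    · exact Or.inr ⟨c, hc.symm⟩
  rcases hx with ⟨b, rfl⟩ | ⟨b, rfl⟩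
  · exact key b
  · have h := allRoots_neg D (key b)
    rw [← map_neg] at h
    exact h

private theorem allRoots_closure {n N : ℕ} (D : RD (Fin n) (Fin N) (Fin n → ℤ))
    {g : (Fin n → ℤ) ≃ₗ[ℤ] (Fin n → ℤ)} (hg : g ∈ Subgroup.closure (Set.range D.rho)) :
    ∀ x ∈ allRoots D, g x ∈ allRoots D := by
  induction hg using Subgroup.closure_induction_right with
  | one => intro x hx; exact hx
  | mul_right g _ y hy ih =>
    obtain ⟨s, rfl⟩ := hy
    intro x hx
    exact ih _ (allRoots_rho D s hx)
  | mul_inv_cancel g _ y hy ih =>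
    obtain ⟨s, rfl⟩ := hy
    intro x hx
    have h1 : (D.rho s)⁻¹ = D.rho s := by
      rw [inv_eq_iff_mul_eq_one]
      exact LinearEquiv.ext fun y => D.rho_rho s y
    rw [h1]
    exact ih _ (allRoots_rho D s hx)

private theorem simple_single (t : Tab) (ht : t.Ok) {D : RD (Fin t.n) (Fin t.N) (Fin t.n → ℤ)}
    (hD : t.IsData D) (s : Fin t.n) : D.v (D.a s) = Pi.single s 1 := by
  funext i
  rw [hD.2.2.1, hD.2.2.2.1]
  have h := ht.2.2.1
  simp only [Tab.okS, List.all_eq_true, List.mem_range, beq_iff_eq] at h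
  rw [h s s.2 i i.2]
  by_cases hs : s = i
  · subst hs
    simp
  · rw [if_neg (fun h => hs (Fin.ext h)), Pi.single_eq_of_ne (Ne.symm hs)]

/-- The group generated by the simple reflections is finite. -/
theorem Tab.finite_range (t : Tab) (ht : t.Ok) {D : RD (Fin t.n) (Fin t.N) (Fin t.n → ℤ)}
    (hD : t.IsData D) : Finite (Subgroup.closure (Set.range D.rho)) := by
  have : Finite (allRoots D) := (allRoots_finite D).to_subtype
  refine Finite.of_injective (β := Fin t.n → allRoots D)
    (fun g s => ⟨g.1 (D.v (D.a s)), allRoots_closure D g.2 _ (Or.inl ⟨_, rfl⟩)⟩) ?_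
  intro g g' h
  apply Subtype.ext
  apply LinearEquiv.toLinearMap_injective
  refine LinearMap.pi_ext' fun s => LinearMap.ext_ring ?_
  have h1 := congrArg Subtype.val (congrFun h s)
  dsimp only at h1
  rw [simple_single t ht hD s] at h1
  exact h1

theorem Tab.finite_w (t : Tab) (ht : t.Ok) {D : RD (Fin t.n) (Fin t.N) (Fin t.n → ℤ)}
    (hD : t.IsData D) {M : CoxeterMatrix (Fin t.n)} (hM : D.Fits M) :
    Finite (D.w hM).range := by
  have h1 := Tab.finite_range t ht hD
  have h2 : (D.w hM).range ≤ Subgroup.closure (Set.range D.rho) := by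
    rintro _ ⟨g, rfl⟩
    refine artin_induction (P := fun g => D.w hM g ∈ Subgroup.closure (Set.range D.rho)) g
      ?_ ?_ ?_
    · rw [map_one]
      exact one_mem _
    · intro s x hx
      rw [map_mul, RD.w_gen]
      exact mul_mem hx (Subgroup.subset_closure ⟨s, rfl⟩)
    · intro s x hx
      rw [map_mul, map_inv, RD.w_gen]
      exact mul_mem hx (inv_mem (Subgroup.subset_closure ⟨s, rfl⟩))
  exact Finite.of_injective _ (Subgroup.inclusion_injective h2)

end Pool.Agent.Art
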