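import Pool.Agent.Art.SDD

/-!
# Dihedral type: `A(I m) = F (m + 1) ⋊ ℤ` (label `m + 2`)
-/

set_option autoImplicit false

namespace Pool.Agent.Art

open Pool.Agent.HL

section grp

variable {G : Type*} [Group G]

/-- alternating products with last factor `b` -/
def ralt : G → G → ℕ → G
  | _, _, 0 => 1
  | a, b, m + 1 => ralt b a m * b

theorem alt_succ_end (m : ℕ) : ∀ a b : G,
    alt a b (m + 1) = alt a b m * (if m % 2 = 0 then a else b) := by
  induction m with
  | zero => intro a b; simp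
  | succ m ih =>
    intro a b
    rw [alt_succ, ih b a, alt_succ a b m]
    have h : (if m % 2 = 0 then b else a) = if (m + 1) % 2 = 0 then a else b := by
      rcases Nat.mod_two_eq_zero_or_one m with h | h
      · rw [if_pos h, if_neg (by omega)]
      · rw [if_neg (by omega), if_pos (by omega)]
    rw [h, mul_assoc]

theorem ralt_eq (m : ℕ) : ∀ a b : G, ralt a b m = if m % 2 = 0 then alt a b m else alt b a m := by
  induction m with
  | zero => intro a b; rfl
  | succ m ih =>
    intro a b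
    rw [ralt, ih b a]
    rcases Nat.mod_two_eq_zero_or_one m with h | h
    · rw [if_pos h, if_neg (by omega), alt_succ_end, if_pos h]
    · rw [if_neg (by omega), if_pos (by omega), alt_succ_end, if_neg (by omega)]

theorem ralt_iff (m : ℕ) (a b : G) : ralt a b m = ralt b a m ↔ alt a b m = alt b a m := by
  rw [ralt_eq, ralt_eq]
  rcases Nat.mod_two_eq_zero_or_one m with h | h
  · rw [if_pos h, if_pos h]
  · rw [if_neg (by omega), if_neg (by omega)]
    exact eq_comm

theorem seq_eq {a b : G} {x : ℕ → G} {n : ℕ} (h1 : x 1 = b)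
    (hx : ∀ k < n, x (k + 1) * x (k + 1 + 1) = a * b) :
    ∀ k ≤ n, x (k + 1) = (ralt a b k)⁻¹ * ralt a b (k + 1) := by
  intro k
  induction k with
  | zero => intro _; simp [ralt, h1]
  | succ k ih =>
    intro hk
    have h2 := hx k (by omega)
    have h3 := ih (by omega)
    have h4 : ralt a b (k + 1 + 1) = ralt a b k * a * b := rfl
    have h5 : x (k + 1 + 1) = (x (k + 1))⁻¹ * (a * b) := by rw [← h2, inv_mul_cancel_left]
    rw [h5, h3, h4]
    group

/-- the braid relation from a sequence -/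
theorem alt_of_seq {a b : G} {x : ℕ → G} {n : ℕ} (h1 : x 1 = b)
    (hx : ∀ k < n, x (k + 1) * x (k + 1 + 1) = a * b) (hn : x (n + 1) = a) :
    alt a b (n + 1) = alt b a (n + 1) := by
  rw [← ralt_iff]
  have h2 := seq_eq h1 hx n le_rfl
  rw [hn, eq_inv_mul_iff_mul_eq] at h2
  rw [← h2]
  rfl

/-- the sequence from the braid relation -/
theorem seq_of_alt {a b : G} {x : ℕ → G} {n : ℕ} (h1 : x 1 = b)
    (hx : ∀ k < n, x (k + 1) * x (k + 1 + 1) = a * b)
    (h : alt a b (n + 1) = alt b a (n + 1)) : x (n + 1) = a := by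
  rw [← ralt_iff] at h
  rw [seq_eq h1 hx n le_rfl, h, inv_mul_eq_iff_eq_mul]
  rfl

/-- the sequence -/
def xI (a b : G) : ℕ → G
  | 0 => a
  | k + 1 => (xI a b k)⁻¹ * (a * b)

theorem xI_mul (a b : G) (k : ℕ) : xI a b k * xI a b (k + 1) = a * b := by
  rw [xI, mul_inv_cancel_left]

theorem xI_one (a b : G) : xI a b 1 = b := by
  rw [xI, xI, inv_mul_cancel_left]

end grp

section free

open FreeGroup

variable (m : ℕ)

/-- the generators, `1` outside the range -/
def wI (k : ℕ) : FreeGroup (Fin (m + 1)) := if h : k < m + 1 then of ⟨k, h⟩ else 1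

/-- the substitution -/
def uI (i : Fin (m + 1)) : FreeGroup (Fin (m + 1)) :=
  if i.1 = 0 then wI m m else (wI m (i.1 - 1))⁻¹ * wI m m

/-- the inverse substitution -/
def vI (i : Fin (m + 1)) : FreeGroup (Fin (m + 1)) :=
  if i.1 = m then wI m 0 else wI m 0 * (wI m (i.1 + 1))⁻¹

theorem wI_lt {k : ℕ} (h : k < m + 1) : wI m k = of ⟨k, h⟩ := dif_pos h

theorem wI_val (i : Fin (m + 1)) : wI m i.1 = of i := by rw [wI_lt m i.2]

theorem exists_cAut : ∃ f : MulAut (FreeGroup (Fin (m + 1))), ∀ k, f (of k) = uI m k := by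
  have e1 : ∀ k (h : k < m + 1), FreeGroup.lift (vI m) (wI m k) = vI m ⟨k, h⟩ := by
    intro k h
    rw [wI_lt m h, lift_apply_of]
  have e2 : ∀ k (h : k < m + 1), FreeGroup.lift (uI m) (wI m k) = uI m ⟨k, h⟩ := by
    intro k h
    rw [wI_lt m h, lift_apply_of]
  refine exists_mulAut (uI m) (vI m) (fun k => ?_) fun k => ?_
  · obtain ⟨k, hk⟩ := k
    by_cases h : k = 0
    · subst h
      have h1 : uI m ⟨0, hk⟩ = wI m m := if_pos rfl
      have h2 : vI m ⟨m, by omega⟩ = wI m 0 := if_pos rfl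
      rw [h1, e1 m (by omega), h2, wI_lt m hk]
    · have h1 : uI m ⟨k, hk⟩ = (wI m (k - 1))⁻¹ * wI m m := if_neg h
      have h2 : vI m ⟨m, by omega⟩ = wI m 0 := if_pos rfl
      have h3 : vI m ⟨k - 1, by omega⟩ = wI m 0 * (wI m (k - 1 + 1))⁻¹ :=
        if_neg (by simp only; omega)
      have h4 : k - 1 + 1 = k := by omega
      rw [h4] at h3
      rw [h1, _root_.map_mul, _root_.map_inv, e1 m (by omega), e1 (k - 1) (by omega), h2, h3,
        wI_lt m hk]
      group
  · obtain ⟨k, hk⟩ := k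
    have h0 : uI m ⟨0, by omega⟩ = wI m m := if_pos rfl
    by_cases h : k = m
    · subst h
      have h1 : vI k ⟨k, hk⟩ = wI k 0 := if_pos rfl
      rw [h1, e2 0 (by omega), h0, wI_lt k hk]
    · have h1 : vI m ⟨k, hk⟩ = wI m 0 * (wI m (k + 1))⁻¹ := if_neg h
      have h3 : uI m ⟨k + 1, by omega⟩ = (wI m (k + 1 - 1))⁻¹ * wI m m := if_neg (by simp)
      rw [Nat.add_sub_cancel] at h3
      rw [h1, _root_.map_mul, _root_.map_inv, e2 0 (by omega), e2 (k + 1) (by omega), h0, h3,
        wI_lt m hk]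
      group

/-- the automorphism -/
noncomputable def cAut : MulAut (FreeGroup (Fin (m + 1))) := (exists_cAut m).choose

theorem cAut_of (k : Fin (m + 1)) : cAut m (of k) = uI m k := (exists_cAut m).choose_spec k

theorem cAut_zero : cAut m (wI m 0) = wI m m := by
  rw [wI_lt m (by omega : 0 < m + 1), cAut_of]
  exact if_pos rfl

theorem cAut_succ {k : ℕ} (h : k ≤ m) : cAut m (wI m (k + 1)) = (wI m k)⁻¹ * wI m m := by
  by_cases h1 : k + 1 < m + 1
  · rw [wI_lt m h1, cAut_of]
    have h3 : uI m ⟨k + 1, h1⟩ = (wI m (k + 1 - 1))⁻¹ * wI m m := if_neg (by simp)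
    rwa [Nat.add_sub_cancel] at h3
  · obtain rfl : k = m := by omega
    have h2 : wI k (k + 1) = 1 := dif_neg (by omega)
    rw [h2, _root_.map_one, inv_mul_cancel]

end free

/-- the action of the infinite cyclic group -/
noncomputable def phiI (m : ℕ) : Artin (tA 1) →* MulAut (FreeGroup (Fin (m + 1))) :=
  lift (fun _ => cAut m) fun _ _ _ => rfl

theorem phiI_gen (m : ℕ) (i : Fin 1) : phiI m (gen (tA 1) i) = cAut m := lift_gen _ _ _

theorem hierL_I (hA : HierL (Artin (tA 1))) (m : ℕ) : HierL (Artin (CoxeterMatrix.I m)) := by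
  have hM : ∀ i j, CoxeterMatrix.I m i j = if i = j then 1 else m + 2 := fun i j => rfl
  obtain ⟨t, ht⟩ : ∃ t : Artin (tA 1), t = gen (tA 1) 0 := ⟨_, rfl⟩
  have hφ : phiI m t = cAut m := by rw [ht, phiI_gen]
  let g : ℕ → FreeGroup (Fin (m + 1)) ⋊[phiI m] Artin (tA 1) := fun k =>
    match k with
    | 0 => SemidirectProduct.inr t
    | k + 1 => SemidirectProduct.inl (wI m k) * SemidirectProduct.inr t
  have hg0 : g 0 = SemidirectProduct.inr t := rfl
  have hgs : ∀ k, g (k + 1) = SemidirectProduct.inl (wI m k) * SemidirectProduct.inr t :=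
    fun k => rfl
  have hg1 : g 0 * g 1 = SemidirectProduct.inl (wI m m) * SemidirectProduct.inr (t * t) := by
    rw [hg0, hgs 0]
    apply SemidirectProduct.ext
    · simp [hφ, cAut_zero]
    · simp
  have hg2 : ∀ k < m + 1, g (k + 1) * g (k + 1 + 1) = g 0 * g 1 := by
    intro k hk
    rw [hg1, hgs, hgs]
    apply SemidirectProduct.ext
    · simp [hφ, cAut_succ m (show k ≤ m by omega)]
    · simp
  have hg3 : g (m + 1 + 1) = g 0 := by
    have h2 : wI m (m + 1) = 1 := dif_neg (by omega)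
    rw [hgs, h2, map_one, one_mul]
  have hrel : alt (g 0) (g 1) (m + 2) = alt (g 1) (g 0) (m + 2) :=
    alt_of_seq (x := g) rfl hg2 hg3
  let f : Artin (CoxeterMatrix.I m) →* FreeGroup (Fin (m + 1)) ⋊[phiI m] Artin (tA 1) :=
    lift (fun i : Fin 2 => g i.1) (by
      intro i j _
      rw [hM]
      split_ifs with h
      · rw [h]
      · rcases Fin.exists_fin_two.1 ⟨i, rfl⟩ with rfl | rfl <;>
          rcases Fin.exists_fin_two.1 ⟨j, rfl⟩ with rfl | rfl
        · exact absurd rfl h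
        · exact hrel
        · exact hrel.symm
        · exact absurd rfl h)
  obtain ⟨a, ha⟩ : ∃ a, a = gen (CoxeterMatrix.I m) 0 := ⟨_, rfl⟩
  obtain ⟨b, hb⟩ : ∃ b, b = gen (CoxeterMatrix.I m) 1 := ⟨_, rfl⟩
  have hab : alt a b (m + 1 + 1) = alt b a (m + 1 + 1) := by
    have h1 := braid (CoxeterMatrix.I m) (i := 0) (j := 1) (by rw [hM]; simp)
    have h2 : CoxeterMatrix.I m 0 1 = m + 2 := by rw [hM]; simp
    rw [h2] at h1
    rw [ha, hb]
    exact h1
  have hx1 : xI a b (m + 1 + 1) = a :=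
    seq_of_alt (xI_one a b) (fun k _ => xI_mul a b (k + 1)) hab
  have hx2 : xI a b (m + 1) * a = a * b := by
    have h1 := xI_mul a b (m + 1)
    rwa [hx1] at h1
  let f1 : FreeGroup (Fin (m + 1)) →* Artin (CoxeterMatrix.I m) :=
    FreeGroup.lift fun i => xI a b (i.1 + 1) * a⁻¹
  let f2 : Artin (tA 1) →* Artin (CoxeterMatrix.I m) := lift (fun _ => a) fun _ _ _ => rfl
  have hf1 : ∀ k, k < m + 1 → f1 (wI m k) = xI a b (k + 1) * a⁻¹ := by
    intro k hk
    rw [wI_lt m hk]
    exact FreeGroup.lift_apply_of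
  have hf2 : ∀ i, f2 (gen (tA 1) i) = a := fun i => lift_gen _ _ _
  refine hierL_sd_gen (phiI m) hA f f1 f2 (fun i k => ?_) fun i => ?_
  · rw [phiI_gen, hf2, ← wI_val, hf1 _ k.2]
    obtain ⟨k, hk⟩ := k
    rcases k with _ | k
    · change f1 (cAut m (wI m 0)) = a * (xI a b 1 * a⁻¹) * a⁻¹
      rw [cAut_zero, hf1 m (by omega), xI_one]
      have h3 : xI a b (m + 1) = a * b * a⁻¹ := by rw [← hx2, mul_inv_cancel_right]
      rw [h3]
      group
    · change f1 (cAut m (wI m (k + 1))) = a * (xI a b (k + 1 + 1) * a⁻¹) * a⁻¹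
      rw [cAut_succ m (by omega), _root_.map_mul, _root_.map_inv, hf1 m (by omega),
        hf1 k (by omega)]
      have h3 : xI a b (m + 1) = a * b * a⁻¹ := by rw [← hx2, mul_inv_cancel_right]
      have h4 : xI a b (k + 1 + 1) = (xI a b (k + 1))⁻¹ * (a * b) := rfl
      rw [h3, h4]
      group
  · have h5 : f (gen (CoxeterMatrix.I m) i) = g i.1 := lift_gen _ _ _
    rw [h5]
    rcases Fin.exists_fin_two.1 ⟨i, rfl⟩ with h | h
    · rw [h]
      change f1 1 * f2 t = gen (CoxeterMatrix.I m) 0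
      rw [ht, hf2, map_one, one_mul, ha]
    · rw [h]
      have h6 : (g 1).left = wI m 0 := by rw [hgs 0]; simp
      have h7 : (g 1).right = t := by rw [hgs 0]; simp
      change f1 (g 1).left * f2 (g 1).right = gen (CoxeterMatrix.I m) 1
      rw [h6, h7, hf1 0 (by omega), ht, hf2, xI_one, inv_mul_cancel_right, hb]

end Pool.Agent.Art
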