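import Pool.Agent.Art.Inj
import Pool.Agent.Art.SDI

/-!
# Foldings: injectivity of homomorphisms between Artin groups

`J s` is a list of pairwise commuting generators, `f (gen s)` is their product.
-/

set_option autoImplicit false

namespace Pool.Agent.Art

open Matrix Polynomial

section words

variable {B : Type}

/-- alternating words -/
def altL : B → B → ℕ → List B
  | _, _, 0 => []
  | a, b, m + 1 => a :: altL b a m

theorem length_altL (m : ℕ) : ∀ a b : B, (altL a b m).length = m := by
  induction m with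
  | zero => intro a b; rfl
  | succ m ih => intro a b; rw [altL, List.length_cons, ih]

theorem wd_altL (M : CoxeterMatrix B) (m : ℕ) :
    ∀ a b : B, wd M (altL a b m) = alt (gen M a) (gen M b) m := by
  induction m with
  | zero => intro a b; rfl
  | succ m ih => intro a b; rw [altL, wd_cons, ih, alt_succ]

end words

section pull

variable {S P V : Type} [AddCommGroup V] [DecidableEq P] (D : RD S P V)

/-- the rows of the rest which vanish if the row `b` of a word with first letter `t` vanishes -/
def RD.pull1 (t : S) (b : P) : List P :=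
  if b = D.a t then []
  else if D.ip b (D.a t) = 0 then [b]
  else if D.ip b (D.a t) = 1 then [D.r t b] else [b, D.r t b]

/-- the same for a word -/
def RD.pullL (w : List S) (R : List P) : List P :=
  w.foldl (fun R t => R.flatMap (D.pull1 t)) R

variable {S' : Type} (J : S' → List S)

/-- the row sets of the folded row lemma -/
def RD.Rk (s t : S') : ℕ → List P
  | 0 => (J s).map D.a
  | k + 1 => D.pullL (J (if k % 2 = 0 then t else s)) (RD.Rk s t k)

variable [Fintype P]

theorem RD.pull1_row {t : S} {w : List S} {b : P} (h : ∀ x, D.phiW (t :: w) b x = 0) :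
    ∀ c ∈ D.pull1 t b, ∀ x, D.phiW w c x = 0 := by
  intro c hc x
  have h1 := h x
  rw [D.phiW_cons, D.phiQ_mul] at h1
  unfold RD.pull1 at hc
  split_ifs at hc h1 with h2 h3 h4
  · simp at hc
  · rw [List.mem_singleton] at hc
    rw [hc]; exact h1
  · rw [List.mem_singleton] at hc
    rw [hc]; exact h1
  · have e1 := D.phiW_nonneg w b x
    have e2 := D.phiW_nonneg w (D.r t b) x
    simp only [List.mem_cons, List.not_mem_nil, or_false] at hc
    rcases hc with rfl | rfl <;> linarith

theorem RD.pullL_row (w : List S) : ∀ (R : List P) (v : List S),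
    (∀ b ∈ R, ∀ x, D.phiW (w ++ v) b x = 0) → ∀ c ∈ D.pullL w R, ∀ x, D.phiW v c x = 0 := by
  induction w with
  | nil => intro R v h; exact h
  | cons t w ih =>
    intro R v h
    refine ih (R.flatMap (D.pull1 t)) v ?_
    intro b hb
    rw [List.mem_flatMap] at hb
    obtain ⟨c, hc, hb⟩ := hb
    exact D.pull1_row (h c hc) b hb

end pull

variable {S P V : Type} [AddCommGroup V] [DecidableEq P] [Fintype P] [DecidableEq S]
  {D : RD S P V} {M : CoxeterMatrix S} {S' : Type} {M' : CoxeterMatrix S'}

/-- The data of a folding. -/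
structure Fold (D : RD S P V) (M : CoxeterMatrix S) (M' : CoxeterMatrix S') where
  J : S' → List S
  f : Artin M' →* Artin M
  hf : ∀ s, f (gen M' s) = wd M (J s)
  ne : ∀ s, J s ≠ []
  comm : ∀ s, ∀ i ∈ J s, ∀ j ∈ J s, i ≠ j → D.ip (D.a i) (D.a j) = 0
  nz : ∀ s t, M' s t ≠ 0
  cond : ∀ s t, s ≠ t → ∀ k, 1 ≤ k → k < M' s t → ∀ j ∈ J (if k % 2 = 0 then t else s),
    D.a j ∈ D.Rk J s t k

namespace Fold

variable (Φ : Fold D M M')

/-- the folded word -/
def F (u : List S') : List S := u.flatMap Φ.J

omit [Fintype P] [DecidableEq S] in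
theorem F_cons (s : S') (u : List S') : Φ.F (s :: u) = Φ.J s ++ Φ.F u := rfl

omit [Fintype P] [DecidableEq S] in
theorem F_append (u v : List S') : Φ.F (u ++ v) = Φ.F u ++ Φ.F v := by
  simp [F]

omit [Fintype P] [DecidableEq S] in
theorem wd_F (u : List S') : wd M (Φ.F u) = Φ.f (wd M' u) := by
  induction u with
  | nil => simp [F, wd]
  | cons s u ih => rw [F_cons, wd_append, ih, wd_cons, map_mul, Φ.hf]

omit [DecidableEq S] in
/-- the rows of the first letter vanish -/
theorem row_first (s : S') (w : List S) : ∀ j ∈ Φ.J s, ∀ b, D.phiW (Φ.J s ++ w) (D.a j) b = 0 := by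
  have key : ∀ (l : List S) (j : S), j ∈ l → (∀ i ∈ l, i ≠ j → D.ip (D.a i) (D.a j) = 0) →
      ∀ b, D.phiW (l ++ w) (D.a j) b = 0 := by
    intro l
    induction l with
    | nil => intro j hj; simp at hj
    | cons i l ih =>
      intro j hj h b
      rw [List.cons_append, D.phiW_cons, D.phiQ_mul]
      by_cases h1 : j = i
      · rw [if_pos (by rw [h1])]
      · have h2 : D.ip (D.a j) (D.a i) = 0 := by
          rw [D.ip_comm]
          exact h i (by simp) (fun h3 => h1 h3.symm)
        have h3 : D.a j ≠ D.a i := fun h4 => h1 (D.inja h4)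
        rw [if_neg h3, if_pos h2]
        refine ih j ?_ (fun i' hi' => h i' (List.mem_cons_of_mem _ hi')) b
        rcases List.mem_cons.1 hj with h4 | h4
        · exact absurd h4 h1
        · exact h4
  intro j hj
  exact key (Φ.J s) j hj fun i hi hij => Φ.comm s i hi j hj hij

omit [DecidableEq S] in
theorem nil_row {s : S'} (h : ∀ j ∈ Φ.J s, ∀ b, D.phiW [] (D.a j) b = 0) : False := by
  obtain ⟨j, hj⟩ := List.exists_mem_of_ne_nil _ (Φ.ne s)
  have h1 := h j hj (D.a j)
  have h2 : D.phiW [] = 1 := by simp [RD.phiW]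
  rw [h2, Matrix.one_apply_eq] at h1
  norm_num at h1

theorem row_aux (K : LK D M) (hM : D.Fits M) (n : ℕ) : ∀ (u : List S') (s : S'),
    u.length ≤ n → (∀ j ∈ Φ.J s, ∀ b, D.phiW (Φ.F u) (D.a j) b = 0) →
    ∃ u' : List S', wd M' u = gen M' s * wd M' u' ∧ u'.length + 1 = u.length := by
  induction n with
  | zero =>
    intro u s hu h
    have h1 : u = [] := List.eq_nil_of_length_eq_zero (by omega)
    subst h1
    exact (Φ.nil_row h).elim
  | succ n ih =>
    intro u s hu h
    cases u with
    | nil => exact (Φ.nil_row h).elim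
    | cons t u₁ =>
      classical
      by_cases hts : t = s
      · exact ⟨u₁, by rw [hts, wd_cons], by rw [List.length_cons]⟩
      have hst : s ≠ t := fun e => hts e.symm
      have claim : ∀ k, k + 1 ≤ M' s t → ∃ v : List S',
          wd M' (t :: u₁) = alt (gen M' t) (gen M' s) (k + 1) * wd M' v ∧
          v.length + (k + 1) = (t :: u₁).length ∧
          ∀ b ∈ D.Rk Φ.J s t (k + 1), ∀ x, D.phiW (Φ.F v) b x = 0 := by
        intro k
        induction k with
        | zero =>
          intro _
          refine ⟨u₁, by rw [wd_cons, alt_one], by rw [List.length_cons], ?_⟩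
          refine D.pullL_row (Φ.J t) ((Φ.J s).map D.a) (Φ.F u₁) ?_
          intro b hb
          rw [List.mem_map] at hb
          obtain ⟨j, hj, rfl⟩ := hb
          exact h j hj
        | succ k ihk =>
          intro hk
          obtain ⟨v, hv1, hv2, hv3⟩ := ihk (by omega)
          have hc := Φ.cond s t hst (k + 1) (by omega) (by omega)
          obtain ⟨v', hv'1, hv'2⟩ := ih v (if (k + 1) % 2 = 0 then t else s) (by omega)
            fun j hj => hv3 _ (hc j hj)
          refine ⟨v', ?_, by omega, ?_⟩
          · rw [hv1, hv'1, alt_succ_end (k + 1), mul_assoc, apply_ite (gen M')]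
          · have h1 : D.phiW (Φ.F v) =
                D.phiW (Φ.F ((if (k + 1) % 2 = 0 then t else s) :: v')) := by
              refine K.phiW_eq hM ?_
              rw [wd_F, wd_F, hv'1, wd_cons]
            rw [h1] at hv3
            exact D.pullL_row _ _ _ hv3
      have hpos : M' s t ≠ 0 := Φ.nz s t
      obtain ⟨m, hm⟩ : ∃ m, M' s t = m + 1 := ⟨M' s t - 1, by omega⟩
      obtain ⟨v, hv1, hv2, -⟩ := claim m (by omega)
      have hb := braid M' (i := s) (j := t) hpos
      rw [hm] at hb
      refine ⟨altL t s m ++ v, ?_, ?_⟩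
      · rw [hv1, ← hb, alt_succ, wd_append, wd_altL, mul_assoc]
      · rw [List.length_append, length_altL]
        omega

private theorem psiW_cons' (K : LK D M) (s : S) (u : List S) :
    K.psiW (s :: u) = K.psi s * K.psiW u := by
  simp [LK.psiW]

private theorem psiW_append' (K : LK D M) (u v : List S) :
    K.psiW (u ++ v) = K.psiW u * K.psiW v := by
  simp [LK.psiW]

theorem psiW_eq' (K : LK D M) (hM : D.Fits M) {u v : List S} (h : wd M u = wd M v) :
    K.psiW u = K.psiW v := by
  have h1 := K.rep_wd hM u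
  rw [h, K.rep_wd hM v] at h1
  exact (Matrix.map_injective toPS_injective h1).symm

theorem isUnit_psiW (K : LK D M) (hM : D.Fits M) (u : List S) :
    IsUnit ((K.psiW u).map toPS) := by
  rw [← K.rep_wd hM]
  exact Units.isUnit _

theorem wd_aux (K : LK D M) (hM : D.Fits M) (n : ℕ) : ∀ (u v : List S'),
    u.length ≤ n → K.psiW (Φ.F u) = K.psiW (Φ.F v) → wd M' u = wd M' v := by
  induction n with
  | zero =>
    intro u v hu h
    have h1 : u = [] := List.eq_nil_of_length_eq_zero (by omega)
    subst h1
    cases v with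
    | nil => rfl
    | cons s v =>
      exfalso
      have h2 : D.phiW (Φ.F []) = D.phiW (Φ.F (s :: v)) := by
        rw [← K.psiW_map_ev, ← K.psiW_map_ev, h]
      refine Φ.nil_row (s := s) fun j hj b => ?_
      have h3 := Φ.row_first s (Φ.F v) j hj b
      rw [← F_cons, ← h2] at h3
      exact h3
  | succ n ih =>
    intro u v hu h
    cases u with
    | nil => exact ih [] v (by simp) h
    | cons s u₁ =>
      rw [List.length_cons] at hu
      have h2 : D.phiW (Φ.F (s :: u₁)) = D.phiW (Φ.F v) := by
        rw [← K.psiW_map_ev, ← K.psiW_map_ev, h]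
      obtain ⟨v', hv', -⟩ := Φ.row_aux K hM v.length v s le_rfl fun j hj b => by
        rw [← h2, F_cons]
        exact Φ.row_first s (Φ.F u₁) j hj b
      have h3 : K.psiW (Φ.F v) = K.psiW (Φ.F (s :: v')) :=
        psiW_eq' K hM (by rw [wd_F, wd_F, hv', wd_cons])
      rw [h3, F_cons, F_cons, psiW_append', psiW_append'] at h
      have h4 := congrArg (fun A : Matrix P P ℤ[X] => A.map toPS) h
      simp only [Matrix.map_mul] at h4
      have h5 : (K.psiW (Φ.F u₁)).map toPS = (K.psiW (Φ.F v')).map toPS :=
        (isUnit_psiW K hM (Φ.J s)).mul_left_cancel h4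
      have h6 : K.psiW (Φ.F u₁) = K.psiW (Φ.F v') := Matrix.map_injective toPS_injective h5
      rw [wd_cons, hv', ih u₁ v' (by omega) h6]

theorem left_dvd (K : LK D M) (hM : D.Fits M) {z : List S'} (hz : D.phiW (Φ.F z) = 0)
    (w : List S') : ∀ u : List S', ∃ (y : List S') (n : ℕ),
      wd M' u * wd M' z ^ n = wd M' w * wd M' y := by
  induction w with
  | nil =>
    intro u
    refine ⟨u, 0, ?_⟩
    rw [pow_zero, mul_one]
    simp [wd]
  | cons s w₁ ih =>
    intro u
    obtain ⟨u', hu', -⟩ := Φ.row_aux K hM (u ++ z).length (u ++ z) s le_rfl fun j _ b => by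
      rw [F_append, D.phiW_append, hz, Matrix.mul_zero, Matrix.zero_apply]
    obtain ⟨y, n, hy⟩ := ih u'
    refine ⟨y, n + 1, ?_⟩
    rw [pow_succ', ← mul_assoc, ← wd_append, hu', mul_assoc, hy, wd_cons, mul_assoc]

theorem wd_pow {B : Type} (M : CoxeterMatrix B) (z : List B) (n : ℕ) :
    wd M (List.replicate n z).flatten = wd M z ^ n := by
  induction n with
  | zero => simp [wd]
  | succ n ih => rw [List.replicate_succ, List.flatten_cons, wd_append, ih, pow_succ']

theorem exists_frac (K : LK D M) (hM : D.Fits M) {z : List S'} (hz : D.phiW (Φ.F z) = 0)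
    (g : Artin M') : ∃ u v : List S', g = wd M' u * (wd M' v)⁻¹ := by
  refine artin_induction (P := fun g => ∃ u v : List S', g = wd M' u * (wd M' v)⁻¹) g ?_ ?_ ?_
  · exact ⟨[], [], by simp [wd]⟩
  · rintro s x ⟨u, v, rfl⟩
    obtain ⟨y, n, hy⟩ := Φ.left_dvd K hM hz v [s]
    refine ⟨u ++ y, (List.replicate n z).flatten, ?_⟩
    have h1 : wd M' [s] = gen M' s := by simp [wd]
    rw [h1] at hy
    rw [wd_append, wd_pow]
    have h2 : gen M' s = wd M' v * wd M' y * (wd M' z ^ n)⁻¹ := by
      rw [← hy, mul_inv_cancel_right]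
    rw [h2]
    group
  · rintro s x ⟨u, v, rfl⟩
    refine ⟨u, s :: v, ?_⟩
    rw [wd_cons, _root_.mul_inv_rev, mul_assoc]

/-- **Foldings are injective.** -/
theorem injective (K : LK D M) (hM : D.Fits M) {z : List S'} (hz : D.phiW (Φ.F z) = 0) :
    Function.Injective Φ.f := by
  rw [injective_iff_map_eq_one]
  intro g hg
  obtain ⟨u, v, rfl⟩ := Φ.exists_frac K hM hz g
  rw [map_mul, map_inv, mul_inv_eq_one, ← wd_F, ← wd_F] at hg
  rw [Φ.wd_aux K hM u.length u v le_rfl (psiW_eq' K hM hg), mul_inv_cancel]

end Fold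

end Pool.Agent.Art
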