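import Pool.Agent.Art.Row

/-!
# Braid moves on words
-/

set_option autoImplicit false

namespace Pool.Agent.Art

variable {B : Type} [DecidableEq B] (M : CoxeterMatrix B)

/-- A braid move at the first position (if possible). -/
def mv0 : List B → List B
  | [] => []
  | [a] => [a]
  | a :: b :: w =>
    if M a b = 2 then b :: a :: w
    else if M a b = 3 ∧ w.head? = some a then b :: a :: b :: w.tail else a :: b :: w

/-- A braid move at the position `i` (if possible). -/
def mv : ℕ → List B → List B
  | 0, w => mv0 M w
  | _ + 1, [] => []
  | i + 1, a :: w => a :: mv i w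

/-- A sequence of moves. -/
def mvs (l : List ℕ) (w : List B) : List B := l.foldl (fun w i => mv M i w) w

theorem wd_mv0 (w : List B) : wd M (mv0 M w) = wd M w := by
  rcases w with _ | ⟨a, _ | ⟨b, w⟩⟩
  · rfl
  · rfl
  · have h0 : mv0 M (a :: b :: w) = if M a b = 2 then b :: a :: w
      else if M a b = 3 ∧ w.head? = some a then b :: a :: b :: w.tail else a :: b :: w := rfl
    rw [h0]
    split_ifs with h h2
    · have h1 := braid M (i := a) (j := b) (by rw [h]; norm_num)
      rw [h, alt_two, alt_two] at h1
      rw [wd_cons, wd_cons, wd_cons, wd_cons, ← mul_assoc, ← mul_assoc, h1]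
    · rcases w with _ | ⟨c, w⟩
      · simp at h2
      · obtain ⟨h2, h3⟩ := h2
        simp only [List.head?_cons, Option.some.injEq] at h3
        subst h3
        have h1 := braid M (i := c) (j := b) (by rw [h2]; norm_num)
        rw [h2, alt_three, alt_three] at h1
        simp only [wd_cons, List.tail_cons, ← mul_assoc]
        rw [← h1]
    · rfl

theorem wd_mv (i : ℕ) (w : List B) : wd M (mv M i w) = wd M w := by
  induction i generalizing w with
  | zero => exact wd_mv0 M w
  | succ i ih =>
    rcases w with _ | ⟨a, w⟩
    · rfl
    · change wd M (a :: mv M i w) = _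
      rw [wd_cons, wd_cons, ih]

theorem wd_mvs (l : List ℕ) (w : List B) : wd M (mvs M l w) = wd M w := by
  induction l generalizing w with
  | nil => rfl
  | cons i l ih =>
    change wd M (mvs M l (mv M i w)) = wd M w
    rw [ih, wd_mv]

theorem wd_eq_of_mvs (l : List ℕ) {w w' : List B} (h : mvs M l w = w') : wd M w = wd M w' := by
  rw [← h, wd_mvs]

end Pool.Agent.Art
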