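import Pool.Agent.Art.Fold
import Pool.Agent.Art.Moves

/-!
# Foldings: injectivity for a sub root system, certificates
-/

set_option autoImplicit false

namespace Pool.Agent.Art

open Matrix Polynomial

section cert

variable {S P V : Type} [AddCommGroup V] [DecidableEq P] [Fintype P] (D : RD S P V)

/-- Certificate for vanishing rows: `Z i` is a set of vanishing rows of the `i`-th suffix. -/
theorem RD.rows_cert (w : List S) (Z : ℕ → P → Bool)
    (h : ∀ i (hi : i < w.length) (b : P), Z i b = true →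
      b = D.a w[i] ∨ (D.ip b (D.a w[i]) = 0 ∧ Z (i + 1) b = true) ∨
        (D.ip b (D.a w[i]) = 1 ∧ Z (i + 1) (D.r w[i] b) = true) ∨
        (Z (i + 1) b = true ∧ Z (i + 1) (D.r w[i] b) = true))
    (hn : ∀ b, Z w.length b = false) (b : P) (hb : Z 0 b = true) (x : P) :
    D.phiW w b x = 0 := by
  have key : ∀ m i, m + i = w.length → ∀ b, Z i b = true → ∀ x, D.phiW (w.drop i) b x = 0 := by
    intro m
    induction m with
    | zero =>
      intro i hi b hb
      rw [Nat.zero_add] at hi
      rw [hi, hn] at hb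
      simp at hb
    | succ m ih =>
      intro i hi b hb x
      have hi' : i < w.length := by omega
      rw [List.drop_eq_getElem_cons hi', D.phiW_cons, D.phiQ_mul]
      have ih' := ih (i + 1) (by omega)
      by_cases h1 : b = D.a w[i]
      · rw [if_pos h1]
      rw [if_neg h1]
      rcases h i hi' b hb with h2 | ⟨h2, h3⟩ | ⟨h2, h3⟩ | ⟨h2, h3⟩
      · exact absurd h2 h1
      · rw [if_pos h2]
        exact ih' b h3 x
      · rw [if_neg (by rw [h2]; norm_num), if_pos h2]
        exact ih' _ h3 x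
      · split_ifs
        · exact ih' b h2 x
        · exact ih' _ h3 x
        · rw [ih' b h2 x, ih' _ h3 x]
          norm_num
  have h1 := key w.length 0 (by omega) b hb x
  rwa [List.drop_zero] at h1

/-- rows in a closed set -/
theorem RD.rows_append (Q : P → Prop) (w v : List S) (hQ : ∀ j ∈ w, ∀ b, Q b → Q (D.r j b))
    (hv : ∀ b, Q b → ∀ x, D.phiW v b x = 0) (b : P) (hb : Q b) (x : P) :
    D.phiW (w ++ v) b x = 0 := by
  induction w generalizing b with
  | nil => exact hv b hb x
  | cons j w ih =>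
    have ih' := ih fun i hi => hQ i (List.mem_cons_of_mem _ hi)
    rw [List.cons_append, D.phiW_cons, D.phiQ_mul]
    split_ifs
    · rfl
    · exact ih' b hb
    · exact ih' _ (hQ j (by simp) b hb)
    · rw [ih' b hb, ih' _ (hQ j (by simp) b hb)]
      norm_num

end cert

section hom

variable {B B' : Type} (M : CoxeterMatrix B) (M' : CoxeterMatrix B') (J : B' → List B)

theorem wd_fold_altL (m : ℕ) : ∀ s t : B', wd M ((altL s t m).flatMap J) =
    alt (wd M (J s)) (wd M (J t)) m := by
  induction m with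
  | zero => intro s t; simp [altL, wd]
  | succ m ih =>
    intro s t
    rw [altL, List.flatMap_cons, wd_append, ih, alt_succ]

/-- A homomorphism between Artin groups from braid moves. -/
theorem exists_fold_hom [DecidableEq B] (mt : B' → B' → List ℕ)
    (h : ∀ s t : B', s ≠ t → mvs M (mt s t) ((altL s t (M' s t)).flatMap J) =
      (altL t s (M' s t)).flatMap J) :
    ∃ f : Artin M' →* Artin M, ∀ s, f (gen M' s) = wd M (J s) := by
  refine ⟨lift (fun s => wd M (J s)) fun s t _ => ?_, fun s => lift_gen _ _ s⟩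
  by_cases hst : s = t
  · rw [hst]
  · rw [← wd_fold_altL, ← wd_fold_altL]
    exact wd_eq_of_mvs M (mt s t) (h s t hst)

end hom

namespace Fold

variable {S P V : Type} [AddCommGroup V] [DecidableEq P] [Fintype P] [DecidableEq S]
  {D : RD S P V} {M : CoxeterMatrix S} {S' : Type} {M' : CoxeterMatrix S'}
  (Φ : Fold D M M')

theorem left_dvd' (K : LK D M) (hM : D.Fits M) {z : List S'} (Q : P → Prop)
    (hQa : ∀ s, ∀ j ∈ Φ.J s, Q (D.a j)) (hQr : ∀ s, ∀ j ∈ Φ.J s, ∀ b, Q b → Q (D.r j b))
    (hz : ∀ b, Q b → ∀ x, D.phiW (Φ.F z) b x = 0)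
    (w : List S') : ∀ u : List S', ∃ (y : List S') (n : ℕ),
      wd M' u * wd M' z ^ n = wd M' w * wd M' y := by
  induction w with
  | nil =>
    intro u
    refine ⟨u, 0, ?_⟩
    rw [pow_zero, mul_one]
    simp [wd]
  | cons s w₁ ih =>
    intro u
    obtain ⟨u', hu', -⟩ := Φ.row_aux K hM (u ++ z).length (u ++ z) s le_rfl fun j hj b => by
      rw [F_append]
      refine D.rows_append Q _ _ (fun i hi => ?_) hz _ (hQa s j hj) b
      obtain ⟨t, _, ht⟩ := List.mem_flatMap.1 hi
      exact hQr t i ht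
    obtain ⟨y, n, hy⟩ := ih u'
    refine ⟨y, n + 1, ?_⟩
    rw [pow_succ', ← mul_assoc, ← wd_append, hu', mul_assoc, hy, wd_cons, mul_assoc]

/-- **Foldings are injective**, version for a sub root system. -/
theorem injective' (K : LK D M) (hM : D.Fits M) {z : List S'} (Q : P → Prop)
    (hQa : ∀ s, ∀ j ∈ Φ.J s, Q (D.a j)) (hQr : ∀ s, ∀ j ∈ Φ.J s, ∀ b, Q b → Q (D.r j b))
    (hz : ∀ b, Q b → ∀ x, D.phiW (Φ.F z) b x = 0) : Function.Injective Φ.f := by
  have hfrac : ∀ g : Artin M', ∃ u v : List S', g = wd M' u * (wd M' v)⁻¹ := by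
    intro g
    refine artin_induction (P := fun g => ∃ u v : List S', g = wd M' u * (wd M' v)⁻¹) g ?_ ?_ ?_
    · exact ⟨[], [], by simp [wd]⟩
    · rintro s x ⟨u, v, rfl⟩
      obtain ⟨y, n, hy⟩ := Φ.left_dvd' K hM Q hQa hQr hz v [s]
      refine ⟨u ++ y, (List.replicate n z).flatten, ?_⟩
      have h1 : wd M' [s] = gen M' s := by simp [wd]
      rw [h1] at hy
      rw [wd_append, wd_pow]
      have h2 : gen M' s = wd M' v * wd M' y * (wd M' z ^ n)⁻¹ := by
        rw [← hy, mul_inv_cancel_right]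
      rw [h2]
      group
    · rintro s x ⟨u, v, rfl⟩
      refine ⟨u, s :: v, ?_⟩
      rw [wd_cons, _root_.mul_inv_rev, mul_assoc]
  rw [injective_iff_map_eq_one]
  intro g hg
  obtain ⟨u, v, rfl⟩ := hfrac g
  rw [map_mul, map_inv, mul_inv_eq_one, ← wd_F, ← wd_F] at hg
  rw [Φ.wd_aux K hM u.length u v le_rfl (psiW_eq' K hM hg), mul_inv_cancel]

end Fold

end Pool.Agent.Art
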