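import Pool.Agent.Art.RBas
import Pool.Agent.Art.Blk

/-!
# Frames: combinatorics

PROOFS. Let `d` be a frame; `d i i = 0`, `d j i = -d i j`.
`fr_norm`: for `i ≠ j`: `B (d i j) (d i j) = 2`. `fr_adj`: for `i < j < k` `d i k = d i j + d j k`, the
norms give `B (d i j) (d j k) = -1`. General formula `fr_B` for `B (d i j) (d k l)`: it is the value of
`(e_i - e_j, e_k - e_l)`; derive: `d i j = ∑` consecutive differences, and for consecutive differences
use `fr_adj` and the norm of `d i (l + 1)`; alternatively: for pairwise distinct `i, j, k` one has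
`B (d i j) (d i k) = 1` (norm of `d j k = d i k - d i j`), and for pairwise distinct `i, j, k, l`
`B (d i j) (d k l) = B (d i j) (d i l) - B (d i j) (d i k) = 0` as `d k l = d i l - d i k`. That is all.
`at_of_eq`: if `d i j = v (a s)`, `i < j`, then `j = i + 1`: otherwise
`d i j = d i (i + 1) + d (i + 1) j`, contradiction to `simple_ne`.
`at_unique`: if `d i (i + 1) = v (a s) = d j (j + 1)`, `i < j`, the inner product of the two entries is
`2`, but it is `-1` or `0` by `fr_B`.
`step_frame`: if no entry `i, i + 1` is `v (a s)` then (by `at_of_eq`) no entry `i < j` is, and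
`rho_v` shows that `rho s` maps the entries `i < j` to positive roots.
`rho_of_at`: if `d i (i + 1) = v (a s)` then `rho s (d j k) = d (swp j) (swp k)`: by `fr_B`.
-/

set_option autoImplicit false

namespace Pool.Agent.Art

namespace RD

variable {S P V : Type} [AddCommGroup V] (D : RD S P V) {p : ℕ}

theorem fr_self (d : D.Fr p) (i : Fin p) : d.1 i i = 0 := by
  have h := d.2.1 i i i
  exact add_eq_left.mp h

theorem fr_neg (d : D.Fr p) (i j : Fin p) : d.1 j i = -d.1 i j := by
  have h := d.2.1 i j i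
  rw [fr_self] at h
  exact eq_neg_of_add_eq_zero_right h

theorem fr_root (d : D.Fr p) {i j : Fin p} (h : i ≠ j) :
    ∃ b, d.1 i j = D.v b ∨ d.1 i j = -D.v b := by
  rcases lt_or_gt_of_ne h with h1 | h1
  · obtain ⟨b, hb⟩ := d.2.2 i j h1
    exact ⟨b, Or.inl hb⟩
  · obtain ⟨b, hb⟩ := d.2.2 j i h1
    refine ⟨b, Or.inr ?_⟩
    rw [D.fr_neg d j i, hb]

private theorem fr_norm (d : D.Fr p) {i j : Fin p} (h : i ≠ j) :
    D.B (d.1 i j) (d.1 i j) = 2 := by
  obtain ⟨b, hb | hb⟩ := D.fr_root d h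
  · rw [hb, D.norm]
  · rw [hb, map_neg, map_neg, AddMonoidHom.neg_apply, neg_neg, D.norm]

private theorem fr_B_aux (d : D.Fr p) (i j k : Fin p) : D.B (d.1 i j) (d.1 i k) =
    1 - (if i = k then 1 else 0) - (if i = j then 1 else 0) + (if j = k then 1 else 0) := by
  by_cases hij : i = j
  · subst hij
    rw [D.fr_self, map_zero, AddMonoidHom.zero_apply]
    by_cases hik : i = k <;> simp [hik]
  by_cases hik : i = k
  · subst hik
    rw [D.fr_self, map_zero]
    have hji : j ≠ i := fun h => hij h.symm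
    simp [hij, hji]
  by_cases hjk : j = k
  · subst hjk
    rw [D.fr_norm d hij]
    simp [hij]
  have h1 : d.1 j k = d.1 i k - d.1 i j := by
    rw [← d.2.1 j i k, D.fr_neg d i j]
    abel
  have h2 := D.fr_norm d hjk
  rw [h1, map_sub, map_sub, AddMonoidHom.sub_apply, AddMonoidHom.sub_apply, D.fr_norm d hij,
    D.fr_norm d hik, D.symm (d.1 i k) (d.1 i j)] at h2
  simp only [hij, hik, hjk, if_false]
  omega

theorem fr_B (d : D.Fr p) (i j k l : Fin p) : D.B (d.1 i j) (d.1 k l) =
    (if i = k then 1 else 0) - (if i = l then 1 else 0) - (if j = k then 1 else 0) +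
      (if j = l then 1 else 0) := by
  have h1 : d.1 k l = d.1 i l - d.1 i k := by
    rw [← d.2.1 k i l, D.fr_neg d i k]
    abel
  rw [h1, map_sub, D.fr_B_aux, D.fr_B_aux]
  ring

theorem at_of_eq (d : D.Fr p) {s : S} {i j : Fin p} (hij : i < j) (h : d.1 i j = D.v (D.a s)) :
    (j : ℕ) = i + 1 ∧ D.At s d i := by
  have hj : (j : ℕ) = i + 1 := by
    by_contra hne
    have hlt : (i : ℕ) < j := hij
    have hjp := j.isLt
    have h1 : (i : ℕ) + 1 < p := by omega
    obtain ⟨b, hb⟩ := d.2.2 i ⟨i + 1, h1⟩ (Fin.mk_lt_mk.mpr (Nat.lt_succ_self _))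
    obtain ⟨c, hc⟩ := d.2.2 ⟨i + 1, h1⟩ j (Fin.lt_def.mpr (by
      change (i : ℕ) + 1 < j
      omega))
    refine D.simple_ne s b c ?_
    rw [← h, ← hb, ← hc, d.2.1]
  refine ⟨hj, ?_⟩
  have hjp := j.isLt
  refine ⟨by omega, ?_⟩
  rw [← h]
  have h2 : (⟨i + 1, by omega⟩ : Fin p) = j := Fin.ext hj.symm
  rw [h2]

theorem at_unique (d : D.Fr p) {s : S} {i j : ℕ} (hi : D.At s d i) (hj : D.At s d j) :
    i = j := by
  obtain ⟨h1, h2⟩ := hi
  obtain ⟨h3, h4⟩ := hj
  by_contra hne
  have h5 := D.fr_B d ⟨i, by omega⟩ ⟨i + 1, h1⟩ ⟨j, by omega⟩ ⟨j + 1, h3⟩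
  rw [h2, h4, D.norm] at h5
  simp only [Fin.mk.injEq] at h5
  rw [if_neg hne] at h5
  have h6 : ¬ i + 1 = j + 1 := by omega
  rw [if_neg h6] at h5
  split_ifs at h5 <;> omega

theorem step_frame (d : D.Fr p) {s : S} (h : ∀ i, ¬ D.At s d i) :
    D.IsFrame p fun i j => D.rho s (d.1 i j) := by
  refine ⟨fun i j k => ?_, fun i j hij => ?_⟩
  · rw [← map_add, d.2.1]
  · obtain ⟨b, hb⟩ := d.2.2 i j hij
    have hne : b ≠ D.a s := by
      rintro rfl
      exact h _ (D.at_of_eq d hij hb).2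
    refine ⟨D.r s b, ?_⟩
    change D.rho s (d.1 i j) = _
    rw [hb, D.rho_v hne]

theorem rho_of_at (d : D.Fr p) {s : S} {i : ℕ} (h : i + 1 < p) (hi : D.At s d i)
    (j k : Fin p) : D.rho s (d.1 j k) = d.1 (swp h j) (swp h k) := by
  obtain ⟨_, h2⟩ := hi
  have hne : (⟨i, by omega⟩ : Fin p) ≠ ⟨i + 1, h⟩ := by
    intro h0
    have := congrArg Fin.val h0
    simp at this
  have key : ∀ m : Fin p, d.1 m (swp h m) =
      ((if m = ⟨i, by omega⟩ then 1 else 0) - (if m = ⟨i + 1, h⟩ then 1 else 0) : ℤ) •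
        D.v (D.a s) := by
    intro m
    unfold swp
    by_cases hm : m = ⟨i, by omega⟩
    · subst hm
      rw [Equiv.swap_apply_left, if_pos rfl, if_neg hne, h2, sub_zero, one_smul]
    · by_cases hm' : m = ⟨i + 1, h⟩
      · subst hm'
        rw [Equiv.swap_apply_right, if_neg hm, if_pos rfl, D.fr_neg d ⟨i, by omega⟩, h2,
          zero_sub, neg_smul, one_smul]
      · rw [Equiv.swap_apply_of_ne_of_ne hm hm', if_neg hm, if_neg hm', D.fr_self, sub_zero,
          zero_smul]
  have h3 : d.1 (swp h j) (swp h k) = -d.1 j (swp h j) + d.1 j k + d.1 k (swp h k) := by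
    rw [← D.fr_neg d j, d.2.1, d.2.1]
  rw [h3, key, key, D.rho_apply, ← h2, D.fr_B]
  simp only [sub_smul]
  module

theorem frMat_at (d : D.Fr p) {s : S} {i : ℕ} (h : D.At s d i) : D.frMat s d = blk p i := by
  have h1 : ∃ i, D.At s d i := ⟨i, h⟩
  unfold frMat
  rw [dif_pos h1, D.at_unique d h1.choose_spec h]

theorem frMat_not (d : D.Fr p) {s : S} (h : ∀ i, ¬ D.At s d i) : D.frMat s d = 1 := by
  unfold frMat
  rw [dif_neg]
  rintro ⟨i, hi⟩
  exact h i hi

/-- An order preserving relabelling of a frame by a permutation is trivial. -/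
theorem fr_rigid (d d' : D.Fr p) (σ : Equiv.Perm (Fin p))
    (h : ∀ i j, d'.1 (σ i) (σ j) = d.1 i j) : σ = 1 ∧ d' = d := by
  have hmono : StrictMono σ := by
    intro i j hij
    rcases lt_trichotomy (σ i) (σ j) with h1 | h1 | h1
    · exact h1
    · exact absurd (σ.injective h1) hij.ne
    · exfalso
      obtain ⟨b, hb⟩ := d.2.2 i j hij
      obtain ⟨c, hc⟩ := d'.2.2 (σ j) (σ i) h1
      have h2 := h i j
      rw [D.fr_neg d' (σ j) (σ i), hc, hb] at h2
      have h3 := congrArg D.h h2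
      rw [map_neg] at h3
      have h4 := D.hpos b
      have h5 := D.hpos c
      omega
  have hσ : (σ : Fin p → Fin p) = id := by
    refine (StrictMono.range_inj hmono strictMono_id).1 ?_
    rw [Set.range_id]
    exact σ.surjective.range_eq
  have h1 : σ = 1 := Equiv.ext fun i => congrFun hσ i
  refine ⟨h1, ?_⟩
  refine Subtype.ext (funext fun i => funext fun j => ?_)
  have h2 := h i j
  rw [h1] at h2
  exact h2

end RD

end Pool.Agent.Art
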