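import Pool.Agent.Art.FrA
import Pool.Agent.Art.WHom

/-!
# The action of the Artin group on frames with a vector

The generator `s` acts on `(d, x)`: if `v (a s)` is the entry `i, i + 1` of `d` then
`(d, blk p i *ᵥ x)`, otherwise `(rho s d, x)`.
PROOFS. `frStep` is an involution (if no entry of `d` is `v (a s)` then none of `rho s d`: it would give
the entry `-v (a s)` of `d`), `frMat s (frStep s d) = frMat s d`, all matrices are invertible
(`isUnit_blk`). So `frPerm s` is a permutation; its inverse applies the inverse matrix.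
`frPerm_braid` (see /team-store/ARTIN.md 3.1). Write `σ = v (a s)`, `τ = v (a t)`.
Label 2 (`B σ τ = 0`): `rho s τ = τ`, `rho t σ = σ`. `At t (rho s d) i ↔ At t d i` and conversely. If both
occur, at `i` and `j`, then `i ≠ j` and `|i - j| ≥ 2` (`fr_B`: neighbours have inner product `-1`):
`blk_comm`. If only one occurs or none: direct (`rho` commute by `rho_braid`).
Label 3 (`B σ τ = -1`): `rho s τ = σ + τ = rho t σ`, `rho s (σ + τ) = τ`, `rho t (σ + τ) = σ`. So
`At t (rho s d) i ↔ d i (i + 1) = σ + τ`, `At s (rho t d) i ↔ d i (i + 1) = σ + τ`,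
`At s (rho t (rho s d)) i ↔ d i (i + 1) = τ`, `At t (rho s (rho t d)) i ↔ d i (i + 1) = σ`.
`σ + τ` and `σ` (or `τ`) are not both entries `i, i + 1`, `j, j + 1`: their inner product is `1`, but it is
`2`, `-1` or `0` by `fr_B`. Cases:
none of `σ, τ, σ + τ`: both sides `(rho s rho t rho s d, x)`;
only `σ` (at `i`): both sides `(rho s (rho t d), blk p i x)`; only `τ`: both sides
`(rho t (rho s d), blk p i x)`; only `σ + τ`: both sides `(d, blk p i x)`; `σ` and `τ`: at `i`, `j` with
inner product `-1`, so `|i - j| = 1`: `blk_braid`.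
(Composition of permutations: `(f * g) x = f (g x)`, `alt f g 3 = f * g * f`.)
-/

set_option autoImplicit false

namespace Pool.Agent.Art

open Matrix

namespace RD

variable {S P V : Type} [AddCommGroup V] (D : RD S P V) {M : CoxeterMatrix S} {p : ℕ}

open Classical in
/-- The action of a generator on frames. -/
noncomputable def frStep (s : S) (d : D.Fr p) : D.Fr p :=
  if h : ∀ i, ¬ D.At s d i then ⟨fun i j => D.rho s (d.1 i j), D.step_frame d h⟩ else d

theorem frStep_not {s : S} {d : D.Fr p} (h : ∀ i, ¬ D.At s d i) (i j : Fin p) :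
    (D.frStep s d).1 i j = D.rho s (d.1 i j) := by
  rw [frStep, dif_pos h]

theorem frStep_at {s : S} {d : D.Fr p} {i : ℕ} (h : D.At s d i) : D.frStep s d = d := by
  rw [frStep, dif_neg (fun h' => h' i h)]

private theorem frAct_rho_self (s : S) : D.rho s (D.v (D.a s)) = -D.v (D.a s) := by
  have h : D.B (D.v (D.a s)) (D.v (D.a s)) = 2 := D.norm _
  rw [rho_apply, h]
  module

private theorem frAct_rho_rho (s : S) (y : V) : D.rho s (D.rho s y) = y :=
  (D.rho s).left_inv y

/-- if no entry is the simple root then this holds also after the reflection -/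
private theorem frAct_not {s : S} {d : D.Fr p} (h : ∀ i, ¬ D.At s d i) (i : ℕ) :
    ¬ D.At s (D.frStep s d) i := by
  rintro ⟨hi, h1⟩
  rw [D.frStep_not h] at h1
  have h2 := congrArg (D.rho s) h1
  rw [D.frAct_rho_rho, D.frAct_rho_self] at h2
  obtain ⟨b, hb⟩ := d.2.2 ⟨i, by omega⟩ ⟨i + 1, hi⟩ (Fin.mk_lt_mk.2 (Nat.lt_succ_self i))
  rw [hb] at h2
  have h3 := congrArg D.h h2
  rw [map_neg, D.ha] at h3
  have h4 := D.hpos b
  omega

theorem frStep_frStep (s : S) (d : D.Fr p) : D.frStep s (D.frStep s d) = d := by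
  by_cases h : ∀ i, ¬ D.At s d i
  · apply Subtype.ext
    funext i j
    rw [D.frStep_not (D.frAct_not h), D.frStep_not h, D.frAct_rho_rho]
  · push Not at h
    obtain ⟨i, hi⟩ := h
    rw [D.frStep_at hi, D.frStep_at hi]

theorem frMat_frStep (s : S) (d : D.Fr p) : D.frMat s (D.frStep s d) = D.frMat s d := by
  by_cases h : ∀ i, ¬ D.At s d i
  · rw [D.frMat_not _ (D.frAct_not h), D.frMat_not _ h]
  · push Not at h
    obtain ⟨i, hi⟩ := h
    rw [D.frStep_at hi]

theorem isUnit_frMat (s : S) (d : D.Fr p) : IsUnit (D.frMat s d) := by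
  by_cases h : ∀ i, ¬ D.At s d i
  · rw [D.frMat_not _ h]
    exact isUnit_one
  · push Not at h
    obtain ⟨i, hi⟩ := h
    rw [D.frMat_at _ hi]
    obtain ⟨hp, -⟩ := hi
    exact isUnit_blk hp

theorem exists_frPerm (s : S) : ∃ f : Equiv.Perm (D.Fr p × (Fin p → PowerSeries ℤ)),
    ∀ d x, f (d, x) = (D.frStep s d, D.frMat s d *ᵥ x) := by
  refine ⟨⟨fun z => (D.frStep s z.1, D.frMat s z.1 *ᵥ z.2), fun z => (D.frStep s z.1,
    ((D.isUnit_frMat s z.1).unit⁻¹ : (Matrix (Fin p) (Fin p) (PowerSeries ℤ))ˣ).1 *ᵥ z.2),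
    ?_, ?_⟩, fun d x => rfl⟩
  · rintro ⟨d, x⟩
    refine Prod.ext (D.frStep_frStep s d) ?_
    have h : ∀ (N : Matrix (Fin p) (Fin p) (PowerSeries ℤ)) (hN : IsUnit N),
        N = D.frMat s d → (hN.unit⁻¹ : (Matrix (Fin p) (Fin p) (PowerSeries ℤ))ˣ).1 *ᵥ
          (D.frMat s d *ᵥ x) = x := by
      intro N hN e
      rw [← e, Matrix.mulVec_mulVec]
      have h2 : (hN.unit⁻¹ : (Matrix (Fin p) (Fin p) (PowerSeries ℤ))ˣ).1 * N = 1 :=
        hN.val_inv_mul
      rw [h2, Matrix.one_mulVec]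
    exact h _ _ (D.frMat_frStep s d)
  · rintro ⟨d, x⟩
    refine Prod.ext (D.frStep_frStep s d) ?_
    change D.frMat s (D.frStep s d) *ᵥ (((D.isUnit_frMat s d).unit⁻¹ :
      (Matrix (Fin p) (Fin p) (PowerSeries ℤ))ˣ).1 *ᵥ x) = x
    have h2 : D.frMat s d * ((D.isUnit_frMat s d).unit⁻¹ :
        (Matrix (Fin p) (Fin p) (PowerSeries ℤ))ˣ).1 = 1 := (D.isUnit_frMat s d).mul_val_inv
    rw [D.frMat_frStep, Matrix.mulVec_mulVec, h2, Matrix.one_mulVec]

/-- The action of a generator on frames with a vector. -/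
noncomputable def frPerm (p : ℕ) (s : S) : Equiv.Perm (D.Fr p × (Fin p → PowerSeries ℤ)) :=
  (D.exists_frPerm (p := p) s).choose

theorem frPerm_apply (s : S) (d : D.Fr p) (x : Fin p → PowerSeries ℤ) :
    D.frPerm p s (d, x) = (D.frStep s d, D.frMat s d *ᵥ x) :=
  (D.exists_frPerm (p := p) s).choose_spec d x

end RD

end Pool.Agent.Art
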