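import Pool.Agent.Art.FrAct

/-!
# Braid relations for the action on frames

See the header of `FrAct.lean` for the proof.
-/

set_option autoImplicit false

namespace Pool.Agent.Art

open Matrix

namespace RD

variable {S P V : Type} [AddCommGroup V] (D : RD S P V) {M : CoxeterMatrix S} {p : ℕ}

/-- The entry `i, i + 1` of the frame is `y`. -/
private def Cons (y : V) (d : D.Fr p) (i : ℕ) : Prop :=
  ∃ h : i + 1 < p, d.1 ⟨i, by omega⟩ ⟨i + 1, h⟩ = y

private theorem cons_step {s : S} {d : D.Fr p} (h : ∀ i, ¬ D.At s d i) (y : V) (i : ℕ) :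
    Cons D y (D.frStep s d) i ↔ Cons D (D.rho s y) d i := by
  unfold Cons
  constructor
  · rintro ⟨h1, h2⟩
    refine ⟨h1, ?_⟩
    rw [D.frStep_not h] at h2
    rw [← h2, D.rho_rho]
  · rintro ⟨h1, h2⟩
    refine ⟨h1, ?_⟩
    rw [D.frStep_not h, h2, D.rho_rho]

private theorem cons_B {d : D.Fr p} {y z : V} {i j : ℕ} (hi : Cons D y d i)
    (hj : Cons D z d j) :
    (i = j ∧ D.B y z = 2) ∨ ((j = i + 1 ∨ i = j + 1) ∧ D.B y z = -1) ∨
      ((i + 1 < j ∨ j + 1 < i) ∧ D.B y z = 0) := by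
  obtain ⟨h1, rfl⟩ := hi
  obtain ⟨h2, rfl⟩ := hj
  rw [D.fr_B]
  simp only [Fin.mk.injEq]
  split_ifs <;> omega

private theorem perm_at {s : S} {d : D.Fr p} {i : ℕ} (h : D.At s d i)
    (x : Fin p → PowerSeries ℤ) : D.frPerm p s (d, x) = (d, blk p i *ᵥ x) := by
  rw [D.frPerm_apply, D.frStep_at h, D.frMat_at d h]

private theorem perm_not {s : S} {d : D.Fr p} (h : ∀ i, ¬ D.At s d i)
    (x : Fin p → PowerSeries ℤ) : D.frPerm p s (d, x) = (D.frStep s d, x) := by
  rw [D.frPerm_apply, D.frMat_not d h, Matrix.one_mulVec]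

private theorem rho_comm0 {s t : S} (h : D.ip (D.a s) (D.a t) = 0) (y : V) :
    D.rho s (D.rho t y) = D.rho t (D.rho s y) := by
  have h1 : D.B (D.v (D.a s)) (D.v (D.a t)) = 0 := h
  have h2 : D.B (D.v (D.a t)) (D.v (D.a s)) = 0 := by rw [D.symm]; exact h
  simp only [rho_apply, map_sub, map_zsmul, h1, h2]
  module

private theorem rho_t0 {s t : S} (h : D.ip (D.a s) (D.a t) = 0) :
    D.rho t (D.v (D.a s)) = D.v (D.a s) := by
  have h1 : D.B (D.v (D.a s)) (D.v (D.a t)) = 0 := h
  rw [rho_apply, h1, zero_smul, sub_zero]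

private theorem rho_t1 {s t : S} (h : D.ip (D.a s) (D.a t) = -1) :
    D.rho t (D.v (D.a s)) = D.v (D.a s) + D.v (D.a t) := by
  have h1 : D.B (D.v (D.a s)) (D.v (D.a t)) = -1 := h
  rw [rho_apply, h1, neg_smul, one_smul, sub_neg_eq_add]

private theorem rho_st {s t : S} (h : D.ip (D.a s) (D.a t) = -1) :
    D.rho t (D.v (D.a s) + D.v (D.a t)) = D.v (D.a s) := by
  rw [← D.rho_t1 h, rho_rho]

private theorem rho_braid1 {s t : S} (h : D.ip (D.a s) (D.a t) = -1) (y : V) :
    D.rho s (D.rho t (D.rho s y)) = D.rho t (D.rho s (D.rho t y)) := by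
  have h1 : D.B (D.v (D.a s)) (D.v (D.a t)) = -1 := h
  have h2 : D.B (D.v (D.a t)) (D.v (D.a s)) = -1 := by rw [D.symm]; exact h
  have h3 : D.B (D.v (D.a s)) (D.v (D.a s)) = 2 := D.norm _
  have h4 : D.B (D.v (D.a t)) (D.v (D.a t)) = 2 := D.norm _
  simp only [rho_apply, map_sub, map_zsmul, h1, h2, h3, h4]
  module

private theorem comm_one {s t : S} (h : D.ip (D.a s) (D.a t) = 0) {d : D.Fr p} {i : ℕ}
    (hs : D.At s d i) (ht : ∀ j, ¬ D.At t d j) (x : Fin p → PowerSeries ℤ) :
    D.frPerm p s (D.frPerm p t (d, x)) = D.frPerm p t (D.frPerm p s (d, x)) := by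
  rw [D.perm_at hs, D.perm_not ht, D.perm_not ht]
  have h1 : D.At s (D.frStep t d) i := by
    refine (D.cons_step ht _ i).2 ?_
    rw [D.rho_t0 h]
    exact hs
  rw [D.perm_at h1]

theorem frPerm_comm {s t : S} (h : D.ip (D.a s) (D.a t) = 0) :
    D.frPerm p s * D.frPerm p t = D.frPerm p t * D.frPerm p s := by
  have h' : D.ip (D.a t) (D.a s) = 0 := by rw [D.ip_comm]; exact h
  refine Equiv.ext ?_
  rintro ⟨d, x⟩
  rw [Equiv.Perm.mul_apply, Equiv.Perm.mul_apply]
  by_cases hs : ∃ i, D.At s d i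
  · obtain ⟨i, hi⟩ := hs
    by_cases ht : ∃ j, D.At t d j
    · obtain ⟨j, hj⟩ := ht
      rw [D.perm_at hi, D.perm_at hj, D.perm_at hi, D.perm_at hj, Matrix.mulVec_mulVec,
        Matrix.mulVec_mulVec]
      have h1 : D.B (D.v (D.a s)) (D.v (D.a t)) = 0 := h
      rcases D.cons_B (z := D.v (D.a t)) hi hj with h2 | h2 | h2
      · omega
      · omega
      · rw [blk_comm hi.choose hj.choose h2.1]
    · exact D.comm_one h hi (fun j hj => ht ⟨j, hj⟩) x
  · have hs' : ∀ i, ¬ D.At s d i := fun i hi => hs ⟨i, hi⟩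
    by_cases ht : ∃ j, D.At t d j
    · obtain ⟨j, hj⟩ := ht
      exact (D.comm_one h' hj hs' x).symm
    · have ht' : ∀ i, ¬ D.At t d i := fun i hi => ht ⟨i, hi⟩
      have h1 : ∀ i, ¬ D.At s (D.frStep t d) i := by
        intro i hi
        have h2 := (D.cons_step ht' _ i).1 hi
        rw [D.rho_t0 h] at h2
        exact hs' i h2
      have h2 : ∀ i, ¬ D.At t (D.frStep s d) i := by
        intro i hi
        have h2 := (D.cons_step hs' _ i).1 hi
        rw [D.rho_t0 h'] at h2
        exact ht' i h2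
      rw [D.perm_not ht', D.perm_not hs', D.perm_not h1, D.perm_not h2]
      refine Prod.ext (Subtype.ext (funext fun i => funext fun j => ?_)) rfl
      change (D.frStep s (D.frStep t d)).1 i j = (D.frStep t (D.frStep s d)).1 i j
      rw [D.frStep_not h1, D.frStep_not h2, D.frStep_not ht', D.frStep_not hs', D.rho_comm0 h]

/-- Only `σ` is an entry. -/
private theorem braid_s {s t : S} (h : D.ip (D.a s) (D.a t) = -1) {d : D.Fr p} {i : ℕ}
    (hs : D.At s d i) (ht : ∀ j, ¬ D.At t d j)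
    (hst : ∀ j, ¬ Cons D (D.v (D.a s) + D.v (D.a t)) d j) (x : Fin p → PowerSeries ℤ) :
    D.frPerm p s (D.frPerm p t (D.frPerm p s (d, x))) =
      D.frPerm p t (D.frPerm p s (D.frPerm p t (d, x))) := by
  have h' : D.ip (D.a t) (D.a s) = -1 := by rw [D.ip_comm]; exact h
  have h1 : ∀ j, ¬ D.At s (D.frStep t d) j := by
    intro j hj
    have h2 := (D.cons_step ht _ j).1 hj
    rw [D.rho_t1 h] at h2
    exact hst j h2
  have h2 : D.At t (D.frStep s (D.frStep t d)) i := by
    refine (D.cons_step h1 _ i).2 ((D.cons_step ht _ i).2 ?_)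
    rw [D.rho_t1 h', add_comm, D.rho_st h]
    exact hs
  rw [D.perm_at hs, D.perm_not ht, D.perm_not ht, D.perm_not h1, D.perm_not h1, D.perm_at h2]

/-- Only `σ + τ` is an entry. -/
private theorem braid_st {s t : S} (h : D.ip (D.a s) (D.a t) = -1) {d : D.Fr p} {i : ℕ}
    (hs : ∀ j, ¬ D.At s d j) (hst : Cons D (D.v (D.a s) + D.v (D.a t)) d i)
    (x : Fin p → PowerSeries ℤ) :
    D.frPerm p s (D.frPerm p t (D.frPerm p s (d, x))) = (d, blk p i *ᵥ x) := by
  have h' : D.ip (D.a t) (D.a s) = -1 := by rw [D.ip_comm]; exact h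
  have h1 : D.At t (D.frStep s d) i := by
    refine (D.cons_step hs _ i).2 ?_
    rw [D.rho_t1 h', add_comm]
    exact hst
  rw [D.perm_not hs, D.perm_at h1, D.frPerm_apply, D.frStep_frStep, D.frMat_frStep,
    D.frMat_not d hs, Matrix.one_mulVec]

theorem frPerm_braid {s t : S} (h : D.ip (D.a s) (D.a t) = -1) :
    D.frPerm p s * D.frPerm p t * D.frPerm p s = D.frPerm p t * D.frPerm p s * D.frPerm p t := by
  have h' : D.ip (D.a t) (D.a s) = -1 := by rw [D.ip_comm]; exact h
  have h0 : D.B (D.v (D.a s)) (D.v (D.a t)) = -1 := h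
  have h0' : D.B (D.v (D.a t)) (D.v (D.a s)) = -1 := h'
  have h3 : D.B (D.v (D.a s)) (D.v (D.a s)) = 2 := D.norm _
  have h4 : D.B (D.v (D.a t)) (D.v (D.a t)) = 2 := D.norm _
  refine Equiv.ext ?_
  rintro ⟨d, x⟩
  rw [Equiv.Perm.mul_apply, Equiv.Perm.mul_apply, Equiv.Perm.mul_apply, Equiv.Perm.mul_apply]
  by_cases hst : ∃ i, Cons D (D.v (D.a s) + D.v (D.a t)) d i
  · obtain ⟨i, hi⟩ := hst
    have hs : ∀ j, ¬ D.At s d j := by
      intro j hj
      have h5 := D.cons_B (y := D.v (D.a s)) hj hi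
      rw [map_add, h3, h0] at h5
      omega
    have ht : ∀ j, ¬ D.At t d j := by
      intro j hj
      have h5 := D.cons_B (y := D.v (D.a t)) hj hi
      rw [map_add, h4, h0'] at h5
      omega
    rw [D.braid_st h hs hi, D.braid_st h' ht (by rw [add_comm]; exact hi)]
  · have hst' : ∀ i, ¬ Cons D (D.v (D.a s) + D.v (D.a t)) d i := fun i hi => hst ⟨i, hi⟩
    have hts' : ∀ i, ¬ Cons D (D.v (D.a t) + D.v (D.a s)) d i := by
      intro i hi
      rw [add_comm] at hi
      exact hst' i hi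
    by_cases hs : ∃ i, D.At s d i
    · obtain ⟨i, hi⟩ := hs
      by_cases ht : ∃ j, D.At t d j
      · obtain ⟨j, hj⟩ := ht
        rw [D.perm_at hi, D.perm_at hj, D.perm_at hi, D.perm_at hj, D.perm_at hi, D.perm_at hj,
          Matrix.mulVec_mulVec, Matrix.mulVec_mulVec, Matrix.mulVec_mulVec,
          Matrix.mulVec_mulVec]
        rcases D.cons_B (z := D.v (D.a t)) hi hj with h2 | h2 | h2
        · omega
        · rcases h2.1 with rfl | rfl
          · rw [blk_braid hj.choose]
          · rw [blk_braid hi.choose]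
        · omega
      · exact D.braid_s h hi (fun j hj => ht ⟨j, hj⟩) hst' x
    · have hs' : ∀ i, ¬ D.At s d i := fun i hi => hs ⟨i, hi⟩
      by_cases ht : ∃ j, D.At t d j
      · obtain ⟨j, hj⟩ := ht
        exact (D.braid_s h' hj hs' hts' x).symm
      · have ht' : ∀ i, ¬ D.At t d i := fun i hi => ht ⟨i, hi⟩
        have a1 : ∀ i, ¬ D.At t (D.frStep s d) i := by
          intro i hi
          have h2 := (D.cons_step hs' _ i).1 hi
          rw [D.rho_t1 h'] at h2
          exact hts' i h2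
        have a2 : ∀ i, ¬ D.At s (D.frStep t (D.frStep s d)) i := by
          intro i hi
          have h2 := (D.cons_step hs' _ i).1 ((D.cons_step a1 _ i).1 hi)
          rw [D.rho_t1 h, add_comm, D.rho_st h'] at h2
          exact ht' i h2
        have b1 : ∀ i, ¬ D.At s (D.frStep t d) i := by
          intro i hi
          have h2 := (D.cons_step ht' _ i).1 hi
          rw [D.rho_t1 h] at h2
          exact hst' i h2
        have b2 : ∀ i, ¬ D.At t (D.frStep s (D.frStep t d)) i := by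
          intro i hi
          have h2 := (D.cons_step ht' _ i).1 ((D.cons_step b1 _ i).1 hi)
          rw [D.rho_t1 h', add_comm, D.rho_st h] at h2
          exact hs' i h2
        rw [D.perm_not hs', D.perm_not a1, D.perm_not a2, D.perm_not ht', D.perm_not b1,
          D.perm_not b2]
        refine Prod.ext (Subtype.ext (funext fun i => funext fun j => ?_)) rfl
        change (D.frStep s (D.frStep t (D.frStep s d))).1 i j =
          (D.frStep t (D.frStep s (D.frStep t d))).1 i j
        rw [D.frStep_not a2, D.frStep_not a1, D.frStep_not hs', D.frStep_not b2,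
          D.frStep_not b1, D.frStep_not ht', D.rho_braid1 h]

end RD

end Pool.Agent.Art
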