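import Pool.Agent.Art.FrBr

/-!
# The action of the Artin group on frames

PROOF of `act_spec`: induction on `g` (`artin_induction`, right multiplication; or
`Subgroup.closure_induction`: the set of `g` with the property for all `d` is closed under products and
inverses and contains the generators). Generator `s`, frame `d`: if `At s d i` then `d' = d`,
`π = swp`, `m = blk p i` (`rho_of_at`, `blk_one`, `lam_blk`, `blk_const`); otherwise `d' = frStep s d`,
`π = 1`, `m = 1`. Product: matrices and permutations multiply. Inverse: `m` is invertible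
(the action is bijective; or take the inverse matrix for the generators and do the induction with
the generators and their inverses); if `m * m' = 1` then `m' 1 = 1`, `lam m' = lam`, and modulo `X` the
matrix `m'` is the permutation matrix of `π⁻¹`.
`act_trivial`: `w g = 1`: by `act_spec` `d i j = d' (π i) (π j)`, so `π = 1`, `d' = d` by `fr_rigid`.
-/

set_option autoImplicit false

namespace Pool.Agent.Art

open Matrix

namespace RD

variable {S P V : Type} [AddCommGroup V] (D : RD S P V) {M : CoxeterMatrix S}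

theorem frPerm_rel (hM : D.Fits M) (p : ℕ) (s t : S) (_h : M s t ≠ 0) :
    alt (D.frPerm p s) (D.frPerm p t) (M s t) = alt (D.frPerm p t) (D.frPerm p s) (M s t) := by
  by_cases hst : s = t
  · rw [hst]
  · rcases hM s t hst with ⟨h3, h⟩ | ⟨h2, h⟩
    · rw [h3, alt_three, alt_three, D.frPerm_braid h]
    · rw [h2, alt_two, alt_two, D.frPerm_comm h]

/-- The action on frames with a vector. -/
noncomputable def act (hM : D.Fits M) (p : ℕ) :
    Artin M →* Equiv.Perm (D.Fr p × (Fin p → PowerSeries ℤ)) :=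
  lift (D.frPerm p) (D.frPerm_rel hM p)

/-- The statement of `act_spec` for one element. -/
private def Sp (hM : D.Fits M) (p : ℕ) (g : Artin M) : Prop :=
  ∀ d : D.Fr p, ∃ (d' : D.Fr p) (π : Equiv.Perm (Fin p))
      (m : Matrix (Fin p) (Fin p) (PowerSeries ℤ)),
      (∀ x, D.act hM p g (d, x) = (d', m *ᵥ x)) ∧
      (∀ i j, D.w hM g (d.1 i j) = d'.1 (π i) (π j)) ∧
      m *ᵥ 1 = 1 ∧ lam p ᵥ* m = lam p ∧
      ∀ i j, PowerSeries.constantCoeff (m i j) = if i = π j then 1 else 0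

private theorem sp_one (hM : D.Fits M) (p : ℕ) : D.Sp hM p 1 := by
  intro d
  refine ⟨d, 1, 1, fun x => ?_, fun i j => ?_, ?_, ?_, fun i j => ?_⟩
  · rw [map_one, one_mulVec]; rfl
  · rw [map_one]; rfl
  · rw [one_mulVec]
  · rw [vecMul_one]
  · rw [one_apply, Equiv.Perm.one_apply]
    split_ifs <;> simp

private theorem sp_mul (hM : D.Fits M) (p : ℕ) {g h : Artin M} (hg : D.Sp hM p g)
    (hh : D.Sp hM p h) : D.Sp hM p (g * h) := by
  intro d
  obtain ⟨d1, π1, m1, ha, hb, hc, hd, he⟩ := hh d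
  obtain ⟨d2, π2, m2, ka, kb, kc, kd, ke⟩ := hg d1
  refine ⟨d2, π2 * π1, m2 * m1, fun x => ?_, fun i j => ?_, ?_, ?_, fun i j => ?_⟩
  · rw [map_mul, Equiv.Perm.mul_apply, ha, ka, mulVec_mulVec]
  · rw [map_mul, LinearEquiv.mul_apply, hb, kb]; rfl
  · rw [← mulVec_mulVec, hc, kc]
  · rw [← vecMul_vecMul, kd, hd]
  · rw [mul_apply, map_sum]
    simp_rw [map_mul, he, ke]
    rw [Finset.sum_eq_single (π1 j)]
    · simp
    · intro b _ hb'
      rw [if_neg hb', mul_zero]
    · intro h'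
      exact absurd (Finset.mem_univ _) h'

private theorem act_gen (hM : D.Fits M) (p : ℕ) (s : S) (d : D.Fr p)
    (x : Fin p → PowerSeries ℤ) :
    D.act hM p (gen M s) (d, x) = (D.frStep s d, D.frMat s d *ᵥ x) := by
  rw [act, lift_gen, frPerm_apply]

private theorem gen_data (hM : D.Fits M) (p : ℕ) (s : S) (d : D.Fr p) :
    ∃ π : Equiv.Perm (Fin p),
      (∀ i j, D.w hM (gen M s) (d.1 i j) = (D.frStep s d).1 (π i) (π j)) ∧
      D.frMat s d *ᵥ 1 = 1 ∧ lam p ᵥ* D.frMat s d = lam p ∧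
      ∀ i j, PowerSeries.constantCoeff (D.frMat s d i j) = if i = π j then 1 else 0 := by
  by_cases h : ∃ i, D.At s d i
  · obtain ⟨i, hi⟩ := h
    have hi' := hi
    obtain ⟨hip, _⟩ := hi'
    refine ⟨swp hip, fun j k => ?_, ?_, ?_, fun j k => ?_⟩
    · rw [D.frStep_at hi, D.w_gen, D.rho_of_at d hip hi]
    · rw [D.frMat_at d hi, blk_one hip]
    · rw [D.frMat_at d hi, lam_blk hip]
    · rw [D.frMat_at d hi, blk_const hip]
  · have h' : ∀ i, ¬ D.At s d i := fun i hi => h ⟨i, hi⟩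
    refine ⟨1, fun j k => ?_, ?_, ?_, fun j k => ?_⟩
    · rw [D.frStep_not h', D.w_gen]; rfl
    · rw [D.frMat_not d h', one_mulVec]
    · rw [D.frMat_not d h', vecMul_one]
    · rw [D.frMat_not d h', one_apply, Equiv.Perm.one_apply]
      split_ifs <;> simp

private theorem sp_gen (hM : D.Fits M) (p : ℕ) (s : S) : D.Sp hM p (gen M s) := by
  intro d
  obtain ⟨π, h1, h2, h3, h4⟩ := D.gen_data hM p s d
  exact ⟨D.frStep s d, π, D.frMat s d, fun x => D.act_gen hM p s d x, h1, h2, h3, h4⟩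

private theorem sp_gen_inv (hM : D.Fits M) (p : ℕ) (s : S) : D.Sp hM p (gen M s)⁻¹ := by
  intro d
  obtain ⟨π, h1, h2, h3, h4⟩ := D.gen_data hM p s (D.frStep s d)
  have ps : ∀ k, π (π⁻¹ k) = k := fun k => π.apply_symm_apply k
  have sp : ∀ k, π⁻¹ (π k) = k := fun k => π.symm_apply_apply k
  rw [D.frStep_frStep] at h1
  rw [D.frMat_frStep] at h2 h3 h4
  obtain ⟨u, hu⟩ := D.isUnit_frMat s d
  rw [← hu] at h2 h3 h4
  have e1 : (u : Matrix (Fin p) (Fin p) (PowerSeries ℤ)) * (↑u⁻¹ : Matrix _ _ _) = 1 :=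
    u.mul_inv
  have e2 : (↑u⁻¹ : Matrix (Fin p) (Fin p) (PowerSeries ℤ)) * (u : Matrix _ _ _) = 1 :=
    u.inv_mul
  refine ⟨D.frStep s d, π⁻¹, (↑u⁻¹ : Matrix (Fin p) (Fin p) (PowerSeries ℤ)), fun x => ?_,
    fun i j => ?_, ?_, ?_, fun i j => ?_⟩
  · rw [map_inv, Equiv.Perm.inv_eq_iff_eq, D.act_gen, D.frStep_frStep, D.frMat_frStep, ← hu,
      mulVec_mulVec, e1, one_mulVec]
  · have h := h1 (π⁻¹ i) (π⁻¹ j)
    rw [ps, ps] at h
    rw [map_inv, ← h]
    exact (D.w hM (gen M s)).symm_apply_apply _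
  · have h := congrArg (fun y => (↑u⁻¹ : Matrix (Fin p) (Fin p) (PowerSeries ℤ)) *ᵥ y) h2
    simp only [mulVec_mulVec, e2, one_mulVec] at h
    exact h.symm
  · have h := congrArg (fun y => y ᵥ* (↑u⁻¹ : Matrix (Fin p) (Fin p) (PowerSeries ℤ))) h3
    simp only [vecMul_vecMul, e1, vecMul_one] at h
    exact h.symm
  · have h := congrFun (congrFun e1 (π i)) j
    have h' := congrArg PowerSeries.constantCoeff h
    rw [mul_apply, map_sum] at h'
    simp_rw [map_mul, h4] at h'
    rw [Finset.sum_eq_single i] at h'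
    · rw [if_pos rfl, one_mul] at h'
      rw [h', one_apply]
      by_cases hij : π i = j
      · rw [if_pos hij, if_pos (by rw [← hij, sp]), map_one]
      · rw [if_neg hij, map_zero, if_neg]
        intro h0
        exact hij (by rw [h0, ps])
    · intro b _ hb
      rw [if_neg (fun h0 => hb (π.injective h0).symm), zero_mul]
    · intro h0
      exact absurd (Finset.mem_univ _) h0

theorem act_spec (hM : D.Fits M) (p : ℕ) (g : Artin M) (d : D.Fr p) :
    ∃ (d' : D.Fr p) (π : Equiv.Perm (Fin p)) (m : Matrix (Fin p) (Fin p) (PowerSeries ℤ)),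
      (∀ x, D.act hM p g (d, x) = (d', m *ᵥ x)) ∧
      (∀ i j, D.w hM g (d.1 i j) = d'.1 (π i) (π j)) ∧
      m *ᵥ 1 = 1 ∧ lam p ᵥ* m = lam p ∧
      ∀ i j, PowerSeries.constantCoeff (m i j) = if i = π j then 1 else 0 := by
  have h : D.Sp hM p g := by
    refine artin_induction g (D.sp_one hM p) (fun s x hx => ?_) (fun s x hx => ?_)
    · exact D.sp_mul hM p hx (D.sp_gen hM p s)
    · exact D.sp_mul hM p hx (D.sp_gen_inv hM p s)
  exact h d

theorem act_trivial (hM : D.Fits M) (p : ℕ) {g : Artin M} (hg : D.w hM g = 1) (d : D.Fr p) :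
    ∃ m : Matrix (Fin p) (Fin p) (PowerSeries ℤ),
      (∀ x, D.act hM p g (d, x) = (d, m *ᵥ x)) ∧ ∀ i j, PowerSeries.X ∣ (m - 1) i j := by
  obtain ⟨d', π, m, h1, h2, _, _, h5⟩ := D.act_spec hM p g d
  obtain ⟨hπ, hd⟩ := D.fr_rigid d d' π (fun i j => by rw [← h2, hg]; rfl)
  subst hπ
  subst hd
  refine ⟨m, h1, fun i j => ?_⟩
  rw [PowerSeries.X_dvd_iff, Matrix.sub_apply, map_sub, h5, one_apply, Equiv.Perm.one_apply]
  split_ifs <;> simp

/-- The condition (C): elements of prime order have adapted frames. -/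
def Adapted (hM : D.Fits M) (n₀ : ℕ) : Prop :=
  ∀ (g : Artin M) (l : ℕ), l.Prime → D.w hM g ^ l = 1 → D.w hM g ≠ 1 →
    l ≤ n₀ ∧ ∃ (d : D.Fr l) (σ : Equiv.Perm (Fin l)), (∀ i j, ∃ k : ℕ, (σ ^ k) i = j) ∧
      ∀ i j, D.w hM g (d.1 i j) = d.1 (σ i) (σ j)

end RD

end Pool.Agent.Art
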