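import Pool.Agent.HL.HierDef

set_option autoImplicit false

/-! Closure properties of the class `HierL` and of the elementary amenable groups. -/

namespace Pool.Agent.Art

open Pool.Agent.HL Pool.Agent.EH

/-- the class is closed under embeddings -/
theorem hierL_inj (Q : Type) [inst : Group Q] (h : HierL Q) :
    ∀ (G : Type) [Group G] (f : G →* Q), Function.Injective f → HierL G := by
  induction h with
  | triv Q =>
    intro G _ f hf
    have : Subsingleton G := ⟨fun a b => hf (Subsingleton.elim _ _)⟩
    exact HierL.triv G
  | tree Q V T hT hadj hinv _ ih =>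
    intro G _ f hf
    let _ : MulAction G V := MulAction.compHom V f
    refine HierL.tree G V T hT (fun g u v h => hadj (f g) u v h)
      (fun g u v h h' => hinv (f g) u v h h') (fun v => ?_)
    refine ih v (MulAction.stabilizer G v)
      ((f.comp (MulAction.stabilizer G v).subtype).codRestrict (MulAction.stabilizer Q v)
        (fun g => g.2)) ?_
    intro a b hab
    exact Subtype.ext (hf (congrArg Subtype.val hab))
  | ext Q A p hA _ ih =>
    intro G _ f hf
    refine HierL.ext G A (p.comp f) hA (fun F hF => ?_)
    refine ih F hF (F.comap (p.comp f))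
      ((f.comp (F.comap (p.comp f)).subtype).codRestrict (F.comap p) (fun g => g.2)) ?_
    intro a b hab
    exact Subtype.ext (hf (congrArg Subtype.val hab))
  | union Q H hH _ ih =>
    intro G _ f hf
    classical
    refine HierL.union G (fun F => (H (F.image f)).comap f)
      (fun F g hg => hH _ _ (Finset.mem_image_of_mem _ hg)) (fun F => ?_)
    refine ih (F.image f) _
      ((f.comp ((H (F.image f)).comap f).subtype).codRestrict (H (F.image f)) (fun g => g.2)) ?_
    intro a b hab
    exact Subtype.ext (hf (congrArg Subtype.val hab))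
  | loc Q _ ih =>
    intro G _ f hf
    refine HierL.loc G (fun K hK h0 => ?_)
    have hfg : (K.map f).FG := by
      classical
      obtain ⟨S, hS⟩ := hK
      refine ⟨S.image f, ?_⟩
      rw [← hS, MonoidHom.map_closure, Finset.coe_image]
    refine ih (K.map f) hfg (fun φ => ?_) K
      ((f.comp K.subtype).codRestrict (K.map f) (fun g => ⟨g.1, g.2, rfl⟩)) ?_
    · ext ⟨x, hx⟩
      obtain ⟨g, hg, rfl⟩ := hx
      have h1 := h0 (φ.comp ((f.comp K.subtype).codRestrict (K.map f)
        (fun g => ⟨g.1, g.2, rfl⟩)))
      have h2 := DFunLike.congr_fun h1 ⟨g, hg⟩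
      exact congrArg Multiplicative.toAdd h2
    · intro a b hab
      exact Subtype.ext (hf (congrArg Subtype.val hab))

/-- the class is invariant under isomorphisms -/
theorem hierL_equiv {G Q : Type} [Group G] [Group Q] (e : G ≃* Q) (h : HierL Q) : HierL G :=
  hierL_inj Q h G e.toMonoidHom e.injective

/-- subgroups -/
theorem hierL_sub {G : Type} [Group G] (h : HierL G) (H : Subgroup G) : HierL H :=
  hierL_inj G h H H.subtype H.subtype_injective

/-- the class is closed under extensions -/
theorem hierL_ker (Q : Type) [inst : Group Q] (h : HierL Q) :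
    ∀ (G : Type) [Group G] (f : G →* Q), HierL f.ker → HierL G := by
  induction h with
  | triv Q =>
    intro G _ f hf
    refine hierL_inj _ hf G ((MonoidHom.id G).codRestrict f.ker
      (fun g => by rw [MonoidHom.mem_ker]; exact Subsingleton.elim _ _)) ?_
    intro a b hab
    exact congrArg Subtype.val hab
  | tree Q V T hT hadj hinv _ ih =>
    intro G _ f hf
    let _ : MulAction G V := MulAction.compHom V f
    refine HierL.tree G V T hT (fun g u v h => hadj (f g) u v h)
      (fun g u v h h' => hinv (f g) u v h h') (fun v => ?_)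
    refine ih v (MulAction.stabilizer G v)
      ((f.comp (MulAction.stabilizer G v).subtype).codRestrict (MulAction.stabilizer Q v)
        (fun g => g.2)) ?_
    refine hierL_inj _ hf _ (((MulAction.stabilizer G v).subtype.comp
      (Subgroup.subtype _)).codRestrict f.ker (fun g => ?_)) ?_
    · have h1 := congrArg Subtype.val ((MonoidHom.mem_ker).1 g.2)
      exact h1
    · intro a b hab
      have h1 := congrArg Subtype.val hab
      exact Subtype.val_injective (Subtype.val_injective h1)
  | ext Q A p hA _ ih =>
    intro G _ f hf
    refine HierL.ext G A (p.comp f) hA (fun F hF => ?_)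
    refine ih F hF (F.comap (p.comp f))
      ((f.comp (F.comap (p.comp f)).subtype).codRestrict (F.comap p) (fun g => g.2)) ?_
    refine hierL_inj _ hf _ (((F.comap (p.comp f)).subtype.comp
      (Subgroup.subtype _)).codRestrict f.ker (fun g => ?_)) ?_
    · have h1 := congrArg Subtype.val ((MonoidHom.mem_ker).1 g.2)
      exact h1
    · intro a b hab
      have h1 := congrArg Subtype.val hab
      exact Subtype.val_injective (Subtype.val_injective h1)
  | union Q H hH _ ih =>
    intro G _ f hf
    classical
    refine HierL.union G (fun F => (H (F.image f)).comap f)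
      (fun F g hg => hH _ _ (Finset.mem_image_of_mem _ hg)) (fun F => ?_)
    refine ih (F.image f) _
      ((f.comp ((H (F.image f)).comap f).subtype).codRestrict (H (F.image f)) (fun g => g.2)) ?_
    refine hierL_inj _ hf _ ((((H (F.image f)).comap f).subtype.comp
      (Subgroup.subtype _)).codRestrict f.ker (fun g => ?_)) ?_
    · have h1 := congrArg Subtype.val ((MonoidHom.mem_ker).1 g.2)
      exact h1
    · intro a b hab
      have h1 := congrArg Subtype.val hab
      exact Subtype.val_injective (Subtype.val_injective h1)
  | loc Q _ ih =>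
    intro G _ f hf
    refine HierL.loc G (fun K hK h0 => ?_)
    have hfg : (K.map f).FG := by
      classical
      obtain ⟨S, hS⟩ := hK
      refine ⟨S.image f, ?_⟩
      rw [← hS, MonoidHom.map_closure, Finset.coe_image]
    refine ih (K.map f) hfg (fun φ => ?_) K
      ((f.comp K.subtype).codRestrict (K.map f) (fun g => ⟨g.1, g.2, rfl⟩)) ?_
    · ext ⟨x, hx⟩
      obtain ⟨g, hg, rfl⟩ := hx
      have h1 := h0 (φ.comp ((f.comp K.subtype).codRestrict (K.map f)
        (fun g => ⟨g.1, g.2, rfl⟩)))
      have h2 := DFunLike.congr_fun h1 ⟨g, hg⟩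
      exact congrArg Multiplicative.toAdd h2
    · refine hierL_inj _ hf _ ((K.subtype.comp
        (Subgroup.subtype _)).codRestrict f.ker (fun g => ?_)) ?_
      · have h1 := congrArg Subtype.val ((MonoidHom.mem_ker).1 g.2)
        exact h1
      · intro a b hab
        have h1 := congrArg Subtype.val hab
        exact Subtype.val_injective (Subtype.val_injective h1)

/-- locally indicable groups -/
theorem hierL_li (G : Type) [Group G]
    (h : ∀ H : Subgroup G, H.FG → (∀ f : H →* Multiplicative ℤ, f = 1) → H = ⊥) : HierL G := by
  refine HierL.loc G (fun H hH h0 => ?_)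
  have h1 := h H hH h0
  subst h1
  exact HierL.triv _

/-- extensions by torsion-free elementary amenable groups -/
theorem hierL_tf {G E : Type} [Group G] [Group E] (p : G →* E) (hE : EA E)
    (htf : ∀ (e : E) (n : ℕ), 0 < n → e ^ n = 1 → e = 1) (h : HierL p.ker) : HierL G := by
  refine HierL.ext G E p hE (fun F hF => ?_)
  have h1 : F = ⊥ := by
    rw [eq_bot_iff]
    intro x hx
    have h2 : IsOfFinOrder (⟨x, hx⟩ : F) := isOfFinOrder_of_finite _
    obtain ⟨n, hn, h3⟩ := (isOfFinOrder_iff_pow_eq_one).1 h2
    exact htf x n hn (congrArg Subtype.val h3)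
  subst h1
  exact h

/-- elementary amenable groups are closed under embeddings -/
theorem ea_inj (Q : Type) [inst : Group Q] (h : EA Q) :
    ∀ (G : Type) [Group G] (f : G →* Q), Function.Injective f → EA G := by
  induction h with
  | fin Q =>
    intro G _ f hf
    have : Finite G := Finite.of_injective f hf
    exact EA.fin G
  | comm Q hc =>
    intro G _ f hf
    exact EA.comm G (fun a b => hf (by rw [map_mul, map_mul, hc]))
  | ext Q N _ _ ih1 ih2 =>
    intro G _ f hf
    refine EA.ext G (N.comap f) (ih1 _ ((f.comp (N.comap f).subtype).codRestrict N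
      (fun g => g.2)) ?_) (ih2 _ (QuotientGroup.map (N.comap f) N f le_rfl) ?_)
    · intro a b hab
      exact Subtype.ext (hf (congrArg Subtype.val hab))
    · rw [injective_iff_map_eq_one]
      intro a
      obtain ⟨g, rfl⟩ := QuotientGroup.mk_surjective a
      intro hg
      rw [QuotientGroup.map_mk, QuotientGroup.eq_one_iff] at hg
      rw [QuotientGroup.eq_one_iff]
      exact hg
  | union Q H hH _ ih =>
    intro G _ f hf
    classical
    refine EA.union G (fun F => (H (F.image f)).comap f)
      (fun F g hg => hH _ _ (Finset.mem_image_of_mem _ hg)) (fun F => ?_)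
    refine ih (F.image f) _
      ((f.comp ((H (F.image f)).comap f).subtype).codRestrict (H (F.image f)) (fun g => g.2)) ?_
    intro a b hab
    exact Subtype.ext (hf (congrArg Subtype.val hab))

/-- elementary amenable groups are closed under quotients -/
theorem ea_surj (Q : Type) [inst : Group Q] (h : EA Q) :
    ∀ (G : Type) [Group G] (f : Q →* G), Function.Surjective f → EA G := by
  induction h with
  | fin Q =>
    intro G _ f hf
    have : Finite G := Finite.of_surjective f hf
    exact EA.fin G
  | comm Q hc =>
    intro G _ f hf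
    refine EA.comm G (fun a b => ?_)
    obtain ⟨a, rfl⟩ := hf a
    obtain ⟨b, rfl⟩ := hf b
    rw [← map_mul, ← map_mul, hc]
  | ext Q N _ _ ih1 ih2 =>
    intro G _ f hf
    have : (N.map f).Normal := Subgroup.Normal.map inferInstance f hf
    refine EA.ext G (N.map f) (ih1 _ ((f.comp N.subtype).codRestrict (N.map f)
      (fun g => ⟨g.1, g.2, rfl⟩)) ?_)
      (ih2 _ (QuotientGroup.map N (N.map f) f (Subgroup.le_comap_map _ _)) ?_)
    · rintro ⟨x, hx⟩
      obtain ⟨g, hg, rfl⟩ := hx
      exact ⟨⟨g, hg⟩, rfl⟩
    · intro a
      obtain ⟨g, rfl⟩ := QuotientGroup.mk_surjective a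
      obtain ⟨q, rfl⟩ := hf g
      exact ⟨QuotientGroup.mk q, rfl⟩
  | union Q H hH _ ih =>
    intro G _ f hf
    classical
    have hs : Function.RightInverse (Function.surjInv hf) f := Function.rightInverse_surjInv hf
    refine EA.union G (fun F => (H (F.image (Function.surjInv hf))).map f)
      (fun F g hg => ⟨Function.surjInv hf g, hH _ _ (Finset.mem_image_of_mem _ hg), hs g⟩)
      (fun F => ?_)
    refine ih (F.image (Function.surjInv hf)) _
      ((f.comp (H (F.image (Function.surjInv hf))).subtype).codRestrict _
        (fun g => ⟨g.1, g.2, rfl⟩)) ?_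
    rintro ⟨x, hx⟩
    obtain ⟨g, hg, rfl⟩ := hx
    exact ⟨⟨g, hg⟩, rfl⟩

theorem ea_equiv {G Q : Type} [Group G] [Group Q] (e : G ≃* Q) (h : EA Q) : EA G :=
  ea_inj Q h G e.toMonoidHom e.injective

/-- extensions of elementary amenable groups -/
theorem ea_ker {G Q : Type} [Group G] [Group Q] (f : G →* Q) (h : EA f.ker) (h' : EA Q) :
    EA G := by
  refine EA.ext G f.ker h (ea_inj Q h' _ (QuotientGroup.kerLift f) ?_)
  exact QuotientGroup.kerLift_injective f

end Pool.Agent.Art
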