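import Pool.Agent.Art.Zero

/-!
# The Lawrence-Krammer-Paris representation is injective

PROOFS. Let `z` be a word with `phiW z = 0`.
`left_dvd`: for all words `w`, `u` there are `y` and `n` with `wd u * (wd z) ^ n = wd w * wd y`
(`n = w.length`): induction on `w`. `w = s :: w₁`: `phiW (u ++ z) = 0`, so by `row_lemma`
`wd (u ++ z) = gen s * wd u'`; by induction `wd u' * (wd z) ^ n = wd w₁ * wd y`; hence
`wd u * (wd z) ^ (n + 1) = gen s * wd u' * (wd z) ^ n = wd w * wd y`.
`exists_frac`: every element is `wd u * (wd v)⁻¹`: `artin_induction`. `1`: empty words.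
`x * gen s`, `x = wd u * (wd v)⁻¹`: by `left_dvd` with `w = v` and the word `[s]`:
`gen s * (wd z) ^ n = wd v * wd y`, so `(wd v)⁻¹ * gen s = wd y * ((wd z) ^ n)⁻¹`, `(wd z) ^ n` is the element
of the word `(List.replicate n z).flatten`. `x * (gen s)⁻¹ = wd u * (gen s * wd v)⁻¹`.
`rep_injective`: if `rep (wd u * (wd v)⁻¹) = 1` then `rep (wd u) = rep (wd v)`, so
`(psiW u).map toPS = (psiW v).map toPS` (`rep_wd`), `psiW u = psiW v`, `wd u = wd v` (`wd_eq`).
`li_pure`: `li_cong` for the restriction of `rep` to the kernel of `w` (`rep_pure`).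
-/

set_option autoImplicit false

namespace Pool.Agent.Art

open Matrix Polynomial

variable {S P V : Type} [AddCommGroup V] [DecidableEq P] [Fintype P] [DecidableEq S]
  {D : RD S P V} {M : CoxeterMatrix S}

theorem LK.left_dvd (K : LK D M) (hM : D.Fits M) {z : List S} (hz : D.phiW z = 0)
    (w : List S) : ∀ u : List S, ∃ (y : List S) (n : ℕ),
      wd M u * wd M z ^ n = wd M w * wd M y := by
  induction w with
  | nil =>
    intro u
    refine ⟨u, 0, ?_⟩
    rw [pow_zero, mul_one]
    simp [wd]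
  | cons s w₁ ih =>
    intro u
    have h0 : ∀ b, D.phiW (u ++ z) (D.a s) b = 0 := by
      intro b
      rw [D.phiW_append, hz, Matrix.mul_zero]
      rfl
    obtain ⟨u', hu', -⟩ := K.row_lemma hM (u ++ z) s h0
    obtain ⟨y, n, hy⟩ := ih u'
    refine ⟨y, n + 1, ?_⟩
    rw [wd_append] at hu'
    rw [pow_succ', ← mul_assoc, hu', mul_assoc, hy, wd_cons, mul_assoc]

omit [DecidableEq S] in
private theorem Inj_pow {z : List S} (n : ℕ) :
    wd M (List.replicate n z).flatten = wd M z ^ n := by
  induction n with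
  | zero => simp [wd]
  | succ n ih => rw [List.replicate_succ, List.flatten_cons, wd_append, ih, pow_succ']

theorem LK.exists_frac (K : LK D M) (hM : D.Fits M) (g : Artin M) :
    ∃ u v : List S, g = wd M u * (wd M v)⁻¹ := by
  obtain ⟨z, hz⟩ := D.exists_word_zero hM
  refine artin_induction (P := fun g => ∃ u v : List S, g = wd M u * (wd M v)⁻¹) g ?_ ?_ ?_
  · exact ⟨[], [], by simp [wd]⟩
  · rintro s x ⟨u, v, rfl⟩
    obtain ⟨y, n, hy⟩ := K.left_dvd hM hz v [s]
    refine ⟨u ++ y, (List.replicate n z).flatten, ?_⟩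
    have h1 : wd M [s] = gen M s := by simp [wd]
    rw [h1] at hy
    rw [wd_append, Inj_pow]
    have h2 : gen M s = wd M v * wd M y * (wd M z ^ n)⁻¹ := by
      rw [← hy, mul_inv_cancel_right]
    rw [h2]
    group
  · rintro s x ⟨u, v, rfl⟩
    refine ⟨u, s :: v, ?_⟩
    rw [wd_cons, _root_.mul_inv_rev, mul_assoc]

theorem LK.rep_injective (K : LK D M) (hM : D.Fits M) : Function.Injective (K.rep hM) := by
  rw [injective_iff_map_eq_one]
  intro g hg
  obtain ⟨u, v, rfl⟩ := K.exists_frac hM g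
  rw [map_mul, map_inv, mul_inv_eq_one] at hg
  have h1 : (K.psiW u).map toPS = (K.psiW v).map toPS := by
    rw [← K.rep_wd hM, ← K.rep_wd hM, hg]
  have h2 : K.psiW u = K.psiW v := Matrix.map_injective toPS_injective h1
  rw [K.wd_eq hM u v h2, mul_inv_cancel]

end Pool.Agent.Art
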