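import Mathlib

/-!
# Finite tables of root data and Lawrence-Krammer-Paris functionals

Polynomials in the parameter `x` are lists of integers (lowest coefficient first).
The first `n` positive roots are the simple roots.
-/

set_option autoImplicit false

namespace Pool.Agent.Art

/-- Sum of two polynomials. -/
def padd : List ℤ → List ℤ → List ℤ
  | [], b => b
  | a, [] => a
  | x :: a, y :: b => (x + y) :: padd a b

/-- Negative of a polynomial. -/
def pneg (a : List ℤ) : List ℤ := a.map fun x => -x

/-- Multiplication by the variable. -/
def pmx (a : List ℤ) : List ℤ := 0 :: a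

/-- The polynomial `(1 - x) a + b`. -/
def pmix (a b : List ℤ) : List ℤ := padd (padd a (pneg (pmx a))) b

/-- Zero test. -/
def pz (a : List ℤ) : Bool := a.all fun x => x == 0

/-- Equality test. -/
def peq (a b : List ℤ) : Bool := pz (padd a (pneg b))

/-- Scalar product of lists. -/
def dot : List ℤ → List ℤ → ℤ
  | x :: a, y :: b => x * y + dot a b
  | _, _ => 0

/-- Tables: rank, number of positive roots, Cartan matrix, coordinates of the positive roots,
reflections, polynomials, indices of the polynomials `T s b`. -/
structure Tab where
  n : ℕ
  N : ℕ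
  C : List (List ℤ)
  v : List (List ℤ)
  r : List (List ℕ)
  q : List (List ℤ)
  k : List (List ℕ)

namespace Tab

variable (t : Tab)

/-- Entry of the Cartan matrix. -/
def cc (i j : ℕ) : ℤ := (t.C.getD i []).getD j 0

/-- Coordinate of a root. -/
def vv (b i : ℕ) : ℤ := (t.v.getD b []).getD i 0

/-- Inner product with a simple root. -/
def ips (b s : ℕ) : ℤ := dot (t.v.getD b []) (t.C.getD s [])

/-- Reflection. -/
def rr (s b : ℕ) : ℕ := (t.r.getD s []).getD b 0

/-- The polynomial `T s b`. -/
def tt (s b : ℕ) : List ℤ := t.q.getD ((t.k.getD s []).getD b 0) []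

/-- `(T s) φ_u` at `b`. -/
def vt (s u b : ℕ) : List ℤ :=
  if b = u then [] else if t.ips b u = 0 then t.tt s b
  else if t.ips b u = 1 then pmx (t.tt s (t.rr u b))
  else pmix (t.tt s b) (t.tt s (t.rr u b))

/-- `(T s) φ_u φ_s` at `b`. -/
def vvt (s u b : ℕ) : List ℤ :=
  if b = s then [] else if t.ips b s = 0 then t.vt s u b
  else if t.ips b s = 1 then pmx (t.vt s u (t.rr s b))
  else pmix (t.vt s u b) (t.vt s u (t.rr s b))

/-- Lengths of the lists. -/
def okLen : Bool :=
  t.C.length == t.n && t.C.all (fun l => l.length == t.n) && t.v.length == t.N &&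
    t.v.all (fun l => l.length == t.n) && decide (t.n ≤ t.N)

/-- Symmetry of the Cartan matrix, diagonal entries `2`, other entries `0`, `-1`. -/
def okC : Bool := (List.range t.n).all fun i => (List.range t.n).all fun j =>
  t.cc i j == t.cc j i && (if i = j then t.cc i j == 2 else t.cc i j == 0 || t.cc i j == -1)

/-- The first roots are the simple roots. -/
def okS : Bool := (List.range t.n).all fun i => (List.range t.n).all fun j =>
  t.vv i j == (if i = j then 1 else 0)

/-- The reflections. -/
def okR : Bool := (List.range t.n).all fun s => t.rr s s == s && (List.range t.N).all fun b =>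
  b == s || (decide (t.rr s b < t.N) && (List.range t.n).all fun i =>
    t.vv (t.rr s b) i == t.vv b i - (if i = s then t.ips b s else 0))

/-- Heights are positive, non-simple roots can be lowered, inner products of different roots are
bounded by one, norms are two. -/
def okB : Bool := (List.range t.N).all fun b =>
  decide (1 ≤ (t.v.getD b []).sum) &&
  (decide (b < t.n) || (List.range t.n).any fun s => t.ips b s == 1) &&
  (let l := (List.range t.n).map fun s => t.ips b s
   (List.range t.N).all fun c =>
    if b = c then dot (t.v.getD c []) l == 2
    else decide (-1 ≤ dot (t.v.getD c []) l) && decide (dot (t.v.getD c []) l ≤ 1))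

/-- The polynomials at the simple roots and at `x = 1`. -/
def okT0 : Bool := (List.range t.n).all fun s =>
  (List.range t.n).all (fun u => peq (t.tt s u) (if s = u then [1] else [])) &&
  (List.range t.N).all fun b => (t.tt s b).sum == (if b = s then 1 else 0)

/-- The conditions for the functionals `T s`, for one `s`. -/
def okT (s : ℕ) : Bool := (List.range t.n).all fun u =>
  if u = s then true
  else if t.cc s u = 0 then (List.range t.N).all fun b => peq (t.vt s u b) (t.tt s b)
  else (List.range t.N).all fun b => peq (t.vt u s b) (t.vt s u b) &&
    peq (t.vvt s u b) (pmix (t.vt s u b) (pmx (t.tt u b)))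

/-- All conditions. -/
def Ok : Prop := t.okLen = true ∧ t.okC = true ∧ t.okS = true ∧ t.okR = true ∧ t.okB = true ∧
  t.okT0 = true ∧ ∀ s < t.n, t.okT s = true

end Tab

end Pool.Agent.Art
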