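import Pool.Agent.Art.RDef
import Pool.Agent.Art.Tab

/-!
# From tables to root data and Lawrence-Krammer-Paris functionals

PROOFS. `t.Ok` is a conjunction of Boolean checks over `List.range`: turn them into statements
`∀ i < n, ...` (`List.all_eq_true`, `List.mem_range`, `decide_eq_true_eq`, `beq_iff_eq`).
`tabB x y = ∑ i j, x i * C i j * y j`, `tabh x = ∑ i, x i`, `v b i = vv b i`, the simple root `s` is the
root with the index `s` (`n ≤ N`), `r s b = rr s b` (for `rr s b < N`, always true by `okR`; junk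
otherwise).
`dot_eq`: `dot` of two lists of length `n` is the sum over `Fin n` of the products of the entries
(`getD`). So `B (v b) (v (a s)) = ips b s`, `B (v b) (v c) =` the `dot` in `okB` (with the symmetric
matrix).
`exists_rd` collects the data: the fields of `RD` follow from the checks; injectivity of `v`: if
`v b = v c`, `b ≠ c`, then `B (v b) (v c) = 2`, but it is `≤ 1`.
`evp l = ∑ l_i * lx ^ i` (`lx = 1 + X`) is compatible with `padd`, `pneg`, `pmx`, `pmix`; `peq a b = true`
implies `evp a = evp b`; `(evp a).eval 0 = a.sum` (`lx.eval 0 = 1`).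
`exists_lk`: `T s b = evp (tt s b)`. `c0`, `red` from `okT0`. The conditions `c1`, `c2`, `c3` are checked
entry by entry with the formula for `u ᵥ* phi s` (`RD.vecMul_phi` in `Phi.lean`, may be imported):
`(T s ᵥ* phi u) b = evp (vt s u b)`, `(T s ᵥ* phi u ᵥ* phi s) b = evp (vvt s u b)`.
The Coxeter matrix `M` fits if `C i j = 2, 0, -1` for `M i j = 1, 2, 3`.
-/

set_option autoImplicit false

namespace Pool.Agent.Art

open Matrix Polynomial

/-- The bilinear form of a table. -/
def Tab.form (t : Tab) : (Fin t.n → ℤ) →+ (Fin t.n → ℤ) →+ ℤ :=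
  AddMonoidHom.mk' (fun x => AddMonoidHom.mk'
    (fun y => ∑ i : Fin t.n, ∑ j : Fin t.n, x i * t.cc i j * y j)
    (fun y z => by simp only [Pi.add_apply, mul_add, Finset.sum_add_distrib]))
    (fun x y => AddMonoidHom.ext fun z => by
      simp only [AddMonoidHom.mk'_apply, Pi.add_apply, add_mul, Finset.sum_add_distrib,
        AddMonoidHom.add_apply])

theorem Tab.form_apply (t : Tab) (x y : Fin t.n → ℤ) :
    t.form x y = ∑ i : Fin t.n, ∑ j : Fin t.n, x i * t.cc i j * y j := rfl

/-- The height. -/
def Tab.height (t : Tab) : (Fin t.n → ℤ) →+ ℤ :=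
  AddMonoidHom.mk' (fun x => ∑ i, x i) (fun x y => by
    simp only [Pi.add_apply, Finset.sum_add_distrib])

/-- The root data of a table. -/
def Tab.IsData (t : Tab) (D : RD (Fin t.n) (Fin t.N) (Fin t.n → ℤ)) : Prop :=
  D.B = t.form ∧ D.h = t.height ∧ (∀ b i, D.v b i = t.vv b i) ∧ (∀ s, (D.a s : ℕ) = s) ∧
    ∀ s b, (D.r s b : ℕ) = t.rr s b

private theorem dot_eq (n : ℕ) : ∀ (a b : List ℤ), a.length = n → b.length = n →
    dot a b = ∑ i : Fin n, a.getD i 0 * b.getD i 0 := by
  induction n with
  | zero =>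
    intro a b ha hb
    rw [List.length_eq_zero_iff] at ha hb
    subst ha hb
    simp [dot]
  | succ n ih =>
    intro a b ha hb
    match a, b, ha, hb with
    | x :: a, y :: b, ha, hb =>
      rw [Fin.sum_univ_succ]
      simp only [dot, List.length_cons, Nat.add_right_cancel_iff] at ha hb ⊢
      rw [ih a b ha hb]
      simp

private theorem sum_eq (n : ℕ) : ∀ (a : List ℤ), a.length = n →
    a.sum = ∑ i : Fin n, a.getD i 0 := by
  induction n with
  | zero =>
    intro a ha
    rw [List.length_eq_zero_iff] at ha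
    subst ha
    simp
  | succ n ih =>
    intro a ha
    match a, ha with
    | x :: a, ha =>
      rw [Fin.sum_univ_succ]
      simp only [List.length_cons, Nat.add_right_cancel_iff] at ha
      rw [List.sum_cons, ih a ha]
      simp

private theorem len_getD {n m : ℕ} {l : List (List ℤ)} (hl : l.length = m)
    (h : ∀ x ∈ l, x.length = n) {i : ℕ} (hi : i < m) : (l.getD i []).length = n := by
  have hi' : i < l.length := by omega
  rw [List.getD_eq_getElem _ _ hi']
  exact h _ (List.getElem_mem hi')

theorem Tab.exists_rd (t : Tab) (ht : t.Ok) : ∃ D, t.IsData D := by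
  obtain ⟨hL, hC, hS, hR, hB, -, -⟩ := ht
  simp only [Tab.okLen, Bool.and_eq_true, beq_iff_eq, List.all_eq_true, decide_eq_true_eq] at hL
  obtain ⟨⟨⟨⟨hC1, hC2⟩, hV1⟩, hV2⟩, hnN⟩ := hL
  simp only [Tab.okC, Bool.and_eq_true, beq_iff_eq, List.all_eq_true, List.mem_range] at hC
  simp only [Tab.okS, beq_iff_eq, List.all_eq_true, List.mem_range] at hS
  simp only [Tab.okR, Bool.and_eq_true, Bool.or_eq_true, beq_iff_eq, List.all_eq_true,
    List.mem_range, decide_eq_true_eq] at hR
  simp only [Tab.okB, Bool.and_eq_true, Bool.or_eq_true, List.all_eq_true,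
    List.mem_range, decide_eq_true_eq, List.any_eq_true, beq_iff_eq] at hB
  have hCl : ∀ i < t.n, (t.C.getD i []).length = t.n := fun i hi => len_getD hC1 hC2 hi
  have hVl : ∀ i < t.N, (t.v.getD i []).length = t.n := fun i hi => len_getD hV1 hV2 hi
  have hsymm : ∀ i < t.n, ∀ j < t.n, t.cc i j = t.cc j i := fun i hi j hj => (hC i hi j hj).1
  have hips : ∀ b < t.N, ∀ s < t.n, t.ips b s = ∑ i : Fin t.n, t.vv b i * t.cc s i := by
    intro b hb s hs
    unfold Tab.ips
    rw [dot_eq t.n _ _ (hVl b hb) (hCl s hs)]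
    rfl
  have hsum : ∀ b < t.N, (t.v.getD b []).sum = ∑ i : Fin t.n, t.vv b i := by
    intro b hb
    rw [sum_eq t.n _ (hVl b hb)]
    rfl
  let V : Fin t.N → Fin t.n → ℤ := fun b i => t.vv b i
  let A : Fin t.n → Fin t.N := fun s => ⟨s, by omega⟩
  have hVA : ∀ s : Fin t.n, ∀ i, V (A s) i = if s = i then 1 else 0 := by
    intro s i
    have := hS s s.2 i i.2
    simp only [V, A]
    rw [this]
    simp only [Fin.ext_iff]
  have hVA' : ∀ s : Fin t.n, V (A s) = Pi.single s 1 := by
    intro s
    funext i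
    rw [hVA]
    by_cases h : s = i
    · subst h
      simp
    · rw [if_neg h, Pi.single_apply, if_neg (fun h' => h h'.symm)]
  have hBs : ∀ b : Fin t.N, ∀ s : Fin t.n, t.form (V b) (V (A s)) = t.ips b s := by
    intro b s
    rw [Tab.form_apply, hips b b.2 s s.2]
    refine Finset.sum_congr rfl fun i _ => ?_
    rw [Finset.sum_eq_single s]
    · rw [hVA, if_pos rfl, mul_one, hsymm i i.2 s s.2]
    · intro j _ hj
      rw [hVA, if_neg (fun h => hj h.symm), mul_zero]
    · intro h
      exact absurd (Finset.mem_univ _) h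
  have hBB : ∀ b c : Fin t.N, t.form (V b) (V c) =
      dot (t.v.getD c []) ((List.range t.n).map fun s => t.ips b s) := by
    intro b c
    rw [dot_eq t.n _ _ (hVl c c.2) (by simp), Tab.form_apply, Finset.sum_comm]
    refine Finset.sum_congr rfl fun j _ => ?_
    have h1 : ((List.range t.n).map fun s => t.ips b s).getD j 0 = t.ips b j := by
      rw [List.getD_eq_getElem _ _ (by simp)]
      simp
    rw [h1, hips b b.2 j j.2, Finset.mul_sum]
    refine Finset.sum_congr rfl fun i _ => ?_
    rw [hsymm j j.2 i i.2]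
    change t.vv b i * t.cc i j * t.vv c j = t.vv c j * (t.vv b i * t.cc i j)
    ring
  have hrlt : ∀ s : Fin t.n, ∀ b : Fin t.N, t.rr s b < t.N := by
    intro s b
    obtain ⟨h1, h2⟩ := hR s s.2
    rcases h2 b b.2 with h | h
    · rw [h, h1]
      omega
    · exact h.1
  have hnorm : ∀ b, t.form (V b) (V b) = 2 := by
    intro b
    have := (hB b b.2).2 b b.2
    rw [if_pos rfl, beq_iff_eq] at this
    rw [hBB, this]
  have hbnd : ∀ b c, b ≠ c → -1 ≤ t.form (V b) (V c) ∧ t.form (V b) (V c) ≤ 1 := by
    intro b c hbc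
    have := (hB b b.2).2 c c.2
    rw [if_neg (fun h => hbc (Fin.ext h)), Bool.and_eq_true, decide_eq_true_eq,
      decide_eq_true_eq] at this
    rw [hBB]
    exact this
  refine ⟨{ B := t.form, h := t.height, v := V, a := A, r := fun s b => ⟨t.rr s b, hrlt s b⟩,
            symm := ?_, norm := hnorm, inj := ?_, inja := ?_, ha := ?_, hpos := ?_,
            r_self := ?_, r_ne := ?_, bnd := hbnd, desc := ?_ }, rfl, rfl, fun _ _ => rfl,
            fun _ => rfl, fun _ _ => rfl⟩
  · intro x y
    rw [Tab.form_apply, Tab.form_apply, Finset.sum_comm]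
    refine Finset.sum_congr rfl fun i _ => Finset.sum_congr rfl fun j _ => ?_
    rw [hsymm i i.2 j j.2]
    ring
  · intro b c hbc
    by_contra h
    have h1 := (hbnd b c h).2
    rw [← hbc, hnorm] at h1
    omega
  · intro s u hsu
    exact Fin.ext (congrArg (fun z : Fin t.N => (z : ℕ)) hsu)
  · intro s
    change ∑ i, V (A s) i = 1
    rw [hVA']
    simp
  · intro b
    have := (hB b b.2).1.1
    rw [hsum b b.2] at this
    exact this
  · intro s
    exact Fin.ext (hR s s.2).1
  · intro s b hb
    obtain ⟨h1, h2⟩ := hR s s.2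
    rcases h2 b b.2 with h | h
    · exact absurd (Fin.ext h) hb
    · funext i
      have h3 := h.2 i i.2
      simp only [Pi.sub_apply, Pi.smul_apply, smul_eq_mul]
      rw [hBs, hVA]
      change t.vv (t.rr s b) i = t.vv b i - t.ips b s * (if s = i then 1 else 0)
      rw [h3]
      by_cases his : s = i
      · subst his
        simp
      · rw [if_neg (fun h' : (i : ℕ) = s => his (Fin.ext h'.symm)), if_neg his, mul_zero]
  · intro b hb
    rcases (hB b b.2).1.2 with h | h
    · exact absurd (Fin.ext rfl : b = A ⟨b, h⟩) (hb _)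
    · obtain ⟨s, hs, h1⟩ := h
      exact ⟨⟨s, hs⟩, by rw [hBs]; exact h1⟩

end Pool.Agent.Art
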