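import Pool.Agent.Art.TabE8

set_option autoImplicit false
set_option maxRecDepth 100000

namespace Pool.Agent.Art

theorem okE8 : tabE8.Ok := by
  refine ⟨by decide +kernel, by decide +kernel, by decide +kernel, by decide +kernel,
    by decide +kernel, by decide +kernel, ?_⟩
  decide +kernel

end Pool.Agent.Art
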