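import Pool.Agent.Art.Defs

/-!
# Pieces: finite Coxeter groups and the affine types `A~`, `B~`, `C~`

Everything in this file is proved.
-/

set_option autoImplicit false

namespace Pool.Agent.Art

/-- The affine type `A~ (n - 1)`, `3 ≤ n`: a cycle with `n` nodes, all labels `3`. -/
def affA (n : ℕ) : CoxeterMatrix (Fin n) where
  M := Matrix.of fun i j : Fin n =>
    if i = j then 1
    else if i.1 + 1 = j.1 ∨ j.1 + 1 = i.1 ∨ (i.1 = 0 ∧ j.1 + 1 = n) ∨ (j.1 = 0 ∧ i.1 + 1 = n)
      then 3 else 2
  isSymm := by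
    unfold Matrix.IsSymm
    ext i j
    simp only [Matrix.transpose_apply, Matrix.of_apply, Fin.ext_iff]
    split_ifs <;> first | rfl | omega
  diagonal := by simp
  off_diagonal := by
    intro i j h
    simp only [Matrix.of_apply]
    split_ifs <;> simp_all

/-- The affine type `B~ (n - 1)`, `4 ≤ n`: the chain `1 - 2 - ... - (n - 1)`, its last label is `4`,
and the node `0` is joined to the node `2`. -/
def affB (n : ℕ) : CoxeterMatrix (Fin n) where
  M := Matrix.of fun i j : Fin n =>
    if i = j then 1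
    else if (i.1 = 0 ∧ j.1 = 2) ∨ (j.1 = 0 ∧ i.1 = 2) then 3
    else if i.1 = 0 ∨ j.1 = 0 then 2
    else if i.1 + 1 = j.1 ∨ j.1 + 1 = i.1 then
      (if i.1 + 1 = n ∨ j.1 + 1 = n then 4 else 3) else 2
  isSymm := by
    unfold Matrix.IsSymm
    ext i j
    simp only [Matrix.transpose_apply, Matrix.of_apply, Fin.ext_iff]
    split_ifs <;> first | rfl | omega
  diagonal := by simp
  off_diagonal := by
    intro i j h
    simp only [Matrix.of_apply]
    split_ifs <;> simp_all

/-- The affine type `C~ (n - 1)`, `3 ≤ n`: the chain `0 - 1 - ... - (n - 1)`, the first and the last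
label are `4`. -/
def affC (n : ℕ) : CoxeterMatrix (Fin n) where
  M := Matrix.of fun i j : Fin n =>
    if i = j then 1 else if i.1 + 1 = j.1 ∨ j.1 + 1 = i.1 then
      (if i.1 = 0 ∨ j.1 = 0 ∨ i.1 + 1 = n ∨ j.1 + 1 = n then 4 else 3) else 2
  isSymm := by
    unfold Matrix.IsSymm
    ext i j
    simp only [Matrix.transpose_apply, Matrix.of_apply, Fin.ext_iff]
    split_ifs <;> first | rfl | omega
  diagonal := by simp
  off_diagonal := by
    intro i j h
    simp only [Matrix.of_apply]
    split_ifs <;> simp_all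

/-- Disjoint unions (with label `2` between the parts) of Coxeter matrices whose Coxeter group is
finite and of Coxeter matrices of the affine types `A~`, `B~`, `C~`. -/
inductive Pieces : (B : Type) → CoxeterMatrix B → Prop
  | fin (B : Type) (M : CoxeterMatrix B) (hB : Finite B) (h : Finite M.Group) : Pieces B M
  | affA (B : Type) (M : CoxeterMatrix B) (n : ℕ) (hn : 3 ≤ n) (e : Fin n ≃ B)
      (h : ∀ i j, M (e i) (e j) = affA n i j) : Pieces B M
  | affB (B : Type) (M : CoxeterMatrix B) (n : ℕ) (hn : 4 ≤ n) (e : Fin n ≃ B)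
      (h : ∀ i j, M (e i) (e j) = affB n i j) : Pieces B M
  | affC (B : Type) (M : CoxeterMatrix B) (n : ℕ) (hn : 3 ≤ n) (e : Fin n ≃ B)
      (h : ∀ i j, M (e i) (e j) = affC n i j) : Pieces B M
  | sum (B : Type) (M : CoxeterMatrix B) (T : Set B) (h : ∀ i ∈ T, ∀ j ∉ T, M i j = 2)
      (h1 : Pieces T (rst M T)) (h2 : Pieces (Tᶜ : Set B) (rst M Tᶜ)) : Pieces B M

end Pool.Agent.Art
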