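import Pool.Agent.Art.PcDef
import Pool.Agent.Art.Aff
import Pool.Agent.Art.ClSph

/-!
# Artin groups with finite pieces and affine pieces of the types `A~`, `B~`, `C~`
-/

set_option autoImplicit false

namespace Pool.Agent.Art

open Pool.Agent.HL

theorem Pieces.euc {B : Type} {M : CoxeterMatrix B} (h : Pieces B M) : Euc B M := by
  induction h with
  | fin B M hB h => exact Euc.sph B M (sph_of_finite M h)
  | affA B M n hn e h => exact Euc.affA B M n hn e h
  | affB B M n hn e h => exact Euc.affB B M n hn e h
  | affC B M n hn e h => exact Euc.affC B M n hn e h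
  | sum B M T h _ _ ih1 ih2 => exact Euc.sum B M T h ih1 ih2

/-- The Artin group of `M` is in the class `HierL` if every finite set of nodes without label
infinity is a disjoint union of pieces. -/
theorem hierL_of_pcs {B : Type} (M : CoxeterMatrix B)
    (h : ∀ T : Set B, T.Finite → (∀ i ∈ T, ∀ j ∈ T, M i j ≠ 0) → Pieces T (rst M T)) :
    HierL (Artin M) :=
  hierL_fce fun T hT hT' => (h T hT hT').euc

/-- The finite Coxeter groups and FC type. -/
theorem pieces_of_finite {B : Type} (M : CoxeterMatrix B)
    (h : ∀ T : Set B, T.Finite → (∀ i ∈ T, ∀ j ∈ T, M i j ≠ 0) → Finite (rst M T).Group) :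
    ∀ T : Set B, T.Finite → (∀ i ∈ T, ∀ j ∈ T, M i j ≠ 0) → Pieces T (rst M T) :=
  fun T hT hT' => Pieces.fin _ _ hT (h T hT hT')

end Pool.Agent.Art
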