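import Pool.Agent.Art.Phi

/-!
# Braid relations for psi

PROOF. `psi s = φ_s + y • e_s ⊗ T_s` with `e_s = Pi.single (a s) 1`, `⊗ = vecMulVec`. Use
`A * vecMulVec e f = vecMulVec (A *ᵥ e) f`, `vecMulVec e f * A = vecMulVec e (f ᵥ* A)`,
`vecMulVec e f * vecMulVec e' f' = (f ⬝ᵥ e') • vecMulVec e f'`, and `T_s ⬝ᵥ e_t = T s (a t)` (`c0`).
Label 2: `psi s * psi t = φ_s φ_t + y • (φ_s e_t ⊗ T_t + e_s ⊗ T_s φ_t) + 0`, with `φ_s e_t = e_t`
(`phi_col_two`) and `T_s φ_t = T_s` (`c1`): symmetric in `s, t`.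
Label 3: the coefficient of `y ^ 3` and the terms with `T_s ⬝ᵥ e_t` vanish; `y ^ 2`:
`e_s ⊗ (T_s ⬝ᵥ φ_t e_s) T_s` with `T_s ⬝ᵥ φ_t e_s = (1 - x) * 1 + T_s (r t (a s)) = 0`; this is `(T_s φ_t) (a s)`;
evaluate `c3` at `b = a s`: `(T_s φ_t φ_s) (a s) = 0`, so `0 = (1 - x) (T_s φ_t)(a s) + x T_t (a s)`, and
`T_t (a s) = 0`, `1 - x = -X` is not a zero divisor, so `(T_s φ_t) (a s) = 0`. `y ^ 1`:
`e_s ⊗ T_s φ_t φ_s + (φ_s e_t) ⊗ T_t φ_s + (φ_s φ_t e_s) ⊗ T_s`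
`= e_s ⊗ ((1-x) T_s φ_t + x T_t) + ((1-x) e_t + e_r) ⊗ T_t φ_s + x e_t ⊗ T_s` with `r = r s (a t)`; by `c2`
`T_t φ_s = T_s φ_t`, and the expression is symmetric in `s, t` (`r_a_comm`).
`psi_rel`: by `Fits`.
-/

set_option autoImplicit false

namespace Pool.Agent.Art

open Matrix Polynomial

variable {S P V : Type} [AddCommGroup V] [DecidableEq P] [Fintype P] [DecidableEq S]
  {D : RD S P V} {M : CoxeterMatrix S}

private theorem vm_psi (K : LK D M) (s : S) (u : P → ℤ[X]) :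
    u ᵥ* K.psi s = u ᵥ* D.phi s + (ly * u (D.a s)) • K.T s := by
  unfold LK.psi
  rw [Matrix.vecMul_add, Matrix.vecMul_smul, Matrix.vecMul_vecMulVec, dotProduct_single, mul_one]
  rw [smul_smul]

private theorem ext_psi {A B : Matrix P P ℤ[X]} (h : ∀ u : P → ℤ[X], u ᵥ* A = u ᵥ* B) :
    A = B := by
  ext1 i j
  have h1 := congrFun (h (Pi.single i 1)) j
  simpa using h1

omit [DecidableEq S] in
private theorem vm_two_psi {s t : S} (h : D.ip (D.a s) (D.a t) = 0) (u : P → ℤ[X]) :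
    (u ᵥ* D.phi s) (D.a t) = u (D.a t) := by
  have h' : D.ip (D.a t) (D.a s) = 0 := by rw [D.ip_comm, h]
  rw [D.vecMul_phi, if_neg (D.ne_of_ip (by rw [h']; norm_num)), if_pos h']

omit [DecidableEq S] in
private theorem vm_three_psi {s t : S} (h : D.ip (D.a s) (D.a t) = -1) (u : P → ℤ[X]) :
    (u ᵥ* D.phi s) (D.a t) = (1 - lx) * u (D.a t) + u (D.r s (D.a t)) := by
  have h' : D.ip (D.a t) (D.a s) = -1 := by rw [D.ip_comm, h]
  rw [D.vecMul_phi, if_neg (D.ne_of_ip (by rw [h']; norm_num)), if_neg (by rw [h']; norm_num),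
    if_neg (by rw [h']; norm_num)]

omit [DecidableEq S] in
private theorem vm_self_psi (s : S) (u : P → ℤ[X]) : (u ᵥ* D.phi s) (D.a s) = 0 := by
  rw [D.vecMul_phi, if_pos rfl]

omit [DecidableEq S] in
private theorem vm_gam_psi {s t : S} (h : D.ip (D.a s) (D.a t) = -1) (u : P → ℤ[X]) :
    (u ᵥ* D.phi s) (D.r s (D.a t)) = lx * u (D.a t) := by
  have h' : D.ip (D.a t) (D.a s) = -1 := by rw [D.ip_comm, h]
  have h1 : D.ip (D.r s (D.a t)) (D.a s) = 1 := by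
    rw [D.ip_r_a (D.ne_of_ip (by rw [h']; norm_num)), h']
    norm_num
  rw [D.vecMul_phi, if_neg (D.ne_of_ip (by rw [h1]; norm_num)), if_neg (by rw [h1]; norm_num),
    if_pos h1, D.r_r]

theorem LK.psi_comm (K : LK D M) {s t : S} (hst : s ≠ t) (h2 : M s t = 2)
    (h : D.ip (D.a s) (D.a t) = 0) : K.psi s * K.psi t = K.psi t * K.psi s := by
  have h' : D.ip (D.a t) (D.a s) = 0 := by rw [D.ip_comm, h]
  have h2' : M t s = 2 := (M.symmetric t s).trans h2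
  refine ext_psi fun u => ?_
  rw [← Matrix.vecMul_vecMul, ← Matrix.vecMul_vecMul, vm_psi K s u, vm_psi K t u, vm_psi K t,
    vm_psi K s]
  simp only [Matrix.add_vecMul, Matrix.smul_vecMul, Pi.add_apply, Pi.smul_apply, smul_eq_mul,
    vm_two_psi h, vm_two_psi h', K.c0, if_neg hst, if_neg hst.symm, mul_zero, add_zero,
    K.c1 s t h2, K.c1 t s h2']
  rw [Matrix.vecMul_vecMul, Matrix.vecMul_vecMul, D.phi_comm h]
  abel

private theorem braid_psi (K : LK D M) {s t : S} (hst : s ≠ t) (h3 : M s t = 3)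
    (h : D.ip (D.a s) (D.a t) = -1) (u : P → ℤ[X]) :
    ((u ᵥ* K.psi s) ᵥ* K.psi t) ᵥ* K.psi s = ((u ᵥ* D.phi s) ᵥ* D.phi t) ᵥ* D.phi s +
      (ly * ((1 - lx) * (u (D.a s) + u (D.a t)) + u (D.r s (D.a t)))) • (K.T s ᵥ* D.phi t) +
      ((ly * lx * u (D.a s)) • K.T t + (ly * lx * u (D.a t)) • K.T s) := by
  have h' : D.ip (D.a t) (D.a s) = -1 := by rw [D.ip_comm, h]
  have hz : (K.T s ᵥ* D.phi t) (D.a s) = 0 := by
    have h1 := congrFun (K.c3 s t h3) (D.a s)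
    rw [vm_self_psi, Pi.add_apply, Pi.smul_apply, Pi.smul_apply, K.c0, if_neg hst.symm,
      smul_zero, add_zero, smul_eq_mul] at h1
    have h2 : (1 : ℤ[X]) - lx ≠ 0 := by
      unfold lx
      intro h2
      apply (Polynomial.X_ne_zero : (Polynomial.X : ℤ[X]) ≠ 0)
      linear_combination -h2
    exact (mul_eq_zero.1 h1.symm).resolve_left h2
  have hu : ((u ᵥ* D.phi s) ᵥ* D.phi t) (D.a s) = lx * u (D.a t) := by
    rw [vm_three_psi h', vm_self_psi, mul_zero, zero_add, ← D.r_a_comm h, vm_gam_psi h]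
  rw [vm_psi K s u, vm_psi K t, vm_psi K s]
  simp only [Matrix.add_vecMul, Matrix.smul_vecMul, Pi.add_apply, Pi.smul_apply, smul_eq_mul,
    vm_three_psi h, K.c0, if_neg hst, if_neg hst.symm, mul_zero, add_zero, hz, hu,
    K.c3 s t h3, K.c2 s t h3]
  module

theorem LK.psi_braid (K : LK D M) {s t : S} (hst : s ≠ t) (h3 : M s t = 3)
    (h : D.ip (D.a s) (D.a t) = -1) :
    K.psi s * K.psi t * K.psi s = K.psi t * K.psi s * K.psi t := by
  have h' : D.ip (D.a t) (D.a s) = -1 := by rw [D.ip_comm, h]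
  have h3' : M t s = 3 := (M.symmetric t s).trans h3
  refine ext_psi fun u => ?_
  rw [← Matrix.vecMul_vecMul, ← Matrix.vecMul_vecMul, ← Matrix.vecMul_vecMul,
    ← Matrix.vecMul_vecMul, braid_psi K hst h3 h u, braid_psi K hst.symm h3' h' u,
    ← K.c2 s t h3, ← D.r_a_comm h, add_comm (u (D.a t)) (u (D.a s)),
    add_comm ((ly * lx * u (D.a t)) • K.T s)]
  congr 2
  have h4 := congrArg (fun A => u ᵥ* A) (D.phi_braid h)
  simpa only [← Matrix.vecMul_vecMul] using h4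

theorem LK.psi_rel (K : LK D M) (hM : D.Fits M) (s t : S) :
    alt (K.psi s) (K.psi t) (M s t) = alt (K.psi t) (K.psi s) (M s t) := by
  by_cases hst : s = t
  · rw [hst]
  · rcases hM s t hst with ⟨h3, h⟩ | ⟨h2, h⟩
    · rw [h3, alt_three, alt_three, K.psi_braid hst h3 h]
    · rw [h2, alt_two, alt_two, K.psi_comm hst h2 h]

end Pool.Agent.Art
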