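import Pool.Agent.Art.RDef

/-!
# Root data: basic lemmas

PROOFS: computations with the bilinear form (`ip b c = B (v b) (v c)`), `v (a s)` has norm 2.
`ip_cases`: `bnd`. `r_zero`: `v (r s b) = v b` (`b ≠ a s` as `ip (a s) (a s) = 2`), injectivity.
`r_r`: for `b ≠ a s` also `r s b ≠ a s` (otherwise `v b - c • v (a s) = v (a s)`, apply `h`:
`h (v b) = 1 + c`, and `v b = (1 + c) • v (a s)`, norm `2 = 2 (1 + c) ^ 2`, `c = 0` or `c = -2`; height
`≥ 1` gives `c = 0`, `b = a s`), and the reflection is an involution.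
`rho_v`: `r_ne`. `rho_self`.
`ip_r`: the reflection is an isometry.
`simple_ne`: `v (a s) ≠ v b + v c` by heights.
-/

set_option autoImplicit false

namespace Pool.Agent.Art

namespace RD

variable {S P V : Type} [AddCommGroup V] (D : RD S P V)

theorem ip_comm (b c : P) : D.ip b c = D.ip c b := D.symm _ _

theorem ip_self (b : P) : D.ip b b = 2 := D.norm b

theorem ip_cases (b c : P) : b = c ∨ D.ip b c = -1 ∨ D.ip b c = 0 ∨ D.ip b c = 1 := by
  by_cases h : b = c
  · exact Or.inl h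
  · right
    have h1 : -1 ≤ D.ip b c ∧ D.ip b c ≤ 1 := D.bnd b c h
    omega

theorem ne_of_ip {b c : P} (h : D.ip b c ≠ 2) : b ≠ c := by
  rintro rfl
  exact h (D.ip_self b)

private theorem rbas_v {s : S} {b : P} (h : b ≠ D.a s) :
    D.v (D.r s b) = D.v b - D.ip b (D.a s) • D.v (D.a s) := D.r_ne s b h

theorem r_zero {s : S} {b : P} (h : D.ip b (D.a s) = 0) : D.r s b = b := by
  apply D.inj
  rw [rbas_v D (D.ne_of_ip (by rw [h]; norm_num)), h, zero_smul, sub_zero]

theorem v_r_one {s : S} {b : P} (h : D.ip b (D.a s) = 1) :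
    D.v (D.r s b) = D.v b - D.v (D.a s) := by
  rw [rbas_v D (D.ne_of_ip (by rw [h]; norm_num)), h, one_smul]

theorem v_r_neg {s : S} {b : P} (h : D.ip b (D.a s) = -1) :
    D.v (D.r s b) = D.v b + D.v (D.a s) := by
  rw [rbas_v D (D.ne_of_ip (by rw [h]; norm_num)), h, neg_smul, one_smul, sub_neg_eq_add]

private theorem rbas_B (b : P) (c : ℤ) (s : S) (y : V) :
    D.B (D.v b - c • D.v (D.a s)) y = D.B (D.v b) y - c * D.B (D.v (D.a s)) y := by
  simp only [map_sub, map_zsmul, AddMonoidHom.sub_apply, AddMonoidHom.smul_apply, smul_eq_mul]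

theorem ip_r_left {s : S} {b : P} (hb : b ≠ D.a s) (c : P) :
    D.ip (D.r s b) c = D.ip b c - D.ip b (D.a s) * D.ip (D.a s) c := by
  unfold ip
  rw [D.r_ne s b hb, rbas_B]

theorem ip_r_a {s : S} {b : P} (hb : b ≠ D.a s) : D.ip (D.r s b) (D.a s) = -D.ip b (D.a s) := by
  rw [D.ip_r_left hb, D.ip_self]
  ring

theorem r_ne_a {s : S} {b : P} (h : b ≠ D.a s) : D.r s b ≠ D.a s := by
  intro h1
  have h2 := D.ip_r_a h
  rw [h1, D.ip_self] at h2
  have h3 : -1 ≤ D.ip b (D.a s) ∧ D.ip b (D.a s) ≤ 1 := D.bnd b _ h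
  omega

theorem rho_v {s : S} {b : P} (h : b ≠ D.a s) : D.rho s (D.v b) = D.v (D.r s b) := by
  rw [D.r_ne s b h, rho_apply]

theorem rho_self (s : S) : D.rho s (D.v (D.a s)) = -D.v (D.a s) := by
  rw [rho_apply, D.norm]
  rw [two_smul]
  abel

theorem rho_rho (s : S) (y : V) : D.rho s (D.rho s y) = y := (D.rho s).left_inv y

theorem r_r (s : S) (b : P) : D.r s (D.r s b) = b := by
  by_cases h : b = D.a s
  · rw [h, D.r_self, D.r_self]
  · apply D.inj
    rw [← D.rho_v (D.r_ne_a h), ← D.rho_v h, rho_rho]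

theorem B_rho (s : S) (x y : V) : D.B (D.rho s x) (D.rho s y) = D.B x y := by
  rw [rho_apply, rho_apply]
  have h : D.B (D.v (D.a s)) (D.v (D.a s)) = 2 := D.norm _
  have h1 : D.B (D.v (D.a s)) y = D.B y (D.v (D.a s)) := D.symm _ _
  simp only [map_sub, map_zsmul, AddMonoidHom.sub_apply, AddMonoidHom.smul_apply, smul_eq_mul,
    h, h1]
  ring

theorem ip_r {s : S} {b c : P} (hb : b ≠ D.a s) (hc : c ≠ D.a s) :
    D.ip (D.r s b) (D.r s c) = D.ip b c := by
  unfold ip
  rw [← D.rho_v hb, ← D.rho_v hc, B_rho]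

/-- A simple root is not a sum of two positive roots. -/
theorem simple_ne (s : S) (b c : P) : D.v (D.a s) ≠ D.v b + D.v c := by
  intro h
  have h1 := congrArg D.h h
  rw [map_add, D.ha] at h1
  have h2 := D.hpos b
  have h3 := D.hpos c
  omega

/-- `rho s` maps positive roots other than `a s` to positive roots, and roots to roots. -/
theorem rho_root (s : S) (b : P) :
    (∃ c, D.rho s (D.v b) = D.v c) ∨ (∃ c, D.rho s (D.v b) = -D.v c) := by
  by_cases h : b = D.a s
  · right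
    exact ⟨D.a s, by rw [h, rho_self]⟩
  · left
    exact ⟨D.r s b, D.rho_v h⟩

end RD

end Pool.Agent.Art
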