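import Pool.Agent.Art.BurDef

/-!
# Simply laced root data, frames, the Lawrence-Krammer-Paris matrices: definitions
-/

set_option autoImplicit false

namespace Pool.Agent.Art

open Matrix

/-- Simply laced finite root data: `P` is the set of positive roots, `v` its embedding into the
lattice `V`, `a s` the simple roots, `r s` the permutation of `P` induced by the reflection in `a s`
(with `r s (a s) = a s`), `h` the height. -/
structure RD (S P V : Type) [AddCommGroup V] where
  B : V →+ V →+ ℤ
  h : V →+ ℤ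
  v : P → V
  a : S → P
  r : S → P → P
  symm : ∀ x y, B x y = B y x
  norm : ∀ b, B (v b) (v b) = 2
  inj : Function.Injective v
  inja : Function.Injective a
  ha : ∀ s, h (v (a s)) = 1
  hpos : ∀ b, 1 ≤ h (v b)
  r_self : ∀ s, r s (a s) = a s
  r_ne : ∀ s b, b ≠ a s → v (r s b) = v b - B (v b) (v (a s)) • v (a s)
  bnd : ∀ b c, b ≠ c → -1 ≤ B (v b) (v c) ∧ B (v b) (v c) ≤ 1
  desc : ∀ b, (∀ s, b ≠ a s) → ∃ s, B (v b) (v (a s)) = 1

namespace RD

variable {S P V : Type} [AddCommGroup V] (D : RD S P V)

/-- The inner product of two positive roots. -/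
def ip (b c : P) : ℤ := D.B (D.v b) (D.v c)

/-- The data fit the (simply laced) Coxeter matrix `M`. -/
def Fits (M : CoxeterMatrix S) : Prop :=
  ∀ s t, s ≠ t → (M s t = 3 ∧ D.ip (D.a s) (D.a t) = -1) ∨
    (M s t = 2 ∧ D.ip (D.a s) (D.a t) = 0)

/-- The reflection in the simple root `a s`. -/
def rho (s : S) : V ≃ₗ[ℤ] V where
  toFun y := y - D.B y (D.v (D.a s)) • D.v (D.a s)
  invFun y := y - D.B y (D.v (D.a s)) • D.v (D.a s)
  left_inv y := by
    have h : D.B (D.v (D.a s)) (D.v (D.a s)) = 2 := D.norm _
    simp only [map_sub, map_zsmul, AddMonoidHom.sub_apply, AddMonoidHom.smul_apply, h]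
    module
  right_inv y := by
    have h : D.B (D.v (D.a s)) (D.v (D.a s)) = 2 := D.norm _
    simp only [map_sub, map_zsmul, AddMonoidHom.sub_apply, AddMonoidHom.smul_apply, h]
    module
  map_add' x y := by
    simp only [map_add, AddMonoidHom.add_apply, add_smul]
    abel
  map_smul' c x := by
    simp only [map_zsmul, AddMonoidHom.smul_apply, smul_assoc, RingHom.id_apply, smul_sub]

theorem rho_apply (s : S) (y : V) :
    D.rho s y = y - D.B y (D.v (D.a s)) • D.v (D.a s) := rfl

/-- Frames: an ordered root system of type `A (p - 1)` with positivity given by the order. -/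
def IsFrame (p : ℕ) (d : Fin p → Fin p → V) : Prop :=
  (∀ i j k, d i j + d j k = d i k) ∧ ∀ i j, i < j → ∃ b : P, d i j = D.v b

/-- The type of frames. -/
abbrev Fr (p : ℕ) : Type := {d : Fin p → Fin p → V // D.IsFrame p d}

/-- The simple root `a s` is the entry `i, i + 1` of the frame. -/
def At (s : S) {p : ℕ} (d : D.Fr p) (i : ℕ) : Prop :=
  ∃ h : i + 1 < p, d.1 ⟨i, by omega⟩ ⟨i + 1, h⟩ = D.v (D.a s)

open Classical in
/-- The matrix attached to a generator and a frame. -/
noncomputable def frMat (s : S) {p : ℕ} (d : D.Fr p) : Matrix (Fin p) (Fin p) (PowerSeries ℤ) :=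
  if h : ∃ i, D.At s d i then blk p h.choose else 1

end RD

section lkp

open Polynomial

/-- The parameter `x = 1 + X`. -/
noncomputable def lx : ℤ[X] := 1 + X

/-- The parameter `y = 1 + 2 X`. -/
noncomputable def ly : ℤ[X] := 1 + 2 * X

variable {S P V : Type} [AddCommGroup V] [DecidableEq P] (D : RD S P V)

/-- The matrices of the degenerate representation. -/
noncomputable def RD.phi (s : S) : Matrix P P ℤ[X] :=
  Matrix.of fun c b =>
    if b = D.a s then 0
    else if D.ip b (D.a s) = 0 then (if c = b then 1 else 0)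
    else if D.ip b (D.a s) = 1 then (if c = D.r s b then lx else 0)
    else (if c = b then 1 - lx else 0) + (if c = D.r s b then 1 else 0)

/-- The functionals `T s` of the Lawrence-Krammer-Paris representation. -/
structure LK [Fintype P] [DecidableEq S] (M : CoxeterMatrix S) where
  T : S → P → ℤ[X]
  c0 : ∀ s t, T s (D.a t) = if s = t then 1 else 0
  red : ∀ s b, (T s b).eval 0 = if b = D.a s then 1 else 0
  c1 : ∀ s t, M s t = 2 → T s ᵥ* D.phi t = T s
  c2 : ∀ s t, M s t = 3 → T t ᵥ* D.phi s = T s ᵥ* D.phi t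
  c3 : ∀ s t, M s t = 3 →
    (T s ᵥ* D.phi t) ᵥ* D.phi s = (1 - lx) • (T s ᵥ* D.phi t) + lx • T t

variable {D} in
/-- The matrices of the Lawrence-Krammer-Paris representation. -/
noncomputable def LK.psi [Fintype P] [DecidableEq S] {M : CoxeterMatrix S} (K : LK D M) (s : S) :
    Matrix P P ℤ[X] :=
  D.phi s + ly • vecMulVec (Pi.single (D.a s) 1) (K.T s)

end lkp

end Pool.Agent.Art
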