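import Pool.Agent.Art.Psi
import Pool.Agent.Art.WHom

/-!
# The Lawrence-Krammer-Paris representation

PROOFS. `psi_eval0`: `lx`, `ly` have value `1` at `0`, `red`; the column `b` of `psi s` at `0`: `b = a s`:
only `T s (a s) = 1` in the row `a s = r s (a s)`; `ip = 0`: `r s b = b`; the term of `T` vanishes by `red`.
`isUnit_psiPS`: the constant coefficient of the determinant is the determinant of the permutation
matrix of `r s`, a unit; `PowerSeries.isUnit_iff_constantCoeff`, `Matrix.isUnit_iff_isUnit_det`,
`RingHom.map_det`. (Or: `det ^ 2` has constant coefficient 1.)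
`rep_const`: induction on `g` (`Subgroup.closure_induction` or `artin_induction`): permutation
matrices multiply; inverse: if `A B = 1` and `A ≡` the permutation matrix of `π` then `B ≡` the one of `π⁻¹`.
-/

set_option autoImplicit false

namespace Pool.Agent.Art

open Matrix

variable {S P V : Type} [AddCommGroup V] [DecidableEq P] [Fintype P] [DecidableEq S]
  {D : RD S P V} {M : CoxeterMatrix S}

/-- From polynomials to power series. -/
noncomputable def toPS : Polynomial ℤ →+* PowerSeries ℤ := Polynomial.coeToPowerSeries.ringHom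

theorem toPS_injective : Function.Injective toPS := Polynomial.coe_injective ℤ

private theorem const_toPS (p : Polynomial ℤ) :
    PowerSeries.constantCoeff (toPS p) = p.eval 0 := by
  rw [← Polynomial.coeff_zero_eq_eval_zero]
  exact Polynomial.constantCoeff_coe p

theorem LK.psi_eval0 (K : LK D M) (s : S) (c b : P) :
    (K.psi s c b).eval 0 = if c = D.r s b then 1 else 0 := by
  have hx : (lx : Polynomial ℤ).eval 0 = 1 := by
    unfold lx
    simp
  have hy : (ly : Polynomial ℤ).eval 0 = 1 := by
    unfold ly
    simp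
  have h0 : K.psi s c b = D.phi s c b +
      ly * ((Pi.single (D.a s) 1 : P → Polynomial ℤ) c * K.T s b) := rfl
  have h1 : (K.psi s c b).eval 0 = (D.phi s c b).eval 0 +
      (if c = D.a s then 1 else 0) * (if b = D.a s then 1 else 0) := by
    rw [h0, Polynomial.eval_add, Polynomial.eval_mul, Polynomial.eval_mul, hy, K.red, one_mul,
      Pi.single_apply]
    congr 2
    split_ifs <;> simp
  rw [h1]
  unfold RD.phi
  rw [Matrix.of_apply]
  by_cases hb : b = D.a s
  · rw [if_pos hb, if_pos hb, hb, D.r_self]
    simp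
  · rw [if_neg hb, if_neg hb, mul_zero, add_zero]
    rcases D.ip_cases b (D.a s) with h | h | h | h
    · exact absurd h hb
    · rw [h, if_neg (by norm_num), if_neg (by norm_num), Polynomial.eval_add]
      split_ifs <;> simp [hx]
    · rw [h, if_pos rfl, D.r_zero h]
      split_ifs <;> simp
    · rw [h, if_neg (by norm_num), if_pos rfl]
      split_ifs <;> simp [hx]

/-- The permutation matrices. -/
private def pmat : Equiv.Perm P →* Matrix P P ℤ where
  toFun σ := Matrix.of fun c b => if c = σ b then 1 else 0
  map_one' := by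
    ext c b
    rw [Matrix.of_apply, Matrix.one_apply, Equiv.Perm.one_apply]
  map_mul' σ τ := by
    ext c b
    rw [Matrix.mul_apply]
    simp only [Matrix.of_apply, mul_ite, mul_one, mul_zero]
    rw [Finset.sum_ite_eq' Finset.univ (τ b), if_pos (Finset.mem_univ _)]
    rfl

private theorem pmat_apply (σ : Equiv.Perm P) (c b : P) :
    pmat σ c b = if c = σ b then 1 else 0 := rfl

private theorem map_psiPS (K : LK D M) (s : S) :
    ((K.psi s).map toPS).map (PowerSeries.constantCoeff (R := ℤ)) = pmat (D.rp s) := by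
  ext c b
  rw [Matrix.map_apply, Matrix.map_apply, const_toPS, K.psi_eval0, pmat_apply]
  rfl

theorem LK.isUnit_psiPS (K : LK D M) (s : S) : IsUnit ((K.psi s).map toPS) := by
  rw [Matrix.isUnit_iff_isUnit_det, PowerSeries.isUnit_iff_constantCoeff, RingHom.map_det,
    RingHom.mapMatrix_apply, map_psiPS, ← Matrix.isUnit_iff_isUnit_det]
  exact (Group.isUnit (D.rp s)).map pmat

/-- The unit attached to a generator. -/
noncomputable def LK.unit (K : LK D M) (s : S) : (Matrix P P (PowerSeries ℤ))ˣ :=
  (K.isUnit_psiPS s).unit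

theorem LK.unit_val (K : LK D M) (s : S) : ((K.unit s : (Matrix P P (PowerSeries ℤ))ˣ) :
    Matrix P P (PowerSeries ℤ)) = (K.psi s).map toPS := rfl

theorem LK.unit_rel (K : LK D M) (hM : D.Fits M) (s t : S) (_h : M s t ≠ 0) :
    alt (K.unit s) (K.unit t) (M s t) = alt (K.unit t) (K.unit s) (M s t) := by
  have key : ∀ (a b : S) (m : ℕ), ((alt (K.unit a) (K.unit b) m :
      (Matrix P P (PowerSeries ℤ))ˣ) : Matrix P P (PowerSeries ℤ)) =
      toPS.mapMatrix (alt (K.psi a) (K.psi b) m) := by
    intro a b m
    rw [map_alt]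
    exact map_alt (Units.coeHom (Matrix P P (PowerSeries ℤ))) m (K.unit a) (K.unit b)
  apply Units.ext
  rw [key, key, K.psi_rel hM s t]

/-- The Lawrence-Krammer-Paris representation. -/
noncomputable def LK.rep (K : LK D M) (hM : D.Fits M) :
    Artin M →* (Matrix P P (PowerSeries ℤ))ˣ := lift K.unit (K.unit_rel hM)

theorem LK.rep_gen (K : LK D M) (hM : D.Fits M) (s : S) : K.rep hM (gen M s) = K.unit s :=
  lift_gen _ _ s

theorem LK.rep_const (K : LK D M) (hM : D.Fits M) (g : Artin M) (c b : P) :
    PowerSeries.constantCoeff ((K.rep hM g : Matrix P P (PowerSeries ℤ)) c b) =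
      if c = D.perm hM g b then 1 else 0 := by
  let f₁ : Artin M →* Matrix P P ℤ :=
    ((PowerSeries.constantCoeff (R := ℤ)).mapMatrix.toMonoidHom.comp
      (Units.coeHom (Matrix P P (PowerSeries ℤ)))).comp (K.rep hM)
  let f₂ : Artin M →* Matrix P P ℤ := pmat.comp (D.perm hM)
  have h : f₁.toHomUnits = f₂.toHomUnits := by
    refine hom_ext fun s => Units.ext ?_
    rw [MonoidHom.coe_toHomUnits, MonoidHom.coe_toHomUnits]
    have h1 : f₁ (gen M s) = ((K.psi s).map toPS).map (PowerSeries.constantCoeff (R := ℤ)) := by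
      change (PowerSeries.constantCoeff (R := ℤ)).mapMatrix
        ((K.rep hM (gen M s) : (Matrix P P (PowerSeries ℤ))ˣ) : Matrix P P (PowerSeries ℤ)) = _
      rw [K.rep_gen, K.unit_val]
      rfl
    have h2 : f₂ (gen M s) = pmat (D.rp s) := by
      change pmat (D.perm hM (gen M s)) = _
      rw [D.perm_gen]
    rw [h1, h2, map_psiPS]
  have h3 : f₁ g = f₂ g := by
    rw [← MonoidHom.coe_toHomUnits, h, MonoidHom.coe_toHomUnits]
  exact congrFun (congrFun h3 c) b

/-- The pure Artin group is congruent to the identity modulo `X`. -/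
theorem LK.rep_pure (K : LK D M) (hM : D.Fits M) {g : Artin M} (hg : D.w hM g = 1) (c b : P) :
    PowerSeries.X ∣ ((K.rep hM g : Matrix P P (PowerSeries ℤ)) - 1) c b := by
  rw [PowerSeries.X_dvd_iff, Matrix.sub_apply, map_sub, K.rep_const, D.perm_of_w hM hg,
    Matrix.one_apply, Equiv.Perm.one_apply]
  split_ifs <;> simp

end Pool.Agent.Art
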