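import Pool.Agent.Art.Rep

/-!
# Words and rows

`ev` = evaluation at `X = -1/2`: `x = 1/2`, `y = 0`. `phiQ s` is the matrix `phi s` at this point, `phiW u` the
product over a word, `psiW u` the product of the matrices `psi s`, `wd u` the element of the Artin group.
PROOFS.
`phiQ_mul`: the rows of `phi s * A` (see the columns of `phi s`: the row `c` of `phi s` has the entries:
`c = a s`: all `0` (a column `b` with `r s b = a s` is `b = a s`); `ip c (a s) = 0`: `1` at `b = c`;
`ip = 1`: `1` at `b = r s c` (there `ip b (a s) = -1`), and nothing at `b = c`; `ip = -1`: `1 - x = 1/2` at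
`b = c` and `x = 1/2` at `b = r s c`).
`phiW_nonneg`: induction with `phiQ_mul`. `psiW_map_ev`: `ev ly = 0`, induction.
`phiW_eq`: if `wd u = wd v` then `rep` gives `(psiW u).map toPS = (psiW v).map toPS`, `toPS` is injective,
so `psiW u = psiW v`, `phiW u = phiW v`.
`row_lemma`: strong induction on the length of `u` (all `s`), see /team-store/ARTIN.md (4.2): `u = []`:
`phiW [] = 1` has the entry `1` at `(a s, a s)`. `u = t :: u₁`: if `t = s`: `u' = u₁`. `M s t = 2`
(`ip (a s) (a t) = 0`): the row `a s` of `phiW u` is the row `a s` of `phiW u₁` (`phiQ_mul`), so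
`wd u₁ = gen s * wd u₂`; `gen t * gen s = gen s * gen t`; `u' = t :: u₂`. `M s t = 3`: the row `a s` of
`phiW u` is half the sum of the rows `a s` and `r t (a s)` of `phiW u₁`, both are zero
(nonnegative entries). So `wd u₁ = gen s * wd u₂ = wd (s :: u₂)`, `phiW u₁ = phiW (s :: u₂)` by `phiW_eq`; the row
`r t (a s)` (`ip = 1` with `a s`, `r s (r t (a s)) = a t`) of `phiW (s :: u₂)` is the row `a t` of `phiW u₂`. So
`wd u₂ = gen t * wd u₃` and `wd u = gen t * gen s * gen t * wd u₃ = gen s * gen t * gen s * wd u₃`,
`u' = t :: s :: u₃`. (`ip`: `ip (r t (a s)) (a s) = ip (a s) (a s) - ip (a s) (a t) * ip (a t) (a s) = 1`.)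
`wd_eq`: if `psiW u = psiW v` then `wd u = wd v`: induction on `u.length + v.length`. If `u = s :: u₁`, the row
`a s` of `phiW u` is zero, hence the row `a s` of `phiW v` (`psiW_map_ev`); `row_lemma`:
`wd v = gen s * wd v'`; `rep` gives `psi s * psiW u₁ = psi s * psiW v'` over power series, cancel the unit,
`psiW u₁ = psiW v'`, induction. Similarly if `v` is not empty. Both empty: clear.
-/

set_option autoImplicit false

namespace Pool.Agent.Art

open Matrix Polynomial

/-- Evaluation at `-1/2`. -/
noncomputable def ev : ℤ[X] →+* ℚ := eval₂RingHom (Int.castRingHom ℚ) (-1 / 2)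

section

variable {S P V : Type} [AddCommGroup V] [DecidableEq P] [Fintype P] (D : RD S P V)

/-- The matrices `phi s` at `x = 1/2`. -/
noncomputable def RD.phiQ (s : S) : Matrix P P ℚ := (D.phi s).map ev

/-- The product over a word. -/
noncomputable def RD.phiW (u : List S) : Matrix P P ℚ := (u.map D.phiQ).prod

theorem RD.phiW_cons (s : S) (u : List S) : D.phiW (s :: u) = D.phiQ s * D.phiW u := by
  simp [RD.phiW]

theorem RD.phiW_append (u v : List S) : D.phiW (u ++ v) = D.phiW u * D.phiW v := by
  simp [RD.phiW]

private lemma ev_lx : ev lx = 1 / 2 := by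
  simp only [ev, lx, map_add, map_one, coe_eval₂RingHom, eval₂_X]
  norm_num

private lemma ev_one_sub_lx : ev (1 - lx) = 1 / 2 := by
  rw [map_sub, map_one, ev_lx]
  norm_num

private lemma ev_ly : ev ly = 0 := by
  simp only [ev, ly, map_add, map_one, map_mul, coe_eval₂RingHom, eval₂_X, map_ofNat]
  norm_num

omit [Fintype P] in
private lemma phiQ_apply (s : S) (c j : P) : D.phiQ s c j =
    if c = D.a s then 0
    else if D.ip c (D.a s) = 0 then (if c = j then 1 else 0)
    else if D.ip c (D.a s) = 1 then (if D.r s c = j then 1 else 0)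
    else (if c = j then 1 / 2 else 0) + (if D.r s c = j then 1 / 2 else 0) := by
  have hj : c = D.r s j ↔ D.r s c = j := by
    constructor
    · intro h
      rw [h, D.r_r]
    · intro h
      rw [← h, D.r_r]
  simp only [RD.phiQ, Matrix.map_apply, RD.phi, Matrix.of_apply]
  rcases D.ip_cases j (D.a s) with h | h | h | h
  · -- j = a s
    rw [if_pos h, map_zero]
    subst h
    by_cases hc : c = D.a s
    · rw [if_pos hc]
    · have hr : D.r s c ≠ D.a s := D.r_ne_a hc
      simp [hc, hr]
  · have hja : j ≠ D.a s := D.ne_of_ip (by rw [h]; norm_num)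
    have hjr : D.ip (D.r s j) (D.a s) = 1 := by rw [D.ip_r_a hja, h]; norm_num
    rw [if_neg hja, if_neg (by rw [h]; norm_num), if_neg (by rw [h]; norm_num)]
    rw [map_add, apply_ite ev, apply_ite ev, ev_one_sub_lx, map_zero, map_one]
    by_cases h1 : c = j
    · subst h1
      have h2 : ¬ c = D.r s c := by
        intro h2
        rw [← h2, h] at hjr
        norm_num at hjr
      have h3 : ¬ D.r s c = c := fun h3 => h2 h3.symm
      simp [hja, h, h2, h3]
    · by_cases h2 : D.r s c = j
      · have h3 : c = D.r s j := hj.2 h2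
        have h4 : D.ip c (D.a s) = 1 := by rw [h3, hjr]
        have h5 : c ≠ D.a s := D.ne_of_ip (by rw [h4]; norm_num)
        rw [if_neg h1, if_pos h3, if_neg h5, if_neg (by rw [h4]; norm_num), if_pos h4, if_pos h2]
        norm_num
      · have h3 : ¬ c = D.r s j := fun h3 => h2 (hj.1 h3)
        simp [h1, h2, h3]
  · have hja : j ≠ D.a s := D.ne_of_ip (by rw [h]; norm_num)
    have hrj : D.r s j = j := D.r_zero h
    rw [if_neg hja, if_pos h, apply_ite ev, map_zero, map_one]
    by_cases h1 : c = j
    · subst h1
      simp [hja, h]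
    · have h2 : ¬ D.r s c = j := by
        intro h2
        exact h1 (by rw [hj.2 h2, hrj])
      simp [h1, h2]
  · have hja : j ≠ D.a s := D.ne_of_ip (by rw [h]; norm_num)
    have hjr : D.ip (D.r s j) (D.a s) = -1 := by rw [D.ip_r_a hja, h]
    rw [if_neg hja, if_neg (by rw [h]; norm_num), if_pos h, apply_ite ev, map_zero, ev_lx]
    by_cases h1 : c = j
    · subst h1
      have h2 : ¬ c = D.r s c := by
        intro h2
        rw [← h2, h] at hjr
        norm_num at hjr
      have h3 : ¬ D.r s c = c := fun h3 => h2 h3.symm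
      simp [hja, h, h2, h3]
    · by_cases h2 : D.r s c = j
      · have h3 : c = D.r s j := hj.2 h2
        have h4 : D.ip c (D.a s) = -1 := by rw [h3, hjr]
        have h5 : c ≠ D.a s := D.ne_of_ip (by rw [h4]; norm_num)
        rw [if_pos h3, if_neg h5, if_neg (by rw [h4]; norm_num), if_neg (by rw [h4]; norm_num),
          if_neg h1, if_pos h2]
        norm_num
      · have h3 : ¬ c = D.r s j := fun h3 => h2 (hj.1 h3)
        simp [h1, h2, h3]

theorem RD.phiQ_mul (s : S) (A : Matrix P P ℚ) (c b : P) : (D.phiQ s * A) c b =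
    if c = D.a s then 0
    else if D.ip c (D.a s) = 0 then A c b
    else if D.ip c (D.a s) = 1 then A (D.r s c) b
    else 1 / 2 * A c b + 1 / 2 * A (D.r s c) b := by
  rw [Matrix.mul_apply]
  simp only [phiQ_apply]
  split_ifs
  · simp
  · simp
  · simp
  · simp only [add_mul, ite_mul, zero_mul]
    rw [Finset.sum_add_distrib, Finset.sum_ite_eq, Finset.sum_ite_eq]
    simp

theorem RD.phiW_nonneg (u : List S) (c b : P) : 0 ≤ D.phiW u c b := by
  induction u generalizing c b with
  | nil =>
    have h : D.phiW [] = 1 := by simp [RD.phiW]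
    rw [h, Matrix.one_apply]
    split_ifs <;> norm_num
  | cons s u ih =>
    rw [D.phiW_cons, D.phiQ_mul]
    split_ifs
    · exact le_rfl
    · exact ih _ _
    · exact ih _ _
    · have h1 := ih c b
      have h2 := ih (D.r s c) b
      linarith

end

variable {S P V : Type} [AddCommGroup V] [DecidableEq P] [Fintype P] [DecidableEq S]
  {D : RD S P V} {M : CoxeterMatrix S}

/-- The element of a word. -/
def wd {B : Type} (M : CoxeterMatrix B) (u : List B) : Artin M := (u.map (gen M)).prod

theorem wd_cons {B : Type} (M : CoxeterMatrix B) (s : B) (u : List B) :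
    wd M (s :: u) = gen M s * wd M u := by
  simp [wd]

theorem wd_append {B : Type} (M : CoxeterMatrix B) (u v : List B) :
    wd M (u ++ v) = wd M u * wd M v := by
  simp [wd]

/-- The product of the matrices `psi s` over a word. -/
noncomputable def LK.psiW (K : LK D M) (u : List S) : Matrix P P ℤ[X] := (u.map K.psi).prod

private theorem psiW_cons (K : LK D M) (s : S) (u : List S) :
    K.psiW (s :: u) = K.psi s * K.psiW u := by
  simp [LK.psiW]

private theorem psi_map_ev (K : LK D M) (s : S) : (K.psi s).map ev = D.phiQ s := by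
  ext c b
  simp only [LK.psi, RD.phiQ, Matrix.map_apply, Matrix.add_apply, Matrix.smul_apply, smul_eq_mul,
    map_add, map_mul, ev_ly, zero_mul, add_zero]

theorem LK.psiW_map_ev (K : LK D M) (u : List S) : (K.psiW u).map ev = D.phiW u := by
  induction u with
  | nil =>
    have h1 : K.psiW [] = 1 := by simp [LK.psiW]
    have h2 : D.phiW [] = 1 := by simp [RD.phiW]
    rw [h1, h2, Matrix.map_one ev (map_zero ev) (map_one ev)]
  | cons s u ih =>
    rw [psiW_cons, Matrix.map_mul, psi_map_ev, ih, D.phiW_cons]

theorem LK.rep_wd (K : LK D M) (hM : D.Fits M) (u : List S) :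
    ((K.rep hM (wd M u) : (Matrix P P (PowerSeries ℤ))ˣ) : Matrix P P (PowerSeries ℤ)) =
      (K.psiW u).map toPS := by
  induction u with
  | nil =>
    have h1 : K.psiW [] = 1 := by simp [LK.psiW]
    have h2 : wd M ([] : List S) = 1 := by simp [wd]
    rw [h1, h2, map_one, Matrix.map_one toPS (map_zero toPS) (map_one toPS), Units.val_one]
  | cons s u ih =>
    rw [psiW_cons, wd_cons, map_mul, Units.val_mul, ih, K.rep_gen, K.unit_val, Matrix.map_mul]

private theorem psiW_eq (K : LK D M) (hM : D.Fits M) {u v : List S} (h : wd M u = wd M v) :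
    K.psiW u = K.psiW v := by
  have h1 := K.rep_wd hM u
  rw [h, K.rep_wd hM v] at h1
  exact (Matrix.map_injective toPS_injective h1).symm

theorem LK.phiW_eq (K : LK D M) (hM : D.Fits M) {u v : List S} (h : wd M u = wd M v) :
    D.phiW u = D.phiW v := by
  rw [← K.psiW_map_ev u, ← K.psiW_map_ev v, psiW_eq K hM h]

private theorem row_aux (K : LK D M) (hM : D.Fits M) (n : ℕ) : ∀ (u : List S) (s : S),
    u.length ≤ n → (∀ b, D.phiW u (D.a s) b = 0) →
    ∃ u' : List S, wd M u = gen M s * wd M u' ∧ u'.length + 1 = u.length := by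
  induction n with
  | zero =>
    intro u s hu h
    have h1 : u = [] := List.eq_nil_of_length_eq_zero (by omega)
    subst h1
    have h2 : D.phiW [] = 1 := by simp [RD.phiW]
    have h3 := h (D.a s)
    rw [h2, Matrix.one_apply_eq] at h3
    norm_num at h3
  | succ n ih =>
    intro u s hu h
    cases u with
    | nil =>
      have h2 : D.phiW [] = 1 := by simp [RD.phiW]
      have h3 := h (D.a s)
      rw [h2, Matrix.one_apply_eq] at h3
      norm_num at h3
    | cons t u₁ =>
      rw [List.length_cons] at hu
      by_cases hts : t = s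
      · exact ⟨u₁, by rw [hts, wd_cons], by rw [List.length_cons]⟩
      have hst : s ≠ t := fun e => hts e.symm
      have hast : D.a s ≠ D.a t := fun e => hst (D.inja e)
      have hrow : ∀ b, (D.phiQ t * D.phiW u₁) (D.a s) b = 0 := fun b => by
        rw [← D.phiW_cons]
        exact h b
      rcases hM s t hst with ⟨h3, hip⟩ | ⟨h2, hip⟩
      · have h1 : ∀ b, D.phiW u₁ (D.a s) b = 0 ∧ D.phiW u₁ (D.r t (D.a s)) b = 0 := by
          intro b
          have e := hrow b
          rw [D.phiQ_mul, if_neg hast, if_neg (by rw [hip]; norm_num),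
            if_neg (by rw [hip]; norm_num)] at e
          have e1 := D.phiW_nonneg u₁ (D.a s) b
          have e2 := D.phiW_nonneg u₁ (D.r t (D.a s)) b
          constructor <;> linarith
        obtain ⟨u₂, hu₂, hl₂⟩ := ih u₁ s (by omega) fun b => (h1 b).1
        have hphi : D.phiW u₁ = D.phiW (s :: u₂) := K.phiW_eq hM (by rw [hu₂, wd_cons])
        have hip1 : D.ip (D.r t (D.a s)) (D.a s) = 1 := by
          rw [D.ip_r_left hast, D.ip_self, D.ip_comm (D.a t), hip]
          norm_num
        have hne1 : D.r t (D.a s) ≠ D.a s := D.ne_of_ip (by rw [hip1]; norm_num)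
        have hrr : D.r s (D.r t (D.a s)) = D.a t := by
          rw [← D.r_a_comm hip, D.r_r]
        have h4 : ∀ b, D.phiW u₂ (D.a t) b = 0 := by
          intro b
          have e := (h1 b).2
          rw [hphi, D.phiW_cons, D.phiQ_mul, if_neg hne1, if_neg (by rw [hip1]; norm_num),
            if_pos hip1, hrr] at e
          exact e
        obtain ⟨u₃, hu₃, hl₃⟩ := ih u₂ t (by omega) h4
        have hb := braid M (i := s) (j := t) (by rw [h3]; norm_num)
        rw [h3, alt_three, alt_three] at hb
        refine ⟨t :: s :: u₃, ?_, ?_⟩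
        · rw [wd_cons, hu₂, hu₃, wd_cons, wd_cons]
          simp only [← mul_assoc]
          rw [← hb]
        · simp only [List.length_cons]
          omega
      · have h1 : ∀ b, D.phiW u₁ (D.a s) b = 0 := by
          intro b
          have e := hrow b
          rw [D.phiQ_mul, if_neg hast, if_pos hip] at e
          exact e
        obtain ⟨u₂, hu₂, hl₂⟩ := ih u₁ s (by omega) h1
        have hb := braid M (i := s) (j := t) (by rw [h2]; norm_num)
        rw [h2, alt_two, alt_two] at hb
        refine ⟨t :: u₂, ?_, ?_⟩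
        · rw [wd_cons, hu₂, wd_cons, ← mul_assoc, ← mul_assoc, hb]
        · simp only [List.length_cons]
          omega

theorem LK.row_lemma (K : LK D M) (hM : D.Fits M) (u : List S) (s : S)
    (h : ∀ b, D.phiW u (D.a s) b = 0) :
    ∃ u' : List S, wd M u = gen M s * wd M u' ∧ u'.length + 1 = u.length :=
  row_aux K hM u.length u s le_rfl h

omit [DecidableEq S] in
private theorem row_cons (s : S) (u : List S) (b : P) : D.phiW (s :: u) (D.a s) b = 0 := by
  rw [D.phiW_cons, D.phiQ_mul, if_pos rfl]

private theorem wd_aux (K : LK D M) (hM : D.Fits M) (n : ℕ) : ∀ (u v : List S),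
    u.length ≤ n → K.psiW u = K.psiW v → wd M u = wd M v := by
  induction n with
  | zero =>
    intro u v hu h
    have h1 : u = [] := List.eq_nil_of_length_eq_zero (by omega)
    subst h1
    cases v with
    | nil => rfl
    | cons s v =>
      exfalso
      have h2 : D.phiW [] = D.phiW (s :: v) := by
        rw [← K.psiW_map_ev, ← K.psiW_map_ev, h]
      have h3 := row_cons (D := D) s v (D.a s)
      have h4 : D.phiW [] = 1 := by simp [RD.phiW]
      rw [← h2, h4, Matrix.one_apply_eq] at h3
      norm_num at h3
  | succ n ih =>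
    intro u v hu h
    cases u with
    | nil => exact ih [] v (by simp) h
    | cons s u₁ =>
      rw [List.length_cons] at hu
      have h2 : D.phiW (s :: u₁) = D.phiW v := by
        rw [← K.psiW_map_ev, ← K.psiW_map_ev, h]
      obtain ⟨v', hv', -⟩ := K.row_lemma hM v s fun b => by
        rw [← h2]
        exact row_cons s u₁ b
      have h3 : K.psiW v = K.psiW (s :: v') := psiW_eq K hM (by rw [hv', wd_cons])
      rw [h3, psiW_cons, psiW_cons] at h
      have h4 := congrArg (fun A : Matrix P P ℤ[X] => A.map toPS) h
      simp only [Matrix.map_mul] at h4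
      have h5 : (K.psiW u₁).map toPS = (K.psiW v').map toPS :=
        (K.isUnit_psiPS s).mul_left_cancel h4
      have h6 : K.psiW u₁ = K.psiW v' := Matrix.map_injective toPS_injective h5
      rw [wd_cons, hv', ih u₁ v' (by omega) h6]

theorem LK.wd_eq (K : LK D M) (hM : D.Fits M) (u v : List S) (h : K.psiW u = K.psiW v) :
    wd M u = wd M v :=
  wd_aux K hM u.length u v le_rfl h

end Pool.Agent.Art
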