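import Pool.Agent.Art.SDGen

/-!
# Type `B`: `A(B n) = F n ⋊ A(A (n - 1))`
-/

set_option autoImplicit false

namespace Pool.Agent.Art

open Pool.Agent.HL

section grp

variable {G : Type*} [Group G]

theorem conj_braid {a b : G} (h : a * b * a = b * a * b) : (a * b) * a * (a * b)⁻¹ = b := by
  have h1 : a * b * a = b * (a * b) := by rw [h, mul_assoc]
  rw [h1, mul_inv_cancel_right]

theorem conj_comm {a b x : G} (h : Commute x b) : (a * b) * x * (a * b)⁻¹ = a * x * a⁻¹ := by
  have h1 : b * x * b⁻¹ = x := by rw [← h.eq, mul_inv_cancel_right]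
  calc (a * b) * x * (a * b)⁻¹ = a * (b * x * b⁻¹) * a⁻¹ := by group
    _ = a * x * a⁻¹ := by rw [h1]

/-- `a` commutes with the conjugate of `x` by `b a`. -/
theorem comm_conj2 {a b x : G} (h : a * b * a = b * a * b) (hx : Commute x b) :
    Commute (b * (a * x * a⁻¹) * b⁻¹) a := by
  have h1 : b * (a * x * a⁻¹) * b⁻¹ = (b * a) * x * (b * a)⁻¹ := by group
  have h2 : a = (b * a) * b * (b * a)⁻¹ := (conj_braid h.symm).symm
  rw [h1]
  conv_rhs => rw [h2]
  change _ * _ = _ * _
  calc (b * a) * x * (b * a)⁻¹ * ((b * a) * b * (b * a)⁻¹)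
      = (b * a) * (x * b) * (b * a)⁻¹ := by group
    _ = (b * a) * (b * x) * (b * a)⁻¹ := by rw [hx.eq]
    _ = (b * a) * b * (b * a)⁻¹ * ((b * a) * x * (b * a)⁻¹) := by group

theorem four_conj {a x : G} (g : G) (h : x * a * x * a = a * x * a * x) :
    (g * x * g⁻¹) * (g * a * g⁻¹) * (g * x * g⁻¹) * (g * a * g⁻¹) =
      (g * a * g⁻¹) * (g * x * g⁻¹) * (g * a * g⁻¹) * (g * x * g⁻¹) := by
  calc _ = g * (x * a * x * a) * g⁻¹ := by group
    _ = g * (a * x * a * x) * g⁻¹ := by rw [h]
    _ = _ := by group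

/-- the conjugates -/
def XB (s : ℕ → G) (t : G) : ℕ → G
  | 0 => t
  | k + 1 => s k * XB s t k * (s k)⁻¹

variable {s : ℕ → G} {t : G}

theorem XB_lt (hc : ∀ i j, i + 1 < j → Commute (s i) (s j)) (ht : ∀ i, 1 ≤ i → Commute t (s i)) :
    ∀ k i, k < i → Commute (XB s t k) (s i) := by
  intro k
  induction k with
  | zero => intro i hi; exact ht i hi
  | succ k ih =>
    intro i hi
    have h1 := hc k i hi
    exact (h1.mul_left (ih i (by omega))).mul_left h1.inv_left

theorem XB_four (hc : ∀ i j, i + 1 < j → Commute (s i) (s j))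
    (ht : ∀ i, 1 ≤ i → Commute t (s i))
    (hb : ∀ i, s i * s (i + 1) * s i = s (i + 1) * s i * s (i + 1))
    (h4 : t * s 0 * t * s 0 = s 0 * t * s 0 * t) (k : ℕ) :
    XB s t k * s k * XB s t k * s k = s k * XB s t k * s k * XB s t k := by
  induction k with
  | zero => exact h4
  | succ k ih =>
    have h1 := conj_braid (hb k)
    have h2 := conj_comm (a := s k) (XB_lt hc ht k (k + 1) (Nat.lt_succ_self k))
    have h3 := four_conj (s k * s (k + 1)) ih
    rw [h1, h2] at h3
    exact h3

theorem XB_gt (hc : ∀ i j, i + 1 < j → Commute (s i) (s j))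
    (ht : ∀ i, 1 ≤ i → Commute t (s i))
    (hb : ∀ i, s i * s (i + 1) * s i = s (i + 1) * s i * s (i + 1)) (i : ℕ) :
    ∀ k, i + 1 < k → Commute (XB s t k) (s i) := by
  intro k hk
  induction k with
  | zero => omega
  | succ k ih =>
    rcases Nat.lt_or_ge (i + 1) k with h | h
    · have h1 := (hc i k h).symm
      exact (h1.mul_left (ih h)).mul_left h1.inv_left
    · obtain rfl : k = i + 1 := by omega
      exact comm_conj2 (hb i) (XB_lt hc ht i (i + 1) (Nat.lt_succ_self i))

theorem XB_conj (hc : ∀ i j, i + 1 < j → Commute (s i) (s j))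
    (ht : ∀ i, 1 ≤ i → Commute t (s i))
    (hb : ∀ i, s i * s (i + 1) * s i = s (i + 1) * s i * s (i + 1))
    (h4 : t * s 0 * t * s 0 = s 0 * t * s 0 * t) (k : ℕ) :
    s k * XB s t (k + 1) * (s k)⁻¹ = (XB s t (k + 1))⁻¹ * XB s t k * XB s t (k + 1) := by
  have h := XB_four hc ht hb h4 k
  rw [XB]
  symm
  calc (s k * XB s t k * (s k)⁻¹)⁻¹ * XB s t k * (s k * XB s t k * (s k)⁻¹)
      = s k * (XB s t k)⁻¹ * (s k)⁻¹ * (XB s t k * s k * XB s t k * s k) * (s k)⁻¹ * (s k)⁻¹ := by
        group
    _ = s k * (XB s t k)⁻¹ * (s k)⁻¹ * (s k * XB s t k * s k * XB s t k) * (s k)⁻¹ * (s k)⁻¹ := by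
        rw [h]
    _ = s k * (s k * XB s t k * (s k)⁻¹) * (s k)⁻¹ := by group

end grp

section free

open FreeGroup

/-- the substitution of the generator `i` -/
def ub (i k : ℕ) : FreeGroup ℕ :=
  if k = i then of (i + 1) else if k = i + 1 then (of (i + 1))⁻¹ * of i * of (i + 1) else of k

/-- the inverse substitution -/
def ub' (i k : ℕ) : FreeGroup ℕ :=
  if k = i then of i * of (i + 1) * (of i)⁻¹ else if k = i + 1 then of i else of k

theorem ub_self (i : ℕ) : ub i i = of (i + 1) := by simp [ub]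
theorem ub_succ (i : ℕ) : ub i (i + 1) = (of (i + 1))⁻¹ * of i * of (i + 1) := by simp [ub]
theorem ub_ne {i k : ℕ} (h : k ≠ i) (h' : k ≠ i + 1) : ub i k = of k := by simp [ub, h, h']

theorem exists_bAut (i : ℕ) : ∃ f : MulAut (FreeGroup ℕ), ∀ k, f (of k) = ub i k := by
  refine exists_mulAut (ub i) (ub' i) (fun k => ?_) fun k => ?_
  · by_cases h : k = i
    · subst h; simp [ub, ub']
    · by_cases h' : k = i + 1
      · subst h'; simp [ub, ub', mul_assoc]
      · simp [ub, ub', h, h']
  · by_cases h : k = i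
    · subst h; simp [ub, ub', mul_assoc]
    · by_cases h' : k = i + 1
      · subst h'; simp [ub, ub']
      · simp [ub, ub', h, h']

/-- the automorphism of the generator `i` -/
noncomputable def bAut (i : ℕ) : MulAut (FreeGroup ℕ) := (exists_bAut i).choose

theorem bAut_of (i k : ℕ) : bAut i (of k) = ub i k := (exists_bAut i).choose_spec k

theorem bAut_self (i : ℕ) : bAut i (of i) = of (i + 1) := by rw [bAut_of, ub_self]
theorem bAut_succ (i : ℕ) : bAut i (of (i + 1)) = (of (i + 1))⁻¹ * of i * of (i + 1) := by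
  rw [bAut_of, ub_succ]
theorem bAut_ne {i k : ℕ} (h : k ≠ i) (h' : k ≠ i + 1) : bAut i (of k) = of k := by
  rw [bAut_of, ub_ne h h']

theorem bAut_comm {i j : ℕ} (h : i + 1 < j) : bAut i * bAut j = bAut j * bAut i := by
  refine mulAut_ext fun k => ?_
  rw [MulAut.mul_apply, MulAut.mul_apply]
  by_cases h1 : k = i
  · subst h1
    rw [bAut_ne (by omega) (by omega), bAut_self, bAut_ne (by omega) (by omega)]
  by_cases h2 : k = i + 1
  · subst h2
    rw [bAut_ne (by omega) (by omega), bAut_succ]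
    simp only [_root_.map_mul, _root_.map_inv]
    rw [bAut_ne (by omega) (by omega), bAut_ne (by omega) (by omega)]
  by_cases h3 : k = j
  · subst h3
    rw [bAut_self, bAut_ne (by omega) (by omega), bAut_ne (by omega) (by omega), bAut_self]
  by_cases h4 : k = j + 1
  · subst h4
    rw [bAut_succ, bAut_ne (i := i) (k := j + 1) (by omega) (by omega), bAut_succ]
    simp only [_root_.map_mul, _root_.map_inv]
    rw [bAut_ne (by omega) (by omega), bAut_ne (by omega) (by omega)]
  rw [bAut_ne h3 h4, bAut_ne h1 h2, bAut_ne h3 h4]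

theorem bAut_braid (i : ℕ) :
    bAut i * bAut (i + 1) * bAut i = bAut (i + 1) * bAut i * bAut (i + 1) := by
  refine mulAut_ext fun k => ?_
  simp only [MulAut.mul_apply]
  have e1 : bAut (i + 1) (of i) = of i := bAut_ne (by omega) (by omega)
  have e2 : bAut i (of (i + 1 + 1)) = of (i + 1 + 1) := bAut_ne (by omega) (by omega)
  by_cases h1 : k = i
  · subst h1
    rw [bAut_self, bAut_self, e2, e1, bAut_self, bAut_self]
  by_cases h2 : k = i + 1
  · subst h2
    rw [bAut_succ, bAut_self]
    simp only [_root_.map_mul, _root_.map_inv, e1, e2, bAut_self]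
    rw [bAut_succ]
  by_cases h3 : k = i + 1 + 1
  · subst h3
    rw [e2, bAut_succ]
    simp only [_root_.map_mul, _root_.map_inv, e1, e2, bAut_self, bAut_succ]
    group
  rw [bAut_ne h1 h2, bAut_ne h2 h3, bAut_ne h1 h2, bAut_ne h2 h3]

end free

/-- Artin's action of the braid group on the free group. -/
noncomputable def phiB : Artin mA →* MulAut (FreeGroup ℕ) :=
  lift bAut (by
    intro i j _
    rw [mA_apply]
    split_ifs with h1 h2
    · rw [h1]
    · rw [alt_three, alt_three]
      rcases h2 with rfl | rfl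
      · exact bAut_braid i
      · exact (bAut_braid j).symm
    · rw [alt_two, alt_two]
      rcases Nat.lt_or_ge (i + 1) j with h | h
      · exact bAut_comm h
      · exact (bAut_comm (by omega)).symm)

theorem phiB_gen (i : ℕ) : phiB (gen mA i) = bAut i := lift_gen _ _ _

open FreeGroup in
/-- the map to the semidirect product on the generators -/
noncomputable def gB : ℕ → FreeGroup ℕ ⋊[phiB] Artin mA
  | 0 => SemidirectProduct.inl (of 0)
  | i + 1 => SemidirectProduct.inr (gen mA i)

theorem gen_mA_comm {i j : ℕ} (h : i + 1 < j) :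
    gen mA i * gen mA j = gen mA j * gen mA i := by
  have h1 : mA i j = 2 := by
    rw [mA_apply, if_neg (by omega), if_neg (by omega)]
  have h2 := braid mA (i := i) (j := j) (by rw [h1]; norm_num)
  rwa [h1, alt_two, alt_two] at h2

theorem gen_mA_braid (i : ℕ) :
    gen mA i * gen mA (i + 1) * gen mA i = gen mA (i + 1) * gen mA i * gen mA (i + 1) := by
  have h1 : mA i (i + 1) = 3 := by
    rw [mA_apply, if_neg (by omega), if_pos (by omega)]
  have h2 := braid mA (i := i) (j := i + 1) (by rw [h1]; norm_num)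
  rwa [h1, alt_three, alt_three] at h2

theorem inl_inr_comm {X : Type*} {G : Type*} [Group G] (φ : G →* MulAut (FreeGroup X)) {g : G}
    {x : FreeGroup X} (h : φ g x = x) :
    (SemidirectProduct.inl x : FreeGroup X ⋊[φ] G) * SemidirectProduct.inr g =
      SemidirectProduct.inr g * SemidirectProduct.inl x := by
  apply SemidirectProduct.ext <;> simp [h]

open FreeGroup in
theorem gB_four : gB 0 * gB 1 * gB 0 * gB 1 = gB 1 * gB 0 * gB 1 * gB 0 := by
  have e0 : phiB (gen mA 0) (of 0) = of 1 := by rw [phiB_gen, bAut_self]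
  have e1 : phiB (gen mA 0) (of 1) = (of 1)⁻¹ * of 0 * of 1 := by rw [phiB_gen, bAut_succ]
  have h0 : gB 0 = SemidirectProduct.inl (of 0) := rfl
  have h1 : gB 1 = SemidirectProduct.inr (gen mA 0) := rfl
  rw [h0, h1]
  apply SemidirectProduct.ext
  · simp [e0, e1]
    group
  · simp

theorem gB_rel (i j : ℕ) (_h : mB i j ≠ 0) :
    alt (gB i) (gB j) (mB i j) = alt (gB j) (gB i) (mB i j) := by
  have hcomm : ∀ i j : ℕ, i + 1 < j → gB i * gB j = gB j * gB i := by
    intro i j h
    obtain ⟨j, rfl⟩ : ∃ j', j = j' + 1 := ⟨j - 1, by omega⟩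
    rcases i with _ | i
    · refine inl_inr_comm phiB ?_
      rw [phiB_gen, bAut_ne (by omega) (by omega)]
    · change SemidirectProduct.inr _ * SemidirectProduct.inr _ =
        SemidirectProduct.inr _ * SemidirectProduct.inr _
      rw [← map_mul, ← map_mul, gen_mA_comm (by omega)]
  have hbraid : ∀ i : ℕ, gB (i + 1) * gB (i + 1 + 1) * gB (i + 1) =
      gB (i + 1 + 1) * gB (i + 1) * gB (i + 1 + 1) := by
    intro i
    change SemidirectProduct.inr _ * SemidirectProduct.inr _ * SemidirectProduct.inr _ =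
        SemidirectProduct.inr _ * SemidirectProduct.inr _ * SemidirectProduct.inr _
    rw [← map_mul, ← map_mul, ← map_mul, ← map_mul, gen_mA_braid]
  rw [mB_apply]
  split_ifs with h1 h2 h3
  · rw [h1]
  · rw [alt_four, alt_four]
    have h4 : (i = 0 ∧ j = 1) ∨ (i = 1 ∧ j = 0) := by omega
    rcases h4 with ⟨rfl, rfl⟩ | ⟨rfl, rfl⟩
    · exact gB_four
    · exact gB_four.symm
  · rw [alt_three, alt_three]
    rcases h2 with rfl | rfl
    · obtain ⟨i, rfl⟩ : ∃ i', i = i' + 1 := ⟨i - 1, by omega⟩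
      exact hbraid i
    · obtain ⟨j, rfl⟩ : ∃ j', j = j' + 1 := ⟨j - 1, by omega⟩
      exact (hbraid j).symm
  · rw [alt_two, alt_two]
    rcases Nat.lt_or_ge (i + 1) j with h | h
    · exact hcomm i j h
    · exact (hcomm j i (by omega)).symm

theorem hierL_mB (hA : HierL (Artin mA)) : HierL (Artin mB) := by
  -- relations of `mB`
  have hc : ∀ i j : ℕ, i + 1 < j → gen mB i * gen mB j = gen mB j * gen mB i := by
    intro i j h
    have h1 : mB i j = 2 := by
      rw [mB_apply, if_neg (by omega), if_neg (by omega)]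
    have h2 := braid mB (i := i) (j := j) (by rw [h1]; norm_num)
    rwa [h1, alt_two, alt_two] at h2
  have hb : ∀ i : ℕ, gen mB (i + 1) * gen mB (i + 1 + 1) * gen mB (i + 1) =
      gen mB (i + 1 + 1) * gen mB (i + 1) * gen mB (i + 1 + 1) := by
    intro i
    have h1 : mB (i + 1) (i + 1 + 1) = 3 := by
      rw [mB_apply, if_neg (by omega), if_pos (by omega), if_neg (by omega)]
    have h2 := braid mB (i := i + 1) (j := i + 1 + 1) (by rw [h1]; norm_num)
    rwa [h1, alt_three, alt_three] at h2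
  have h4 : gen mB 0 * gen mB 1 * gen mB 0 * gen mB 1 =
      gen mB 1 * gen mB 0 * gen mB 1 * gen mB 0 := by
    have h1 : mB 0 1 = 4 := by
      rw [mB_apply, if_neg (by omega), if_pos (by omega), if_pos (by omega)]
    have h2 := braid mB (i := 0) (j := 1) (by rw [h1]; norm_num)
    rwa [h1, alt_four, alt_four] at h2
  let s : ℕ → Artin mB := fun i => gen mB (i + 1)
  have hc' : ∀ i j, i + 1 < j → Commute (s i) (s j) := fun i j h => hc _ _ (by omega)
  have ht' : ∀ i, 1 ≤ i → Commute (gen mB 0) (s i) := fun i h => hc _ _ (by omega)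
  have hb' : ∀ i, s i * s (i + 1) * s i = s (i + 1) * s i * s (i + 1) := hb
  have h4' : gen mB 0 * s 0 * gen mB 0 * s 0 = s 0 * gen mB 0 * s 0 * gen mB 0 := h4
  let f : Artin mB →* FreeGroup ℕ ⋊[phiB] Artin mA := lift gB gB_rel
  let f2 : Artin mA →* Artin mB := lift s (by
    intro i j _
    rw [mA_apply]
    split_ifs with h1 h2
    · rw [h1]
    · rw [alt_three, alt_three]
      rcases h2 with rfl | rfl
      · exact hb' i
      · exact (hb' j).symm
    · rw [alt_two, alt_two]
      rcases Nat.lt_or_ge (i + 1) j with h | h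
      · exact hc' i j h
      · exact (hc' j i (by omega)).symm)
  let f1 : FreeGroup ℕ →* Artin mB := FreeGroup.lift (XB s (gen mB 0))
  have hf1 : ∀ k, f1 (FreeGroup.of k) = XB s (gen mB 0) k := fun k => FreeGroup.lift_apply_of
  have hf2 : ∀ i, f2 (gen mA i) = s i := fun i => lift_gen _ _ _
  refine hierL_sd_gen phiB hA f f1 f2 (fun i k => ?_) fun i => ?_
  · rw [phiB_gen, bAut_of, hf2, hf1]
    by_cases h1 : k = i
    · subst h1
      rw [ub_self, hf1]
      rfl
    by_cases h2 : k = i + 1
    · subst h2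
      rw [ub_succ, _root_.map_mul, _root_.map_mul, _root_.map_inv, hf1, hf1,
        XB_conj hc' ht' hb' h4']
    rw [ub_ne h1 h2, hf1]
    have h3 : Commute (XB s (gen mB 0) k) (s i) := by
      rcases Nat.lt_or_ge k i with h | h
      · exact XB_lt hc' ht' k i h
      · exact XB_gt hc' ht' hb' i k (by omega)
    rw [← h3.eq, mul_inv_cancel_right]
  · have h5 : f (gen mB i) = gB i := lift_gen _ _ _
    rw [h5]
    rcases i with _ | i
    · change f1 (FreeGroup.of 0) * f2 1 = gen mB 0
      rw [hf1, map_one, mul_one]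
      rfl
    · change f1 1 * f2 (gen mA i) = gen mB (i + 1)
      rw [hf2, map_one, one_mul]

theorem hierL_tBn (hA : ∀ n, HierL (Artin (tA n))) (n : ℕ) : HierL (Artin (tB n)) :=
  hierL_tB (hierL_mB (hierL_mA hA)) n

end Pool.Agent.Art
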