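import Pool.Agent.Art.SDB

/-!
# Type `D`: `A(D n) = F (n - 1) ⋊ A(A (n - 1))`
-/

set_option autoImplicit false

namespace Pool.Agent.Art

open Pool.Agent.HL

section grp

variable {G : Type*} [Group G]

/-- the relation of a reflection `a` and an element `y` of the free kernel -/
def RY (a y : G) : Prop := a * (a * y * a⁻¹) * a⁻¹ = (a * y * a⁻¹) * y⁻¹ * (a * y * a⁻¹)

theorem RY_conj {a y : G} (g : G) (h : RY a y) : RY (g * a * g⁻¹) (g * y * g⁻¹) := by
  unfold RY at h ⊢
  calc _ = g * (a * (a * y * a⁻¹) * a⁻¹) * g⁻¹ := by group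
    _ = g * ((a * y * a⁻¹) * y⁻¹ * (a * y * a⁻¹)) * g⁻¹ := by rw [h]
    _ = _ := by group

theorem RY_base {a b c : G} (hb : a * b * a = b * a * b) (hc : a * c * a = c * a * c)
    (hbc : b * c = c * b) : RY a (c * b⁻¹) := by
  unfold RY
  have e1 : b⁻¹ * a⁻¹ * b = a * b⁻¹ * a⁻¹ := by
    calc b⁻¹ * a⁻¹ * b = b⁻¹ * a⁻¹ * (b * a * b) * b⁻¹ * a⁻¹ := by group
      _ = b⁻¹ * a⁻¹ * (a * b * a) * b⁻¹ * a⁻¹ := by rw [hb]
      _ = a * b⁻¹ * a⁻¹ := by group
  have e2 : c⁻¹ * a * c = a * c * a⁻¹ := by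
    calc c⁻¹ * a * c = c⁻¹ * (a * c * a) * a⁻¹ := by group
      _ = c⁻¹ * (c * a * c) * a⁻¹ := by rw [hc]
      _ = a * c * a⁻¹ := by group
  have e3 : b⁻¹ * a⁻¹ * b⁻¹ = a⁻¹ * b⁻¹ * a⁻¹ := by
    calc b⁻¹ * a⁻¹ * b⁻¹ = (b * a * b)⁻¹ := by group
      _ = (a * b * a)⁻¹ := by rw [hb]
      _ = a⁻¹ * b⁻¹ * a⁻¹ := by group
  have e4 : b⁻¹ * c = c * b⁻¹ := by
    calc b⁻¹ * c = b⁻¹ * (c * b) * b⁻¹ := by group
      _ = b⁻¹ * (b * c) * b⁻¹ := by rw [hbc]
      _ = c * b⁻¹ := by group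
  symm
  calc a * (c * b⁻¹) * a⁻¹ * (c * b⁻¹)⁻¹ * (a * (c * b⁻¹) * a⁻¹)
      = a * c * (b⁻¹ * a⁻¹ * b) * (c⁻¹ * a * c) * b⁻¹ * a⁻¹ := by group
    _ = a * c * (a * b⁻¹ * a⁻¹) * (a * c * a⁻¹) * b⁻¹ * a⁻¹ := by rw [e1, e2]
    _ = a * c * a * (b⁻¹ * c) * a⁻¹ * b⁻¹ * a⁻¹ := by group
    _ = a * c * a * (c * b⁻¹) * a⁻¹ * b⁻¹ * a⁻¹ := by rw [e4]
    _ = a * c * a * c * (b⁻¹ * a⁻¹ * b⁻¹) * a⁻¹ := by group
    _ = a * c * a * c * (a⁻¹ * b⁻¹ * a⁻¹) * a⁻¹ := by rw [e3]
    _ = a * (c * a * c) * a⁻¹ * b⁻¹ * a⁻¹ * a⁻¹ := by group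
    _ = a * (a * c * a) * a⁻¹ * b⁻¹ * a⁻¹ * a⁻¹ := by rw [hc]
    _ = a * (a * (c * b⁻¹) * a⁻¹) * a⁻¹ := by group

/-- the conjugates -/
def XD (s : ℕ → G) (t : G) : ℕ → G
  | 0 => t * (s 0)⁻¹
  | k + 1 => s (k + 1) * XD s t k * (s (k + 1))⁻¹

variable {s : ℕ → G} {t : G}

theorem XD_lt (hc : ∀ i j, i + 1 < j → Commute (s i) (s j)) (ht : ∀ i, i ≠ 1 → Commute t (s i)) :
    ∀ k i, k < i → Commute (XD s t k) (s (i + 1)) := by
  intro k
  induction k with
  | zero =>
    intro i hi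
    exact (ht (i + 1) (by omega)).mul_left (hc 0 (i + 1) (by omega)).inv_left
  | succ k ih =>
    intro i hi
    have h1 := hc (k + 1) (i + 1) (by omega)
    exact (h1.mul_left (ih i (by omega))).mul_left h1.inv_left

theorem XD_RY (hc : ∀ i j, i + 1 < j → Commute (s i) (s j))
    (ht : ∀ i, i ≠ 1 → Commute t (s i))
    (hb : ∀ i, s i * s (i + 1) * s i = s (i + 1) * s i * s (i + 1))
    (h3 : t * s 1 * t = s 1 * t * s 1) (k : ℕ) : RY (s (k + 1)) (XD s t k) := by
  induction k with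
  | zero => exact RY_base (hb 0).symm h3.symm (ht 0 (by omega)).symm.eq
  | succ k ih =>
    have h1 := conj_braid (hb (k + 1))
    have h2 := conj_comm (a := s (k + 1)) (XD_lt hc ht k (k + 1) (Nat.lt_succ_self k))
    have h3 := RY_conj (s (k + 1) * s (k + 1 + 1)) ih
    rw [h1, h2] at h3
    exact h3

theorem XD_gt (hc : ∀ i j, i + 1 < j → Commute (s i) (s j))
    (ht : ∀ i, i ≠ 1 → Commute t (s i))
    (hb : ∀ i, s i * s (i + 1) * s i = s (i + 1) * s i * s (i + 1)) (i : ℕ) :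
    ∀ k, i + 1 < k → Commute (XD s t k) (s (i + 1)) := by
  intro k hk
  induction k with
  | zero => omega
  | succ k ih =>
    rcases Nat.lt_or_ge (i + 1) k with h | h
    · have h1 := (hc (i + 1) (k + 1) (by omega)).symm
      exact (h1.mul_left (ih h)).mul_left h1.inv_left
    · obtain rfl : k = i + 1 := by omega
      exact comm_conj2 (hb (i + 1)) (XD_lt hc ht i (i + 1) (Nat.lt_succ_self i))

theorem XD_zero (ht : ∀ i, i ≠ 1 → Commute t (s i)) : Commute (s 0) (XD s t 0) :=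
  (ht 0 (by omega)).symm.mul_right (Commute.refl _).inv_right

theorem XD_succ (hc : ∀ i j, i + 1 < j → Commute (s i) (s j))
    (ht : ∀ i, i ≠ 1 → Commute t (s i))
    (hb : ∀ i, s i * s (i + 1) * s i = s (i + 1) * s i * s (i + 1))
    (h3 : t * s 1 * t = s 1 * t * s 1) (k : ℕ) :
    s 0 * XD s t (k + 1) * (s 0)⁻¹ = (XD s t 0)⁻¹ * XD s t (k + 1) := by
  induction k with
  | zero =>
    -- `a = s 0`, `b = s 1`, `c = t`
    have e1 : (s 0)⁻¹ * (s 1)⁻¹ * (s 0)⁻¹ = (s 1)⁻¹ * (s 0)⁻¹ * (s 1)⁻¹ := by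
      calc (s 0)⁻¹ * (s 1)⁻¹ * (s 0)⁻¹ = (s 0 * s 1 * s 0)⁻¹ := by group
        _ = (s 1 * s 0 * s 1)⁻¹ := by rw [hb 0]
        _ = _ := by group
    have e2 : s 1 * t * (s 1)⁻¹ = t⁻¹ * s 1 * t := by
      calc s 1 * t * (s 1)⁻¹ = t⁻¹ * (t * s 1 * t) * (s 1)⁻¹ := by group
        _ = t⁻¹ * (s 1 * t * s 1) * (s 1)⁻¹ := by rw [h3]
        _ = t⁻¹ * s 1 * t := by group
    change s 0 * (s 1 * (t * (s 0)⁻¹) * (s 1)⁻¹) * (s 0)⁻¹ =
      (t * (s 0)⁻¹)⁻¹ * (s 1 * (t * (s 0)⁻¹) * (s 1)⁻¹)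
    calc s 0 * (s 1 * (t * (s 0)⁻¹) * (s 1)⁻¹) * (s 0)⁻¹
        = s 0 * s 1 * t * ((s 0)⁻¹ * (s 1)⁻¹ * (s 0)⁻¹) := by group
      _ = s 0 * s 1 * t * ((s 1)⁻¹ * (s 0)⁻¹ * (s 1)⁻¹) := by rw [e1]
      _ = s 0 * (s 1 * t * (s 1)⁻¹) * (s 0)⁻¹ * (s 1)⁻¹ := by group
      _ = s 0 * (t⁻¹ * s 1 * t) * (s 0)⁻¹ * (s 1)⁻¹ := by rw [e2]
      _ = _ := by group
  | succ k ih =>
    have h0 : Commute (s 0) (s (k + 1 + 1)) := hc 0 (k + 1 + 1) (by omega)
    have h1 : Commute (XD s t 0) (s (k + 1 + 1)) := XD_lt hc ht 0 (k + 1) (by omega)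
    have h2 : XD s t (k + 1 + 1) = s (k + 1 + 1) * XD s t (k + 1) * (s (k + 1 + 1))⁻¹ := rfl
    obtain ⟨u, hu⟩ : ∃ u, u = s (k + 1 + 1) := ⟨_, rfl⟩
    rw [h2, ← hu]
    rw [← hu] at h0 h1
    have h0' : u⁻¹ * (s 0)⁻¹ = (s 0)⁻¹ * u⁻¹ := h0.symm.inv_inv.eq
    have h1' : u * (XD s t 0)⁻¹ = (XD s t 0)⁻¹ * u := h1.symm.inv_right.eq
    calc s 0 * (u * XD s t (k + 1) * u⁻¹) * (s 0)⁻¹
        = (s 0 * u) * XD s t (k + 1) * (u⁻¹ * (s 0)⁻¹) := by group
      _ = (u * s 0) * XD s t (k + 1) * ((s 0)⁻¹ * u⁻¹) := by rw [h0.eq, h0']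
      _ = u * (s 0 * XD s t (k + 1) * (s 0)⁻¹) * u⁻¹ := by group
      _ = u * ((XD s t 0)⁻¹ * XD s t (k + 1)) * u⁻¹ := by rw [ih]
      _ = (u * (XD s t 0)⁻¹) * XD s t (k + 1) * u⁻¹ := by group
      _ = ((XD s t 0)⁻¹ * u) * XD s t (k + 1) * u⁻¹ := by rw [h1']
      _ = _ := by group

end grp

section free

open FreeGroup

/-- the substitution of the generator `0` -/
def ud0 (k : ℕ) : FreeGroup ℕ := if k = 0 then of 0 else (of 0)⁻¹ * of k

/-- the inverse substitution -/
def ud0' (k : ℕ) : FreeGroup ℕ := if k = 0 then of 0 else of 0 * of k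

/-- the substitution of the generator `i + 1` -/
def ud (i k : ℕ) : FreeGroup ℕ :=
  if k = i then of (i + 1) else if k = i + 1 then of (i + 1) * (of i)⁻¹ * of (i + 1) else of k

/-- the inverse substitution -/
def ud' (i k : ℕ) : FreeGroup ℕ :=
  if k = i then of i * (of (i + 1))⁻¹ * of i else if k = i + 1 then of i else of k

theorem exists_dAut0 : ∃ f : MulAut (FreeGroup ℕ), ∀ k, f (of k) = ud0 k := by
  refine exists_mulAut ud0 ud0' (fun k => ?_) fun k => ?_
  · by_cases h : k = 0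
    · simp [ud0, ud0', h]
    · simp [ud0, ud0', h]
  · by_cases h : k = 0
    · simp [ud0, ud0', h]
    · simp [ud0, ud0', h]

theorem exists_dAut (i : ℕ) : ∃ f : MulAut (FreeGroup ℕ), ∀ k, f (of k) = ud i k := by
  refine exists_mulAut (ud i) (ud' i) (fun k => ?_) fun k => ?_
  · by_cases h : k = i
    · subst h; simp [ud, ud']
    · by_cases h' : k = i + 1
      · subst h'; simp [ud, ud', mul_assoc]
      · simp [ud, ud', h, h']
  · by_cases h : k = i
    · subst h; simp [ud, ud', mul_assoc]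
    · by_cases h' : k = i + 1
      · subst h'; simp [ud, ud']
      · simp [ud, ud', h, h']

/-- the automorphism of the generator `0` -/
noncomputable def dA0 : MulAut (FreeGroup ℕ) := exists_dAut0.choose

/-- the automorphism of the generator `i + 1` -/
noncomputable def dAut (i : ℕ) : MulAut (FreeGroup ℕ) := (exists_dAut i).choose

theorem dA0_zero : dA0 (of 0) = of 0 := by
  rw [dA0, exists_dAut0.choose_spec, ud0, if_pos rfl]
theorem dA0_ne {k : ℕ} (h : k ≠ 0) : dA0 (of k) = (of 0)⁻¹ * of k := by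
  rw [dA0, exists_dAut0.choose_spec, ud0, if_neg h]
theorem dAut_self (i : ℕ) : dAut i (of i) = of (i + 1) := by
  rw [dAut, (exists_dAut i).choose_spec, ud, if_pos rfl]
theorem dAut_succ (i : ℕ) : dAut i (of (i + 1)) = of (i + 1) * (of i)⁻¹ * of (i + 1) := by
  rw [dAut, (exists_dAut i).choose_spec, ud, if_neg (by omega), if_pos rfl]
theorem dAut_ne {i k : ℕ} (h : k ≠ i) (h' : k ≠ i + 1) : dAut i (of k) = of k := by
  rw [dAut, (exists_dAut i).choose_spec, ud, if_neg h, if_neg h']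

theorem dAut_comm {i j : ℕ} (h : i + 1 < j) : dAut i * dAut j = dAut j * dAut i := by
  refine mulAut_ext fun k => ?_
  rw [MulAut.mul_apply, MulAut.mul_apply]
  by_cases h1 : k = i
  · subst h1
    rw [dAut_ne (by omega) (by omega), dAut_self, dAut_ne (by omega) (by omega)]
  by_cases h2 : k = i + 1
  · subst h2
    rw [dAut_ne (by omega) (by omega), dAut_succ]
    simp only [_root_.map_mul, _root_.map_inv]
    rw [dAut_ne (by omega) (by omega), dAut_ne (by omega) (by omega)]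
  by_cases h3 : k = j
  · subst h3
    rw [dAut_self, dAut_ne (by omega) (by omega), dAut_ne (by omega) (by omega), dAut_self]
  by_cases h4 : k = j + 1
  · subst h4
    rw [dAut_succ, dAut_ne (i := i) (k := j + 1) (by omega) (by omega), dAut_succ]
    simp only [_root_.map_mul, _root_.map_inv]
    rw [dAut_ne (by omega) (by omega), dAut_ne (by omega) (by omega)]
  rw [dAut_ne h3 h4, dAut_ne h1 h2, dAut_ne h3 h4]

theorem dA0_comm {j : ℕ} (h : 0 < j) : dA0 * dAut j = dAut j * dA0 := by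
  refine mulAut_ext fun k => ?_
  rw [MulAut.mul_apply, MulAut.mul_apply]
  have e0 : dAut j (of 0) = of 0 := dAut_ne (by omega) (by omega)
  by_cases h1 : k = 0
  · subst h1
    rw [e0, dA0_zero, e0]
  by_cases h3 : k = j
  · subst h3
    rw [dAut_self, dA0_ne (by omega), dA0_ne h1]
    simp only [_root_.map_mul, _root_.map_inv]
    rw [e0, dAut_self]
  by_cases h4 : k = j + 1
  · subst h4
    rw [dAut_succ, dA0_ne h1]
    simp only [_root_.map_mul, _root_.map_inv]
    rw [e0, dAut_succ, dA0_ne (by omega), dA0_ne (by omega)]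
    group
  rw [dAut_ne h3 h4, dA0_ne h1]
  simp only [_root_.map_mul, _root_.map_inv]
  rw [e0, dAut_ne h3 h4]

theorem dA0_braid : dA0 * dAut 0 * dA0 = dAut 0 * dA0 * dAut 0 := by
  refine mulAut_ext fun k => ?_
  simp only [MulAut.mul_apply]
  have e1 : dA0 (of 1) = (of 0)⁻¹ * of 1 := dA0_ne (by omega)
  have e2 : dAut 0 (of 0) = of 1 := dAut_self 0
  have e3 : dAut 0 (of 1) = of 1 * (of 0)⁻¹ * of 1 := dAut_succ 0
  by_cases h1 : k = 0
  · subst h1
    rw [dA0_zero, e2, e1]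
    simp only [_root_.map_mul, _root_.map_inv, e2, e3]
    group
  by_cases h2 : k = 1
  · subst h2
    rw [e1, e3]
    simp only [_root_.map_mul, _root_.map_inv, e2, e3, e1, dA0_zero]
    group
  have e4 : dAut 0 (of k) = of k := dAut_ne h1 (by omega)
  rw [dA0_ne h1, e4]
  simp only [_root_.map_mul, _root_.map_inv, e2, e4, e1, dA0_ne h1]
  group

theorem dAut_braid (i : ℕ) :
    dAut i * dAut (i + 1) * dAut i = dAut (i + 1) * dAut i * dAut (i + 1) := by
  refine mulAut_ext fun k => ?_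
  simp only [MulAut.mul_apply]
  have e1 : dAut (i + 1) (of i) = of i := dAut_ne (by omega) (by omega)
  have e2 : dAut i (of (i + 1 + 1)) = of (i + 1 + 1) := dAut_ne (by omega) (by omega)
  by_cases h1 : k = i
  · subst h1
    rw [dAut_self, dAut_self, e2, e1, dAut_self, dAut_self]
  by_cases h2 : k = i + 1
  · subst h2
    rw [dAut_succ, dAut_self]
    simp only [_root_.map_mul, _root_.map_inv, e1, e2, dAut_self]
    rw [dAut_succ]
  by_cases h3 : k = i + 1 + 1
  · subst h3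
    rw [e2, dAut_succ]
    simp only [_root_.map_mul, _root_.map_inv, e1, e2, dAut_self, dAut_succ]
    group
  rw [dAut_ne h1 h2, dAut_ne h2 h3, dAut_ne h1 h2, dAut_ne h2 h3]

/-- the automorphisms -/
noncomputable def dg : ℕ → MulAut (FreeGroup ℕ)
  | 0 => dA0
  | i + 1 => dAut i

theorem dg_comm {i j : ℕ} (h : i + 1 < j) : dg i * dg j = dg j * dg i := by
  obtain ⟨j, rfl⟩ : ∃ j', j = j' + 1 := ⟨j - 1, by omega⟩
  rcases i with _ | i
  · exact dA0_comm (by omega)
  · exact dAut_comm (by omega)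

theorem dg_braid (i : ℕ) : dg i * dg (i + 1) * dg i = dg (i + 1) * dg i * dg (i + 1) := by
  rcases i with _ | i
  · exact dA0_braid
  · exact dAut_braid i

end free

/-- The Perron-Vannier action of the braid group on the free group. -/
noncomputable def phiD : Artin mA →* MulAut (FreeGroup ℕ) :=
  lift dg (by
    intro i j _
    rw [mA_apply]
    split_ifs with h1 h2
    · rw [h1]
    · rw [alt_three, alt_three]
      rcases h2 with rfl | rfl
      · exact dg_braid i
      · exact (dg_braid j).symm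
    · rw [alt_two, alt_two]
      rcases Nat.lt_or_ge (i + 1) j with h | h
      · exact dg_comm h
      · exact (dg_comm (by omega)).symm)

theorem phiD_gen (i : ℕ) : phiD (gen mA i) = dg i := lift_gen _ _ _

open FreeGroup in
/-- the map to the semidirect product on the generators -/
noncomputable def gD : ℕ → FreeGroup ℕ ⋊[phiD] Artin mA
  | 0 => SemidirectProduct.inl (of 0) * SemidirectProduct.inr (gen mA 0)
  | i + 1 => SemidirectProduct.inr (gen mA i)

open FreeGroup in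
theorem gD_three : gD 0 * gD 2 * gD 0 = gD 2 * gD 0 * gD 2 := by
  have e0 : phiD (gen mA 0) (of 0) = of 0 := by rw [phiD_gen]; exact dA0_zero
  have e1 : phiD (gen mA 1) (of 0) = of 1 := by rw [phiD_gen]; exact dAut_self 0
  have e2 : phiD (gen mA 0) (of 1) = (of 0)⁻¹ * of 1 := by
    rw [phiD_gen]; exact dA0_ne (by omega)
  have h0 : gD 0 = SemidirectProduct.inl (of 0) * SemidirectProduct.inr (gen mA 0) := rfl
  have h1 : gD 2 = SemidirectProduct.inr (gen mA 1) := rfl
  rw [h0, h1]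
  apply SemidirectProduct.ext
  · simp [e0, e1, e2]
  · have h := gen_mA_braid 0
    simpa using h

open FreeGroup in
theorem gD_zero_comm {j : ℕ} (h : j ≠ 0) (h' : j ≠ 2) : gD 0 * gD j = gD j * gD 0 := by
  obtain ⟨j, rfl⟩ : ∃ j', j = j' + 1 := ⟨j - 1, by omega⟩
  have e1 : phiD (gen mA j) (of 0) = of 0 := by
    rw [phiD_gen]
    rcases j with _ | j
    · exact dA0_zero
    · exact dAut_ne (by omega) (by omega)
  have h0 : gD 0 = SemidirectProduct.inl (of 0) * SemidirectProduct.inr (gen mA 0) := rfl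
  have h1 : gD (j + 1) = SemidirectProduct.inr (gen mA j) := rfl
  rw [h0, h1]
  apply SemidirectProduct.ext
  · simp [e1]
  · have h2 : gen mA 0 * gen mA j = gen mA j * gen mA 0 := by
      rcases j with _ | j
      · rfl
      · exact gen_mA_comm (by omega)
    simpa using h2

theorem gD_rel (i j : ℕ) (_h : mD i j ≠ 0) :
    alt (gD i) (gD j) (mD i j) = alt (gD j) (gD i) (mD i j) := by
  have hcomm : ∀ i j : ℕ, i + 1 < j → gD (i + 1) * gD (j + 1) = gD (j + 1) * gD (i + 1) := by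
    intro i j h
    change SemidirectProduct.inr _ * SemidirectProduct.inr _ =
        SemidirectProduct.inr _ * SemidirectProduct.inr _
    rw [← map_mul, ← map_mul, gen_mA_comm h]
  have hbraid : ∀ i : ℕ, gD (i + 1) * gD (i + 1 + 1) * gD (i + 1) =
      gD (i + 1 + 1) * gD (i + 1) * gD (i + 1 + 1) := by
    intro i
    change SemidirectProduct.inr _ * SemidirectProduct.inr _ * SemidirectProduct.inr _ =
        SemidirectProduct.inr _ * SemidirectProduct.inr _ * SemidirectProduct.inr _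
    rw [← map_mul, ← map_mul, ← map_mul, ← map_mul, gen_mA_braid]
  rw [mD_apply]
  split_ifs with h1 h2 h3 h4
  · rw [h1]
  · rw [alt_three, alt_three]
    rcases h2 with ⟨rfl, rfl⟩ | ⟨rfl, rfl⟩
    · exact gD_three
    · exact gD_three.symm
  · rw [alt_two, alt_two]
    rcases h3 with rfl | rfl
    · exact gD_zero_comm (by omega) (by omega)
    · exact (gD_zero_comm (by omega) (by omega)).symm
  · rw [alt_three, alt_three]
    rcases h4 with rfl | rfl
    · obtain ⟨i, rfl⟩ : ∃ i', i = i' + 1 := ⟨i - 1, by omega⟩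
      exact hbraid i
    · obtain ⟨j, rfl⟩ : ∃ j', j = j' + 1 := ⟨j - 1, by omega⟩
      exact (hbraid j).symm
  · rw [alt_two, alt_two]
    obtain ⟨i, rfl⟩ : ∃ i', i = i' + 1 := ⟨i - 1, by omega⟩
    obtain ⟨j, rfl⟩ : ∃ j', j = j' + 1 := ⟨j - 1, by omega⟩
    rcases Nat.lt_or_ge (i + 1) j with h | h
    · exact hcomm i j h
    · exact (hcomm j i (by omega)).symm

theorem hierL_mD (hA : HierL (Artin mA)) : HierL (Artin mD) := by
  -- relations of `mD`
  let s : ℕ → Artin mD := fun i => gen mD (i + 1)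
  have hc' : ∀ i j, i + 1 < j → Commute (s i) (s j) := by
    intro i j h
    have h1 : mD (i + 1) (j + 1) = 2 := by
      rw [mD_apply, if_neg (by omega), if_neg (by omega), if_neg (by omega), if_neg (by omega)]
    have h2 := braid mD (i := i + 1) (j := j + 1) (by rw [h1]; norm_num)
    rwa [h1, alt_two, alt_two] at h2
  have ht' : ∀ i, i ≠ 1 → Commute (gen mD 0) (s i) := by
    intro j h
    have h1 : mD 0 (j + 1) = 2 := by
      rw [mD_apply, if_neg (by omega), if_neg (by omega), if_pos (by omega)]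
    have h2 := braid mD (i := 0) (j := j + 1) (by rw [h1]; norm_num)
    rwa [h1, alt_two, alt_two] at h2
  have hb' : ∀ i, s i * s (i + 1) * s i = s (i + 1) * s i * s (i + 1) := by
    intro i
    have h1 : mD (i + 1) (i + 1 + 1) = 3 := by
      rw [mD_apply, if_neg (by omega), if_neg (by omega), if_neg (by omega), if_pos (by omega)]
    have h2 := braid mD (i := i + 1) (j := i + 1 + 1) (by rw [h1]; norm_num)
    rwa [h1, alt_three, alt_three] at h2
  have h3' : gen mD 0 * s 1 * gen mD 0 = s 1 * gen mD 0 * s 1 := by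
    have h1 : mD 0 2 = 3 := by
      rw [mD_apply, if_neg (by omega), if_pos (by omega)]
    have h2 := braid mD (i := 0) (j := 2) (by rw [h1]; norm_num)
    rwa [h1, alt_three, alt_three] at h2
  let f : Artin mD →* FreeGroup ℕ ⋊[phiD] Artin mA := lift gD gD_rel
  let f2 : Artin mA →* Artin mD := lift s (by
    intro i j _
    rw [mA_apply]
    split_ifs with h1 h2
    · rw [h1]
    · rw [alt_three, alt_three]
      rcases h2 with rfl | rfl
      · exact hb' i
      · exact (hb' j).symm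
    · rw [alt_two, alt_two]
      rcases Nat.lt_or_ge (i + 1) j with h | h
      · exact hc' i j h
      · exact (hc' j i (by omega)).symm)
  let f1 : FreeGroup ℕ →* Artin mD := FreeGroup.lift (XD s (gen mD 0))
  have hf1 : ∀ k, f1 (FreeGroup.of k) = XD s (gen mD 0) k := fun k => FreeGroup.lift_apply_of
  have hf2 : ∀ i, f2 (gen mA i) = s i := fun i => lift_gen _ _ _
  refine hierL_sd_gen phiD hA f f1 f2 (fun i k => ?_) fun i => ?_
  · rw [phiD_gen, hf2, hf1]
    rcases i with _ | i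
    · change f1 (dA0 (FreeGroup.of k)) = _
      rcases k with _ | k
      · rw [dA0_zero, hf1, (XD_zero ht').eq, mul_inv_cancel_right]
      · rw [dA0_ne (by omega), _root_.map_mul, _root_.map_inv, hf1, hf1,
          XD_succ hc' ht' hb' h3']
    · change f1 (dAut i (FreeGroup.of k)) = _
      by_cases h1 : k = i
      · subst h1
        rw [dAut_self, hf1]
        rfl
      by_cases h2 : k = i + 1
      · subst h2
        rw [dAut_succ, _root_.map_mul, _root_.map_mul, _root_.map_inv, hf1, hf1]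
        exact (XD_RY hc' ht' hb' h3' i).symm
      rw [dAut_ne h1 h2, hf1]
      have h3 : Commute (XD s (gen mD 0) k) (s (i + 1)) := by
        rcases Nat.lt_or_ge k i with h | h
        · exact XD_lt hc' ht' k i h
        · exact XD_gt hc' ht' hb' i k (by omega)
      rw [← h3.eq, mul_inv_cancel_right]
  · have h5 : f (gen mD i) = gD i := lift_gen _ _ _
    rw [h5]
    rcases i with _ | i
    · have h6 : (gD 0).left = FreeGroup.of 0 := by
        have h0 : gD 0 = SemidirectProduct.inl (FreeGroup.of 0) *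
          SemidirectProduct.inr (gen mA 0) := rfl
        rw [h0]; simp
      have h7 : (gD 0).right = gen mA 0 := by
        have h0 : gD 0 = SemidirectProduct.inl (FreeGroup.of 0) *
          SemidirectProduct.inr (gen mA 0) := rfl
        rw [h0]; simp
      rw [h6, h7, hf1, hf2]
      change gen mD 0 * (s 0)⁻¹ * s 0 = gen mD 0
      rw [inv_mul_cancel_right]
    · change f1 1 * f2 (gen mA i) = gen mD (i + 1)
      rw [hf2, map_one, one_mul]

theorem hierL_tDn (hA : ∀ n, HierL (Artin (tA n))) (n : ℕ) : HierL (Artin (tD n)) :=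
  hierL_tD (hierL_mD (hierL_mA hA)) n

end Pool.Agent.Art
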