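import Pool.Agent.Art.VFC

/-!
# Artin groups on `ℕ`, functoriality
-/

set_option autoImplicit false

namespace Pool.Agent.Art

open Pool.Agent.HL

/-- Functoriality of Artin groups for embeddings of Coxeter matrices. -/
theorem exists_amap {B B' : Type} (M : CoxeterMatrix B) (M' : CoxeterMatrix B') (e : B → B')
    (he : Function.Injective e) (h : ∀ i j, M' (e i) (e j) = M i j) :
    ∃ f : Artin M →* Artin M', (∀ i, f (gen M i) = gen M' (e i)) ∧ Function.Injective f := by
  classical
  let f1 : Artin M →* Artin (rst M' (Set.range e)) :=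
    lift (fun i => gen (rst M' (Set.range e)) ⟨e i, i, rfl⟩) (by
      intro i j hij
      have h1 : rst M' (Set.range e) ⟨e i, i, rfl⟩ ⟨e j, j, rfl⟩ = M i j := h i j
      rw [← h1]
      refine braid _ ?_
      rw [h1]
      exact hij)
  have hc : ∀ x : Set.range e, e (x.2.choose) = x.1 := fun x => x.2.choose_spec
  let f2 : Artin (rst M' (Set.range e)) →* Artin M :=
    lift (fun x => gen M x.2.choose) (by
      intro x y hxy
      have h1 : rst M' (Set.range e) x y = M x.2.choose y.2.choose := by
        rw [← h, hc, hc]; rfl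
      rw [h1] at hxy ⊢
      exact braid _ hxy)
  have h3 : ∀ i, f2 (f1 (gen M i)) = gen M i := by
    intro i
    have h4 : f1 (gen M i) = gen (rst M' (Set.range e)) ⟨e i, i, rfl⟩ := lift_gen _ _ _
    rw [h4]
    have h5 : f2 (gen (rst M' (Set.range e)) ⟨e i, i, rfl⟩) =
        gen M (⟨e i, i, rfl⟩ : Set.range e).2.choose := lift_gen _ _ _
    rw [h5]
    congr 1
    exact he (hc ⟨e i, i, rfl⟩)
  have h6 : f2.comp f1 = MonoidHom.id _ := hom_ext h3
  refine ⟨(incl M' (Set.range e)).comp f1, fun i => ?_, ?_⟩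
  · have h4 : f1 (gen M i) = gen (rst M' (Set.range e)) ⟨e i, i, rfl⟩ := lift_gen _ _ _
    rw [MonoidHom.comp_apply, h4, incl_gen]
  · refine (incl_injective M' (Set.range e)).comp ?_
    intro a b hab
    have h7 := congrArg f2 hab
    have h8 := DFunLike.congr_fun h6
    simp only [MonoidHom.comp_apply, MonoidHom.id_apply] at h8
    rwa [h8, h8] at h7

theorem hierL_of_emb {B B' : Type} (M : CoxeterMatrix B) (M' : CoxeterMatrix B') (e : B → B')
    (he : Function.Injective e) (h : ∀ i j, M' (e i) (e j) = M i j) (h' : HierL (Artin M')) :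
    HierL (Artin M) := by
  obtain ⟨f, -, hf⟩ := exists_amap M M' e he h
  exact hierL_inj _ h' _ f hf

/-- The infinite chain. -/
def mA : CoxeterMatrix ℕ where
  M := Matrix.of fun i j : ℕ => if i = j then 1 else if i + 1 = j ∨ j + 1 = i then 3 else 2
  isSymm := by unfold Matrix.IsSymm; aesop
  diagonal := by simp
  off_diagonal := by aesop

/-- The infinite chain with first label `4`. -/
def mB : CoxeterMatrix ℕ where
  M := Matrix.of fun i j : ℕ =>
    if i = j then 1 else if i + 1 = j ∨ j + 1 = i then
      (if i = 0 ∨ j = 0 then 4 else 3) else 2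
  isSymm := by unfold Matrix.IsSymm; aesop
  diagonal := by simp
  off_diagonal := by aesop

/-- The infinite chain `1 - 2 - 3 - ...` with the node `0` joined to `2`. -/
def mD : CoxeterMatrix ℕ where
  M := Matrix.of fun i j : ℕ =>
    if i = j then 1
    else if i = 0 ∧ j = 2 ∨ j = 0 ∧ i = 2 then 3
    else if i = 0 ∨ j = 0 then 2
    else if i + 1 = j ∨ j + 1 = i then 3 else 2
  isSymm := by
    unfold Matrix.IsSymm
    ext i j
    simp only [Matrix.transpose_apply, Matrix.of_apply]
    split_ifs <;> first | rfl | omega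
  diagonal := by simp
  off_diagonal := by
    intro i j h
    simp only [Matrix.of_apply]
    split_ifs <;> simp_all

theorem mA_apply (i j : ℕ) :
    mA i j = if i = j then 1 else if i + 1 = j ∨ j + 1 = i then 3 else 2 := rfl

theorem mB_apply (i j : ℕ) :
    mB i j = if i = j then 1 else if i + 1 = j ∨ j + 1 = i then
      (if i = 0 ∨ j = 0 then 4 else 3) else 2 := rfl

theorem mD_apply (i j : ℕ) :
    mD i j = if i = j then 1
    else if i = 0 ∧ j = 2 ∨ j = 0 ∧ i = 2 then 3
    else if i = 0 ∨ j = 0 then 2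
    else if i + 1 = j ∨ j + 1 = i then 3 else 2 := rfl

theorem hierL_mA (hA : ∀ n, HierL (Artin (tA n))) : HierL (Artin mA) := by
  refine hierL_of_pieces mA fun X hX _ => ?_
  obtain ⟨n, hn⟩ := hX.bddAbove
  refine hierL_of_emb (rst mA X) (tA (n + 1))
    (fun x => ⟨x.1, Nat.lt_succ_of_le (hn x.2)⟩) ?_ ?_ (hA (n + 1))
  · intro x y hxy
    exact Subtype.ext (congrArg Fin.val hxy)
  · intro x y
    change (if _ = _ then 1 else if _ ∨ _ then 3 else 2) =
      if _ = _ then 1 else if _ ∨ _ then 3 else 2
    simp only [Fin.ext_iff]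

theorem hierL_tB (h : HierL (Artin mB)) (n : ℕ) : HierL (Artin (tB n)) := by
  refine hierL_of_emb (tB n) mB (fun i => i.1) Fin.val_injective ?_ h
  intro i j
  change (if i.1 = j.1 then 1 else _) = if i = j then 1 else _
  simp only [Fin.ext_iff]

theorem hierL_tD (h : HierL (Artin mD)) (n : ℕ) : HierL (Artin (tD n)) := by
  refine hierL_of_emb (tD n) mD (fun i => i.1) Fin.val_injective ?_ h
  intro i j
  change (if i.1 = j.1 then 1 else _) = if i = j then 1 else _
  simp only [Fin.ext_iff]

end Pool.Agent.Art
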