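import Pool.Agent.Art.SDDef
import Pool.Agent.Art.Li

/-!
# Semidirect products of free groups and Artin groups
-/

set_option autoImplicit false

namespace Pool.Agent.Art

open Pool.Agent.HL

theorem alt_four {G : Type*} [Monoid G] (a b : G) : alt a b 4 = a * b * a * b := by
  simp [alt, mul_assoc]

/-- Automorphisms of a free group are determined on the generators. -/
theorem mulAut_ext {X : Type*} {f g : MulAut (FreeGroup X)}
    (h : ∀ k, f (FreeGroup.of k) = g (FreeGroup.of k)) : f = g := by
  have h1 : f.toMonoidHom = g.toMonoidHom := FreeGroup.ext_hom _ _ h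
  exact MulEquiv.toMonoidHom_injective h1

/-- An automorphism of a free group from two inverse substitutions. -/
theorem exists_mulAut {X : Type*} (u v : X → FreeGroup X)
    (h1 : ∀ k, FreeGroup.lift v (u k) = FreeGroup.of k)
    (h2 : ∀ k, FreeGroup.lift u (v k) = FreeGroup.of k) :
    ∃ f : MulAut (FreeGroup X), ∀ k, f (FreeGroup.of k) = u k := by
  refine ⟨MonoidHom.toMulEquiv (FreeGroup.lift u) (FreeGroup.lift v) ?_ ?_, fun k => ?_⟩
  · refine FreeGroup.ext_hom _ _ fun k => ?_
    rw [MonoidHom.comp_apply, FreeGroup.lift_apply_of, h1, MonoidHom.id_apply]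
  · refine FreeGroup.ext_hom _ _ fun k => ?_
    rw [MonoidHom.comp_apply, FreeGroup.lift_apply_of, h2, MonoidHom.id_apply]
  · exact FreeGroup.lift_apply_of

section

variable {B X : Type} {M : CoxeterMatrix B} {H : Type} [Group H]

theorem sd_compat (φ : Artin M →* MulAut (FreeGroup X)) (f1 : FreeGroup X →* H)
    (f2 : Artin M →* H)
    (h : ∀ i k, f1 (φ (gen M i) (FreeGroup.of k)) =
      f2 (gen M i) * f1 (FreeGroup.of k) * (f2 (gen M i))⁻¹) (g : Artin M) :
    f1.comp (φ g).toMonoidHom = (MulAut.conj (f2 g)).toMonoidHom.comp f1 := by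
  let S : Subgroup (Artin M) :=
    { carrier := {g | ∀ x, f1 (φ g x) = f2 g * f1 x * (f2 g)⁻¹}
      one_mem' := by
        intro x
        simp
      mul_mem' := by
        intro a b ha hb x
        rw [map_mul, MulAut.mul_apply, ha, hb, map_mul]
        group
      inv_mem' := by
        intro a ha x
        have h1 := ha (φ a⁻¹ x)
        rw [← MulAut.mul_apply, ← map_mul, mul_inv_cancel, map_one, MulAut.one_apply] at h1
        rw [h1, map_inv f2]
        group }
  have hS : S = ⊤ := by
    rw [eq_top_iff, ← closure_gen M]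
    refine (Subgroup.closure_le S).2 ?_
    rintro _ ⟨i, rfl⟩ x
    have h1 : f1.comp (φ (gen M i)).toMonoidHom =
        (MulAut.conj (f2 (gen M i))).toMonoidHom.comp f1 := FreeGroup.ext_hom _ _ (h i)
    exact DFunLike.congr_fun h1 x
  have hg : g ∈ S := by rw [hS]; trivial
  exact MonoidHom.ext hg

theorem hierL_sdprod (φ : Artin M →* MulAut (FreeGroup X)) (hM : HierL (Artin M)) :
    HierL (FreeGroup X ⋊[φ] Artin M) := by
  refine hierL_ker (Artin M) hM _ SemidirectProduct.rightHom ?_
  refine hierL_inj (FreeGroup X) (hierL_li _ (li_free X)) _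
    { toFun := fun g => g.1.left
      map_one' := rfl
      map_mul' := fun a b => ?_ } ?_
  · have ha : a.1.right = 1 := a.2
    change (a.1 * b.1).left = a.1.left * b.1.left
    rw [SemidirectProduct.mul_left, ha, map_one, MulAut.one_apply]
  · intro a b hab
    have ha : a.1.right = 1 := a.2
    have hb : b.1.right = 1 := b.2
    exact Subtype.ext (SemidirectProduct.ext hab (ha.trans hb.symm))

/-- A group `H` with a left invertible homomorphism to a semidirect product. -/
theorem hierL_sd (φ : Artin M →* MulAut (FreeGroup X)) (hM : HierL (Artin M))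
    (f : H →* FreeGroup X ⋊[φ] Artin M) (f1 : FreeGroup X →* H) (f2 : Artin M →* H)
    (h : ∀ i k, f1 (φ (gen M i) (FreeGroup.of k)) =
      f2 (gen M i) * f1 (FreeGroup.of k) * (f2 (gen M i))⁻¹)
    (hf : ∀ x, f1 (f x).left * f2 (f x).right = x) : HierL H := by
  refine hierL_inj _ (hierL_sdprod φ hM) H f ?_
  intro a b hab
  rw [← hf a, ← hf b, hab]

/-- The condition of `hierL_sd` has to be checked for generators only. -/
theorem hierL_sd_gen {B' : Type} {M' : CoxeterMatrix B'} (φ : Artin M →* MulAut (FreeGroup X))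
    (hM : HierL (Artin M))
    (f : Artin M' →* FreeGroup X ⋊[φ] Artin M) (f1 : FreeGroup X →* Artin M')
    (f2 : Artin M →* Artin M')
    (h : ∀ i k, f1 (φ (gen M i) (FreeGroup.of k)) =
      f2 (gen M i) * f1 (FreeGroup.of k) * (f2 (gen M i))⁻¹)
    (hf : ∀ i, f1 (f (gen M' i)).left * f2 (f (gen M' i)).right = gen M' i) :
    HierL (Artin M') := by
  let ψ : FreeGroup X ⋊[φ] Artin M →* Artin M' := SemidirectProduct.lift f1 f2 (sd_compat φ f1 f2 h)
  have h1 : ψ.comp f = MonoidHom.id _ := hom_ext hf
  exact hierL_sd φ hM f f1 f2 h fun x => DFunLike.congr_fun h1 x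

end

end Pool.Agent.Art
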