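import Pool.Agent.Art.SDI

/-!
# Disjoint unions of types, reduction of the theorem to the irreducible spherical types
-/

set_option autoImplicit false

namespace Pool.Agent.Art

open Pool.Agent.HL

theorem hierL_prodS {G H : Type} [Group G] [Group H] (hG : HierL G) (hH : HierL H) :
    HierL (G × H) := by
  refine hierL_ker G hG (G × H) (MonoidHom.fst G H) ?_
  refine hierL_inj H hH _ ((MonoidHom.snd G H).comp (MonoidHom.fst G H).ker.subtype) ?_
  intro a b hab
  have ha : a.1.1 = 1 := a.2
  have hb : b.1.1 = 1 := b.2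
  exact Subtype.ext (Prod.ext (ha.trans hb.symm) hab)

theorem hierL_isEmpty {B : Type} (M : CoxeterMatrix B) [IsEmpty B] : HierL (Artin M) := by
  have : Subsingleton (Artin M) := by
    refine ⟨fun a b => ?_⟩
    have h : ∀ g : Artin M, g = 1 := fun g => by
      have hg : g ∈ Subgroup.closure (Set.range (gen M)) := by rw [closure_gen]; trivial
      rw [Set.range_eq_empty, Subgroup.closure_empty] at hg
      exact hg
    rw [h a, h b]
  exact HierL.triv _

theorem incl_commute {B : Type} (M : CoxeterMatrix B) (T : Set B)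
    (h : ∀ i ∈ T, ∀ j ∉ T, M i j = 2) (a : Artin (rst M T)) (b : Artin (rst M Tᶜ)) :
    Commute (incl M T a) (incl M Tᶜ b) := by
  have hg : ∀ i ∈ T, ∀ j ∉ T, Commute (gen M i) (gen M j) := by
    intro i hi j hj
    have h1 := h i hi j hj
    have h2 := braid M (i := i) (j := j) (by rw [h1]; norm_num)
    rwa [h1, alt_two, alt_two] at h2
  have h1 : ∀ (i : B) (_ : i ∈ T) (b : Artin (rst M Tᶜ)), Commute (gen M i) (incl M Tᶜ b) := by
    intro i hi b
    refine artin_induction (P := fun b => Commute (gen M i) (incl M Tᶜ b)) b ?_ ?_ ?_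
    · rw [map_one]; exact Commute.one_right _
    · intro j x hx
      rw [map_mul, incl_gen]
      exact hx.mul_right (hg i hi j.1 j.2)
    · intro j x hx
      rw [map_mul, map_inv, incl_gen]
      exact hx.mul_right (hg i hi j.1 j.2).inv_right
  refine artin_induction (P := fun a => Commute (incl M T a) (incl M Tᶜ b)) a ?_ ?_ ?_
  · rw [map_one]; exact Commute.one_left _
  · intro j x hx
    rw [map_mul, incl_gen]
    exact hx.mul_left (h1 j.1 j.2 b)
  · intro j x hx
    rw [map_mul, map_inv, incl_gen]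
    exact hx.mul_left (h1 j.1 j.2 b).inv_left

open Classical in
theorem hierL_sum {B : Type} (M : CoxeterMatrix B) (T : Set B)
    (h : ∀ i ∈ T, ∀ j ∉ T, M i j = 2) (h1 : HierL (Artin (rst M T)))
    (h2 : HierL (Artin (rst M Tᶜ))) : HierL (Artin M) := by
  let u : B → Artin (rst M T) × Artin (rst M Tᶜ) := fun i =>
    if hi : i ∈ T then (gen (rst M T) ⟨i, hi⟩, 1) else (1, gen (rst M Tᶜ) ⟨i, hi⟩)
  have hu1 : ∀ i (hi : i ∈ T), u i = (gen (rst M T) ⟨i, hi⟩, 1) := fun i hi => dif_pos hi
  have hu2 : ∀ i (hi : i ∉ T), u i = (1, gen (rst M Tᶜ) ⟨i, hi⟩) := fun i hi => dif_neg hi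
  have hc : ∀ i ∈ T, ∀ j ∉ T, u i * u j = u j * u i := by
    intro i hi j hj
    rw [hu1 i hi, hu2 j hj, Prod.mk_mul_mk, Prod.mk_mul_mk, one_mul, mul_one, mul_one, one_mul]
  let f : Artin M →* Artin (rst M T) × Artin (rst M Tᶜ) := lift u (by
    intro i j hij
    by_cases hi : i ∈ T <;> by_cases hj : j ∈ T
    · have h3 := braid (rst M T) (i := ⟨i, hi⟩) (j := ⟨j, hj⟩) hij
      have h4 := congrArg (MonoidHom.inl (Artin (rst M T)) (Artin (rst M Tᶜ))) h3
      rw [map_alt, map_alt] at h4
      rw [hu1 i hi, hu1 j hj]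
      exact h4
    · rw [h i hi j hj, alt_two, alt_two]
      exact hc i hi j hj
    · rw [M.symmetric, h j hj i hi, alt_two, alt_two]
      exact (hc j hj i hi).symm
    · have h3 := braid (rst M Tᶜ) (i := ⟨i, hi⟩) (j := ⟨j, hj⟩) hij
      have h4 := congrArg (MonoidHom.inr (Artin (rst M T)) (Artin (rst M Tᶜ))) h3
      rw [map_alt, map_alt] at h4
      rw [hu2 i hi, hu2 j hj]
      exact h4)
  let g : Artin (rst M T) × Artin (rst M Tᶜ) →* Artin M :=
    MonoidHom.noncommCoprod (incl M T) (incl M Tᶜ) (incl_commute M T h)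
  have h3 : g.comp f = MonoidHom.id _ := by
    refine hom_ext fun i => ?_
    have h4 : f (gen M i) = u i := lift_gen _ _ _
    rw [MonoidHom.comp_apply, h4, MonoidHom.id_apply]
    by_cases hi : i ∈ T
    · rw [hu1 i hi]
      change incl M T (gen (rst M T) ⟨i, hi⟩) * incl M Tᶜ 1 = gen M i
      rw [incl_gen, map_one, mul_one]
    · rw [hu2 i hi]
      change incl M T 1 * incl M Tᶜ (gen (rst M Tᶜ) ⟨i, hi⟩) = gen M i
      rw [incl_gen, map_one, one_mul]
  refine hierL_inj _ (hierL_prodS h1 h2) _ f ?_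
  intro a b hab
  have h5 := DFunLike.congr_fun h3
  have h6 := congrArg g hab
  simp only [MonoidHom.comp_apply, MonoidHom.id_apply] at h5
  rwa [h5, h5] at h6

/-- reduction to the irreducible types -/
theorem hierL_sph (hirr : ∀ (n : ℕ) (N : CoxeterMatrix (Fin n)), Irr n N → HierL (Artin N))
    {B : Type} {M : CoxeterMatrix B} (h : Sph B M) : HierL (Artin M) := by
  induction h with
  | empty B M => exact hierL_isEmpty M
  | irr B M n N hN e h =>
    refine hierL_of_emb M N e.symm e.symm.injective (fun i j => ?_) (hirr n N hN)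
    rw [← h, e.apply_symm_apply, e.apply_symm_apply]
  | sum B M T h _ _ ih1 ih2 => exact hierL_sum M T h ih1 ih2

theorem hierL_FC (hirr : ∀ (n : ℕ) (N : CoxeterMatrix (Fin n)), Irr n N → HierL (Artin N))
    {B : Type} {M : CoxeterMatrix B} (h : FC M) : HierL (Artin M) :=
  hierL_of_pieces M fun X hX hX' => hierL_sph hirr (h X hX hX')

/-- reduction of the theorem to the types `A n`, `E8`, `F4`, `H4` -/
theorem hierL_irr (hA : ∀ n, HierL (Artin (tA n))) (hE : HierL (Artin CoxeterMatrix.E₈))
    (hF : HierL (Artin CoxeterMatrix.F₄)) (hH : HierL (Artin CoxeterMatrix.H₄)) (n : ℕ)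
    (N : CoxeterMatrix (Fin n)) (h : Irr n N) : HierL (Artin N) := by
  cases h with
  | A => exact hA n
  | B => exact hierL_tBn hA n
  | D => exact hierL_tDn hA n
  | E6 =>
    refine hierL_of_emb _ CoxeterMatrix.E₈ (Fin.castLE (by norm_num)) ?_ ?_ hE
    · exact Fin.castLE_injective _
    · decide
  | E7 =>
    refine hierL_of_emb _ CoxeterMatrix.E₈ (Fin.castLE (by norm_num)) ?_ ?_ hE
    · exact Fin.castLE_injective _
    · decide
  | E8 => exact hE
  | F4 => exact hF
  | H3 =>
    refine hierL_of_emb _ CoxeterMatrix.H₄ Fin.succ (Fin.succ_injective _) ?_ hH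
    decide
  | H4 => exact hH
  | I m => exact hierL_I (hA 1) m

end Pool.Agent.Art
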