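import Pool.Agent.Art.VNu

/-!
# Dihedral subgroups

`pw i j L` is the alternating product of length `L` whose last (rightmost) factor is `s j`;
`rho i j n = (s j s i)^n s j` are its right inversions, `n < L`.

PROOFS.
`alt_iff_al`: by induction on `m` (`alt` starts with its first argument): `al f i j m = alt (f i)
(f j) m` for
even `m` and `alt (f j) (f i) m` for odd `m`.
`let_mul`: `pw i j (2k) = (s i s j)^k`, `pw i j (2k+1) = s j (s i s j)^k`; then a computation.
`nu_pw`: induction on `L`, `nu_mul`, `nu_sr`, `let_mul`: `nu (r * p) t = nu p t + [p t p⁻¹ = r]` and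
`p t p⁻¹ = r ↔ t = p⁻¹ r p = rho L`.
`rho_eq`: `(s j s i)^n = (s j s i)^n' ↔ M ∣ difference` (`sr_pow_eq_one`, `orderOf`).
`rho_swap`: `(s j s i)^n s j = (s i s j)^(-n) s j = (s i s j)^(-n-1) s i`, and exponents modulo `M
i j ≠ 0`.
`rho_conj`: `d` in the closure: enough for `d = s i` and `d = s j`; `s j ((s j s i)^n s j) s j =
(s i s j)^n s j = (s j s i)^(-n) s j`, `s i ((s j s i)^n s j) s i = (s i s j)^(n+1) s i = ...`,
exponents mod `M i j`.
`mem_dih`: the set `{pw i j L | L < 2 m}` contains `1` and is closed under left multiplication by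
`s i` and
`s j` (`pw` is periodic in `L` with period `2 m`: `pw (L + 1)` is one of the two; the other
product goes down to
`pw (L - 1)`, for `L = 0` it is `s i = pw (2m - 1)` since `(s i s j)^m = 1`).
`pw_swap`: `pw i j m = pw j i m`: `m = 2k`: `(s i s j)^k = (s j s i)^k` as `(s i s j)^(2k) = 1`;
`m = 2k+1`:
`s j (s i s j)^k = s i (s j s i)^k` as `(s i s j)^(2k+1) = 1`.
`nu_dih`: `d = pw i j L`, `0 < L < 2m`. If `L ≤ m`: `nu d (s j) = #{n < L : rho n = s j = rho 0} =
1`. If `L > m`:
`s i = rho i j (m - 1)`, `nu d (s i) = #{n < L : n ≡ m - 1 mod m} = 1` (in `ZMod 2`), as `m - 1 <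
L < 2m`, and
`2m - 1 < L` is false.
-/

set_option autoImplicit false

noncomputable section

namespace Pool.Agent.Art

open Classical

variable {B : Type} (M : CoxeterMatrix B)

/-- The letter at position `L` (from the right, starting with `0`). -/
def lt (i j : B) (L : ℕ) : B := if Even L then j else i

/-- The alternating product of `L` values of `f`, the last (rightmost) one is `f j`. -/
def al {G : Type*} [Monoid G] (f : B → G) (i j : B) : ℕ → G
  | 0 => 1
  | L + 1 => f (lt i j L) * al f i j L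

/-- The alternating product of length `L` ending with `s j`. -/
abbrev pw (i j : B) (L : ℕ) : M.Group := al (sr M) i j L

/-- The right inversions of the alternating products. -/
def rho (i j : B) (n : ℕ) : M.Group := (sr M j * sr M i) ^ n * sr M j

/-- The dihedral subgroup. -/
def dih (i j : B) : Subgroup M.Group := Subgroup.closure {sr M i, sr M j}

private theorem al_eq {G : Type*} [Monoid G] (f : B → G) (i j : B) (m : ℕ) :
    al f i j m = if Even m then alt (f i) (f j) m else alt (f j) (f i) m := by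
  induction m with
  | zero => simp [al]
  | succ m ih =>
    rw [al, ih, lt]
    by_cases h : Even m
    · have h2 : ¬ Even (m + 1) := by rw [Nat.even_add_one]; exact fun h3 => h3 h
      rw [if_pos h, if_pos h, if_neg h2, alt_succ]
    · have h2 : Even (m + 1) := by rw [Nat.even_add_one]; exact h
      rw [if_neg h, if_neg h, if_pos h2, alt_succ]

/-- the braid relation in the two notations -/
theorem alt_iff_al {G : Type*} [Monoid G] (f : B → G) (i j : B) (m : ℕ) :
    alt (f i) (f j) m = alt (f j) (f i) m ↔ al f i j m = al f j i m := by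
  rw [al_eq, al_eq]
  by_cases h : Even m
  · rw [if_pos h, if_pos h]
  · rw [if_neg h, if_neg h]
    exact eq_comm

/-- the rotation -/
private def rot (i j : B) : M.Group := sr M i * sr M j

private theorem sr_sq (i : B) : sr M i * sr M i = 1 := M.toCoxeterSystem.simple_mul_simple_self i

private theorem sr_inv (i : B) : (sr M i)⁻¹ = sr M i := inv_eq_of_mul_eq_one_left (sr_sq M i)

private theorem rot_inv (i j : B) : (rot M i j)⁻¹ = sr M j * sr M i := by
  rw [rot, mul_inv_rev, sr_inv, sr_inv]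

private theorem rot_swap (i j : B) : rot M j i = (rot M i j)⁻¹ := by
  rw [rot_inv, rot]

private theorem sr_i (i j : B) : sr M i = rot M i j * sr M j := by
  rw [rot, mul_assoc, sr_sq, mul_one]

private theorem conj_rot (i j : B) (k : ℤ) :
    sr M j * rot M i j ^ k = rot M i j ^ (-k) * sr M j := by
  have h : sr M j * rot M i j * (sr M j)⁻¹ = (rot M i j)⁻¹ := by
    rw [rot_inv, rot, sr_inv, mul_assoc, mul_assoc, sr_sq, mul_one]
  have h2 : sr M j * rot M i j ^ k * (sr M j)⁻¹ = rot M i j ^ (-k) := by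
    rw [← conj_zpow, h, inv_zpow']
  rw [← h2, inv_mul_cancel_right]

private theorem rot_pow_eq_one (i j : B) : rot M i j ^ (M i j : ℤ) = 1 := by
  rw [zpow_natCast]
  exact (sr_pow_eq_one M i j (M i j)).2 dvd_rfl

private theorem rho_eq_rot (i j : B) (n : ℕ) : rho M i j n = rot M i j ^ (-(n : ℤ)) * sr M j := by
  rw [rho, ← rot_inv, zpow_neg, zpow_natCast, inv_pow]

private theorem pw_even (i j : B) (k : ℕ) : pw M i j (2 * k) = rot M i j ^ (k : ℤ) ∧
    pw M i j (2 * k + 1) = rot M i j ^ (-(k : ℤ)) * sr M j := by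
  have step : ∀ k : ℕ, pw M i j (2 * k) = rot M i j ^ (k : ℤ) →
      pw M i j (2 * k + 1) = rot M i j ^ (-(k : ℤ)) * sr M j := by
    intro k h
    show sr M (lt i j (2 * k)) * pw M i j (2 * k) = _
    rw [h, lt, if_pos (even_two_mul k), conj_rot]
  induction k with
  | zero =>
    have h0 : pw M i j (2 * 0) = rot M i j ^ ((0 : ℕ) : ℤ) := by
      simp [pw, al]
    exact ⟨h0, step 0 h0⟩
  | succ k ih =>
    have h1 : pw M i j (2 * (k + 1)) = rot M i j ^ ((k + 1 : ℕ) : ℤ) := by
      show sr M (lt i j (2 * k + 1)) * pw M i j (2 * k + 1) = _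
      have h2 : ¬ Even (2 * k + 1) := by
        rw [Nat.not_even_iff_odd]
        exact ⟨k, rfl⟩
      rw [ih.2, lt, if_neg h2, sr_i M i j, mul_assoc, ← mul_assoc (sr M j), conj_rot, neg_neg,
        mul_assoc, sr_sq, mul_one, ← zpow_one_add]
      congr 1
      push_cast
      ring
    exact ⟨h1, step _ h1⟩

theorem let_mul (i j : B) (L : ℕ) : sr M (lt i j L) * pw M i j L = pw M i j L * rho M i j L := by
  rcases Nat.even_or_odd' L with ⟨k, rfl | rfl⟩
  · have h1 : sr M (lt i j (2 * k)) * pw M i j (2 * k) = pw M i j (2 * k + 1) := rfl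
    rw [h1, (pw_even M i j k).1, (pw_even M i j k).2, rho_eq_rot, ← mul_assoc, ← zpow_add]
    congr 2
    push_cast
    ring
  · have h1 : sr M (lt i j (2 * k + 1)) * pw M i j (2 * k + 1) = pw M i j (2 * (k + 1)) := rfl
    rw [h1, (pw_even M i j (k + 1)).1, (pw_even M i j k).2, rho_eq_rot, mul_assoc,
      ← mul_assoc (sr M j), conj_rot, mul_assoc, sr_sq, mul_one, ← zpow_add]
    congr 1
    push_cast
    ring

theorem nu_pw (i j : B) (L : ℕ) (t : M.Group) :
    nu M (pw M i j L) t = ∑ n ∈ Finset.range L, if t = rho M i j n then 1 else 0 := by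
  induction L with
  | zero => simp [pw, al, nu_one]
  | succ L ih =>
    have h1 : pw M i j (L + 1) = sr M (lt i j L) * pw M i j L := rfl
    rw [h1, nu_mul, ih, nu_sr, Finset.sum_range_succ]
    congr 1
    have h2 := let_mul M i j L
    have h3 : pw M i j L * t * (pw M i j L)⁻¹ = sr M (lt i j L) ↔ t = rho M i j L := by
      rw [mul_inv_eq_iff_eq_mul, h2]
      exact mul_right_inj _
    simp only [h3]

theorem rho_eq (i j : B) (n n' : ℕ) (h : n' ≤ n) (h2 : rho M i j n = rho M i j n') :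
    M i j ∣ n - n' := by
  rw [rho_eq_rot, rho_eq_rot, mul_left_inj] at h2
  rw [← sr_pow_eq_one M i j]
  show rot M i j ^ (n - n') = 1
  rw [← zpow_natCast, Nat.cast_sub h, sub_eq_add_neg, zpow_add, ← h2, ← zpow_add]
  simp

private theorem exists_rho (i j : B) (h : M i j ≠ 0) (t : ℤ) :
    ∃ n' < M i j, rot M i j ^ t * sr M j = rho M i j n' := by
  have hm : (0 : ℤ) < (M i j : ℤ) := by exact_mod_cast Nat.pos_of_ne_zero h
  have h0 : 0 ≤ (-t) % (M i j : ℤ) := Int.emod_nonneg _ hm.ne'
  have h1 : (-t) % (M i j : ℤ) < M i j := Int.emod_lt_of_pos _ hm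
  refine ⟨((-t) % (M i j : ℤ)).toNat, by omega, ?_⟩
  rw [rho_eq_rot, Int.toNat_of_nonneg h0]
  congr 1
  have h2 : t = -((-t) % (M i j : ℤ)) + (M i j : ℤ) * (-((-t) / (M i j : ℤ))) := by
    have := Int.emod_add_mul_ediv (-t) (M i j : ℤ)
    linarith
  conv_lhs => rw [h2]
  rw [zpow_add, zpow_mul, rot_pow_eq_one, one_zpow, mul_one]

theorem rho_add (i j : B) (n : ℕ) : rho M i j (n + M i j) = rho M i j n := by
  rw [rho_eq_rot, rho_eq_rot]
  congr 1
  rw [Nat.cast_add, neg_add, zpow_add, zpow_neg _ (M i j : ℤ), rot_pow_eq_one, inv_one, mul_one]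

theorem rho_swap (i j : B) (h : M i j ≠ 0) (n : ℕ) :
    ∃ n' < M i j, rho M i j n = rho M j i n' := by
  obtain ⟨n', h1, h2⟩ := exists_rho M j i (by rw [M.symmetric]; exact h) ((n : ℤ) + 1)
  refine ⟨n', by rw [M.symmetric i j]; exact h1, ?_⟩
  rw [← h2, rho_eq_rot, rot_swap M i j, inv_zpow', sr_i M i j, ← mul_assoc, ← zpow_add_one]
  congr 2
  ring

theorem sr_eq_rho (i j : B) (h : M i j ≠ 0) : sr M i = rho M i j (M i j - 1) := by
  rw [rho_eq_rot, sr_i M i j]
  congr 1
  rw [Nat.cast_sub (Nat.one_le_iff_ne_zero.2 h), neg_sub, sub_eq_add_neg, zpow_add,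
    zpow_neg, rot_pow_eq_one]
  simp

theorem rho_mem (i j : B) (n : ℕ) : rho M i j n ∈ dih M i j := by
  have hi : sr M i ∈ dih M i j := Subgroup.subset_closure (by simp)
  have hj : sr M j ∈ dih M i j := Subgroup.subset_closure (by simp)
  exact mul_mem (pow_mem (mul_mem hj hi) n) hj

private theorem dih_form (i j : B) (d : M.Group) (hd : d ∈ dih M i j) :
    ∃ c : ℤ, d = rot M i j ^ c ∨ d = rot M i j ^ c * sr M j := by
  refine Subgroup.closure_induction (p := fun d _ => ∃ c : ℤ, d = rot M i j ^ c ∨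
    d = rot M i j ^ c * sr M j) ?_ ?_ ?_ ?_ hd
  · intro x hx
    rcases hx with rfl | hx
    · exact ⟨1, Or.inr (by rw [zpow_one]; exact sr_i M i j)⟩
    · rw [Set.mem_singleton_iff] at hx
      subst hx
      exact ⟨0, Or.inr (by simp)⟩
  · exact ⟨0, Or.inl (by simp)⟩
  · rintro x y - - ⟨c, rfl | rfl⟩ ⟨c', rfl | rfl⟩
    · exact ⟨c + c', Or.inl (by rw [zpow_add])⟩
    · exact ⟨c + c', Or.inr (by rw [zpow_add, mul_assoc])⟩
    · exact ⟨c - c', Or.inr (by
        rw [mul_assoc, conj_rot, ← mul_assoc, ← zpow_add, sub_eq_add_neg])⟩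
    · exact ⟨c - c', Or.inl (by
        rw [mul_assoc, ← mul_assoc (sr M j), conj_rot, mul_assoc, sr_sq, mul_one, ← zpow_add,
          sub_eq_add_neg])⟩
  · rintro x - ⟨c, rfl | rfl⟩
    · exact ⟨-c, Or.inl (by rw [zpow_neg])⟩
    · exact ⟨c, Or.inr (by rw [mul_inv_rev, sr_inv, ← zpow_neg, conj_rot, neg_neg])⟩

theorem rho_conj (i j : B) (h : M i j ≠ 0) (n : ℕ) (d : M.Group) (hd : d ∈ dih M i j) :
    ∃ n' < M i j, d * rho M i j n * d⁻¹ = rho M i j n' := by
  obtain ⟨c, rfl | rfl⟩ := dih_form M i j d hd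
  · obtain ⟨n', h1, h2⟩ := exists_rho M i j h (2 * c - n)
    refine ⟨n', h1, ?_⟩
    rw [← h2, rho_eq_rot, ← zpow_neg, mul_assoc, mul_assoc, conj_rot, neg_neg, ← mul_assoc,
      ← mul_assoc, ← zpow_add, ← zpow_add]
    congr 2
    ring
  · obtain ⟨n', h1, h2⟩ := exists_rho M i j h (2 * c + n)
    refine ⟨n', h1, ?_⟩
    rw [← h2, rho_eq_rot, mul_inv_rev, sr_inv, ← zpow_neg, conj_rot, neg_neg]
    have h3 : sr M j * (rot M i j ^ (-(n : ℤ)) * sr M j) = rot M i j ^ (n : ℤ) := by
      rw [← mul_assoc, conj_rot, neg_neg, mul_assoc, sr_sq, mul_one]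
    rw [mul_assoc (rot M i j ^ c), h3, ← mul_assoc, ← zpow_add, ← zpow_add]
    congr 2
    ring

theorem mem_dih (i j : B) (h : M i j ≠ 0) (d : M.Group) (hd : d ∈ dih M i j) :
    ∃ L < 2 * M i j, d = pw M i j L := by
  obtain ⟨c, rfl | rfl⟩ := dih_form M i j d hd
  · have hm : (0 : ℤ) < (M i j : ℤ) := by exact_mod_cast Nat.pos_of_ne_zero h
    have h0 : 0 ≤ c % (M i j : ℤ) := Int.emod_nonneg _ hm.ne'
    have h1 : c % (M i j : ℤ) < M i j := Int.emod_lt_of_pos _ hm
    refine ⟨2 * (c % (M i j : ℤ)).toNat, by omega, ?_⟩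
    rw [(pw_even M i j _).1, Int.toNat_of_nonneg h0]
    have h2 : c = c % (M i j : ℤ) + (M i j : ℤ) * (c / (M i j : ℤ)) :=
      (Int.emod_add_mul_ediv c (M i j : ℤ)).symm
    conv_lhs => rw [h2]
    rw [zpow_add, zpow_mul, rot_pow_eq_one, one_zpow, mul_one]
  · obtain ⟨n', h1, h2⟩ := exists_rho M i j h c
    refine ⟨2 * n' + 1, by omega, ?_⟩
    rw [h2, (pw_even M i j n').2, rho_eq_rot]

theorem pw_swap (i j : B) : pw M i j (M i j) = pw M j i (M i j) := by
  have hm := rot_pow_eq_one M i j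
  rcases Nat.even_or_odd' (M i j) with ⟨k, hk | hk⟩
  · rw [hk] at hm ⊢
    rw [(pw_even M i j k).1, (pw_even M j i k).1, rot_swap M i j, inv_zpow']
    rw [eq_comm, ← mul_left_inj (rot M i j ^ (k : ℤ)), ← zpow_add, ← zpow_add]
    rw [neg_add_cancel, zpow_zero, ← hm]
    congr 1
    push_cast
    ring
  · rw [hk] at hm ⊢
    rw [(pw_even M i j k).2, (pw_even M j i k).2, rot_swap M i j, inv_zpow', neg_neg, sr_i M i j,
      ← mul_assoc, ← zpow_add_one, mul_left_inj]
    rw [← mul_right_inj (rot M i j ^ (k : ℤ)), ← zpow_add, ← zpow_add, add_neg_cancel, zpow_zero,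
      ← hm]
    congr 1
    push_cast
    ring

theorem nu_dih (i j : B) (h : M i j ≠ 0) (d : M.Group) (hd : d ∈ dih M i j) (h1 : d ≠ 1) :
    nu M d (sr M i) ≠ 0 ∨ nu M d (sr M j) ≠ 0 := by
  obtain ⟨L, hL, rfl⟩ := mem_dih M i j h d hd
  have hL0 : 0 < L := by
    rcases Nat.eq_zero_or_pos L with rfl | h2
    · exact absurd rfl h1
    · exact h2
  have key : ∀ c < L, ∀ t, t = rho M i j c → (∀ n < L, rho M i j c = rho M i j n → n = c) →
      nu M (pw M i j L) t ≠ 0 := by
    intro c hc t ht hu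
    rw [nu_pw, Finset.sum_eq_single c]
    · rw [if_pos ht]
      exact one_ne_zero
    · intro n hn hne
      rw [if_neg]
      intro h2
      exact hne (hu n (Finset.mem_range.1 hn) (ht.symm.trans h2))
    · intro h2
      exact absurd (Finset.mem_range.2 hc) h2
  by_cases hLm : L ≤ M i j
  · right
    refine key 0 hL0 _ (by simp [rho]) fun n hn h2 => ?_
    have h3 := rho_eq M i j n 0 (Nat.zero_le _) h2.symm
    rw [Nat.sub_zero] at h3
    exact Nat.eq_zero_of_dvd_of_lt h3 (by omega)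
  · left
    push Not at hLm
    have hm := Nat.pos_of_ne_zero h
    refine key (M i j - 1) (by omega) _ (sr_eq_rho M i j h) fun n hn h2 => ?_
    rcases le_total n (M i j - 1) with h3 | h3
    · have h4 := rho_eq M i j _ _ h3 h2
      have h5 := Nat.eq_zero_of_dvd_of_lt h4 (by omega)
      omega
    · have h4 := rho_eq M i j _ _ h3 h2.symm
      have h5 := Nat.eq_zero_of_dvd_of_lt h4 (by omega)
      omega

end Pool.Agent.Art
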