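import Pool.Agent.Art.Hier

/-!
# A tree from a cocycle

Let `A, C, D` be subgroups of `G` (`C` is contained in `A` and in `D`) such that `A` and `D`
generate `G`, and let
`δ : G → (G ⧸ C → ℤ)` be a cocycle which vanishes on `A` and equals `e₀ - d e₀` on `D` (`e₀` is
the indicator function
of the coset `C`). Then `G` acts on a tree with vertex stabilisers conjugate to `A` and `D`.

PROOF of `hierL_of_cocycle`. `V = (G ⧸ A) ⊕ (G ⧸ D)` with the obvious action. The graph `T`: `inl
u` and `inr v` are adjacent iff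
there is `g` with `u = gA`, `v = gD`. (Define it with `SimpleGraph.fromRel` or directly by cases.)
Potential `f : V → (G ⧸ C → ℤ)`, `f (gA) = δ g`, `f (gD) = δ g + 1_{gC}`; well defined
(`Quotient.lift`): `δ (g a) = δ g + g δ a = δ g`,
and `δ (g d) + 1_{g d C} = δ g + g (e₀ - d e₀) + g d e₀ = δ g + 1_{gC}`.
Connected: every vertex is adjacent to some `gA` (`gD` to `gA`); the set of all `g` such that for
all `h` the vertices `h A` and `h g A`
are reachable from each other is a subgroup and contains `A` (equal vertices) and `D` (`hA - hD =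
hdD - hdA`), so it is `⊤`.
Acyclic: `SimpleGraph.isAcyclic_iff_forall_adj_isBridge`. Let `gA - gD` be an edge, `x = gC`. If
`gA` and `gD` were reachable in
`T` without this edge: the function `v ↦ f v x` is constant along walks there, because for another
edge `hA - hD` the difference is
`1_{hC}(x)`, which is `1` only if `hC = gC`, and then `hA = gA`, `hD = gD` is the removed edge. But
`f (gD) x - f (gA) x = 1`. (Edges of the form `inr - inl` symmetrically.)
No inversions: an element preserves `inl` and `inr`. Stabilisers: `x` fixes `gA` iff `g⁻¹ x g ∈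
A`; the homomorphism
`x ↦ g⁻¹ x g` to `A` is injective, so `hierL_inj`. Constructor `HierL.tree`.
-/

set_option autoImplicit false

noncomputable section

namespace Pool.Agent.Art

open Pool.Agent.HL

section

variable {G : Type} [Group G] {A D C : Subgroup G}

/-- adjacency -/
private def adj_VTree (A D : Subgroup G) : (G ⧸ A) ⊕ (G ⧸ D) → (G ⧸ A) ⊕ (G ⧸ D) → Prop
  | Sum.inl u, Sum.inr v => ∃ g : G, u = (g : G ⧸ A) ∧ v = (g : G ⧸ D)
  | Sum.inr v, Sum.inl u => ∃ g : G, u = (g : G ⧸ A) ∧ v = (g : G ⧸ D)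
  | _, _ => False

/-- the graph -/
private def gr_VTree (A D : Subgroup G) : SimpleGraph ((G ⧸ A) ⊕ (G ⧸ D)) where
  Adj := adj_VTree A D
  symm := ⟨fun p q h => by
    rcases p with u | v <;> rcases q with u' | v' <;> exact h⟩
  loopless := ⟨fun p h => by
    rcases p with u | v <;> exact h⟩

open Classical in
/-- the potential -/
private def pot_VTree (A D C : Subgroup G) (δ : G → G ⧸ C → ℤ)
    (hA : ∀ g, ∀ a ∈ A, ∀ x, δ (g * a) x = δ g x)
    (hD : ∀ g, ∀ d ∈ D, ∀ x, δ (g * d) x + (if x = ((g * d : G) : G ⧸ C) then 1 else 0) =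
      δ g x + (if x = (g : G ⧸ C) then 1 else 0)) (x : G ⧸ C) : (G ⧸ A) ⊕ (G ⧸ D) → ℤ
  | Sum.inl u => Quotient.liftOn' u (fun g => δ g x) fun g h hgh => by
      rw [QuotientGroup.leftRel_apply] at hgh
      have h1 := hA g _ hgh x
      rw [mul_inv_cancel_left] at h1
      exact h1.symm
  | Sum.inr v => Quotient.liftOn' v (fun g => δ g x + (if x = (g : G ⧸ C) then 1 else 0))
      fun g h hgh => by
        rw [QuotientGroup.leftRel_apply] at hgh
        have h1 := hD g _ hgh x
        rw [mul_inv_cancel_left] at h1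
        exact h1.symm

private theorem stab_VTree (A : Subgroup G) (h1 : HierL A) {V : Type} [MulAction G V] (v : V)
    (g : G) (hg : ∀ x ∈ MulAction.stabilizer G v, g⁻¹ * x * g ∈ A) :
    HierL (MulAction.stabilizer G v) := by
  refine hierL_inj A h1 (MulAction.stabilizer G v)
    (((MulAut.conj g⁻¹).toMonoidHom.comp (MulAction.stabilizer G v).subtype).codRestrict A
      fun x => ?_) ?_
  · have h2 := hg x.1 x.2
    change g⁻¹ * x.1 * g⁻¹⁻¹ ∈ A
    rwa [inv_inv]
  · intro a b hab
    apply Subtype.ext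
    have h2 := congrArg Subtype.val hab
    exact (MulAut.conj g⁻¹).injective h2

end

open Classical in
theorem hierL_of_cocycle {G : Type} [Group G] (A D C : Subgroup G) (hCA : C ≤ A) (hCD : C ≤ D)
    (hgen : A ⊔ D = ⊤) (δ : G → G ⧸ C → ℤ)
    (hδ : ∀ g h x, δ (g * h) x = δ g x + δ h (g⁻¹ • x))
    (hA : ∀ a ∈ A, ∀ x, δ a x = 0)
    (hD : ∀ d ∈ D, ∀ x, δ d x = (if x = ((1 : G) : G ⧸ C) then 1 else 0) -
      (if x = ((d : G) : G ⧸ C) then 1 else 0))
    (h1 : HierL A) (h2 : HierL D) : HierL G := by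
  have hA' : ∀ g, ∀ a ∈ A, ∀ x, δ (g * a) x = δ g x := by
    intro g a ha x
    rw [hδ, hA a ha, add_zero]
  have hsm : ∀ (g h : G) (x : G ⧸ C), g⁻¹ • x = (h : G ⧸ C) ↔ x = ((g * h : G) : G ⧸ C) := by
    intro g h x
    rw [inv_smul_eq_iff]
    exact Iff.rfl
  have hD' : ∀ g, ∀ d ∈ D, ∀ x, δ (g * d) x + (if x = ((g * d : G) : G ⧸ C) then 1 else 0) =
      δ g x + (if x = (g : G ⧸ C) then 1 else 0) := by
    intro g d hd x
    rw [hδ, hD d hd]
    simp only [hsm, mul_one]
    ring
  obtain ⟨f, hf⟩ : ∃ f : G ⧸ C → (G ⧸ A) ⊕ (G ⧸ D) → ℤ, f = pot_VTree A D C δ hA' hD' :=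
    ⟨_, rfl⟩
  have hfl : ∀ x (g : G), f x (Sum.inl (g : G ⧸ A)) = δ g x := by
    intro x g
    rw [hf]
    rfl
  have hfr : ∀ x (g : G), f x (Sum.inr (g : G ⧸ D)) =
      δ g x + (if x = (g : G ⧸ C) then 1 else 0) := by
    intro x g
    rw [hf]
    rfl
  obtain ⟨T, hT⟩ : ∃ T : SimpleGraph ((G ⧸ A) ⊕ (G ⧸ D)), T = gr_VTree A D := ⟨_, rfl⟩
  have hTa : ∀ g : G, T.Adj (Sum.inl (g : G ⧸ A)) (Sum.inr (g : G ⧸ D)) := by
    intro g
    rw [hT]
    exact ⟨g, rfl, rfl⟩
  have hTc : ∀ p q, T.Adj p q → (∃ g : G, p = Sum.inl (g : G ⧸ A) ∧ q = Sum.inr (g : G ⧸ D)) ∨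
      ∃ g : G, q = Sum.inl (g : G ⧸ A) ∧ p = Sum.inr (g : G ⧸ D) := by
    intro p q h
    rw [hT] at h
    rcases p with u | v <;> rcases q with u' | v'
    · exact h.elim
    · obtain ⟨g, rfl, rfl⟩ := h
      exact Or.inl ⟨g, rfl, rfl⟩
    · obtain ⟨g, rfl, rfl⟩ := h
      exact Or.inr ⟨g, rfl, rfl⟩
    · exact h.elim
  -- connected
  let S : Subgroup G :=
    { carrier := {g | ∀ h : G, T.Reachable (Sum.inl (h : G ⧸ A)) (Sum.inl ((h * g : G) : G ⧸ A))}
      mul_mem' := fun {a b} ha hb h => by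
        have h3 := hb (h * a)
        rw [mul_assoc] at h3
        exact (ha h).trans h3
      one_mem' := fun h => by
        rw [mul_one]
      inv_mem' := fun {a} ha h => by
        have h3 := ha (h * a⁻¹)
        rw [inv_mul_cancel_right] at h3
        exact h3.symm }
  have hS : S = ⊤ := by
    rw [eq_top_iff, ← hgen, sup_le_iff]
    constructor
    · intro a ha h
      have h3 : ((h * a : G) : G ⧸ A) = h := by
        rw [QuotientGroup.mk_mul_of_mem h ha]
      rw [h3]
    · intro d hd h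
      have h3 : ((h * d : G) : G ⧸ D) = h := by
        rw [QuotientGroup.mk_mul_of_mem h hd]
      have h4 := (hTa h).reachable
      have h5 := (hTa (h * d)).reachable
      rw [h3] at h5
      exact h4.trans h5.symm
  have hr : ∀ p, T.Reachable (Sum.inl ((1 : G) : G ⧸ A)) p := by
    have h3 : ∀ g : G, T.Reachable (Sum.inl ((1 : G) : G ⧸ A)) (Sum.inl (g : G ⧸ A)) := by
      intro g
      have h4 : g ∈ S := by
        rw [hS]
        exact Subgroup.mem_top g
      have h5 := h4 1
      rwa [one_mul] at h5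
    rintro (u | v)
    · obtain ⟨g, rfl⟩ := QuotientGroup.mk_surjective u
      exact h3 g
    · obtain ⟨g, rfl⟩ := QuotientGroup.mk_surjective v
      exact (h3 g).trans (hTa g).reachable
  have hconn : T.Connected := by
    have : Nonempty ((G ⧸ A) ⊕ (G ⧸ D)) := ⟨Sum.inl ((1 : G) : G ⧸ A)⟩
    exact ⟨fun p q => (hr p).symm.trans (hr q)⟩
  -- acyclic
  have hbr : ∀ g : G, ¬ (T.deleteEdges
      {s(Sum.inl (g : G ⧸ A), Sum.inr (g : G ⧸ D))}).Reachable (Sum.inl (g : G ⧸ A))
        (Sum.inr (g : G ⧸ D)) := by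
    intro g hreach
    have key : ∀ p q, (T.deleteEdges
        {s(Sum.inl (g : G ⧸ A), Sum.inr (g : G ⧸ D))}).Reachable p q →
        f (g : G ⧸ C) p = f (g : G ⧸ C) q := by
      intro p q h
      rw [SimpleGraph.reachable_iff_reflTransGen] at h
      induction h with
      | refl => rfl
      | tail _ h ih =>
        rw [ih]
        rw [SimpleGraph.deleteEdges_adj] at h
        obtain ⟨h3, h4⟩ := h
        have hcase : ∀ h : G, s(Sum.inl (h : G ⧸ A), Sum.inr (h : G ⧸ D)) ≠
            s(Sum.inl (g : G ⧸ A), Sum.inr (g : G ⧸ D)) → ¬ (g : G ⧸ C) = (h : G ⧸ C) := by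
          intro h h5 h6
          apply h5
          rw [QuotientGroup.eq] at h6
          have h7 : (g : G ⧸ A) = h := QuotientGroup.eq.2 (hCA h6)
          have h8 : (g : G ⧸ D) = h := QuotientGroup.eq.2 (hCD h6)
          rw [h7, h8]
        rcases hTc _ _ h3 with ⟨h, rfl, rfl⟩ | ⟨h, rfl, rfl⟩
        · rw [hfl, hfr, if_neg, add_zero]
          exact hcase h fun h5 => h4 h5
        · rw [hfl, hfr, if_neg, add_zero]
          exact hcase h fun h5 => h4 (Set.mem_singleton_iff.2 (Sym2.eq_swap.trans h5))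
    have h3 := key _ _ hreach
    rw [hfl, hfr, if_pos rfl] at h3
    omega
  have hac : T.IsAcyclic := by
    rw [SimpleGraph.isAcyclic_iff_forall_adj_isBridge]
    intro p q hpq
    rw [SimpleGraph.isBridge_iff]
    rcases hTc _ _ hpq with ⟨g, rfl, rfl⟩ | ⟨g, rfl, rfl⟩
    · exact hbr g
    · intro h
      apply hbr g
      rw [Sym2.eq_swap]
      exact h.symm
  have hact : ∀ (g : G) (p q), T.Adj p q → T.Adj (g • p) (g • q) := by
    intro g p q hpq
    rcases hTc _ _ hpq with ⟨h, rfl, rfl⟩ | ⟨h, rfl, rfl⟩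
    · exact hTa (g * h)
    · exact (hTa (g * h)).symm
  refine HierL.tree G ((G ⧸ A) ⊕ (G ⧸ D)) T ⟨hconn, hac⟩ hact ?_ ?_
  · rintro g p q hpq ⟨h3, -⟩
    rcases hTc _ _ hpq with ⟨h, rfl, rfl⟩ | ⟨h, rfl, rfl⟩
    · exact Sum.inl_ne_inr h3
    · exact Sum.inr_ne_inl h3
  · rintro (u | v)
    · obtain ⟨g, rfl⟩ := QuotientGroup.mk_surjective u
      refine stab_VTree A h1 _ g fun x hx => ?_
      rw [MulAction.mem_stabilizer_iff] at hx
      have h3 : (g : G ⧸ A) = ((x * g : G) : G ⧸ A) := (Sum.inl_injective hx).symm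
      rw [QuotientGroup.eq] at h3
      rwa [mul_assoc]
    · obtain ⟨g, rfl⟩ := QuotientGroup.mk_surjective v
      refine stab_VTree D h2 _ g fun x hx => ?_
      rw [MulAction.mem_stabilizer_iff] at hx
      have h3 : (g : G ⧸ D) = ((x * g : G) : G ⧸ D) := (Sum.inr_injective hx).symm
      rw [QuotientGroup.eq] at h3
      rwa [mul_assoc]

end Pool.Agent.Art
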