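import Pool.Agent.Art.Defs
import Pool.Agent.Art.VTree

/-!
# Splitting along a label infinity

PROOF of `hierL_split`. `G = Artin M`, `A` = closure of the generators `≠ s`, `D` = closure of the
generators `≠ t`, `C` = closure of the
generators `≠ s, t`. On functions `F = (G ⧸ C → ℤ)` let `g • f = fun x => f (g⁻¹ • x)`, `e₀` the
indicator function of the coset `C`
(fixed by the elements of `C`), `τ f = f + e₀`. Let `P g : Equiv.Perm F` be the permutation `f ↦ g
• f` (a homomorphism in `g`).
Put `Q r = P (gen r)` for `r ≠ s` and `Q s = τ ∘ P (gen s) ∘ τ⁻¹`. For every `r ≠ t` we have `Q r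
= τ ∘ P (gen r) ∘ τ⁻¹`
(for `r ≠ s, t`: `gen r ∈ C` fixes `e₀`). So `Q` satisfies the braid relations of all pairs `≠ {s,
t}`: if both `i, j ≠ s` they are
the images of the relations under `P`; if both `≠ t` they are the images under `τ P τ⁻¹`
(`map_alt`, `MulAut.conj`); the remaining pairs
are `(s, t)`, `(t, s)`, label `0`. `lift` gives `Ψ : G →* Perm F`. By `artin_induction` (or
closure induction)
`Ψ g f = g • f + δ g` with `δ g = Ψ g 0`. So `δ (g h) = δ g + g • δ h`; `Ψ g = P g` on `A`, `Ψ g =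
τ P(g) τ⁻¹` on `D`
(`Subgroup.closure_induction`). `A ⊔ D = ⊤` by `closure_gen` (`s ≠ t` as `M s t = 0`, `M s s =
1`). Apply `hierL_of_cocycle`.
-/

set_option autoImplicit false

noncomputable section

namespace Pool.Agent.Art

open Pool.Agent.HL

variable {B : Type} (M : CoxeterMatrix B)

/-- the translation action on functions -/
private def P {G : Type} [Group G] (C : Subgroup G) : G →* Equiv.Perm (G ⧸ C → ℤ) where
  toFun g :=
    { toFun := fun f x => f (g⁻¹ • x)
      invFun := fun f x => f (g • x)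
      left_inv := fun f => by funext x; simp
      right_inv := fun f => by funext x; simp }
  map_one' := by
    ext f x
    simp
  map_mul' g h := by
    ext f x
    simp [mul_smul]

private lemma P_apply {G : Type} [Group G] (C : Subgroup G) (g : G) (f : G ⧸ C → ℤ) (x : G ⧸ C) :
    P C g f x = f (g⁻¹ • x) := rfl

open Classical in
/-- the indicator function of the trivial coset -/
private def e0 {G : Type} [Group G] (C : Subgroup G) : G ⧸ C → ℤ :=
  fun x => if x = ((1 : G) : G ⧸ C) then 1 else 0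

open Classical in
private lemma e0_apply {G : Type} [Group G] (C : Subgroup G) (g : G) (x : G ⧸ C) :
    e0 C (g⁻¹ • x) = if x = ((g : G) : G ⧸ C) then 1 else 0 := by
  unfold e0
  have h : g⁻¹ • x = ((1 : G) : G ⧸ C) ↔ x = ((g : G) : G ⧸ C) := by
    rw [inv_smul_eq_iff]
    have : g • ((1 : G) : G ⧸ C) = ((g * 1 : G) : G ⧸ C) := rfl
    rw [this, mul_one]
  simp only [h]

private lemma e0_fix {G : Type} [Group G] (C : Subgroup G) {g : G} (hg : g ∈ C) (x : G ⧸ C) :
    e0 C (g⁻¹ • x) = e0 C x := by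
  classical
  rw [e0_apply]
  have h : ((g : G) : G ⧸ C) = ((1 : G) : G ⧸ C) := by
    rw [QuotientGroup.eq]
    simpa using C.inv_mem hg
  rw [h]
  rfl

/-- the conjugate action -/
private def P' {G : Type} [Group G] (C : Subgroup G) : G →* Equiv.Perm (G ⧸ C → ℤ) :=
  (MulAut.conj (Equiv.addRight (e0 C))).toMonoidHom.comp (P C)

private lemma P'_apply {G : Type} [Group G] (C : Subgroup G) (g : G) (f : G ⧸ C → ℤ)
    (x : G ⧸ C) : P' C g f x = f (g⁻¹ • x) - e0 C (g⁻¹ • x) + e0 C x := by
  have h : P' C g f = (P C g) (f + -e0 C) + e0 C := rfl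
  rw [h, Pi.add_apply, P_apply, Pi.add_apply, Pi.neg_apply]
  ring

private lemma P'_eq {G : Type} [Group G] (C : Subgroup G) {g : G} (hg : g ∈ C) :
    P' C g = P C g := by
  ext f x
  rw [P'_apply, P_apply, e0_fix C hg]
  ring

open Classical in
/-- the images of the generators -/
private def Q (s _t : B) (C : Subgroup (Artin M)) (r : B) : Equiv.Perm (Artin M ⧸ C → ℤ) :=
  if r = s then P' C (gen M r) else P C (gen M r)

private lemma Q_ne {s : B} (t : B) (C : Subgroup (Artin M)) {r : B} (hr : r ≠ s) :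
    Q M s t C r = P C (gen M r) := by
  unfold Q
  rw [if_neg hr]

private lemma Q_ne' {s t : B} (C : Subgroup (Artin M)) (hC : ∀ r, r ≠ s → r ≠ t → gen M r ∈ C)
    {r : B} (hr : r ≠ t) : Q M s t C r = P' C (gen M r) := by
  unfold Q
  split_ifs with h
  · rfl
  · rw [P'_eq C (hC r h hr)]

private lemma Q_rel {s t : B} (h : M s t = 0) (C : Subgroup (Artin M))
    (hC : ∀ r, r ≠ s → r ≠ t → gen M r ∈ C) (i j : B) (hij : M i j ≠ 0) :
    alt (Q M s t C i) (Q M s t C j) (M i j) = alt (Q M s t C j) (Q M s t C i) (M i j) := by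
  have hst : s ≠ t := by
    rintro rfl
    rw [M.diagonal] at h
    omega
  by_cases h1 : i ≠ s ∧ j ≠ s
  · rw [Q_ne M t C h1.1, Q_ne M t C h1.2, ← map_alt, ← map_alt, braid M hij]
  by_cases h2 : i ≠ t ∧ j ≠ t
  · rw [Q_ne' M C hC h2.1, Q_ne' M C hC h2.2, ← map_alt, ← map_alt, braid M hij]
  exfalso
  have h3 : (i = s ∧ j = t) ∨ (i = t ∧ j = s) := by
    by_cases h4 : i = s
    · left
      refine ⟨h4, ?_⟩
      by_contra h5
      exact h2 ⟨by rw [h4]; exact hst, h5⟩
    · right
      have h5 : j = s := by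
        by_contra h5
        exact h1 ⟨h4, h5⟩
      refine ⟨?_, h5⟩
      by_contra h6
      exact h2 ⟨h6, by rw [h5]; exact hst⟩
  rcases h3 with ⟨rfl, rfl⟩ | ⟨rfl, rfl⟩
  · exact hij h
  · exact hij (by rw [M.symmetric]; exact h)

theorem hierL_split (s t : B) (h : M s t = 0)
    (h1 : HierL (Subgroup.closure (gen M '' {r | r ≠ s})))
    (h2 : HierL (Subgroup.closure (gen M '' {r | r ≠ t}))) : HierL (Artin M) := by
  classical
  have hst : s ≠ t := by
    rintro rfl
    rw [M.diagonal] at h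
    omega
  let C : Subgroup (Artin M) := Subgroup.closure (gen M '' {r | r ≠ s ∧ r ≠ t})
  have hC : ∀ r, r ≠ s → r ≠ t → gen M r ∈ C := fun r hr hr' =>
    Subgroup.subset_closure ⟨r, ⟨hr, hr'⟩, rfl⟩
  let Ψ : Artin M →* Equiv.Perm (Artin M ⧸ C → ℤ) := lift (Q M s t C) (Q_rel M h C hC)
  have hΨ : ∀ r, Ψ (gen M r) = Q M s t C r := fun r => lift_gen _ _ r
  have hS : ∀ (g : Artin M) (f : Artin M ⧸ C → ℤ) (x : Artin M ⧸ C),
      Ψ g f x = f (g⁻¹ • x) + Ψ g 0 x := by
    let S : Subgroup (Artin M) :=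
      { carrier := {g | ∀ (f : Artin M ⧸ C → ℤ) (x : Artin M ⧸ C),
          Ψ g f x = f (g⁻¹ • x) + Ψ g 0 x}
        one_mem' := by
          intro f x
          simp
        mul_mem' := by
          intro g k hg hk f x
          rw [map_mul, Equiv.Perm.mul_apply, Equiv.Perm.mul_apply, hg, hk, hg (Ψ k 0), mul_inv_rev,
            mul_smul]
          ring
        inv_mem' := by
          intro g hg f x
          have h3 := hg (Ψ g⁻¹ f) (g • x)
          have h4 := hg (Ψ g⁻¹ 0) (g • x)
          have h6 : ∀ k : Artin M ⧸ C → ℤ, Ψ g (Ψ g⁻¹ k) = k := by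
            intro k
            rw [← Equiv.Perm.mul_apply, ← map_mul, mul_inv_cancel, map_one]
            rfl
          rw [h6, inv_smul_smul] at h3 h4
          rw [inv_inv]
          have h5 : (0 : Artin M ⧸ C → ℤ) (g • x) = 0 := rfl
          rw [h5] at h4
          linarith }
    have hS' : S = ⊤ := by
      rw [eq_top_iff, ← closure_gen M]
      refine (Subgroup.closure_le S).2 ?_
      rintro _ ⟨r, rfl⟩ f x
      rw [hΨ]
      by_cases hr : r = s
      · have hr' : r ≠ t := by rw [hr]; exact hst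
        rw [Q_ne' M C hC hr', P'_apply, P'_apply]
        simp only [Pi.zero_apply]
        ring
      · rw [Q_ne M t C hr, P_apply, P_apply]
        simp
    intro g
    have : g ∈ S := by rw [hS']; trivial
    exact this
  refine hierL_of_cocycle (Subgroup.closure (gen M '' {r | r ≠ s}))
    (Subgroup.closure (gen M '' {r | r ≠ t})) C ?_ ?_ ?_ (fun g => Ψ g 0) ?_ ?_ ?_ h1 h2
  · exact Subgroup.closure_mono (Set.image_mono fun r hr => hr.1)
  · exact Subgroup.closure_mono (Set.image_mono fun r hr => hr.2)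
  · rw [eq_top_iff, ← closure_gen M]
    refine (Subgroup.closure_le _).2 ?_
    rintro _ ⟨r, rfl⟩
    by_cases hr : r = s
    · have hr' : r ≠ t := by rw [hr]; exact hst
      exact Subgroup.mem_sup_right (Subgroup.subset_closure ⟨r, hr', rfl⟩)
    · exact Subgroup.mem_sup_left (Subgroup.subset_closure ⟨r, hr, rfl⟩)
  · intro g k x
    change Ψ (g * k) 0 x = Ψ g 0 x + Ψ k 0 (g⁻¹ • x)
    rw [map_mul, Equiv.Perm.mul_apply, hS g (Ψ k 0)]
    ring
  · intro a ha x
    have h3 : Set.EqOn Ψ (P C) (Subgroup.closure (gen M '' {r | r ≠ s}) : Set (Artin M)) := by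
      apply MonoidHom.eqOn_closure
      rintro _ ⟨r, hr, rfl⟩
      rw [hΨ, Q_ne M t C hr]
    change Ψ a 0 x = 0
    rw [h3 ha, P_apply]
    rfl
  · intro d hd x
    have h3 : Set.EqOn Ψ (P' C) (Subgroup.closure (gen M '' {r | r ≠ t}) : Set (Artin M)) := by
      apply MonoidHom.eqOn_closure
      rintro _ ⟨r, hr, rfl⟩
      rw [hΨ, Q_ne' M C hC hr]
    change Ψ d 0 x = _
    rw [h3 hd, P'_apply, e0_apply]
    simp only [Pi.zero_apply, e0]
    ring

end Pool.Agent.Art
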