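import Pool.Agent.Art.VInj
import Pool.Agent.Art.VSplit

/-!
# Reduction to pieces without label infinity

PROOFS.
`range_incl`: `MonoidHom.range_eq_map`, `closure_gen`, `MonoidHom.map_closure`; the image of
`range (gen (rst M X))` is `gen M '' X`.
`hierL_range`: `hierL_equiv` / `MonoidHom.ofInjective`.
`hierL_finset`: strong induction on `T.ncard` (for finite `T`). If all labels in `T` are `≠ 0`:
hypothesis. Otherwise `s, t ∈ T`, `M s t = 0`,
`s ≠ t`; `hierL_split (rst M T) ⟨s, _⟩ ⟨t, _⟩`; the closure of the generators `≠ s` of `Artin (rst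
M T)` is the range of
`inclle M (T \ {s} ⊆ T)`, which is injective, so it is isomorphic to `Artin (rst M (T \ {s}))`,
which is in the class by induction.
`hierL_of_pieces`: every element of `Artin M` is in the range of `incl M T` for a finite set `T`
(`artin_induction`; enlarge `T`), so
for a finite set `F` of elements there is a finite `T` (union) with `F ⊆ range (incl M T)`;
`HierL.union`.
-/

set_option autoImplicit false

noncomputable section

namespace Pool.Agent.Art

open Pool.Agent.HL

variable {B : Type} (M : CoxeterMatrix B)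

theorem range_incl (X : Set B) : (incl M X).range = Subgroup.closure (gen M '' X) := by
  rw [MonoidHom.range_eq_map, ← closure_gen (rst M X), MonoidHom.map_closure, ← Set.range_comp]
  congr 1
  ext g
  constructor
  · rintro ⟨x, rfl⟩
    exact ⟨x.1, x.2, (incl_gen M X x).symm⟩
  · rintro ⟨x, hx, rfl⟩
    exact ⟨⟨x, hx⟩, incl_gen M X ⟨x, hx⟩⟩

theorem hierL_range {G Q : Type} [Group G] [Group Q] (f : G →* Q) (hf : Function.Injective f)
    (h : HierL G) : HierL f.range :=
  hierL_equiv (MonoidHom.ofInjective hf).symm h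

theorem range_inclle {X Y : Set B} (h : X ⊆ Y) :
    (inclle M h).range = Subgroup.closure (gen (rst M Y) '' {y | y.1 ∈ X}) := by
  rw [MonoidHom.range_eq_map, ← closure_gen (rst M X), MonoidHom.map_closure, ← Set.range_comp]
  congr 1
  ext g
  constructor
  · rintro ⟨x, rfl⟩
    exact ⟨⟨x.1, h x.2⟩, x.2, (inclle_gen M h x).symm⟩
  · rintro ⟨y, hy, rfl⟩
    exact ⟨⟨y.1, hy⟩, inclle_gen M h ⟨y.1, hy⟩⟩

theorem hierL_finset
    (h : ∀ X : Set B, X.Finite → (∀ i ∈ X, ∀ j ∈ X, M i j ≠ 0) → HierL (Artin (rst M X)))
    (T : Set B) (hT : T.Finite) : HierL (Artin (rst M T)) := by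
  obtain ⟨n, hn⟩ : ∃ n, T.ncard = n := ⟨_, rfl⟩
  induction n using Nat.strong_induction_on generalizing T with
  | _ n ih =>
    by_cases hlab : ∀ i ∈ T, ∀ j ∈ T, M i j ≠ 0
    · exact h T hT hlab
    · push Not at hlab
      obtain ⟨i, hi, j, hj, hij⟩ := hlab
      have key : ∀ l (hl : l ∈ T), HierL (Subgroup.closure
          (gen (rst M T) '' {r | r ≠ (⟨l, hl⟩ : T)})) := by
        intro l hl
        have hsub : T \ {l} ⊆ T := Set.diff_subset
        have h1 : {r : T | r ≠ ⟨l, hl⟩} = {y : T | y.1 ∈ T \ {l}} := by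
          ext y
          simp only [Set.mem_setOf_eq, Set.mem_diff, Set.mem_singleton_iff, ne_eq]
          constructor
          · intro hy
            exact ⟨y.2, fun h0 => hy (Subtype.ext h0)⟩
          · intro hy h0
            exact hy.2 (congrArg Subtype.val h0)
        rw [h1, ← range_inclle M hsub]
        refine hierL_range (inclle M hsub) (inclle_injective M hsub) ?_
        refine ih _ ?_ (T \ {l}) (hT.subset hsub) rfl
        rw [← hn]
        exact Set.ncard_diff_singleton_lt_of_mem hl hT
      exact hierL_split (rst M T) ⟨i, hi⟩ ⟨j, hj⟩ hij (key i hi) (key j hj)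

theorem exists_finite_range (g : Artin M) : ∃ T : Set B, T.Finite ∧ g ∈ (incl M T).range := by
  have hmono : ∀ {X Y : Set B}, X ⊆ Y → (incl M X).range ≤ (incl M Y).range := by
    intro X Y hXY
    rw [range_incl, range_incl]
    exact Subgroup.closure_mono (Set.image_mono hXY)
  have hgen : ∀ (i : B) (T : Set B), gen M i ∈ (incl M (insert i T)).range := by
    intro i T
    rw [range_incl]
    exact Subgroup.subset_closure ⟨i, Set.mem_insert i T, rfl⟩
  refine artin_induction (P := fun g => ∃ T : Set B, T.Finite ∧ g ∈ (incl M T).range) g ?_ ?_ ?_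
  · exact ⟨∅, Set.finite_empty, Subgroup.one_mem _⟩
  · rintro i x ⟨T, hT, hx⟩
    exact ⟨insert i T, hT.insert i, Subgroup.mul_mem _ (hmono (Set.subset_insert i T) hx)
      (hgen i T)⟩
  · rintro i x ⟨T, hT, hx⟩
    exact ⟨insert i T, hT.insert i, Subgroup.mul_mem _ (hmono (Set.subset_insert i T) hx)
      (Subgroup.inv_mem _ (hgen i T))⟩

/-- Reduction to the finite parabolic subgroups without label infinity. -/
theorem hierL_of_pieces
    (h : ∀ X : Set B, X.Finite → (∀ i ∈ X, ∀ j ∈ X, M i j ≠ 0) → HierL (Artin (rst M X))) :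
    HierL (Artin M) := by
  have hmono : ∀ {X Y : Set B}, X ⊆ Y → (incl M X).range ≤ (incl M Y).range := by
    intro X Y hXY
    rw [range_incl, range_incl]
    exact Subgroup.closure_mono (Set.image_mono hXY)
  choose T hT hmem using exists_finite_range M
  refine HierL.union (Artin M) (fun F => (incl M (⋃ g ∈ F, T g)).range) (fun F g hg => ?_)
    fun F => ?_
  · exact hmono (Set.subset_biUnion_of_mem (u := T) (Finset.mem_coe.2 hg)) (hmem g)
  · refine hierL_range _ (incl_injective M _) (hierL_finset M h _ ?_)
    exact F.finite_toSet.biUnion fun g _ => hT g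

end Pool.Agent.Art
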