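import Pool.Agent.Art.Defs

/-!
# The geometric representation of a Coxeter group: the order of `s i * s j` is exactly `M i j`

Paper proof: section 8 of /team-store/ARTIN.md and /team-store/ARTINV.md.

PROOFS.
`refl_pow`: `M i j = 0`: trivial; `i = j`: `reflection * reflection = 1`. Otherwise `m = M i j ≥ 2`
(`off_diagonal`). `m = 2`: `kap = 0`, the two reflections commute and are involutions. `m ≥ 3`:
apply
`Module.reflection_mul_reflection_pow_apply` with `t = kap i j * kap j i - 2 = 4 cos^2(π/m) - 2 =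
2 cos(θ)`, `θ = 2π/m`, `sin θ > 0`. By `Polynomial.Chebyshev.S_two_mul_real_cos`:
`S_n(t) sin θ = sin((n+1)θ)`. `m = 2k` even: `S_{k-1}(t) = 0` because `sin(kθ) = sin π = 0`, both
coefficients have this factor (`(m-2)/2 = (m-1)/2 = k-1`). `m = 2k+1` odd: both coefficients have
the
factor `S_k(t) + S_{k-1}(t)`, and `sin((k+1)θ) + sin(kθ) = 2 sin((2k+1)θ/2) cos(θ/2) = 2 sin π cos
= 0`.
`refl_ord`: `i = j`: `M i i = 1`. `i ≠ j`: the vectors `e_i`, `e_j` are linearly independent; apply
`Module.reflection_mul_reflection_pow_apply_self` (`(r_i r_j)^k e_i = (S_k + S_{k-1}) e_i -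
S_{k-1} κ e_j`). If `M i j = 0` then `t = 2`, `S_n(2) = n + 1` (induction / `S_eval_two`), the
coefficient of `e_j` is `2 k`, so `k = 0`. If `M i j = 2`: `κ = 0`, `t = -2`, `(r_i r_j) e_i = -
e_i`, so `k` is
even. If `M i j = m ≥ 3`: `κ ≠ 0` so `S_{k-1} = 0`, `sin(kθ) = 0`, `S_k + S_{k-1} = 1` gives
`sin((k+1)θ) = sin θ`, so `cos(kθ) sin θ = sin θ`, `cos(kθ) = 1`, `k 2π/m = 2π l`, `m ∣ k`
(`Real.cos_eq_one_iff`).
-/

set_option autoImplicit false

noncomputable section

namespace Pool.Agent.Art

open Classical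

variable {B : Type} (M : CoxeterMatrix B)

/-- The coefficients of the invariant form (times 2). -/
def kap (i j : B) : ℝ :=
  if i = j then 2 else if M i j = 0 then -2 else -2 * Real.cos (Real.pi / (M i j : ℝ))

/-- The linear form `2 B(e_i, -)`. -/
def frm (i : B) : Module.Dual ℝ (B →₀ ℝ) := Finsupp.linearCombination ℝ (kap M i)

theorem frm_single (i j : B) : frm M i (Finsupp.single j 1) = kap M i j := by
  simp [frm]

theorem frm_self (i : B) : frm M i (Finsupp.single i 1) = 2 := by
  rw [frm_single]; simp [kap]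

/-- The reflection `r_i`. -/
def rfn (i : B) : (B →₀ ℝ) ≃ₗ[ℝ] (B →₀ ℝ) := Module.reflection (frm_self M i)

open Polynomial.Chebyshev in
private theorem vgeo_key (i j : B) (k : ℕ) (t : ℝ) (ht : t = kap M i j * kap M j i - 2) :
    ((rfn M i * rfn M j) ^ k) (Finsupp.single i 1) =
      ((S ℝ k).eval t + (S ℝ (k - 1)).eval t) • Finsupp.single i 1 +
        ((S ℝ (k - 1)).eval t * -kap M j i) • Finsupp.single j 1 := by
  have h := Module.reflection_mul_reflection_pow_apply_self (frm_self M i) (frm_self M j) k t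
    (by rw [frm_single, frm_single, ht])
  rw [frm_single M j i] at h
  exact h

private theorem vgeo_sq (i : B) : rfn M i * rfn M i = 1 := by
  refine LinearEquiv.ext fun z => ?_
  exact Module.involutive_reflection (frm_self M i) z

private theorem vgeo_kap {i j : B} (hij : i ≠ j) (h0 : M i j ≠ 0) :
    kap M i j = -2 * Real.cos (Real.pi / (M i j : ℝ)) := by
  unfold kap
  rw [if_neg hij, if_neg h0]

private theorem vgeo_kap' {i j : B} (hij : i ≠ j) (h0 : M i j ≠ 0) :
    kap M j i = -2 * Real.cos (Real.pi / (M i j : ℝ)) := by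
  have h1 : M j i = M i j := M.symmetric j i
  rw [vgeo_kap M hij.symm (by rwa [h1]), h1]

private theorem vgeo_t {i j : B} (hij : i ≠ j) (h0 : M i j ≠ 0) :
    2 * Real.cos (2 * Real.pi / (M i j : ℝ)) = kap M i j * kap M j i - 2 := by
  rw [vgeo_kap M hij h0, vgeo_kap' M hij h0]
  have h1 : 2 * Real.pi / (M i j : ℝ) = 2 * (Real.pi / (M i j : ℝ)) := by ring
  rw [h1, Real.cos_two_mul]
  ring

private theorem vgeo_sin {m : ℕ} (hm : 3 ≤ m) : 0 < Real.sin (2 * Real.pi / (m : ℝ)) := by
  have hm' : (3 : ℝ) ≤ m := by exact_mod_cast hm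
  have hp := Real.pi_pos
  apply Real.sin_pos_of_pos_of_lt_pi
  · positivity
  · rw [div_lt_iff₀ (by linarith)]
    nlinarith

private theorem vgeo_cos {m : ℕ} (hm : 3 ≤ m) : Real.cos (Real.pi / (m : ℝ)) ≠ 0 := by
  have hm' : (3 : ℝ) ≤ m := by exact_mod_cast hm
  have hp := Real.pi_pos
  apply ne_of_gt
  apply Real.cos_pos_of_mem_Ioo
  constructor
  · have : 0 < Real.pi / (m : ℝ) := by positivity
    linarith
  · rw [div_lt_div_iff₀ (by linarith) (by norm_num)]
    nlinarith

theorem refl_pow (i j : B) : (rfn M i * rfn M j) ^ M i j = 1 := by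
  by_cases h0 : M i j = 0
  · rw [h0, pow_zero]
  by_cases hij : i = j
  · subst hij
    rw [M.diagonal, pow_one, vgeo_sq]
  have h1 : M i j ≠ 1 := M.off_diagonal i j hij
  refine LinearEquiv.ext fun z => ?_
  have h := Module.reflection_mul_reflection_pow_apply (frm_self M i) (frm_self M j) (M i j) z
    (2 * Real.cos (2 * Real.pi / (M i j : ℝ)))
    (by rw [frm_single, frm_single, vgeo_t M hij h0])
  rw [frm_single, frm_single] at h
  change ((rfn M i * rfn M j) ^ M i j) z = z
  refine Eq.trans h ?_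
  have hm0 : (M i j : ℝ) ≠ 0 := by exact_mod_cast h0
  by_cases h2 : M i j = 2
  · have hk : kap M i j = 0 := by
      rw [vgeo_kap M hij h0, h2]
      simp
    have hk' : kap M j i = 0 := by
      rw [vgeo_kap' M hij h0, h2]
      simp
    rw [hk, hk', h2]
    have e1 : (((2 : ℕ) : ℤ) - 2) / 2 = 0 := by norm_num
    have e2 : (((2 : ℕ) : ℤ) - 1) / 2 = 0 := by norm_num
    have e3 : (((2 : ℕ) : ℤ) - 3) / 2 = -1 := by norm_num
    have e4 : ((2 : ℕ) : ℤ) / 2 = 1 := by norm_num
    rw [e1, e2, e3, e4]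
    simp only [Polynomial.Chebyshev.S_zero, Polynomial.Chebyshev.S_one,
      Polynomial.Chebyshev.S_neg_one, Polynomial.eval_one, Polynomial.eval_zero,
      Polynomial.eval_X]
    have e5 : 2 * Real.cos (2 * Real.pi / ((2 : ℕ) : ℝ)) = -2 := by
      have : 2 * Real.pi / ((2 : ℕ) : ℝ) = Real.pi := by
        push_cast
        ring
      rw [this, Real.cos_pi]
      norm_num
    rw [e5]
    module
  · have hm3 : 3 ≤ M i j := by omega
    have hs := vgeo_sin hm3
    set m : ℕ := M i j with hm
    set θ : ℝ := 2 * Real.pi / (m : ℝ) with hθ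
    have hS : ∀ n : ℤ, (Polynomial.Chebyshev.S ℝ n).eval (2 * Real.cos θ) * Real.sin θ =
        Real.sin ((n + 1) * θ) := fun n => Polynomial.Chebyshev.S_two_mul_real_cos θ n
    rcases Nat.even_or_odd' m with ⟨k, hk | hk⟩
    · have hk0 : (k : ℝ) ≠ 0 := by
        intro h
        apply hm0
        rw [hk]
        push_cast
        rw [h]
        ring
      have e1 : ((m : ℤ) - 2) / 2 = k - 1 := by omega
      have e2 : ((m : ℤ) - 1) / 2 = k - 1 := by omega
      have h3 : (Polynomial.Chebyshev.S ℝ ((k : ℤ) - 1)).eval (2 * Real.cos θ) = 0 := by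
        have h4 := hS ((k : ℤ) - 1)
        have h5 : ((((k : ℤ) - 1 : ℤ) : ℝ) + 1) * θ = Real.pi := by
          rw [hθ, hk]
          push_cast
          field_simp
          ring
        rw [h5, Real.sin_pi] at h4
        exact (mul_eq_zero.1 h4).resolve_right hs.ne'
      rw [e1, e2, h3]
      simp
    · have e1 : ((m : ℤ) - 2) / 2 = k - 1 := by omega
      have e2 : ((m : ℤ) - 1) / 2 = k := by omega
      have e3 : ((m : ℤ) - 3) / 2 = k - 1 := by omega
      have e4 : (m : ℤ) / 2 = k := by omega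
      have h3 : (Polynomial.Chebyshev.S ℝ (k : ℤ)).eval (2 * Real.cos θ) +
          (Polynomial.Chebyshev.S ℝ ((k : ℤ) - 1)).eval (2 * Real.cos θ) = 0 := by
        have h4 := hS (k : ℤ)
        have h5 := hS ((k : ℤ) - 1)
        have h6 : (((k : ℤ) : ℝ) + 1) * θ = 2 * Real.pi - ((((k : ℤ) - 1 : ℤ) : ℝ) + 1) * θ := by
          have hm1 : (m : ℝ) * θ = 2 * Real.pi := by
            rw [hθ]
            field_simp
          have hm2 : (m : ℝ) = 2 * k + 1 := by
            rw [hk]
            push_cast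
            ring
          rw [hm2] at hm1
          push_cast
          linarith
        rw [h6, Real.sin_two_pi_sub] at h4
        have h7 : ((Polynomial.Chebyshev.S ℝ (k : ℤ)).eval (2 * Real.cos θ) +
          (Polynomial.Chebyshev.S ℝ ((k : ℤ) - 1)).eval (2 * Real.cos θ)) * Real.sin θ = 0 := by
          rw [add_mul, h4, h5]
          ring
        exact (mul_eq_zero.1 h7).resolve_right hs.ne'
      rw [e1, e2, e3, e4, h3]
      simp

theorem refl_ord (i j : B) (k : ℕ) (h : (rfn M i * rfn M j) ^ k = 1) : M i j ∣ k := by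
  by_cases hij : i = j
  · subst hij
    rw [M.diagonal]
    exact one_dvd k
  have h1 : M i j ≠ 1 := M.off_diagonal i j hij
  have hE : ∀ t : ℝ, t = kap M i j * kap M j i - 2 →
      (Polynomial.Chebyshev.S ℝ k).eval t + (Polynomial.Chebyshev.S ℝ (k - 1)).eval t = 1 ∧
        (Polynomial.Chebyshev.S ℝ (k - 1)).eval t * kap M j i = 0 := by
    intro t ht
    have h2 := vgeo_key M i j k t ht
    rw [h] at h2
    change Finsupp.single i (1 : ℝ) = _ at h2
    have h3 := DFunLike.congr_fun h2 i
    have h4 := DFunLike.congr_fun h2 j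
    simp only [Finsupp.add_apply, Finsupp.smul_apply, Finsupp.single_eq_same,
      Finsupp.single_eq_of_ne hij, Finsupp.single_eq_of_ne (Ne.symm hij), smul_eq_mul, mul_zero,
      mul_one, add_zero, zero_add] at h3 h4
    constructor
    · exact h3.symm
    · linarith
  by_cases h0 : M i j = 0
  · have hk : kap M i j = -2 := by
      unfold kap
      rw [if_neg hij, if_pos h0]
    have hk' : kap M j i = -2 := by
      unfold kap
      rw [if_neg (Ne.symm hij), if_pos ((M.symmetric j i).trans h0)]
    have h2 := (hE 2 (by rw [hk, hk']; norm_num)).2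
    rw [Polynomial.Chebyshev.S_eval_two, hk'] at h2
    push_cast at h2
    have h3 : (k : ℝ) = 0 := by linarith
    have h4 : k = 0 := by exact_mod_cast h3
    rw [h4]
    exact dvd_zero _
  by_cases h2 : M i j = 2
  · have hk : kap M i j = 0 := by
      rw [vgeo_kap M hij h0, h2]
      simp
    have h3 := (hE (-2) (by rw [hk]; norm_num)).1
    rw [Polynomial.Chebyshev.S_eval_neg_two, Polynomial.Chebyshev.S_eval_neg_two] at h3
    rw [h2]
    rcases Nat.even_or_odd k with he | ho
    · exact he.two_dvd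
    · exfalso
      have e1 : (k : ℤ).negOnePow = -1 := Int.negOnePow_odd _ (by exact_mod_cast ho)
      have e2 : ((k : ℤ) - 1).negOnePow = 1 := Int.negOnePow_even _ (by
        have : Odd (k : ℤ) := by exact_mod_cast ho
        exact this.sub_odd odd_one)
      rw [e1, e2] at h3
      push_cast at h3
      norm_num at h3
  · have hm3 : 3 ≤ M i j := by omega
    have hs := vgeo_sin hm3
    have hc := vgeo_cos hm3
    have h3 := hE _ (vgeo_t M hij h0)
    have hm0 : (M i j : ℝ) ≠ 0 := by exact_mod_cast h0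
    set m : ℕ := M i j with hm
    set θ : ℝ := 2 * Real.pi / (m : ℝ) with hθ
    have hS : ∀ n : ℤ, (Polynomial.Chebyshev.S ℝ n).eval (2 * Real.cos θ) * Real.sin θ =
        Real.sin ((n + 1) * θ) := fun n => Polynomial.Chebyshev.S_two_mul_real_cos θ n
    have hk' : kap M j i ≠ 0 := by
      rw [vgeo_kap' M hij h0]
      exact mul_ne_zero (by norm_num) hc
    have h4 : (Polynomial.Chebyshev.S ℝ ((k : ℤ) - 1)).eval (2 * Real.cos θ) = 0 :=
      (mul_eq_zero.1 h3.2).resolve_right hk'
    have h5 : (Polynomial.Chebyshev.S ℝ (k : ℤ)).eval (2 * Real.cos θ) = 1 := by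
      have := h3.1
      rw [h4, add_zero] at this
      exact this
    have h6 := hS (k : ℤ)
    have h7 := hS ((k : ℤ) - 1)
    rw [h5, one_mul] at h6
    rw [h4, zero_mul] at h7
    have h8 : ((((k : ℤ) - 1 : ℤ) : ℝ) + 1) * θ = k * θ := by
      push_cast
      ring
    rw [h8] at h7
    have h9 : (((k : ℤ) : ℝ) + 1) * θ = k * θ + θ := by
      push_cast
      ring
    rw [h9, Real.sin_add, ← h7, zero_mul, zero_add] at h6
    have h10 : Real.cos (k * θ) = 1 := by
      have : (Real.cos (k * θ) - 1) * Real.sin θ = 0 := by linarith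
      have := (mul_eq_zero.1 this).resolve_right hs.ne'
      linarith
    obtain ⟨n, hn⟩ := (Real.cos_eq_one_iff _).1 h10
    have hp := Real.pi_pos
    have h11 : (n : ℝ) * m = k := by
      rw [hθ] at hn
      field_simp at hn
      linarith
    have h12 : n * (m : ℤ) = (k : ℤ) := by exact_mod_cast h11
    have h13 : (m : ℤ) ∣ (k : ℤ) := ⟨n, by rw [← h12]; ring⟩
    exact_mod_cast h13

end Pool.Agent.Art
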