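import Pool.Agent.Art.VWalk

/-!
# Parabolic subgroups of Artin groups: the theorem of van der Lek

PROOFS.
`act_incl`: induction on `g` (`artin_induction` for the group `Artin (rst M X)`, or the statement
for `gen` and closure of the
set of all `g` with the property under products and inverses); for a generator: `stepf_hit` with
`w = 1`.
`incl_injective`: apply `act_incl` with `a = 1`.
`inclle_injective`: `(incl M Y).comp (inclle M h) = incl M X` (`hom_ext`) and `incl_injective`.
-/

set_option autoImplicit false

noncomputable section

namespace Pool.Agent.Art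

open Classical

variable {B : Type} (M : CoxeterMatrix B)

/-- The action on the state space. -/
def act (X : Set B) : Artin M →* Equiv.Perm (Sta M X) :=
  lift (stepP M X) fun i j h => braid_step M X i j h

/-- The homomorphism from a parabolic Artin group. -/
def incl (X : Set B) : Artin (rst M X) →* Artin M :=
  lift (fun x : X => gen M x) fun i j h => braid M (i := i) (j := j) h

@[simp] theorem incl_gen (X : Set B) (x : X) : incl M X (gen (rst M X) x) = gen M x :=
  lift_gen _ _ _

theorem act_incl (X : Set B) (g a : Artin (rst M X)) :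
    act M X (incl M X g) (⟨1, one_mem_om M X⟩, a) = (⟨1, one_mem_om M X⟩, g * a) := by
  have hgen : ∀ (x : X) (b : Artin (rst M X)),
      act M X (incl M X (gen (rst M X) x)) (⟨1, one_mem_om M X⟩, b) =
        (⟨1, one_mem_om M X⟩, gen (rst M X) x * b) := by
    intro x b
    rw [incl_gen, act, lift_gen]
    exact stepf_hit M X x ⟨1, one_mem_om M X⟩ b x (by simp)
  induction g using artin_induction generalizing a with
  | h1 => simp
  | hmul i g ih => rw [map_mul, map_mul, Equiv.Perm.mul_apply, hgen, ih, mul_assoc]
  | hinv i g ih =>
    rw [map_mul, map_mul, Equiv.Perm.mul_apply, mul_assoc]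
    have h1 : act M X (incl M X (gen (rst M X) i)⁻¹) (⟨1, one_mem_om M X⟩, a) =
        (⟨1, one_mem_om M X⟩, (gen (rst M X) i)⁻¹ * a) := by
      rw [map_inv, map_inv, Equiv.Perm.inv_eq_iff_eq, hgen, mul_inv_cancel_left]
    rw [h1, ih]

/-- van der Lek: standard parabolic subgroups of Artin groups are Artin groups. -/
theorem incl_injective (X : Set B) : Function.Injective (incl M X) := by
  intro g h hgh
  have h1 := act_incl M X g 1
  rw [hgh, act_incl M X h 1] at h1
  simpa using (congrArg Prod.snd h1).symm

/-- The homomorphism between parabolic Artin groups. -/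
def inclle {X Y : Set B} (h : X ⊆ Y) : Artin (rst M X) →* Artin (rst M Y) :=
  lift (fun x : X => gen (rst M Y) ⟨x.1, h x.2⟩) fun i j h' =>
    braid (rst M Y) (i := ⟨i.1, h i.2⟩) (j := ⟨j.1, h j.2⟩) h'

@[simp] theorem inclle_gen {X Y : Set B} (h : X ⊆ Y) (x : X) :
    inclle M h (gen (rst M X) x) = gen (rst M Y) ⟨x.1, h x.2⟩ :=
  lift_gen _ _ _

theorem inclle_injective {X Y : Set B} (h : X ⊆ Y) : Function.Injective (inclle M h) := by
  have h1 : (incl M Y).comp (inclle M h) = incl M X := by
    apply hom_ext
    intro i
    simp
  have h2 := incl_injective M X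
  rw [← h1, MonoidHom.coe_comp] at h2
  exact h2.of_comp

end Pool.Agent.Art
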