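import Pool.Agent.Art.VSimp

/-!
# The inversion cocycle of a Coxeter group

PROOFS.
`exists_nu`: permutations `P i` of `W × ZMod 2`: `P i (t, ε) = (s i * t * s i, ε + [t = s i])` (an
involution).
Liftable: `(P i * P j)^k (t, ε) = (u t u⁻¹, ε + ∑ n < 2k, [t = (s j * s i)^n * s j])`, `u = (s i *
s j)^k`
(induction on `k`: `P j` acts first; the two new terms at step `k` are `[u t u⁻¹ = s j]`, i.e.
`t = (s i s j)^(-k) s j (s i s j)^k = (s j s i)^(2k) s j`, and `[s j u t u⁻¹ s j = s i]`, i.e.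
`t = (s j s i)^(2k+1) s j`). For `k = M i j` (if it is not `0`) `(s j s i)^(n + k) = (s j s i)^n`,
so the sum is
twice the sum over `n < k`, which is `0` in `ZMod 2`, and `u = 1`.
`M.toCoxeterSystem.lift` gives `Φ : W →* Perm (W × ZMod 2)`; by `simple_induction_left`
`Φ w (t, ε) = (w t w⁻¹, ε + (Φ w (t, 0)).2)`. Put `ν w t = (Φ w (t, 0)).2`.
`nu_wordProd`: induction on `ω` (`rightInvSeq`: `ris (i :: ω) = (π ω)⁻¹ * s i * π ω :: ris ω`,
`nu_mul`, `nu_sr`; `List.count`).
`nu_length`: choose a reduced word `ω` of `w` (`exists_isReduced`); `ν w t ≠ 0` gives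
`List.count t (ris ω) ≠ 0`, `t ∈ ris ω`, `isRightInversion_of_mem_rightInvSeq`.
-/

set_option autoImplicit false

noncomputable section

namespace Pool.Agent.Art

open Classical

variable {B : Type} (M : CoxeterMatrix B)

/-- the elementary step -/
private def vnuStep (i : B) : Function.End (M.Group × ZMod 2) := fun p =>
  (sr M i * p.1 * sr M i, p.2 + if p.1 = sr M i then 1 else 0)

private theorem vnu_inv (i : B) : (sr M i)⁻¹ = sr M i := M.toCoxeterSystem.inv_simple i

private theorem vnu_self (i : B) : sr M i * sr M i = 1 := M.toCoxeterSystem.simple_mul_simple_self i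

private theorem vnu_conj {G : Type} [Group G] {a x y : G} (ha : a * a = 1) :
    a * x * a = y ↔ x = a * y * a := by
  have ha' : a = a⁻¹ := eq_inv_of_mul_eq_one_left ha
  constructor
  · rintro rfl
    rw [mul_assoc, mul_assoc, mul_assoc, ha, mul_one, ← mul_assoc, ha, one_mul]
  · rintro rfl
    rw [mul_assoc, mul_assoc, mul_assoc, ha, mul_one, ← mul_assoc, ha, one_mul]

private theorem vnu_comm (i j : B) (k : ℕ) :
    sr M j * (sr M i * sr M j) ^ k = (sr M j * sr M i) ^ k * sr M j := by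
  have h : SemiconjBy (sr M j) (sr M i * sr M j) (sr M j * sr M i) := by
    unfold SemiconjBy
    rw [mul_assoc]
  exact (h.pow_right k).eq

private theorem vnu_pow_inv (i j : B) (k : ℕ) :
    ((sr M i * sr M j) ^ k)⁻¹ = (sr M j * sr M i) ^ k := by
  rw [← inv_pow, mul_inv_rev, vnu_inv, vnu_inv]

private theorem vnu_pow (i j : B) (k : ℕ) (t : M.Group) (ε : ZMod 2) :
    ((vnuStep M i * vnuStep M j) ^ k : Function.End (M.Group × ZMod 2)) (t, ε) =
      ((sr M i * sr M j) ^ k * t * ((sr M i * sr M j) ^ k)⁻¹,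
        ε + ∑ n ∈ Finset.range (2 * k), if t = (sr M j * sr M i) ^ n * sr M j then 1 else 0) := by
  induction k with
  | zero =>
    rw [mul_zero, Finset.range_zero, Finset.sum_empty, pow_zero, pow_zero, one_mul, inv_one,
      mul_one, add_zero]
    rfl
  | succ k ih =>
    rw [pow_succ', Function.End.mul_def, Function.comp_apply, ih]
    rw [Function.End.mul_def, Function.comp_apply]
    have h1 : ((sr M i * sr M j) ^ k * t * ((sr M i * sr M j) ^ k)⁻¹ = sr M j) ↔
        t = (sr M j * sr M i) ^ (2 * k) * sr M j := by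
      rw [mul_inv_eq_iff_eq_mul, ← eq_inv_mul_iff_mul_eq, vnu_pow_inv, vnu_comm, ← mul_assoc,
        ← pow_add, two_mul]
    have h2 : (sr M j * ((sr M i * sr M j) ^ k * t * ((sr M i * sr M j) ^ k)⁻¹) * sr M j =
        sr M i) ↔ t = (sr M j * sr M i) ^ (2 * k + 1) * sr M j := by
      have h3 : (sr M j * ((sr M i * sr M j) ^ k * t * ((sr M i * sr M j) ^ k)⁻¹) * sr M j =
          sr M i) ↔ ((sr M i * sr M j) ^ k * t * ((sr M i * sr M j) ^ k)⁻¹ =
            (sr M j * sr M i) * sr M j) := by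
        exact vnu_conj (vnu_self M j)
      rw [h3, mul_inv_eq_iff_eq_mul, ← eq_inv_mul_iff_mul_eq, vnu_pow_inv,
        mul_assoc (sr M j * sr M i), vnu_comm, ← mul_assoc, ← mul_assoc, ← pow_succ, ← pow_add]
      have h4 : k + 1 + k = 2 * k + 1 := by ring
      rw [h4]
    refine Prod.ext ?_ ?_
    · change sr M i * (sr M j * ((sr M i * sr M j) ^ k * t * ((sr M i * sr M j) ^ k)⁻¹) *
        sr M j) * sr M i = _
      rw [pow_succ', mul_inv_rev, mul_inv_rev, vnu_inv, vnu_inv]
      simp only [mul_assoc]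
    · change ε + (∑ n ∈ Finset.range (2 * k),
          if t = (sr M j * sr M i) ^ n * sr M j then (1 : ZMod 2) else 0) +
        (if (sr M i * sr M j) ^ k * t * ((sr M i * sr M j) ^ k)⁻¹ = sr M j then 1 else 0) +
        (if sr M j * ((sr M i * sr M j) ^ k * t * ((sr M i * sr M j) ^ k)⁻¹) * sr M j = sr M i
          then 1 else 0) = _
      rw [if_congr h1 rfl rfl, if_congr h2 rfl rfl]
      have h5 : 2 * (k + 1) = 2 * k + 1 + 1 := by ring
      rw [h5, Finset.sum_range_succ, Finset.sum_range_succ]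
      ring

private theorem vnu_lift : M.IsLiftable (vnuStep M) := by
  intro i j
  funext p
  obtain ⟨t, ε⟩ := p
  rw [vnu_pow]
  have h1 : (sr M i * sr M j) ^ M i j = 1 := M.toCoxeterSystem.simple_mul_simple_pow i j
  have h2 : (sr M j * sr M i) ^ M i j = 1 := M.toCoxeterSystem.simple_mul_simple_pow' i j
  rw [h1, one_mul, inv_one, mul_one, two_mul, Finset.sum_range_add]
  have h3 : (∑ n ∈ Finset.range (M i j),
      if t = (sr M j * sr M i) ^ (M i j + n) * sr M j then (1 : ZMod 2) else 0) =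
      ∑ n ∈ Finset.range (M i j),
        if t = (sr M j * sr M i) ^ n * sr M j then (1 : ZMod 2) else 0 := by
    refine Finset.sum_congr rfl fun n _ => ?_
    rw [pow_add, h2, one_mul]
  rw [h3, CharTwo.add_self_eq_zero, add_zero]
  rfl

/-- the lift of the elementary steps to the Coxeter group -/
private def vnuHom : M.Group →* Function.End (M.Group × ZMod 2) :=
  M.toCoxeterSystem.lift ⟨vnuStep M, vnu_lift M⟩

private theorem vnuHom_sr (i : B) : vnuHom M (sr M i) = vnuStep M i :=
  M.toCoxeterSystem.lift_apply_simple (vnu_lift M) i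

private theorem vnuHom_apply (w : M.Group) : ∀ (t : M.Group) (ε : ZMod 2),
    vnuHom M w (t, ε) = (w * t * w⁻¹, ε + (vnuHom M w (t, 0)).2) := by
  refine M.toCoxeterSystem.simple_induction_left (p := fun w => ∀ (t : M.Group) (ε : ZMod 2),
    vnuHom M w (t, ε) = (w * t * w⁻¹, ε + (vnuHom M w (t, 0)).2)) w ?_ ?_
  · intro t ε
    rw [map_one]
    change (t, ε) = (1 * t * 1⁻¹, ε + 0)
    rw [one_mul, inv_one, mul_one, add_zero]
  · intro w i ih t ε
    rw [map_mul]
    change vnuHom M (sr M i) (vnuHom M w (t, ε)) =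
      (_, ε + (vnuHom M (sr M i) (vnuHom M w (t, 0))).2)
    rw [vnuHom_sr, ih t ε, ih t 0]
    refine Prod.ext ?_ ?_
    · change sr M i * (w * t * w⁻¹) * sr M i = sr M i * w * t * (sr M i * w)⁻¹
      rw [mul_inv_rev, vnu_inv]
      simp only [mul_assoc]
    · change (ε + (0 + (vnuHom M w (t, 0)).2)) +
          (if w * t * w⁻¹ = sr M i then (1 : ZMod 2) else 0) =
        ε + ((0 + (vnuHom M w (t, 0)).2) + (if w * t * w⁻¹ = sr M i then (1 : ZMod 2) else 0))
      rw [add_assoc]

theorem exists_nu : ∃ ν : M.Group → M.Group → ZMod 2, (∀ t, ν 1 t = 0) ∧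
    (∀ v w t, ν (v * w) t = ν w t + ν v (w * t * w⁻¹)) ∧
    (∀ i t, ν (sr M i) t = if t = sr M i then 1 else 0) := by
  refine ⟨fun w t => (vnuHom M w (t, 0)).2, fun t => ?_, fun v w t => ?_, fun i t => ?_⟩
  · change (vnuHom M 1 (t, 0)).2 = 0
    rw [map_one]
    rfl
  · change (vnuHom M (v * w) (t, 0)).2 =
      (vnuHom M w (t, 0)).2 + (vnuHom M v (w * t * w⁻¹, 0)).2
    rw [map_mul]
    change (vnuHom M v (vnuHom M w (t, 0))).2 = _
    rw [vnuHom_apply M w t 0, vnuHom_apply M v (w * t * w⁻¹) (0 + (vnuHom M w (t, 0)).2),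
      zero_add]
  · change (vnuHom M (sr M i) (t, 0)).2 = _
    rw [vnuHom_sr]
    change 0 + (if t = sr M i then (1 : ZMod 2) else 0) = _
    rw [zero_add]

/-- The inversion cocycle: `nu w t = 1` iff `t` is a reflection with `ℓ (w t) < ℓ w`. -/
def nu : M.Group → M.Group → ZMod 2 := (exists_nu M).choose

theorem nu_one (t : M.Group) : nu M 1 t = 0 := (exists_nu M).choose_spec.1 t

theorem nu_mul (v w t : M.Group) : nu M (v * w) t = nu M w t + nu M v (w * t * w⁻¹) :=
  (exists_nu M).choose_spec.2.1 v w t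

theorem nu_sr (i : B) (t : M.Group) : nu M (sr M i) t = if t = sr M i then 1 else 0 :=
  (exists_nu M).choose_spec.2.2 i t

theorem nu_wordProd (ω : List B) (t : M.Group) :
    nu M (M.toCoxeterSystem.wordProd ω) t =
      (List.count t (M.toCoxeterSystem.rightInvSeq ω) : ZMod 2) := by
  induction ω with
  | nil =>
    rw [CoxeterSystem.wordProd_nil, nu_one, CoxeterSystem.rightInvSeq_nil, List.count_nil,
      Nat.cast_zero]
  | cons i ω ih =>
    rw [CoxeterSystem.wordProd_cons, nu_mul, nu_sr, ih]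
    change _ = ((List.count t ((M.toCoxeterSystem.wordProd ω)⁻¹ * sr M i *
      M.toCoxeterSystem.wordProd ω :: M.toCoxeterSystem.rightInvSeq ω) : ℕ) : ZMod 2)
    rw [List.count_cons, Nat.cast_add]
    congr 1
    have h : (M.toCoxeterSystem.wordProd ω * t * (M.toCoxeterSystem.wordProd ω)⁻¹ = sr M i) ↔
        (M.toCoxeterSystem.wordProd ω)⁻¹ * sr M i * M.toCoxeterSystem.wordProd ω = t := by
      rw [mul_inv_eq_iff_eq_mul, ← eq_inv_mul_iff_mul_eq, mul_assoc, eq_comm]
    rw [if_congr h rfl rfl]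
    by_cases h' : (M.toCoxeterSystem.wordProd ω)⁻¹ * sr M i * M.toCoxeterSystem.wordProd ω = t
    · rw [if_pos h', if_pos (beq_iff_eq.2 h'), Nat.cast_one]
    · rw [if_neg h', if_neg (fun h'' => h' (beq_iff_eq.1 h'')), Nat.cast_zero]

theorem nu_length (w t : M.Group) (h : nu M w t ≠ 0) :
    M.toCoxeterSystem.length (w * t) < M.toCoxeterSystem.length w := by
  obtain ⟨ω, hω, rfl⟩ := M.toCoxeterSystem.exists_isReduced w
  rw [nu_wordProd] at h
  have h1 : List.count t (M.toCoxeterSystem.rightInvSeq ω) ≠ 0 := by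
    intro h0
    rw [h0, Nat.cast_zero] at h
    exact h rfl
  have h2 : t ∈ M.toCoxeterSystem.rightInvSeq ω :=
    List.count_pos_iff.1 (Nat.pos_of_ne_zero h1)
  exact (M.toCoxeterSystem.isRightInversion_of_mem_rightInvSeq hω h2).2

end Pool.Agent.Art
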