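import Pool.Agent.Art.VDih

/-!
# The rank two lemma

PROOF of `rank_two`. Write `W` for the group, `ℓ` for the length, `R` for the set of all `rho M i
j n`
(it is stable under conjugation by `dih`, `rho_conj`), `ρ_x = w s_x w⁻¹ = rho n`, `ρ_y = w s_y w⁻¹
= rho n'`.
Choose `p ∈ dih M i j` with `ℓ (p w)` minimal, `v = p w`, so `w = p⁻¹ v`.
(1) For `σ ∈ R` and `τ = v⁻¹ σ v`: `nu v τ = 0`. Otherwise `ℓ (v τ) < ℓ v` (`nu_length`), `v τ = σ
v = (σ p) w` and
`σ p ∈ dih`, contradiction.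
(2) For `z = x, y` let `ρ = v s_z v⁻¹ = p ρ_z p⁻¹ ∈ R`. Then `nu ρ σ = [σ = ρ]` for all `σ ∈ R`:
compute
`nu (ρ v) τ`, `τ = v⁻¹ σ v`, in two ways: `nu (ρ v) τ = nu v τ + nu ρ (v τ v⁻¹) = 0 + nu ρ σ`, and
`ρ v = v s_z`: `nu (v s_z) τ = nu s_z τ + nu v (s_z τ s_z) = [τ = s_z] + 0`, because
`s_z τ s_z = v⁻¹ (ρ σ ρ) v`, `ρ σ ρ⁻¹ ∈ R` (and `ρ⁻¹ = ρ`). Finally `τ = s_z ↔ σ = ρ`.
(3) `ρ ≠ 1` (it is conjugate to `s_z`, `nu s_z s_z = 1 ≠ 0`), so by `nu_dih` `nu ρ (s i) ≠ 0` or
`nu ρ (s j) ≠ 0`; as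
`s i, s j ∈ R` (2) gives `ρ = s i` or `ρ = s j`.
(4) For `x ≠ y` the two `ρ` are different (`sr_injective`), so they are `s i` and `s j` in some
order.
(5) `p = 1`: otherwise `u = p⁻¹ ≠ 1` is in `dih`, so `nu u (s i) ≠ 0` or `nu u (s j) ≠ 0`
(`nu_dih`), i.e.
`nu u ρ ≠ 0` for `ρ = v s_z v⁻¹`, `z = x` or `y`. But `0 = nu w s_z = nu (u v) s_z = nu v s_z + nu
u (v s_z v⁻¹) =
0 + nu u ρ` (`nu v s_z = 0` by (1)). Contradiction.
(6) So `v = w` and (4) is the claim.
`M_eq`: in the situation of the claim `s_x s_y` is conjugate to `s i s j` or `s j s i`;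
`sr_pow_eq_one` (and symmetry of
`M`) give `M x y ∣ k ↔ M i j ∣ k` for all `k`, so `M x y = M i j` (`Nat.dvd_antisymm`).
-/

set_option autoImplicit false

noncomputable section

namespace Pool.Agent.Art

open Classical

variable {B : Type} (M : CoxeterMatrix B)

/-- An element of the dihedral group which makes the product shortest. -/
private theorem exists_min (i j : B) (w : M.Group) : ∃ p ∈ dih M i j, ∀ q ∈ dih M i j,
    M.toCoxeterSystem.length (p * w) ≤ M.toCoxeterSystem.length (q * w) := by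
  have hex : ∃ k, ∃ p ∈ dih M i j, M.toCoxeterSystem.length (p * w) = k :=
    ⟨_, 1, (dih M i j).one_mem, rfl⟩
  obtain ⟨p, hp, hpk⟩ := Nat.find_spec hex
  refine ⟨p, hp, fun q hq => ?_⟩
  rw [hpk]
  exact Nat.find_min' hex ⟨q, hq, rfl⟩

private theorem nu_min {i j : B} {v : M.Group} (hv : ∀ q ∈ dih M i j,
    M.toCoxeterSystem.length v ≤ M.toCoxeterSystem.length (q * v)) (n : ℕ) :
    nu M v (v⁻¹ * rho M i j n * v) = 0 := by
  by_contra h
  have h1 := nu_length M v _ h
  have h2 : v * (v⁻¹ * rho M i j n * v) = rho M i j n * v := by group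
  rw [h2] at h1
  exact absurd (hv _ (rho_mem M i j n)) (not_le.2 h1)

private theorem nu_conj {i j : B} (hm : M i j ≠ 0) {v : M.Group} (hv : ∀ q ∈ dih M i j,
    M.toCoxeterSystem.length v ≤ M.toCoxeterSystem.length (q * v)) {z : B} {a : ℕ}
    (ha : v * sr M z * v⁻¹ = rho M i j a) (n : ℕ) :
    nu M (v * sr M z * v⁻¹) (rho M i j n) =
      if rho M i j n = v * sr M z * v⁻¹ then 1 else 0 := by
  have h1 := nu_mul M (v * sr M z * v⁻¹) v (v⁻¹ * rho M i j n * v)
  have h2 := nu_mul M v (sr M z) (v⁻¹ * rho M i j n * v)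
  have h3 : v * sr M z * v⁻¹ * v = v * sr M z := by group
  have h4 : v * (v⁻¹ * rho M i j n * v) * v⁻¹ = rho M i j n := by group
  rw [h3, h2, h4, nu_min M hv, zero_add, nu_sr] at h1
  have hmem : v * sr M z * v⁻¹ ∈ dih M i j := by
    rw [ha]
    exact rho_mem M i j a
  obtain ⟨n', -, hn'⟩ := rho_conj M i j hm n _ hmem
  have h5 : sr M z * (v⁻¹ * rho M i j n * v) * (sr M z)⁻¹ = v⁻¹ * rho M i j n' * v := by
    rw [← hn']
    group
  rw [h5, nu_min M hv, add_zero] at h1
  rw [← h1]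
  have h6 : v⁻¹ * rho M i j n * v = sr M z ↔ rho M i j n = v * sr M z * v⁻¹ := by
    constructor
    · intro h
      rw [← h]
      group
    · intro h
      rw [h]
      group
  simp only [h6]

private theorem sr_ne_one (z : B) : sr M z ≠ 1 := by
  intro h
  have h1 := nu_sr M z (sr M z)
  rw [if_pos rfl] at h1
  have h2 := nu_one M (sr M z)
  rw [← h] at h2
  rw [h2] at h1
  exact zero_ne_one h1

private theorem conj_eq {i j : B} (hm : M i j ≠ 0) {v : M.Group} (hv : ∀ q ∈ dih M i j,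
    M.toCoxeterSystem.length v ≤ M.toCoxeterSystem.length (q * v)) {z : B} {a : ℕ}
    (ha : v * sr M z * v⁻¹ = rho M i j a) :
    v * sr M z * v⁻¹ = sr M i ∨ v * sr M z * v⁻¹ = sr M j := by
  have hmem : v * sr M z * v⁻¹ ∈ dih M i j := by
    rw [ha]
    exact rho_mem M i j a
  have hne : v * sr M z * v⁻¹ ≠ 1 := by
    intro h
    apply sr_ne_one M z
    have h1 : sr M z = v⁻¹ * (v * sr M z * v⁻¹) * v := by group
    rw [h1, h]
    group
  have hj : rho M i j 0 = sr M j := by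
    rw [rho, pow_zero, one_mul]
  rcases nu_dih M i j hm _ hmem hne with h | h
  · left
    rw [sr_eq_rho M i j hm, nu_conj M hm hv ha] at h
    by_contra hne'
    apply h
    rw [if_neg]
    intro h2
    apply hne'
    rw [← h2, ← sr_eq_rho M i j hm]
  · right
    rw [← hj, nu_conj M hm hv ha] at h
    by_contra hne'
    apply h
    rw [if_neg]
    intro h2
    apply hne'
    rw [← h2, hj]

theorem rank_two (X : Set B) (w : M.Group) (hw : ∀ x ∈ X, nu M w (sr M x) = 0) (i j : B)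
    (hm : M i j ≠ 0) (x y : B) (hx : x ∈ X) (hy : y ∈ X) (hxy : x ≠ y) (n n' : ℕ)
    (h1 : rho M i j n * w = w * sr M x) (h2 : rho M i j n' * w = w * sr M y) :
    (sr M i * w = w * sr M x ∧ sr M j * w = w * sr M y) ∨
      (sr M i * w = w * sr M y ∧ sr M j * w = w * sr M x) := by
  obtain ⟨p, hp, hmin⟩ := exists_min M i j w
  set v : M.Group := p * w with hvdef
  have hv : ∀ q ∈ dih M i j,
      M.toCoxeterSystem.length v ≤ M.toCoxeterSystem.length (q * v) := by
    intro q hq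
    have h3 := hmin (q * p) ((dih M i j).mul_mem hq hp)
    rwa [mul_assoc] at h3
  have hconj : ∀ (z : B) (k : ℕ), rho M i j k * w = w * sr M z →
      ∃ a, v * sr M z * v⁻¹ = rho M i j a := by
    intro z k hk
    obtain ⟨a, -, ha⟩ := rho_conj M i j hm k p hp
    refine ⟨a, ?_⟩
    rw [← ha, hvdef, mul_assoc p w, ← hk]
    group
  obtain ⟨a, ha⟩ := hconj x n h1
  obtain ⟨b, hb⟩ := hconj y n' h2
  have hX : ∀ (z : B) (a : ℕ), z ∈ X → v * sr M z * v⁻¹ = rho M i j a →
      nu M p⁻¹ (v * sr M z * v⁻¹) = 0 := by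
    intro z a hz haz
    have h3 := nu_mul M p⁻¹ v (sr M z)
    have h4 : p⁻¹ * v = w := by rw [hvdef]; group
    have h5 : sr M z = v⁻¹ * rho M i j a * v := by
      rw [← haz]
      group
    rw [h4, hw z hz] at h3
    have h6 : nu M v (sr M z) = 0 := by
      rw [h5]
      exact nu_min M hv a
    rw [h6, zero_add] at h3
    exact h3.symm
  have hne : v * sr M x * v⁻¹ ≠ v * sr M y * v⁻¹ := by
    intro h
    exact hxy (sr_injective M (mul_left_cancel (mul_right_cancel h)))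
  have hpair : (v * sr M x * v⁻¹ = sr M i ∧ v * sr M y * v⁻¹ = sr M j) ∨
      (v * sr M x * v⁻¹ = sr M j ∧ v * sr M y * v⁻¹ = sr M i) := by
    rcases conj_eq M hm hv ha with h3 | h3 <;> rcases conj_eq M hm hv hb with h4 | h4
    · exact absurd (h3.trans h4.symm) hne
    · exact Or.inl ⟨h3, h4⟩
    · exact Or.inr ⟨h3, h4⟩
    · exact absurd (h3.trans h4.symm) hne
  have hp1 : p = 1 := by
    by_contra hp1
    have h5 := nu_dih M i j hm p⁻¹ ((dih M i j).inv_mem hp) (fun h => hp1 (inv_eq_one.1 h))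
    have h6 := hX x a hx ha
    have h7 := hX y b hy hb
    rcases hpair with ⟨h3, h4⟩ | ⟨h3, h4⟩
    · rw [h3] at h6
      rw [h4] at h7
      rcases h5 with h5 | h5
      · exact h5 h6
      · exact h5 h7
    · rw [h3] at h6
      rw [h4] at h7
      rcases h5 with h5 | h5
      · exact h5 h7
      · exact h5 h6
  have hvw : v = w := by rw [hvdef, hp1, one_mul]
  rw [hvw] at hpair
  rcases hpair with ⟨h3, h4⟩ | ⟨h3, h4⟩
  · left
    constructor
    · rw [← h3]
      group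
    · rw [← h4]
      group
  · right
    constructor
    · rw [← h4]
      group
    · rw [← h3]
      group

theorem M_eq (w : M.Group) (i j x y : B) (h1 : sr M i * w = w * sr M x)
    (h2 : sr M j * w = w * sr M y) : M x y = M i j := by
  have h3 : sr M i * sr M j = w * (sr M x * sr M y) * w⁻¹ := by
    have h4 : sr M i = w * sr M x * w⁻¹ := by
      rw [← h1]
      group
    have h5 : sr M j = w * sr M y * w⁻¹ := by
      rw [← h2]
      group
    rw [h4, h5]
    group
  have h4 : ∀ k : ℕ, M x y ∣ k ↔ M i j ∣ k := by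
    intro k
    rw [← sr_pow_eq_one, ← sr_pow_eq_one, h3, conj_pow]
    constructor
    · intro h
      rw [h]
      group
    · intro h
      have h5 : (sr M x * sr M y) ^ k = w⁻¹ * (w * (sr M x * sr M y) ^ k * w⁻¹) * w := by group
      rw [h5, h]
      group
  exact Nat.dvd_antisymm ((h4 _).2 dvd_rfl) ((h4 _).1 dvd_rfl)

end Pool.Agent.Art
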