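import Pool.Agent.Art.VGeo

/-!
# The geometric representation: consequences

PROOFS.
`geo`: `M.toCoxeterSystem.lift`, liftable by `refl_pow`.
`sr_pow_eq_one`: `→` apply `geo` and use `refl_ord`; `←` `(s i * s j)^(M i j) = 1`.
`sr_injective`: `s i = s j` gives `(s i * s j)^1 = 1`, so `M i j ∣ 1`, `M i j = 1`, `i = j` by
`off_diagonal`.
`sr_mem`: for `w` in the closure of `{s y | y ∈ Y}` and all `v` the vector `geo w v - v` is
supported in
`Y` (`Finsupp.support ⊆ Y`; closure induction; `r_y v = v - f_y(v) e_y`). For `w = s i`, `v = e_i`: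
`r_i e_i - e_i = - 2 e_i`, so `i ∈ Y`.
-/

set_option autoImplicit false

noncomputable section

namespace Pool.Agent.Art

open Classical

variable {B : Type} (M : CoxeterMatrix B)

/-- The simple reflections of the Coxeter group. -/
abbrev sr (i : B) : M.Group := M.toCoxeterSystem.simple i

/-- The geometric representation. -/
def geo : M.Group →* ((B →₀ ℝ) ≃ₗ[ℝ] (B →₀ ℝ)) :=
  M.toCoxeterSystem.lift ⟨rfn M, fun i j => refl_pow M i j⟩

theorem geo_sr (i : B) : geo M (sr M i) = rfn M i :=
  M.toCoxeterSystem.lift_apply_simple (fun i j => refl_pow M i j) i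

theorem sr_pow_eq_one (i j : B) (k : ℕ) : (sr M i * sr M j) ^ k = 1 ↔ M i j ∣ k := by
  constructor
  · intro h
    apply refl_ord M i j k
    have h1 := congrArg (geo M) h
    rw [map_pow, map_mul, geo_sr, geo_sr, map_one] at h1
    exact h1
  · rintro ⟨l, rfl⟩
    rw [pow_mul, M.toCoxeterSystem.simple_mul_simple_pow i j, one_pow]

theorem sr_injective : Function.Injective (sr M) := by
  intro i j h
  have h1 : (sr M i * sr M j) ^ 1 = 1 := by
    rw [pow_one, ← h]
    exact M.toCoxeterSystem.simple_mul_simple_self i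
  have h2 := (sr_pow_eq_one M i j 1).1 h1
  by_contra hne
  exact M.off_diagonal i j hne (Nat.dvd_one.1 h2)

private theorem vsimp_rfn_apply (i : B) (v : B →₀ ℝ) (b : B) (hb : b ≠ i) :
    (rfn M i v) b = v b := by
  unfold rfn
  rw [Module.reflection_apply, Finsupp.sub_apply, Finsupp.smul_apply,
    Finsupp.single_eq_of_ne hb, smul_zero, sub_zero]

theorem sr_mem (Y : Set B) (i : B) (h : sr M i ∈ Subgroup.closure (sr M '' Y)) : i ∈ Y := by
  have key : ∀ w ∈ Subgroup.closure (sr M '' Y), ∀ (v : B →₀ ℝ) (b : B), b ∉ Y →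
      (geo M w v) b = v b := by
    intro w hw
    induction hw using Subgroup.closure_induction with
    | mem x hx =>
      obtain ⟨y, hy, rfl⟩ := hx
      intro v b hb
      rw [geo_sr]
      exact vsimp_rfn_apply M y v b fun h => hb (h ▸ hy)
    | one =>
      intro v b _
      rw [map_one]
      rfl
    | mul x y _ _ hx hy =>
      intro v b hb
      rw [map_mul, LinearEquiv.mul_apply, hx _ b hb, hy v b hb]
    | inv x _ hx =>
      intro v b hb
      have h1 := hx (geo M x⁻¹ v) b hb
      rw [← LinearEquiv.mul_apply, ← map_mul, mul_inv_cancel, map_one] at h1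
      exact h1.symm
  by_contra hi
  have h1 := key _ h (Finsupp.single i 1) i hi
  rw [geo_sr] at h1
  unfold rfn at h1
  rw [Module.reflection_apply, frm_self, Finsupp.sub_apply, Finsupp.smul_apply,
    Finsupp.single_eq_same] at h1
  norm_num at h1

end Pool.Agent.Art
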