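import Pool.Agent.Art.VRk2

/-!
# The action of a generator on minimal representatives times a parabolic Artin group

PROOFS.
`om_step`: `nu (s i * w) (s x) = nu w (s x) + nu (s i) (w s_x w⁻¹) = 0 + [w s_x w⁻¹ = s i]`
(`nu_mul`, `nu_sr`).
`hit_unique`: `sr_injective`.
`stepP`: the inverse of `stepf` is `(w, a) ↦ (w, g_x⁻¹ a)` if `s_i w = w s_x`, and `(s_i w, a)`
otherwise. The condition
`∃ x, s_i w = w s_x` holds for `w` iff it holds for `s_i w` (multiply by `s_i`).
-/

set_option autoImplicit false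

noncomputable section

namespace Pool.Agent.Art

open Classical

variable {B : Type} (M : CoxeterMatrix B)

/-- The minimal representatives of the left cosets `w W_X`. -/
def Om (X : Set B) : Set M.Group := {w | ∀ x ∈ X, nu M w (sr M x) = 0}

/-- The state space. -/
abbrev Sta (X : Set B) : Type := {w : M.Group // w ∈ Om M X} × Artin (rst M X)

theorem one_mem_om (X : Set B) : (1 : M.Group) ∈ Om M X := fun _ _ => nu_one M _

theorem om_step (X : Set B) (w : M.Group) (hw : w ∈ Om M X) (i : B)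
    (h : ¬ ∃ x : X, sr M i * w = w * sr M x) : sr M i * w ∈ Om M X := by
  intro x hx
  rw [nu_mul, hw x hx, nu_sr, zero_add, if_neg]
  intro h1
  apply h
  refine ⟨⟨x, hx⟩, ?_⟩
  change sr M i * w = w * sr M x
  rw [← h1, inv_mul_cancel_right]

theorem hit_unique (w : M.Group) (i x y : B) (h1 : sr M i * w = w * sr M x)
    (h2 : sr M i * w = w * sr M y) : x = y := by
  rw [h1] at h2
  exact sr_injective M (mul_left_cancel h2)

private theorem vs_sq (i : B) (w : M.Group) : sr M i * (sr M i * w) = w := by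
  rw [← mul_assoc]
  have h1 : sr M i * sr M i = 1 := M.toCoxeterSystem.simple_mul_simple_self i
  rw [h1, one_mul]

private theorem vs_sq' (i : B) (w : M.Group) : w * sr M i * sr M i = w := by
  rw [mul_assoc]
  have h1 : sr M i * sr M i = 1 := M.toCoxeterSystem.simple_mul_simple_self i
  rw [h1, mul_one]

/-- the condition for `s i * w` -/
private theorem vs_iff (X : Set B) (i : B) (w : M.Group) :
    (∃ x : X, sr M i * (sr M i * w) = sr M i * w * sr M x) ↔
      ∃ x : X, sr M i * w = w * sr M x := by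
  constructor
  · rintro ⟨x, hx⟩
    refine ⟨x, ?_⟩
    rw [vs_sq] at hx
    conv_rhs => rw [hx]
    exact (vs_sq' M x _).symm
  · rintro ⟨x, hx⟩
    refine ⟨x, ?_⟩
    rw [vs_sq, hx, vs_sq']

/-- One step. -/
def stepf (X : Set B) (i : B) (q : Sta M X) : Sta M X :=
  if h : ∃ x : X, sr M i * q.1.1 = q.1.1 * sr M x then (q.1, gen (rst M X) h.choose * q.2)
  else (⟨sr M i * q.1.1, om_step M X q.1.1 q.1.2 i h⟩, q.2)

/-- The inverse step. -/
def stepg (X : Set B) (i : B) (q : Sta M X) : Sta M X :=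
  if h : ∃ x : X, sr M i * q.1.1 = q.1.1 * sr M x then (q.1, (gen (rst M X) h.choose)⁻¹ * q.2)
  else (⟨sr M i * q.1.1, om_step M X q.1.1 q.1.2 i h⟩, q.2)

theorem stepf_hit (X : Set B) (i : B) (w : {w : M.Group // w ∈ Om M X}) (a : Artin (rst M X)) (x : X)
    (h : sr M i * w.1 = w.1 * sr M x) : stepf M X i (w, a) = (w, gen (rst M X) x * a) := by
  have h1 : ∃ x : X, sr M i * (w, a).1.1 = (w, a).1.1 * sr M x := ⟨x, h⟩
  unfold stepf
  rw [dif_pos h1]
  have h2 : h1.choose = x := Subtype.ext (hit_unique M w.1 i _ _ h1.choose_spec h)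
  rw [h2]

theorem stepf_mis (X : Set B) (i : B) (w : {w : M.Group // w ∈ Om M X}) (a : Artin (rst M X))
    (h : ¬ ∃ x : X, sr M i * w.1 = w.1 * sr M x) :
    stepf M X i (w, a) = (⟨sr M i * w.1, om_step M X w.1 w.2 i h⟩, a) := by
  unfold stepf
  rw [dif_neg h]

private theorem stepg_hit (X : Set B) (i : B) (w : {w : M.Group // w ∈ Om M X})
    (a : Artin (rst M X)) (x : X) (h : sr M i * w.1 = w.1 * sr M x) :
    stepg M X i (w, a) = (w, (gen (rst M X) x)⁻¹ * a) := by
  have h1 : ∃ x : X, sr M i * (w, a).1.1 = (w, a).1.1 * sr M x := ⟨x, h⟩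
  unfold stepg
  rw [dif_pos h1]
  have h2 : h1.choose = x := Subtype.ext (hit_unique M w.1 i _ _ h1.choose_spec h)
  rw [h2]

private theorem stepg_mis (X : Set B) (i : B) (w : {w : M.Group // w ∈ Om M X})
    (a : Artin (rst M X)) (h : ¬ ∃ x : X, sr M i * w.1 = w.1 * sr M x) :
    stepg M X i (w, a) = (⟨sr M i * w.1, om_step M X w.1 w.2 i h⟩, a) := by
  unfold stepg
  rw [dif_neg h]

theorem stepg_stepf (X : Set B) (i : B) (q : Sta M X) : stepg M X i (stepf M X i q) = q := by
  obtain ⟨w, a⟩ := q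
  by_cases h : ∃ x : X, sr M i * w.1 = w.1 * sr M x
  · obtain ⟨x, hx⟩ := h
    rw [stepf_hit M X i w a x hx, stepg_hit M X i w _ x hx, inv_mul_cancel_left]
  · rw [stepf_mis M X i w a h]
    rw [stepg_mis M X i _ a (fun h2 => h ((vs_iff M X i w.1).1 h2))]
    refine Prod.ext (Subtype.ext ?_) rfl
    exact vs_sq M i w.1

theorem stepf_stepg (X : Set B) (i : B) (q : Sta M X) : stepf M X i (stepg M X i q) = q := by
  obtain ⟨w, a⟩ := q
  by_cases h : ∃ x : X, sr M i * w.1 = w.1 * sr M x
  · obtain ⟨x, hx⟩ := h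
    rw [stepg_hit M X i w a x hx, stepf_hit M X i w _ x hx, mul_inv_cancel_left]
  · rw [stepg_mis M X i w a h]
    rw [stepf_mis M X i _ a (fun h2 => h ((vs_iff M X i w.1).1 h2))]
    refine Prod.ext (Subtype.ext ?_) rfl
    exact vs_sq M i w.1

/-- One step as a permutation. -/
def stepP (X : Set B) (i : B) : Equiv.Perm (Sta M X) where
  toFun := stepf M X i
  invFun := stepg M X i
  left_inv := stepg_stepf M X i
  right_inv := stepf_stepg M X i

end Pool.Agent.Art
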