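import Pool.Agent.Art.VStep

/-!
# The braid relations for the action

PROOFS.
`walk`: induction on `L`. `L = 0`: first alternative. Step `L → L + 1` (`L + 1 ≤ M i j`), letter
`r = lt i j L`,
`p = al (sr M) i j L`, `r p = p ρ_L`, `ρ_L = rho M i j L` (`let_mul`).
 First alternative for `L`: the state is `(w₁, a)`, `w₁ = p w`. `s_r w₁ = w₁ s_x ↔ ρ_L w = w s_x`
 (cancel `p`).
 If there is such an `x`: `stepf_hit`, the new state is `(w₁, g_x a)` and `w₁ = r w₁ s_x = (r p) w
 s_x` (as `r w₁ = w₁ s_x`).
 Otherwise `stepf_mis`, the new state is `(r w₁, a)`.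
 Second alternative for `L` with `x`, `n < L`: the state is `(w₁, g_x a)`, `w₁ = p w s_x`. Claim:
 there is no `y : X` with
 `s_r w₁ = w₁ s_y`. Otherwise `ρ_L w s_x = w s_x s_y` (cancel `p`), so with `ρ = rho n`, `ρ w = w
 s_x`:
 `w s_y = w s_x (s_x s_y) = ρ w s_x s_y = ρ ... ` precisely `w s_y = (ρ ρ_L ρ) w` (use `w s_x = ρ
 w`, `s_x s_x = 1`,
 `ρ⁻¹ = ρ`), and `ρ ρ_L ρ⁻¹ = rho n''` (`rho_conj`, `rho_mem`). If `y = x`: `ρ_L w s_x = w` gives
 `ρ_L = ρ` i.e. `rho L = rho n`, so `M i j ∣ L - n` by `rho_eq`, but `0 < L - n < M i j`. If `y ≠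
 x`: `rank_two` (for `w`, `x`, `y`,
 `n`, `n''`) contradicts `hn`. So `stepf_mis`, the new state is `(r w₁, g_x a)`.
`walk_both`: induction on `L` with `stepf_hit`.
`braid_step`: let `m = M i j`; `i = j` is trivial. By `alt_iff_al` show `al (stepP M X) i j m = al
(stepP M X) j i m`;
take a state `(w, a)`. If there are `x y` with `s_i w = w s_x`, `s_j w = w s_y`: `x ≠ y`
(`sr_injective`), `M x y = M i j`
(`M_eq`), `walk_both` for both sides and `braid (rst M X)` (`alt_iff_al`). Otherwise use `walk`
for `(i, j)` and for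
`(j, i)` (`M.symmetric`), `L = m`. If both first alternatives: `pw_swap`. One first, one second:
contradiction by `rho_swap`.
Both second with `x`, `y`: if `x ≠ y`, `rho_swap` and `rank_two` contradict the assumption; so `x
= y` and `pw_swap`.
-/

set_option autoImplicit false

noncomputable section

namespace Pool.Agent.Art

open Classical

variable {B : Type} (M : CoxeterMatrix B)

private theorem vw_ss (i : B) : sr M i * sr M i = 1 :=
  M.toCoxeterSystem.simple_mul_simple_self i

private theorem vw_al_succ {C : Type} {G : Type*} [Monoid G] (f : C → G) (i j : C) (L : ℕ) :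
    al f i j (L + 1) = f (lt i j L) * al f i j L := rfl

private theorem vw_step (X : Set B) (i j : B) (L : ℕ) (q : Sta M X) :
    al (stepP M X) i j (L + 1) q = stepf M X (lt i j L) (al (stepP M X) i j L q) := rfl

theorem walk (X : Set B) (i j : B) (hm : M i j ≠ 0) (w : {w : M.Group // w ∈ Om M X})
    (hn : ¬ ∃ x y : X, sr M i * w.1 = w.1 * sr M x ∧ sr M j * w.1 = w.1 * sr M y)
    (a : Artin (rst M X)) (L : ℕ) (hL : L ≤ M i j) :
    ((∀ n < L, ∀ x : X, rho M i j n * w.1 ≠ w.1 * sr M x) ∧
      (al (stepP M X) i j L (w, a)).1.1 = al (sr M) i j L * w.1 ∧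
      (al (stepP M X) i j L (w, a)).2 = a) ∨
    (∃ x : X, (∃ n < L, rho M i j n * w.1 = w.1 * sr M x) ∧
      (al (stepP M X) i j L (w, a)).1.1 = al (sr M) i j L * w.1 * sr M x ∧
      (al (stepP M X) i j L (w, a)).2 = gen (rst M X) x * a) := by
  induction L with
  | zero =>
    left
    refine ⟨fun n hn => absurd hn (Nat.not_lt_zero n), ?_, rfl⟩
    change w.1 = 1 * w.1
    rw [one_mul]
  | succ L ih =>
    have hlm := let_mul M i j L
    change sr M (lt i j L) * al (sr M) i j L = al (sr M) i j L * rho M i j L at hlm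
    rw [vw_step, vw_al_succ (sr M)]
    generalize hr : lt i j L = r at hlm ⊢
    generalize hp : al (sr M) i j L = p at hlm ih ⊢
    rcases ih (by omega) with ⟨h1, h2, h3⟩ | ⟨x, ⟨n, hnL, hnx⟩, h2, h3⟩
    · generalize al (stepP M X) i j L (w, a) = q at h2 h3 ⊢
      obtain ⟨w1, a1⟩ := q
      change w1.1 = p * w.1 at h2
      change a1 = a at h3
      by_cases hx : ∃ x : X, sr M r * w1.1 = w1.1 * sr M x
      · obtain ⟨x, hx⟩ := hx
        right
        refine ⟨x, ⟨L, Nat.lt_succ_self L, ?_⟩, ?_, ?_⟩
        · rw [h2, ← mul_assoc, hlm, mul_assoc, mul_assoc] at hx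
          exact mul_left_cancel hx
        · rw [stepf_hit M X r w1 a1 x hx]
          change w1.1 = _
          rw [mul_assoc (sr M r), ← h2, hx, mul_assoc, vw_ss, mul_one]
        · rw [stepf_hit M X r w1 a1 x hx]
          change gen (rst M X) x * a1 = _
          rw [h3]
      · left
        refine ⟨?_, ?_, ?_⟩
        · intro n hn1 x hx1
          rcases Nat.lt_succ_iff_lt_or_eq.1 hn1 with h | h
          · exact h1 n h x hx1
          · subst h
            apply hx
            refine ⟨x, ?_⟩
            rw [h2, ← mul_assoc, hlm, mul_assoc, hx1, mul_assoc]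
        · rw [stepf_mis M X r w1 a1 hx]
          change sr M r * w1.1 = _
          rw [h2, mul_assoc]
        · rw [stepf_mis M X r w1 a1 hx]
          exact h3
    · right
      refine ⟨x, ⟨n, Nat.lt_succ_of_lt hnL, hnx⟩, ?_⟩
      generalize al (stepP M X) i j L (w, a) = q at h2 h3 ⊢
      obtain ⟨w1, a1⟩ := q
      change w1.1 = p * w.1 * sr M x at h2
      change a1 = gen (rst M X) x * a at h3
      have hno : ¬ ∃ y : X, sr M r * w1.1 = w1.1 * sr M y := by
        rintro ⟨y, hy⟩
        have e1 : rho M i j L * (w.1 * sr M x) = w.1 * sr M x * sr M y := by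
          rw [h2, mul_assoc p, ← mul_assoc (sr M r), hlm, mul_assoc, mul_assoc] at hy
          exact mul_left_cancel hy
        by_cases hxy : y = x
        · subst hxy
          rw [mul_assoc w.1, vw_ss, mul_one, ← mul_assoc] at e1
          have e2 : rho M i j L * w.1 = w.1 * sr M y := by
            calc rho M i j L * w.1 = rho M i j L * w.1 * (sr M y * sr M y) := by
                  rw [vw_ss, mul_one]
              _ = rho M i j L * w.1 * sr M y * sr M y := by rw [mul_assoc (rho M i j L * w.1)]
              _ = w.1 * sr M y := by rw [e1]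
          have e3 : rho M i j L = rho M i j n := by
            apply mul_right_cancel (b := w.1)
            rw [e2, hnx]
          have e4 := rho_eq M i j L n hnL.le e3
          have e5 := Nat.le_of_dvd (by omega) e4
          omega
        · have hrr : rho M i j n * rho M i j n = 1 := by
            apply mul_right_cancel (b := w.1)
            rw [mul_assoc, hnx, ← mul_assoc, hnx, mul_assoc, vw_ss, mul_one, one_mul]
          have hri : (rho M i j n)⁻¹ = rho M i j n := inv_eq_of_mul_eq_one_right hrr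
          obtain ⟨n2, _, hn2⟩ := rho_conj M i j hm L (rho M i j n) (rho_mem M i j n)
          rw [hri] at hn2
          have e6 : rho M i j n2 * w.1 = w.1 * sr M y := by
            rw [← hn2, mul_assoc, hnx, mul_assoc, e1, ← mul_assoc, ← mul_assoc, hnx,
              mul_assoc w.1, vw_ss, mul_one]
          rcases rank_two M X w.1 w.2 i j hm x y x.2 y.2
            (fun h => hxy (Subtype.ext h.symm)) n n2 hnx e6 with ⟨g1, g2⟩ | ⟨g1, g2⟩
          · exact hn ⟨x, y, g1, g2⟩
          · exact hn ⟨y, x, g1, g2⟩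
      constructor
      · rw [stepf_mis M X r w1 a1 hno]
        change sr M r * w1.1 = _
        rw [h2, mul_assoc, mul_assoc, mul_assoc]
      · rw [stepf_mis M X r w1 a1 hno]
        exact h3

theorem walk_both (X : Set B) (i j : B) (w : {w : M.Group // w ∈ Om M X}) (x y : X)
    (h1 : sr M i * w.1 = w.1 * sr M x) (h2 : sr M j * w.1 = w.1 * sr M y)
    (a : Artin (rst M X)) (L : ℕ) :
    al (stepP M X) i j L (w, a) = (w, al (gen (rst M X)) x y L * a) := by
  induction L with
  | zero =>
    change (w, a) = (w, 1 * a)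
    rw [one_mul]
  | succ L ih =>
    rw [vw_step, ih, vw_al_succ (gen (rst M X)), mul_assoc]
    apply stepf_hit
    unfold lt
    split_ifs
    · exact h2
    · exact h1

theorem braid_step (X : Set B) (i j : B) (hm : M i j ≠ 0) :
    alt (stepP M X i) (stepP M X j) (M i j) = alt (stepP M X j) (stepP M X i) (M i j) := by
  rw [alt_iff_al (stepP M X)]
  have hs : M j i = M i j := M.symmetric j i
  have hm' : M j i ≠ 0 := by rw [hs]; exact hm
  apply Equiv.ext
  rintro ⟨w, a⟩
  by_cases hn : ∃ x y : X, sr M i * w.1 = w.1 * sr M x ∧ sr M j * w.1 = w.1 * sr M y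
  · obtain ⟨x, y, h1, h2⟩ := hn
    have hM : rst M X x y = M i j := by
      rw [rst_apply]
      exact M_eq M w.1 i j x y h1 h2
    rw [walk_both M X i j w x y h1 h2, walk_both M X j i w y x h2 h1]
    have hb := braid (rst M X) (i := x) (j := y) (by rw [hM]; exact hm)
    rw [alt_iff_al (gen (rst M X)), hM] at hb
    rw [hb]
  · have hn' : ¬ ∃ x y : X, sr M j * w.1 = w.1 * sr M x ∧ sr M i * w.1 = w.1 * sr M y := by
      rintro ⟨x, y, h1, h2⟩
      exact hn ⟨y, x, h2, h1⟩
    have w1 := walk M X i j hm w hn a (M i j) le_rfl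
    have w2 := walk M X j i hm' w hn' a (M i j) hs.ge
    have hsw : al (sr M) i j (M i j) = al (sr M) j i (M i j) := pw_swap M i j
    rcases w1 with ⟨f1, f2, f3⟩ | ⟨x, ⟨n, hnL, hnx⟩, f2, f3⟩
    · rcases w2 with ⟨g1, g2, g3⟩ | ⟨y, ⟨n', hnL', hny⟩, g2, g3⟩
      · refine Prod.ext (Subtype.ext ?_) ?_
        · rw [f2, g2, hsw]
        · rw [f3, g3]
      · exfalso
        obtain ⟨k, hk, hk2⟩ := rho_swap M j i hm' n'
        exact f1 k (by omega) y (by rw [← hk2]; exact hny)
    · rcases w2 with ⟨g1, g2, g3⟩ | ⟨y, ⟨n', hnL', hny⟩, g2, g3⟩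
      · exfalso
        obtain ⟨k, hk, hk2⟩ := rho_swap M i j hm n
        exact g1 k (by omega) x (by rw [← hk2]; exact hnx)
      · have hxy : x = y := by
          by_contra hne
          obtain ⟨k, _, hk2⟩ := rho_swap M j i hm' n'
          rw [hk2] at hny
          rcases rank_two M X w.1 w.2 i j hm x y x.2 y.2
            (fun h => hne (Subtype.ext h)) n k hnx hny with ⟨g1, g2⟩ | ⟨g1, g2⟩
          · exact hn ⟨x, y, g1, g2⟩
          · exact hn ⟨y, x, g1, g2⟩
        subst hxy
        refine Prod.ext (Subtype.ext ?_) ?_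
        · rw [f2, g2, hsw]
        · rw [f3, g3]

end Pool.Agent.Art
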