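import Pool.Agent.Art.Row

/-!
# A word with `phiW = 0` (a multiple of the longest element)

PROOF. For a linear automorphism `w` which is a product of simple reflections (an element of
the range of `D.w`, or simply the product of `rho` over a word) let
`N w = {b | w⁻¹ (v b) = -v c for some c}`.
CLAIM: for every word `u = s₁ ... s_k` which is extended only by `s` with `w⁻¹ (v (a s))`
positive (i.e. of the form `v c`; `w` = product of the `rho` of the word), the zero rows of
`phiW u` are exactly `N w`: `(∀ b', phiW u b b' = 0) ↔ b ∈ N w`. Induction: `u = []`, `w = 1`: no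
zero rows, `N = ∅` (heights). Step from `u, w` to `s :: u`, `rho s * w`, `w⁻¹ (v (a s)) = v c₀`: by
`phiQ_mul` the row `b` of `phiW (s :: u)` is zero iff: `b = a s`: always; and
`(rho s w)⁻¹ (v (a s)) = w⁻¹ (-v (a s)) = -v c₀`, so `a s ∈ N`. `b ≠ a s`: note
`(rho s w)⁻¹ (v b) = w⁻¹ (v (r s b))`, so `b ∈ N (rho s w) ↔ r s b ∈ N w`. `ip b (a s) = 0`:
`r s b = b`, row `b`. `ip = 1`: the row `r s b`. `ip = -1`: rows `b` and `r s b` both zero, i.e.
`b, r s b ∈ N w`; but `r s b ∈ N w` implies `b ∈ N w`: `w⁻¹ (v b) = w⁻¹ (v (r s b)) - v c₀` has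
negative height and is plus or minus a root (`w_v`), so it is `-v c`. Fine.
TERMINATION: as long as some simple root `a s` has `w⁻¹ (v (a s))` positive, `N` grows by one
element: `N (rho s w) = {a s} ∪ r s '' (N w)` (`r s` is injective, `a s ∉ N w`); `P` is finite. At
the end `w⁻¹ (v (a s))` is negative for all `s`; then `N w = P`: by induction on the height, if
`b` is not simple `v b = v b' + v (a s)` (`desc`, `v_r_one`), the sum of two negatives has
negative height. So all rows of `phiW u` are zero.
-/

set_option autoImplicit false

namespace Pool.Agent.Art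

open Matrix Polynomial

variable {S P V : Type} [AddCommGroup V] [DecidableEq P] [Fintype P] (D : RD S P V)

/-- The invariant: `g` is the inverse of the product of the reflections over the word `u`. -/
private structure ZInv (u : List S) (g : V →+ V) : Prop where
  root : ∀ b, (∃ c, g (D.v b) = D.v c) ∨ (∃ c, g (D.v b) = -D.v c)
  row : ∀ b, (∀ b', D.phiW u b b' = 0) ↔ ∃ c, g (D.v b) = -D.v c

private theorem zero_neg {u : List S} {g : V →+ V} (I : ZInv D u g) {b : P}
    (h : D.h (g (D.v b)) < 0) : ∃ c, g (D.v b) = -D.v c := by
  rcases I.root b with ⟨c, hc⟩ | h1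
  · rw [hc] at h
    have := D.hpos c
    omega
  · exact h1

private theorem zero_ne (b c : P) : D.v b ≠ -D.v c := by
  intro e
  have h1 := congrArg D.h e
  rw [map_neg] at h1
  have h2 := D.hpos b
  have h3 := D.hpos c
  omega

private theorem zero_init : ZInv D [] (AddMonoidHom.id V) where
  root b := Or.inl ⟨b, rfl⟩
  row b := by
    constructor
    · intro h
      have h1 := h b
      simp [RD.phiW] at h1
    · rintro ⟨c, hc⟩
      exact absurd hc (zero_ne D b c)

/-- The new automorphism. -/
private def zNext (s : S) (g : V →+ V) : V →+ V :=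
  g.comp (D.rho s).toLinearMap.toAddMonoidHom

private theorem zNext_apply (s : S) (g : V →+ V) (y : V) :
    zNext D s g y = g (D.rho s y) := rfl

private theorem zNext_self {s : S} {g : V →+ V} {c : P} (hs : g (D.v (D.a s)) = D.v c) :
    zNext D s g (D.v (D.a s)) = -D.v c := by
  rw [zNext_apply, D.rho_self, map_neg, hs]

private theorem zNext_ne {s : S} (g : V →+ V) {b : P} (hb : b ≠ D.a s) :
    zNext D s g (D.v b) = g (D.v (D.r s b)) := by
  rw [zNext_apply, D.rho_v hb]

private theorem zero_step {u : List S} {g : V →+ V} (I : ZInv D u g) {s : S} {c : P}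
    (hs : g (D.v (D.a s)) = D.v c) : ZInv D (s :: u) (zNext D s g) where
  root b := by
    by_cases hb : b = D.a s
    · right
      exact ⟨c, by rw [hb, zNext_self D hs]⟩
    · rw [zNext_ne D g hb]
      exact I.root _
  row b := by
    rw [D.phiW_cons]
    by_cases hb : b = D.a s
    · constructor
      · intro _
        exact ⟨c, by rw [hb, zNext_self D hs]⟩
      · intro _ b'
        rw [D.phiQ_mul, if_pos hb]
    · rw [zNext_ne D g hb, ← I.row]
      rcases D.ip_cases b (D.a s) with h | h | h | h
      · exact absurd h hb
      · have e : ∀ b', (D.phiQ s * D.phiW u) b b' =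
            1 / 2 * D.phiW u b b' + 1 / 2 * D.phiW u (D.r s b) b' := by
          intro b'
          rw [D.phiQ_mul, if_neg hb, if_neg (by rw [h]; norm_num), if_neg (by rw [h]; norm_num)]
        constructor
        · intro h1 b'
          have h2 := h1 b'
          rw [e] at h2
          have h3 := D.phiW_nonneg u b b'
          have h4 := D.phiW_nonneg u (D.r s b) b'
          linarith
        · intro h1 b'
          have h5 : ∀ b', D.phiW u b b' = 0 := by
            rw [I.row]
            obtain ⟨c', hc'⟩ := (I.row _).1 h1
            apply zero_neg D I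
            rw [D.v_r_neg h, map_add, hs] at hc'
            have h6 := congrArg D.h hc'
            rw [map_add, map_neg] at h6
            have h7 := D.hpos c
            have h8 := D.hpos c'
            omega
          rw [e, h1 b', h5 b']
          norm_num
      · rw [D.r_zero h]
        refine forall_congr' fun b' => ?_
        rw [D.phiQ_mul, if_neg hb, if_pos h]
      · refine forall_congr' fun b' => ?_
        rw [D.phiQ_mul, if_neg hb, if_neg (by rw [h]; norm_num), if_pos h]

private theorem zero_end {u : List S} {g : V →+ V} (I : ZInv D u g)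
    (he : ∀ s c, g (D.v (D.a s)) ≠ D.v c) : D.phiW u = 0 := by
  have hs : ∀ s, ∃ c, g (D.v (D.a s)) = -D.v c := by
    intro s
    rcases I.root (D.a s) with ⟨c, hc⟩ | h
    · exact absurd hc (he s c)
    · exact h
  have key : ∀ (k : ℕ) (b : P), D.h (D.v b) ≤ k → ∃ c, g (D.v b) = -D.v c := by
    intro k
    induction k with
    | zero =>
      intro b hb
      have := D.hpos b
      omega
    | succ k ih =>
      intro b hb
      by_cases h : ∀ s, b ≠ D.a s
      · obtain ⟨s, h1⟩ := D.desc b h
        have h2 : D.v (D.r s b) = D.v b - D.v (D.a s) := D.v_r_one h1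
        have h3 : D.h (D.v (D.r s b)) ≤ k := by
          rw [h2, map_sub, D.ha]
          push_cast at hb
          omega
        obtain ⟨c, hc⟩ := ih _ h3
        obtain ⟨c', hc'⟩ := hs s
        apply zero_neg D I
        have h4 : D.v b = D.v (D.r s b) + D.v (D.a s) := by
          rw [h2]
          abel
        rw [h4, map_add, hc, hc', map_add, map_neg, map_neg]
        have h5 := D.hpos c
        have h6 := D.hpos c'
        omega
      · push Not at h
        obtain ⟨s, rfl⟩ := h
        exact hs s
  ext b b'
  have h1 : ∃ c, g (D.v b) = -D.v c := key (D.h (D.v b)).toNat b (Int.self_le_toNat _)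
  exact (I.row b).2 h1 b'

open Classical in
private theorem zero_card {g : V →+ V} {s : S} {c : P} (hs : g (D.v (D.a s)) = D.v c) :
    (Finset.univ.filter fun b : P => ∃ c, g (D.v b) = -D.v c).card <
      (Finset.univ.filter fun b : P => ∃ c, zNext D s g (D.v b) = -D.v c).card := by
  set A : Finset P := Finset.univ.filter fun b : P => ∃ c, g (D.v b) = -D.v c with hA
  have hinj : Function.Injective (D.r s) := by
    intro x y hxy
    rw [← D.r_r s x, hxy, D.r_r]
  have hnot : D.a s ∉ A := by
    rw [hA, Finset.mem_filter]
    rintro ⟨_, c', hc'⟩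
    exact zero_ne D c c' (hs.symm.trans hc')
  have hnot2 : D.a s ∉ A.image (D.r s) := by
    rw [Finset.mem_image]
    rintro ⟨b, hb, hb2⟩
    have h1 : b = D.a s := by
      rw [← D.r_r s b, hb2, D.r_self]
    exact hnot (h1 ▸ hb)
  have hsub : insert (D.a s) (A.image (D.r s)) ⊆
      Finset.univ.filter fun b : P => ∃ c, zNext D s g (D.v b) = -D.v c := by
    intro x hx
    rw [Finset.mem_filter]
    refine ⟨Finset.mem_univ _, ?_⟩
    rcases Finset.mem_insert.1 hx with rfl | hx
    · exact ⟨c, zNext_self D hs⟩
    · obtain ⟨b, hb, rfl⟩ := Finset.mem_image.1 hx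
      have hbs : b ≠ D.a s := by
        rintro rfl
        exact hnot hb
      rw [zNext_ne D g (D.r_ne_a hbs), D.r_r]
      exact (Finset.mem_filter.1 hb).2
  have h1 := Finset.card_le_card hsub
  rw [Finset.card_insert_of_notMem hnot2, Finset.card_image_of_injective _ hinj] at h1
  omega

open Classical in
private theorem zero_main (k : ℕ) : ∀ (u : List S) (g : V →+ V), ZInv D u g →
    Fintype.card P ≤ (Finset.univ.filter fun b : P => ∃ c, g (D.v b) = -D.v c).card + k →
    ∃ u : List S, D.phiW u = 0 := by
  induction k with
  | zero =>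
    intro u g I hk
    by_cases he : ∀ s c, g (D.v (D.a s)) ≠ D.v c
    · exact ⟨u, zero_end D I he⟩
    · push Not at he
      obtain ⟨s, c, hs⟩ := he
      have h1 := zero_card D hs
      have h2 := Finset.card_le_univ
        (Finset.univ.filter fun b : P => ∃ c, zNext D s g (D.v b) = -D.v c)
      omega
  | succ k ih =>
    intro u g I hk
    by_cases he : ∀ s c, g (D.v (D.a s)) ≠ D.v c
    · exact ⟨u, zero_end D I he⟩
    · push Not at he
      obtain ⟨s, c, hs⟩ := he
      have h1 := zero_card D hs
      exact ih _ _ (zero_step D I hs) (by omega)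

theorem RD.exists_word_zero {M : CoxeterMatrix S} (hM : D.Fits M) :
    ∃ u : List S, D.phiW u = 0 := by
  have _ := hM
  classical
  exact zero_main D (Fintype.card P) [] (AddMonoidHom.id V) (zero_init D) (by omega)

end Pool.Agent.Art
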